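import Pool.Agent.MP_05b4bd_ag.esc.Defs

-- ======== part 0: formerly Pool.Agent.MP_05b4bd_ag.esc.K1a
section MrgPart0

/-! Kit 1: derivations, coefficientwise maps. -/

namespace Pool.Agent.MP_05b4bd_ag.ES

open PowerSeries

variable {R S T A B : Type} [CommRing R] [CommRing S] [CommRing T] [CommRing A] [CommRing B]

section Der
variable {D E : S →+ S} {g : R →+* S} {δ δ' : R →+ S}

theorem IsDer.over (h : IsDer D) : IsDerOver (RingHom.id S) D := h
theorem IsDerOver.one (h : IsDerOver g δ) : δ 1 = 0 := by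
  have := h 1 1
  rw [mul_one, map_one g, mul_one, one_mul] at this
  linear_combination -this
theorem IsDerOver.pow (h : IsDerOver g δ) (a : R) (n : ℕ) :
    δ (a ^ n) = n * g a ^ (n - 1) * δ a := by
  induction n with
  | zero => simp [h.one]
  | succ n ih =>
    rw [pow_succ, h, ih, map_pow]
    cases n with
    | zero => simp
    | succ n =>
      simp only [Nat.add_sub_cancel]
      push_cast
      ring
theorem IsDerOver.add (h : IsDerOver g δ) (h' : IsDerOver g δ') : IsDerOver g (δ + δ') := by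
  intro a b
  simp only [AddMonoidHom.add_apply]
  rw [h, h']
  ring
theorem IsDerOver.sub (h : IsDerOver g δ) (h' : IsDerOver g δ') : IsDerOver g (δ - δ') := by
  intro a b
  simp only [AddMonoidHom.sub_apply]
  rw [h, h']
  ring
theorem IsDerOver.mulLeft (h : IsDerOver g δ) (c : S) :
    IsDerOver g ((AddMonoidHom.mulLeft c).comp δ) := by
  intro a b
  change c * δ (a * b) = c * δ a * g b + g a * (c * δ b)
  rw [h]
  ring
theorem IsDer.comp_hom (h : IsDer D) (g : R →+* S) : IsDerOver g (D.comp g.toAddMonoidHom) := by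
  intro a b
  change D (g (a * b)) = D (g a) * g b + g a * D (g b)
  rw [map_mul, h]
theorem IsDer.hom_comp {L : R →+ R} (h : IsDer L) (g : R →+* S) :
    IsDerOver g (g.toAddMonoidHom.comp L) := by
  intro a b
  change g (L (a * b)) = g (L a) * g b + g a * g (L b)
  rw [h, map_add, map_mul, map_mul]
theorem IsDer.one (h : IsDer D) : D 1 = 0 := h.over.one
theorem IsDer.natCast (h : IsDer D) (n : ℕ) : D n = 0 := by
  rw [← nsmul_one, map_nsmul, h.one, nsmul_zero]
theorem IsDer.intCast (h : IsDer D) (n : ℤ) : D n = 0 := by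
  rw [← zsmul_one, map_zsmul, h.one, zsmul_zero]
theorem IsDer.rat [Algebra ℚ S] (h : IsDer D) (q : ℚ) : D (algebraMap ℚ S q) = 0 := by
  rw [Algebra.algebraMap_eq_smul_one]
  have h1 : (q.den : S) * (q • (1 : S)) = (q.num : S) := by
    rw [← Algebra.algebraMap_eq_smul_one, ← map_natCast (algebraMap ℚ S), ← map_mul,
      ← map_intCast (algebraMap ℚ S), Rat.den_mul_eq_num]
  have h2 := h (q.den : S) (q • (1 : S))
  rw [h1, h.intCast, h.natCast, zero_mul, zero_add] at h2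
  have h3 : algebraMap ℚ S (q.den : ℚ)⁻¹ * (q.den : S) = 1 := by
    rw [← map_natCast (algebraMap ℚ S), ← map_mul, inv_mul_cancel₀ (by exact_mod_cast q.den_nz),
      map_one]
  linear_combination (-algebraMap ℚ S (q.den : ℚ)⁻¹) * h2 - D (q • (1 : S)) * h3
theorem IsDer.pow (h : IsDer D) (a : S) (n : ℕ) : D (a ^ n) = n * a ^ (n - 1) * D a :=
  h.over.pow a n
theorem IsDer.inv (h : IsDer D) {u v : S} (e : u * v = 1) : D v = -(v ^ 2 * D u) := by
  have := h u v
  rw [e, h.one] at this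
  linear_combination (-v) * this - D v * e
theorem IsDer.const_mul (h : IsDer D) {c : S} (hc : D c = 0) (a : S) : D (c * a) = c * D a := by
  rw [h, hc, zero_mul, zero_add]
theorem IsDer.add (h : IsDer D) (h' : IsDer E) : IsDer (D + E) := h.over.add h'.over
theorem IsDer.sub (h : IsDer D) (h' : IsDer E) : IsDer (D - E) := h.over.sub h'.over
theorem IsDer.nsmul (h : IsDer D) (n : ℕ) : IsDer (n • D) := by
  intro a b
  simp only [AddMonoidHom.nsmul_apply, nsmul_eq_mul]
  rw [h]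
  ring
theorem IsDer.mulLeft (h : IsDer D) (c : S) : IsDer ((AddMonoidHom.mulLeft c).comp D) :=
  h.over.mulLeft c
theorem IsDer.comm (h : IsDer D) (h' : IsDer E) : IsDer (D.comp E - E.comp D) := by
  intro a b
  simp only [AddMonoidHom.sub_apply, AddMonoidHom.comp_apply]
  rw [h', h a b, map_add, map_add, h, h, h', h']
  ring
theorem IsDer.dvd (h : IsDer D) {t : S} (ht : D t = 0) {n : ℕ} {a : S} (ha : t ^ n ∣ a) :
    t ^ n ∣ D a := by
  obtain ⟨c, rfl⟩ := ha
  rw [h.const_mul (by rw [h.pow, ht, mul_zero])]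
  exact dvd_mul_right _ _
theorem IsDer.mem_pow (h : IsDer D) (J : Ideal S) {n : ℕ} {a : S} (ha : a ∈ J ^ (n + 1)) :
    D a ∈ J ^ n := by
  induction n generalizing a with
  | zero => simp
  | succ n ih =>
    rw [pow_succ] at ha
    refine Submodule.mul_induction_on ha (fun x hx y hy => ?_) fun x y hx hy => ?_
    · rw [h]
      refine add_mem ?_ (Ideal.mul_mem_right _ _ hx)
      rw [pow_succ]
      exact Ideal.mul_mem_mul (ih hx) hy
    · rw [map_add]
      exact add_mem hx hy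
/-- Chain rule for a polynomial in two variables with constant coefficients. -/
theorem IsDer.eval₂ (h : IsDer D) (φ : R →+* S) (hφ : ∀ r, D (φ r) = 0) (x y : S) (u : HC.R2 R) :
    D (MvPolynomial.eval₂ φ ![x, y] u) =
      MvPolynomial.eval₂ φ ![x, y] (MvPolynomial.pderiv 0 u) * D x +
        MvPolynomial.eval₂ φ ![x, y] (MvPolynomial.pderiv 1 u) * D y := by
  induction u using MvPolynomial.induction_on with
  | C a => simp [hφ]
  | add p q hp hq =>
    simp only [MvPolynomial.eval₂_add, map_add, hp, hq]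
    ring
  | mul_X p i hp =>
    rw [MvPolynomial.eval₂_mul, h, hp]
    fin_cases i <;>
      simp [Derivation.leibniz, MvPolynomial.eval₂_add, MvPolynomial.eval₂_mul] <;> ring
theorem isDer_pd (i : Fin 2) : IsDer (pd R i) := by
  intro a b
  change MvPolynomial.pderiv i (a * b) = MvPolynomial.pderiv i a * b + a * MvPolynomial.pderiv i b
  rw [Derivation.leibniz, smul_eq_mul, smul_eq_mul]
  ring
theorem pd_apply (i : Fin 2) (u : HC.R2 R) : pd R i u = MvPolynomial.pderiv i u := rfl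
end Der

section Cw
theorem coeff_cw (L : A →+ B) (f : A⟦X⟧) (n : ℕ) : coeff n (cw L f) = L (coeff n f) := by
  simp [cw]
theorem cc_cw (L : A →+ B) (f : A⟦X⟧) : cc (cw L f) = L (cc f) := by
  have := coeff_cw L f 0
  rwa [coeff_zero_eq_constantCoeff_apply, coeff_zero_eq_constantCoeff_apply] at this
theorem cw_C (L : A →+ B) (a : A) : cw L (C a) = C (L a) := by
  ext n
  rw [coeff_cw, coeff_C, coeff_C]
  split_ifs <;> simp
theorem cw_X {L : A →+ B} (h : L 1 = 0) : cw L X = 0 := by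
  ext n
  rw [coeff_cw, coeff_X]
  split_ifs <;> simp [h]
theorem cw_X_pow_mul (L : A →+ B) (n : ℕ) (f : A⟦X⟧) : cw L (X ^ n * f) = X ^ n * cw L f := by
  ext m
  rw [coeff_cw, coeff_X_pow_mul', coeff_X_pow_mul']
  split_ifs <;> simp [coeff_cw]
theorem cw_hom (φ : A →+* B) (f : A⟦X⟧) : cw φ.toAddMonoidHom f = map φ f := by
  ext n
  rw [coeff_cw, coeff_map]
  rfl
theorem cw_add (L L' : A →+ B) : cw (L + L') = cw L + cw L' := by
  ext f n
  simp [coeff_cw]
theorem cw_sub (L L' : A →+ B) : cw (L - L') = cw L - cw L' := by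
  ext f n
  simp [coeff_cw]
theorem cw_mulLeft (c : B) (L : A →+ B) (f : A⟦X⟧) :
    cw ((AddMonoidHom.mulLeft c).comp L) f = C c * cw L f := by
  ext n
  rw [coeff_cw, coeff_C_mul, coeff_cw]
  rfl
theorem IsDerOver.coefw {g : A →+* B} {δ : A →+ B} (h : IsDerOver g δ) :
    IsDerOver (map g) (cw δ) := by
  intro a b
  ext n
  simp only [coeff_cw, coeff_mul, map_add, map_sum, coeff_map, ← Finset.sum_add_distrib]
  exact Finset.sum_congr rfl fun p _ => h _ _
theorem IsDer.coefw {D : A →+ A} (h : IsDer D) : IsDer (cw D) := by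
  intro a b
  ext n
  simp only [coeff_cw, coeff_mul, map_add, map_sum, ← Finset.sum_add_distrib]
  exact Finset.sum_congr rfl fun p _ => h _ _
theorem cw_comm {L : A →+ B} {L' : B →+ T} {M : A →+ S} {M' : S →+ T}
    (h : ∀ a, L' (L a) = M' (M a)) (f : A⟦X⟧) : cw L' (cw L f) = cw M' (cw M f) := by
  ext n
  simp only [coeff_cw, h]
theorem cw_map {φ : A →+* B} {D : A →+ A} {D' : B →+ B} {θ : B} (h : ∀ a, D' (φ a) = θ * φ (D a))
    (f : A⟦X⟧) : cw D' (map φ f) = C θ * map φ (cw D f) := by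
  ext n
  simp only [coeff_cw, coeff_map, coeff_C_mul, h]
theorem cw_map' {φ : A →+* B} {D : A →+ A} {D' : B →+ B} (h : ∀ a, D' (φ a) = φ (D a))
    (f : A⟦X⟧) : cw D' (map φ f) = map φ (cw D f) := by
  ext n
  simp only [coeff_cw, coeff_map, h]
/-- A projection that is linear over the subring. -/
theorem cw_proj {φ : A →+* B} {π : B →+ A} (h : ∀ a b, π (φ a * b) = a * π b) (f : A⟦X⟧)
    (g : B⟦X⟧) : cw π (map φ f * g) = f * cw π g := by
  ext n
  simp only [coeff_cw, coeff_mul, map_sum, coeff_map, h]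
theorem exists_map_of_coeff {φ : A →+* B} {f : B⟦X⟧} (h : ∀ n, ∃ a, coeff n f = φ a) :
    ∃ g, f = map φ g := by
  choose a ha using h
  exact ⟨mk a, by ext n; rw [coeff_map, coeff_mk, ha]⟩
theorem coeff_dX (f : R⟦X⟧) (n : ℕ) : coeff n (dX R f) = coeff (n + 1) f * (n + 1) :=
  coeff_derivative f n
theorem dX_C (r : R) : dX R (C r) = 0 := derivative_C
theorem dX_X : dX R X = 1 := derivative_X
theorem isDer_dX : IsDer (dX R) := by
  intro a b
  change derivative R (a * b) = derivative R a * b + a * derivative R b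
  rw [Derivation.leibniz, smul_eq_mul, smul_eq_mul]
  ring
theorem dX_map (φ : A →+* B) (f : A⟦X⟧) : dX B (map φ f) = map φ (dX A f) := by
  ext n
  simp [coeff_dX]
theorem map_mul_natCast (L : A →+ B) (a : A) (n : ℕ) : L (a * n) = L a * n := by
  rw [mul_comm, ← nsmul_eq_mul, map_nsmul, nsmul_eq_mul, mul_comm]
theorem dX_cw (L : A →+ B) (f : A⟦X⟧) : dX B (cw L f) = cw L (dX A f) := by
  ext n
  rw [coeff_dX, coeff_cw, coeff_cw, coeff_dX, ← Nat.cast_add_one, ← Nat.cast_add_one,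
    map_mul_natCast]
theorem dX_rescale (a : R) (f : R⟦X⟧) : dX R (rescale a f) = C a * rescale a (dX R f) := by
  ext n
  simp only [coeff_dX, coeff_rescale, coeff_C_mul]
  ring
theorem inv_succ_mul [Algebra ℚ R] (n : ℕ) : algebraMap ℚ R ((n : ℚ) + 1)⁻¹ * ((n : R) + 1) = 1 := by
  have : ((n : R) + 1) = algebraMap ℚ R ((n : ℚ) + 1) := by simp
  rw [this, ← map_mul, inv_mul_cancel₀ (by positivity), map_one]
theorem eq_zero_of_mul_succ [Algebra ℚ R] {a : R} {n : ℕ} (h : a * ((n : R) + 1) = 0) : a = 0 := by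
  linear_combination algebraMap ℚ R ((n : ℚ) + 1)⁻¹ * h - a * inv_succ_mul (R := R) n
theorem eq_C_of_dX [Algebra ℚ R] {f : R⟦X⟧} (h : dX R f = 0) : f = C (cc f) := by
  ext n
  cases n with
  | zero => simp
  | succ n =>
    rw [coeff_succ_C]
    refine eq_zero_of_mul_succ (n := n) ?_
    rw [← coeff_dX, h, map_zero]
theorem X_pow_dvd_of_dX [Algebra ℚ R] {f : R⟦X⟧} {n : ℕ} (h0 : cc f = 0) (h : X ^ n ∣ dX R f) :
    X ^ (n + 1) ∣ f := by
  rw [X_pow_dvd_iff] at h ⊢
  intro m hm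
  cases m with
  | zero => simpa using h0
  | succ m =>
    refine eq_zero_of_mul_succ (n := m) ?_
    rw [← coeff_dX, h m (by omega)]
theorem exists_int [Algebra ℚ R] : ∃ J : R⟦X⟧ →+ R⟦X⟧, (∀ f, dX R (J f) = f) ∧ (∀ f, cc (J f) = 0) ∧
    ∀ c f, J (C c * f) = C c * J f := by
  refine ⟨AddMonoidHom.mk' (fun f => X * mk fun n => algebraMap ℚ R ((n : ℚ) + 1)⁻¹ * coeff n f)
    fun f g => ?_, fun f => ?_, fun f => ?_, fun c f => ?_⟩
  · rw [← mul_add]
    congr 1
    ext n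
    simp [mul_add]
  · ext n
    rw [coeff_dX, AddMonoidHom.mk'_apply, coeff_succ_X_mul, coeff_mk]
    linear_combination coeff n f * inv_succ_mul (R := R) n
  · simp
  · simp only [AddMonoidHom.mk'_apply]
    rw [mul_left_comm]
    congr 1
    ext n
    simp only [coeff_mk, coeff_C_mul]
    ring
theorem thP_apply (f : R⟦X⟧) : thP R f = X * dX R f := rfl
theorem coeff_thP (f : R⟦X⟧) (n : ℕ) : coeff n (thP R f) = n * coeff n f := by
  rw [thP_apply]
  cases n with
  | zero => simp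
  | succ n =>
    rw [coeff_succ_X_mul, coeff_dX]
    push_cast
    ring
theorem isDer_thP : IsDer (thP R) := isDer_dX.mulLeft X
theorem thP_cw (L : A →+ B) (f : A⟦X⟧) : thP B (cw L f) = cw L (thP A f) := by
  ext n
  rw [coeff_thP, coeff_cw, coeff_cw, coeff_thP, mul_comm (n : A), map_mul_natCast, mul_comm]
theorem thP_map (φ : A →+* B) (f : A⟦X⟧) : thP B (map φ f) = map φ (thP A f) := by
  ext n
  simp [coeff_thP]
theorem C_dvd_iff (t : R) (f : R⟦X⟧) : C t ∣ f ↔ ∀ i, t ∣ coeff i f := by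
  constructor
  · rintro ⟨g, rfl⟩ i
    rw [coeff_C_mul]
    exact dvd_mul_right _ _
  · intro h
    choose c hc using h
    exact ⟨mk c, by ext n; rw [coeff_C_mul, coeff_mk, hc]⟩
theorem C_pow_dvd_iff (t : R) (n : ℕ) (f : R⟦X⟧) : C t ^ n ∣ f ↔ ∀ i, t ^ n ∣ coeff i f := by
  rw [← map_pow, C_dvd_iff]
theorem eq_C_add_X_mul (f : R⟦X⟧) : ∃ g, f = C (cc f) + X * g :=
  ⟨_, (eq_X_mul_shift_add_const f).trans (add_comm _ _)⟩
end Cw

end Pool.Agent.MP_05b4bd_ag.ES

end MrgPart0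

-- ======== part 1: formerly Pool.Agent.MP_05b4bd_ag.esc.K1b
section MrgPart1

/-! Kit 1: complete rings, evaluation of power series. -/

namespace Pool.Agent.MP_05b4bd_ag.ES

open PowerSeries

variable {R S T A B : Type} [CommRing R] [CommRing S] [CommRing T] [CommRing A] [CommRing B]

section Complete
theorem mem_up {I : Ideal R} {f : R⟦X⟧} : f ∈ up I ↔ cc f ∈ I := Iff.rfl

theorem K1b.split_X (f : R⟦X⟧) : f = C (cc f) + X * mk fun p => coeff (p + 1) f := by
  rw [add_comm]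
  exact eq_X_mul_shift_add_const f

theorem K1b.mem_up_pow_all {I : Ideal R} {n : ℕ} {f : R⟦X⟧} :
    f ∈ up I ^ n ↔ ∀ i, coeff i f ∈ I ^ (n - i) := by
  constructor
  · induction n generalizing f with
    | zero => intro _ i; simp
    | succ n ih =>
      intro h
      rw [pow_succ] at h
      refine Submodule.mul_induction_on h (fun a ha b hb i => ?_) fun a b ha hb i => ?_
      · rw [coeff_mul]
        refine Ideal.sum_mem _ fun p hp => ?_
        rw [Finset.HasAntidiagonal.mem_antidiagonal] at hp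
        rcases Nat.eq_zero_or_pos p.2 with h0 | h0
        · have hb' : coeff p.2 b ∈ I := by
            rw [h0, coeff_zero_eq_constantCoeff_apply]; exact hb
          have := Ideal.mul_mem_mul (ih ha p.1) hb'
          rw [← pow_succ] at this
          exact Ideal.pow_le_pow_right (by omega) this
        · exact Ideal.mul_mem_right _ _ (Ideal.pow_le_pow_right (by omega) (ih ha p.1))
      · rw [map_add]; exact Ideal.add_mem _ (ha i) (hb i)
  · induction n generalizing f with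
    | zero => intro _; simp
    | succ n ih =>
      intro h
      rw [K1b.split_X f]
      refine Ideal.add_mem _ ?_ ?_
      · have h0 : cc f ∈ I ^ (n + 1) := by simpa using h 0
        have h1 : I.map (C : R →+* R⟦X⟧) ≤ up I := by
          rw [Ideal.map_le_iff_le_comap]
          intro r hr
          simpa [mem_up] using hr
        have h2 := Ideal.mem_map_of_mem (C : R →+* R⟦X⟧) h0
        rw [Ideal.map_pow] at h2
        exact Ideal.pow_right_mono h1 _ h2
      · rw [pow_succ']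
        refine Ideal.mul_mem_mul (by simp [mem_up]) (ih fun i => ?_)
        have := h (i + 1)
        rwa [Nat.add_sub_add_right, ← coeff_mk i fun p => coeff (p + 1) f] at this

theorem mem_up_pow {I : Ideal R} {n : ℕ} {f : R⟦X⟧} :
    f ∈ up I ^ n ↔ ∀ i ≤ n, coeff i f ∈ I ^ (n - i) := by
  rw [K1b.mem_up_pow_all]
  refine ⟨fun h i _ => h i, fun h i => ?_⟩
  by_cases c : i ≤ n
  · exact h i c
  · rw [show n - i = 0 by omega]; simp

theorem K1b.smod_iff (J : Ideal S) {n : ℕ} {x y : S} :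
    x ≡ y [SMOD (J ^ n • ⊤ : Submodule S S)] ↔ x - y ∈ J ^ n := by
  rw [SModEq.sub_mem, smul_eq_mul, Ideal.mul_top]

theorem haus (J : Ideal S) [IsAdicComplete J S] {x : S} (h : ∀ n, x ∈ J ^ n) : x = 0 :=
  IsHausdorff.haus (I := J) inferInstance x fun n => (K1b.smod_iff J).2 (by simpa using h n)

theorem lim (J : Ideal S) [IsAdicComplete J S] {f : ℕ → S} (h : ∀ n, f (n + 1) - f n ∈ J ^ n) :
    ∃ l, ∀ n, l - f n ∈ J ^ n := by
  have k : ∀ {m n : ℕ}, m ≤ n → f m ≡ f n [SMOD (J ^ m • ⊤ : Submodule S S)] := by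
    intro m n hmn
    rw [K1b.smod_iff]
    induction n, hmn using Nat.le_induction with
    | base => simp
    | succ n hn ih =>
      have := Ideal.sub_mem _ ih (Ideal.pow_le_pow_right hn (h n))
      rwa [show f m - f n - (f (n + 1) - f n) = f m - f (n + 1) by ring] at this
  obtain ⟨l, hl⟩ := IsPrecomplete.prec (I := J) inferInstance k
  exact ⟨l, fun n => (K1b.smod_iff J).1 (hl n).symm⟩

theorem complete_of (J : Ideal S) (h1 : ∀ x, (∀ n, x ∈ J ^ n) → x = 0)
    (h2 : ∀ f : ℕ → S, (∀ n, f (n + 1) - f n ∈ J ^ n) → ∃ l, ∀ n, l - f n ∈ J ^ n) :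
    IsAdicComplete J S where
  haus' x hx := h1 x fun n => by simpa using (K1b.smod_iff J).1 (hx n)
  prec' f hf := by
    obtain ⟨l, hl⟩ := h2 f fun n => (K1b.smod_iff J).1 (hf (Nat.le_succ n)).symm
    exact ⟨l, fun n => ((K1b.smod_iff J).2 (hl n)).symm⟩

theorem K1b.mem_span_pow {t x : S} {n : ℕ} : x ∈ Ideal.span {t} ^ n ↔ t ^ n ∣ x := by
  rw [Ideal.span_singleton_pow, Ideal.mem_span_singleton]

theorem haus_dvd (t : S) [IsAdicComplete (Ideal.span {t}) S] {x : S} (h : ∀ n, t ^ n ∣ x) : x = 0 :=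
  haus (Ideal.span {t}) fun n => K1b.mem_span_pow.2 (h n)

theorem lim_dvd (t : S) [IsAdicComplete (Ideal.span {t}) S] {f : ℕ → S}
    (h : ∀ n, t ^ n ∣ f (n + 1) - f n) : ∃ l, ∀ n, t ^ n ∣ l - f n := by
  obtain ⟨l, hl⟩ := lim (Ideal.span {t}) fun n => K1b.mem_span_pow.2 (h n)
  exact ⟨l, fun n => K1b.mem_span_pow.1 (hl n)⟩

instance up_complete (I : Ideal R) [IsAdicComplete I R] : IsAdicComplete (up I) R⟦X⟧ := by
  refine complete_of _ (fun x hx => ?_) fun f hf => ?_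
  · ext i
    refine haus I fun n => ?_
    simpa using K1b.mem_up_pow_all.1 (hx (n + i)) i
  · have k : ∀ i, ∃ l, ∀ n, l - coeff i (f (n + i)) ∈ I ^ n := fun i =>
      lim I (f := fun n => coeff i (f (n + i))) fun n => by
        have := K1b.mem_up_pow_all.1 (hf (n + i)) i
        rwa [Nat.add_sub_cancel, map_sub, Nat.add_right_comm] at this
    choose l hl using k
    refine ⟨mk l, fun n => mem_up_pow.2 fun i hi => ?_⟩
    have := hl i (n - i)
    rwa [Nat.sub_add_cancel hi, ← coeff_mk i l, ← map_sub] at this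

instance C_complete (t : R) [IsAdicComplete (Ideal.span {t}) R] :
    IsAdicComplete (Ideal.span {(C t : R⟦X⟧)}) R⟦X⟧ := by
  refine complete_of _ (fun x hx => ?_) fun f hf => ?_
  · ext i
    exact haus_dvd t fun n => (C_pow_dvd_iff t n x).1 (K1b.mem_span_pow.1 (hx n)) i
  · have k : ∀ i, ∃ l, ∀ n, t ^ n ∣ l - coeff i (f n) := fun i =>
      lim_dvd t (f := fun n => coeff i (f n)) fun n => by
        have := (C_pow_dvd_iff t n _).1 (K1b.mem_span_pow.1 (hf n)) i
        rwa [map_sub] at this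
    choose l hl using k
    refine ⟨mk l, fun n => K1b.mem_span_pow.2 ((C_pow_dvd_iff t n _).2 fun i => ?_)⟩
    rw [map_sub, coeff_mk]
    exact hl i n

theorem unit_of_sub_mem (J : Ideal S) [IsAdicComplete J S] {u v : S} (hu : IsUnit u)
    (h : v - u ∈ J) : IsUnit v := by
  obtain ⟨w, hw⟩ := hu.exists_right_inv
  have k := Ideal.mem_jacobson_bot.1 (IsAdicComplete.le_jacobson_bot J h) w
  have e : v = u * ((v - u) * w + 1) := by linear_combination (u - v) * hw
  rw [e]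
  exact hu.mul k

/-- Fixed point of a contraction of a complete filtered group. -/
theorem fix {M : Type} [AddCommGroup M] (F : ℕ → AddSubgroup M) (h0 : ∀ x, x ∈ F 0)
    (hh : ∀ x, (∀ n, x ∈ F n) → x = 0)
    (hc : ∀ f : ℕ → M, (∀ n, f (n + 1) - f n ∈ F n) → ∃ l, ∀ n, l - f n ∈ F n) (Φ : M → M)
    (hΦ : ∀ n x y, x - y ∈ F n → Φ x - Φ y ∈ F (n + 1)) :
    ∃! x, Φ x = x := by
  have k : ∀ n, Φ^[n + 1] 0 - Φ^[n] 0 ∈ F n := by
    intro n
    induction n with
    | zero => exact h0 _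
    | succ n ih =>
      have := hΦ n _ _ ih
      rwa [← Function.iterate_succ_apply' Φ (n + 1), ← Function.iterate_succ_apply' Φ n] at this
  obtain ⟨l, hl⟩ := hc (fun n => Φ^[n] 0) k
  have e : Φ l = l := by
    refine sub_eq_zero.1 (hh _ fun n => ?_)
    cases n with
    | zero => exact h0 _
    | succ n =>
      have a := hΦ n _ _ (hl n)
      rw [← Function.iterate_succ_apply' Φ n] at a
      have := (F (n + 1)).sub_mem a (hl (n + 1))
      rwa [sub_sub_sub_cancel_right] at this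
  refine ⟨l, e, fun y hy => sub_eq_zero.1 (hh _ fun n => ?_)⟩
  induction n with
  | zero => exact h0 _
  | succ n ih =>
    have := hΦ n _ _ ih
    rwa [hy, e] at this

theorem fix_ideal (J : Ideal S) [IsAdicComplete J S] (Φ : S → S)
    (hΦ : ∀ n x y, x - y ∈ J ^ n → Φ x - Φ y ∈ J ^ (n + 1)) : ∃! x, Φ x = x :=
  fix (fun n => (J ^ n).toAddSubgroup) (fun x => by simp) (fun _ h => haus J h)
    (fun _ h => lim J h) Φ hΦ

theorem fix_dvd (t : S) [IsAdicComplete (Ideal.span {t}) S] (Φ : S → S)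
    (hΦ : ∀ n x y, t ^ n ∣ x - y → t ^ (n + 1) ∣ Φ x - Φ y) : ∃! x, Φ x = x :=
  fix_ideal (Ideal.span {t}) Φ fun n x y h => K1b.mem_span_pow.2 (hΦ n x y (K1b.mem_span_pow.1 h))

/-- Fixed point inside the ideal. -/
theorem K1b.fix_mem (J : Ideal S) [IsAdicComplete J S] (Φ : S → S) (h1 : ∀ x ∈ J, Φ x ∈ J)
    (h2 : ∀ x ∈ J, ∀ y ∈ J, ∃ j ∈ J, Φ x - Φ y = (x - y) * j) : ∃ x ∈ J, Φ x = x := by
  have hΦ : ∀ n, ∀ x ∈ J, ∀ y ∈ J, x - y ∈ J ^ n → Φ x - Φ y ∈ J ^ (n + 1) := by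
    intro n x hx y hy h
    obtain ⟨j, hj, e⟩ := h2 x hx y hy
    rw [e, pow_succ]
    exact Ideal.mul_mem_mul h hj
  have m : ∀ n, Φ^[n] 0 ∈ J := by
    intro n
    induction n with
    | zero => exact J.zero_mem
    | succ n ih => rw [Function.iterate_succ_apply']; exact h1 _ ih
  have k : ∀ n, Φ^[n + 1] 0 - Φ^[n] 0 ∈ J ^ n := by
    intro n
    induction n with
    | zero => simp
    | succ n ih =>
      have := hΦ n _ (m _) _ (m _) ih
      rwa [← Function.iterate_succ_apply' Φ (n + 1), ← Function.iterate_succ_apply' Φ n] at this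
  obtain ⟨l, hl⟩ := lim J (f := fun n => Φ^[n] 0) k
  have hJ : l ∈ J := by
    have a := hl 1
    rw [pow_one] at a
    simpa using J.add_mem a (m 1)
  refine ⟨l, hJ, sub_eq_zero.1 (haus J fun n => ?_)⟩
  have a := hΦ n _ hJ _ (m n) (hl n)
  rw [← Function.iterate_succ_apply' Φ n] at a
  have := (J ^ (n + 1)).sub_mem a (hl (n + 1))
  rw [sub_sub_sub_cancel_right] at this
  exact Ideal.pow_le_pow_right (Nat.le_succ n) this

theorem bij_of_dvd (t : S) [IsAdicComplete (Ideal.span {t}) S] (Φ : S →+ S)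
    (h1 : ∀ c, Φ (t * c) = t * Φ c) (h2 : ∀ c, t ∣ Φ c - c) : Function.Bijective Φ := by
  have hp : ∀ n c, Φ (t ^ n * c) = t ^ n * Φ c := by
    intro n
    induction n with
    | zero => simp
    | succ n ih => intro c; rw [pow_succ', mul_assoc, h1, ih, mul_assoc]
  rw [Function.bijective_iff_existsUnique]
  intro y
  obtain ⟨x, hx, hu⟩ := fix_dvd t (fun x => x - Φ x + y) fun n a b h => by
    obtain ⟨c, hc⟩ := h
    obtain ⟨d, hd⟩ := h2 c
    have e : Φ a - Φ b = t ^ n * Φ c := by rw [← map_sub, hc, hp]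
    exact ⟨-d, by linear_combination hc - e - t ^ n * hd⟩
  refine ⟨x, by linear_combination -hx, fun z hz => hu z ?_⟩
  show z - Φ z + y = z
  rw [show Φ z = y from hz]
  ring

/-- Complete Nakayama lemma. -/
theorem nak (I : Ideal R) [IsAdicComplete I R] (J : Ideal S) [IsAdicComplete J S] (g : R →+* S)
    (hg : I.map g ≤ J) {ι : Type} [Fintype ι] (e : ι → S)
    (h : ∀ a, ∃ c : ι → R, a - ∑ i, g (c i) * e i ∈ I.map g) (a : S) :
    ∃ c : ι → R, a = ∑ i, g (c i) * e i := by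
  have key : ∀ n, ∀ b ∈ (I ^ n).map g, ∀ s, ∃ c : ι → R, (∀ i, c i ∈ I ^ n) ∧
      s * b - ∑ i, g (c i) * e i ∈ (I ^ (n + 1)).map g := by
    intro n b hb
    refine Submodule.span_induction (p := fun b _ => ∀ s, ∃ c : ι → R, (∀ i, c i ∈ I ^ n) ∧
      s * b - ∑ i, g (c i) * e i ∈ (I ^ (n + 1)).map g) ?_ ?_ ?_ ?_ hb
    · rintro _ ⟨r, hr, rfl⟩ s
      obtain ⟨c, hc⟩ := h s
      refine ⟨fun i => r * c i, fun i => Ideal.mul_mem_right _ _ hr, ?_⟩
      have := Ideal.mul_mem_mul (Ideal.mem_map_of_mem g hr) hc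
      rw [← Ideal.map_mul, ← pow_succ, mul_sub, Finset.mul_sum, mul_comm] at this
      simpa only [map_mul, mul_assoc] using this
    · intro s
      exact ⟨0, fun _ => Ideal.zero_mem _, by simp⟩
    · intro x y _ _ hx hy s
      obtain ⟨c, c1, c2⟩ := hx s
      obtain ⟨d, d1, d2⟩ := hy s
      refine ⟨c + d, fun i => Ideal.add_mem _ (c1 i) (d1 i), ?_⟩
      have := Ideal.add_mem _ c2 d2
      simp only [Pi.add_apply, map_add, add_mul, Finset.sum_add_distrib]
      rwa [show s * x - ∑ i, g (c i) * e i + (s * y - ∑ i, g (d i) * e i) =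
        s * (x + y) - (∑ i, g (c i) * e i + ∑ i, g (d i) * e i) by ring] at this
    · intro r x _ hx s
      obtain ⟨c, c1, c2⟩ := hx (s * r)
      exact ⟨c, c1, by rwa [smul_eq_mul, ← mul_assoc]⟩
  have step : ∀ n (c : ι → R), a - ∑ i, g (c i) * e i ∈ (I ^ n).map g →
      ∃ c' : ι → R, a - ∑ i, g (c' i) * e i ∈ (I ^ (n + 1)).map g ∧ ∀ i, c' i - c i ∈ I ^ n := by
    intro n c hc
    obtain ⟨d, d1, d2⟩ := key n _ hc 1
    refine ⟨c + d, ?_, fun i => by simpa using d1 i⟩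
    simp only [Pi.add_apply, map_add, add_mul, Finset.sum_add_distrib]
    rwa [one_mul, sub_sub] at d2
  choose! nx n1 n2 using step
  obtain ⟨q, q0, q1⟩ : ∃ q : ℕ → ι → R, q 0 = 0 ∧ ∀ n, q (n + 1) = nx n (q n) :=
    ⟨fun n => Nat.rec 0 nx n, rfl, fun _ => rfl⟩
  have hq : ∀ n, a - ∑ i, g (q n i) * e i ∈ (I ^ n).map g := by
    intro n
    induction n with
    | zero => simp [Ideal.map_top]
    | succ n ih => rw [q1]; exact n1 n _ ih
  have k : ∀ i, ∃ l, ∀ n, l - q n i ∈ I ^ n := fun i =>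
    lim I (f := fun n => q n i) fun n => by rw [q1]; exact n2 n _ (hq n) i
  choose l hl using k
  refine ⟨l, sub_eq_zero.1 (haus J fun n => ?_)⟩
  have m : (I ^ n).map g ≤ J ^ n := by
    rw [Ideal.map_pow]; exact Ideal.pow_right_mono hg n
  have s : ∑ i, g (l i - q n i) * e i ∈ (I ^ n).map g :=
    Ideal.sum_mem _ fun i _ => Ideal.mul_mem_right _ _ (Ideal.mem_map_of_mem g (hl i n))
  have := Ideal.sub_mem _ (hq n) s
  simp only [map_sub, sub_mul, Finset.sum_sub_distrib] at this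
  rw [show a - ∑ i, g (q n i) * e i - (∑ i, g (l i) * e i - ∑ i, g (q n i) * e i) =
    a - ∑ i, g (l i) * e i by ring] at this
  exact m this
end Complete

section Ev
variable (J : Ideal S) [IsAdicComplete J S] {φ : R →+* S} {s z z' : S}
include J

theorem K1b.exists_isEv (hs : s ∈ J) : ∃ Φ, IsEv Φ φ s := by
  have E1 : ∀ (n : ℕ) (p q : Polynomial R), (∀ d < n, p.coeff d = q.coeff d) →
      p.eval₂ φ s - q.eval₂ φ s ∈ J ^ n := by
    intro n p q h
    obtain ⟨r, hr⟩ : (Polynomial.X : Polynomial R) ^ n ∣ p - q :=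
      Polynomial.X_pow_dvd_iff.2 fun d hd => by rw [Polynomial.coeff_sub, h d hd, sub_self]
    rw [← Polynomial.eval₂_sub, hr, Polynomial.eval₂_mul, Polynomial.eval₂_X_pow]
    exact Ideal.mul_mem_right _ _ (Ideal.pow_mem_pow hs n)
  have E2 : ∀ f : R⟦X⟧, ∃ l, ∀ n, l - (trunc n f).eval₂ φ s ∈ J ^ n := fun f =>
    lim J (f := fun n => (trunc n f).eval₂ φ s) fun n => E1 n _ _ fun d hd => by
      rw [coeff_trunc, coeff_trunc, if_pos hd, if_pos (by omega)]
  choose L hL using E2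
  have E3 : ∀ (f : R⟦X⟧) (y : S) (p : ℕ → Polynomial R),
      (∀ n, ∀ d < n, (p n).coeff d = coeff d f) → (∀ n, y - (p n).eval₂ φ s ∈ J ^ n) →
      L f = y := by
    intro f y p h1 h2
    refine sub_eq_zero.1 (haus J fun n => ?_)
    have a := E1 n (trunc n f) (p n) fun d hd => by rw [coeff_trunc, if_pos hd, h1 n d hd]
    have := Ideal.sub_mem _ (Ideal.add_mem _ (hL f n) a) (h2 n)
    rwa [show L f - (trunc n f).eval₂ φ s + ((trunc n f).eval₂ φ s - (p n).eval₂ φ s) -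
      (y - (p n).eval₂ φ s) = L f - y by ring] at this
  have E4 : ∀ p : Polynomial R, L p = p.eval₂ φ s := fun p =>
    E3 _ _ (fun _ => p) (fun _ d _ => (Polynomial.coeff_coe p d).symm) fun n => by simp
  refine ⟨⟨⟨⟨L, ?_⟩, fun f g => ?_⟩, ?_, fun f g => ?_⟩, fun r => ?_, ?_⟩
  · simpa using E4 1
  · refine E3 _ _ (fun n => trunc n f * trunc n g) (fun n d hd => ?_) fun n => ?_
    · rw [coeff_mul_eq_coeff_trunc_mul_trunc f g hd, ← Polynomial.coe_mul, Polynomial.coeff_coe]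
    · have := Ideal.add_mem _ (Ideal.mul_mem_right (L g) _ (hL f n))
        (Ideal.mul_mem_left _ ((trunc n f).eval₂ φ s) (hL g n))
      rw [Polynomial.eval₂_mul]
      rwa [show (L f - (trunc n f).eval₂ φ s) * L g +
        (trunc n f).eval₂ φ s * (L g - (trunc n g).eval₂ φ s) =
        L f * L g - (trunc n f).eval₂ φ s * (trunc n g).eval₂ φ s by ring] at this
  · simpa using E4 0
  · refine E3 _ _ (fun n => trunc n f + trunc n g) (fun n d hd => ?_) fun n => ?_
    · rw [Polynomial.coeff_add, coeff_trunc, coeff_trunc, if_pos hd, if_pos hd, map_add]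
    · have := Ideal.add_mem _ (hL f n) (hL g n)
      rw [Polynomial.eval₂_add]
      rwa [show L f - (trunc n f).eval₂ φ s + (L g - (trunc n g).eval₂ φ s) =
        L f + L g - ((trunc n f).eval₂ φ s + (trunc n g).eval₂ φ s) by ring] at this
  · simpa using E4 (Polynomial.C r)
  · simpa using E4 Polynomial.X

theorem K1b.isEv_ev (hs : s ∈ J) : IsEv (ev φ s) φ s := by
  have h : ∃ Φ, IsEv Φ φ s := K1b.exists_isEv J hs
  unfold ev
  rw [dif_pos h]
  exact h.choose_spec

theorem ev_C (hs : s ∈ J) (r : R) : ev φ s (C r) = φ r := (K1b.isEv_ev J hs).1 r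
theorem ev_X (hs : s ∈ J) : ev φ s X = s := (K1b.isEv_ev J hs).2

theorem homExt {g g' : R⟦X⟧ →+* S} (h1 : ∀ r, g (C r) = g' (C r)) (h2 : g X = g' X)
    (hs : g X ∈ J) : g = g' := by
  have k : ∀ n f, g f - g' f ∈ J ^ n := by
    intro n
    induction n with
    | zero => simp
    | succ n ih =>
      intro f
      obtain ⟨h, e⟩ : ∃ h, f = C (cc f) + X * h := ⟨_, K1b.split_X f⟩
      rw [e, map_add, map_add, map_mul, map_mul, h1, ← h2, add_sub_add_left_eq_sub, ← mul_sub,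
        pow_succ']
      exact Ideal.mul_mem_mul hs (ih h)
  exact RingHom.ext fun f => sub_eq_zero.1 (haus J fun n => k n f)

theorem derExt {g : R⟦X⟧ →+* S} {δ : R⟦X⟧ →+ S} (hδ : IsDerOver g δ) (h1 : ∀ r, δ (C r) = 0)
    (h2 : δ X = 0) (hs : g X ∈ J) (f : R⟦X⟧) : δ f = 0 := by
  have k : ∀ n f, δ f ∈ J ^ n := by
    intro n
    induction n with
    | zero => simp
    | succ n ih =>
      intro f
      obtain ⟨h, e⟩ : ∃ h, f = C (cc f) + X * h := ⟨_, K1b.split_X f⟩
      rw [e, map_add, h1, hδ, h2, zero_mul, zero_add, zero_add, pow_succ']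
      exact Ideal.mul_mem_mul hs (ih h)
  exact haus J fun n => k n f

/-- Chain rule for any map out of a power series ring. -/
theorem hom_chain {g : R⟦X⟧ →+* S} (hs : g X ∈ J) {δ : S →+ S} (hδ : IsDer δ) {L : R →+ R}
    (hL : IsDer L) {a : S} (h : ∀ r, δ (g (C r)) = a * g (C (L r))) (f : R⟦X⟧) :
    δ (g f) = a * g (cw L f) + g (dX R f) * δ (g X) := by
  obtain ⟨ε, hε⟩ : ∃ ε : R⟦X⟧ →+ S, ∀ f,
      ε f = δ (g f) - (a * g (cw L f) + g (dX R f) * δ (g X)) :=
    ⟨⟨⟨fun f => δ (g f) - (a * g (cw L f) + g (dX R f) * δ (g X)), by simp⟩,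
      fun u v => by simp only [map_add]; ring⟩, fun _ => rfl⟩
  have k : ε f = 0 := by
    refine derExt J (g := g) (fun u v => ?_) (fun r => ?_) ?_ hs f
    · rw [hε, hε, hε, map_mul, hδ, hL.coefw, isDer_dX]
      simp only [map_add, map_mul]
      ring
    · rw [hε, h, cw_C, dX_C]; simp
    · rw [hε, cw_X hL.one, dX_X]; simp
  rw [hε] at k
  exact sub_eq_zero.1 k

theorem ev_map (hs : s ∈ J) (ψ : T →+* R) (f : T⟦X⟧) :
    ev φ s (map ψ f) = ev (φ.comp ψ) s f := by
  have : (ev φ s).comp (map ψ) = ev (φ.comp ψ) s :=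
    homExt J (fun r => by simp [ev_C J hs]) (by simp [ev_X J hs]) (by simpa [ev_X J hs] using hs)
  exact DFunLike.congr_fun this f

theorem hom_ev (J' : Ideal T) [IsAdicComplete J' T] (hs : s ∈ J) (g : S →+* T) (hg : g s ∈ J')
    (f : R⟦X⟧) : g (ev φ s f) = ev (g.comp φ) (g s) f := by
  have : g.comp (ev φ s) = ev (g.comp φ) (g s) :=
    homExt J' (fun r => by simp [ev_C J hs, ev_C J' hg]) (by simp [ev_X J hs, ev_X J' hg])
      (by simpa [ev_X J hs] using hg)
  exact DFunLike.congr_fun this f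

theorem ev_sub_cc (hs : s ∈ J) (f : R⟦X⟧) : s ∣ ev φ s f - φ (cc f) := by
  obtain ⟨h, e⟩ : ∃ h, f = C (cc f) + X * h := ⟨_, K1b.split_X f⟩
  refine ⟨ev φ s h, ?_⟩
  conv_lhs => rw [e]
  simp [ev_C J hs, ev_X J hs]

omit J in
theorem K1b.isDer_zero : IsDer (0 : R →+ R) := fun _ _ => by simp

omit J in
theorem K1b.cc_dX (f : R⟦X⟧) : cc (dX R f) = coeff 1 f := by
  rw [← coeff_zero_eq_constantCoeff_apply, coeff_dX]; simp

omit J in
/-- The universal Taylor expansion. -/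
theorem K1b.taylor_univ (R : Type) [CommRing R] : ∃ ψ : R⟦X⟧ →+* R⟦X⟧⟦X⟧,
    (∀ r, ψ (C r) = C (C r)) ∧ ψ X = C X + X ∧
      ∀ f, ∃ h, ψ f = C f + X * C (dX R f) + X ^ 2 * h := by
  have hm : (C X + X : R⟦X⟧⟦X⟧) ∈ up (up (⊥ : Ideal R)) := by simp [mem_up]
  obtain ⟨ψ, p1, p2⟩ := K1b.exists_isEv (φ := (C : R⟦X⟧ →+* R⟦X⟧⟦X⟧).comp C) _ hm
  have p1' : ∀ r, ψ (C r) = C (C r) := p1
  have c0 : ∀ f, cc (ψ f) = f := by
    have : (cc : R⟦X⟧⟦X⟧ →+* R⟦X⟧).comp ψ = RingHom.id _ :=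
      homExt (up (⊥ : Ideal R)) (fun r => by simp [p1']) (by simp [p2]) (by simp [p2, mem_up])
    exact fun f => DFunLike.congr_fun this f
  refine ⟨ψ, p1', p2, fun f => ?_⟩
  have c1 : coeff 1 (ψ f) = dX R f := by
    have := hom_chain (up (up (⊥ : Ideal R))) (g := ψ) (p2 ▸ hm) (δ := dX R⟦X⟧) isDer_dX
      K1b.isDer_zero (a := 0) (fun r => by rw [p1', dX_C, zero_mul]) f
    rw [p2, map_add, dX_C, dX_X, zero_mul, zero_add, zero_add, mul_one] at this
    rw [← K1b.cc_dX, this, c0]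
  obtain ⟨h, e⟩ : ∃ h, (mk fun p => coeff (p + 1) (ψ f)) =
      C (cc (mk fun p => coeff (p + 1) (ψ f))) + X * h := ⟨_, K1b.split_X _⟩
  have e0 := K1b.split_X (ψ f)
  rw [e, c0, constantCoeff_mk, zero_add, c1] at e0
  exact ⟨h, by rw [e0]; ring⟩

theorem ev_taylor (hz : z ∈ J) (hz' : z' ∈ J) (f : R⟦X⟧) : ∃ r,
    ev φ z f = ev φ z' f + (z - z') * ev φ z' (dX R f) + (z - z') ^ 2 * r := by
  obtain ⟨ψ, p1, p2, p3⟩ := K1b.taylor_univ R
  have hd : z - z' ∈ J := J.sub_mem hz hz'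
  have k : (ev (ev φ z') (z - z')).comp ψ = ev φ z :=
    homExt J (fun r => by simp [p1, ev_C J hd, ev_C J hz, ev_C J hz'])
      (by simp [p2, ev_C J hd, ev_X J hd, ev_X J hz, ev_X J hz'])
      (by simpa [p2, ev_C J hd, ev_X J hd, ev_X J hz'] using hz)
  obtain ⟨h, e⟩ := p3 f
  refine ⟨ev (ev φ z') (z - z') h, ?_⟩
  rw [← k, RingHom.comp_apply, e]
  simp [ev_C J hd, ev_X J hd]

theorem ev_sub (hz : z ∈ J) (hz' : z' ∈ J) (f : R⟦X⟧) : z - z' ∣ ev φ z f - ev φ z' f := by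
  obtain ⟨r, e⟩ := ev_taylor J (φ := φ) hz hz' f
  exact ⟨ev φ z' (dX R f) + (z - z') * r, by rw [e]; ring⟩

theorem K1b.ev_dX_sub (hz : z ∈ J) (f : R⟦X⟧) : ev φ z (dX R f) - φ (coeff 1 f) ∈ J := by
  rw [← K1b.cc_dX]
  exact Ideal.mem_of_dvd _ (ev_sub_cc J hz _) hz

theorem root {f : S⟦X⟧} (h0 : cc f ∈ J) (h1 : IsUnit (coeff 1 f)) :
    ∃ z ∈ J, ev (RingHom.id S) z f = 0 := by
  obtain ⟨v, hv⟩ := h1.exists_right_inv
  obtain ⟨x, hx, e⟩ := K1b.fix_mem J (fun x => x - v * ev (RingHom.id S) x f)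
    (fun x hx => by
      have a := Ideal.mem_of_dvd _ (ev_sub_cc J (φ := RingHom.id S) hx f) hx
      exact J.sub_mem hx (J.mul_mem_left _ (by simpa using J.add_mem a h0)))
    fun x hx y hy => by
      obtain ⟨r, e⟩ := ev_taylor J (φ := RingHom.id S) hx hy f
      refine ⟨-(v * ((ev (RingHom.id S) y (dX S f) - RingHom.id S (coeff 1 f)) + (x - y) * r)),
        J.neg_mem (J.mul_mem_left _ (J.add_mem (K1b.ev_dX_sub J hy f)
          (J.mul_mem_right _ (J.sub_mem hx hy)))), ?_⟩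
      rw [e, RingHom.id_apply]
      linear_combination (y - x) * hv
  refine ⟨x, hx, ?_⟩
  linear_combination -(coeff 1 f) * e - ev (RingHom.id S) x f * hv

theorem root_unique {f : R⟦X⟧} (h1 : IsUnit (φ (coeff 1 f))) (hz : z ∈ J) (hz' : z' ∈ J)
    (e : ev φ z f = ev φ z' f) : z = z' := by
  obtain ⟨r, hr⟩ := ev_taylor J (φ := φ) hz hz' f
  have u : IsUnit (ev φ z' (dX R f) + (z - z') * r) := unit_of_sub_mem J h1 (by
    have := J.add_mem (K1b.ev_dX_sub J (φ := φ) hz' f) (J.mul_mem_right r (J.sub_mem hz hz'))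
    rwa [sub_add_eq_add_sub] at this)
  refine sub_eq_zero.1 (u.mul_left_eq_zero.1 ?_)
  linear_combination e - hr

theorem hensel (p : Polynomial S) {a : S} (h0 : p.eval a ∈ J) (h1 : IsUnit (p.derivative.eval a)) :
    ∃ z, z - a ∈ J ∧ p.eval z = 0 := by
  obtain ⟨v, hv⟩ := h1.exists_right_inv
  have m : ∀ (q : Polynomial S), ∀ x ∈ J, q.eval (a + x) - q.eval a ∈ J := fun q x hx =>
    Ideal.mem_of_dvd _ (Polynomial.sub_dvd_eval_sub (a + x) a q) (by simpa using hx)
  obtain ⟨x, hx, e⟩ := K1b.fix_mem J (fun x => x - v * p.eval (a + x))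
    (fun x hx => J.sub_mem hx (J.mul_mem_left _ (by simpa using J.add_mem (m p x hx) h0)))
    fun x hx y hy => by
      obtain ⟨r, e⟩ := p.binomExpansion (a + y) (x - y)
      rw [show a + y + (x - y) = a + x by ring] at e
      refine ⟨-(v * ((p.derivative.eval (a + y) - p.derivative.eval a) + (x - y) * r)),
        J.neg_mem (J.mul_mem_left _ (J.add_mem (m _ y hy)
          (J.mul_mem_right _ (J.sub_mem hx hy)))), ?_⟩
      rw [e]
      linear_combination (y - x) * hv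
  refine ⟨a + x, by simpa using hx, ?_⟩
  linear_combination -(p.derivative.eval a) * e - p.eval (a + x) * hv

theorem hensel_unique (p : Polynomial S) (h1 : IsUnit (p.derivative.eval z)) (hz : z' - z ∈ J)
    (e : p.eval z = p.eval z') : z = z' := by
  obtain ⟨r, hr⟩ := p.binomExpansion z (z' - z)
  rw [show z + (z' - z) = z' by ring] at hr
  have u : IsUnit (p.derivative.eval z + (z' - z) * r) := unit_of_sub_mem J h1 (by
    simpa using J.mul_mem_right r hz)
  refine (sub_eq_zero.1 (u.mul_left_eq_zero.1 ?_)).symm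
  linear_combination -e - hr

theorem nth_root [Algebra ℚ S] {n : ℕ} (hn : 1 ≤ n) (hs : s - 1 ∈ J) :
    ∃ y, y - 1 ∈ J ∧ y ^ n = s := by
  have u : IsUnit (n : S) := by
    have : (n : ℚ) ≠ 0 := by exact_mod_cast (by omega : n ≠ 0)
    simpa using (IsUnit.mk0 _ this).map (algebraMap ℚ S)
  obtain ⟨y, h1, h2⟩ := hensel J (Polynomial.X ^ n - Polynomial.C s) (a := 1)
    (by simpa using J.neg_mem hs) (by simpa [Polynomial.derivative_X_pow] using u)
  exact ⟨y, h1, by simpa [sub_eq_zero] using h2⟩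

omit [IsAdicComplete J S] in
theorem K1b.sh_mem {w : S} (hw : w ∈ J) : (X + C w : S⟦X⟧) ∈ up J := by simpa [mem_up] using hw

/-- The shift `X ↦ X + w`. -/
theorem sh_C {w : S} (hw : w ∈ J) (r : S) : sb (X + C w) (C r) = C r :=
  ev_C (up J) (K1b.sh_mem J hw) r
theorem sh_X {w : S} (hw : w ∈ J) : sb (X + C w) X = X + C w := ev_X (up J) (K1b.sh_mem J hw)
theorem sh_sh {w w' : S} (hw : w ∈ J) (hw' : w' ∈ J) (f : S⟦X⟧) :
    sb (X + C w) (sb (X + C w') f) = sb (X + C (w + w')) f := by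
  have hs := J.add_mem hw hw'
  have e : sb (X + C w) (sb (X + C w') X) = X + C (w + w') := by
    rw [sh_X J hw', map_add, sh_X J hw, sh_C J hw, map_add, add_assoc]
  have : (sb (X + C w)).comp (sb (X + C w')) = sb (X + C (w + w')) :=
    homExt (up J) (fun r => by rw [RingHom.comp_apply, sh_C J hw', sh_C J hw, sh_C J hs])
      (by rw [RingHom.comp_apply, e, sh_X J hs]) (by rw [RingHom.comp_apply, e]; exact K1b.sh_mem J hs)
  exact DFunLike.congr_fun this f
theorem K1b.sh_zero (f : S⟦X⟧) : sb (X + C (0 : S)) f = f := by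
  have : sb (X + C (0 : S)) = RingHom.id _ :=
    homExt (up J) (fun r => sh_C J J.zero_mem r) (by rw [sh_X J J.zero_mem]; simp)
      (by rw [sh_X J J.zero_mem]; exact K1b.sh_mem J J.zero_mem)
  rw [this]; rfl
theorem sh_bij {w : S} (hw : w ∈ J) : Function.Bijective (sb (X + C w)) :=
  Function.bijective_iff_has_inverse.2 ⟨sb (X + C (-w)),
    fun f => by rw [sh_sh J (J.neg_mem hw) hw, neg_add_cancel, K1b.sh_zero J],
    fun f => by rw [sh_sh J hw (J.neg_mem hw), add_neg_cancel, K1b.sh_zero J]⟩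
theorem cc_sh {w : S} (hw : w ∈ J) (f : S⟦X⟧) :
    cc (sb (X + C w) f) = ev (RingHom.id S) w f := by
  have : (cc : S⟦X⟧ →+* S).comp (sb (X + C w)) = ev (RingHom.id S) w :=
    homExt J (fun r => by rw [RingHom.comp_apply, sh_C J hw, ev_C J hw]; simp)
      (by rw [RingHom.comp_apply, sh_X J hw, ev_X J hw]; simp)
      (by rw [RingHom.comp_apply, sh_X J hw]; simpa using hw)
  exact DFunLike.congr_fun this f
theorem dX_sh {w : S} (hw : w ∈ J) (f : S⟦X⟧) :
    dX S (sb (X + C w) f) = sb (X + C w) (dX S f) := by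
  have := hom_chain (up J) (g := sb (X + C w)) (by rw [sh_X J hw]; exact K1b.sh_mem J hw)
    (δ := dX S) isDer_dX K1b.isDer_zero (a := 0) (fun r => by rw [sh_C J hw, dX_C, zero_mul]) f
  rwa [sh_X J hw, map_add, dX_C, dX_X, zero_mul, zero_add, add_zero, mul_one] at this
theorem cw_sh {w : S} (hw : w ∈ J) {D : S →+ S} (hD : IsDer D) (f : S⟦X⟧) :
    cw D (sb (X + C w) f) = sb (X + C w) (cw D f) + sb (X + C w) (dX S f) * C (D w) := by
  have := hom_chain (up J) (g := sb (X + C w)) (by rw [sh_X J hw]; exact K1b.sh_mem J hw)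
    (δ := cw D) hD.coefw hD (a := 1) (fun r => by rw [sh_C J hw, sh_C J hw, cw_C, one_mul]) f
  rwa [sh_X J hw, map_add, cw_C, cw_X hD.one, one_mul, zero_add] at this

theorem factor (hz : z ∈ J) {f : S⟦X⟧} : X - C z ∣ f ↔ ev (RingHom.id S) z f = 0 := by
  constructor
  · rintro ⟨g, rfl⟩
    simp [ev_C J hz, ev_X J hz]
  · intro h
    rw [← cc_sh J hz, ← X_dvd_iff] at h
    have := map_dvd (sb (X + C (-z))) h
    rwa [sh_sh J (J.neg_mem hz) hz, neg_add_cancel, K1b.sh_zero J, sh_X J (J.neg_mem hz), map_neg,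
      ← sub_eq_add_neg] at this
end Ev

end Pool.Agent.MP_05b4bd_ag.ES

end MrgPart1

-- ======== part 2: formerly Pool.Agent.MP_05b4bd_ag.esc.K1
section MrgPart2

/-! Kit 1: substitution in one variable. -/

namespace Pool.Agent.MP_05b4bd_ag.ES

open PowerSeries

variable {R S T A B : Type} [CommRing R] [CommRing S] [CommRing T] [CommRing A] [CommRing B]

section Sb
variable {s e : R⟦X⟧}

theorem mem_up_bot {f : R⟦X⟧} : f ∈ up (⊥ : Ideal R) ↔ cc f = 0 := Iff.rfl

theorem X_mem_up (I : Ideal R) : (X : R⟦X⟧) ∈ up I := by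
  rw [mem_up, constantCoeff_X]
  exact I.zero_mem

theorem cc_X_pow {M : ℕ} (hM : 1 ≤ M) : cc ((X : R⟦X⟧) ^ M) = 0 := by
  rw [map_pow, constantCoeff_X, zero_pow (by omega)]

theorem ev_zero (φ : R →+* S) (f : R⟦X⟧) : ev φ 0 f = φ (cc f) := by
  have h0 : (0 : S) ∈ (⊥ : Ideal S) := Ideal.zero_mem _
  have := homExt (⊥ : Ideal S) (g := ev φ 0) (g' := φ.comp cc)
    (fun r => by rw [ev_C _ h0]; simp) (by rw [ev_X _ h0]; simp) (by rw [ev_X _ h0]; exact h0)
  exact RingHom.congr_fun this f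

theorem sb_C (hs : cc s = 0) (r : R) : sb s (C r) = C r := ev_C (up ⊥) (mem_up_bot.2 hs) r

theorem sb_X (hs : cc s = 0) : sb s X = s := ev_X (up ⊥) (mem_up_bot.2 hs)

theorem sb_id (f : R⟦X⟧) : sb X f = f := by
  have h : cc (X : R⟦X⟧) = 0 := constantCoeff_X
  have := homExt (up (⊥ : Ideal R)) (g := sb X) (g' := RingHom.id _) (fun r => sb_C h r) (sb_X h)
    (by rw [sb_X h]; exact X_mem_up _)
  exact RingHom.congr_fun this f

theorem cc_sb (hs : cc s = 0) (f : R⟦X⟧) : cc (sb s f) = cc f := by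
  obtain ⟨g, hg⟩ := eq_C_add_X_mul f
  conv_lhs => rw [hg]
  rw [map_add, map_mul, sb_C hs, sb_X hs, map_add, map_mul, hs, zero_mul, add_zero,
    constantCoeff_C]

theorem sb_sb (hs : cc s = 0) (he : cc e = 0) (f : R⟦X⟧) :
    sb s (sb e f) = sb (sb s e) f := by
  have h : cc (sb s e) = 0 := (cc_sb hs e).trans he
  have := homExt (up (⊥ : Ideal R)) (g := (sb s).comp (sb e)) (g' := sb (sb s e))
    (fun r => by rw [RingHom.comp_apply, sb_C he, sb_C hs, sb_C h])
    (by rw [RingHom.comp_apply, sb_X he, sb_X h]) (by rw [RingHom.comp_apply, sb_X he]; exact h)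
  exact RingHom.congr_fun this f

theorem exists_trunc (f : R⟦X⟧) (m : ℕ) :
    ∃ g, f = ∑ i ∈ Finset.range m, C (coeff i f) * X ^ i + X ^ m * g := by
  have : (X : R⟦X⟧) ^ m ∣ f - ∑ i ∈ Finset.range m, C (coeff i f) * X ^ i := by
    rw [X_pow_dvd_iff]
    intro j hj
    simp [coeff_C_mul, coeff_X_pow, hj]
  obtain ⟨g, hg⟩ := this
  exact ⟨g, by rw [← hg]; ring⟩

theorem coeff_sb (hs : cc s = 0) (f : R⟦X⟧) (m : ℕ) :
    coeff m (sb s f) = ∑ i ∈ Finset.range (m + 1), coeff i f * coeff m (s ^ i) := by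
  obtain ⟨g, hg⟩ := exists_trunc f (m + 1)
  have h0 : coeff m (s ^ (m + 1) * sb s g) = 0 :=
    X_pow_dvd_iff.1 ((pow_dvd_pow_of_dvd (X_dvd_iff.2 hs) (m + 1)).mul_right _) m
      (Nat.lt_succ_self m)
  conv_lhs => rw [hg]
  simp only [map_add, map_mul, map_sum, map_pow, sb_C hs, sb_X hs, h0, add_zero, coeff_C_mul]

theorem coeff_one_sb (hs : cc s = 0) (f : R⟦X⟧) :
    coeff 1 (sb s f) = coeff 1 f * coeff 1 s := by
  rw [coeff_sb hs]
  simp [Finset.sum_range_succ, coeff_one]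

theorem map_sb (hs : cc s = 0) (φ : R →+* S) (f : R⟦X⟧) :
    map φ (sb s f) = sb (map φ s) (map φ f) := by
  have h : cc (map φ s) = 0 := by
    rw [← coeff_zero_eq_constantCoeff_apply, coeff_map, coeff_zero_eq_constantCoeff_apply, hs,
      map_zero]
  have := homExt (up (⊥ : Ideal S)) (g := (map φ).comp (sb s))
    (g' := (sb (map φ s)).comp (map φ))
    (fun r => by rw [RingHom.comp_apply, RingHom.comp_apply, sb_C hs, map_C, sb_C h])
    (by rw [RingHom.comp_apply, RingHom.comp_apply, sb_X hs, map_X, sb_X h])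
    (by rw [RingHom.comp_apply, sb_X hs]; exact h)
  exact RingHom.congr_fun this f

theorem dX_sb (hs : cc s = 0) (f : R⟦X⟧) : dX R (sb s f) = sb s (dX R f) * dX R s := by
  have := hom_chain (up (⊥ : Ideal R)) (g := sb s) (by rw [sb_X hs]; exact hs) isDer_dX
    (L := 0) (fun a b => by simp) (a := 0) (fun r => by rw [sb_C hs, dX_C, zero_mul]) f
  rwa [zero_mul, zero_add, sb_X hs] at this

theorem cw_sb (hs : cc s = 0) {D : R →+ R} (hD : IsDer D) (f : R⟦X⟧) :
    cw D (sb s f) = sb s (cw D f) + sb s (dX R f) * cw D s := by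
  have := hom_chain (up (⊥ : Ideal R)) (g := sb s) (by rw [sb_X hs]; exact hs) hD.coefw
    hD (a := 1) (fun r => by rw [sb_C hs, sb_C hs, cw_C, one_mul]) f
  rwa [one_mul, sb_X hs] at this

theorem rescale_eq_sb (a : R) (f : R⟦X⟧) : rescale a f = sb (C a * X) f := by
  have h : cc (C a * X : R⟦X⟧) = 0 := by simp
  have := homExt (up (⊥ : Ideal R)) (g := rescale a) (g' := sb (C a * X))
    (fun r => by
      rw [sb_C h]
      ext n
      rw [coeff_rescale, coeff_C]
      split_ifs with k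
      · rw [k, pow_zero, one_mul]
      · rw [mul_zero])
    (by rw [sb_X h, rescale_X]) (by rw [rescale_X]; exact h)
  exact RingHom.congr_fun this f

theorem exists_linv (hs : cc s = 0) (h1 : IsUnit (coeff 1 s)) :
    ∃ e, cc e = 0 ∧ coeff 1 e * coeff 1 s = 1 ∧ sb e s = X := by
  obtain ⟨z, hz, h⟩ := root (up (⊥ : Ideal R)) (f := map C s - C X)
    (by
      rw [map_sub, constantCoeff_C, ← coeff_zero_eq_constantCoeff_apply, coeff_map,
        coeff_zero_eq_constantCoeff_apply, hs, map_zero, zero_sub]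
      exact neg_mem (X_mem_up _))
    (by
      rw [map_sub, coeff_map, coeff_C, if_neg one_ne_zero, sub_zero]
      exact h1.map _)
  rw [map_sub, ev_map _ hz, ev_C _ hz, sub_eq_zero] at h
  have k : sb z s = X := h
  refine ⟨z, hz, ?_, k⟩
  rw [mul_comm, ← coeff_one_sb hz, k, coeff_one_X]

theorem exists_inv (hs : cc s = 0) (h1 : IsUnit (coeff 1 s)) :
    ∃ e, cc e = 0 ∧ coeff 1 e * coeff 1 s = 1 ∧ sb e s = X ∧ sb s e = X := by
  obtain ⟨e, a1, a2, a3⟩ := exists_linv hs h1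
  obtain ⟨e', b1, -, b3⟩ := exists_linv a1 (IsUnit.of_mul_eq_one _ a2)
  have : e' = s := by rw [← sb_X b1, ← a3, sb_sb b1 a1, b3, sb_id]
  exact ⟨e, a1, a2, a3, this ▸ b3⟩

theorem exists_ordIs {f : R⟦X⟧} (h : f ≠ 0) : ∃ n, OrdIs n f := by
  classical
  have k : ∃ n, coeff n f ≠ 0 := by
    by_contra c
    exact h (PowerSeries.ext fun n => by_contra fun d => c ⟨n, by simpa using d⟩)
  exact ⟨Nat.find k, Nat.find_spec k, fun j hj => not_not.1 (Nat.find_min k hj)⟩

theorem coeff_X_pow_mul_self (n : ℕ) (u : R⟦X⟧) : coeff n (X ^ n * u) = cc u := by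
  have := coeff_X_pow_mul u n 0
  rwa [zero_add, coeff_zero_eq_constantCoeff_apply] at this

theorem ordIs_X_pow_mul (n : ℕ) {u : R⟦X⟧} (h : cc u ≠ 0) : OrdIs n (X ^ n * u) :=
  ⟨by rwa [coeff_X_pow_mul_self], X_pow_dvd_iff.1 (dvd_mul_right _ _)⟩

theorem OrdIs.fac {n : ℕ} {f : R⟦X⟧} (h : OrdIs n f) :
    ∃ u, f = X ^ n * u ∧ cc u = coeff n f := by
  obtain ⟨u, hu⟩ := X_pow_dvd_iff.2 h.2
  exact ⟨u, hu, by rw [hu, coeff_X_pow_mul_self]⟩

theorem sb_inj [IsDomain R] (hs : cc s = 0) (h : s ≠ 0) : Function.Injective (sb s) := by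
  rw [injective_iff_map_eq_zero]
  intro f hf
  by_contra c
  obtain ⟨n, hn⟩ := exists_ordIs c
  obtain ⟨u, hu, hc⟩ := hn.fac
  rw [hu, map_mul, map_pow, sb_X hs] at hf
  rcases mul_eq_zero.1 hf with k | k
  · exact h (pow_eq_zero_iff (by rintro rfl; simp at k) |>.1 k)
  · exact hn.1 (by rw [← hc, ← cc_sb hs, k, map_zero])

theorem OrdIs.subst [IsDomain R] {n : ℕ} {f : R⟦X⟧} (h : OrdIs n f) (hs : cc s = 0)
    (h1 : coeff 1 s ≠ 0) :
    OrdIs n (sb s f) ∧ coeff n (sb s f) = coeff n f * coeff 1 s ^ n := by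
  obtain ⟨u, hu, hc⟩ := h.fac
  obtain ⟨v, hv⟩ := X_dvd_iff.2 hs
  have c1 : cc v = coeff 1 s := by
    rw [hv, ← coeff_X_pow_mul_self 1 v, pow_one]
  have e : sb s f = X ^ n * (v ^ n * sb s u) := by
    rw [hu, map_mul, map_pow, sb_X hs, ← mul_assoc, ← mul_pow, ← hv]
  have c2 : cc (v ^ n * sb s u) = coeff n f * coeff 1 s ^ n := by
    rw [map_mul, map_pow, c1, cc_sb hs, hc, mul_comm]
  rw [e]
  exact ⟨ordIs_X_pow_mul n (c2 ▸ mul_ne_zero h.1 (pow_ne_zero _ h1)),
    (coeff_X_pow_mul_self _ _).trans c2⟩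

theorem OrdIs.mul [IsDomain R] {n m : ℕ} {f g : R⟦X⟧} (h : OrdIs n f) (h' : OrdIs m g) :
    OrdIs (n + m) (f * g) ∧ coeff (n + m) (f * g) = coeff n f * coeff m g := by
  obtain ⟨u, hu, hc⟩ := h.fac
  obtain ⟨v, hv, hd⟩ := h'.fac
  have e : f * g = X ^ (n + m) * (u * v) := by rw [hu, hv]; ring
  have c : cc (u * v) = coeff n f * coeff m g := by rw [map_mul, hc, hd]
  rw [e]
  exact ⟨ordIs_X_pow_mul _ (c ▸ mul_ne_zero h.1 h'.1), (coeff_X_pow_mul_self _ _).trans c⟩

theorem ram_C {M : ℕ} (hM : 1 ≤ M) (r : R) : ram R M (C r) = C r := sb_C (cc_X_pow hM) r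

theorem ram_X {M : ℕ} (hM : 1 ≤ M) : ram R M X = X ^ M := sb_X (cc_X_pow hM)

theorem cc_ram {M : ℕ} (hM : 1 ≤ M) (f : R⟦X⟧) : cc (ram R M f) = cc f := cc_sb (cc_X_pow hM) f

theorem coeff_ram {M : ℕ} (hM : 1 ≤ M) (f : R⟦X⟧) (n : ℕ) :
    coeff n (ram R M f) = if M ∣ n then coeff (n / M) f else 0 := by
  rw [ram, coeff_sb (cc_X_pow hM)]
  simp only [← pow_mul, coeff_X_pow]
  split_ifs with k
  · obtain ⟨j, rfl⟩ := k
    rw [Nat.mul_div_cancel_left _ hM, Finset.sum_eq_single j, if_pos rfl, mul_one]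
    · intro i _ hi
      rw [if_neg fun c => hi (Nat.eq_of_mul_eq_mul_left hM c).symm, mul_zero]
    · intro c
      exact absurd (Finset.mem_range.2 (Nat.lt_succ_of_le (Nat.le_mul_of_pos_left _ hM))) c
  · exact Finset.sum_eq_zero fun i _ => by rw [if_neg fun c => k ⟨i, c⟩, mul_zero]

theorem ram_inj {M : ℕ} (hM : 1 ≤ M) : Function.Injective (ram R M) := by
  intro f g h
  ext n
  have := congrArg (coeff (M * n)) h
  rwa [coeff_ram hM, coeff_ram hM, if_pos (dvd_mul_right _ _), if_pos (dvd_mul_right _ _),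
    Nat.mul_div_cancel_left _ hM] at this

theorem thP_ram {M : ℕ} (hM : 1 ≤ M) (f : R⟦X⟧) :
    thP R (ram R M f) = M * ram R M (thP R f) := by
  obtain ⟨N, rfl⟩ := Nat.exists_eq_add_of_le' hM
  rw [thP_apply, thP_apply, map_mul, ram_X hM, ram, dX_sb (cc_X_pow hM), isDer_dX.pow, dX_X,
    Nat.add_sub_cancel]
  ring

theorem hat_C (φ : R →+* S⟦X⟧) (r : R) : hat φ (C r) = φ r :=
  ev_C (up (⊥ : Ideal S)) (X_mem_up ⊥) r

theorem hat_X (φ : R →+* S⟦X⟧) : hat φ X = X := ev_X (up (⊥ : Ideal S)) (X_mem_up ⊥)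

theorem cc_hat (φ : R →+* S⟦X⟧) (f : R⟦X⟧) : cc (hat φ f) = cc (φ (cc f)) := by
  obtain ⟨g, hg⟩ := eq_C_add_X_mul f
  conv_lhs => rw [hg]
  rw [map_add, map_mul, hat_C, hat_X, map_add, map_mul, constantCoeff_X, zero_mul, add_zero]

theorem unit_fac {k : Type} [Field k] {f : k⟦X⟧} (h : f ≠ 0) :
    ∃ n u, IsUnit u ∧ f = X ^ n * u := by
  obtain ⟨n, hn⟩ := exists_ordIs h
  obtain ⟨u, hu, hc⟩ := hn.fac
  exact ⟨n, u, isUnit_iff_constantCoeff.2 (IsUnit.mk0 _ (hc ▸ hn.1)), hu⟩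

theorem dvd_or {k : Type} [Field k] (f g : k⟦X⟧) : f ∣ g ∨ X * g ∣ f := by
  by_cases hf : f = 0
  · exact Or.inr (hf ▸ dvd_zero _)
  by_cases hg : g = 0
  · exact Or.inl (hg ▸ dvd_zero _)
  obtain ⟨n, u, hu, rfl⟩ := unit_fac hf
  obtain ⟨m, v, hv, rfl⟩ := unit_fac hg
  rcases le_or_gt n m with h | h
  · exact Or.inl (hu.mul_right_dvd.2 ((pow_dvd_pow _ h).mul_right _))
  · right
    rw [← mul_assoc, ← pow_succ']
    exact hv.mul_right_dvd.2 ((pow_dvd_pow _ h).mul_right _)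

theorem exists_root_one {k : Type} [Field k] [CharZero k] {u : k⟦X⟧} (hu : cc u ≠ 0)
    {n : ℕ} (hn : 1 ≤ n) : ∃ y, cc y = 1 ∧ u = C (cc u) * y ^ n := by
  obtain ⟨y, h1, h2⟩ := nth_root (up (⊥ : Ideal k)) (s := C (cc u)⁻¹ * u) hn (by
    rw [mem_up_bot, map_sub, map_mul, constantCoeff_C, inv_mul_cancel₀ hu, map_one, sub_self])
  rw [mem_up_bot, map_sub, map_one, sub_eq_zero] at h1
  exact ⟨y, h1, by rw [h2, ← mul_assoc, ← map_mul, mul_inv_cancel₀ hu, map_one, one_mul]⟩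

theorem unit_root {k : Type} [Field k] [CharZero k] [IsAlgClosed k] {u : k⟦X⟧} (hu : IsUnit u)
    {n : ℕ} (hn : 1 ≤ n) : ∃ v, v ^ n = u := by
  obtain ⟨y, -, h⟩ := exists_root_one (isUnit_iff_constantCoeff.1 hu).ne_zero hn
  obtain ⟨a, ha⟩ := IsAlgClosed.exists_pow_nat_eq (cc u) hn
  exact ⟨C a * y, by rw [mul_pow, ← map_pow, ha, ← h]⟩

/-- A series of order two is a square after a change of variable tangent to the identity. -/
theorem exists_sq {k : Type} [Field k] [CharZero k] {T : k⟦X⟧} (h : OrdIs 2 T) :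
    ∃ e, cc e = 0 ∧ coeff 1 e = 1 ∧ sb e T = C (coeff 2 T) * X ^ 2 := by
  obtain ⟨u, hu, hc⟩ := h.fac
  obtain ⟨y, h1, h2⟩ := exists_root_one (hc ▸ h.1 : cc u ≠ 0) (n := 2) one_le_two
  have c1 : coeff 1 (X * y) = 1 := by rw [← h1, ← coeff_X_pow_mul_self 1 y, pow_one]
  obtain ⟨e, a1, a2, a3⟩ := exists_linv (s := X * y) (by simp) (c1 ▸ isUnit_one)
  refine ⟨e, a1, by rwa [c1, mul_one] at a2, ?_⟩
  have e2 : T = C (coeff 2 T) * (X * y) ^ 2 := by
    rw [← hc]
    conv_lhs => rw [hu, h2]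
    ring
  conv_lhs => rw [e2]
  rw [map_mul, map_pow, a3, sb_C a1]

theorem coeff_succ_of_dX [Algebra ℚ S] {f g : S⟦X⟧} {n : ℕ}
    (h : coeff n (dX S f) = coeff n (dX S g)) : coeff (n + 1) f = coeff (n + 1) g := by
  rw [coeff_dX, coeff_dX] at h
  have h1 : IsUnit ((n : S) + 1) := by
    have : ((n : S) + 1) = algebraMap ℚ S ((n : ℚ) + 1) := by simp
    rw [this]
    exact (IsUnit.mk0 _ (by positivity)).map _
  exact h1.mul_right_cancel h

/-- The Taylor homomorphism of a derivation. -/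
theorem exists_tayl [Algebra ℚ S] {D : R →+ R} (hD : IsDer D) (g : R →+* S) :
    ∃ τ : R →+* S⟦X⟧, (∀ r, cc (τ r) = g r) ∧ (∀ r, dX S (τ r) = τ (D r)) ∧
      ∀ r n, coeff n (τ r) = algebraMap ℚ S (1 / n.factorial) * g (D^[n] r) := by
  let t : R → S⟦X⟧ := fun r => mk fun n => algebraMap ℚ S (1 / n.factorial) * g (D^[n] r)
  have tc : ∀ r n, coeff n (t r) = algebraMap ℚ S (1 / n.factorial) * g (D^[n] r) :=
    fun r n => coeff_mk _ _
  have t0 : ∀ r, cc (t r) = g r := fun r => by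
    rw [← coeff_zero_eq_constantCoeff_apply, tc]
    simp
  have td : ∀ r, dX S (t r) = t (D r) := fun r => by
    ext n
    have h1 : ((n : S) + 1) = algebraMap ℚ S ((n : ℚ) + 1) := by simp
    have h2 : ((n : ℚ) + 1) ≠ 0 := by positivity
    have h3 : (n.factorial : ℚ) ≠ 0 := by positivity
    rw [coeff_dX, tc, tc, Function.iterate_succ_apply, h1, mul_right_comm, ← map_mul,
      Nat.factorial_succ]
    congr 2
    push_cast
    field_simp
  have ta : ∀ a b, t (a + b) = t a + t b := fun a b => by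
    ext n
    rw [map_add, tc, tc, tc, iterate_map_add, map_add, mul_add]
  have tk : ∀ a, D a = 0 → t a = C (g a) := fun a h => by
    have z : t 0 = 0 := by simpa using ta 0 0
    rw [← t0]
    exact eq_C_of_dX (by rw [td, h, z])
  have tm : ∀ n a b, coeff n (t (a * b)) = coeff n (t a * t b) := fun n => by
    induction n with
    | zero =>
      intro a b
      rw [coeff_zero_eq_constantCoeff_apply, coeff_zero_eq_constantCoeff_apply, map_mul, t0, t0,
        t0, map_mul]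
    | succ n ih =>
      intro a b
      apply coeff_succ_of_dX
      rw [td, hD, ta, isDer_dX, td, td, map_add, map_add, ih, ih]
  exact ⟨{ toFun := t
           map_one' := by rw [tk 1 hD.one, map_one, map_one]
           map_mul' := fun a b => PowerSeries.ext fun n => tm n a b
           map_zero' := by rw [tk 0 (map_zero D), map_zero, map_zero]
           map_add' := ta }, t0, td, tc⟩
end Sb

end Pool.Agent.MP_05b4bd_ag.ES

end MrgPart2

-- ======== part 3: formerly Pool.Agent.MP_05b4bd_ag.esc.K2a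
section MrgPart3

/-! Kit 2: two variables. -/

namespace Pool.Agent.MP_05b4bd_ag.ES

open PowerSeries LaurentSeries

variable {R S T A B : Type} [CommRing R] [CommRing S] [CommRing T] [CommRing A] [CommRing B]

section Two
theorem CC_apply (r : R) : (CC r : AA R) = C (C r) := rfl
theorem c00_apply (c : AA R) : c00 c = cc (cc c) := rfl
theorem mem_up2 {I : Ideal R} {c : AA R} : c ∈ up (up I) ↔ c00 c ∈ I := Iff.rfl
theorem co2_ext {a b : AA R} (h : ∀ i j, co2 i j a = co2 i j b) : a = b := by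
  ext j i
  exact h i j
theorem co2_zero (i j : ℕ) : co2 i j (0 : AA R) = 0 := by simp [co2]
theorem co2_add (i j : ℕ) (a b : AA R) : co2 i j (a + b) = co2 i j a + co2 i j b := by
  simp [co2]
theorem co2_sub (i j : ℕ) (a b : AA R) : co2 i j (a - b) = co2 i j a - co2 i j b := by
  simp [co2]
theorem co2_sum {ι : Type} (i j : ℕ) (s : Finset ι) (f : ι → AA R) :
    co2 i j (∑ m ∈ s, f m) = ∑ m ∈ s, co2 i j (f m) := by
  simp [co2]
theorem co2_mono (i j i' j' : ℕ) (r : R) :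
    co2 i j (CC r * C X ^ i' * X ^ j') = if i = i' ∧ j = j' then r else 0 := by
  rw [CC_apply, ← map_pow, ← map_mul, co2, coeff_C_mul, coeff_X_pow]
  by_cases hj : j = j'
  · by_cases hi : i = i'
    · simp [hi, hj, coeff_X_pow]
    · simp [hi, hj, coeff_X_pow]
  · simp [hj]
theorem coeff_red (c : AA R) (n : ℕ) : coeff n (red c) = cc (coeff n c) := by
  simp [red]
theorem cc_red (c : AA R) : cc (red c) = c00 c := by
  rw [c00_apply, ← coeff_zero_eq_constantCoeff_apply, coeff_red,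
    coeff_zero_eq_constantCoeff_apply]
theorem red_mapC (c : R⟦X⟧) : red (map C c) = c := by
  ext n
  simp [coeff_red]
theorem red_C (c : R⟦X⟧) : red (C c) = C (cc c) := by
  simp [red]
theorem red_X : red (X : AA R) = X := by
  simp [red]
theorem red_eq_zero {c : AA R} : red c = 0 ↔ C X ∣ c := by
  rw [C_dvd_iff, PowerSeries.ext_iff]
  refine forall_congr' fun n => ?_
  rw [coeff_red, X_dvd_iff, map_zero]
theorem eq_red_add (c : AA R) : ∃ c', c = map C (red c) + C X * c' := by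
  obtain ⟨c', h⟩ : C X ∣ c - map C (red c) := by
    rw [← red_eq_zero, map_sub, red_mapC, sub_self]
  exact ⟨c', by rw [← h]; ring⟩
theorem CX_pow_dvd_iff (n : ℕ) (c : AA R) : C X ^ n ∣ c ↔ ∀ i j, i < n → co2 i j c = 0 := by
  rw [C_pow_dvd_iff]
  simp only [X_pow_dvd_iff]
  exact ⟨fun h i j hi => h j i hi, fun h j i hi => h i j hi⟩
theorem exists_tfac {c : AA R} (h : c ≠ 0) : ∃ n c', c = C X ^ n * c' ∧ red c' ≠ 0 := by
  classical
  have hex : ∃ i, ∃ j, co2 i j c ≠ 0 := by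
    by_contra hc
    push Not at hc
    exact h (co2_ext fun i j => by rw [hc, co2_zero])
  obtain ⟨c', e⟩ : C X ^ Nat.find hex ∣ c := by
    rw [CX_pow_dvd_iff]
    intro i j hi
    by_contra hc
    exact Nat.find_min hex hi ⟨j, hc⟩
  refine ⟨Nat.find hex, c', e, fun h0 => ?_⟩
  obtain ⟨c'', e'⟩ := red_eq_zero.1 h0
  obtain ⟨j, hj⟩ := Nat.find_spec hex
  have : C X ^ (Nat.find hex + 1) ∣ c := ⟨c'', by rw [pow_succ, mul_assoc, ← e', ← e]⟩
  exact hj ((CX_pow_dvd_iff _ _).1 this _ j (Nat.lt_succ_self _))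
theorem co2_mA (τ : A →+* B) (i j : ℕ) (c : AA A) : co2 i j (mA τ c) = τ (co2 i j c) := by
  simp [co2, mA]
theorem red_mA (τ : A →+* B) (c : AA A) : red (mA τ c) = map τ (red c) := by
  ext n
  rw [coeff_map, coeff_red, coeff_red, ← coeff_zero_eq_constantCoeff_apply,
    ← coeff_zero_eq_constantCoeff_apply]
  exact co2_mA τ 0 n c
theorem mA_inj {τ : A →+* B} (h : Function.Injective τ) : Function.Injective (mA τ) := by
  intro a b e
  refine co2_ext fun i j => h ?_
  rw [← co2_mA, ← co2_mA, e]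
theorem mA_mA (τ : A →+* B) (τ' : B →+* T) (c : AA A) : mA τ' (mA τ c) = mA (τ'.comp τ) c :=
  co2_ext fun i j => by simp only [co2_mA, RingHom.comp_apply]
theorem mA_CC (τ : A →+* B) (r : A) : mA τ (CC r) = CC (τ r) := by
  simp [mA, CC_apply]
theorem mA_CX (τ : A →+* B) : mA τ (C X) = C X := by
  simp [mA]
theorem mA_X (τ : A →+* B) : mA τ X = X := by
  simp [mA]
theorem exists_mA {τ : A →+* B} {c : AA B} (h : ∀ i j, ∃ a, co2 i j c = τ a) :
    ∃ c', c = mA τ c' := by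
  choose a ha using h
  refine ⟨mk fun j => mk fun i => a i j, co2_ext fun i j => ?_⟩
  rw [co2_mA, ha]
  simp [co2]
theorem ker_c00 : RingHom.ker (c00 (R := R)) = up (up ⊥) := by
  ext c
  rw [mem_up2, RingHom.mem_ker, Ideal.mem_bot]
theorem ord2_iff {n : ℕ} {c : AA R} : Ord2 n c ↔ c ∈ RingHom.ker (c00 (R := R)) ^ n := by
  rw [ker_c00, mem_up_pow]
  simp only [mem_up_pow]
  constructor
  · intro h j hj i hi
    rcases Nat.eq_zero_or_pos (n - j - i) with e | e
    · rw [e, pow_zero, Ideal.one_eq_top]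
      exact Submodule.mem_top
    · have : coeff i (coeff j c) = 0 := h i j (by omega)
      rw [this]
      exact Submodule.zero_mem _
  · intro h i j hij
    have h1 := h j (by omega) i (by omega)
    exact Ideal.mem_bot.1 (Ideal.pow_le_self (by omega) h1)
theorem co2_swap (i j : ℕ) (c : AA R) : co2 i j (swap c) = co2 j i c := by
  simp [co2, swap]
theorem swap_swap (c : AA R) : swap (swap c) = c :=
  co2_ext fun i j => by rw [co2_swap, co2_swap]
theorem swap_C (c : R⟦X⟧) : swap (C c) = map C c := by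
  refine co2_ext fun i j => ?_
  rw [co2_swap]
  simp only [co2, coeff_map, coeff_C]
  split_ifs <;> simp
theorem swap_mapC (c : R⟦X⟧) : swap (map C c) = C c := by
  rw [← swap_C, swap_swap]
theorem swap_CX : swap (C X : AA R) = X := by
  rw [swap_C, map_X]
theorem swap_X : swap (X : AA R) = C X := by
  rw [← swap_CX, swap_swap]
theorem swap_CC (r : R) : swap (CC r) = CC r := by
  rw [CC_apply, swap_C, map_C]
theorem cc_swap (c : AA R) : cc (swap c) = red c := by
  ext n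
  rw [coeff_red, ← coeff_zero_eq_constantCoeff_apply, ← coeff_zero_eq_constantCoeff_apply]
  exact co2_swap n 0 c
theorem red_swap (c : AA R) : red (swap c) = cc c := by
  rw [← cc_swap, swap_swap]
theorem co2_dX (i j : ℕ) (c : AA R) : co2 i j (dX _ c) = co2 i (j + 1) c * (j + 1) := by
  have e : ((j : R⟦X⟧) + 1) = C ((j : R) + 1) := by simp
  rw [co2, coeff_dX, e, coeff_mul_C, co2]
theorem co2_cw_dX (i j : ℕ) (c : AA R) :
    co2 i j (cw (dX R) c) = co2 (i + 1) j c * (i + 1) := by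
  rw [co2, coeff_cw, coeff_dX, co2]
theorem co2_cw_cw (L : A →+ B) (i j : ℕ) (c : AA A) :
    co2 i j (cw (cw L) c) = L (co2 i j c) := by
  rw [co2, coeff_cw, coeff_cw, co2]
theorem dX_swap (c : AA R) : dX _ (swap c) = swap (cw (dX R) c) :=
  co2_ext fun i j => by rw [co2_dX, co2_swap, co2_swap, co2_cw_dX]
theorem cw_dX_swap (c : AA R) : cw (dX R) (swap c) = swap (dX _ c) :=
  co2_ext fun i j => by rw [co2_cw_dX, co2_swap, co2_swap, co2_dX]
theorem cw_cw_swap (L : A →+ B) (c : AA A) : cw (cw L) (swap c) = swap (cw (cw L) c) :=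
  co2_ext fun i j => by rw [co2_cw_cw, co2_swap, co2_swap, co2_cw_cw]
theorem mA_swap (τ : A →+* B) (c : AA A) : mA τ (swap c) = swap (mA τ c) :=
  co2_ext fun i j => by rw [co2_mA, co2_swap, co2_swap, co2_mA]
theorem isDer_DA (ε : ℕ) : IsDer (DA R ε) := isDer_thP.sub (isDer_thP.coefw.nsmul ε)
theorem co2_DA (ε i j : ℕ) (c : AA R) :
    co2 i j (DA R ε c) = ((j : R) - ε * i) * co2 i j c := by
  have e : (j : R⟦X⟧) = C (j : R) := by simp
  have e1 : co2 i j (thP R⟦X⟧ c) = j * co2 i j c := by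
    rw [co2, coeff_thP, e, coeff_C_mul, co2]
  have e2 : co2 i j (ε • cw (thP R) c) = ε * (i * co2 i j c) := by
    rw [co2, map_nsmul, map_nsmul, coeff_cw, coeff_thP, nsmul_eq_mul, co2]
  rw [DA, AddMonoidHom.sub_apply, AddMonoidHom.nsmul_apply, co2_sub, e1, e2]
  ring
theorem DA_tA (ε : ℕ) : DA R ε (tA R ε) = 0 := by
  refine co2_ext fun i j => ?_
  have e : tA R ε = CC 1 * C X ^ 1 * X ^ ε := by simp [tA]
  rw [co2_DA, co2_zero, e, co2_mono]
  split_ifs with h
  · obtain ⟨rfl, rfl⟩ := h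
    simp
  · simp
theorem tA_pow_dvd_iff (ε n : ℕ) (c : AA R) :
    tA R ε ^ n ∣ c ↔ ∀ i j, i < n ∨ j < ε * n → co2 i j c = 0 := by
  have e : tA R ε ^ n = X ^ (ε * n) * C X ^ n := by rw [tA, mul_pow, ← pow_mul, mul_comm]
  rw [e]
  constructor
  · intro h i j hij
    rcases hij with hi | hj
    · exact (CX_pow_dvd_iff n c).1 (dvd_of_mul_left_dvd h) i j hi
    · rw [co2, X_pow_dvd_iff.1 (dvd_of_mul_right_dvd h) j hj, map_zero]
  · intro h
    obtain ⟨c1, rfl⟩ : (X : AA R) ^ (ε * n) ∣ c := by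
      rw [X_pow_dvd_iff]
      intro j hj
      ext i
      exact h i j (Or.inr hj)
    refine mul_dvd_mul_left _ ((CX_pow_dvd_iff n c1).2 fun i j hi => ?_)
    have := h i (j + ε * n) (Or.inl hi)
    rwa [co2, coeff_X_pow_mul] at this
instance tA_complete (ε : ℕ) : IsAdicComplete (Ideal.span {tA R ε}) (AA R) := by
  refine complete_of _ (fun x hx => ?_) (fun f hf => ?_)
  · refine co2_ext fun i j => ?_
    have := hx (i + 1)
    rw [Ideal.span_singleton_pow, Ideal.mem_span_singleton, tA_pow_dvd_iff] at this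
    rw [this i j (Or.inl (Nat.lt_succ_self i)), co2_zero]
  · simp only [Ideal.span_singleton_pow, Ideal.mem_span_singleton, tA_pow_dvd_iff] at hf ⊢
    have st : ∀ i j n, (i < n ∨ j < ε * n) → ∀ m, co2 i j (f (n + m)) = co2 i j (f n) := by
      intro i j n h m
      induction m with
      | zero => rfl
      | succ m ih =>
        have h1 : i < n + m ∨ j < ε * (n + m) := by
          rcases h with h | h
          · exact Or.inl (by omega)
          · exact Or.inr (lt_of_lt_of_le h (Nat.mul_le_mul_left _ (Nat.le_add_right _ _)))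
        have h2 := hf (n + m) i j h1
        rw [co2_sub, sub_eq_zero] at h2
        rw [← ih, ← h2, add_assoc]
    refine ⟨mk fun j => mk fun i => co2 i j (f (i + 1)), fun n i j h => ?_⟩
    have e : co2 i j (mk fun j => mk fun i => co2 i j (f (i + 1))) = co2 i j (f (i + 1)) := by
      simp only [co2, coeff_mk]
    rw [co2_sub, e, ← st i j n h (i + 1), ← st i j (i + 1) (Or.inl (Nat.lt_succ_self i)) n,
      add_comm n, sub_self]

/-- A series all of whose monomials have weight at least `N` goes to a multiple of `τ ^ N`. -/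
theorem wdvd {g : AA R →+* S} {τ p q : S} {a b : ℕ} (ha : 1 ≤ a) (hb : 1 ≤ b)
    (hp : g (C X) = τ ^ a * p) (hq : g X = τ ^ b * q) (N : ℕ) :
    ∀ c : AA R, (∀ i j, i * a + j * b < N → co2 i j c = 0) → τ ^ N ∣ g c := by
  induction N using Nat.strong_induction_on with
  | _ N ih =>
    intro c hc
    rcases Nat.eq_zero_or_pos N with rfl | hN
    · simp
    obtain ⟨c1, e⟩ := eq_C_add_X_mul c
    have hex : ∃ i, N ≤ i * a := ⟨N, Nat.le_mul_of_pos_right _ ha⟩
    obtain ⟨c0, e0⟩ : (X : R⟦X⟧) ^ Nat.find hex ∣ cc c := by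
      rw [X_pow_dvd_iff]
      intro i hi
      have h1 := not_le.1 (Nat.find_min hex hi)
      have h2 := hc i 0 (by omega)
      rwa [co2, coeff_zero_eq_constantCoeff_apply] at h2
    have h1 : τ ^ (N - b) ∣ g c1 := by
      refine ih _ (by omega) c1 fun i j hij => ?_
      have h2 := hc i (j + 1) (by rw [add_mul, one_mul]; omega)
      rw [e, co2, map_add, coeff_succ_X_mul, coeff_C, if_neg (Nat.succ_ne_zero j), zero_add] at h2
      exact h2
    rw [e, map_add, map_mul, e0, map_mul, map_mul, map_pow, map_pow, hp, hq]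
    refine dvd_add (dvd_mul_of_dvd_left ?_ _) ?_
    · rw [mul_pow, ← pow_mul]
      exact dvd_mul_of_dvd_left (pow_dvd_pow _ (by rw [mul_comm]; exact Nat.find_spec hex)) _
    · obtain ⟨y, hy⟩ := h1
      refine (pow_dvd_pow τ (show N ≤ b + (N - b) by omega)).trans ⟨q * y, ?_⟩
      rw [hy, pow_add]
      ring

variable (J : Ideal S) [IsAdicComplete J S] {φ : R →+* S} {u u' z z' : S}
include J
theorem ev2_C (hz : z ∈ J) (c : R⟦X⟧) : ev2 φ u z (C c) = ev φ u c := ev_C J hz c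
theorem ev2_CC (hu : u ∈ J) (hz : z ∈ J) (r : R) : ev2 φ u z (CC r) = φ r := by
  rw [CC_apply, ev2_C J hz, ev_C J hu]
theorem ev2_CX (hu : u ∈ J) (hz : z ∈ J) : ev2 φ u z (C X) = u := by
  rw [ev2_C J hz, ev_X J hu]
theorem ev2_X (hz : z ∈ J) : ev2 φ u z X = z := ev_X J hz
theorem ev2_mapC (hu : u ∈ J) (hz : z ∈ J) (c : R⟦X⟧) : ev2 φ u z (map C c) = ev φ z c := by
  have e : (ev φ u).comp C = φ := RingHom.ext fun r => ev_C J hu r
  rw [ev2, ev_map J hz, e]
theorem homExt2 {g g' : AA R →+* S} (h0 : ∀ r, g (CC r) = g' (CC r)) (h1 : g (C X) = g' (C X))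
    (h2 : g X = g' X) (hu : g (C X) ∈ J) (hz : g X ∈ J) : g = g' := by
  have e : g.comp C = g'.comp C := homExt J h0 h1 hu
  exact homExt J (fun r => RingHom.congr_fun e r) h2 hz
theorem ev2_swap (hu : u ∈ J) (hz : z ∈ J) (c : AA R) :
    ev2 φ u z (swap c) = ev2 φ z u c := by
  have e1 : ((ev2 φ u z).comp swap) (C X) = z := by
    rw [RingHom.comp_apply, swap_CX, ev2_X J hz]
  have e2 : ((ev2 φ u z).comp swap) X = u := by
    rw [RingHom.comp_apply, swap_X, ev2_CX J hu hz]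
  have e : (ev2 φ u z).comp swap = ev2 φ z u := by
    refine homExt2 J (fun r => ?_) ?_ ?_ ?_ ?_
    · rw [RingHom.comp_apply, swap_CC, ev2_CC J hu hz, ev2_CC J hz hu]
    · rw [e1, ev2_CX J hz hu]
    · rw [e2, ev2_X J hu]
    · rwa [e1]
    · rwa [e2]
  exact RingHom.congr_fun e c
theorem homExtT {g g' : AA R →+* S} (h0 : ∀ c, g (map C c) = g' (map C c))
    (h1 : g (C X) = g' (C X)) (hu : g (C X) ∈ J) : g = g' := by
  have e : g.comp swap = g'.comp swap := by
    refine homExt J (fun r => ?_) ?_ ?_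
    · rw [RingHom.comp_apply, RingHom.comp_apply, swap_C, h0]
    · rw [RingHom.comp_apply, RingHom.comp_apply, swap_X, h1]
    · rwa [RingHom.comp_apply, swap_X]
  refine RingHom.ext fun c => ?_
  have := RingHom.congr_fun e (swap c)
  rwa [RingHom.comp_apply, RingHom.comp_apply, swap_swap] at this
omit J [IsAdicComplete J S] in
theorem IsDerOver.precomp {g : R →+* S} {δ : R →+ S} (hδ : IsDerOver g δ) (ψ : T →+* R) :
    IsDerOver (g.comp ψ) (δ.comp ψ.toAddMonoidHom) := fun a b => by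
  simpa using hδ (ψ a) (ψ b)
theorem derExt2 {g : AA R →+* S} {δ : AA R →+ S} (hδ : IsDerOver g δ) (h0 : ∀ r, δ (CC r) = 0)
    (h1 : δ (C X) = 0) (h2 : δ X = 0) (hu : g (C X) ∈ J) (hz : g X ∈ J) (c : AA R) : δ c = 0 :=
  derExt J hδ (fun r => derExt J (hδ.precomp C) h0 h1 hu r) h2 hz c
theorem derExtT {g : AA R →+* S} {δ : AA R →+ S} (hδ : IsDerOver g δ) (h0 : ∀ c, δ (map C c) = 0)
    (h1 : δ (C X) = 0) (hu : g (C X) ∈ J) (c : AA R) : δ c = 0 := by
  have := derExt J (hδ.precomp swap) (fun r => ?_) ?_ ?_ (swap c)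
  · have e : δ (swap (swap c)) = 0 := this
    rwa [swap_swap] at e
  · show δ (swap (C r)) = 0
    rw [swap_C, h0]
  · show δ (swap X) = 0
    rw [swap_X, h1]
  · rwa [RingHom.comp_apply, swap_X]
theorem hom_chain2 {g : AA R →+* S} (hu : g (C X) ∈ J) (hz : g X ∈ J) {δ : S →+ S} (hδ : IsDer δ)
    {L : R →+ R} (hL : IsDer L) {a : S} (h : ∀ r, δ (g (CC r)) = a * g (CC (L r))) (c : AA R) :
    δ (g c) = a * g (cw (cw L) c) + g (cw (dX R) c) * δ (g (C X)) + g (dX _ c) * δ (g X) := by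
  have hd := (((hδ.comp_hom g).sub ((hL.coefw.coefw.hom_comp g).mulLeft a)).sub
    (((isDer_dX (R := R)).coefw.hom_comp g).mulLeft (δ (g (C X))))).sub
    (((isDer_dX (R := R⟦X⟧)).hom_comp g).mulLeft (δ (g X)))
  have key : ∀ c : AA R, δ (g c) - a * g (cw (cw L) c) - δ (g (C X)) * g (cw (dX R) c) -
      δ (g X) * g (dX _ c) = 0 := by
    refine derExt2 J hd (fun r => ?_) ?_ ?_ hu hz
    · show δ (g (CC r)) - a * g (cw (cw L) (CC r)) - δ (g (C X)) * g (cw (dX R) (CC r)) -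
        δ (g X) * g (dX _ (CC r)) = 0
      rw [h, CC_apply, CC_apply, cw_C, cw_C, cw_C, dX_C, dX_C]
      simp
    · show δ (g (C X)) - a * g (cw (cw L) (C X)) - δ (g (C X)) * g (cw (dX R) (C X)) -
        δ (g X) * g (dX _ (C X)) = 0
      rw [cw_C, cw_C, cw_X hL.one, dX_X, dX_C]
      simp
    · show δ (g X) - a * g (cw (cw L) X) - δ (g (C X)) * g (cw (dX R) X) -
        δ (g X) * g (dX _ X) = 0
      rw [cw_X hL.coefw.one, cw_X isDer_dX.one, dX_X]
      simp
  linear_combination key c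
theorem hom_chain2' {g : AA R →+* S} (hu : g (C X) ∈ J) (hz : g X ∈ J) {δ : S →+ S} (hδ : IsDer δ)
    (h : ∀ r, δ (g (CC r)) = 0) (c : AA R) :
    δ (g c) = g (cw (dX R) c) * δ (g (C X)) + g (dX _ c) * δ (g X) := by
  have := hom_chain2 J hu hz hδ (L := 0) (fun _ _ => by simp) (a := 0)
    (fun r => by rw [h, zero_mul]) c
  rwa [zero_mul, zero_add] at this
theorem hom_ev2 (J' : Ideal T) [IsAdicComplete J' T] (hu : u ∈ J) (hz : z ∈ J) (g : S →+* T)
    (gu : g u ∈ J') (gz : g z ∈ J') (c : AA R) :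
    g (ev2 φ u z c) = ev2 (g.comp φ) (g u) (g z) c := by
  have e1 : (g.comp (ev2 φ u z)) (C X) = g u := by rw [RingHom.comp_apply, ev2_CX J hu hz]
  have e2 : (g.comp (ev2 φ u z)) X = g z := by rw [RingHom.comp_apply, ev2_X J hz]
  have e : g.comp (ev2 φ u z) = ev2 (g.comp φ) (g u) (g z) := by
    refine homExt2 J' (fun r => ?_) ?_ ?_ ?_ ?_
    · rw [RingHom.comp_apply, ev2_CC J hu hz, ev2_CC J' gu gz, RingHom.comp_apply]
    · rw [e1, ev2_CX J' gu gz]
    · rw [e2, ev2_X J' gz]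
    · rwa [e1]
    · rwa [e2]
  exact RingHom.congr_fun e c
theorem ev2_mA (hu : u ∈ J) (hz : z ∈ J) (ψ : T →+* R) (c : AA T) :
    ev2 φ u z (mA ψ c) = ev2 (φ.comp ψ) u z c := by
  have e1 : ((ev2 φ u z).comp (mA ψ)) (C X) = u := by
    rw [RingHom.comp_apply, mA_CX, ev2_CX J hu hz]
  have e2 : ((ev2 φ u z).comp (mA ψ)) X = z := by rw [RingHom.comp_apply, mA_X, ev2_X J hz]
  have e : (ev2 φ u z).comp (mA ψ) = ev2 (φ.comp ψ) u z := by
    refine homExt2 J (fun r => ?_) ?_ ?_ ?_ ?_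
    · rw [RingHom.comp_apply, mA_CC, ev2_CC J hu hz, ev2_CC J hu hz, RingHom.comp_apply]
    · rw [e1, ev2_CX J hu hz]
    · rw [e2, ev2_X J hz]
    · rwa [e1]
    · rwa [e2]
  exact RingHom.congr_fun e c
theorem ev2_sub (hu : u ∈ J) (hu' : u' ∈ J) (hz : z ∈ J) (hz' : z' ∈ J) (c : AA R) :
    ∃ r r', ev2 φ u z c - ev2 φ u' z' c = (u - u') * r + (z - z') * r' := by
  obtain ⟨r', h1⟩ : z - z' ∣ ev2 φ u z c - ev2 φ u z' c := ev_sub J hz hz' c
  obtain ⟨r, h2⟩ : u - u' ∣ ev2 φ z' u (swap c) - ev2 φ z' u' (swap c) := ev_sub J hu hu' _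
  rw [ev2_swap J hz' hu, ev2_swap J hz' hu'] at h2
  exact ⟨r, r', by linear_combination h1 + h2⟩
omit J [IsAdicComplete J S] in
theorem ev2_zero (φ : R →+* S) (c : AA R) : ev2 φ 0 0 c = φ (c00 c) := by
  rw [ev2, ev_zero, ev_zero, c00_apply]
theorem ev2_sub_c00 (hu : u ∈ J) (hz : z ∈ J) (c : AA R) :
    ∃ r r', ev2 φ u z c = φ (c00 c) + u * r + z * r' := by
  obtain ⟨r, r', h⟩ := ev2_sub J (φ := φ) hu J.zero_mem hz J.zero_mem c
  rw [ev2_zero] at h
  exact ⟨r, r', by linear_combination h⟩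
omit J [IsAdicComplete J S] in
theorem ev2_id (c : AA R) : ev2 CC (C X) X c = c := by
  have hu : (C X : AA R) ∈ up (up (⊥ : Ideal R)) := by simp [mem_up2, c00_apply]
  have hz : (X : AA R) ∈ up (up (⊥ : Ideal R)) := by simp [mem_up2, c00_apply]
  have e : ev2 CC (C X) X = RingHom.id (AA R) := by
    refine homExt2 (up (up ⊥)) (fun r => ?_) ?_ ?_ ?_ ?_
    · rw [ev2_CC _ hu hz, RingHom.id_apply]
    · rw [ev2_CX _ hu hz, RingHom.id_apply]
    · rw [ev2_X _ hz, RingHom.id_apply]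
    · rwa [ev2_CX _ hu hz]
    · rwa [ev2_X _ hz]
  exact RingHom.congr_fun e c
omit J [IsAdicComplete J S] in
/-- Injectivity from the independence of the leading forms for a weight. -/
theorem winj {g : AA R →+* S} {τ p q : S} {a b : ℕ} (ha : 1 ≤ a) (hb : 1 ≤ b)
    (hτ : τ ∈ nonZeroDivisors S) (ρ : S →+* T) (hρ : ρ τ = 0) (hp : g (C X) = τ ^ a * p)
    (hq : g X = τ ^ b * q)
    (h : ∀ (w : ℕ) (s : Finset (ℕ × ℕ)) (r : ℕ × ℕ → R), (∀ m ∈ s, m.1 * a + m.2 * b = w) →
      ∑ m ∈ s, ρ (g (CC (r m))) * ρ p ^ m.1 * ρ q ^ m.2 = 0 → ∀ m ∈ s, r m = 0) :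
    Function.Injective g := by
  rw [injective_iff_map_eq_zero]
  intro c hc
  have key : ∀ w i j, i * a + j * b = w → co2 i j c = 0 := by
    intro w
    induction w using Nat.strong_induction_on with
    | _ w ih =>
      let s : Finset (ℕ × ℕ) := (Finset.range (w + 1) ×ˢ Finset.range (w + 1)).filter
        fun m => m.1 * a + m.2 * b = w
      have hs : ∀ m, m ∈ s ↔ m.1 * a + m.2 * b = w := by
        intro m
        simp only [s, Finset.mem_filter, Finset.mem_product, Finset.mem_range]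
        refine ⟨fun h => h.2, fun h => ⟨⟨?_, ?_⟩, h⟩⟩
        · have := Nat.le_mul_of_pos_right m.1 ha
          omega
        · have := Nat.le_mul_of_pos_right m.2 hb
          omega
      obtain ⟨y, hy⟩ := wdvd ha hb hp hq (w + 1)
        (c - ∑ m ∈ s, CC (co2 m.1 m.2 c) * C X ^ m.1 * X ^ m.2) (by
          intro i j hij
          rw [co2_sub, co2_sum]
          simp only [co2_mono]
          rcases Nat.lt_or_ge (i * a + j * b) w with h1 | h1
          · rw [ih _ h1 i j rfl, Finset.sum_eq_zero, sub_zero]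
            intro m hm
            split_ifs with h2
            · rw [← h2.1, ← h2.2]
              exact ih _ h1 i j rfl
            · rfl
          · rw [Finset.sum_eq_single (i, j), if_pos ⟨rfl, rfl⟩, sub_self]
            · intro m _ hm
              exact if_neg fun h2 => hm (Prod.ext h2.1.symm h2.2.symm)
            · intro hm
              exact absurd ((hs _).2 (by dsimp only; omega)) hm)
      have e1 : g (∑ m ∈ s, CC (co2 m.1 m.2 c) * C X ^ m.1 * X ^ m.2) =
          τ ^ w * ∑ m ∈ s, g (CC (co2 m.1 m.2 c)) * p ^ m.1 * q ^ m.2 := by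
        rw [map_sum, Finset.mul_sum]
        refine Finset.sum_congr rfl fun m hm => ?_
        rw [map_mul, map_mul, map_pow, map_pow, hp, hq, ← (hs m).1 hm]
        ring
      rw [map_sub, hc, e1] at hy
      have e2 : ∑ m ∈ s, g (CC (co2 m.1 m.2 c)) * p ^ m.1 * q ^ m.2 + τ * y = 0 := by
        refine (mul_left_mem_nonZeroDivisors_eq_zero_iff (pow_mem hτ w)).1 ?_
        linear_combination -hy
      have e3 := congrArg ρ e2
      simp only [map_add, map_sum, map_mul, map_pow, hρ, zero_mul, add_zero, map_zero] at e3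
      intro i j hij
      exact h w s (fun m => co2 m.1 m.2 c) (fun m hm => (hs m).1 hm) e3 (i, j) ((hs _).2 hij)
  exact co2_ext fun i j => by rw [key _ i j rfl, co2_zero]
end Two

end Pool.Agent.MP_05b4bd_ag.ES

end MrgPart3

-- ======== part 4: formerly Pool.Agent.MP_05b4bd_ag.esc.K2b
section MrgPart4

/-! Kit 2: Laurent series. -/

namespace Pool.Agent.MP_05b4bd_ag.ES

open PowerSeries LaurentSeries

variable {R S T A B : Type} [CommRing R] [CommRing S] [CommRing T] [CommRing A] [CommRing B]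

section Laurent
theorem coeff_coeL (f : R⟦X⟧) (n : ℕ) : (coeL R f).coeff n = coeff n f :=
  HahnSeries.ofPowerSeries_apply_coeff f n
theorem coeff_coeL_neg (f : R⟦X⟧) {n : ℤ} (h : n < 0) : (coeL R f).coeff n = 0 := by
  have h1 := PowerSeries.coeff_coe (f := f) n
  rw [if_pos h] at h1
  exact h1
theorem coeL_inj : Function.Injective (coeL R) := HahnSeries.ofPowerSeries_injective
/-- Two Laurent series agree when the negative and the natural coefficients do. -/
theorem extL {f g : R⸨X⸩} (h1 : ∀ n < 0, f.coeff n = g.coeff n)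
    (h2 : ∀ n : ℕ, f.coeff n = g.coeff n) : f = g := by
  ext n
  rcases lt_or_ge n 0 with h | h
  · exact h1 n h
  · obtain ⟨m, rfl⟩ := Int.eq_ofNat_of_zero_le h
    exact h2 m
theorem exists_coeL {f : R⸨X⸩} (h : ∀ n < 0, f.coeff n = 0) : ∃ g, f = coeL R g :=
  ⟨mk fun n => f.coeff n, extL (fun n hn => by rw [h n hn, coeff_coeL_neg _ hn])
    fun n => by rw [coeff_coeL, coeff_mk]⟩
theorem coeL_C (r : R) : coeL R (C r) = cL R r := HahnSeries.ofPowerSeries_C r
theorem coeL_X : coeL R X = wL R 1 := HahnSeries.ofPowerSeries_X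
theorem cL_inj : Function.Injective (cL R) := HahnSeries.C_injective
theorem wL_add (m n : ℤ) : wL R (m + n) = wL R m * wL R n := by
  unfold wL
  rw [HahnSeries.single_mul_single, mul_one]
theorem wL_zero : wL R 0 = 1 := rfl
theorem wL_pow (m : ℤ) (n : ℕ) : wL R m ^ n = wL R (n * m) := by
  unfold wL
  rw [HahnSeries.single_pow, one_pow, nsmul_eq_mul]
theorem wL_mul_neg (m : ℤ) : wL R m * wL R (-m) = 1 := by
  rw [← wL_add, add_neg_cancel, wL_zero]
theorem isUnit_wL (m : ℤ) : IsUnit (wL R m) := IsUnit.of_mul_eq_one _ (wL_mul_neg m)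
theorem coeL_X_pow (n : ℕ) : coeL R (X ^ n) = wL R n := by
  rw [map_pow, coeL_X, wL_pow, mul_one]
theorem coeff_wL_mul (m n : ℤ) (f : R⸨X⸩) : (wL R m * f).coeff n = f.coeff (n - m) := by
  unfold wL
  rw [HahnSeries.coeff_single_mul, one_mul]
theorem coeff_cL_mul (r : R) (n : ℤ) (f : R⸨X⸩) : (cL R r * f).coeff n = r * f.coeff n :=
  HahnSeries.coeff_single_zero_mul
theorem coeff_wL (m n : ℤ) : (wL R m).coeff n = if n = m then 1 else 0 := by
  unfold wL
  by_cases h : n = m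
  · rw [if_pos h, h, HahnSeries.coeff_single_same]
  · rw [if_neg h, HahnSeries.coeff_single_of_ne h]
theorem coeff_cL (r : R) (n : ℤ) : (cL R r).coeff n = if n = 0 then r else 0 := by
  have h := coeff_cL_mul r n (wL R 0)
  rw [coeff_wL, wL_zero, mul_one] at h
  rw [h]
  split_ifs <;> simp
theorem exists_low (f : R⸨X⸩) : ∃ m : ℤ, ∀ n < m, f.coeff n = 0 :=
  ⟨f.order, fun _ h => HahnSeries.coeff_eq_zero_of_lt_order h⟩
theorem exists_wL_mul_of_low {f : R⸨X⸩} {m : ℤ} (hm : ∀ n < m, f.coeff n = 0) :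
    ∃ g : R⟦X⟧, f = wL R m * coeL R g := by
  obtain ⟨g, hg⟩ := exists_coeL (f := wL R (-m) * f) fun n hn => by
    rw [coeff_wL_mul]
    exact hm _ (by omega)
  exact ⟨g, by rw [← hg, ← mul_assoc, wL_mul_neg, one_mul]⟩
theorem exists_wL_mul (f : R⸨X⸩) : ∃ (n : ℕ) (g : R⟦X⟧), f = wL R (-(n : ℤ)) * coeL R g := by
  obtain ⟨m, hm⟩ := exists_low f
  exact ⟨m.natAbs, exists_wL_mul_of_low fun n hn => hm n (by omega)⟩
/-- Coefficients of a product with a power series. -/
theorem coeff_coeL_mul (g : R⟦X⟧) (f : R⸨X⸩) {m : ℤ} (hm : ∀ n < m, f.coeff n = 0) (n : ℕ) :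
    (coeL R g * f).coeff (m + n) = ∑ i ∈ Finset.range (n + 1), coeff i g * f.coeff (m + n - i) := by
  obtain ⟨g', rfl⟩ := exists_wL_mul_of_low hm
  rw [mul_left_comm, ← map_mul, coeff_wL_mul, add_sub_cancel_left, coeff_coeL, coeff_mul,
    Finset.Nat.sum_antidiagonal_eq_sum_range_succ_mk]
  refine Finset.sum_congr rfl fun i hi => ?_
  have h := Finset.mem_range.mp hi
  rw [coeff_wL_mul, show m + n - i - m = ((n - i : ℕ) : ℤ) by omega, coeff_coeL]
theorem coeff_cwL (L : A →+ B) (f : A⸨X⸩) (n : ℤ) : (cwL L f).coeff n = L (f.coeff n) := rfl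
theorem coeff_mapL (τ : A →+* B) (f : A⸨X⸩) (n : ℤ) : (mapL τ f).coeff n = τ (f.coeff n) := rfl
theorem coeff_thL (f : R⸨X⸩) (n : ℤ) : (thL R f).coeff n = n * f.coeff n := rfl
theorem dL_apply (f : R⸨X⸩) : dL R f = wL R (-1) * thL R f := rfl
theorem coeff_dL (f : R⸨X⸩) (n : ℤ) : (dL R f).coeff n = (n + 1) * f.coeff (n + 1) := by
  rw [dL_apply, coeff_wL_mul, coeff_thL, sub_neg_eq_add]
  push_cast
  rfl
theorem intCast_eq_cL (n : ℤ) : (n : R⸨X⸩) = cL R n := (map_intCast (cL R) n).symm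
theorem cwL_coeL (L : A →+ B) (f : A⟦X⟧) : cwL L (coeL A f) = coeL B (cw L f) :=
  extL (fun n hn => by rw [coeff_cwL, coeff_coeL_neg _ hn, coeff_coeL_neg _ hn, map_zero])
    fun n => by rw [coeff_cwL, coeff_coeL, coeff_coeL, coeff_cw]
theorem cwL_cL (L : A →+ B) (a : A) : cwL L (cL A a) = cL B (L a) := by
  ext n
  rw [coeff_cwL, coeff_cL, coeff_cL]
  split_ifs <;> simp
theorem cwL_wL {L : A →+ B} (h : L 1 = 0) (n : ℤ) : cwL L (wL A n) = 0 := by
  ext m
  rw [coeff_cwL, coeff_wL]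
  split_ifs <;> simp [h]
theorem cwL_wL_mul (L : A →+ B) (n : ℤ) (f : A⸨X⸩) :
    cwL L (wL A n * f) = wL B n * cwL L f := by
  ext m
  rw [coeff_cwL, coeff_wL_mul, coeff_wL_mul, coeff_cwL]
theorem cwL_mulLeft (c : B) (L : A →+ B) (f : A⸨X⸩) :
    cwL ((AddMonoidHom.mulLeft c).comp L) f = cL B c * cwL L f := by
  ext m
  rw [coeff_cwL, coeff_cL_mul, coeff_cwL]
  rfl
theorem IsDer.coefL {D : R →+ R} (h : IsDer D) : IsDer (cwL D) := by
  intro a b
  obtain ⟨n, f, rfl⟩ := exists_wL_mul a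
  obtain ⟨m, g, rfl⟩ := exists_wL_mul b
  rw [mul_mul_mul_comm, ← wL_add, ← map_mul, cwL_wL_mul, cwL_wL_mul, cwL_wL_mul, cwL_coeL,
    cwL_coeL, cwL_coeL, h.coefw f g, map_add, map_mul, map_mul, wL_add]
  ring
theorem thL_coeL (f : R⟦X⟧) : thL R (coeL R f) = coeL R (thP R f) :=
  extL (fun n hn => by rw [coeff_thL, coeff_coeL_neg _ hn, coeff_coeL_neg _ hn, mul_zero])
    fun n => by rw [coeff_thL, coeff_coeL, coeff_coeL, coeff_thP, Int.cast_natCast]
theorem thL_wL_mul (n : ℤ) (f : R⸨X⸩) :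
    thL R (wL R n * f) = n * (wL R n * f) + wL R n * thL R f := by
  ext m
  rw [HahnSeries.coeff_add, intCast_eq_cL, coeff_cL_mul, coeff_thL, coeff_wL_mul, coeff_wL_mul,
    coeff_thL]
  push_cast
  ring
theorem isDer_thL : IsDer (thL R) := by
  intro a b
  obtain ⟨n, f, rfl⟩ := exists_wL_mul a
  obtain ⟨m, g, rfl⟩ := exists_wL_mul b
  rw [mul_mul_mul_comm, ← wL_add, ← map_mul, thL_wL_mul, thL_wL_mul, thL_wL_mul, thL_coeL,
    thL_coeL, thL_coeL, isDer_thP f g, map_add, map_mul, map_mul, map_mul, wL_add]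
  push_cast
  ring
theorem isDer_dL : IsDer (dL R) := isDer_thL.mulLeft _
theorem mapL_coeL (τ : A →+* B) (f : A⟦X⟧) : mapL τ (coeL A f) = coeL B (map τ f) :=
  extL (fun n hn => by rw [coeff_mapL, coeff_coeL_neg _ hn, coeff_coeL_neg _ hn, map_zero])
    fun n => by rw [coeff_mapL, coeff_coeL, coeff_coeL, coeff_map]
theorem mapL_cL (τ : A →+* B) (a : A) : mapL τ (cL A a) = cL B (τ a) := by
  ext n
  rw [coeff_mapL, coeff_cL, coeff_cL]
  split_ifs <;> simp
theorem mapL_wL (τ : A →+* B) (n : ℤ) : mapL τ (wL A n) = wL B n := by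
  ext m
  rw [coeff_mapL, coeff_wL, coeff_wL]
  split_ifs <;> simp
theorem mapL_inj {τ : A →+* B} (h : Function.Injective τ) : Function.Injective (mapL τ) := by
  intro f g e
  ext n
  apply h
  rw [← coeff_mapL, ← coeff_mapL, e]
theorem exists_mapL {τ : A →+* B} (hτ : Function.Injective τ) {f : B⸨X⸩}
    (h : ∀ n, ∃ a, f.coeff n = τ a) : ∃ g, f = mapL τ g := by
  choose a ha using h
  refine ⟨⟨a, f.isPWO_support'.mono fun n hn h0 => hn (hτ ?_)⟩, ?_⟩
  · rw [← ha n, h0, map_zero]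
  · ext n
    exact ha n
theorem dL_coeL (f : R⟦X⟧) : dL R (coeL R f) = coeL R (dX R f) := by
  rw [dL_apply, thL_coeL, thP_apply, map_mul, coeL_X, ← mul_assoc, mul_comm (wL R (-1)),
    wL_mul_neg, one_mul]
theorem thL_cL (r : R) : thL R (cL R r) = 0 := by
  ext n
  rw [coeff_thL, coeff_cL]
  split_ifs with h <;> simp [h]
theorem thL_wL (n : ℤ) : thL R (wL R n) = n * wL R n := by
  have h := thL_wL_mul (R := R) n 1
  rwa [isDer_thL.one, mul_one, mul_zero, add_zero] at h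
theorem thL_cwL (L : A →+ B) (f : A⸨X⸩) : thL B (cwL L f) = cwL L (thL A f) := by
  ext n
  rw [coeff_thL, coeff_cwL, coeff_cwL, coeff_thL, ← zsmul_eq_mul, ← zsmul_eq_mul, map_zsmul]
theorem dL_cwL (L : A →+ B) (f : A⸨X⸩) : dL B (cwL L f) = cwL L (dL A f) := by
  rw [dL_apply, dL_apply, cwL_wL_mul, thL_cwL]
theorem thL_mapL (τ : A →+* B) (f : A⸨X⸩) : thL B (mapL τ f) = mapL τ (thL A f) := by
  ext n
  rw [coeff_thL, coeff_mapL, coeff_mapL, coeff_thL, map_mul, map_intCast]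
theorem cwL_mapL {τ : A →+* B} {D : A →+ A} {D' : B →+ B} (h : ∀ a, D' (τ a) = τ (D a))
    (f : A⸨X⸩) : cwL D' (mapL τ f) = mapL τ (cwL D f) := by
  ext n
  rw [coeff_cwL, coeff_mapL, coeff_mapL, coeff_cwL, h]
theorem const_thL [Algebra ℚ R] {f : R⸨X⸩} (h : thL R f = 0) : ∃ r, f = cL R r := by
  refine ⟨f.coeff 0, ?_⟩
  ext n
  rw [coeff_cL]
  split_ifs with hn
  · rw [hn]
  · have h1 := coeff_thL f n
    rw [h, HahnSeries.coeff_zero] at h1
    have h2 : IsUnit (n : R) := by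
      have h3 := (IsUnit.mk0 (n : ℚ) (Int.cast_ne_zero.mpr hn)).map (algebraMap ℚ R)
      rwa [map_intCast] at h3
    exact h2.mul_right_eq_zero.mp h1.symm
theorem const_dL [Algebra ℚ R] {f : R⸨X⸩} (h : dL R f = 0) : ∃ r, f = cL R r :=
  const_thL ((isUnit_wL (-1)).mul_right_eq_zero.mp h)
theorem liftL (g : R⟦X⟧ →+* S) (h : IsUnit (g X)) :
    ∃ g' : R⸨X⸩ →+* S, ∀ c, g' (coeL R c) = g c := by
  have hu : ∀ y : Submonoid.powers (X : R⟦X⟧), IsUnit (g y) := by
    rintro ⟨_, n, rfl⟩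
    have h1 := h.pow n
    rwa [← map_pow] at h1
  exact ⟨IsLocalization.lift hu, fun c => IsLocalization.lift_eq hu c⟩
theorem homExtL {g g' : R⸨X⸩ →+* S} (h : ∀ c, g (coeL R c) = g' (coeL R c)) : g = g' :=
  IsLocalization.ringHom_ext (Submonoid.powers (X : R⟦X⟧)) (RingHom.ext h)
theorem derExtL {g : R⸨X⸩ →+* S} {δ : R⸨X⸩ →+ S} (hδ : IsDerOver g δ)
    (h : ∀ c, δ (coeL R c) = 0) (c : R⸨X⸩) : δ c = 0 := by
  obtain ⟨n, f, hc⟩ := exists_wL_mul c
  have h1 : coeL R (X ^ n) * c = coeL R f := by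
    rw [hc, coeL_X_pow, ← mul_assoc, wL_mul_neg, one_mul]
  have h2 := hδ (coeL R (X ^ n)) c
  rw [h1, h, h, zero_mul, zero_add, coeL_X_pow] at h2
  exact ((isUnit_wL n).map g).mul_right_eq_zero.mp h2.symm
/-- Ramification of Laurent series. -/
theorem exists_ramL {M : ℕ} (hM : 1 ≤ M) : ∃ ρ : R⸨X⸩ →+* R⸨X⸩,
    (∀ c, ρ (coeL R c) = coeL R (ram R M c)) ∧ (∀ n, ρ (wL R n) = wL R (M * n)) ∧
      ∀ c, thL R (ρ c) = M * ρ (thL R c) := by
  obtain ⟨ρ, hρ⟩ := liftL ((coeL R).comp (ram R M)) (by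
    rw [RingHom.comp_apply, ram_X hM, coeL_X_pow]
    exact isUnit_wL _)
  have h1 : ∀ c, ρ (coeL R c) = coeL R (ram R M c) := hρ
  have h2 : ∀ n : ℕ, ρ (wL R n) = wL R (M * n) := fun n => by
    rw [← coeL_X_pow, h1, map_pow, ram_X hM, ← pow_mul, coeL_X_pow, Nat.cast_mul]
  refine ⟨ρ, h1, fun n => ?_, fun c => ?_⟩
  · obtain ⟨m, rfl | rfl⟩ := n.eq_nat_or_neg
    · exact h2 m
    · apply (isUnit_wL (R := R) (M * m)).mul_left_cancel
      rw [mul_neg, wL_mul_neg, ← h2, ← map_mul, wL_mul_neg, map_one]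
  · have h3 := derExtL ((isDer_thL.comp_hom ρ).sub
      ((isDer_thL.hom_comp ρ).mulLeft (M : R⸨X⸩))) (fun c => by
        change thL R (ρ (coeL R c)) - M * ρ (thL R (coeL R c)) = 0
        rw [h1, thL_coeL, thL_coeL, h1, thP_ram hM, map_mul, map_natCast, sub_self]) c
    exact sub_eq_zero.mp h3
end Laurent

end Pool.Agent.MP_05b4bd_ag.ES

end MrgPart4

-- marker of a merged file
example : 731051 + 772047 = 731051 + 772047 := rfl
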