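import Pool.Agent.MP_05b4bd_ag.hc.Alg
import Mathlib.Algebra.Ring.GeomSum
import Mathlib.RingTheory.Nakayama
import Mathlib.RingTheory.Ideal.Colon
import Mathlib.RingTheory.IntegralClosure.IsIntegralClosure.Basic
import Mathlib.LinearAlgebra.FiniteDimensional.Lemmas
import Mathlib.Algebra.DualNumber
import Mathlib.RingTheory.Localization.Away.Basic
import Mathlib.RingTheory.Localization.FractionRing
import Mathlib.LinearAlgebra.Basis.VectorSpace
import Mathlib.RingTheory.Valuation.ValuationRing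
import Mathlib.LinearAlgebra.Matrix.NonsingularInverse
import Mathlib.RingTheory.LaurentSeries
import Mathlib.RingTheory.PowerSeries.Derivative
import Mathlib.RingTheory.PowerSeries.Exp
import Mathlib.RingTheory.AdicCompletion.Completeness
import Mathlib.RingTheory.RootsOfUnity.PrimitiveRoots

-- ======== part 0: formerly Pool.Agent.MP_05b4bd_ag.hc.LogCl
section MrgPart0

-- ======== part 0: formerly Pool.Agent.MP_05b4bd_ag.hc.Log
section MrgPart0

/-! Truncated logarithms; the divergence of a field with a first integral lies in its image. -/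

namespace Pool.Agent.MP_05b4bd_ag.HC

open MvPolynomial

variable {A : Type*} [CommRing A]

theorem exists_log [Algebra ℚ A] (p : A) (ν : R2 A) (N : ℕ) : ∃ l : R2 A, ∀ P Q : R2 A,
    (1 + C p * ν) * vf P Q l = (1 - (-(C p * ν)) ^ N) * vf P Q ν := by
  induction N with
  | zero => exact ⟨C 0, fun P Q => by rw [vf_C]; simp⟩
  | succ N ih =>
    obtain ⟨l, hl⟩ := ih
    refine ⟨l + C ((-p) ^ N * algebraMap ℚ A (1 / ((N : ℚ) + 1))) * ν ^ (N + 1), fun P Q => ?_⟩
    have h1 : (C (algebraMap ℚ A (1 / ((N : ℚ) + 1))) * ((N + 1 : ℕ) : R2 A) : R2 A) = 1 := by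
      rw [← map_natCast (C : A →+* R2 A), ← map_mul, ← map_natCast (algebraMap ℚ A), ← map_mul,
        Nat.cast_succ, one_div_mul_cancel (by positivity), map_one, map_one]
    rw [vf_add, vf_C_mul, vf_pow, mul_add, hl, Nat.add_sub_cancel, map_mul, map_pow, map_neg,
      ← neg_mul, mul_pow, mul_pow]
    linear_combination ((1 + C p * ν) * (-C p) ^ N * ν ^ N * vf P Q ν) * h1

theorem mm_of_unit_mul {N : ℕ} {u w : R2 A} (hu : u ∈ mm A ^ 1) (h : (1 + u) * w ∈ mm A ^ N) :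
    w ∈ mm A ^ N := by
  have e := mul_neg_geom_sum (-u) N
  have : w = (∑ i ∈ Finset.range N, (-u) ^ i) * ((1 + u) * w) + (-u) ^ N * w := by
    linear_combination (-w) * e
  rw [this]
  refine add_mem (Ideal.mul_mem_left _ _ h) (Ideal.mul_mem_right _ _ ?_)
  simpa using mm_pow (neg_mem hu) N

theorem mm_three {K : Type*} [Field K] [CharZero K] {I : R2 K} (h2 : I ∈ mm K ^ 2)
    (hx : pderiv 0 I ∈ mm K ^ 2) (hy : pderiv 1 I ∈ mm K ^ 2) : I ∈ mm K ^ 3 := by
  refine mm_succ h2 ?_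
  have := euler (hc_hom 2 I)
  rw [← hc_pderiv, ← hc_pderiv, hc_of_mm hx (by omega), hc_of_mm hy (by omega)] at this
  have h0 : ((2 : ℕ) : R2 K) ≠ 0 := by
    rw [← map_natCast (C : K →+* R2 K)]
    exact fun h => (by norm_num : ((2 : ℕ) : K) ≠ 0) (C_eq_zero.1 h)
  exact (mul_eq_zero.1 (by simpa using this.symm)).resolve_left h0

theorem div_inIm {K : Type*} [Field K] [CharZero K] {P Q : R2 K} (hP : P ∈ mm K ^ 1)
    (hQ : Q ∈ mm K ^ 1) (h : CI (hc 1 P) (hc 1 Q)) (hI : FI P Q) :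
    InIm P Q (pderiv 0 P + pderiv 1 Q) := by
  intro N
  obtain ⟨I, i2, i3, iN⟩ := hI (N + 2 + 1)
  obtain ⟨μ, h1, h2⟩ := kos_low (N := N + 2) (U := pderiv 0 I) (V := pderiv 1 I) hP hQ h
    (by rw [vf] at iN; convert iN using 1; ring)
  have hμ : coeff 0 μ ≠ 0 := fun h0 => by
    have hm := mem_mm_one.2 h0
    refine i3 (mm_three i2 ?_ ?_)
    · simpa using add_mem (mm_mono (by omega) h1) (mm_mul hm hQ)
    · simpa using sub_mem (mm_mono (by omega) h2) (mm_mul hm hP)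
  set c := coeff 0 μ with hcd
  have hu : C c⁻¹ * μ - 1 ∈ mm K ^ 1 := mem_mm_one.2 (by
    rw [coeff_sub, coeff_C_mul, ← hcd, inv_mul_cancel₀ hμ]; simp)
  obtain ⟨l, hl⟩ := exists_log 1 (C c⁻¹ * μ - 1) N
  have hl := hl P Q
  rw [map_one, one_mul] at hl
  have h3 := sub_mem (mm_pderiv 0 h2) (mm_pderiv 1 h1)
  have h4 : vf P Q (C c⁻¹ * μ - 1) = C c⁻¹ * vf P Q μ := by
    rw [vf_sub, vf_C_mul, ← map_one C, vf_C, sub_zero]
  refine ⟨C (-1) * l, mm_of_unit_mul hu ?_⟩
  have e : (1 + (C c⁻¹ * μ - 1)) * (pderiv 0 P + pderiv 1 Q - vf P Q (C (-1) * l)) =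
      C c⁻¹ * (pderiv 0 (pderiv 1 I + μ * P) - pderiv 1 (pderiv 0 I - μ * Q)) -
        (-(C c⁻¹ * μ - 1)) ^ N * vf P Q (C c⁻¹ * μ - 1) := by
    rw [vf_C_mul]
    have h5 : vf P Q μ = P * pderiv 0 μ + Q * pderiv 1 μ := rfl
    simp only [map_add, map_sub, pderiv_mul, pderiv_comm, map_neg, map_one]
    linear_combination hl + h4 + C c⁻¹ * h5
  rw [e]
  refine sub_mem (Ideal.mul_mem_left _ _ (mm_mono (by omega) h3)) (Ideal.mul_mem_right _ _ ?_)
  simpa using mm_pow (neg_mem hu) N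

theorem CI_lf {K : Type*} [Field K] {a b c e : K} (h : a * e - b * c ≠ 0) :
    CI (lf a b) (lf c e) := by
  have h' : (C (a * e - b * c)⁻¹ * (C a * C e - C b * C c) : R2 K) = 1 := by
    rw [← map_mul, ← map_mul, ← map_sub, ← map_mul, inv_mul_cancel₀ h, map_one]
  refine ⟨1, Ideal.mem_span_pair.2 ⟨C (a * e - b * c)⁻¹ * C e, -(C (a * e - b * c)⁻¹ * C b), ?_⟩,
    Ideal.mem_span_pair.2 ⟨-(C (a * e - b * c)⁻¹ * C c), C (a * e - b * c)⁻¹ * C a, ?_⟩⟩
  · simp only [lf]; linear_combination (X 0 : R2 K) * h'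
  · simp only [lf]; linear_combination (X 1 : R2 K) * h'

section Ham
variable [Algebra ℚ A] {f : R2 A}

/-- If the divergence of `a, b` is a bracket with `f`, so is `a f_x + b f_y`. -/
theorem ham_up {N : ℕ} {a b h : R2 A} (H : pderiv 0 a + pderiv 1 b - br h f ∈ mm A ^ N) :
    ∃ g, a * pderiv 0 f + b * pderiv 1 f - br g f ∈ mm A ^ N := by
  refine ⟨-pot (a - h * pderiv 1 f) (b + h * pderiv 0 f), ?_⟩
  have e : pderiv 0 (a - h * pderiv 1 f) + pderiv 1 (b + h * pderiv 0 f) =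
      pderiv 0 a + pderiv 1 b - br h f := by
    simp only [map_sub, map_add, pderiv_mul, pderiv_comm, br]; ring
  have : a * pderiv 0 f + b * pderiv 1 f - br (-pot (a - h * pderiv 1 f) (b + h * pderiv 0 f)) f =
      ad 0 (pderiv 0 a + pderiv 1 b - br h f) * pderiv 0 f := by
    conv_lhs => rw [br]
    rw [map_neg, map_neg, pot_x, pot_y, e]; ring
  rw [this]
  exact Ideal.mul_mem_right _ _ (mm_mono (by omega) (ad_mm 0 H))

end Ham

/-- Conversely, when `f` has a non-degenerate critical point at the origin. -/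
theorem ham_down {K : Type*} [Field K] {f : R2 K} (hf : f ∈ mm K ^ 2)
    (hn : CI (hc 1 (pderiv 0 f)) (hc 1 (pderiv 1 f))) {N : ℕ} {a b g : R2 K}
    (H : a * pderiv 0 f + b * pderiv 1 f - br g f ∈ mm K ^ (N + 2)) :
    ∃ h, pderiv 0 a + pderiv 1 b - br h f ∈ mm K ^ N := by
  obtain ⟨μ, h1, h2⟩ := kos_low (N := N + 1) (U := a + pderiv 1 g) (V := b - pderiv 0 g)
    (mm_pderiv 0 hf) (mm_pderiv 1 hf) hn (by rw [br] at H; convert H using 1; ring)
  refine ⟨μ, ?_⟩
  convert add_mem (mm_pderiv 0 h1) (mm_pderiv 1 h2) using 1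
  simp only [map_sub, map_add, pderiv_mul, pderiv_comm, br]; ring

end Pool.Agent.MP_05b4bd_ag.HC

end MrgPart0

-- ======== part 1: formerly Pool.Agent.MP_05b4bd_ag.hc.Ily0
section MrgPart1

/-! Abstract form of the algebraic Ilyashenko lemma. -/

namespace Pool.Agent.MP_05b4bd_ag.HC

open MvPolynomial

section Cm
variable {A B : Type*} [CommRing A] [CommRing B]

/-- An additive map applied to the coefficients. -/
noncomputable def cm (L : A →+ B) (u : R2 A) : R2 B := ∑ m ∈ u.support, monomial m (L (coeff m u))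

theorem coeff_cm (L : A →+ B) (u : R2 A) (m : Fin 2 →₀ ℕ) : coeff m (cm L u) = L (coeff m u) := by
  classical
  rw [cm, coeff_sum, Finset.sum_eq_single m]
  · simp
  · intro b _ hb; simp [coeff_monomial, hb]
  · intro h; rw [notMem_support_iff.1 h]; simp

theorem cm_add (L : A →+ B) (u v : R2 A) : cm L (u + v) = cm L u + cm L v := by
  ext m; simp [coeff_cm]

theorem cm_sub (L : A →+ B) (u v : R2 A) : cm L (u - v) = cm L u - cm L v := by
  ext m; simp [coeff_cm]

theorem cm_pderiv (L : A →+ B) (i : Fin 2) (u : R2 A) : cm L (pderiv i u) = pderiv i (cm L u) := by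
  ext m
  rw [coeff_cm, coeff_pderiv, coeff_pderiv, coeff_cm, ← Nat.cast_succ, ← Nat.cast_succ,
    ← nsmul_eq_mul', ← nsmul_eq_mul', map_nsmul]

theorem cm_mm (L : A →+ B) {n : ℕ} {u : R2 A} (hu : u ∈ mm A ^ n) : cm L u ∈ mm B ^ n :=
  mem_mm.2 fun m hm => by rw [coeff_cm, mem_mm.1 hu m hm, map_zero]

theorem cm_mul (D : A →+ A) (hD : ∀ a b, D (a * b) = D a * b + a * D b) (u v : R2 A) :
    cm D (u * v) = cm D u * v + u * cm D v := by
  classical
  ext m
  simp only [coeff_cm, coeff_add, coeff_mul, map_sum, hD, Finset.sum_add_distrib]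

theorem cm_map_mul (φ : B →+* A) (L : A →+ B) (hL : ∀ b a, L (φ b * a) = b * L a) (v : R2 B)
    (u : R2 A) : cm L (map φ v * u) = v * cm L u := by
  classical
  ext m
  simp only [coeff_cm, coeff_mul, map_sum, coeff_map, hL]

end Cm

variable {A : Type*} [CommRing A]

/-- Polynomials that are brackets with `f` up to any order. -/
def NN (f : R2 A) : Submodule A (R2 A) where
  carrier := {u | ∀ N : ℕ, ∃ h, u - br h f ∈ mm A ^ N}
  zero_mem' N := ⟨0, by simp [br]⟩
  add_mem' {u v} hu hv N := by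
    obtain ⟨g, hg⟩ := hu N
    obtain ⟨h, hh⟩ := hv N
    refine ⟨g + h, ?_⟩
    convert add_mem hg hh using 1
    simp only [br, map_add]; ring
  smul_mem' c u hu N := by
    obtain ⟨g, hg⟩ := hu N
    refine ⟨C c * g, ?_⟩
    convert Ideal.mul_mem_left _ (C c) hg using 1
    simp only [br, pderiv_C_mul, smul_eq_C_mul]; ring

theorem mem_NN {f u : R2 A} : u ∈ NN f ↔ InIm (pderiv 1 f) (-pderiv 0 f) u := by
  simp only [InIm, ← br_eq_vf]; rfl

/-- The Jacobian ideal. -/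
noncomputable abbrev Jac (f : R2 A) : Ideal (R2 A) := Ideal.span {pderiv 0 f, pderiv 1 f}

/-- Polynomials of degree less than `n`. -/
def dl (A : Type*) [CommRing A] (n : ℕ) : Submodule A (R2 A) where
  carrier := {u | DL n u}
  zero_mem' := DL.zero n
  add_mem' := DL.add
  smul_mem' c u hu := by rw [smul_eq_C_mul]; exact DL.C_mul c hu

instance dl_finite {K : Type*} [Field K] (n : ℕ) : Module.Finite K (dl K n) :=
  Submodule.finiteDimensional_of_le (S₂ := restrictTotalDegree (Fin 2) K n) fun _ hu =>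
    (mem_restrictTotalDegree _ _ _).2 (DL_iff.1 (DL.mono hu (Nat.le_succ n)))

theorem mm_le {I : Ideal (R2 A)} (h0 : X 0 ∈ I) (h1 : X 1 ∈ I) : mm A ≤ I := by
  rw [Ideal.span_le]
  rintro _ ⟨i, rfl⟩
  fin_cases i
  exacts [h0, h1]

theorem mm_pow_le {I : Ideal (R2 A)} {n : ℕ} (h0 : X 0 ^ n ∈ I) (h1 : X 1 ^ n ∈ I) :
    mm A ^ (n + n) ≤ I := by
  intro u hu
  rw [u.as_sum]
  refine Ideal.sum_mem _ fun m hm => ?_
  have h : n + n ≤ m.degree := by
    by_contra h
    exact mem_support_iff.1 hm (mem_mm.1 hu m (by omega))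
  rw [deg2] at h
  rw [monomial_eq, Finsupp.prod_fintype _ _ (by simp), Fin.prod_univ_two]
  refine Ideal.mul_mem_left _ _ ?_
  by_cases h2 : n ≤ m 0
  · exact Ideal.mul_mem_right _ _ (Ideal.pow_mem_of_pow_mem _ h0 h2)
  · exact Ideal.mul_mem_left _ _ (Ideal.pow_mem_of_pow_mem _ h1 (by omega))

theorem der_step [Algebra ℚ A] {f u : R2 A} (D : A →+ A)
    (hD : ∀ a b, D (a * b) = D a * b + a * D b) (hu : u ∈ NN f) :
    ad 0 (cm D u) * pderiv 0 f - cm D f * u ∈ NN f := by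
  intro N
  obtain ⟨h, hh⟩ := hu N
  have h1 := cm_mm D hh
  obtain ⟨g, hg⟩ := ham_up (f := f) (N := N) (a := ad 0 (cm D u) + cm D f * pderiv 1 h)
    (b := -(cm D f * pderiv 0 h)) (h := cm D h) (by
      convert h1 using 1
      simp only [br, cm_sub, cm_mul D hD, cm_pderiv, map_add, map_neg, pderiv_mul, pderiv_ad,
        pderiv_comm]
      ring)
  refine ⟨g, ?_⟩
  convert sub_mem hg (Ideal.mul_mem_left _ (cm D f) hh) using 1
  simp only [br]; ring

theorem J_NN [Algebra ℚ A] {f a b : R2 A} (h : pderiv 0 a + pderiv 1 b ∈ NN f) :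
    a * pderiv 0 f + b * pderiv 1 f ∈ NN f := fun N => by
  obtain ⟨g, hg⟩ := h N
  exact ham_up hg

variable {K : Type*} [Field K]

theorem jac_red {e : ℕ} {f : R2 K} (hd : DL (e + 3) f)
    (ht : CI (hc (e + 1) (pderiv 0 f)) (hc (e + 1) (pderiv 1 f))) :
    ∃ M, ∀ u : R2 K, ∃ r, DL M r ∧ u - r ∈ Jac f := by
  obtain ⟨M, h0, h1⟩ := ht
  refine ⟨M + M + (e + 1), fun u => ?_⟩
  obtain ⟨k, hk⟩ := exists_DL u
  induction k generalizing u with
  | zero => exact ⟨u, hk.mono (by omega), by simp⟩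
  | succ k ih =>
    by_cases h : k + 1 ≤ M + M + (e + 1)
    · exact ⟨u, hk.mono h, by simp⟩
    obtain ⟨j, rfl⟩ : ∃ j, k = j + (e + 1) := ⟨k - (e + 1), by omega⟩
    obtain ⟨s, t, hst⟩ := Ideal.mem_span_pair.1
      (mm_pow_le h0 h1 (mm_mono (by omega) (mm_hom (hc_hom (j + (e + 1)) u))))
    have h2 := congrArg (hc (j + (e + 1))) hst
    rw [hc_add, hc_mul_hom _ _ (hc_hom _ _), hc_mul_hom _ _ (hc_hom _ _), hc_self (hc_hom _ _)] at h2
    have hx := hd.pderiv 0
    have hy := hd.pderiv 1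
    have hs := DL.of_hom (hc_hom j s)
    have ht := DL.of_hom (hc_hom j t)
    obtain ⟨r, hr, hr'⟩ := ih (u - (hc j s * pderiv 0 f + hc j t * pderiv 1 f))
      (DL.pred (hk.sub ((hs.mul hx).add (ht.mul hy))) (by
        rw [hc_sub, hc_add, hc_mul_top hs hx, hc_mul_top ht hy, hc_self (hc_hom j s),
          hc_self (hc_hom j t), h2, sub_self]))
    refine ⟨r, hr, ?_⟩
    convert add_mem hr' (Ideal.mem_span_pair.2 ⟨hc j s, hc j t, rfl⟩) using 1
    ring

/-- The saturation of the Jacobian ideal with respect to a variable. -/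
def Sat (f : R2 A) (i : Fin 2) : Ideal (R2 A) where
  carrier := {w | ∃ n, X i ^ n * w ∈ Jac f}
  zero_mem' := ⟨0, by simp⟩
  add_mem' := by
    rintro u v ⟨a, ha⟩ ⟨b, hb⟩
    refine ⟨a + b, ?_⟩
    convert add_mem (Ideal.mul_mem_left _ (X i ^ b) ha) (Ideal.mul_mem_left _ (X i ^ a) hb) using 1
    ring
  smul_mem' := by
    rintro c u ⟨a, ha⟩
    refine ⟨a, ?_⟩
    convert Ideal.mul_mem_left _ c ha using 1
    simp only [smul_eq_mul]; ring

theorem sat_inv {M : ℕ} {f w : R2 K} {i : Fin 2} (hM : ∀ u : R2 K, ∃ r, DL M r ∧ u - r ∈ Jac f)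
    (hp : ∀ u v, u * v ∈ Sat f i → u ∈ Sat f i ∨ v ∈ Sat f i) (hw : w ∉ Sat f i) :
    ∃ n t, X i ^ n - t * w ∈ Jac f := by
  have : (Sat f i).IsPrime := ⟨fun h => hw (h ▸ Submodule.mem_top), hp _ _⟩
  have : Module.Finite K (R2 K ⧸ Sat f i) :=
    Module.Finite.of_surjective ((Ideal.Quotient.mkₐ K (Sat f i)).toLinearMap ∘ₗ (dl K M).subtype)
      fun z => by
        obtain ⟨u, rfl⟩ := Ideal.Quotient.mk_surjective z
        obtain ⟨r, hr, hr'⟩ := hM u
        have : u - r ∈ Sat f i := ⟨0, by simpa using hr'⟩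
        exact ⟨⟨r, hr⟩, (Ideal.Quotient.eq.2 this).symm⟩
  have hF : IsField (R2 K ⧸ Sat f i) := isField_of_isIntegral_of_isField' (Field.toIsField K)
  obtain ⟨z, hz⟩ := hF.mul_inv_cancel (a := Ideal.Quotient.mk _ w)
    (fun h => hw (Ideal.Quotient.eq_zero_iff_mem.1 h))
  obtain ⟨t, rfl⟩ := Ideal.Quotient.mk_surjective z
  rw [← map_mul, ← map_one (Ideal.Quotient.mk (Sat f i)), eq_comm, Ideal.Quotient.eq] at hz
  obtain ⟨n, hn⟩ := hz
  exact ⟨n, X i ^ n * t, by convert hn using 1; ring⟩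

theorem dichotomy {M : ℕ} {f u : R2 K} (hM : ∀ u : R2 K, ∃ r, DL M r ∧ u - r ∈ Jac f)
    (hl : ∀ i, ∃ j ∈ Jac f, X i - j ∈ mm K ^ 2)
    (hp : ∀ i u v, u * v ∈ Sat f i → u ∈ Sat f i ∨ v ∈ Sat f i)
    (hx : ∀ i j, i ≠ j → X j ∈ Sat f i → 1 ∈ Sat f i)
    {I : Ideal (R2 K)} (hI : Jac f ≤ I) (hu : u ∈ I) (hm : u ∈ mm K ^ 1) (hJ : u ∉ Jac f) :
    mm K ≤ I := by
  have h1 : mm K ≤ Jac f ⊔ mm K ^ 2 := by
    have : ∀ i, X i ∈ Jac f ⊔ mm K ^ 2 := fun i => by
      obtain ⟨j, hj, h⟩ := hl i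
      simpa using Submodule.add_mem_sup hj h
    exact mm_le (this 0) (this 1)
  have h2 : ∀ n, mm K ≤ Jac f ⊔ mm K ^ (n + 1) := fun n => by
    induction n with
    | zero => simp
    | succ n ih =>
      refine ih.trans (sup_le le_sup_left ?_)
      calc mm K ^ (n + 1) = mm K ^ n * mm K := pow_succ _ _
        _ ≤ mm K ^ n * (Jac f ⊔ mm K ^ 2) := Ideal.mul_mono_right h1
        _ = mm K ^ n * Jac f ⊔ mm K ^ n * mm K ^ 2 := Ideal.mul_sup _ _ _
        _ ≤ _ := sup_le_sup Ideal.mul_le_right (by rw [← pow_add])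
  have fin : ∀ (L : Ideal (R2 K)) (a b : ℕ), Jac f ≤ L → X 0 ^ a ∈ L → X 1 ^ b ∈ L → mm K ≤ L :=
    fun L a b hL ha hb => (h2 (a + b + (a + b))).trans (sup_le hL
      ((Ideal.pow_le_pow_right (by omega)).trans (mm_pow_le (n := a + b)
        (Ideal.pow_mem_of_pow_mem _ ha (by omega)) (Ideal.pow_mem_of_pow_mem _ hb (by omega)))))
  have key : ∀ i j, i ≠ j → u ∉ Sat f i → ∃ a b, X i ^ a ∈ I ∧ X j ^ b ∈ I := fun i j hij hs => by
    obtain ⟨a, t, ha⟩ := sat_inv hM (hp i) hs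
    have ha' : X i ^ a ∈ I := by simpa using add_mem (hI ha) (I.mul_mem_left t hu)
    by_cases h : 1 ∈ Sat f j
    · obtain ⟨b, hb⟩ := h
      exact ⟨a, b, ha', hI (by simpa using hb)⟩
    · have : (Sat f j).IsPrime := ⟨fun e => h (e ▸ Submodule.mem_top), hp _ _ _⟩
      obtain ⟨b, s, hb⟩ := sat_inv hM (hp j) (w := X i ^ a)
        fun h' => h (hx j i hij.symm (this.mem_of_pow_mem _ h'))
      exact ⟨a, b, ha', by simpa using add_mem (hI hb) (I.mul_mem_left s ha')⟩
  by_cases s0 : u ∈ Sat f 0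
  · by_cases s1 : u ∈ Sat f 1
    · exfalso
      obtain ⟨a, ha⟩ := s0
      obtain ⟨b, hb⟩ := s1
      have h3 := fin ((Jac f).colon {u}) a b
        (fun w hw => Submodule.mem_colon_singleton.2 (Ideal.mul_mem_right _ _ hw))
        (Submodule.mem_colon_singleton.2 ha) (Submodule.mem_colon_singleton.2 hb)
      obtain ⟨r, hr, hr'⟩ := Submodule.exists_sub_one_mem_and_smul_le_of_fg_of_le_sup
        (I := mm K) (N := Jac f) (N' := mm K) (P := mm K) (idealOfVars_fg _ _) le_rfl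
        (by simpa [pow_two] using h1)
      have h4 : r * u ∈ Jac f := hr' (Submodule.smul_mem_pointwise_smul u r _ (by simpa using hm))
      have h5 : (r - 1) * u ∈ Jac f := Submodule.mem_colon_singleton.1 (h3 hr)
      exact hJ (by convert sub_mem h4 h5 using 1; ring)
    · obtain ⟨a, b, ha, hb⟩ := key 1 0 (by decide) s1
      exact fin I b a hI hb ha
  · obtain ⟨a, b, ha, hb⟩ := key 0 1 (by decide) s0
    exact fin I a b hI ha hb

variable [CharZero K]

theorem mul_stable {f : R2 K} (hl : ∀ i, ∃ j ∈ Jac f, X i - j ∈ mm K ^ 2)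
    (hder : ∀ a b : ℕ, a + b = 2 ∨ a + b = 3 → ∃ D : K →+ K,
      (∀ a b, D (a * b) = D a * b + a * D b) ∧ cm D f = X 0 ^ a * X 1 ^ b)
    (r : R2 K) {u : R2 K} (hu : u ∈ NN f ⊔ (Jac f).restrictScalars K) :
    r * u ∈ NN f ⊔ (Jac f).restrictScalars K := by
  set S := NN f ⊔ (Jac f).restrictScalars K with hS
  have hJ : ∀ j ∈ Jac f, j ∈ S := fun j hj => Submodule.mem_sup_right hj
  have h1 : ∀ n a b, a + b = n → 2 ≤ n → ∀ u ∈ S, X 0 ^ a * X 1 ^ b * u ∈ S := by
    intro n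
    induction n using Nat.strong_induction_on with
    | _ n ih =>
      intro a b e hn u hu
      by_cases h3 : n ≤ 3
      · obtain ⟨D, hD, hf⟩ := hder a b (by omega)
        obtain ⟨v, hv, j, hj, rfl⟩ := Submodule.mem_sup.1 hu
        have := der_step D hD hv
        rw [hf] at this
        have h4 : ad 0 (cm D v) * pderiv 0 f + X 0 ^ a * X 1 ^ b * j ∈ Jac f :=
          add_mem (Ideal.mul_mem_left _ _ (Ideal.subset_span (by simp))) (Ideal.mul_mem_left _ _ hj)
        convert sub_mem (hJ _ h4) (Submodule.mem_sup_left this) using 1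
        ring
      · by_cases h2 : 2 ≤ a
        · obtain ⟨a, rfl⟩ : ∃ c, a = c + 2 := ⟨a - 2, by omega⟩
          convert ih 2 (by omega) 2 0 rfl le_rfl _ (ih (a + b) (by omega) a b rfl (by omega) u hu)
            using 1
          ring
        · obtain ⟨b, rfl⟩ : ∃ c, b = c + 2 := ⟨b - 2, by omega⟩
          convert ih 2 (by omega) 0 2 rfl le_rfl _ (ih (a + b) (by omega) a b rfl (by omega) u hu)
            using 1
          ring
  have h2 : ∀ w ∈ mm K ^ 2, ∀ u ∈ S, w * u ∈ S := fun w hw u hu => by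
    rw [w.as_sum, Finset.sum_mul]
    refine Submodule.sum_mem _ fun m hm => ?_
    have h : 2 ≤ m.degree := by
      by_contra h
      exact mem_support_iff.1 hm (mem_mm.1 hw m (by omega))
    rw [monomial_eq, Finsupp.prod_fintype _ _ (by simp), Fin.prod_univ_two, mul_assoc,
      ← smul_eq_C_mul]
    exact S.smul_mem _ (h1 _ _ _ rfl (by rwa [deg2] at h) u hu)
  induction r using MvPolynomial.induction_on generalizing u with
  | C c => rw [← smul_eq_C_mul]; exact S.smul_mem _ hu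
  | add p q hp hq => rw [add_mul]; exact add_mem (hp hu) (hq hu)
  | mul_X p i hp =>
    rw [mul_assoc]
    refine hp ?_
    obtain ⟨j, hj, h⟩ := hl i
    convert add_mem (hJ _ (Ideal.mul_mem_right u _ hj)) (h2 _ h u hu) using 1
    ring

theorem not_all {e : ℕ} {f w : R2 K} (he : 1 ≤ e) (hd : DL (e + 3) f)
    (ht : CI (hc (e + 1) (pderiv 0 f)) (hc (e + 1) (pderiv 1 f))) (hw : w.IsHomogeneous 2)
    (hind : ∀ (j : ℕ) (α : K) (b : R2 K), b - C α * w ^ j ∈ mm K ^ (2 * j + 1) → b ∈ NN f → α = 0) :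
    ¬ ∀ v ∈ mm K ^ 1, v ∈ NN f ⊔ (Jac f).restrictScalars K := by
  intro hall
  obtain ⟨M, hM⟩ := jac_red hd ht
  let W : ℕ → Submodule K (R2 K) := fun n =>
    (NN f ⊓ dl K n) ⊔ ((Jac f).restrictScalars K ⊔ K ∙ (1 : R2 K))
  have Wm : ∀ {a b}, a ≤ b → W a ≤ W b := fun h =>
    sup_le_sup_right (inf_le_inf_left _ fun _ hu => DL.mono hu h) _
  have Wc : ∀ r, ∃ n, r ∈ W n := fun r => by
    obtain ⟨v, hv, j, hj, e⟩ := Submodule.mem_sup.1 (hall (r - C (coeff 0 r)) (mem_mm_one.2 (by simp)))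
    obtain ⟨n, hn⟩ := exists_DL v
    refine ⟨n, ?_⟩
    have : r = v + (j + coeff 0 r • (1 : R2 K)) := by
      rw [smul_eq_C_mul]; linear_combination -e
    rw [this]
    exact Submodule.add_mem_sup ⟨hv, hn⟩ (Submodule.add_mem_sup hj
      (Submodule.smul_mem _ _ (Submodule.mem_span_singleton_self _)))
  obtain ⟨n0, hn0⟩ : ∃ n0, dl K M ≤ W n0 := by
    obtain ⟨s, hs⟩ := (Module.Finite.iff_fg (N := dl K M)).1 inferInstance
    choose g hg using Wc
    exact ⟨s.sup g, by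
      rw [← hs, Submodule.span_le]
      exact fun r hr => Wm (Finset.le_sup (f := g) hr) (hg r)⟩
  let π := (NN f).mkQ
  let V : ℕ → Submodule K (R2 K ⧸ NN f) := fun n => (dl K n).map π
  let J : R2 K →ₗ[K] R2 K := LinearMap.mulRight K (pderiv 0 f) ∘ₗ ad 0
  have hJ : NN f ≤ (NN f).comap J := fun u hu => by
    have := J_NN (f := f) (a := ad 0 u) (b := 0) (by simpa [pderiv_ad] using hu)
    simpa [J] using this
  let J' := (NN f).mapQ (NN f) J hJ
  have step : ∀ j, n0 ≤ j → V (j + (e + 2)) ≤ (K ∙ π 1) ⊔ (V j).map J' := by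
    rintro j hj _ ⟨u, hu, rfl⟩
    obtain ⟨r, hr, hr'⟩ := hM u
    obtain ⟨v, ⟨hv, hv'⟩, _, h1, e1⟩ := Submodule.mem_sup.1 (hn0 hr)
    obtain ⟨i, hi, _, h2, rfl⟩ := Submodule.mem_sup.1 h1
    obtain ⟨c, rfl⟩ := Submodule.mem_span_singleton.1 h2
    obtain ⟨a, b, hab⟩ := Ideal.mem_span_pair.1 (add_mem hr' hi)
    have e2 : a * pderiv 0 f + b * pderiv 1 f = u - v - C c := by
      rw [smul_eq_C_mul] at e1; linear_combination hab + e1
    obtain ⟨a', b', ha', hb', e3⟩ := kos_top (n := j + 1) (hd.pderiv 0) (hd.pderiv 1) ht a b (by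
      rw [e2]
      exact ((DL.mono hu (by omega)).sub (DL.mono hv' (by omega))).sub ((DL_C c).mono (by omega)))
    have h3 : π u = c • π 1 + J' (π (pderiv 0 a' + pderiv 1 b')) := by
      have h4 := J_NN (f := f) (a := a' - ad 0 (pderiv 0 a' + pderiv 1 b')) (b := b')
        (by rw [map_sub, pderiv_ad]; simp)
      rw [← map_smul]
      change π u = π _ + π (J _)
      rw [← map_add, eq_comm, ← sub_eq_zero, ← map_sub]
      refine (Submodule.Quotient.mk_eq_zero _).2 ?_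
      convert neg_mem (add_mem hv h4) using 1
      simp only [J, LinearMap.comp_apply, LinearMap.mulRight_apply, smul_eq_C_mul]
      linear_combination e3 + e2
    rw [h3]
    exact Submodule.add_mem_sup (Submodule.smul_mem _ _ (Submodule.mem_span_singleton_self _))
      ⟨_, ⟨_, (ha'.pderiv 0).add (hb'.pderiv 1), rfl⟩, rfl⟩
  have up : ∀ t, Module.finrank K (V (n0 + t * (e + 2))) ≤ Module.finrank K (V n0) + t := by
    intro t
    induction t with
    | zero => rw [Nat.zero_mul]; exact le_rfl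
    | succ t ih =>
      rw [Nat.succ_mul, ← add_assoc]
      have h1 := Submodule.finrank_mono (step (n0 + t * (e + 2)) (by omega))
      have h2 := Submodule.finrank_add_le_finrank_add_finrank (K ∙ π 1)
        ((V (n0 + t * (e + 2))).map J')
      have h3 := Submodule.finrank_map_le J' (V (n0 + t * (e + 2)))
      have h4 : Module.finrank K (K ∙ π 1) ≤ 1 := (finrank_span_le_card _).trans (by simp)
      omega
  have low : ∀ s n, 2 * s ≤ n → s ≤ Module.finrank K (V n) := by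
    intro s n hn
    have hmem : ∀ j : Fin s, π (w ^ (j : ℕ)) ∈ V n := fun j =>
      ⟨_, ((DL.of_hom hw).pow j).mono (by omega), rfl⟩
    have : LinearIndependent K fun j : Fin s => (⟨_, hmem j⟩ : V n) := by
      apply LinearIndependent.of_comp (V n).subtype
      rw [Fintype.linearIndependent_iff]
      intro g hg
      have hN : ∑ i, C (g i) * w ^ (i : ℕ) ∈ NN f := by
        rw [← Submodule.Quotient.mk_eq_zero]
        change π _ = 0
        rw [map_sum, ← hg]
        exact Finset.sum_congr rfl fun i _ => by rw [← smul_eq_C_mul, map_smul]; rfl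
      have : ∀ k, ∀ j : Fin s, (j : ℕ) = k → g j = 0 := by
        intro k
        induction k using Nat.strong_induction_on with
        | _ k ih =>
          intro j hj
          refine hind j (g j) _ ?_ hN
          rw [← Finset.add_sum_erase _ _ (Finset.mem_univ j), add_sub_cancel_left]
          refine Ideal.sum_mem _ fun i hi => ?_
          by_cases h : (i : ℕ) < k
          · rw [ih i h i rfl]; simp
          · have : (i : ℕ) ≠ j := fun e => (Finset.mem_erase.1 hi).1 (Fin.ext e)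
            exact Ideal.mul_mem_left _ _ (mm_mono (by omega) (mm_pow (mm_hom hw) i))
      exact fun j => this j j rfl
    simpa using this.fintype_card_le_finrank
  have h1 := up (2 * (Module.finrank K (V n0) + 1))
  have h2 := low (3 * (Module.finrank K (V n0) + 1))
    (n0 + 2 * (Module.finrank K (V n0) + 1) * (e + 2)) (by nlinarith)
  omega

theorem NN_le_Jac {e : ℕ} {f w : R2 K} (he : 1 ≤ e) (h2 : f ∈ mm K ^ 2) (hd : DL (e + 3) f)
    (ht : CI (hc (e + 1) (pderiv 0 f)) (hc (e + 1) (pderiv 1 f)))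
    (hl : ∀ i, ∃ j ∈ Jac f, X i - j ∈ mm K ^ 2)
    (hder : ∀ a b : ℕ, a + b = 2 ∨ a + b = 3 → ∃ D : K →+ K,
      (∀ a b, D (a * b) = D a * b + a * D b) ∧ cm D f = X 0 ^ a * X 1 ^ b)
    (hp : ∀ i u v, u * v ∈ Sat f i → u ∈ Sat f i ∨ v ∈ Sat f i)
    (hx : ∀ i j, i ≠ j → X j ∈ Sat f i → 1 ∈ Sat f i) (hw : w.IsHomogeneous 2)
    (hind : ∀ (j : ℕ) (α : K) (b : R2 K), b - C α * w ^ j ∈ mm K ^ (2 * j + 1) → b ∈ NN f → α = 0)
    {u : R2 K} (hu : u ∈ NN f) : u ∈ Jac f := by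
  by_contra hJ
  obtain ⟨M, hM⟩ := jac_red hd ht
  let I : Ideal (R2 K) :=
    { carrier := {u | u ∈ NN f ⊔ (Jac f).restrictScalars K}
      zero_mem' := (NN f ⊔ (Jac f).restrictScalars K).zero_mem
      add_mem' := (NN f ⊔ (Jac f).restrictScalars K).add_mem
      smul_mem' := fun r _ hu => mul_stable hl hder r hu }
  have hm : u ∈ mm K ^ 1 := by
    obtain ⟨h, hh⟩ := hu 1
    have : br h f ∈ mm K ^ 1 :=
      sub_mem (Ideal.mul_mem_left _ _ (mm_pderiv 1 h2)) (Ideal.mul_mem_left _ _ (mm_pderiv 0 h2))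
    simpa using add_mem hh this
  have := dichotomy hM hl hp hx (I := I) (fun _ hj => Submodule.mem_sup_right hj)
    (Submodule.mem_sup_left hu) hm hJ
  exact not_all he hd ht hw hind fun v hv => this (by simpa using hv)

end Pool.Agent.MP_05b4bd_ag.HC

end MrgPart1

-- ======== part 2: formerly Pool.Agent.MP_05b4bd_ag.hc.Ily1
section MrgPart2

/-! The universal polynomial with a critical point at the origin. -/

namespace Pool.Agent.MP_05b4bd_ag.HC

open MvPolynomial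

/-- Exponents of degree between `2` and `d`. -/
abbrev Mo (d : ℕ) := {m : Fin 2 →₀ ℕ // 2 ≤ m.degree ∧ m.degree ≤ d}

instance (d : ℕ) : Finite (Mo d) :=
  ((Finsupp.finite_of_degree_le (σ := Fin 2) d).subset fun _ hm => hm.2).to_subtype

noncomputable instance (d : ℕ) : Fintype (Mo d) := Fintype.ofFinite _

section
variable {A : Type*} [CommRing A] {d : ℕ}

/-- The polynomial with the given coefficients in degrees `2` to `d`. -/
noncomputable def fU (c : Mo d → A) : R2 A := ∑ m : Mo d, monomial m.1 (c m)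

theorem coeff_fU (c : Mo d → A) (m : Fin 2 →₀ ℕ) :
    coeff m (fU c) = if h : 2 ≤ m.degree ∧ m.degree ≤ d then c ⟨m, h⟩ else 0 := by
  classical
  rw [fU, coeff_sum]
  split_ifs with h
  · rw [Finset.sum_eq_single ⟨m, h⟩]
    · simp
    · intro b _ hb
      rw [coeff_monomial, if_neg fun e => hb (Subtype.ext e)]
    · simp
  · refine Finset.sum_eq_zero fun b _ => ?_
    rw [coeff_monomial, if_neg fun e : b.1 = m => h (e ▸ b.2)]

theorem coeff_fU' (c : Mo d → A) (m : Mo d) : coeff m.1 (fU c) = c m := by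
  rw [coeff_fU, dif_pos m.2]

theorem map_fU {B : Type*} [CommRing B] (φ : A →+* B) (c : Mo d → A) :
    map φ (fU c) = fU fun m => φ (c m) := by simp [fU]

theorem fU_mm (c : Mo d → A) : fU c ∈ mm A ^ 2 :=
  mem_mm.2 fun m hm => by rw [coeff_fU, dif_neg (by omega)]

theorem fU_DL (c : Mo d → A) : DL (d + 1) (fU c) := fun m hm => by
  rw [coeff_fU, dif_neg (by omega)]

theorem eq_fU {f : R2 A} (h2 : f ∈ mm A ^ 2) (hd : DL (d + 1) f) :
    f = fU fun m : Mo d => coeff m.1 f := by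
  ext m
  rw [coeff_fU]
  split_ifs with h
  · rfl
  · by_cases h1 : m.degree < 2
    · exact mem_mm.1 h2 m h1
    · exact hd m (by omega)

end

theorem exists_der {S K : Type*} [CommRing S] [Field K] [Algebra S K] [IsFractionRing S K]
    [Algebra ℚ S] (δ : Derivation ℚ S S) : ∃ D : K →+ K, (∀ a b, D (a * b) = D a * b + a * D b) ∧
    ∀ s : S, D (algebraMap S K s) = algebraMap S K (δ s) := by
  let Φ0 : S →+* DualNumber K :=
    { toFun := fun s => TrivSqZeroExt.inl (algebraMap S K s) +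
        TrivSqZeroExt.inr (algebraMap S K (δ s))
      map_one' := by ext <;> simp
      map_mul' := fun a b => by
        ext
        · simp
        · rw [DualNumber.snd_mul]
          simp only [TrivSqZeroExt.snd_add, TrivSqZeroExt.fst_add, TrivSqZeroExt.snd_inl,
            TrivSqZeroExt.snd_inr, TrivSqZeroExt.fst_inl, TrivSqZeroExt.fst_inr, Derivation.leibniz,
            smul_eq_mul, map_add, map_mul]
          ring
      map_zero' := by ext <;> simp
      map_add' := fun a b => by ext <;> simp [Algebra.smul_def] }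
  have hu : ∀ y : nonZeroDivisors S, IsUnit (Φ0 y) := fun y =>
    TrivSqZeroExt.isUnit_iff_isUnit_fst.2 (by simpa [Φ0] using IsLocalization.map_units K y)
  let Φ : K →+* DualNumber K := IsLocalization.lift hu
  have h1 : (TrivSqZeroExt.fstHom K K K).toRingHom.comp Φ = RingHom.id K :=
    IsLocalization.ringHom_ext (nonZeroDivisors S) (RingHom.ext fun s => by
      simp only [RingHom.comp_apply, Φ, IsLocalization.lift_eq]; simp [Φ0])
  have h2 : ∀ a, (Φ a).fst = a := fun a => DFunLike.congr_fun h1 a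
  refine ⟨{ toFun := fun a => (Φ a).snd, map_zero' := by simp, map_add' := by simp }, ?_, ?_⟩
  · intro a b
    simp only [AddMonoidHom.coe_mk, ZeroHom.coe_mk, map_mul, DualNumber.snd_mul, h2]
    ring
  · intro s
    change (Φ (algebraMap S K s)).snd = _
    rw [IsLocalization.lift_eq]
    exact (TrivSqZeroExt.snd_add _ _).trans (by
      rw [TrivSqZeroExt.snd_inl, TrivSqZeroExt.snd_inr, zero_add])

theorem sat_univ {d : ℕ} (hd : 2 ≤ d) {i j : Fin 2} (hij : i ≠ j) :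
    (∀ u v, u * v ∈ Sat (fU (X : Mo d → MvPolynomial (Mo d) ℚ)) i →
      u ∈ Sat (fU (X : Mo d → MvPolynomial (Mo d) ℚ)) i ∨
      v ∈ Sat (fU (X : Mo d → MvPolynomial (Mo d) ℚ)) i) ∧
    X j ∉ Sat (fU (X : Mo d → MvPolynomial (Mo d) ℚ)) i := by
  classical
  let S := MvPolynomial (Mo d) ℚ
  let f : R2 S := fU X
  let L := Localization.Away (X i : R2 S)
  let a : R2 S →+* L := algebraMap _ _
  have hle : Submonoid.powers (X i : R2 S) ≤ nonZeroDivisors _ :=
    powers_le_nonZeroDivisors_of_noZeroDivisors (X_ne_zero i)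
  have : IsDomain L := IsLocalization.isDomain_of_le_nonZeroDivisors L hle
  have ha : Function.Injective a := IsLocalization.injective L hle
  let xi : L := IsLocalization.Away.invSelf (X i : R2 S)
  have hxi : a (X i) * xi = 1 := IsLocalization.Away.mul_invSelf _
  let m1 : Mo d := ⟨Finsupp.single i 1 + Finsupp.single j 1, by
    rw [map_add, Finsupp.degree_single, Finsupp.degree_single]; omega⟩
  let m2 : Mo d := ⟨Finsupp.single i 2, by rw [Finsupp.degree_single]; omega⟩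
  have h12 : m1 ≠ m2 := fun e => by
    have := DFunLike.congr_fun (congrArg Subtype.val e) j
    simp [m1, m2, hij.symm] at this
  let t1 : L := -(a (pderiv j f) * xi)
  let t2 : L := -((a (pderiv i f) + t1 * a (X j)) * xi * a (C (C (1 / 2))))
  let t : Mo d → L := fun m => (if m = m1 then t1 else 0) + if m = m2 then t2 else 0
  let ψ : R2 S →+* L :=
    eval₂Hom (eval₂Hom (a.comp (C.comp C)) fun m => a (C (X m)) + t m) fun l => a (X l)
  have ψX : ∀ l, ψ (X l) = a (X l) := fun l => by simp [ψ]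
  have ψC : ∀ m, ψ (C (X m)) = a (C (X m)) + t m := fun m => by
    simp only [ψ]
    rw [eval₂Hom_C, eval₂Hom_X']
  have ψm : ∀ l (m : Fin 2 →₀ ℕ), ψ (pderiv l (monomial m 1)) = a (pderiv l (monomial m 1)) := by
    intro l m
    rw [pderiv_monomial, monomial_eq2]
    simp only [map_mul, map_pow, ψX, map_natCast, map_one]
  have hf : ∀ l, pderiv l f = ∑ m : Mo d, C (X m) * pderiv l (monomial m.1 1) := fun l => by
    simp only [f, fU, map_sum, ← pderiv_C_mul, C_mul_monomial, mul_one]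
  have e1 : (monomial m1.1 1 : R2 S) = X i * X j := by simp only [m1, X, monomial_mul, mul_one]
  have e2 : (monomial m2.1 1 : R2 S) = X i * X i := by
    simp only [m2, X, monomial_mul, mul_one, ← Finsupp.single_add]
  have ψf : ∀ l, ψ (pderiv l f) = a (pderiv l f) + t1 * a (pderiv l (X i * X j)) +
      t2 * a (pderiv l (X i * X i)) := fun l => by
    rw [hf, map_sum, map_sum]
    simp only [map_mul, ψC, ψm, t, add_mul, Finset.sum_add_distrib, ite_mul, zero_mul,
      Finset.sum_ite_eq', Finset.mem_univ, if_true, e1, e2, add_assoc]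
  have h2 : a (C (C (1 / 2))) * 2 = 1 := by
    rw [← map_ofNat a 2, ← map_ofNat C 2, ← map_ofNat (C : ℚ →+* S) 2, ← map_mul, ← map_mul,
      ← map_mul]
    norm_num
  have ψ0 : ∀ l, ψ (pderiv l f) = 0 := fun l => by
    have hl : l = i ∨ l = j := by revert hij; fin_cases i <;> fin_cases j <;> fin_cases l <;> simp
    rw [ψf]
    rcases hl with rfl | rfl
    · simp only [pderiv_mul, pderiv_X_self, pderiv_X_of_ne hij.symm, map_add, map_mul, map_one,
        map_zero, t2]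
      linear_combination (-(a (pderiv l f) + t1 * a (X j))) * hxi -
        (a (pderiv l f) + t1 * a (X j)) * xi * a (X l) * h2
    · simp only [pderiv_mul, pderiv_X_self, pderiv_X_of_ne hij, map_add, map_mul, map_one,
        map_zero, t1]
      linear_combination (-a (pderiv l f)) * hxi
  let E : Ideal L := (Jac f).map a
  have fE : ∀ l, a (pderiv l f) ∈ E := fun l =>
    Ideal.mem_map_of_mem _ (Ideal.subset_span (by fin_cases l <;> simp))
  have t1E : t1 ∈ E := neg_mem (E.mul_mem_right _ (fE j))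
  have t2E : t2 ∈ E :=
    neg_mem (E.mul_mem_right _ (E.mul_mem_right _ (add_mem (fE i) (E.mul_mem_right _ t1E))))
  have tE : ∀ m, t m ∈ E := fun m => add_mem (by split_ifs; exacts [t1E, zero_mem _])
    (by split_ifs; exacts [t2E, zero_mem _])
  have hq : (Ideal.Quotient.mk E).comp ψ = (Ideal.Quotient.mk E).comp a := by
    refine MvPolynomial.ringHom_ext' (MvPolynomial.ringHom_ext' (RingHom.ext_rat _ _) fun m => ?_)
      fun l => ?_
    · simp only [RingHom.comp_apply, ψC]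
      exact Ideal.Quotient.eq.2 (by simpa using tE m)
    · simp only [RingHom.comp_apply, ψX]
  have hX : ∀ l, ψ (X l) ≠ 0 := fun l h => X_ne_zero l (ha (by rw [← ψX, h, map_zero]))
  have key : ∀ w, ψ w = 0 ↔ w ∈ Sat f i := fun w => by
    constructor
    · intro h
      have h1 := DFunLike.congr_fun hq w
      simp only [RingHom.comp_apply, h, map_zero] at h1
      obtain ⟨m, ⟨n, rfl⟩, hm⟩ := (IsLocalization.algebraMap_mem_map_algebraMap_iff
        (Submonoid.powers (X i : R2 S)) L _ _).1 (Ideal.Quotient.eq_zero_iff_mem.1 h1.symm)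
      exact ⟨n, hm⟩
    · rintro ⟨n, hn⟩
      obtain ⟨s, r, e⟩ := Ideal.mem_span_pair.1 hn
      have := congrArg ψ e
      rw [map_add, map_mul, map_mul, ψ0, ψ0, mul_zero, mul_zero, add_zero, map_mul, map_pow] at this
      exact (mul_eq_zero.1 this.symm).resolve_left (pow_ne_zero _ (hX i))
  exact ⟨fun u v h => by
      rw [← key, map_mul, mul_eq_zero, key, key] at h; exact h,
    fun h => hX j ((key _).2 h)⟩

section Frac
variable {S K : Type*} [CommRing S] [IsDomain S] [Field K] [Algebra S K] [IsFractionRing S K]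

theorem den (w : R2 K) : ∃ s : S, s ≠ 0 ∧ ∃ w' : R2 S,
    C (algebraMap S K s) * w = map (algebraMap S K) w' := by
  induction w using MvPolynomial.induction_on' with
  | monomial m c =>
    obtain ⟨a, b, hb, rfl⟩ := IsFractionRing.div_surjective (A := S) c
    have hb' := nonZeroDivisors.ne_zero hb
    refine ⟨b, hb', monomial m a, ?_⟩
    rw [C_mul_monomial, map_monomial, mul_div_cancel₀ _ (by simpa using hb')]
  | add p q hp hq =>
    obtain ⟨s, hs, p', e1⟩ := hp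
    obtain ⟨t, ht, q', e2⟩ := hq
    refine ⟨s * t, mul_ne_zero hs ht, C t * p' + C s * q', ?_⟩
    simp only [map_mul, map_add, map_C, ← e1, ← e2]; ring

omit [IsDomain S] in
theorem mem_of_C_mul {I : Ideal (R2 K)} {s : S} (hs : s ≠ 0) {w : R2 K}
    (h : C (algebraMap S K s) * w ∈ I) : w ∈ I := by
  have := I.mul_mem_left (C (algebraMap S K s)⁻¹) h
  rwa [← mul_assoc, ← map_mul, inv_mul_cancel₀ (by simpa using hs), map_one, one_mul] at this

theorem sat_map_iff {f w : R2 S} {i : Fin 2} :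
    map (algebraMap S K) w ∈ Sat (map (algebraMap S K) f) i ↔ ∃ s, s ≠ 0 ∧ C s * w ∈ Sat f i := by
  constructor
  · rintro ⟨n, hn⟩
    obtain ⟨a, b, e⟩ := Ideal.mem_span_pair.1 hn
    obtain ⟨s, hs, a', e1⟩ := den (S := S) a
    obtain ⟨t, ht, b', e2⟩ := den (S := S) b
    refine ⟨s * t, mul_ne_zero hs ht, n, Ideal.mem_span_pair.2 ⟨C t * a', C s * b', ?_⟩⟩
    apply map_injective _ (IsFractionRing.injective S K)
    simp only [map_mul, map_add, map_C, map_pow, map_X, ← e1, ← e2, ← pderiv_map]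
    linear_combination C (algebraMap S K s) * C (algebraMap S K t) * e
  · rintro ⟨s, hs, n, hn⟩
    obtain ⟨a, b, e⟩ := Ideal.mem_span_pair.1 hn
    refine mem_of_C_mul hs ⟨n, Ideal.mem_span_pair.2
      ⟨map (algebraMap S K) a, map (algebraMap S K) b, ?_⟩⟩
    simpa only [map_mul, map_add, map_C, map_pow, map_X, ← pderiv_map] using
      congrArg (map (algebraMap S K)) e

theorem sat_frac {f : R2 S} {i : Fin 2} (h : ∀ u v, u * v ∈ Sat f i → u ∈ Sat f i ∨ v ∈ Sat f i) :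
    (∀ u v, u * v ∈ Sat (map (algebraMap S K) f) i →
      u ∈ Sat (map (algebraMap S K) f) i ∨ v ∈ Sat (map (algebraMap S K) f) i) ∧
    ∀ j, X j ∉ Sat f i → X j ∈ Sat (map (algebraMap S K) f) i →
      1 ∈ Sat (map (algebraMap S K) f) i := by
  constructor
  · intro u v huv
    obtain ⟨s, hs, u', e1⟩ := den (S := S) u
    obtain ⟨t, ht, v', e2⟩ := den (S := S) v
    obtain ⟨r, hr, h1⟩ := (sat_map_iff (K := K) (f := f) (w := u' * v') (i := i)).1 (by
      rw [map_mul, ← e1, ← e2, mul_mul_mul_comm]; exact Ideal.mul_mem_left _ _ huv)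
    rw [← mul_assoc] at h1
    rcases h _ _ h1 with h2 | h2
    · exact .inl (mem_of_C_mul hs (e1 ▸ sat_map_iff.2 ⟨r, hr, h2⟩))
    · exact .inr (mem_of_C_mul ht (e2 ▸ sat_map_iff.2 ⟨1, one_ne_zero, by simpa using h2⟩))
  · intro j hj h1
    obtain ⟨r, hr, h2⟩ := (sat_map_iff (K := K) (f := f) (w := X j) (i := i)).1 (by simpa using h1)
    simpa using (sat_map_iff (K := K) (f := f) (w := 1) (i := i)).2
      ⟨r, hr, by simpa using (h _ _ h2).resolve_right hj⟩

end Frac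

end Pool.Agent.MP_05b4bd_ag.HC

end MrgPart2

-- ======== part 3: formerly Pool.Agent.MP_05b4bd_ag.hc.Ily
section MrgPart3

/-! The algebraic Ilyashenko lemma for a polynomial with independent coefficients. -/

namespace Pool.Agent.MP_05b4bd_ag.HC

open MvPolynomial

section
variable {A : Type*} [CommRing A]

theorem hc1_x (f : R2 A) : hc 1 (pderiv 0 f) = lf (2 * co 2 0 f) (co 1 1 f) := by
  rw [hom1_eq (hc_hom 1 (pderiv 0 f)), co_hc 1 0, co_hc 0 1, co_x, co_x]
  norm_num [mul_comm]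

theorem hc1_y (f : R2 A) : hc 1 (pderiv 1 f) = lf (co 1 1 f) (2 * co 0 2 f) := by
  rw [hom1_eq (hc_hom 1 (pderiv 1 f)), co_hc 1 0, co_hc 0 1, co_y, co_y]
  norm_num [mul_comm]

theorem NN_map {B : Type*} [CommRing B] (φ : A →+* B) {f u : R2 A} (hu : u ∈ NN f) :
    map φ u ∈ NN (map φ f) := fun N => by
  obtain ⟨h, hh⟩ := hu N
  exact ⟨map φ h, by rw [← map_br, ← map_sub]; exact mm_map φ hh⟩

/-- The package of properties of `f` used in the valuation argument; the degree is `n + 6`. -/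
def Good (n : ℕ) (f : R2 A) : Prop :=
  f ∈ mm A ^ 2 ∧ DL (n + 7) f ∧ GenF n (hc (n + 6) f) ∧
    ∀ r ≤ 4, ∀ u ∈ NN f, DL (r + (n + 5)) u → ∃ h, DL (r + 1) h ∧ h ∈ mm A ^ 1 ∧ u = br h f

theorem Good.lin {n : ℕ} {a b c e : A} (h : a * e - b * c = 1) {f : R2 A} (H : Good n f) :
    Good n (HC.lin a b c e f) := by
  refine ⟨lin_mm H.1, lin_DL H.2.1, by rw [hc_lin]; exact H.2.2.1.lin h, fun r hr u hu hd => ?_⟩
  obtain ⟨g, h1, h2, h3⟩ := H.2.2.2 r hr (HC.lin e (-b) (-c) a u) (by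
    rw [mem_NN, (Tr_ham h f).inIm h, lin_inv h]; exact mem_NN.1 hu) (lin_DL hd)
  exact ⟨HC.lin a b c e g, lin_DL h1, lin_mm h2, by rw [br_lin h, ← h3, lin_inv h]⟩

end

variable {k : Type*} [Field k]

theorem low_gen {u v : R2 k} {a b c e : k} (hu : u ∈ mm k ^ 1) (hv : v ∈ mm k ^ 1)
    (eu : hc 1 u = lf a b) (ev : hc 1 v = lf c e) (h : a * e - b * c ≠ 0) (i : Fin 2) :
    ∃ j ∈ Ideal.span {u, v}, X i - j ∈ mm k ^ 2 := by
  have h' : (C (a * e - b * c)⁻¹ * (C a * C e - C b * C c) : R2 k) = 1 := by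
    rw [← map_mul, ← map_mul, ← map_sub, ← map_mul, inv_mul_cancel₀ h, map_one]
  have key : ∀ s t : R2 k, s * lf a b + t * lf c e = X i →
      ∃ j ∈ Ideal.span {u, v}, X i - j ∈ mm k ^ 2 := fun s t e =>
    ⟨_, Ideal.mem_span_pair.2 ⟨s, t, rfl⟩, by
      convert neg_mem (add_mem (Ideal.mul_mem_left _ s (sub_hc_mm hu))
        (Ideal.mul_mem_left _ t (sub_hc_mm hv))) using 1
      rw [eu, ev, ← e]; ring⟩
  fin_cases i
  · refine key (C (a * e - b * c)⁻¹ * C e) (-(C (a * e - b * c)⁻¹ * C b)) ?_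
    simp only [lf, Fin.zero_eta]; linear_combination (X 0 : R2 k) * h'
  · refine key (-(C (a * e - b * c)⁻¹ * C c)) (C (a * e - b * c)⁻¹ * C a) ?_
    simp only [lf, Fin.mk_one]; linear_combination (X 1 : R2 k) * h'

variable [CharZero k]

/-- Critical point at the origin, degree at most `d`, algebraically independent coefficients. -/
def IndC (d : ℕ) (f : R2 k) : Prop :=
  f ∈ mm k ^ 2 ∧ DL (d + 1) f ∧ AlgebraicIndependent ℚ fun m : Mo d => coeff m.1 f

/-- The exponent of `x ^ i * y ^ j`. -/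
noncomputable def mo {d : ℕ} (i j : ℕ) (h : 2 ≤ i + j ∧ i + j ≤ d) : Mo d :=
  ⟨Finsupp.single 0 i + Finsupp.single 1 j, by rw [deg2]; simpa using h⟩

theorem mo_inj {d i j i' j' : ℕ} {h h'} : (mo i j h : Mo d) = mo i' j' h' ↔ i = i' ∧ j = j' :=
  ⟨fun e => ⟨by simpa [mo] using DFunLike.congr_fun (congrArg Subtype.val e) 0,
    by simpa [mo] using DFunLike.congr_fun (congrArg Subtype.val e) 1⟩,
   fun e => by obtain ⟨rfl, rfl⟩ := e; rfl⟩

theorem IndC.indF {d : ℕ} (hd : 2 ≤ d) {f : R2 k} (H : IndC d f) : IndF d (hc d f) := by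
  refine ⟨hc_hom _ _, ?_⟩
  have := H.2.2.comp (fun j : Fin (d + 1) => mo (d - j) j (by omega))
    fun i j e => Fin.ext (mo_inj.1 e).2
  convert this using 2 with j
  conv_lhs => enter [3, 1]; rw [show d = d - j + j by omega]
  exact co_hc _ _ _

theorem IndC.low {d : ℕ} (hd : 2 ≤ d) {f : R2 k} (H : IndC d f) :
    co 2 0 f ≠ 0 ∧ co 1 1 f * co 1 1 f - 4 * co 2 0 f * co 0 2 f ≠ 0 := by
  classical
  refine ⟨H.2.2.ne_zero (mo 2 0 (by omega)), fun h => ?_⟩
  have := H.2.2.eq_zero_of_aeval_eq_zero (X (mo 1 1 (by omega)) * X (mo 1 1 (by omega)) -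
    4 * X (mo 2 0 (by omega)) * X (mo 0 2 (by omega))) (by
      simp only [map_sub, map_mul, aeval_X, map_ofNat]; exact h)
  have h1 := congrArg (eval fun m : Mo d => if m = mo 1 1 (by omega) then (1 : ℚ) else 0) this
  simp [mo_inj] at h1

theorem IndC.top {e : ℕ} {f : R2 k} (H : IndC (e + 2) f) :
    CI (hc (e + 1) (pderiv 0 f)) (hc (e + 1) (pderiv 1 f)) := by
  rw [hc_pderiv, hc_pderiv]
  exact (H.indF (by omega)).ci

theorem nondiv_of {f : R2 k} (h2 : f ∈ mm k ^ 2) (h0 : co 2 0 f ≠ 0)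
    (h1 : co 1 1 f * co 1 1 f - 4 * co 2 0 f * co 0 2 f ≠ 0) (j : ℕ) (α : k) (b : R2 k)
    (hb : b - C α * hc 2 f ^ j ∈ mm k ^ (2 * j + 1)) (hN : b ∈ NN f) : α = 0 := by
  let K := AlgebraicClosure k
  let φ := algebraMap k K
  obtain ⟨δ, hδ⟩ := IsAlgClosed.exists_eq_mul_self
    (φ (co 1 1 f * co 1 1 f - 4 * co 2 0 f * co 0 2 f))
  have hδ0 : δ ≠ 0 := fun h => h1 (φ.injective (by rw [hδ, h, mul_zero, map_zero]))
  set g := map φ f with hg
  have g2 : g ∈ mm K ^ 2 := mm_map φ h2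
  have g0 : co 2 0 g ≠ 0 := by rw [hg, co_map]; simpa using h0
  have hP := mm_pderiv 1 g2
  have hQ := neg_mem (mm_pderiv 0 g2)
  have E : Eig (pderiv 1 g) (-pderiv 0 g) :=
    eig_of (p0 := co 1 1 g) (p1 := 2 * co 0 2 g) (q0 := -(2 * co 2 0 g)) (δ := δ) hP hQ (hc1_y g)
      (by rw [hc_neg, hc1_x]; simp only [lf, map_neg]; ring)
      (by rw [← hδ]; simp only [hg, co_map, map_sub, map_mul, map_ofNat]; ring)
      (IsUnit.mk0 _ (by simp [hδ0, g0]))
  have g3 : ∀ w, co 2 0 w ≠ 0 → w ∉ mm K ^ 3 := fun w hw h => hw (co_of_mm h (by omega))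
  have z : vf (pderiv 1 g) (-pderiv 0 g) g = 0 := by rw [vf]; ring
  apply φ.injective
  rw [map_zero]
  refine E.nondiv (w := hc 2 g) (b := map φ b) (j := j)
    (fun N => ⟨g, g2, g3 g g0, by rw [z]; exact zero_mem _⟩) (mm_hom (hc_hom _ _))
    (g3 _ (by rwa [co_hc 2 0])) ?_ ?_ (mem_NN.1 (NN_map φ hN))
  · have := vf_mm hP hQ (sub_hc_mm g2)
    rw [vf_sub, z, zero_sub] at this
    exact neg_mem_iff.1 this
  · have := mm_map φ hb
    rwa [map_sub, map_mul, map_pow, map_C, ← hc_map] at this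

theorem NN_le_Jac_univ {e : ℕ} (he : 1 ≤ e) {u : R2 (FractionRing (MvPolynomial (Mo (e + 2)) ℚ))}
    (hu : u ∈ NN (map (algebraMap (MvPolynomial (Mo (e + 2)) ℚ) _) (fU X))) :
    u ∈ Jac (map (algebraMap (MvPolynomial (Mo (e + 2)) ℚ) _) (fU X)) := by
  classical
  set S := MvPolynomial (Mo (e + 2)) ℚ
  set K := FractionRing S
  set f : R2 K := map (algebraMap S K) (fU X) with hf
  have H : IndC (e + 2) f := by
    refine ⟨mm_map _ (fU_mm _), (fU_DL _).map _, ?_⟩
    simp only [hf, coeff_map, coeff_fU']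
    exact (MvPolynomial.algebraicIndependent_X _ ℚ).map' (f := (algebraMap S K).toRatAlgHom)
      (IsFractionRing.injective S K)
  obtain ⟨l0, l1⟩ := H.low (by omega)
  have hs : ∀ i : Fin 2, ∃ j, i ≠ j := by decide
  refine NN_le_Jac he H.1 H.2.1 H.top
    (low_gen (mm_pderiv 0 H.1) (mm_pderiv 1 H.1) (hc1_x f) (hc1_y f)
      fun h => l1 (by linear_combination -h))
    (fun a b hab => ?_) (fun i => ?_) (fun i j hij => ?_) (hc_hom 2 f) (nondiv_of H.1 l0 l1) hu
  · obtain ⟨D, h1, h2⟩ := exists_der (K := K) (pderiv (mo a b (by omega)) : Derivation ℚ S S)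
    refine ⟨D, h1, ?_⟩
    ext m
    rw [coeff_cm, hf, coeff_map, h2, coeff_fU, coeff_eq_co, co_mon]
    split_ifs with h3 h4 h4
    · have : (⟨m, h3⟩ : Mo (e + 2)) = mo a b (by omega) := Subtype.ext (by
        rw [mo]; simp only [h4.1, h4.2]; exact eq_single m)
      rw [this, pderiv_X_self, map_one]
    · rw [pderiv_X_of_ne, map_zero]
      intro h
      have := congrArg Subtype.val h
      simp only [mo] at this
      exact h4 (by simp [this])
    · exact absurd (by rw [deg2]; omega) h3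
    · simp
  · obtain ⟨j, hj⟩ := hs i
    exact (sat_frac (sat_univ (by omega) hj).1).1
  · exact (sat_frac (sat_univ (by omega) hij).1).2 j (sat_univ (by omega) hij).2

theorem IndC.le_Jac {e : ℕ} (he : 1 ≤ e) {f u : R2 k} (H : IndC (e + 2) f) (hu : u ∈ NN f) :
    u ∈ Jac f := by
  classical
  let S := MvPolynomial (Mo (e + 2)) ℚ
  let K := FractionRing S
  let θ : S →+* k := (aeval fun m : Mo (e + 2) => coeff m.1 f).toRingHom
  let φ : K →+* k := IsFractionRing.lift (g := θ) H.2.2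
  let f0 : R2 K := map (algebraMap S K) (fU X)
  have hf : f = map φ f0 := by
    conv_lhs => rw [eq_fU H.1 H.2.1]
    simp only [f0, map_fU, φ]
    simp [θ, S]
  let : Algebra K k := φ.toAlgebra
  let B := Module.Basis.ofVectorSpace K k
  let L := fun i => (B.coord i).toAddMonoidHom
  have hL : ∀ i b a, L i (φ b * a) = b * L i a := fun i b a => (B.coord i).map_smul b a
  have h1 : ∀ i, cm (L i) u ∈ Jac f0 := fun i => NN_le_Jac_univ he fun N => by
    obtain ⟨h, hh⟩ := hu N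
    refine ⟨cm (L i) h, ?_⟩
    have := cm_mm (L i) hh
    rw [hf, br, pderiv_map (φ := φ), pderiv_map (φ := φ), mul_comm (pderiv 0 h), mul_comm (pderiv 1 h), cm_sub, cm_sub,
      cm_map_mul φ _ (hL i), cm_map_mul φ _ (hL i), cm_pderiv, cm_pderiv] at this
    convert this using 2
    rw [br]; ring
  have h2 : u = ∑ i ∈ u.support.biUnion fun m => (B.repr (coeff m u)).support,
      C (B i) * map φ (cm (L i) u) := by
    ext m
    rw [coeff_sum]
    simp only [coeff_C_mul, coeff_map, coeff_cm]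
    conv_lhs => rw [← B.linearCombination_repr (coeff m u), Finsupp.linearCombination_apply]
    rw [Finsupp.sum_of_support_subset (s := u.support.biUnion fun m => (B.repr (coeff m u)).support)]
    · exact Finset.sum_congr rfl fun i _ => mul_comm _ _
    · by_cases hm : m ∈ u.support
      · exact Finset.subset_biUnion_of_mem (fun m => (B.repr (coeff m u)).support) hm
      · simp [notMem_support_iff.1 hm]
    · simp
  rw [h2]
  refine Ideal.sum_mem _ fun i _ => Ideal.mul_mem_left _ _ ?_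
  obtain ⟨s, t, e⟩ := Ideal.mem_span_pair.1 (h1 i)
  exact Ideal.mem_span_pair.2 ⟨map φ s, map φ t, by
    rw [← e, hf, pderiv_map (φ := φ), pderiv_map (φ := φ), map_add, map_mul, map_mul]⟩

theorem IndC.good {n : ℕ} {f : R2 k} (H : IndC (n + 6) f) : Good n f := by
  refine ⟨H.1, H.2.1, (H.indF (by omega)).genF, fun r hr u hu hd => ?_⟩
  have hx := H.2.1.pderiv 0
  have hy := H.2.1.pderiv 1
  have ht := IndC.top (e := n + 4) H
  obtain ⟨l0, l1⟩ := H.low (by omega)
  obtain ⟨a, b, e⟩ := Ideal.mem_span_pair.1 (IndC.le_Jac (e := n + 4) (by omega) H hu)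
  obtain ⟨a', b', ha, hb, e'⟩ := kos_top (n := r) hx hy ht a b (by rw [e]; exact hd)
  rw [e] at e'
  have h1 : pderiv 0 a' + pderiv 1 b' ∈ NN f := fun N => by
    obtain ⟨g, hg⟩ := hu (N + 2)
    exact ham_down H.1 (by
      rw [hc1_x, hc1_y]; exact CI_lf fun h => l1 (by linear_combination -h)) (e' ▸ hg)
  obtain ⟨s, t, e1⟩ := Ideal.mem_span_pair.1 (IndC.le_Jac (e := n + 4) (by omega) H h1)
  obtain ⟨s', t', hs, ht', e2⟩ := kos_top (n := 0) hx hy ht s t (by
    rw [e1]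
    exact ((ha.mono (k := _ + 1) (by omega)).pderiv 0).add ((hb.mono (k := _ + 1) (by omega)).pderiv 1))
  rw [e1, hs.eq_zero, ht'.eq_zero, zero_mul, zero_mul, add_zero] at e2
  refine ⟨-pot a' b', (pot_DL ha hb).neg, neg_mem (pot_mm _ _), ?_⟩
  rw [br, map_neg, map_neg, pot_x, pot_y, ← e2, map_zero, ← e']
  ring

end Pool.Agent.MP_05b4bd_ag.HC

end MrgPart3

-- ======== part 4: formerly Pool.Agent.MP_05b4bd_ag.hc.Val0
section MrgPart4

/-! Tools over a valuation ring: contents, left inverses, division. -/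

namespace Pool.Agent.MP_05b4bd_ag.HC

open MvPolynomial

variable {O K k : Type*} [CommRing O] [Field K] [Field k]

/-- `φ` embeds `O` in `K`, `ρ` is the residue map, quadratic equations have roots. -/
structure Val (φ : O →+* K) (ρ : O →+* k) : Prop where
  inj : Function.Injective φ
  surj : Function.Surjective ρ
  ker : ∀ a, ρ a = 0 ↔ ¬ IsUnit a
  quad : ∀ a b : O, ∃ s, s * s + a * s + b = 0

/-- In the image of the field over `K`. -/
def IK (φ : O →+* K) (P Q b : R2 O) : Prop := InIm (map φ P) (map φ Q) (map φ b)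

/-- The field reduces to the Hamiltonian field of `f` and images descend from `K` to `O`. -/
def Red (φ : O →+* K) (ρ : O →+* k) (f : R2 k) (P Q : R2 O) : Prop :=
  map ρ P = pderiv 1 f ∧ map ρ Q = -pderiv 0 f ∧ ∀ b, IK φ P Q b → InIm P Q b

variable {φ : O →+* K} {ρ : O →+* k} {f : R2 k} {P Q : R2 O} {n : ℕ}

theorem IK.of_C_mul (V : Val φ ρ) {ε : O} (hε : ε ≠ 0) {b : R2 O} (h : IK φ P Q (C ε * b)) :
    IK φ P Q b := fun N => by
  obtain ⟨g, hg⟩ := h N
  have h0 : φ ε ≠ 0 := fun e => hε (V.inj (by rw [e, map_zero]))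
  refine ⟨C (φ ε)⁻¹ * g, ?_⟩
  have := Ideal.mul_mem_left _ (C (φ ε)⁻¹) hg
  rwa [map_mul, map_C, mul_sub, ← mul_assoc, ← map_mul, inv_mul_cancel₀ h0, map_one, one_mul,
    ← vf_C_mul] at this

theorem IK.sub_vf {b : R2 O} (h : IK φ P Q b) (g : R2 O) : IK φ P Q (b - vf P Q g) := by
  rw [IK, map_sub, map_vf]; exact InIm.sub_vf h _

theorem Red.vf (R : Red φ ρ f P Q) (h : R2 O) : map ρ (vf P Q h) = br (map ρ h) f := by
  rw [map_vf, R.1, R.2.1, br_eq_vf]

theorem Red.nn (R : Red φ ρ f P Q) {b : R2 O} (h : IK φ P Q b) : map ρ b ∈ NN f := fun N => by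
  obtain ⟨g, hg⟩ := R.2.2 b h N
  exact ⟨map ρ g, by rw [← R.vf, ← map_sub]; exact mm_map ρ hg⟩

theorem GenF.br_inj {F h : R2 k} (H : GenF n F) (hd : DL 6 h) (hz : br h F = 0) :
    pderiv 0 h = 0 ∧ pderiv 1 h = 0 := by
  have hx := hom_pderiv 0 H.1
  have hy := hom_pderiv 1 H.1
  have := kos_zero (e := n + 4) (k := 5) (U := -pderiv 1 h) (V := pderiv 0 h) (DL.of_hom hx)
    (DL.of_hom hy) (by rw [hc_self hx, hc_self hy]; exact H.2.1) (by omega) (hd.pderiv 1).neg
    (hd.pderiv 0) (by rw [br] at hz; linear_combination hz)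
  exact ⟨this.2, neg_eq_zero.1 this.1⟩

theorem Good.br_inj [CharZero k] (H : Good n f) {h : R2 k} (hd : DL 6 h) (hm : h ∈ mm k ^ 1)
    (hz : br h f = 0) : h = 0 := by
  have := kos_zero (e := n + 4) (k := 5) (U := -pderiv 1 h) (V := pderiv 0 h) (H.2.1.pderiv 0)
    (H.2.1.pderiv 1) (by rw [hc_pderiv, hc_pderiv]; exact H.2.2.1.2.1) (by omega) (hd.pderiv 1).neg
    (hd.pderiv 0) (by rw [br] at hz; linear_combination hz)
  refine co_ext fun i j => ?_
  rw [co_zero]
  rcases i with _ | i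
  · rcases j with _ | j
    · exact co_of_mm hm (by omega)
    · have h1 := co_y 0 j h
      rw [neg_eq_zero.1 this.1, co_zero] at h1
      exact (mul_eq_zero.1 h1.symm).resolve_right (Nat.cast_add_one_ne_zero _)
  · have h1 := co_x i j h
    rw [this.2, co_zero] at h1
    exact (mul_eq_zero.1 h1.symm).resolve_right (Nat.cast_add_one_ne_zero _)

/-- Exponents of degree between `1` and `r`. -/
abbrev Mo1 (r : ℕ) := {m : Fin 2 →₀ ℕ // 1 ≤ m.degree ∧ m.degree ≤ r}

instance (r : ℕ) : Finite (Mo1 r) :=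
  ((Finsupp.finite_of_degree_le (σ := Fin 2) r).subset fun _ hm => hm.2).to_subtype

noncomputable instance (r : ℕ) : Fintype (Mo1 r) := Fintype.ofFinite _

section Syn
variable {A : Type*} [CommRing A] {r : ℕ}

noncomputable def syn (A : Type*) [CommRing A] (r : ℕ) : (Mo1 r → A) →ₗ[A] R2 A :=
  Fintype.linearCombination A fun m => monomial m.1 1

theorem coeff_syn (c : Mo1 r → A) (m : Fin 2 →₀ ℕ) :
    coeff m (syn A r c) = if h : 1 ≤ m.degree ∧ m.degree ≤ r then c ⟨m, h⟩ else 0 := by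
  classical
  rw [syn, Fintype.linearCombination_apply, coeff_sum]
  simp only [smul_monomial, smul_eq_mul, mul_one]
  split_ifs with h
  · rw [Finset.sum_eq_single ⟨m, h⟩]
    · simp
    · intro b _ hb
      rw [coeff_monomial, if_neg fun e => hb (Subtype.ext e)]
    · simp
  · refine Finset.sum_eq_zero fun b _ => ?_
    rw [coeff_monomial, if_neg fun e : b.1 = m => h (e ▸ b.2)]

theorem syn_DL (c : Mo1 r → A) : DL (r + 1) (syn A r c) := fun m hm => by
  rw [coeff_syn, dif_neg (by omega)]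

theorem syn_mm (c : Mo1 r → A) : syn A r c ∈ mm A ^ 1 :=
  mem_mm.2 fun m hm => by rw [coeff_syn, dif_neg (by omega)]

theorem eq_syn {h : R2 A} (hd : DL (r + 1) h) (hm : h ∈ mm A ^ 1) :
    h = syn A r fun m => coeff m.1 h := by
  ext m
  rw [coeff_syn]
  split_ifs with e
  · rfl
  · by_cases h1 : m.degree < 1
    · exact mem_mm.1 hm m h1
    · exact hd m (by omega)

theorem map_syn {B : Type*} [CommRing B] (ψ : A →+* B) (c : Mo1 r → A) :
    map ψ (syn A r c) = syn B r fun m => ψ (c m) := by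
  ext m
  rw [coeff_map, coeff_syn, coeff_syn]
  split_ifs <;> simp

end Syn

/-- A left inverse of the field on polynomials of degree `1` to `r`. -/
structure Left (ρ : O →+* k) (f : R2 k) (P Q : R2 O) (r : ℕ) (Λ : R2 O →ₗ[O] R2 O) : Prop where
  dl : ∀ b, DL (r + 1) (Λ b)
  mm : ∀ b, Λ b ∈ mm O ^ 1
  inv : ∀ h, DL (r + 1) h → h ∈ HC.mm O ^ 1 → Λ (vf P Q h) = h
  res : ∀ b h, DL (r + 1) h → h ∈ HC.mm k ^ 1 → map ρ b = br h f → map ρ (Λ b) = h

theorem exists_left [CharZero k] (V : Val φ ρ) (R : Red φ ρ f P Q) (H : Good n f) {r : ℕ}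
    (hr : r ≤ 5) : ∃ Λ, Left ρ f P Q r Λ := by
  classical
  obtain ⟨g, hg⟩ := (vfl (pderiv 1 f) (-pderiv 0 f) ∘ₗ syn k r).exists_leftInverse_of_injective
    (LinearMap.ker_eq_bot'.2 fun c hc => by
      have := H.br_inj ((syn_DL c).mono (by omega)) (syn_mm c) (by rw [br_eq_vf]; exact hc)
      ext m
      have h1 := coeff_syn c m.1
      rw [this, dif_pos m.2] at h1
      exact h1.symm)
  have hg' : ∀ c, g (br (syn k r c) f) = c := fun c => by
    rw [br_eq_vf]; exact DFunLike.congr_fun hg c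
  choose s hs using V.surj
  let G : R2 O →ₗ[O] (Mo1 r → O) :=
    (basisMonomials (Fin 2) O).constr O fun m i => s (g (monomial m 1) i)
  have hG : ∀ u i, ρ (G u i) = g (map ρ u) i := fun u i => by
    induction u using MvPolynomial.induction_on' with
    | add p q hp hq => simp only [map_add, Pi.add_apply, hp, hq]
    | monomial m c =>
      have e1 : (monomial m c : R2 O) = c • basisMonomials (Fin 2) O m := by simp [smul_monomial]
      have e2 : (monomial m (ρ c) : R2 k) = ρ c • monomial m 1 := by simp [smul_monomial]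
      rw [map_monomial, e1, e2, map_smul, map_smul, Module.Basis.constr_basis]
      simp [hs]
  let M : Matrix (Mo1 r) (Mo1 r) O := LinearMap.toMatrix' (G ∘ₗ vfl P Q ∘ₗ syn O r)
  have hM : ∀ c, G (vf P Q (syn O r c)) = M.mulVec c := fun c => by
    rw [← Matrix.toLin'_apply, Matrix.toLin'_toMatrix']; rfl
  have hdet : IsUnit M.det := by
    by_contra h
    have h1 := (V.ker _).2 h
    rw [RingHom.map_det] at h1
    have : ρ.mapMatrix M = 1 := by
      ext i j
      have := congrFun (hM (Pi.single j 1)) i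
      rw [Matrix.mulVec_single_one] at this
      change ρ (M.col j i) = _
      rw [← this, hG, R.vf, map_syn, hg', Matrix.one_apply, Pi.single_apply]
      split_ifs <;> simp
    rw [this, Matrix.det_one] at h1
    exact one_ne_zero h1
  have hinv : ∀ c, (syn O r ∘ₗ Matrix.toLin' M⁻¹ ∘ₗ G) (vf P Q (syn O r c)) = syn O r c := fun c => by
    simp only [LinearMap.comp_apply, Matrix.toLin'_apply]
    rw [hM, Matrix.mulVec_mulVec, Matrix.nonsing_inv_mul _ hdet, Matrix.one_mulVec]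
  refine ⟨syn O r ∘ₗ Matrix.toLin' M⁻¹ ∘ₗ G, fun b => syn_DL _, fun b => syn_mm _,
    fun h hd hm => by rw [eq_syn hd hm]; exact hinv _, fun b h hd hm e => ?_⟩
  have e1 : map ρ (syn O r fun m => s (coeff m.1 h)) = h := by
    rw [map_syn]; simp only [hs]; exact (eq_syn hd hm).symm
  have e2 : map ρ (b - vf P Q (syn O r fun m => s (coeff m.1 h))) = 0 := by
    rw [map_sub, R.vf, e1, e, sub_self]
  have e3 : map ρ ((syn O r ∘ₗ Matrix.toLin' M⁻¹ ∘ₗ G)
      (b - vf P Q (syn O r fun m => s (coeff m.1 h)))) = 0 := by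
    simp only [LinearMap.comp_apply, Matrix.toLin'_apply]
    rw [map_syn]
    convert map_zero (syn k r)
    simp only [Matrix.mulVec, dotProduct, map_sum, map_mul, hG, e2, map_zero, Pi.zero_apply,
      mul_zero, Finset.sum_const_zero]
  rwa [map_sub, map_sub, hinv, e1, sub_eq_zero] at e3

theorem ratio (V : Val φ ρ) {ε δ : O} {w z : R2 O} (h : C ε * w = C δ * z) (hw : map ρ w ≠ 0) :
    ∃ κ, ε = δ * κ := by
  obtain ⟨m, hm⟩ := ne_zero_iff.1 hw
  rw [coeff_map] at hm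
  obtain ⟨t, ht⟩ := (not_not.1 (mt (V.ker _).2 hm)).exists_right_inv
  have := congrArg (coeff m) h
  rw [coeff_C_mul, coeff_C_mul] at this
  exact ⟨coeff m z * t, by linear_combination t * this - ε * ht⟩

theorem solve3 [CharZero k] (V : Val φ ρ) {b1 b2 b3 A1 A2 A3 B1 B2 B3 : O} (h1 : ρ b1 = 1)
    (h2 : ρ b2 = 0) (h3 : ρ b3 = 0) (h4 : ρ A3 ≠ 0) : ∃ p v1 v2, ρ p = 0 ∧ ρ v1 = 1 ∧ ρ v2 = 0 ∧
      b1 + p * (v1 * A1 + v2 * B1) - v1 = 0 ∧ b2 + p * (v1 * A2 + v2 * B2) - v2 = 0 ∧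
      b3 + p * (v1 * A3 + v2 * B3) = 0 := by
  set e1 := -(b3 * (A1 + B2)) + A3 * b1 + B3 * b2 with he1
  set e2 := b3 * (A1 * B2 - B1 * A2) + A3 * (B1 * b2 - b1 * B2) + B3 * (A2 * b1 - b2 * A1) with he2
  have r1 : ρ e1 = ρ A3 := by simp [he1, h1, h2, h3]
  obtain ⟨s, hs, hu⟩ : ∃ s, s * s + e1 * s + e2 * b3 = 0 ∧ ρ s ≠ 0 := by
    obtain ⟨s, hs⟩ := V.quad e1 (e2 * b3)
    by_cases h : ρ s = 0
    · exact ⟨-e1 - s, by linear_combination hs, by simpa [h, r1] using h4⟩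
    · exact ⟨s, hs, h⟩
  obtain ⟨t, ht⟩ := (not_not.1 (mt (V.ker _).2 hu)).exists_right_inv
  have hp : b3 + e1 * (b3 * t) + e2 * (b3 * t) * (b3 * t) = 0 := by
    linear_combination b3 * t * t * hs - b3 * (s * t + 1 + e1 * t) * ht
  have rp : ρ (b3 * t) = 0 := by simp [h3]
  generalize b3 * t = p at hp rp
  have rΔ : ρ ((1 - p * A1) * (1 - p * B2) - p * p * B1 * A2) = 1 := by simp [rp]
  obtain ⟨u, hu⟩ := (not_not.1 (mt (V.ker _).2 (by rw [rΔ]; exact one_ne_zero))).exists_right_inv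
  have ru : ρ u = 1 := by
    have := congrArg ρ hu
    rwa [map_mul, rΔ, one_mul, map_one] at this
  exact ⟨p, (b1 * (1 - p * B2) + p * B1 * b2) * u, (b2 * (1 - p * A1) + p * A2 * b1) * u, rp,
    by simp [rp, ru, h1], by simp [rp, h2], by linear_combination (-b1) * hu,
    by linear_combination (-b2) * hu, by linear_combination u * hp - b3 * hu⟩

variable [IsDomain O] [ValuationRing O]

theorem exists_dvd_all {ι : Type*} (c : ι → O) {s : Finset ι} (hs : s.Nonempty) :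
    ∃ i ∈ s, ∀ j ∈ s, c i ∣ c j := by
  classical
  induction hs using Finset.Nonempty.cons_induction with
  | singleton a => exact ⟨a, by simp, by simp⟩
  | cons a s ha hs ih =>
    obtain ⟨i, hi, h⟩ := ih
    rcases ValuationRing.dvd_total (c a) (c i) with h1 | h1
    · refine ⟨a, by simp, fun j hj => ?_⟩
      rcases Finset.mem_cons.1 hj with rfl | hj
      exacts [dvd_rfl, h1.trans (h j hj)]
    · refine ⟨i, by simp [hi], fun j hj => ?_⟩
      rcases Finset.mem_cons.1 hj with rfl | hj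
      exacts [h1, h j hj]

theorem content (ρ : O →+* k) (u : R2 O) : ∃ ε u', u = C ε * u' ∧ map ρ u' ≠ 0 := by
  by_cases h : u = 0
  · exact ⟨0, 1, by simp [h], by simp⟩
  obtain ⟨m, hm, h1⟩ := exists_dvd_all (fun m => coeff m u) (support_nonempty.2 h)
  obtain ⟨u', hu⟩ := (C_dvd_iff_dvd_coeff (coeff m u) u).2 fun j => by
    by_cases hj : j ∈ u.support
    · exact h1 j hj
    · rw [notMem_support_iff.1 hj]; exact dvd_zero _
  refine ⟨_, u', hu, fun h0 => ?_⟩
  have h2 := congrArg (coeff m) hu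
  rw [coeff_C_mul] at h2
  have h3 : coeff m u' = 1 := mul_left_cancel₀ (mem_support_iff.1 hm) (by rw [← h2, mul_one])
  have h4 := congrArg (coeff m) h0
  rw [coeff_map, h3, map_one] at h4
  exact one_ne_zero h4

theorem triple (ρ : O →+* k) (u v : R2 O) (p : O) : ∃ δ u' v' p', u = C δ * u' ∧ v = C δ * v' ∧
    p = δ * p' ∧ ¬ (map ρ u' = 0 ∧ map ρ v' = 0 ∧ ρ p' = 0) := by
  obtain ⟨a, u', rfl, hu⟩ := content ρ u
  obtain ⟨b, v', rfl, hv⟩ := content ρ v
  obtain ⟨i, -, h⟩ := exists_dvd_all ![a, b, p] (Finset.univ_nonempty (α := Fin 3))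
  obtain ⟨a', ha⟩ := h 0 (Finset.mem_univ _)
  obtain ⟨b', hb⟩ := h 1 (Finset.mem_univ _)
  obtain ⟨p', hp⟩ := h 2 (Finset.mem_univ _)
  fin_cases i
  · exact ⟨a, u', C b' * v', p', rfl, by rw [← mul_assoc, ← map_mul]; exact congrArg (C · * v') hb,
      hp, fun h => hu h.1⟩
  · exact ⟨b, C a' * u', v', p', by rw [← mul_assoc, ← map_mul]; exact congrArg (C · * u') ha, rfl,
      hp, fun h => hv h.2.1⟩
  · exact ⟨p, C a' * u', C b' * v', 1, by rw [← mul_assoc, ← map_mul]; exact congrArg (C · * u') ha,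
      by rw [← mul_assoc, ← map_mul]; exact congrArg (C · * v') hb, (mul_one p).symm,
      fun h => by simpa using h.2.2⟩

theorem Left.div (V : Val φ ρ) (R : Red φ ρ f P Q) (H : Good n f) {r : ℕ} (hr : r ≤ 4)
    {Λ : R2 O →ₗ[O] R2 O} (L : Left ρ f P Q r Λ) {δ : O} {w W0 W1 : R2 O} (e : w = W0 - C δ * W1)
    (hd : DL (r + (n + 5)) W0) (hI : IK φ P Q w) (hΛ : Λ w = 0) : ∃ b, w = C δ * b := by
  obtain ⟨ε, w', hw, h0⟩ := content ρ w
  rcases ValuationRing.dvd_total δ ε with ⟨η, rfl⟩ | ⟨η, rfl⟩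
  · exact ⟨C η * w', by rw [hw, map_mul, mul_assoc]⟩
  by_cases hη : IsUnit η
  · obtain ⟨t, ht⟩ := hη.exists_right_inv
    exact ⟨C t * w', by rw [hw, ← mul_assoc, ← map_mul, mul_assoc, ht, mul_one]⟩
  by_cases hε : ε = 0
  · exact ⟨0, by simp [hw, hε]⟩
  exfalso
  have h1 : DL (r + (n + 5)) (w' + C η * W1) := DL.of_C_mul hε (by
    convert hd using 1
    rw [map_mul] at e
    linear_combination e - hw)
  have h2 := h1.map ρ
  rw [map_add, map_mul, map_C, (V.ker η).2 hη, map_zero, zero_mul, add_zero] at h2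
  obtain ⟨h, h3, h4, h5⟩ := H.2.2.2 r hr _ (R.nn (IK.of_C_mul V hε (hw ▸ hI))) h2
  have h6 := L.res w' h h3 h4 h5
  rw [hw, ← smul_eq_C_mul, map_smul, smul_eq_C_mul] at hΛ
  rw [(mul_eq_zero.1 hΛ).resolve_left (by simpa using hε), map_zero] at h6
  exact h0 (by rw [h5, ← h6]; simp [br])

end Pool.Agent.MP_05b4bd_ag.HC

end MrgPart4

-- ======== part 5: formerly Pool.Agent.MP_05b4bd_ag.hc.LogCl
section MrgPart5

/-! A field with an integrating factor built on one line is a limit of logarithmic fields. -/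

namespace Pool.Agent.MP_05b4bd_ag.HC

open MvPolynomial

/-- The form `P dy - Q dx` equals `f1 df2 + l f2 df1` with `deg f1 ≤ 1`, `deg f2 ≤ d`, `f1 0 = 1`. -/
def IsLog {A : Type*} [CommRing A] (d : ℕ) (P Q : R2 A) : Prop :=
  ∃ (f1 f2 : R2 A) (l : A), DL 2 f1 ∧ DL (d + 1) f2 ∧ f1 - 1 ∈ mm A ^ 1 ∧
    P = f1 * pderiv 1 f2 + C l * f2 * pderiv 1 f1 ∧ Q = -(f1 * pderiv 0 f2 + C l * f2 * pderiv 0 f1)

/-- A line of forms, singular at the origin, almost all of whose points are logarithmic. -/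
def LimLog {K : Type*} [Field K] (d : ℕ) (P Q : R2 K) : Prop :=
  ∃ (A B : R2 K) (s : Finset K), DL (d + 1) A ∧ DL (d + 1) B ∧ A ∈ mm K ^ 1 ∧ B ∈ mm K ^ 1 ∧
    ∀ t ∉ s, IsLog d (P + C t * A) (Q + C t * B)

variable {K : Type*} [Field K]

theorem T_inj {d : ℕ} {u μ : K} (h : ∀ j ≤ d, u * j + μ ≠ 0) {w : R2 K} (hw : DL (d + 1) w)
    (hz : (1 + C u * X 0) * pderiv 0 w + C μ * w = 0) : w = 0 := by
  have key : ∀ k i j, d + 1 ≤ i + k → co i j w = 0 := by
    intro k
    induction k with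
    | zero => exact fun i j h => co_of_DL hw (by omega)
    | succ k ih =>
      intro i j hi
      by_cases h1 : d + 1 ≤ i + k
      · exact ih i j h1
      have := congrArg (co i j) hz
      rw [add_mul, one_mul, mul_assoc, co_add, co_add, co_C_mul, co_C_mul, co_X0_x, co_x,
        ih (i + 1) j (by omega), co_zero] at this
      exact (mul_eq_zero.1 (show (u * i + μ) * co i j w = 0 by
        linear_combination this)).resolve_left (h i (by omega))
  exact co_ext fun i j => key (d + 1) i j (by omega)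

theorem T_surj {d : ℕ} {u μ : K} (h : ∀ j ≤ d, u * j + μ ≠ 0) {a : R2 K} (ha : DL (d + 1) a) :
    ∃ w, DL (d + 1) w ∧ (1 + C u * X 0) * pderiv 0 w + C μ * w = a := by
  let T : R2 K →ₗ[K] R2 K := vfl (1 + C u * X 0) 0 + μ • LinearMap.id
  have hT : ∀ w, T w = (1 + C u * X 0) * pderiv 0 w + C μ * w := fun w => by
    simp [T, vfl_apply, vf, smul_eq_C_mul]
  have hm : ∀ w ∈ dl K (d + 1), T w ∈ dl K (d + 1) := fun w hw => by
    rw [hT]
    exact ((((DL_C 1).mono (by omega)).add ((DL_X 0).C_mul u)).mul (DL.pderiv 0 hw) |>.mono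
      (by omega)).add (DL.C_mul μ hw)
  have hi : Function.Injective (T.restrict hm) := by
    rw [← LinearMap.ker_eq_bot, LinearMap.ker_eq_bot']
    intro w hw
    exact Subtype.ext (T_inj h w.2 (by rw [← hT]; exact congrArg Subtype.val hw))
  obtain ⟨w, hw⟩ := LinearMap.injective_iff_surjective.1 hi ⟨a, ha⟩
  exact ⟨w, w.2, by rw [← hT]; exact congrArg Subtype.val hw⟩

variable [CharZero K]

theorem limLog_x {d : ℕ} {P Q : R2 K} (dP : DL (d + 1) P) (dQ : DL (d + 1) Q) {ε p : K} (hε : ε ≠ 0)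
    (h : (1 + C p * X 0) * (pderiv 0 P + pderiv 1 Q) = C ε * P) : LimLog d P Q := by
  classical
  set c := C ε⁻¹ * (pderiv 0 P + pderiv 1 Q) with hc
  have hi : (C ε⁻¹ * C ε : R2 K) = 1 := by rw [← map_mul, inv_mul_cancel₀ hε, map_one]
  have dc : DL d c := ((dP.pderiv 0).add (dQ.pderiv 1)).C_mul _
  have eP : P = (1 + C p * X 0) * c := by rw [hc]; linear_combination (-C ε⁻¹) * h - P * hi
  have eQ : pderiv 1 Q = C ε * c - pderiv 0 P := by
    rw [hc]; linear_combination (-(pderiv 0 P + pderiv 1 Q)) * hi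
  have ePx : pderiv 0 P = C p * c + (1 + C p * X 0) * pderiv 0 c := by
    conv_lhs => rw [eP]
    simp; ring
  have dg := ad_DL 1 dc
  have dB : DL (d + 1) (-(ad 1 c + X 0 * pderiv 0 (ad 1 c))) :=
    (dg.add (((DL_X 0).mul (dg.pderiv 0)).mono (by omega))).neg
  refine ⟨X 0 * c, -(ad 1 c + X 0 * pderiv 0 (ad 1 c)),
    insert (-p) ((Finset.range (d + 1)).image fun j : ℕ => -(p * j + (p - ε)) / (j + 1)),
    ((DL_X 0).mul dc).mono (by omega), dB, Ideal.mul_mem_right _ _ (mm_X 0),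
    neg_mem (add_mem (ad_mm 1 (mm_zero _)) (Ideal.mul_mem_right _ _ (mm_X 0))), fun t ht => ?_⟩
  rw [Finset.mem_insert, not_or] at ht
  have hu : p + t ≠ 0 := fun e => ht.1 (by linear_combination e)
  have hj : ∀ j ≤ d, (p + t) * j + (p - ε + t) ≠ 0 := fun j hj e =>
    ht.2 (Finset.mem_image.2 ⟨j, Finset.mem_range.2 (by omega), by
      rw [div_eq_iff (Nat.cast_add_one_ne_zero j)]; linear_combination -e⟩)
  obtain ⟨G, dG, eG⟩ := T_surj hj (dQ.add (dB.C_mul t)).neg
  have eGy : pderiv 1 G = c := by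
    rw [← sub_eq_zero]
    refine T_inj hj (((dG.pderiv 1).sub dc).mono (by omega)) ?_
    have := congrArg (pderiv 1) eG
    simp only [map_add, map_neg, map_sub, pderiv_mul, pderiv_C, pderiv_one, pderiv_comm, pderiv_ad,
      pderiv_X_of_ne (show (0 : Fin 2) ≠ 1 by decide)] at this ⊢
    linear_combination this - eQ + ePx
  have hl : (C ((p - ε + t) / (p + t)) * C (p + t) : R2 K) = C (p - ε + t) := by
    rw [← map_mul, div_mul_cancel₀ _ hu]
  refine ⟨1 + C (p + t) * X 0, G, (p - ε + t) / (p + t),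
    ((DL_C 1).mono (by omega)).add ((DL_X 0).C_mul _), dG,
    by simpa using Ideal.mul_mem_left _ (C (p + t)) (mm_X 0), ?_, ?_⟩
  · rw [eGy, eP]; simp; ring
  · rw [map_add (pderiv 0), pderiv_one, pderiv_C_mul, pderiv_X_self]
    linear_combination eG + G * hl

theorem limLog {d : ℕ} {P Q : R2 K} (dP : DL (d + 1) P) (dQ : DL (d + 1) Q) {ε p v1 v2 : K}
    (hε : ε ≠ 0) (hv : lf v1 v2 ≠ 0)
    (h : (1 + C p * lf v1 v2) * (pderiv 0 P + pderiv 1 Q) = C ε * vf P Q (lf v1 v2)) :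
    LimLog d P Q := by
  obtain ⟨c, e, hd⟩ : ∃ c e : K, v1 * e - v2 * c = 1 := by
    by_cases h1 : v1 = 0
    · have h2 : v2 ≠ 0 := fun h2 => hv (by simp [h1, h2, lf])
      exact ⟨-v2⁻¹, 0, by simp [h2]⟩
    · exact ⟨0, v1⁻¹, by simp [h1]⟩
  have t := exists_Tr hd P Q
  obtain ⟨A, B, s, dA, dB, mA, mB, H⟩ := limLog_x (p := p) (lin_DL ((dP.C_mul v1).add (dQ.C_mul v2)))
    (lin_DL ((dP.C_mul c).add (dQ.C_mul e))) hε (lin_inj hd (by
      rw [map_mul, map_mul, t.div hd, t.1, map_add, map_mul, lin_C, lin_C, lin_X0, map_one, h,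
        vf_lf]))
  refine ⟨C e * lin v1 v2 c e A - C v2 * lin v1 v2 c e B,
    C v1 * lin v1 v2 c e B - C c * lin v1 v2 c e A, s,
    ((lin_DL dA).C_mul _).sub ((lin_DL dB).C_mul _), ((lin_DL dB).C_mul _).sub ((lin_DL dA).C_mul _),
    sub_mem (Ideal.mul_mem_left _ _ (lin_mm mA)) (Ideal.mul_mem_left _ _ (lin_mm mB)),
    sub_mem (Ideal.mul_mem_left _ _ (lin_mm mB)) (Ideal.mul_mem_left _ _ (lin_mm mA)),
    fun r hr => ?_⟩
  obtain ⟨f1, f2, l, d1, d2, m1, e1, e2⟩ := H r hr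
  have e1' := congrArg (lin v1 v2 c e) e1
  have e2' := congrArg (lin v1 v2 c e) e2
  simp only [map_add (lin v1 v2 c e), map_mul (lin v1 v2 c e), map_neg (lin v1 v2 c e), lin_C]
    at e1' e2'
  refine ⟨lin v1 v2 c e f1, lin v1 v2 c e f2, l, lin_DL d1, lin_DL d2,
    by simpa using lin_mm (a := v1) (b := v2) (c := c) (e := e) m1, ?_, ?_⟩
  · rw [lin_y, lin_y]
    linear_combination t.fst hd + C e * e1' - C v2 * e2'
  · rw [lin_x, lin_x]
    linear_combination t.snd hd + C v1 * e2' - C c * e1'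

/-- A closed form is exact, with control of the degree. -/
theorem exact_of_div {d : ℕ} {P Q : R2 K} (dP : DL (d + 1) P) (dQ : DL (d + 1) Q)
    (h : pderiv 0 P + pderiv 1 Q = 0) : ∃ g, DL (d + 2) g ∧ P = pderiv 1 g ∧ Q = -pderiv 0 g :=
  ⟨pot P Q, pot_DL dP dQ, by rw [pot_y, h]; simp, by rw [pot_x]; simp⟩

end Pool.Agent.MP_05b4bd_ag.HC

end MrgPart5

-- marker of a merged file
example : 731051 + 346668 = 731051 + 346668 := rfl

end MrgPart0

-- ======== part 1: formerly Pool.Agent.MP_05b4bd_ag.esc.Defs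
section MrgPart1

/-! Escaping centres: definitions. -/

namespace Pool.Agent.MP_05b4bd_ag.ES

open PowerSeries LaurentSeries HC

noncomputable section

section Basic
variable {R S A B : Type} [CommRing R] [CommRing S] [CommRing A] [CommRing B]

/-- An additive derivation. -/
def IsDer (D : S →+ S) : Prop := ∀ a b, D (a * b) = D a * b + a * D b

/-- A derivation over the ring map `g`. -/
def IsDerOver (g : R →+* S) (D : R →+ S) : Prop := ∀ a b, D (a * b) = D a * g b + g a * D b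

/-- Constant coefficient. -/
abbrev cc : R⟦X⟧ →+* R := constantCoeff

/-- An additive map applied to all coefficients of a power series. -/
def cw (L : A →+ B) : A⟦X⟧ →+ B⟦X⟧ where
  toFun f := mk fun n => L (coeff n f)
  map_zero' := by ext; simp
  map_add' f g := by ext; simp

/-- The derivative in the (outer) variable. -/
def dX (R : Type) [CommRing R] : R⟦X⟧ →+ R⟦X⟧ := (derivative R).toLinearMap.toAddMonoidHom

/-- The Euler operator `X d/dX`. -/
def thP (R : Type) [CommRing R] : R⟦X⟧ →+ R⟦X⟧ := (AddMonoidHom.mulLeft X).comp (dX R)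

/-- Partial derivative of a polynomial in two variables. -/
def pd (R : Type) [CommRing R] (i : Fin 2) : R2 R →+ R2 R :=
  (MvPolynomial.pderiv i).toLinearMap.toAddMonoidHom

/-- `Φ` is `φ` on constants and sends `X` to `s`. -/
def IsEv (Φ : R⟦X⟧ →+* S) (φ : R →+* S) (s : S) : Prop := (∀ r, Φ (C r) = φ r) ∧ Φ X = s

open Classical in
/-- Evaluation of power series at `s` (meaningful when `s` lies in an ideal for which `S` is
complete, see `ev_C`, `ev_X`). -/
def ev (φ : R →+* S) (s : S) : R⟦X⟧ →+* S :=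
  if h : ∃ Φ, IsEv Φ φ s then h.choose else φ.comp cc

/-- Two variables: the inner one goes to `u`, the outer one to `z`. -/
def ev2 (φ : R →+* S) (u z : S) : R⟦X⟧⟦X⟧ →+* S := ev (ev φ u) z

/-- Substitution of `s` for the variable. -/
def sb (s : R⟦X⟧) : R⟦X⟧ →+* R⟦X⟧ := ev C s

/-- Ramification `X ↦ X ^ M`. -/
def ram (R : Type) [CommRing R] (M : ℕ) : R⟦X⟧ →+* R⟦X⟧ := sb (X ^ M)

/-- Extension of `φ` fixing the variable. -/
def hat (φ : R →+* S⟦X⟧) : R⟦X⟧ →+* S⟦X⟧ := ev φ X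

/-- The ideal generated by `I` and the variable. -/
def up (I : Ideal R) : Ideal R⟦X⟧ := I.comap cc

/-- Constants of a two-variable ring. -/
def CC : R →+* R⟦X⟧⟦X⟧ := (C : R⟦X⟧ →+* R⟦X⟧⟦X⟧).comp C

/-- Value at the origin of a two-variable ring. -/
def c00 : R⟦X⟧⟦X⟧ →+* R := (cc : R⟦X⟧ →+* R).comp cc

/-- Coefficient of `(inner variable) ^ i * (outer variable) ^ j`. -/
def co2 (i j : ℕ) (c : R⟦X⟧⟦X⟧) : R := coeff i (coeff j c)

/-- All monomials have total degree at least `n`. -/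
def Ord2 (n : ℕ) (c : R⟦X⟧⟦X⟧) : Prop := ∀ i j, i + j < n → co2 i j c = 0

/-- The order is exactly `n`. -/
def OrdIs (n : ℕ) (f : R⟦X⟧) : Prop := coeff n f ≠ 0 ∧ ∀ j < n, coeff j f = 0

/-- Exchange of the two variables. -/
def swap : R⟦X⟧⟦X⟧ →+* R⟦X⟧⟦X⟧ where
  toFun c := mk fun i => mk fun j => coeff i (coeff j c)
  map_one' := by
    ext i j; simp only [coeff_mk, coeff_one]; split_ifs <;> simp_all [coeff_one]
  map_mul' a b := by
    ext i j
    simp only [coeff_mk, coeff_mul, map_sum]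
    exact Finset.sum_comm
  map_zero' := by ext; simp
  map_add' a b := by ext; simp

/-- A ring map applied to the coefficients of a two-variable series. -/
def mA (τ : A →+* B) : A⟦X⟧⟦X⟧ →+* B⟦X⟧⟦X⟧ := map (map τ)

/-- The inner variable is set to zero. -/
def red : R⟦X⟧⟦X⟧ →+* R⟦X⟧ := map cc

/-- Power series as Laurent series. -/
def coeL (R : Type) [CommRing R] : R⟦X⟧ →+* R⸨X⸩ := HahnSeries.ofPowerSeries ℤ R

/-- Constant Laurent series. -/
def cL (R : Type) [CommRing R] : R →+* R⸨X⸩ := HahnSeries.C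

/-- The Laurent monomial `X ^ n`. -/
def wL (R : Type) [CommRing R] (n : ℤ) : R⸨X⸩ := HahnSeries.single n 1

/-- An additive map applied to all coefficients of a Laurent series. -/
def cwL (L : A →+ B) : A⸨X⸩ →+ B⸨X⸩ where
  toFun f := f.map L
  map_zero' := by ext; simp
  map_add' _ _ := HahnSeries.map_add L

/-- A ring map applied to all coefficients of a Laurent series. -/
def mapL (τ : A →+* B) : A⸨X⸩ →+* B⸨X⸩ where
  toFun f := f.map τ
  map_zero' := by ext; simp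
  map_add' _ _ := HahnSeries.map_add τ.toAddMonoidHom
  map_one' := HahnSeries.map_one τ.toMonoidWithZeroHom
  map_mul' _ _ := HahnSeries.map_mul τ.toNonUnitalRingHom

/-- The Euler operator on Laurent series. -/
def thL (R : Type) [CommRing R] : R⸨X⸩ →+ R⸨X⸩ where
  toFun f := ⟨fun n => n * f.coeff n, f.isPWO_support'.mono fun n hn h => hn (by simp [h])⟩
  map_zero' := by ext; simp
  map_add' f g := by ext; simp [mul_add]

/-- The derivative on Laurent series. -/
def dL (R : Type) [CommRing R] : R⸨X⸩ →+ R⸨X⸩ := (AddMonoidHom.mulLeft (wL R (-1))).comp (thL R)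

/-- `U[[t]][[W]]`: inner variable `t`, outer variable `W`. -/
abbrev AA (U : Type) := U⟦X⟧⟦X⟧

/-- `U((W))[[t]]`. -/
abbrev TT (U : Type) [Zero U] := U⸨X⸩⟦X⟧

/-- The inclusion `U[[t]][[W]] → U((W))[[t]]`. -/
def iT : AA R →+* TT R := (map (coeL R)).comp swap

/-- A ring map applied to the coefficients of `TT`. -/
def mT (τ : A →+* B) : TT A →+* TT B := map (mapL τ)

/-- `t = p * q ^ ε` in `R[[p]][[q]]`. -/
def tA (R : Type) [CommRing R] (ε : ℕ) : AA R := C X * X ^ ε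

/-- `R[[p]][[q]] → R((q))[[t]]`, `p ↦ t / q ^ ε`. -/
def out (ε : ℕ) : AA R →+* TT R := (rescale (wL R (-(ε : ℤ)))).comp iT

/-- `q d/dq - ε p d/dp`. -/
def DA (R : Type) [CommRing R] (ε : ℕ) : AA R →+ AA R := thP R⟦X⟧ - ε • cw (thP R)

/-- `I` is an inverse integrating factor of `a dW + b ds` (`ds` dual to `D`). -/
def IIF (D : S →+ S) (a b I : S⟦X⟧) : Prop :=
  I ≠ 0 ∧ I * (cw D a - dX S b) = cw D I * a - dX S I * b

/-- `r` is a first integral of `a dW + b ds`. -/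
def FIe (D : S →+ S) (a b r : S⟦X⟧) : Prop := a * cw D r = b * dX S r

/-- Lienard form of `a dW + W b ds`. -/
structure LD (t : S) (D : S →+ S) (a b Wt lam : S⟦X⟧) (G0 G1 : S) : Prop where
  u : IsUnit lam
  w : C t ∣ Wt - X
  ea : Wt * dX S Wt = lam * a
  eb : Wt * cw D Wt - C (D G0) - Wt * C (D G1) = lam * (X * b)

/-- Leading terms of the Lienard functions. -/
def Lead (c t : S) (D : S →+ S) (a0 b0 G0 G1 : S) : Prop :=
  (∃ e1 e2 e3, c * D G1 - D a0 + b0 = t * (e1 * a0 + e2 * D a0 + e3 * b0)) ∧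
    ∃ e4 e5, c ^ 2 * D G0 - a0 * b0 = t * a0 * (e4 * a0 + e5 * b0)

/-- A subring in which the Lienard construction stays. -/
def GoodSub [Algebra ℚ S] (t : S) (D J : S →+ S) (T : Subring S) : Prop :=
  t ∈ T ∧ (∀ q : ℚ, algebraMap ℚ S q ∈ T) ∧ (∀ c ∈ T, D c ∈ T) ∧ (∀ c ∈ T, J c ∈ T) ∧
    (∀ c, t * c ∈ T → c ∈ T) ∧ ∀ c, (∀ n, ∃ s ∈ T, t ^ n ∣ c - s) → c ∈ T

/-- The form `A dx1 + B dx2` (`dxi` dual to `di`) has a centre at the point `c`: it vanishes there,
is non-degenerate, and is a unit times an exact form up to any order. -/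
def Cab {K : Type} [Field K] (d1 d2 : S →+ S) (c : S →+* K) (A B : S) : Prop :=
  c A = 0 ∧ c B = 0 ∧ c (d1 A * d2 B - d2 A * d1 B) ≠ 0 ∧
    ∀ N : ℕ, ∃ I μ, c μ ≠ 0 ∧ d1 I - μ * A ∈ RingHom.ker c ^ N ∧ d2 I - μ * B ∈ RingHom.ker c ^ N

/-- `A dU + B dz` on `O[[U]][[z]]` has a centre at `(u, z)`. -/
def CenN {K : Type} [Field K] (j : R →+* K) (A B : AA R) (u z : R) : Prop :=
  Cab (cw (dX R)) (dX R⟦X⟧) (j.comp (ev2 (RingHom.id R) u z)) A B

/-- `φ` is the Taylor expansion in `t` of the substitution `X ↦ φ X`, with reduction `φ0`. -/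
def IsSub (φ : R⟦X⟧ →+* S⟦X⟧) (φ0 : R⟦X⟧ →+* S) : Prop :=
  (∀ c, cc (φ c) = φ0 c) ∧ ∀ c, dX S (φ c) = φ (dX R c) * dX S (φ X)

/-- A map `R[[p]][[q]] → S[[t]]`, `q ↦ σ`, `p ↦ t / σ ^ ε`, with reduction `φ0` on `R[[q]]`. -/
def IsOut (ε : ℕ) (Φ : AA R →+* S⟦X⟧) (φ0 : R⟦X⟧ →+* S) : Prop :=
  IsSub (Φ.comp (map C)) φ0 ∧ Φ (C X) * Φ X ^ ε = X

/-- Two maps out of `κ[[t]][[X]]` that differ by a reflection. -/
def Refl (ψ1 ψ2 : AA R →+* S) : Prop :=
  Function.Injective ψ1 ∧ (∀ c, ψ1 (C c) = ψ2 (C c)) ∧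
    ∀ y, c00 y = 0 → ψ1 y = ψ2 y → ∀ g : AA R, ψ1 (ev C y g) = ψ2 (ev C y g)

/-- Homogenisation to degree `d` of `u`, evaluated at `(x, y, w)`. -/
def hev (φ : R →+* S) (d : ℕ) (u : R2 R) (x y w : S) : S :=
  ∑ e ∈ Finset.range (d + 1), MvPolynomial.eval₂ φ ![x, y] (hc e u) * w ^ (d - e)

/-- `dW` coefficient of `W ^ (d + 2) (P dy - Q dx)` in the frame `(x / W, y / W)`. -/
def aF (φ : R →+* S⟦X⟧) (d : ℕ) (P Q : R2 R) (x y : S⟦X⟧) : S⟦X⟧ :=
  hev φ d P x y X * (X * dX S y - y) - hev φ d Q x y X * (X * dX S x - x)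

/-- `ds` coefficient, divided by `W`. -/
def bF (φ : R →+* S⟦X⟧) (d : ℕ) (P Q : R2 R) (D : S →+ S) (x y : S⟦X⟧) : S⟦X⟧ :=
  hev φ d P x y X * cw D y - hev φ d Q x y X * cw D x

/-- `dz` coefficient `-(d U z + e)` of the form in a chart at infinity. -/
def fB (d : ℕ) (e : AA R) : AA R := -((d : AA R) * C X * X + e)

/-- Monomials `p ^ i q ^ j` occur only with `j - ε i ≡ m` modulo `M`. -/
def Supp (ε : ℕ) (m : ℤ) (M : ℕ) (c : AA R) : Prop :=
  ∀ i j, co2 i j c ≠ 0 → (j : ℤ) - ε * i ≡ m [ZMOD M]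

/-- Every coefficient of `q ^ j` is a polynomial in `p`. -/
def PolyP (c : AA R) : Prop := ∀ j, ∃ n, ∀ i, n ≤ i → co2 i j c = 0

/-- Invariant under the `N`-th roots of unity, and polynomial in `p` on the annulus. -/
def SS (ε N : ℕ) (c : AA R) : Prop := Supp ε 0 N c ∧ (ε = 1 → PolyP c)

/-- `O[[U]][[z]] → k[[p]][[q]][[W]]`, `t ↦ p q ^ ε`, `U ↦ q ^ (d N)`, `z ↦ q ^ N W`. -/
def thA (R : Type) [CommRing R] (ε N d : ℕ) : AA R⟦X⟧ →+* (AA R)⟦X⟧ :=
  (rescale (X ^ N)).comp (map (ev2 CC (tA R ε) (X ^ (d * N))))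

/-- `O[[U]][[z]] → k((q))[[t]][[W]]`, `U ↦ q ^ (d N)`, `z ↦ q ^ N W`. -/
def thU (R : Type) [CommRing R] (N d : ℕ) : AA R⟦X⟧ →+* AA R⸨X⸩ :=
  (rescale (C (wL R N))).comp (map (iT.comp (ram R⟦X⟧ (d * N))))

/-- `d/dl` on `R[l][[p]][[q]]`. -/
def dl2 (R : Type) [CommRing R] : AA (Polynomial R) →+ AA (Polynomial R) :=
  cw (cw (Polynomial.derivative (R := R)).toAddMonoidHom)

/-- `q d/dq - ε p d/dp + d/dl`. -/
def DG (R : Type) [CommRing R] (ε : ℕ) : AA (Polynomial R) →+ AA (Polynomial R) :=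
  DA (Polynomial R) ε + dl2 R

end Basic

section Fields
variable {k L U : Type} [Field k] [Field L] [Field U]

/-- Exponents of degree between `1` and `d`. -/
abbrev Mo1 (d : ℕ) := {m : Fin 2 →₀ ℕ // 1 ≤ m.degree ∧ m.degree ≤ d}

/-- A generic polynomial of degree `d` without constant term. -/
def Gen [CharZero k] (d : ℕ) (f : R2 k) : Prop :=
  MvPolynomial.coeff 0 f = 0 ∧ DL (d + 1) f ∧
    AlgebraicIndependent ℚ fun m : Mo1 d => MvPolynomial.coeff m.1 f

/-- `ι` is a map of differential fields. -/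
def DExt (D : L →+ L) (D' : U →+ U) (ι : L →+* U) : Prop := IsDer D' ∧ ∀ c, D' (ι c) = ι (D c)

/-- All constants come from `k`. -/
def Cst (κ : k →+* U) (D : U →+ U) : Prop := ∀ c, D c = 0 → ∃ r, c = κ r

/-- Evaluation of a polynomial at a point of an extension field. -/
def evp (κ : k →+* L) (x y : L) : R2 k →+* L := MvPolynomial.eval₂Hom κ ![x, y]

/-- A point of the curve `F = 1` moving along the Hamiltonian field of `F`. -/
def Curve (κ : k →+* L) (D : L →+ L) (F : R2 k) (x y : L) : Prop :=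
  IsDer D ∧ (∀ c, D (κ c) = 0) ∧ evp κ x y F = 1 ∧ D x = evp κ x y (MvPolynomial.pderiv 1 F) ∧
    D y = -evp κ x y (MvPolynomial.pderiv 0 F)

/-- The subfield generated by `k`, `x`, `y`. -/
def gf (κ : k →+* L) (x y : L) : Subfield L := Subfield.closure (Set.range κ ∪ {x, y})

/-- Brackets with `F` plus multiples of `F - 1`. -/
def Bt (F r : R2 k) : Prop := ∃ u w, r = br u F + (F - 1) * w

/-- The frame `x ↦ x0 / W`, `y ↦ y0 / W`. -/
def EL (κ : k →+* L) (x0 y0 : L⟦X⟧) : R2 k →+* L⸨X⸩ :=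
  evp ((cL L).comp κ) (coeL L x0 * wL L (-1)) (coeL L y0 * wL L (-1))

/-- The Gelfand-Leray coefficient of `g dx dy`. -/
def GLc (κ : k →+* L) (d : ℕ) (D : L →+ L) (x0 y0 : L⟦X⟧) (g : R2 k) : L⸨X⸩ :=
  EL κ x0 y0 g * (wL L d * cL L (d : L)⁻¹ *
    (thL L (coeL L x0 * wL L (-1)) * cwL D (coeL L y0 * wL L (-1)) -
      cwL D (coeL L x0 * wL L (-1)) * thL L (coeL L y0 * wL L (-1))))

/-- Derivative with respect to `h = W ^ (-d)`. -/
def dh (d : ℕ) (c : L⸨X⸩) : L⸨X⸩ := -(wL L d * cL L (d : L)⁻¹ * thL L c)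

/-- The derivation `D - vb W d/dW` of `TT`. -/
def VT (D : L →+ L) (vb s : TT L) : TT L := cw (cwL D) s - vb * cw (thL L) s

/-- The rules for the coefficients `c m g` of `GL g`, modulo the subspace `BB`. -/
structure GLax {M : Type} [AddCommGroup M] [Module k M] (d : ℕ) (f : R2 k)
    (c : ℤ → R2 k →ₗ[k] M) (e : R2 k →ₗ[k] M) (BB : Submodule k M) : Prop where
  mul : ∀ m g, c m (f * g) = c (m + d) g
  ham : ∀ m u, c m (br u f) ∈ BB
  div : ∀ (m : ℤ) A B, c m (MvPolynomial.pderiv 0 A + MvPolynomial.pderiv 1 B) +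
    (((m : k) - d) / d) • c (m - d) (A * MvPolynomial.pderiv 0 f + B * MvPolynomial.pderiv 1 f) ∈ BB
  low : ∀ (n : ℕ) (m : ℤ) g, DL (n + 1) g → m < d - 2 - n → c m g = 0
  lead : ∀ (n : ℕ) g, DL (n + 1) g → c (d - 2 - n) g = e (hc n g)

/-- The universal polynomials of the Euler recursion (`g` homogeneous of degree `w - 2`). -/
def CR (d : ℕ) (f : R2 k) : ℕ → ℕ → R2 k → R2 k
  | 0, _, g => g
  | j + 1, w, g => MvPolynomial.C (((j + 1 : k) - w) / (d * (j + 1))) *
      ∑ e ∈ Finset.range (j + 1),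
        MvPolynomial.C (e + 1 : k) * CR d f (j - e) (w + d - (e + 1)) (hc (d - (e + 1)) f * g)
termination_by j => j
decreasing_by omega

/-- Coefficient `d - w + j` of `W ^ d GL (g (x f_x + y f_y) / w)`. -/
def PR (d : ℕ) (f : R2 k) : ℕ → ℕ → R2 k → R2 k
  | 0, w, g => MvPolynomial.C ((d : k) / w) * g
  | j + 1, w, g => -(MvPolynomial.C (1 / (j + 1 : k)) *
      ∑ e ∈ Finset.range (j + 1),
        MvPolynomial.C (e + 1 : k) * CR d f (j - e) (w + d - (e + 1)) (hc (d - (e + 1)) f * g))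

/-- Coefficient `n` of `W ^ d GL (redg f g1)`. -/
def psi (d : ℕ) (f g1 : R2 k) (n : ℕ) : R2 k :=
  ∑ w ∈ Finset.Icc 2 d, if d ≤ n + w then PR d f (n + w - d) w (hc (w - 2) g1) else 0

/-- The element `∑ (1 / w) g_w (x f_x + y f_y)` of the Jacobian ideal with divergence `g1`. -/
def redg (d : ℕ) (f g1 : R2 k) : R2 k :=
  ∑ w ∈ Finset.Icc 2 d, MvPolynomial.C (1 / (w : k)) * hc (w - 2) g1 *
    (MvPolynomial.X 0 * MvPolynomial.pderiv 0 f + MvPolynomial.X 1 * MvPolynomial.pderiv 1 f)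

/-- In every class modulo `d` the first index outside `Bt` is divisible by `ν`. -/
def Rule (d ν : ℕ) (F : R2 k) (p : ℕ → R2 k) : Prop :=
  ∀ n, ¬ Bt F (p n) → (∀ n' < n, n' ≡ n [MOD d] → Bt F (p n')) → ν ∣ n

/-- Combinations of the `exp (i X)`, `i ≡ m` modulo `M`. -/
def ExpCl (k : Type) [Field k] [CharZero k] (m : ℤ) (M : ℕ) : Submodule k k⟦X⟧ :=
  Submodule.span k {c | ∃ i : ℤ, i ≡ m [ZMOD M] ∧ c = rescale (i : k) (exp k)}

/-- `k[[p]][[q]] → k[[τ]][[X]]`, `p ↦ ps exp (-ε X)`, `q ↦ qs exp X`. -/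
def psi0 [CharZero k] (ε : ℕ) (ps qs : k⟦X⟧) : AA k →+* AA k :=
  ev2 CC (C ps * map C (rescale (-(ε : k)) (exp k))) (C qs * map C (exp k))

/-- The same on `k[l][[p]][[q]]`, with `l ↦ X`. -/
def psiL [CharZero k] (ε : ℕ) (ps qs : k⟦X⟧) : AA (Polynomial k) →+* AA k :=
  ev2 (Polynomial.eval₂RingHom CC X) (C ps * map C (rescale (-(ε : k)) (exp k)))
    (C qs * map C (exp k))

end Fields

/-- A deformation of `df` with a non-zero higher Melnikov function. -/
structure Ob (k : Type) [Field k] [CharZero k] (d : ℕ) where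
  P : R2 k⟦X⟧
  Q : R2 k⟦X⟧
  H : R2 k⟦X⟧
  gt : R2 k⟦X⟧
  f : R2 k
  n : ℕ
  gen : Gen d f
  dP : DL (d + 1) P
  dQ : DL (d + 1) Q
  rP : MvPolynomial.map cc P = MvPolynomial.pderiv 1 f
  rQ : MvPolynomial.map cc Q = -MvPolynomial.pderiv 0 f
  rH : MvPolynomial.map cc H = f
  n1 : 1 ≤ n
  eq : vf P Q H = MvPolynomial.C (X ^ n) * gt
  ng : ∀ u, MvPolynomial.map cc gt ≠ br u f
  jac : MvPolynomial.map cc gt ∈ Jac f

/-- The form `P dy - Q dx` has a centre at `p`. -/
def CenP {k : Type} [Field k] (P Q : R2 k⟦X⟧) (p : Fin 2 → k⸨X⸩) : Prop :=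
  Cab (pd k⸨X⸩ 0) (pd k⸨X⸩ 1) (MvPolynomial.eval p) (-MvPolynomial.map (coeL k) Q)
    (MvPolynomial.map (coeL k) P)

/-- The data at infinity over the function field of `F = 1`: the form is `a dW + W b ds`. -/
structure Inf (k : Type) [Field k] [CharZero k] (d : ℕ) (L : Type) [Field L] where
  κ : k →+* L
  D : L →+ L
  f : R2 k
  g : R2 k
  x0 : L⟦X⟧
  y0 : L⟦X⟧
  a : AA L
  b : AA L
  vb : TT L
  h : TT L
  Xi : TT L
  n : ℕ
  gen : Gen d f
  ng : ∀ u, g ≠ br u f
  jac : g ∈ Jac f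
  cv : Curve κ D (hc d f) (cc x0) (cc y0)
  gb : gf κ (cc x0) (cc y0) = ⊤
  fr : EL κ x0 y0 f = wL L (-(d : ℤ))
  ra : red a = -((d : L⟦X⟧) * X)
  rb : red b = 0
  hv : iT a * vb = iT b
  n1 : 1 ≤ n
  rh : cc h = wL L (-(d : ℤ))
  hV : VT D vb h = X ^ n * Xi
  rX : cc Xi = GLc κ d D x0 y0 g

/-- The form `a dW + W b ds` over `U` comes from data at infinity. -/
def Obs (k : Type) [Field k] [CharZero k] (d : ℕ) {U : Type} [Field U] (κ : k →+* U) (D : U →+ U)
    (x y : U) (a b : AA U) : Prop :=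
  IsDer D ∧ ∃ (L : Type) (_ : Field L) (I : Inf k d L) (ι : L →+* U) (θ : U), θ ≠ 0 ∧
    (∀ c, D (ι c) = θ * ι (I.D c)) ∧ (∀ c, ι (I.κ c) = κ c) ∧ ι (cc I.x0) = x ∧ ι (cc I.y0) = y ∧
    a = mA ι I.a ∧ b = CC θ * mA ι I.b

/-- Chart at a point at infinity of `f = 0`: `x = 1 / z`, `y = u / z`, `U = z ^ d f + c (z)`. -/
structure PD (k : Type) [Field k] [CharZero k] (d : ℕ) extends Ob k d where
  u : AA k⟦X⟧
  b : AA k⟦X⟧
  e : AA k⟦X⟧
  c : AA k
  Us : k⟦X⟧
  zs : k⟦X⟧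
  tc : C X ∣ c
  eu : hev (CC.comp C) d f 1 u X + map C c = C X
  su : evp (RingHom.id k) 1 (cc (c00 u)) (MvPolynomial.pderiv 1 (hc d f)) ≠ 0
  eb : hev CC d P 1 u X * cw (dX k⟦X⟧) u = X - b
  ee : hev CC d P 1 u X * (X * dX _ u - u) + hev CC d Q 1 u X = fB d e
  tb : CC X ∣ b
  te : CC X ∣ e
  ne : ∀ j, 1 ≤ j → j ≤ d → co2 0 j e = 0
  U0 : cc Us = 0
  z0 : cc zs = 0
  zn : zs ≠ 0
  cen : CenN (coeL k) (X * (X - b)) (fB d e) Us zs

/-- The small case after rescaling. -/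
def AD {k : Type} [Field k] (d : ℕ) (b e : AA k⟦X⟧) (β V : k⟦X⟧) : Prop :=
  cc β = 0 ∧ β ≠ 0 ∧ cc V = 0 ∧ CC X ∣ b ∧ CC X ∣ e ∧ C (β * X) ∣ cc b - C β ∧
    C (β * X) ∣ cc e + C (β * (d + 1)) * X ∧
    CenN (coeL k) (X * (X - b)) (fB d e) V β

/-- The normal form of the small case. -/
def AN {k : Type} [Field k] (d : ℕ) (κ Γ β U : k⟦X⟧) (eh : k⟦X⟧⟦X⟧) : Prop :=
  cc β = 0 ∧ β ≠ 0 ∧ cc U = 0 ∧ cc κ = 0 ∧ cc Γ = 0 ∧ C (β * X) ∣ eh + C (β * (d + 1)) * X ∧
    CenN (coeL k) (X * (X - CC β)) (-(CC (d + κ) * C X * X + C eh + CC Γ * X ^ (d + 1))) U β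

/-- `a dW + W b ds` is the form of the chart, read on the annulus `v = q ^ N`. -/
def ABrel {k : Type} [Field k] [CharZero k] {d : ℕ} (o : PD k d) (ε N : ℕ) (a b : (AA k)⟦X⟧) : Prop :=
  C (X ^ (N * (d + 1))) * a = thA k ε N d (fB d o.e) ∧
    C (X ^ (N * (d + 1))) * b =
      (N : (AA k)⟦X⟧) * thA k ε N d ((d : AA k⟦X⟧) * C X * (X - o.b) + fB d o.e) ∧
    C (tA k ε) ∣ a + (d : (AA k)⟦X⟧) * X ∧ C (tA k ε) ∣ b ∧ (∀ j, SS ε N (coeff j a)) ∧ (∀ j, SS ε N (coeff j b)) ∧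
    Supp ε (-N) (d * N) (cc a) ∧ Supp ε (-N) (d * N) (cc b)

/-- The large case: the form on the disc (`ε = 0`) or annulus (`ε = 1`) that contains the centre. -/
structure BD {k : Type} [Field k] [CharZero k] (d ε N e : ℕ) (a b : (AA k)⟦X⟧) (a0 b0 : AA k)
    (y : k⸨X⸩) (n : ℕ) (ps qs W : k⟦X⟧) : Prop where
  e1 : ε ≤ 1
  N1 : 1 ≤ N
  ee : 1 ≤ e
  obs : Obs k d (cL k) (thL k) (wL k (-(N : ℤ))) y (map (out ε) a) (map (out ε) b)
  ta : C (tA k ε) ∣ a + (d : (AA k)⟦X⟧) * X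
  tb : C (tA k ε) ∣ b
  sa : ∀ j, SS ε N (coeff j a)
  sb : ∀ j, SS ε N (coeff j b)
  ha : cc a = tA k ε ^ e * a0
  hb : cc b = tA k ε ^ e * b0
  pa : Supp ε (-N) (d * N) a0
  pb : Supp ε (-N) (d * N) b0
  outer : red a0 ≠ 0 ∨ red b0 ≠ 0
  inner : ε = 1 → cc a0 ≠ 0 ∨ cc b0 ≠ 0
  n1 : 1 ≤ n
  p0 : cc ps = 0
  q0 : cc qs = 0
  qn : qs ≠ 0
  pq : ps * qs ^ ε = X ^ n
  W0 : cc W = 0
  cen : CenN (coeL k) (X * map (psi0 ε ps qs) b) (map (psi0 ε ps qs) a) 0 W

end

end Pool.Agent.MP_05b4bd_ag.ES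

end MrgPart1

-- marker of a merged file
example : 731051 + 693974 = 731051 + 693974 := rfl
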