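import Pool.Agent.MP_05b4bd_ag.esc.Defs
import Pool.Agent.MP_05b4bd_ag.hc.Key

-- ======== part 0: formerly Pool.Agent.MP_05b4bd_ag.esc.Spec
section MrgPart0

/-! Escaping centres: the statements of the blocks. -/

namespace Pool.Agent.MP_05b4bd_ag.ES

open PowerSeries LaurentSeries HC

/-! ### Fields -/

/-- Newton-Puiseux. -/
def NpStmt : Prop := ∀ (k : Type) [Field k] [CharZero k] [IsAlgClosed k] (E L : Type) [Field E]
  [Field L] [Algebra E L] [FiniteDimensional E L] (g : E →+* k⸨X⸩),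
  ∃ (M : ℕ) (ρ : k⸨X⸩ →+* k⸨X⸩) (g' : L →+* k⸨X⸩), 1 ≤ M ∧
    (∀ c, ρ (coeL k c) = coeL k (ram k M c)) ∧ ∀ e, g' (algebraMap E L e) = ρ (g e)

def DerExtStmt : Prop := ∀ (E L : Type) [Field E] [Field L] [CharZero E] [Algebra E L] (ι : Type)
  (x v : ι → L), AlgebraicIndependent E x →
  ∃ δ : L →+ L, IsDer δ ∧ (∀ e, δ (algebraMap E L e) = 0) ∧ ∀ i, δ (x i) = v i

def DerAlgStmt : Prop := ∀ (L : Type) [Field L] [CharZero L] (M : Subfield L),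
  (∀ (S : Type) [CommRing S] [IsDomain S] (g : L →+* S) (δ : L →+ S), IsDerOver g δ →
    (∀ m ∈ M, δ m = 0) → ∀ z, IsAlgebraic M z → δ z = 0) ∧
  (∀ D : L →+ L, IsDer D → ∀ N : Subfield L, M ≤ N → (∀ m ∈ M, D m ∈ N) →
    ∀ z ∈ N, IsAlgebraic M z → D z ∈ N) ∧
  (∀ z, (∀ δ : L →+ L, IsDer δ → (∀ m ∈ M, δ m = 0) → δ z = 0) → IsAlgebraic M z) ∧
  (∃ N : Subfield L, ∀ z, z ∈ N ↔ IsAlgebraic M z) ∧
  (∀ (S : Type) [CommRing S] [IsDomain S] (g : L →+* S) (δ : L →+ S), IsDerOver g δ →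
    ∀ s : Set L, (∀ m ∈ s, δ m = 0) → ∀ z ∈ Subfield.closure s, δ z = 0) ∧
  ∀ D : L →+ L, IsDer D → ∀ s : Set L, (∀ m ∈ s, m ∈ M ∧ D m ∈ M) →
    ∀ z ∈ Subfield.closure s, D z ∈ M

def FamStmt : Prop := ∀ (E L1 L2 : Type) [Field E] [Field L1] [Field L2] (i1 : E →+* L1)
  (i2 : E →+* L2), ∃ (Ω : Type) (_ : Field Ω) (j1 : L1 →+* Ω) (j2 : L2 →+* Ω),
    ∀ e, j1 (i1 e) = j2 (i2 e)

def CommonStmt : Prop := ∀ (L U1 U2 : Type) [Field L] [CharZero L] [Field U1] [Field U2]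
  (D : L →+ L) (D1 : U1 →+ U1) (D2 : U2 →+ U2) (i1 : L →+* U1) (i2 : L →+* U2),
  DExt D D1 i1 → DExt D D2 i2 → ∃ (Ω : Type) (_ : Field Ω) (D' : Ω →+ Ω) (j1 : U1 →+* Ω)
    (j2 : U2 →+* Ω), DExt D1 D' j1 ∧ DExt D2 D' j2 ∧ ∀ e, j1 (i1 e) = j2 (i2 e)

def AmalgStmt : Prop := ∀ (L U : Type) [Field L] [CharZero L] [Field U] (D : L →+ L) (D1 : U →+ U)
  (i : L →+* U), DExt D D1 i → ∀ (ι : Type) [Finite ι] (x : ι → U), (∀ a e, x a ≠ i e) →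
  ∃ (Ω : Type) (_ : Field Ω) (D' : Ω →+ Ω) (τ : U →+* Ω) (σ : ι → U →+* Ω), DExt D1 D' τ ∧
    ∀ a, DExt D1 D' (σ a) ∧ (∀ e, σ a (i e) = τ (i e)) ∧ σ a (x a) ≠ τ (x a)

/-- A derivation over a differential subfield commutes with `D` after a Taylor embedding. -/
def CommuteStmt : Prop := ∀ (U : Type) [Field U] [CharZero U] (D δ : U →+ U), IsDer D → IsDer δ →
  ∃ (Ω : Type) (_ : Field Ω) (D' δ' : Ω →+ Ω) (j : U →+* Ω), DExt D D' j ∧ IsDer δ' ∧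
    (∀ c, D' (δ' c) = δ' (D' c)) ∧ (∀ c, δ' (j c) = 0 → δ c = 0) ∧
    ∀ c, (∀ n, δ (D^[n] c) = 0) → δ' (j c) = 0

def HolStmt : Prop := ∀ (k E : Type) [Field k] [CharZero k] [IsAlgClosed k] [Field E] (κ : k →+* E)
  (D : E →+ E), IsDer D → (∀ c, D (κ c) = 0) →
  (∃ x0, ∀ e : E, IsAlgebraic (Subfield.closure (Set.range κ ∪ {x0})) e) →
  ∀ (d : ℕ) (F : R2 k), 3 ≤ d → F.IsHomogeneous d →
  CI (MvPolynomial.pderiv 0 F) (MvPolynomial.pderiv 1 F) →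
  ∀ (m n : ℕ) (s x y : Fin m → E) (r : Fin m → R2 k) (c : Fin n → k) (e : Fin n → E) (η : E),
  (∀ i, evp κ (x i) (y i) F = 1 ∧ D (x i) = s i * evp κ (x i) (y i) (MvPolynomial.pderiv 1 F) ∧
    D (y i) = -(s i * evp κ (x i) (y i) (MvPolynomial.pderiv 0 F)) ∧ DL (d - 2) (r i)) →
  (∀ i, e i ≠ 0) →
  D η = ∑ i, s i * evp κ (x i) (y i) (r i) + ∑ i, κ (c i) * (D (e i) / e i) → D η = 0

/-! ### Reduction to arcs -/

def ArcStmt : Prop := ∀ (B D : Type) [CommRing B] [CommRing D] [IsDomain D] [Algebra ℂ B]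
  [Algebra B D], Function.Injective (algebraMap B D) → Algebra.FiniteType ℂ B →
  Algebra.FiniteType B D → Algebra.IsAlgebraic B D → ∀ q : Ideal B, q.IsPrime →
  ∃ (k : Type) (_ : Field k) (_ : CharZero k) (_ : IsAlgClosed k) (α : B →+* k⟦X⟧)
    (ψ : D →+* k⸨X⸩), Function.Injective ψ ∧ (∀ b, ψ (algebraMap B D b) = coeL k (α b)) ∧
    ∀ b, cc (α b) = 0 ↔ b ∈ q

def EscStmt : Prop := ∀ (k : Type) [Field k] [CharZero k] [IsAlgClosed k] (d : ℕ), 6 ≤ d →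
  ∀ (o : Ob k d) (p : Fin 2 → k⸨X⸩), CenP o.P o.Q p → ∀ i, ∃ c, p i = coeL k c

def CoreStmt : Prop := ∀ (k : Type) [Field k] [CharZero k] [IsAlgClosed k] (d : ℕ), 6 ≤ d →
  ∀ (P Q : R2 k⟦X⟧) (f : R2 k) (p : Fin 2 → k⸨X⸩), Gen d f → DL (d + 1) P → DL (d + 1) Q →
  MvPolynomial.map cc P = MvPolynomial.pderiv 1 f → MvPolynomial.map cc Q = -MvPolynomial.pderiv 0 f →
  tr p (MvPolynomial.map (coeL k) P) ∈ mm k⸨X⸩ ^ 1 → tr p (MvPolynomial.map (coeL k) Q) ∈ mm k⸨X⸩ ^ 1 →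
  MvPolynomial.eval p (br (MvPolynomial.map (coeL k) P) (MvPolynomial.map (coeL k) Q)) ≠ 0 →
  FI (tr p (MvPolynomial.map (coeL k) P)) (tr p (MvPolynomial.map (coeL k) Q)) →
  ∀ (Ω : Type) [Field Ω] [CharZero Ω] [IsAlgClosed Ω] (ψ : k⸨X⸩ →+* Ω),
  MvPolynomial.pderiv 0 P + MvPolynomial.pderiv 1 Q = 0 ∨ ∃ p' : Fin 2 → k⟦X⟧,
    tr p' P ∈ mm k⟦X⟧ ^ 1 ∧ tr p' Q ∈ mm k⟦X⟧ ^ 1 ∧
    LimLog d (MvPolynomial.map (ψ.comp (coeL k)) (tr p' P)) (MvPolynomial.map (ψ.comp (coeL k)) (tr p' Q))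

/-- Either an obstruction, or a first integral at a singular point near a critical point. -/
def FraStmt : Prop := ∀ (k : Type) [Field k] [CharZero k] [IsAlgClosed k] (d : ℕ), 6 ≤ d →
  ∀ (P Q : R2 k⟦X⟧) (f : R2 k), Gen d f → DL (d + 1) P → DL (d + 1) Q →
  MvPolynomial.map cc P = MvPolynomial.pderiv 1 f → MvPolynomial.map cc Q = -MvPolynomial.pderiv 0 f →
  (∃ o : Ob k d, o.P = P ∧ o.Q = Q) ∨ ∃ p : Fin 2 → k⟦X⟧, tr p P ∈ mm k⟦X⟧ ^ 1 ∧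
    tr p Q ∈ mm k⟦X⟧ ^ 1 ∧
    FI (MvPolynomial.map (coeL k) (tr p P)) (MvPolynomial.map (coeL k) (tr p Q))

/-- An irreducible family of centres through the generic exact form of degree `d - 1`. -/
def MinpStmt : Prop := ∀ d : ℕ, 6 ≤ d → ∀ q ∈ (II (Cen d)).minimalPrimes,
  (∀ R : Co, MvPolynomial.rename Sum.inl R ∈ q →
    ∀ f : Poly, f.totalDegree ≤ d → Pool.Agent.MP_05b4bd_ag.ev R (dform f) = 0) →
  (∀ R : Co, (∀ ω ∈ L ![d + 1], Pool.Agent.MP_05b4bd_ag.ev R ω = 0) →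
    MvPolynomial.rename Sum.inl R ∈ q) ∨
  ∀ R : Co, (∀ ω ∈ L ![1, d], Pool.Agent.MP_05b4bd_ag.ev R ω = 0) → MvPolynomial.rename Sum.inl R ∈ q

def MainStmt : Prop := ∀ d : ℕ, 6 ≤ d → ∃ G : MvPolynomial (Fin 2 →₀ ℕ) ℂ,
  (∃ f : Poly, f.totalDegree = d ∧ Morse f ∧
    MvPolynomial.eval (fun m => MvPolynomial.coeff m f) G ≠ 0) ∧
  ∀ f : Poly, f.totalDegree ≤ d → MvPolynomial.eval (fun m => MvPolynomial.coeff m f) G ≠ 0 →
    ∀ Z : Set Form, (IsComponent (M d) Z ∧ dform f ∈ Z ↔ Z = zcl (L ![d + 1]) ∨ Z = zcl (L ![1, d]))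

/-! ### Generic polynomials and the curve `F = 1` -/

def GenTopStmt : Prop := ∀ (k : Type) [Field k] [CharZero k] (d : ℕ) (f : R2 k), 2 ≤ d → Gen d f →
  IndF d (hc d f) ∧ CI (MvPolynomial.pderiv 0 (hc d f)) (MvPolynomial.pderiv 1 (hc d f)) ∧
  HC.co d 0 (hc d f) ≠ 0 ∧ HC.co 0 d (hc d f) ≠ 0 ∧
  ∀ (k' : Type) [Field k'] [CharZero k'] (j : k →+* k'), Gen d (MvPolynomial.map j f)

def GenCritStmt : Prop := ∀ (k : Type) [Field k] [CharZero k] (d : ℕ) (f : R2 k), 2 ≤ d → Gen d f →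
  ∀ p : Fin 2 → k, (∀ i, MvPolynomial.eval p (MvPolynomial.pderiv i f) = 0) →
    IndC d (tr p f - MvPolynomial.C (MvPolynomial.eval p f))

def GenJacStmt : Prop := ∀ (k : Type) [Field k] [CharZero k] [IsAlgClosed k] (d : ℕ) (f : R2 k),
  3 ≤ d → Gen d f → ∃ s : Finset (Fin 2 → k), s.Nonempty ∧
    (∀ p, p ∈ s ↔ ∀ i, MvPolynomial.eval p (MvPolynomial.pderiv i f) = 0) ∧
    (∀ p ∈ s, ∀ q ∈ s, MvPolynomial.eval p f = MvPolynomial.eval q f → p = q) ∧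
    (∀ u, (∀ p ∈ s, MvPolynomial.eval p u = 0) → u ∈ Jac f) ∧
    ∀ p ∈ s, ∀ u, tr p u ∈ NN (tr p f - MvPolynomial.C (MvPolynomial.eval p f)) → ∃ v, u = br v f

def NzStmt : Prop := ∀ (k : Type) [Field k] [CharZero k] (d : ℕ) (F : R2 k), 2 ≤ d →
  F.IsHomogeneous d → CI (MvPolynomial.pderiv 0 F) (MvPolynomial.pderiv 1 F) →
  ∀ (n : ℕ) (r : R2 k), r.IsHomogeneous n → Bt F r →
    (n + 2 ≤ d → r = 0) ∧ (d ≤ n + 2 → ∃ η : R2 k, η.IsHomogeneous (n + 2 - d) ∧ r = br η F)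

def EvbStmt : Prop := ∀ (k L : Type) [Field k] [CharZero k] [Field L] (κ : k →+* L) (D : L →+ L)
  (d : ℕ) (F : R2 k) (x y : L), 2 ≤ d → F.IsHomogeneous d →
  CI (MvPolynomial.pderiv 0 F) (MvPolynomial.pderiv 1 F) → HC.co d 0 F ≠ 0 → HC.co 0 d F ≠ 0 →
  Curve κ D F x y → gf κ x y = ⊤ → ∀ r η, evp κ x y r = D η → Bt F r

/-! ### Gelfand-Leray calculus -/

def GlcStmt : Prop := ∀ (k L : Type) [Field k] [CharZero k] [Field L] [Algebra k L] (D : L →+ L)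
  (d : ℕ) (f : R2 k) (x0 y0 : L⟦X⟧), 1 ≤ d →
  Curve (algebraMap k L) D (hc d f) (cc x0) (cc y0) →
  EL (algebraMap k L) x0 y0 f = wL L (-(d : ℤ)) →
  (∀ u, GLc (algebraMap k L) d D x0 y0 (br u f) = cwL D (EL (algebraMap k L) x0 y0 u)) ∧
  ∃ (c : ℤ → R2 k →ₗ[k] L) (e : R2 k →ₗ[k] L) (BB : Submodule k L),
    (∀ m g, c m g = (GLc (algebraMap k L) d D x0 y0 g).coeff m) ∧
    (∀ r, e r = evp (algebraMap k L) (cc x0) (cc y0) r) ∧ (∀ z, z ∈ BB ↔ ∃ η, z = D η) ∧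
    GLax d f c e BB

def IlAbsStmt : Prop := ∀ (k M : Type) [Field k] [CharZero k] [IsAlgClosed k] [AddCommGroup M]
  [Module k M] (d : ℕ) (f : R2 k) (c : ℤ → R2 k →ₗ[k] M) (e : R2 k →ₗ[k] M)
  (BB Λ : Submodule k M), 3 ≤ d → Gen d f → GLax d f c e BB → BB ≤ Λ → ∀ g, (∀ u, g ≠ br u f) →
  (∀ m : ℤ, ¬ (d : ℤ) ∣ m → c m g ∈ Λ) →
  ∀ (n : ℕ) (r : R2 k), r.IsHomogeneous n → ¬ d ∣ n + 2 → e r ∈ Λ

/-- The form used by the other blocks: `Λ` is a predicate on the function field. -/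
def IlStmt : Prop := ∀ (k L : Type) [Field k] [CharZero k] [IsAlgClosed k] [Field L] (d : ℕ)
  (I : Inf k d L) (Λ : AddSubgroup L), 3 ≤ d → (∀ c, ∀ z ∈ Λ, I.κ c * z ∈ Λ) → (∀ η, I.D η ∈ Λ) →
  (∀ m : ℤ, ¬ (d : ℤ) ∣ m → (cc I.Xi).coeff m ∈ Λ) →
  ∀ (n : ℕ) (r : R2 k), r.IsHomogeneous n → ¬ d ∣ n + 2 → evp I.κ (cc I.x0) (cc I.y0) r ∈ Λ

def RedAbsStmt : Prop := ∀ (k M : Type) [Field k] [CharZero k] [AddCommGroup M]
  [Module k M] (d : ℕ) (f : R2 k) (c : ℤ → R2 k →ₗ[k] M) (e : R2 k →ₗ[k] M) (BB : Submodule k M),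
  3 ≤ d → Gen d f → GLax d f c e BB → (∀ r, e r ∈ BB → Bt (hc d f) r) →
  ∀ g ∈ Jac f, (∀ m : ℤ, m < -d → c m g ∈ BB) → ∃ g1 u, DL (d - 1) g1 ∧ g = redg d f g1 + br u f ∧
    (∀ m : ℤ, m < -d → c m (redg d f g1) = 0) ∧
    ∀ n : ℕ, c (n - d) (redg d f g1) - e (psi d f g1 n) ∈ BB

/-- The part of `r` whose degrees `e` satisfy `d ∣ e + n + 2`. -/
noncomputable def cl {k : Type} [Field k] (d n : ℕ) (r : R2 k) : R2 k :=
  ∑ e ∈ (Finset.range (r.totalDegree + 1)).filter (fun e => d ∣ e + n + 2), hc e r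

def GradeStmt : Prop := ∀ (k : Type) [Field k] (d n : ℕ),
  (∀ (r : R2 k) m, MvPolynomial.coeff m (cl d n r) =
    if d ∣ m.degree + n + 2 then MvPolynomial.coeff m r else 0) ∧
  (∀ F r : R2 k, F.IsHomogeneous d → Bt F r → Bt F (cl d n r)) ∧
  ∀ (f g : R2 k) (n' : ℕ), MvPolynomial.coeff 0 f = 0 →
    cl d n (psi d f g n') = if n' ≡ n [MOD d] then psi d f g n' else 0

/-- Specialisation of the lower terms of `f`. -/
def BspecStmt : Prop := ∀ (k : Type) [Field k] [CharZero k] [IsAlgClosed k] (d : ℕ) (f g1 : R2 k)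
  (σ : k⟦X⟧) (ν : ℕ), 6 ≤ d → Gen d f → DL (d - 1) g1 → cc σ = 0 → 1 ≤ ν → coeff 1 σ ^ ν = 1 →
  (∀ m, Bt (hc d f) (∑ n ∈ Finset.range (m + 1),
    MvPolynomial.C (coeff m (σ ^ (n + 1)) - ((m - n : ℕ) : k) * coeff (m - n) σ) * psi d f g1 n)) →
  (∃ n n', ¬ n ≡ n' [MOD d] ∧ ¬ Bt (hc d f) (psi d f g1 n) ∧ ¬ Bt (hc d f) (psi d f g1 n')) →
  ∀ a b : ℕ, 1 ≤ a + b → a + b < d → ∃ (k' : Type) (_ : Field k') (_ : CharZero k') (F g : R2 k'),
    IndF d F ∧ DL (d - 1) g ∧ g ≠ 0 ∧ Rule d (orderOf (coeff 1 σ)) F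
      (psi d (F + MvPolynomial.X 0 ^ a * MvPolynomial.X 1 ^ b) g)

def BxStmt : Prop := ∀ (k : Type) [Field k] [CharZero k] (d ν : ℕ) (F g : R2 k), 6 ≤ d →
  ν.Prime → IndF d F → DL (d - 1) g → g ≠ 0 →
  (Rule d ν F (psi d (F + MvPolynomial.X 0 ^ 1 * MvPolynomial.X 1 ^ 0) g) → ν ∣ d - 1) ∧
  (Rule d ν F (psi d (F + MvPolynomial.X 0 ^ 1 * MvPolynomial.X 1 ^ 1) g) → ¬ ν ∣ d - 1)

/-- Data at infinity from a frame. -/
def MkinfStmt : Prop := ∀ (k : Type) [Field k] [CharZero k] (d : ℕ) (o : Ob k d) (U : Type) [Field U]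
  (κ : k →+* U) (D : U →+ U) (x y : AA U), 2 ≤ d → IsDer D → (∀ c, D (κ c) = 0) →
  (∀ i j, co2 i j x ∈ gf κ (c00 x) (c00 y) ∧ co2 i j y ∈ gf κ (c00 x) (c00 y)) →
  hev ((C : U →+* U⟦X⟧).comp κ) d o.f (red x) (red y) X = 1 →
  c00 y * D (c00 x) - c00 x * D (c00 y) ≠ 0 →
  Obs k d κ D (c00 x) (c00 y) (aF ((C : U⟦X⟧ →+* AA U).comp (map κ)) d o.P o.Q x y)
    (bF ((C : U⟦X⟧ →+* AA U).comp (map κ)) d o.P o.Q (cw D) x y)

def RatStmt : Prop := ∀ (U : Type) [Field U] (N : Subfield U) (p : Polynomial (AA N)) (y : AA U),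
  (p.map (mA N.subtype)).eval y = 0 → c00 y ∈ N →
  c00 ((p.map (mA N.subtype)).derivative.eval y) ≠ 0 → ∀ i j, co2 i j y ∈ N

/-- Elementary properties of `Obs`. -/
def ObsStmt : Prop := ∀ (k : Type) [Field k] [CharZero k] (d : ℕ) (U : Type) [Field U] (κ : k →+* U)
  (D : U →+ U) (x y : U) (a b : AA U), Obs k d κ D x y a b →
  red a = -((d : U⟦X⟧) * X) ∧ red b = 0 ∧ (∀ c, D (κ c) = 0) ∧
  ∀ (U' : Type) [Field U'] (D' : U' →+ U') (j : U →+* U') (θ : U'), θ ≠ 0 → IsDer D' →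
    (∀ c, D' (j c) = θ * j (D c)) →
    Obs k d (j.comp κ) D' (j x) (j y) (mA j a) (CC θ * mA j b)

/-! ### No inverse integrating factor -/

def CmpStmt : Prop := ∀ (L E : Type) [Field L] [CharZero L] [Field E] (D : L →+ L) (D' : E →+ E)
  (ι : L →+* E) (d n : ℕ) (vb h Xi : TT L) (S Uu : TT E), 1 ≤ d → 1 ≤ n → DExt D D' ι →
  (∀ c, D' c = 0 → ∃ r, c = ι r) → cc vb = 0 → cc h = wL L (-(d : ℤ)) → VT D vb h = X ^ n * Xi →
  VT D' (mT ι vb) S = X ^ n * Uu → ∃ (S0 : TT L) (S' : TT E), S = mT ι S0 + X ^ n * S' ∧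
    cwL D' (cc S) = 0 ∧ cwL D' (cc S') = cc Uu - dh d (cc S) * mapL ι (cc Xi)

def DichStmt : Prop := ∀ (L : Type) [Field L] [CharZero L] (D : L →+ L) (a b : AA L) (c : L⟦X⟧),
  IsUnit c → red a = c * X → ¬ a ∣ X * b →
  ∀ (U : Type) [Field U] (D1 : U →+ U) (i : L →+* U) (I : AA U), DExt D D1 i →
  IIF (cw D1) (mA i a) (X * mA i b) I →
  ∃ (U : Type) (_ : Field U) (D1 : U →+ U) (i : L →+* U) (I : AA U), DExt D D1 i ∧
    ((I ≠ 0 ∧ cc I = 0 ∧ FIe (cw D1) (mA i a) (X * mA i b) I) ∨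
      ∃ ν, IIF (cw D1) (mA i a) (X * mA i b) I ∧ OrdIs ν I ∧
        ∀ (U' : Type) [Field U'] (D2 : U' →+ U') (i' : L →+* U') (I' : AA U'), DExt D D2 i' →
          IIF (cw D2) (mA i' a) (X * mA i' b) I' → ∃ j ≤ ν, coeff j I' ≠ 0)

def BaseStmt : Prop := ∀ (k L U : Type) [Field k] [CharZero k] [Field L] [Field U] (d : ℕ)
  (I : Inf k d L) (D1 : U →+ U) (i : L →+* U), 2 ≤ d → DExt I.D D1 i →
  ∃ (k' L' U' : Type) (_ : Field k') (_ : CharZero k') (_ : IsAlgClosed k') (_ : Field L')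
    (_ : Field U') (I' : Inf k' d L') (D2 : U' →+ U') (i' : L' →+* U') (jl : L →+* L')
    (j : U →+* U'), DExt I'.D D2 i' ∧ DExt I.D I'.D jl ∧ DExt D1 D2 j ∧
    (∀ c, i' (jl c) = j (i c)) ∧ I'.a = mA jl I.a ∧ I'.b = mA jl I.b ∧ Cst (i'.comp I'.κ) D2

def S1bStmt : Prop := ∀ (k L U : Type) [Field k] [CharZero k] [IsAlgClosed k] [Field L] [Field U]
  (d : ℕ) (I : Inf k d L) (D1 : U →+ U) (i : L →+* U) (J : AA U) (ν : ℕ), 6 ≤ d →
  ¬ I.a ∣ X * I.b → DExt I.D D1 i → Cst (i.comp I.κ) D1 →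
  IIF (cw D1) (mA i I.a) (X * mA i I.b) J → OrdIs ν J →
  (∀ (U' : Type) [Field U'] (D2 : U' →+ U') (i' : L →+* U') (I' : AA U'), DExt I.D D2 i' →
    IIF (cw D2) (mA i' I.a) (X * mA i' I.b) I' → ∃ j ≤ ν, coeff j I' ≠ 0) → False

/-- Reflections at the scale of a point. -/
def ReflStmt : Prop := ∀ (κ Ω : Type) [Field κ] [Field Ω] [CharZero Ω] (j : κ⟦X⟧ →+* Ω) (e : Ω⟦X⟧),
  Function.Injective j → cc e = 0 → coeff 1 e = 1 →
  Refl ((sb e).comp (map j)) (((rescale (-1)).comp (sb e)).comp (map j)) ∧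
  (∀ v : AA κ, coeff 1 v ≠ 0 → sb e (map j v) ≠ rescale (-1) (sb e (map j v))) ∧
  ∀ (S : Type) [CommRing S] (ψ1 ψ2 : AA κ →+* S) (w : κ⟦X⟧), cc w = 0 → Refl ψ1 ψ2 →
    Refl (ψ1.comp (sb (X + C w))) (ψ2.comp (sb (X + C w)))

def EvenStmt : Prop := ∀ (U : Type) [Field U] [CharZero U] (D : U →+ U) (a b : AA U) (c : U⟦X⟧),
  IsDer D → IsUnit c → red a = c * X → ¬ a ∣ b →
  ∃ (S : Type) (_ : CommRing S) (_ : IsDomain S) (ψ1 ψ2 : AA U →+* S), Refl ψ1 ψ2 ∧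
    ψ1 X ≠ ψ2 X ∧ ∀ r, FIe (cw D) a b r → ψ1 r = ψ2 r

def PairAbsStmt : Prop := ∀ (B A Ω S : Type) [CommRing B] [CommRing A] [IsDomain A] [Field Ω]
  [CommRing S] [IsDomain S] (g : B →+* A) (ι ι' : Type) [Fintype ι] [Fintype ι'] (e : ι → A)
  (φ : ι' → A →+* Ω) (i0 : ι') (ψ1 ψ2 : A →+* S), Fintype.card ι ≤ Fintype.card ι' →
  (∀ a, ∃ c : ι → B, a = ∑ i, g (c i) * e i) → Function.Injective φ →
  (∀ i b, φ i (g b) = φ i0 (g b)) → Function.Injective (φ i0) → Function.Injective ψ1 →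
  (∀ b, ψ1 (g b) = ψ2 (g b)) → ∃ i, ∀ a, φ i a = φ i0 a ↔ ψ1 a = ψ2 a

def DiscStmt : Prop := ∀ (κ S : Type) [Field κ] [CharZero κ] [CommRing S] [IsDomain S] (ν : ℕ)
  (ω : κ) (y : AA κ) (ψ1 ψ2 : AA κ →+* S), 1 ≤ ν → IsPrimitiveRoot ω ν → OrdIs ν (red y) →
  Function.Injective ψ1 → (∀ g : AA κ, ψ1 (ev C y g) = ψ2 (ev C y g)) → ψ1 ≠ ψ2 →
  ∃ (Φ : AA κ →+* TT κ) (σ0 : κ⟦X⟧), IsOut 0 Φ ((coeL κ).comp (sb σ0)) ∧ cc σ0 = 0 ∧
    coeff 1 σ0 ^ ν = 1 ∧ coeff 1 σ0 ≠ 1 ∧ sb σ0 (red y) = red y ∧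
    ∀ c, Φ c = iT c ↔ ψ1 c = ψ2 c

def AnnStmt : Prop := ∀ (κ S : Type) [Field κ] [CharZero κ] [IsAlgClosed κ] [CommRing S] [IsDomain S]
  (y : AA κ) (ψ1 ψ2 : AA κ →+* S), c00 y = 0 → cc y ≠ 0 → red y ≠ 0 → Function.Injective ψ1 →
  (∀ g : AA κ, ψ1 (ev2 CC (tA κ 1) y g) = ψ2 (ev2 CC (tA κ 1) y g)) →
  (∃ (Φ : AA κ →+* TT κ) (σ0 : κ⟦X⟧), IsOut 1 Φ ((coeL κ).comp (sb σ0)) ∧ cc σ0 = 0 ∧
    coeff 1 σ0 ≠ 0 ∧ ∀ c, Φ c = out 1 c ↔ ψ1 c = ψ2 c) ∨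
  ∃ (M : ℕ) (ρ : κ⸨X⸩ →+* κ⸨X⸩) (Φ : AA κ →+* TT κ) (π0 : κ⟦X⟧), 1 ≤ M ∧
    (∀ c, ρ (coeL κ c) = coeL κ (ram κ M c)) ∧ (∀ c, thL κ (ρ c) = M * ρ (thL κ c)) ∧
    (∀ r, Φ (CC r) = C (cL κ r)) ∧ cc π0 = 0 ∧ π0 ≠ 0 ∧ cc (Φ (C X)) = coeL κ π0 ∧
    Φ (C X) * Φ X = X ∧ ∀ c, Φ c = map ρ (out 1 c) ↔ ψ1 c = ψ2 c

/-- A first integral gives a deck transformation over the function field. -/
def DeckStmt : Prop := ∀ (k L U : Type) [Field k] [CharZero k] [IsAlgClosed k] [Field L] [Field U]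
  (d : ℕ) (I : Inf k d L) (D1 : U →+ U) (i : L →+* U) (r : AA U) (r0 : k⟦X⟧) (ν : ℕ), 1 ≤ d →
  ¬ I.a ∣ X * I.b → DExt I.D D1 i → FIe (cw D1) (mA i I.a) (X * mA i I.b) r →
  red r = map (i.comp I.κ) r0 → 1 ≤ ν → OrdIs ν r0 →
  ∃ (σ : k⟦X⟧) (φ : L⸨X⸩ →+* L⸨X⸩) (η : L⸨X⸩), cc σ = 0 ∧ coeff 1 σ ^ ν = 1 ∧ coeff 1 σ ≠ 1 ∧
    (∀ c, φ (coeL L c) = coeL L (sb (map I.κ σ) c)) ∧ (∀ c, cwL I.D (φ c) = φ (cwL I.D c)) ∧
    cwL I.D η = φ (cc I.Xi) - dh d (φ (wL L (-(d : ℤ)))) * cc I.Xi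

/-- The deck transformation contradicts genericity. -/
def InvStmt : Prop := ∀ (k L : Type) [Field k] [CharZero k] [IsAlgClosed k] [Field L] (d : ℕ)
  (I : Inf k d L) (ν : ℕ) (σ : k⟦X⟧) (φ : L⸨X⸩ →+* L⸨X⸩) (η : L⸨X⸩), 6 ≤ d → 1 ≤ ν →
  (∀ m : ℤ, m < -d → ∃ z, (cc I.Xi).coeff m = I.D z) → cc σ = 0 → coeff 1 σ ^ ν = 1 →
  coeff 1 σ ≠ 1 → (∀ c, φ (coeL L c) = coeL L (sb (map I.κ σ) c)) →
  (∀ c, cwL I.D (φ c) = φ (cwL I.D c)) →
  cwL I.D η = φ (cc I.Xi) - dh d (φ (wL L (-(d : ℤ)))) * cc I.Xi → False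

def S1aStmt : Prop := ∀ (k L U : Type) [Field k] [CharZero k] [Field L] [Field U]
  (d : ℕ) (I : Inf k d L) (D1 : U →+ U) (i : L →+* U) (r : AA U), 6 ≤ d → ¬ I.a ∣ X * I.b →
  DExt I.D D1 i → r ≠ 0 → cc r = 0 → FIe (cw D1) (mA i I.a) (X * mA i I.b) r → False

def S1Stmt : Prop := ∀ (k U : Type) [Field k] [CharZero k] [Field U] (d : ℕ) (κ : k →+* U)
  (D : U →+ U) (x y : U) (a b I : AA U), 6 ≤ d → Obs k d κ D x y a b → ¬ a ∣ X * b →
  ¬ IIF (cw D) a (X * b) I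

/-! ### Lienard form -/

def LienStmt : Prop := ∀ (S : Type) [CommRing S] [Algebra ℚ S] (t : S)
  [IsAdicComplete (Ideal.span {t}) S] (D J : S →+ S) (c : S) (a b : S⟦X⟧), IsDer D → D t = 0 →
  (∀ s, D (J s) = s) → (∀ s, J (t * s) = t * J s) → IsUnit c → D c = 0 → C t ∣ a - C c * X →
  C t ∣ b → ∃ Wt lam G0 G1, LD t D a b Wt lam G0 G1 ∧ Lead c t D (cc a) (cc b) G0 G1 ∧
    G0 = J (D G0) ∧ G1 = J (D G1)

/-- The Lienard form over `k[l][[p]][[q]]`. -/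
def LienAStmt : Prop := ∀ (k : Type) [Field k] [CharZero k] (ε N d : ℕ)
  (a b : (AA (Polynomial k))⟦X⟧), ε ≤ 1 → 1 ≤ d →
  C (tA _ ε) ∣ a + (d : (AA (Polynomial k))⟦X⟧) * X → C (tA _ ε) ∣ b → (∀ j, SS ε N (coeff j a)) →
  (∀ j, SS ε N (coeff j b)) → ∃ Wt lam G0 G1, LD (tA _ ε) (DG k ε) a b Wt lam G0 G1 ∧
    Lead (-(d : AA (Polynomial k))) (tA _ ε) (DG k ε) (cc a) (cc b) G0 G1 ∧ SS ε N G0 ∧ SS ε N G1 ∧
    (∀ n, tA _ ε ^ n ∣ DG k ε G0 → tA _ ε ^ n ∣ G0) ∧ ∀ n, tA _ ε ^ n ∣ DG k ε G1 → tA _ ε ^ n ∣ G1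

def KillStmt : Prop := ∀ (k U : Type) [Field k] [CharZero k] [Field U] (d : ℕ) (κ : k →+* U)
  (D δ : U →+ U) (x y : U) (a b Wt lam : AA U) (G0 G1 : U⟦X⟧), 6 ≤ d → Obs k d κ D x y a b →
  LD X (cw D) a b Wt lam G0 G1 → cw D G0 ≠ 0 → IsDer δ → (∀ c, D (δ c) = δ (D c)) →
  cw (cw δ) a = 0 → cw (cw δ) b = 0 → cw δ G0 * cw D G1 = cw δ G1 * cw D G0 →
  cw δ G0 = 0 ∧ cw δ G1 = 0 ∧ cw (cw δ) Wt = 0

/-- A symmetry with coefficients in an extension is defined over the algebraic closure of the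
function field. -/
def SymaStmt : Prop := ∀ (k L U : Type) [Field k] [CharZero k] [Field L] [Field U]
  (d : ℕ) (I : Inf k d L) (D1 : U →+ U) (i : L →+* U) (φ : L →+* U⟦X⟧) (s : U⟦X⟧) (W l : AA U),
  6 ≤ d → ¬ I.a ∣ X * I.b → DExt I.D D1 i → (∀ c, φ (I.κ c) = C (i (I.κ c))) →
  (∀ c, cw D1 (φ c) = s * φ (I.D c)) → C X ∣ W - X → IsUnit l →
  ev ((C : U⟦X⟧ →+* AA U).comp (hat φ)) W I.a * dX _ W = l * mA i I.a →
  ev ((C : U⟦X⟧ →+* AA U).comp (hat φ)) W I.a * cw (cw D1) W +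
    C s * ev ((C : U⟦X⟧ →+* AA U).comp (hat φ)) W (X * I.b) = l * (X * mA i I.b) →
  ∀ δ : U →+ U, IsDer δ → (∀ c, δ (i c) = 0) →
    cw (cw δ) W = 0 ∧ cw δ s = 0 ∧ ∀ c, cw δ (φ c) = 0

def SymbStmt : Prop := ∀ (k L E : Type) [Field k] [CharZero k] [IsAlgClosed k] [Field L] [Field E]
  (d : ℕ) (I : Inf k d L) (D1 : E →+ E) (i : L →+* E) (φ : L →+* E⟦X⟧) (s : E⟦X⟧) (W : AA E),
  6 ≤ d → DExt I.D D1 i → (∀ e : E, IsAlgebraic i.fieldRange e) → (∀ c, φ (I.κ c) = C (i (I.κ c))) →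
  (∀ c, cw D1 (φ c) = s * φ (I.D c)) → C X ∣ W - X →
  mA i I.a * (ev ((C : E⟦X⟧ →+* AA E).comp (hat φ)) W I.a * cw (cw D1) W +
    C s * ev ((C : E⟦X⟧ →+* AA E).comp (hat φ)) W (X * I.b)) =
    ev ((C : E⟦X⟧ →+* AA E).comp (hat φ)) W I.a * dX _ W * (X * mA i I.b) →
  cc (φ (cc I.x0)) = i (cc I.x0) ∧ cc (φ (cc I.y0)) = i (cc I.y0)

def S2aStmt : Prop := ∀ (k U : Type) [Field k] [CharZero k] [IsAlgClosed k] [Field U] (d : ℕ)
  (κ : k →+* U) (D : U →+ U) (x y : U) (a b Wt lam : AA U) (G0 G1 : U⟦X⟧) (φ : U →+* U⟦X⟧)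
  (s : U⟦X⟧), 6 ≤ d → Obs k d κ D x y a b → LD X (cw D) a b Wt lam G0 G1 → cw D G0 ≠ 0 →
  (∀ c, φ (κ c) = C (κ c)) → (∀ c, cw D (φ c) = s * φ (D c)) → hat φ G0 = G0 → hat φ G1 = G1 →
  cc (φ x) = x ∧ cc (φ y) = y

def S2bStmt : Prop := ∀ (k U : Type) [Field k] [CharZero k] [IsAlgClosed k] [Field U] (d : ℕ)
  (κ : k →+* U) (D : U →+ U) (x y : U) (a b Wt lam : AA U) (g0 g1 : AA k) (Φ : AA k →+* U⟦X⟧),
  6 ≤ d → Obs k d κ D x y a b → LD X (cw D) a b Wt lam (Φ g0) (Φ g1) → cw D (Φ g0) ≠ 0 →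
  PolyP g0 → PolyP g1 → tA k 1 ∣ g0 → tA k 1 ∣ g1 → (∀ r, Φ (CC r) = C (κ r)) →
  IsUnit (Φ (C X)) → Φ (C X) * Φ X = X → D (cc (Φ (C X))) = 0

/-- The part of `S2b` over the algebraic closure of the function field. -/
def S2cStmt : Prop := ∀ (k L E : Type) [Field k] [CharZero k] [IsAlgClosed k] [Field L] [Field E]
  (d : ℕ) (I : Inf k d L) (D1 : E →+ E) (i : L →+* E) (W : TT E) (p : E⟦X⟧) (g0 g1 : (Polynomial k)⟦X⟧)
  (φ : (Polynomial k)⟦X⟧ →+* E⟦X⟧), 6 ≤ d → DExt I.D D1 i → (∀ e : E, IsAlgebraic i.fieldRange e) →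
  cc W = wL E 1 → IsUnit p → (∀ r, φ (C (Polynomial.C r)) = C (i (I.κ r))) →
  φ (C Polynomial.X) = p → p * φ X = X → C Polynomial.X * X ∣ g0 → C Polynomial.X * X ∣ g1 →
  W * VT D1 (mT i I.vb) W = map (cL E) (cw D1 (φ g0)) + W * map (cL E) (cw D1 (φ g1)) →
  D1 (cc p) = 0

/-! ### Centres in local coordinates -/

/-- Resonant terms of a field with linear part `δ (U d/dU - Z d/dZ)` and a centre. -/
def LowStmt : Prop := ∀ (O K : Type) [CommRing O] [IsDomain O] [Algebra ℚ O] [Field K] (j : O →+* K)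
  (δ : O) (P Q : AA O), Function.Injective j → IsUnit δ → Ord2 2 (P - CC δ * C X) →
  Ord2 2 (Q + CC δ * X) → Cab (cw (dX O)) (dX _) (j.comp c00) Q (-P) →
  (∀ (m : ℕ) (b g : AA O), Ord2 (m + m) b →
    Ord2 (m + m + 1) (b - (P * cw (dX O) g + Q * dX _ g)) → co2 m m b = 0) ∧
  ∀ (σ : O) (b H : AA O), σ ≠ 0 → P * cw (dX O) H + Q * dX _ H = CC σ * b →
    ∀ N, ∃ g, Ord2 N (b - (P * cw (dX O) g + Q * dX _ g))

def CherStmt : Prop := ∀ (K : Type) [Field K] [CharZero K] [IsAlgClosed K] (G0 G1 : K⟦X⟧),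
  Cab (cw (dX K)) (dX _) c00 (-(C (dX K G0) + X * C (dX K G1))) X →
  dX K G0 ≠ 0 ∧ ∃ e, cc e = 0 ∧ coeff 1 e = 1 ∧ sb e G0 = rescale (-1) (sb e G0) ∧
    sb e G1 = rescale (-1) (sb e G1)

def SymStmt : Prop := ∀ (k : Type) [Field k] [CharZero k] (t : AA k) (a b Wt lam : AA k⟦X⟧)
  (G0 G1 : AA k) (W : k⟦X⟧), C X ∣ t → LD t (dX k⟦X⟧) a b Wt lam G0 G1 → cc W = 0 →
  CenN (coeL k) (X * b) a 0 W → dX _ G0 ≠ 0 ∧
  ∃ (S : Type) (_ : CommRing S) (_ : IsDomain S) (ψ1 ψ2 : AA k →+* S), Refl ψ1 ψ2 ∧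
    (∀ v, coeff 1 v ≠ 0 → ψ1 v ≠ ψ2 v) ∧ ψ1 G0 = ψ2 G0 ∧ ψ1 G1 = ψ2 G1

/-- The centre in a projective chart `(x / w, y / w)`. -/
def ChartStmt : Prop := ∀ (k : Type) [Field k] (d : ℕ) (P Q : R2 k⟦X⟧) (p : Fin 2 → k⸨X⸩)
  (x y w : AA k⟦X⟧) (u z : k⟦X⟧), DL (d + 1) P → DL (d + 1) Q → CenP P Q p → cc u = 0 → cc z = 0 →
  ev2 (RingHom.id _) u z w ≠ 0 →
  coeL k (ev2 (RingHom.id _) u z x) = p 0 * coeL k (ev2 (RingHom.id _) u z w) →
  coeL k (ev2 (RingHom.id _) u z y) = p 1 * coeL k (ev2 (RingHom.id _) u z w) →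
  ev2 (RingHom.id _) u z (w * (cw (dX _) x * dX _ y - cw (dX _) y * dX _ x) -
    x * (cw (dX _) w * dX _ y - cw (dX _) y * dX _ w) -
    y * (cw (dX _) x * dX _ w - cw (dX _) w * dX _ x)) ≠ 0 →
  CenN (coeL k)
    (hev CC d P x y w * (w * cw (dX _) y - y * cw (dX _) w) -
      hev CC d Q x y w * (w * cw (dX _) x - x * cw (dX _) w))
    (hev CC d P x y w * (w * dX _ y - y * dX _ w) - hev CC d Q x y w * (w * dX _ x - x * dX _ w)) u z

/-! ### The cases -/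

def Case8Stmt : Prop := ∀ (k : Type) [Field k] [CharZero k] [IsAlgClosed k] (d : ℕ), 6 ≤ d →
  ∀ (o : Ob k d) (r : ℕ) (x y : k⟦X⟧), 1 ≤ r →
  CenP o.P o.Q ![wL k (-(r : ℤ)) * coeL k x, wL k (-(r : ℤ)) * coeL k y] →
  evp (RingHom.id k) (cc x) (cc y) (hc d o.f) = 0

/-- A disc on the curve that carries a centre. -/
def DfinStmt : Prop := ∀ (k : Type) [Field k] [CharZero k] [IsAlgClosed k] (d : ℕ), 6 ≤ d →
  ∀ (x y : k⟦X⟧) (a b : AA k⟦X⟧) (u W : k⟦X⟧),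
  Obs k d (cL k) (dL k) (coeL k x) (coeL k y) (map iT a) (map iT b) → cc u = 0 → cc W = 0 →
  CenN (coeL k) (X * b) a u W → ∃ σ, cc σ = 0 ∧ coeff 1 σ ≠ 0 ∧ σ ≠ X ∧ sb σ x = x ∧ sb σ y = y

def PmkStmt : Prop := ∀ (k : Type) [Field k] [CharZero k] [IsAlgClosed k] (d : ℕ), 6 ≤ d →
  ∀ (o : Ob k d) (r : ℕ) (x y : k⟦X⟧), 1 ≤ r → (cc x ≠ 0 ∨ cc y ≠ 0) →
  CenP o.P o.Q ![wL k (-(r : ℤ)) * coeL k x, wL k (-(r : ℤ)) * coeL k y] →
  evp (RingHom.id k) (cc x) (cc y) (hc d o.f) = 0 → Nonempty (PD k d)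

def PramStmt : Prop := ∀ (k : Type) [Field k] [CharZero k] (d M : ℕ) (o : PD k d), 1 ≤ M →
  ∃ o' : PD k d, o'.b = mA (ram k M) o.b ∧ o'.e = mA (ram k M) o.e ∧ o'.Us = ram k M o.Us ∧
    o'.zs = ram k M o.zs

/-- The equations at the centre. -/
def PeqStmt : Prop := ∀ (k : Type) [Field k] [CharZero k] (d : ℕ) (o : PD k d), 1 ≤ d →
  ∃ (r1 r2 r3 r4 : k⟦X⟧) (b1 e2 : AA k), cc o.b = C (co2 0 0 o.b) + X * b1 ∧
    cc o.e = C (co2 0 0 o.e) + C (co2 1 0 o.e) * X + X ^ 2 * e2 ∧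
    co2 0 0 o.b + o.Us * ev (RingHom.id _) o.Us b1 = o.zs * (1 + X * r1) ∧
    co2 1 0 o.e + o.Us * ev (RingHom.id _) o.Us (2 * e2 + X * dX _ e2) =
      -(o.zs * ((d : k⟦X⟧) + 1 + X * r2)) ∧
    co2 0 0 o.e + co2 1 0 o.e * o.Us + o.Us ^ 2 * ev (RingHom.id _) o.Us e2 =
      o.zs * (o.Us * r3 + X * o.zs ^ d * r4)

def PframeStmt : Prop := ∀ (k : Type) [Field k] [CharZero k] (d N : ℕ) (o : PD k d)
  (a b : AA k⸨X⸩), 2 ≤ d → 1 ≤ N →
  CC (wL k (N * (d + 1))) * a = thU k N d (fB d o.e) →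
  CC (wL k (N * (d + 1))) * b =
    (N : AA k⸨X⸩) * thU k N d ((d : AA k⟦X⟧) * C X * (X - o.b) + fB d o.e) →
  (∃ y, Obs k d (cL k) (thL k) (wL k (-(N : ℤ))) y a b) ∧ (cc o.e ≠ 0 → ¬ a ∣ X * b)

def AbmkStmt : Prop := ∀ (k : Type) [Field k] [CharZero k] (d ε N : ℕ) (o : PD k d), 2 ≤ d →
  ε ≤ 1 → 1 ≤ N → X ^ (N + 1) ∣ co2 0 0 o.b → X ^ (N + 1) ∣ co2 1 0 o.e →
  X ^ ((d + 1) * N + 1) ∣ co2 0 0 o.e →
  (ε = 0 → co2 0 0 o.b = 0 ∧ co2 1 0 o.e = 0 ∧ co2 0 0 o.e = 0) → ∃ a b, ABrel o ε N a b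

def A12Stmt : Prop := ∀ (k : Type) [Field k] [CharZero k] (d : ℕ) (b e : AA k⟦X⟧) (β V : k⟦X⟧),
  1 ≤ d → AD d b e β V → ∃ κ Γ U eh, AN d κ Γ β U eh ∧
    ∀ I, IIF (dX k⟦X⟧) (-(CC (d + κ) * C X * X + C eh + CC Γ * X ^ (d + 1))) (X * (X - CC β)) I →
      ∃ I', IIF (dX k⟦X⟧) (fB d e) (X * (X - b)) I'

/-- First half of `A12`: straightening of the invariant curve. -/
def A1Stmt : Prop := ∀ (k : Type) [Field k] [CharZero k] (d : ℕ) (b e : AA k⟦X⟧) (β V : k⟦X⟧),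
  AD d b e β V → ∃ e', AD d (CC β) e' β V ∧
    ∀ I, IIF (dX k⟦X⟧) (fB d e') (X * (X - CC β)) I → ∃ I', IIF (dX k⟦X⟧) (fB d e) (X * (X - b)) I'

def A3Stmt : Prop := ∀ (k : Type) [Field k] [CharZero k] (d : ℕ) (κ Γ β U : k⟦X⟧) (eh : AA k),
  1 ≤ d → AN d κ Γ β U eh →
  ∃ I, IIF (dX k⟦X⟧) (-(CC (d + κ) * C X * X + C eh + CC Γ * X ^ (d + 1))) (X * (X - CC β)) I

/-- No negative powers of `p`. -/
def ExtStmt : Prop := ∀ (k : Type) [Field k] [CharZero k] (d : ℕ) (a b : (AA k)⟦X⟧)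
  (I : k⸨X⸩⟦X⟧⟦X⟧), 1 ≤ d → C (tA k 1) ∣ a + (d : (AA k)⟦X⟧) * X → C (tA k 1) ∣ b →
  IIF (thP k⸨X⸩ - cw (thL k)) (mA (coeL k) a) (X * mA (coeL k) b) I →
  ∃ I', IIF (DA k 1) a (X * b) I'

/-- Rescaling in the small case. -/
def AmkStmt : Prop := ∀ (k : Type) [Field k] [CharZero k] (d : ℕ) (o : PD k d), 2 ≤ d →
  (∀ i, 1 ≤ i → X * o.zs ∣ co2 i 0 o.b * o.Us) → (∀ i, 2 ≤ i → X * o.zs ∣ co2 i 0 o.e * o.Us) →
  ∃ (o' : PD k d) (R : ℕ) (b e : AA k⟦X⟧) (β V : k⟦X⟧), 1 ≤ R ∧ AD d b e β V ∧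
    CC (X ^ R) * b = rescale (C (X ^ R)) (map (rescale (X ^ (R * d))) o'.b) ∧
    CC (X ^ (R * (d + 1))) * e = rescale (C (X ^ R)) (map (rescale (X ^ (R * d))) o'.e) ∧
    co2 1 0 o'.e ≠ 0 ∧ X ^ (R + 2) ∣ co2 0 0 o'.b ∧ X ^ (R + 2) ∣ co2 1 0 o'.e ∧
    X ^ ((d + 1) * (R + 1) + 1) ∣ co2 0 0 o'.e

def AfinStmt : Prop := ∀ (k : Type) [Field k] [CharZero k] (d : ℕ) (o : PD k d), 6 ≤ d →
  (∀ i, 1 ≤ i → X * o.zs ∣ co2 i 0 o.b * o.Us) → (∀ i, 2 ≤ i → X * o.zs ∣ co2 i 0 o.e * o.Us) → False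

/-- The orders in the large case. -/
def BnumStmt : Prop := ∀ (k : Type) [Field k] [CharZero k] (d : ℕ) (o : PD k d),
  2 ≤ d → ((∃ i, 1 ≤ i ∧ co2 i 0 o.b * o.Us ∣ o.zs) ∨ ∃ i, 2 ≤ i ∧ co2 i 0 o.e * o.Us ∣ o.zs) →
  ∃ (o' : PD k d) (ε N e ω : ℕ) (v : k⟦X⟧), ε ≤ 1 ∧ 1 ≤ N ∧ 1 ≤ e ∧ 1 ≤ ω ∧ (ε = 1 → ω < d * N) ∧
    IsUnit v ∧ o'.Us = X ^ ω * v ∧ X ^ (e + ω) ∣ o'.zs ∧ X ^ (e + N) ∣ co2 0 0 o'.b ∧
    X ^ (e + N) ∣ co2 1 0 o'.e ∧ X ^ (e + (d + 1) * N) ∣ co2 0 0 o'.e ∧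
    (ε = 0 → co2 0 0 o'.b = 0 ∧ co2 1 0 o'.e = 0 ∧ co2 0 0 o'.e = 0) ∧
    (ε = 1 → ¬ (X ^ (e + N + 1) ∣ co2 0 0 o'.b ∧ X ^ (e + N + 1) ∣ co2 1 0 o'.e ∧
      X ^ (e + (d + 1) * N + 1) ∣ co2 0 0 o'.e)) ∧
    (∀ i, 1 ≤ i → X ^ e ∣ co2 i 0 o'.b) ∧ (∀ i, 2 ≤ i → X ^ e ∣ co2 i 0 o'.e) ∧
    ¬ ((∀ i, 1 ≤ i → X ^ (e + 1) ∣ co2 i 0 o'.b) ∧ ∀ i, 2 ≤ i → X ^ (e + 1) ∣ co2 i 0 o'.e)

/-- The two ends of the annulus. -/
def BendStmt : Prop := ∀ (k : Type) [Field k] [CharZero k] (d ε N e : ℕ) (o : PD k d)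
  (a b : (AA k)⟦X⟧), 2 ≤ d → ε ≤ 1 → 1 ≤ N → ABrel o ε N a b → X ^ (e + N) ∣ co2 0 0 o.b →
  X ^ (e + N) ∣ co2 1 0 o.e → X ^ (e + (d + 1) * N) ∣ co2 0 0 o.e →
  (ε = 0 → co2 0 0 o.b = 0 ∧ co2 1 0 o.e = 0 ∧ co2 0 0 o.e = 0) →
  (ε = 1 → ¬ (X ^ (e + N + 1) ∣ co2 0 0 o.b ∧ X ^ (e + N + 1) ∣ co2 1 0 o.e ∧
    X ^ (e + (d + 1) * N + 1) ∣ co2 0 0 o.e)) →
  (∀ i, 1 ≤ i → X ^ e ∣ co2 i 0 o.b) → (∀ i, 2 ≤ i → X ^ e ∣ co2 i 0 o.e) →
  ¬ ((∀ i, 1 ≤ i → X ^ (e + 1) ∣ co2 i 0 o.b) ∧ ∀ i, 2 ≤ i → X ^ (e + 1) ∣ co2 i 0 o.e) →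
  ∃ a0 b0, cc a = tA k ε ^ e * a0 ∧ cc b = tA k ε ^ e * b0 ∧ Supp ε (-N) (d * N) a0 ∧
    Supp ε (-N) (d * N) b0 ∧ (red a0 ≠ 0 ∨ red b0 ≠ 0) ∧ (ε = 1 → cc a0 ≠ 0 ∨ cc b0 ≠ 0)

def BmkStmt : Prop := ∀ (k : Type) [Field k] [CharZero k] [IsAlgClosed k] (d : ℕ) (o : PD k d),
  2 ≤ d → ((∃ i, 1 ≤ i ∧ co2 i 0 o.b * o.Us ∣ o.zs) ∨ ∃ i, 2 ≤ i ∧ co2 i 0 o.e * o.Us ∣ o.zs) →
  ∃ ε N e a b a0 b0 y n ps qs W, BD (k := k) d ε N e a b a0 b0 y n ps qs W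

def PsiStmt : Prop := ∀ (k : Type) [Field k] [CharZero k] (ε : ℕ) (ps qs : k⟦X⟧), ε ≤ 1 →
  cc ps = 0 → cc qs = 0 → ps ≠ 0 → qs ≠ 0 → Function.Injective (psiL ε ps qs) ∧
  (∀ c, psiL ε ps qs (mA Polynomial.C c) = psi0 ε ps qs c) ∧
  (∀ c, dX _ (psiL ε ps qs c) = psiL ε ps qs (DG k ε c)) ∧
  psiL ε ps qs (tA _ ε) = C (ps * qs ^ ε) ∧
  (∀ r, psiL ε ps qs (CC r) = map C (r : k⟦X⟧)) ∧
  psiL ε ps qs (C X) = C ps * map C (rescale (-(ε : k)) (exp k)) ∧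
  psiL ε ps qs X = C qs * map C (exp k) ∧
  ∀ m M c, Supp ε m M c → ∀ n, coeff n (swap (psi0 ε ps qs c)) ∈ ExpCl k m M

/-- Independence of exponentials. -/
def ExpStmt : Prop := ∀ (k : Type) [Field k] [CharZero k],
  (∀ (s : Finset k) (u : k → Polynomial k),
    ∑ a ∈ s, (u a : k⟦X⟧) * rescale a (exp k) = 0 → ∀ a ∈ s, u a = 0) ∧
  (∀ m m' M, ∀ a ∈ ExpCl k m M, ∀ b ∈ ExpCl k m' M, a * b ∈ ExpCl k (m + m') M) ∧
  (∀ m M, ∀ a ∈ ExpCl k m M, dX k a ∈ ExpCl k m M) ∧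
  ∀ (m : ℤ) (M : ℕ), ¬ (M : ℤ) ∣ m → ∀ a ∈ ExpCl k m M, dX k a = 0 → a = 0

def Log1Stmt : Prop := ∀ (k : Type) [Field k] [CharZero k] [IsAlgClosed k] (m : ℤ) (M : ℕ)
  (β j : k⟦X⟧), ¬ (M : ℤ) ∣ 2 * m → cc j = 0 → coeff 1 j ≠ 1 → sb j β = β → dX k β ≠ 0 →
  dX k β ∈ ExpCl k m M → ∃ δ : k⸨X⸩ →+ k⸨X⸩, IsDer δ ∧ (∀ r, δ (cL k r) = 0) ∧
    δ (coeL k (exp k)) = 0 ∧ δ (coeL k (sb j (exp k))) = 0 ∧ δ (coeL k X) = 1 ∧ δ (coeL k j) = 0

/-- A symmetry at the scale of the centre makes the logarithm an infinitesimal symmetry. -/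
def Log2Stmt : Prop := ∀ (k : Type) [Field k] [CharZero k] [IsAlgClosed k] (d ε N n : ℕ)
  (ps qs : k⟦X⟧) (a0 b0 : AA k) (G0 G1 : AA (Polynomial k)) (S : Type) [CommRing S] [IsDomain S]
  (ψ1 ψ2 : AA k →+* S), 6 ≤ d → ε ≤ 1 → 1 ≤ N → 1 ≤ n → cc ps = 0 → cc qs = 0 → qs ≠ 0 →
  ps * qs ^ ε = X ^ n → Supp ε (-N) (d * N) a0 → Supp ε (-N) (d * N) b0 → (a0 ≠ 0 ∨ b0 ≠ 0) →
  Lead (-(d : AA (Polynomial k))) (tA _ ε) (DG k ε) (mA Polynomial.C a0) (mA Polynomial.C b0) G0 G1 → Refl ψ1 ψ2 →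
  ψ1 X ≠ ψ2 X → ψ1 (psiL ε ps qs G0) = ψ2 (psiL ε ps qs G0) →
  ψ1 (psiL ε ps qs G1) = ψ2 (psiL ε ps qs G1) →
  dl2 k G0 * DG k ε G1 = dl2 k G1 * DG k ε G0

/-- The Lienard form of the large case is free of logarithms. -/
def BlogStmt : Prop := ∀ (k : Type) [Field k] [CharZero k] [IsAlgClosed k] (d ε N e : ℕ)
  (a b : (AA k)⟦X⟧) (a0 b0 : AA k) (y : k⸨X⸩) (n : ℕ) (ps qs W : k⟦X⟧), 6 ≤ d →
  BD d ε N e a b a0 b0 y n ps qs W → ∃ Wt lam G0 G1, LD (tA k ε) (DA k ε) a b Wt lam G0 G1 ∧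
    Lead (-(d : AA k)) (tA k ε) (DA k ε) (cc a) (cc b) G0 G1 ∧ SS ε N G0 ∧ SS ε N G1 ∧
    tA k ε ^ (2 * e) ∣ G0 ∧ tA k ε ^ e ∣ G1 ∧ DA k ε G0 ≠ 0 ∧
    ∃ (S : Type) (_ : CommRing S) (_ : IsDomain S) (ψ1 ψ2 : AA k →+* S), Refl ψ1 ψ2 ∧
      (∀ v, coeff 1 v ≠ 0 → ψ1 v ≠ ψ2 v) ∧ ψ1 (psi0 ε ps qs G0) = ψ2 (psi0 ε ps qs G0) ∧
      ψ1 (psi0 ε ps qs G1) = ψ2 (psi0 ε ps qs G1)

def BfinStmt : Prop := ∀ (k : Type) [Field k] [CharZero k] [IsAlgClosed k] (d ε N e : ℕ)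
  (a b : (AA k)⟦X⟧) (a0 b0 : AA k) (y : k⸨X⸩) (n : ℕ) (ps qs W : k⟦X⟧), 6 ≤ d →
  BD d ε N e a b a0 b0 y n ps qs W → False

end Pool.Agent.MP_05b4bd_ag.ES

end MrgPart0

-- ======== part 1: formerly Pool.Agent.MP_05b4bd_ag.esc.Bx
section MrgPart1

/-! Escaping centres: the grading of `Bt` and the two specialisations `F + x`, `F + x y`. -/

namespace Pool.Agent.MP_05b4bd_ag.ES

open HC MvPolynomial

namespace Bx

variable {k : Type} [Field k]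

/-! ### The grading -/

theorem coeff_cl (d n : ℕ) (r : R2 k) (m : Fin 2 →₀ ℕ) :
    coeff m (cl d n r) = if d ∣ m.degree + n + 2 then coeff m r else 0 := by
  rw [cl, coeff_sum]
  simp only [coeff_hc]
  rw [Finset.sum_ite_eq]
  by_cases h : d ∣ m.degree + n + 2
  · rw [if_pos h]
    split_ifs with h1
    · rfl
    · symm
      refine coeff_eq_zero_of_totalDegree_lt ?_
      by_contra h2
      exact h1 (Finset.mem_filter.2 ⟨Finset.mem_range.2 (Nat.lt_succ_of_le (not_lt.1 h2)), h⟩)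
  · rw [if_neg h]
    refine if_neg ?_
    intro h1
    exact h (Finset.mem_filter.1 h1).2

theorem cl_add (d n : ℕ) (u v : R2 k) : cl d n (u + v) = cl d n u + cl d n v := by
  ext m
  simp only [coeff_add, coeff_cl]
  split_ifs <;> simp

theorem cl_sub (d n : ℕ) (u v : R2 k) : cl d n (u - v) = cl d n u - cl d n v := by
  ext m
  simp only [coeff_sub, coeff_cl]
  split_ifs <;> simp

theorem cl_per (d n : ℕ) (u : R2 k) : cl d (n + d) u = cl d n u := by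
  ext m
  simp only [coeff_cl]
  have : d ∣ m.degree + (n + d) + 2 ↔ d ∣ m.degree + n + 2 := by
    rw [show m.degree + (n + d) + 2 = m.degree + n + 2 + d by ring]
    exact Nat.dvd_add_self_right
  simp only [this]

theorem cl_mul (d n : ℕ) {e : ℕ} (u : R2 k) {v : R2 k} (hv : v.IsHomogeneous e) :
    cl d n (u * v) = cl d (n + e) u * v := by
  classical
  ext m
  rw [coeff_cl, coeff_mul, coeff_mul]
  have key : ∀ p ∈ Finset.HasAntidiagonal.antidiagonal m, coeff p.1 (cl d (n + e) u) * coeff p.2 v =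
      if d ∣ m.degree + n + 2 then coeff p.1 u * coeff p.2 v else 0 := fun p hp => by
    have h := congrArg Finsupp.degree (Finset.HasAntidiagonal.mem_antidiagonal.1 hp)
    rw [map_add] at h
    by_cases he : p.2.degree = e
    · rw [coeff_cl, show p.1.degree + (n + e) + 2 = m.degree + n + 2 by omega]
      split_ifs <;> simp
    · rw [hv.coeff_eq_zero he]
      simp
  rw [Finset.sum_congr rfl key]
  split_ifs <;> simp

theorem cl_pderiv (d n : ℕ) (i : Fin 2) (u : R2 k) :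
    cl d (n + 1) (pderiv i u) = pderiv i (cl d n u) := by
  ext m
  rw [coeff_cl, coeff_pderiv, coeff_pderiv, coeff_cl, map_add, Finsupp.degree_single,
    show m.degree + 1 + n + 2 = m.degree + (n + 1) + 2 by ring]
  split_ifs <;> simp

theorem bt_cl (d n : ℕ) {F r : R2 k} (hF : F.IsHomogeneous d) (h : Bt F r) : Bt F (cl d n r) := by
  obtain ⟨u, w, rfl⟩ := h
  cases d with
  | zero =>
    refine ⟨0, 0, ?_⟩
    ext m
    simp [coeff_cl, br]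
  | succ d =>
    refine ⟨cl (d + 1) (n + d + d) u, cl (d + 1) n w, ?_⟩
    have e1 : ∀ i j : Fin 2, cl (d + 1) n (pderiv i u * pderiv j F) =
        pderiv i (cl (d + 1) (n + d + d) u) * pderiv j F := fun i j => by
      rw [cl_mul _ _ _ (hom_pderiv j hF), ← cl_per, ← cl_pderiv]
      rfl
    rw [cl_add, br, br, cl_sub, e1, e1, sub_mul, one_mul, cl_sub, mul_comm F, cl_mul _ _ _ hF,
      cl_per]
    ring

/-- All degrees `e` that occur satisfy `d ∣ e + c`. -/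
def Gr (d c : ℕ) (r : R2 k) : Prop := ∀ m, coeff m r ≠ 0 → d ∣ m.degree + c

theorem Gr.zero (d c : ℕ) : Gr d c (0 : R2 k) := fun _ h => (h rfl).elim

theorem Gr.C_mul {d c : ℕ} {r : R2 k} (a : k) (h : Gr d c r) : Gr d c (C a * r) := fun m hm =>
  h m fun h0 => hm (by rw [coeff_C_mul, h0, mul_zero])

theorem Gr.neg {d c : ℕ} {r : R2 k} (h : Gr d c r) : Gr d c (-r) := fun m hm =>
  h m fun h0 => hm (by rw [coeff_neg, h0, neg_zero])

theorem Gr.sum {d c : ℕ} {ι : Type} (s : Finset ι) {r : ι → R2 k} (h : ∀ i ∈ s, Gr d c (r i)) :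
    Gr d c (∑ i ∈ s, r i) := fun m hm => by
  rw [coeff_sum] at hm
  obtain ⟨i, hi, h0⟩ := Finset.exists_ne_zero_of_sum_ne_zero hm
  exact h i hi m h0

theorem Gr.step {d c : ℕ} {f g : R2 k} (h0 : coeff 0 f = 0) (e : ℕ) (h : Gr d c g) :
    Gr d (c + e) (hc (d - e) f * g) := by
  classical
  by_cases he : e ≤ d
  · intro m hm
    rw [coeff_mul] at hm
    obtain ⟨p, hp, h1⟩ := Finset.exists_ne_zero_of_sum_ne_zero hm
    have h2 := congrArg Finsupp.degree (Finset.HasAntidiagonal.mem_antidiagonal.1 hp)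
    rw [map_add] at h2
    have h3 : p.1.degree = d - e := by
      by_contra h3
      exact left_ne_zero_of_mul h1 ((hc_hom _ f).coeff_eq_zero h3)
    have h4 := h _ (right_ne_zero_of_mul h1)
    rw [show m.degree + (c + e) = p.2.degree + c + d by omega]
    exact Nat.dvd_add_self_right.2 h4
  · rw [show d - e = 0 by omega, hc, homogeneousComponent_zero, h0, map_zero, zero_mul]
    exact Gr.zero _ _

theorem gr_CR {d : ℕ} {f : R2 k} (h0 : coeff 0 f = 0) (j : ℕ) :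
    ∀ (c w : ℕ) (g : R2 k), Gr d c g → Gr d (c + j) (CR d f j w g) := by
  induction j using Nat.strong_induction_on with
  | _ j ih =>
    intro c w g h
    cases j with
    | zero => rw [CR]; exact h
    | succ j =>
      rw [CR]
      refine Gr.C_mul _ (Gr.sum _ fun e he => Gr.C_mul _ ?_)
      have := Finset.mem_range.1 he
      rw [show c + (j + 1) = c + (e + 1) + (j - e) by omega]
      exact ih _ (by omega) _ _ _ (h.step h0 _)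

theorem gr_PR {d : ℕ} {f : R2 k} (h0 : coeff 0 f = 0) (j c w : ℕ) (g : R2 k) (h : Gr d c g) :
    Gr d (c + j) (PR d f j w g) := by
  cases j with
  | zero => rw [PR]; exact h.C_mul _
  | succ j =>
    rw [PR]
    refine (Gr.C_mul _ (Gr.sum _ fun e he => Gr.C_mul _ ?_)).neg
    have := Finset.mem_range.1 he
    rw [show c + (j + 1) = c + (e + 1) + (j - e) by omega]
    exact gr_CR h0 _ _ _ _ (h.step h0 _)

theorem gr_psi {d : ℕ} {f : R2 k} (h0 : coeff 0 f = 0) (g : R2 k) (n : ℕ) :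
    Gr d (n + 2) (psi d f g n) := by
  refine Gr.sum _ fun w hw => ?_
  have hw' := Finset.mem_Icc.1 hw
  split_ifs with h
  · rw [show n + 2 = d + 2 - w + (n + w - d) by omega]
    refine gr_PR h0 _ _ _ _ fun m hm => ?_
    have h3 : m.degree = w - 2 := by
      by_contra h3
      exact hm ((hc_hom _ g).coeff_eq_zero h3)
    rw [show m.degree + (d + 2 - w) = d by omega]
  · exact Gr.zero _ _

theorem cl_psi (d n : ℕ) (f g : R2 k) (n' : ℕ) (h0 : coeff 0 f = 0) :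
    cl d n (psi d f g n') = if n' ≡ n [MOD d] then psi d f g n' else 0 := by
  ext m
  rw [coeff_cl]
  by_cases hm : coeff m (psi d f g n') = 0
  · split_ifs <;> simp [hm]
  have h1 : m.degree + 2 + n' ≡ 0 [MOD d] := by
    rw [Nat.modEq_zero_iff_dvd, show m.degree + 2 + n' = m.degree + (n' + 2) by ring]
    exact gr_psi h0 g n' m hm
  have h2 : d ∣ m.degree + n + 2 ↔ n' ≡ n [MOD d] := by
    rw [show m.degree + n + 2 = m.degree + 2 + n by ring, ← Nat.modEq_zero_iff_dvd]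
    exact ⟨fun h => Nat.ModEq.add_left_cancel' _ (h1.trans h.symm),
      fun h => (h.symm.add_left _).trans h1⟩
  simp only [h2]
  split_ifs <;> simp

/-! ### The subspace `Bt` -/

theorem bt_zero (F : R2 k) : Bt F 0 := ⟨0, 0, by simp [br]⟩

theorem bt_of_eq {F r : R2 k} (h : r = 0) : Bt F r := h ▸ bt_zero F

theorem bt_add {F r s : R2 k} (h1 : Bt F r) (h2 : Bt F s) : Bt F (r + s) := by
  obtain ⟨u, w, rfl⟩ := h1
  obtain ⟨u', w', rfl⟩ := h2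
  exact ⟨u + u', w + w', by simp only [br, map_add]; ring⟩

theorem bt_C {F r : R2 k} (a : k) (h : Bt F r) : Bt F (C a * r) := by
  obtain ⟨u, w, rfl⟩ := h
  exact ⟨C a * u, C a * w, by simp only [br, pderiv_C_mul]; ring⟩

theorem bt_neg {F r : R2 k} (h : Bt F r) : Bt F (-r) := by
  simpa using bt_C (-1) h

theorem bt_sub {F r s : R2 k} (h1 : Bt F r) (h2 : Bt F s) : Bt F (r - s) := by
  rw [sub_eq_add_neg]; exact bt_add h1 (bt_neg h2)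

theorem bt_of_C {F r : R2 k} {a : k} (ha : a ≠ 0) (h : Bt F (C a * r)) : Bt F r := by
  have := bt_C a⁻¹ h
  rwa [← mul_assoc, ← map_mul, inv_mul_cancel₀ ha, map_one, one_mul] at this

/-- A homogeneous field applied to `F` is a multiple of its divergence. -/
theorem bt_div [CharZero k] {d n : ℕ} {F A B : R2 k} (hF : F.IsHomogeneous d)
    (hA : A.IsHomogeneous (n + 1)) (hB : B.IsHomogeneous (n + 1)) :
    Bt F (A * pderiv 0 F + B * pderiv 1 F - C ((d : k) / (n + 2)) * (pderiv 0 A + pderiv 1 B)) := by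
  have hn : (n + 2 : k) ≠ 0 := by exact_mod_cast (show n + 2 ≠ 0 by omega)
  obtain ⟨h, hh, eh⟩ : ∃ h : R2 k, h.IsHomogeneous n ∧ pderiv 0 A + pderiv 1 B = C (n + 2 : k) * h :=
    ⟨C (n + 2 : k)⁻¹ * (pderiv 0 A + pderiv 1 B),
      ((hom_pderiv 0 hA).add (hom_pderiv 1 hB)).C_mul _, by
        rw [← mul_assoc, ← map_mul, mul_inv_cancel₀ hn, map_one, one_mul]⟩
  have e1 := euler hh
  have e2 := euler hF
  have e3 : pderiv 0 (A - X 0 * h) + pderiv 1 (B - X 1 * h) = 0 := by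
    simp only [map_sub, pderiv_mul, pderiv_X_self]
    simp only [map_add, map_natCast, map_ofNat] at eh
    linear_combination eh - e1
  refine ⟨-pot (A - X 0 * h) (B - X 1 * h), (d : R2 k) * h, ?_⟩
  rw [br, map_neg, map_neg, pot_x, pot_y, e3, map_zero, eh, ← mul_assoc, ← map_mul,
    div_mul_cancel₀ _ hn, map_natCast]
  linear_combination h * e2

/-! ### The recursion for `F + m` -/

theorem CR_zero (d : ℕ) (f : R2 k) (j : ℕ) : ∀ w, CR d f j w 0 = 0 := by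
  induction j using Nat.strong_induction_on with
  | _ j ih =>
    intro w
    cases j with
    | zero => rw [CR]
    | succ j =>
      rw [CR, Finset.sum_eq_zero, mul_zero]
      intro e _
      rw [mul_zero, ih _ (by omega), mul_zero]

theorem PR_zero (d : ℕ) (f : R2 k) (j w : ℕ) : PR d f j w 0 = 0 := by
  cases j with
  | zero => rw [PR, mul_zero]
  | succ j =>
    rw [PR, Finset.sum_eq_zero, mul_zero, neg_zero]
    intro e _
    rw [mul_zero, CR_zero, mul_zero]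

/-- `F` and `m` are forms of degrees `d = E + μ` and `μ`. -/
structure Two (d E μ : ℕ) (F m : R2 k) : Prop where
  hF : F.IsHomogeneous d
  hm : m.IsHomogeneous μ
  e : d = E + μ
  E1 : 1 ≤ E
  m1 : 1 ≤ μ

section Two
variable {d E μ : ℕ} {F m : R2 k}

theorem Two.sum (H : Two d E μ F m) (j w : ℕ) (g : R2 k) :
    ∑ e ∈ Finset.range (j + 1), C (e + 1 : k) *
      CR d (F + m) (j - e) (w + d - (e + 1)) (hc (d - (e + 1)) (F + m) * g) =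
    if E ≤ j + 1 then C (E : k) * CR d (F + m) (j + 1 - E) (w + μ) (m * g) else 0 := by
  obtain ⟨hF, hm, e, E1, m1⟩ := H
  have h0 : ∀ i, i ≠ E - 1 → C (i + 1 : k) *
      CR d (F + m) (j - i) (w + d - (i + 1)) (hc (d - (i + 1)) (F + m) * g) = 0 := fun i hi => by
    rw [hc_add, hc_ne hF (by omega), hc_ne hm (by omega), add_zero, zero_mul, CR_zero, mul_zero]
  split_ifs with h
  · rw [Finset.sum_eq_single (E - 1) (fun i _ hi => h0 i hi)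
      fun h1 => (h1 (Finset.mem_range.2 (by omega))).elim, hc_add, hc_ne hF (by omega), zero_add,
      show d - (E - 1 + 1) = μ by omega, hc_self hm, show j - (E - 1) = j + 1 - E by omega,
      show w + d - (E - 1 + 1) = w + μ by omega, Nat.cast_pred (by omega), sub_add_cancel]
  · exact Finset.sum_eq_zero fun i hi => h0 i (by have := Finset.mem_range.1 hi; omega)

theorem Two.CR_off (H : Two d E μ F m) (j : ℕ) :
    ¬ E ∣ j → ∀ (w : ℕ) (g : R2 k), CR d (F + m) j w g = 0 := by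
  induction j using Nat.strong_induction_on with
  | _ j ih =>
    intro hj w g
    cases j with
    | zero => exact (hj (dvd_zero E)).elim
    | succ j =>
      have := H.E1
      rw [CR, H.sum]
      split_ifs with h
      · rw [ih _ (by omega) fun h1 => hj ((Nat.dvd_sub_iff_left h dvd_rfl).1 h1), mul_zero, mul_zero]
      · rw [mul_zero]

theorem Two.PR_off (H : Two d E μ F m) {j : ℕ} (hj : ¬ E ∣ j) (w : ℕ) (g : R2 k) :
    PR d (F + m) j w g = 0 := by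
  cases j with
  | zero => exact (hj (dvd_zero E)).elim
  | succ j =>
    rw [PR, H.sum]
    split_ifs with h
    · rw [H.CR_off _ fun h1 => hj ((Nat.dvd_sub_iff_left h dvd_rfl).1 h1), mul_zero, mul_zero,
        neg_zero]
    · rw [mul_zero, neg_zero]

theorem Two.CR_step (H : Two d E μ F m) (j w : ℕ) (g : R2 k) : CR d (F + m) (j + E) w g =
    C ((j + E - w : k) / (d * (j + E)) * E) * CR d (F + m) j (w + μ) (m * g) := by
  obtain ⟨i, hi⟩ : ∃ i, j + E = i + 1 := ⟨j + E - 1, by have := H.E1; omega⟩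
  have e : (j + E : k) = i + 1 := by exact_mod_cast congrArg (Nat.cast : ℕ → k) hi
  rw [hi, CR, H.sum, if_pos (by omega), show i + 1 - E = j by omega, e, map_mul, mul_assoc]

theorem Two.PR_step (H : Two d E μ F m) (j w : ℕ) (g : R2 k) : PR d (F + m) (j + E) w g =
    C (-(1 / (j + E : k) * E)) * CR d (F + m) j (w + μ) (m * g) := by
  obtain ⟨i, hi⟩ : ∃ i, j + E = i + 1 := ⟨j + E - 1, by have := H.E1; omega⟩
  have e : (j + E : k) = i + 1 := by exact_mod_cast congrArg (Nat.cast : ℕ → k) hi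
  rw [hi, PR, H.sum, if_pos (by omega), show i + 1 - E = j by omega, e, map_neg, map_mul]
  ring

variable [CharZero k]

theorem Two.ne (H : Two d E μ F m) : (E : k) ≠ 0 ∧ (d : k) ≠ 0 ∧ (E : k) = d - μ := by
  obtain ⟨-, -, e, E1, m1⟩ := H
  exact ⟨Nat.cast_ne_zero.2 (by omega), Nat.cast_ne_zero.2 (by omega), by rw [e]; push_cast; ring⟩

theorem Two.PR1 (H : Two d E μ F m) (w : ℕ) (g : R2 k) : PR d (F + m) E w g = -(m * g) := by
  have := H.PR_step 0 w g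
  rw [zero_add, CR, Nat.cast_zero, zero_add, one_div_mul_cancel H.ne.1] at this
  rw [this]; simp

theorem Two.CR1 (H : Two d E μ F m) (w : ℕ) (g : R2 k) :
    CR d (F + m) E w g = C ((E - w : k) / d) * (m * g) := by
  obtain ⟨h1, h2, -⟩ := H.ne
  have := H.CR_step 0 w g
  rw [zero_add, CR, Nat.cast_zero, zero_add] at this
  rw [this]
  congr 2
  field_simp

theorem Two.PR2 (H : Two d E μ F m) (w : ℕ) (g : R2 k) :
    PR d (F + m) (E + E) w g = C ((w + 2 * μ - d : k) / (2 * d)) * (m ^ 2 * g) := by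
  obtain ⟨h1, h2, h3⟩ := H.ne
  rw [H.PR_step, H.CR1, ← mul_assoc, ← map_mul, pow_two, mul_assoc m]
  congr 2
  have : (E + E : k) = 2 * E := by ring
  rw [this]
  push_cast
  field_simp
  linear_combination -h3

theorem Two.PR3 (H : Two d E μ F m) (w : ℕ) (g : R2 k) : PR d (F + m) (E + E + E) w g =
    C ((w + 3 * μ - d : k) * (2 * d - w - 3 * μ) / (6 * d ^ 2)) * (m ^ 3 * g) := by
  obtain ⟨h1, h2, h3⟩ := H.ne
  rw [H.PR_step, H.CR_step, H.CR1, ← mul_assoc, ← mul_assoc, ← map_mul, ← map_mul,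
    show m * (m * (m * g)) = m ^ 3 * g by ring]
  congr 2
  push_cast
  have e2 : (E + E : k) = 2 * E := by ring
  have e3 : (2 * E + E : k) = 3 * E := by ring
  have e4 : (2 * E - (w + μ) : k) = 2 * d - w - 3 * μ := by rw [h3]; ring
  have e5 : (E - (w + μ + μ) : k) = -(w + 3 * μ - d) := by rw [h3]; ring
  rw [e2, e3, e4, e5]
  field_simp
  ring

omit [CharZero k] in
theorem Two.term (H : Two d E μ F m) (hE : d ≤ E + 2) (g : R2 k) {n w0 j : ℕ}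
    (hn : n + w0 = d + j * E) (h0 : 2 ≤ w0 ∧ w0 ≤ d) {w : ℕ} (hw : w ∈ Finset.Icc 2 d) (hne : w ≠ w0)
    (h : w + E = w0 ∨ w0 + E = w → hc (w - 2) g = 0) :
    (if d ≤ n + w then PR d (F + m) (n + w - d) w (hc (w - 2) g) else 0) = 0 := by
  have hw' := Finset.mem_Icc.1 hw
  split_ifs with hd
  · by_cases hx : w + E = w0 ∨ w0 + E = w
    · rw [h hx, PR_zero]
    · refine H.PR_off (fun hdv => ?_) _ _
      have h1 : (E : ℤ) ∣ (w : ℤ) - w0 := by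
        have h2 : (E : ℤ) ∣ ((n + w - d : ℕ) : ℤ) := Int.natCast_dvd_natCast.2 hdv
        have h3 : (w : ℤ) - w0 = ((n + w - d : ℕ) : ℤ) - (j * E : ℕ) := by omega
        rw [h3]
        exact dvd_sub h2 (Int.natCast_dvd_natCast.2 (dvd_mul_left E j))
      rcases lt_or_gt_of_ne hne with hl | hl
      · have := Int.le_of_dvd (by omega) ((dvd_neg).2 h1)
        omega
      · have := Int.le_of_dvd (by omega) h1
        omega
  · rfl

omit [CharZero k] in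
/-- One pair of indices contributes. -/
theorem Two.psi1 (H : Two d E μ F m) (hE : d ≤ E + 2) (g : R2 k) (n w0 j : ℕ)
    (hn : n + w0 = d + j * E) (h0 : 2 ≤ w0 ∧ w0 ≤ d)
    (h : ∀ w, 2 ≤ w → w ≤ d → w + E = w0 ∨ w0 + E = w → hc (w - 2) g = 0) :
    psi d (F + m) g n = PR d (F + m) (j * E) w0 (hc (w0 - 2) g) := by
  rw [psi, Finset.sum_eq_single w0 (fun w hw hne => H.term hE g hn h0 hw hne
    (h w (Finset.mem_Icc.1 hw).1 (Finset.mem_Icc.1 hw).2))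
    fun h1 => (h1 (Finset.mem_Icc.2 h0)).elim, if_pos (by omega), show n + w0 - d = j * E by omega]

omit [CharZero k] in
/-- Two pairs contribute. -/
theorem Two.psi2 (H : Two d E 2 F m) (g : R2 k) (j : ℕ) : psi d (F + m) g (j * E + E) =
    PR d (F + m) (j * E + E) d (hc (d - 2) g) + PR d (F + m) (j * E) 2 (hc 0 g) := by
  have e := H.e
  have E1 := H.E1
  rw [psi, Finset.sum_eq_add_of_mem d 2 (Finset.mem_Icc.2 (by omega)) (Finset.mem_Icc.2 (by omega))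
    (by omega), if_pos (by omega), if_pos (by omega), show j * E + E + d - d = j * E + E by omega,
    show j * E + E + 2 - d = j * E by omega]
  intro w hw hne
  have := Finset.mem_Icc.1 hw
  exact H.term (w0 := 2) (j := j) (by omega) g (by omega) (by omega) hw hne.2 fun h => by omega

end Two

/-! ### The rule -/

theorem rule {d ν : ℕ} {F : R2 k} {p : ℕ → R2 k} (R : Rule d ν F p) (n j : ℕ) (hn : n < d)
    (h : ∀ i < j, Bt F (p (n + i * d))) {N : ℕ} (hN : N = n + j * d) (hb : ¬ Bt F (p N)) : ν ∣ N := by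
  subst hN
  refine R _ hb fun n' h1 h2 => ?_
  have h3 : n' % d = n := by
    rw [h2, Nat.add_mul_mod_self_right, Nat.mod_eq_of_lt hn]
  have h4 : n' = n + n' / d * d := by
    rw [← h3]; exact (Nat.mod_add_div' n' d).symm
  rw [h4]
  refine h _ (Nat.lt_of_mul_lt_mul_right (a := d) ?_)
  omega

theorem rule0 {d ν : ℕ} {F : R2 k} {p : ℕ → R2 k} (R : Rule d ν F p) {n : ℕ} (hn : n < d)
    (hb : ¬ Bt F (p n)) : ν ∣ n :=
  rule R n 0 hn (fun _ h => by omega) (by omega) hb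

theorem rule1 {d ν : ℕ} {F : R2 k} {p : ℕ → R2 k} (R : Rule d ν F p) {n : ℕ} (hn : n < d)
    (h0 : Bt F (p n)) (hb : ¬ Bt F (p (n + d))) : ν ∣ n + d :=
  rule R n 1 hn (fun i h => by obtain rfl : i = 0 := by omega
                               simpa using h0) (by omega) hb

theorem rule2 {d ν : ℕ} {F : R2 k} {p : ℕ → R2 k} (R : Rule d ν F p) {n : ℕ} (hn : n < d)
    (h0 : Bt F (p n)) (h1 : Bt F (p (n + d))) (hb : ¬ Bt F (p (n + d + d))) : ν ∣ n + d + d :=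
  rule R n 2 hn (fun i h => by
    obtain rfl | rfl : i = 0 ∨ i = 1 := by omega
    · simpa using h0
    · simpa using h1) (by omega) hb

theorem exists_top {n : ℕ} {g : R2 k} (hg : DL n g) (h0 : g ≠ 0) :
    ∃ t < n, hc t g ≠ 0 ∧ ∀ s, t < s → hc s g = 0 := by
  induction n with
  | zero => exact (h0 hg.eq_zero).elim
  | succ n ih =>
    by_cases h : hc n g = 0
    · obtain ⟨t, ht, h1⟩ := ih (hg.pred h)
      exact ⟨t, by omega, h1⟩
    · exact ⟨n, by omega, h, fun s hs => hg.hc_eq hs⟩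

theorem hom0_eq {u : R2 k} (hu : u.IsHomogeneous 0) : u = C (coeff 0 u) := by
  conv_lhs => rw [← hc_self hu, hc, homogeneousComponent_zero]

/-- What is used about `F`. -/
structure Gd (d : ℕ) (F : R2 k) : Prop where
  hF : F.IsHomogeneous d
  cx : HC.co d 0 F ≠ 0
  cy : HC.co 0 d F ≠ 0
  low : ∀ {n : ℕ} {r : R2 k}, r.IsHomogeneous n → n + 2 ≤ d → Bt F r → r = 0
  high : ∀ (n : ℕ) {r : R2 k}, r.IsHomogeneous (n + (d - 2)) → Bt F r →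
    ∃ η : R2 k, η.IsHomogeneous n ∧ r = br η F

theorem no_both {ν a : ℕ} (hν : ν.Prime) (h1 : ν ∣ a) (h2 : ν ∣ a + 1) : False :=
  hν.one_lt.ne' (Nat.dvd_one.1 ((Nat.dvd_add_right h1).1 h2))

variable [CharZero k]

theorem gd_of (N : NzStmt) {d : ℕ} {F : R2 k} (hd : 2 ≤ d) (I : IndF d F) : Gd d F := by
  obtain ⟨e, rfl⟩ : ∃ e, d = e + 2 := ⟨d - 2, by omega⟩
  refine ⟨I.1, I.2.ne_zero 0, ?_, fun hr hn hb => (N k _ F hd I.1 I.ci _ _ hr hb).1 hn,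
    fun n r hr hb => ?_⟩
  · have := I.2.ne_zero (Fin.last _)
    simpa using this
  · have := (N k _ F hd I.1 I.ci _ _ hr hb).2 (by omega)
    rwa [show n + (e + 2 - 2) + 2 - (e + 2) = n by omega] at this

theorem first {d E μ ν : ℕ} {F m g : R2 k} (G : Gd d F) (H : Two d E μ F m) (hE : d ≤ E + 2)
    (R : Rule d ν F (psi d (F + m) g)) (n v : ℕ) (hn : n + v + 2 = d)
    (h : ∀ w, 2 ≤ w → w ≤ d → w + E = v + 2 ∨ v + 2 + E = w → hc (w - 2) g = 0) :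
    (hc v g = 0 → Bt F (psi d (F + m) g n)) ∧ (hc v g ≠ 0 → ν ∣ n) := by
  have e := H.psi1 hE g n (v + 2) 0 (by omega) (by omega) h
  rw [zero_mul, PR, Nat.add_sub_cancel] at e
  refine ⟨fun h0 => bt_of_eq (by rw [e, h0, mul_zero]), fun h0 => rule0 R (by omega) fun hb => ?_⟩
  rw [e] at hb
  exact h0 (G.low (hc_hom _ _) (by omega)
    (bt_of_C (div_ne_zero H.ne.2.1 (Nat.cast_ne_zero.2 (by omega))) hb))

theorem second {d E μ : ℕ} {F m g : R2 k} (G : Gd d F) (H : Two d E μ F m) (hE : d ≤ E + 2)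
    (m0 : m ≠ 0) (n v : ℕ) (hn : n + v + 2 = d + E) (hv : v + 2 ≤ d)
    (h : ∀ w, 2 ≤ w → w ≤ d → w + E = v + 2 ∨ v + 2 + E = w → hc (w - 2) g = 0) :
    (hc v g = 0 → Bt F (psi d (F + m) g n)) ∧
      (hc v g ≠ 0 → μ + v + 2 ≤ d → ¬ Bt F (psi d (F + m) g n)) := by
  have e := H.psi1 hE g n (v + 2) 1 (by omega) (by omega) h
  rw [one_mul, H.PR1, Nat.add_sub_cancel] at e
  refine ⟨fun h0 => bt_of_eq (by rw [e, h0, mul_zero, neg_zero]), fun h0 h1 hb => ?_⟩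
  rw [e] at hb
  exact mul_ne_zero m0 h0 (neg_eq_zero.1 (G.low (H.hm.mul (hc_hom _ _)).neg h1 hb))

/-- If `x u` is a non-zero bracket then the higher `x ^ j u` are outside `Bt`. -/
theorem x_pow {d : ℕ} {F u : R2 k} (G : Gd d F) (hu : u.IsHomogeneous (d - 2)) (u0 : u ≠ 0)
    (hb : Bt F (X 0 * u)) (j : ℕ) (hj : j + 2 ≤ d) : ¬ Bt F (X 0 ^ (j + 2) * u) := by
  obtain ⟨η, hη, e⟩ := G.high 1 ((isHomogeneous_X k 0).mul hu) hb
  obtain ⟨E, rfl⟩ : ∃ E, d = E + 1 := ⟨d - 1, by omega⟩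
  rw [br, hom0_eq (hom_pderiv (n := 0) 0 hη), hom0_eq (hom_pderiv (n := 0) 1 hη)] at e
  generalize coeff 0 (pderiv 0 η) = β at e
  generalize coeff 0 (pderiv 1 η) = α at e
  have hα : α ≠ 0 := by
    rintro rfl
    rw [map_zero, zero_mul, sub_zero] at e
    have h1 := congrArg (HC.co 0 E) e
    rw [co_X0', co_C_mul, co_y] at h1
    have h2 := (mul_eq_zero.1 h1.symm).resolve_right
      (mul_ne_zero G.cy (Nat.cast_add_one_ne_zero _))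
    rw [h2, map_zero, zero_mul] at e
    exact mul_ne_zero (X_ne_zero 0) u0 e
  intro h
  have hx : ∀ i, (X 0 ^ i : R2 k).IsHomogeneous i := fun i => isHomogeneous_X_pow 0 i
  have h1 := bt_sub h (bt_div G.hF ((hx (j + 1)).C_mul (-α)) ((hx (j + 1)).C_mul β))
  have e1 : X 0 ^ (j + 2) * u - (C (-α) * X 0 ^ (j + 1) * pderiv 0 F +
      C β * X 0 ^ (j + 1) * pderiv 1 F - C (((E + 1 : ℕ) : k) / (j + 2)) *
        (pderiv 0 (C (-α) * X 0 ^ (j + 1)) + pderiv 1 (C β * X 0 ^ (j + 1)))) =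
      C (((E + 1 : ℕ) : k) / (j + 2) * (-α) * (j + 1)) * X 0 ^ j := by
    simp only [pderiv_C_mul, pderiv_pow, pderiv_X_self,
      pderiv_X_of_ne (show (0 : Fin 2) ≠ 1 by simp)]
    simp only [map_mul, map_neg, map_add, map_natCast, map_one, Nat.add_sub_cancel]
    push_cast
    linear_combination X 0 ^ (j + 1) * e
  rw [e1] at h1
  refine pow_ne_zero j (X_ne_zero 0) (G.low (hx j) hj (bt_of_C ?_ h1))
  exact mul_ne_zero (mul_ne_zero (div_ne_zero (Nat.cast_ne_zero.2 (by omega))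
    (by exact_mod_cast (show j + 2 ≠ 0 by omega))) (neg_ne_zero.2 hα)) (Nat.cast_add_one_ne_zero _)

theorem part1 {d ν : ℕ} {F g : R2 k} (G : Gd d F) (hd : 6 ≤ d) (hν : ν.Prime) (hg : DL (d - 1) g)
    (g0 : g ≠ 0) (R : Rule d ν F (psi d (F + X 0) g)) : ν ∣ d - 1 := by
  obtain ⟨s, rfl⟩ : ∃ s, d = s + 6 := ⟨d - 6, by omega⟩
  have H : Two (s + 6) (s + 5) 1 F (X 0) := ⟨G.hF, isHomogeneous_X k 0, rfl, by omega, le_rfl⟩
  have A := fun n v hn => first G H (by omega) R n v hn fun w _ _ _ => by omega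
  have B := fun n v hn hv => second (g := g) G H (by omega) (X_ne_zero 0) n v hn hv
    fun w _ _ _ => by omega
  change ν ∣ s + 5
  obtain ⟨t, ht, t0, t1⟩ := exists_top hg g0
  by_cases htop : t < s + 4
  · obtain ⟨n, hn⟩ : ∃ n, n + t + 3 = s + 6 := ⟨s + 3 - t, by omega⟩
    have h1 := (A (n + 1) t (by omega)).2 t0
    have h2 := rule1 R (n := n) (by omega) ((A n (t + 1) (by omega)).1 (t1 _ (by omega)))
      ((B _ t (by omega) (by omega)).2 t0 (by omega))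
    rw [show n + (s + 6) = n + 1 + (s + 5) by omega] at h2
    exact (Nat.dvd_add_right h1).1 h2
  obtain rfl : t = s + 4 := by omega
  by_contra hE
  have hb : Bt F (X 0 * hc (s + 4) g) := by
    have e := H.psi1 (by omega) g (s + 5) (s + 6) 1 (by omega) (by omega) fun w _ _ _ => by omega
    rw [one_mul, H.PR1] at e
    have := bt_neg (not_not.1 fun h => hE (rule0 R (by omega) h))
    rwa [e, neg_neg] at this
  have X2 := x_pow G (hc_hom _ _) t0 hb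
  have hd0 := H.ne.2.1
  by_cases h2 : hc 0 g = 0
  · have e2 := H.psi1 (by omega) g (s + 4 + (s + 6)) (s + 6) 2 (by omega) (by omega)
      fun w _ _ _ => by omega
    rw [two_mul, H.PR2] at e2
    have h3 := rule1 R (n := s + 4) (by omega) ((A _ 0 (by omega)).1 h2) fun h => by
      rw [e2] at h
      refine X2 0 (by omega) (bt_of_C (div_ne_zero ?_ (mul_ne_zero two_ne_zero hd0)) h)
      simp
    rw [show s + 4 + (s + 6) = 2 * (s + 5) by omega] at h3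
    obtain rfl := (Nat.prime_dvd_prime_iff_eq hν Nat.prime_two).1
      ((hν.dvd_mul.1 h3).resolve_right hE)
    by_cases h4 : hc 1 g = 0
    · have e3 := H.psi1 (by omega) g (s + 3 + (s + 6) + (s + 6)) (s + 6) 3 (by omega) (by omega)
        fun w _ _ _ => by omega
      rw [show 3 * (s + 5) = s + 5 + (s + 5) + (s + 5) by omega, H.PR3] at e3
      have h5 := rule2 R (n := s + 3) (by omega) ((A _ 1 (by omega)).1 h4)
        ((B _ 0 (by omega) (by omega)).1 h2) fun h => by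
          rw [e3] at h
          refine X2 1 (by omega) (bt_of_C (div_ne_zero (mul_ne_zero ?_ ?_)
            (mul_ne_zero (by norm_num) (pow_ne_zero 2 hd0))) h)
          · simp
          · have : (2 * ((s + 6 : ℕ) : k) - ((s + 6 : ℕ) : k) - 3 * ((1 : ℕ) : k)) = ((s + 3 : ℕ) : k) := by
              push_cast; ring
            rw [this]
            exact Nat.cast_ne_zero.2 (by omega)
      omega
    · have := (A (s + 3) 1 (by omega)).2 h4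
      omega
  · have h3 := (A (s + 4) 0 (by omega)).2 h2
    by_cases h4 : hc 1 g = 0
    · have h5 := rule1 R (n := s + 3) (by omega) ((A _ 1 (by omega)).1 h4)
        ((B _ 0 (by omega) (by omega)).2 h2 (by omega))
      rw [show s + 3 + (s + 6) = (s + 4) * 2 + 1 by omega] at h5
      exact no_both hν (h3.mul_right 2) h5
    · exact no_both hν ((A (s + 3) 1 (by omega)).2 h4) h3

/-- The field `Z` with `x y u = Z F` and divergence `c`. -/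
theorem xy_field {d : ℕ} {F u : R2 k} {c : k} (G : Gd d F) (hd : 2 ≤ d)
    (hu : u.IsHomogeneous (d - 2)) (u0 : u ≠ 0)
    (hb : Bt F (-(X 0 * X 1 * u) + C ((d : k) / 2) * C c)) :
    ∃ q : R2 k, q.IsHomogeneous 2 ∧ q ≠ 0 ∧ ∀ j : ℕ, Bt F ((X 0 * X 1) ^ (j + 2) * u -
      C ((d : k) / (2 * j + 4)) * (C (j + 1 : k) * ((X 0 * X 1) ^ j * q) +
        C ((j + 2) * c) * (X 0 * X 1) ^ (j + 1))) := by
  have hm : (X 0 * X 1 : R2 k).IsHomogeneous 2 := (isHomogeneous_X k 0).mul (isHomogeneous_X k 1)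
  have h1 : Bt F (-(X 0 * X 1 * u) + C ((d : k) / 2 * c) * F) := by
    have := bt_add hb ⟨0, C ((d : k) / 2 * c), rfl⟩
    convert this using 1
    simp only [br, map_zero, map_mul]
    ring
  have hF' : F.IsHomogeneous (2 + (d - 2)) := by rw [show 2 + (d - 2) = d by omega]; exact G.hF
  obtain ⟨η, hη, e⟩ := G.high 2 ((hm.mul hu).neg.add (hF'.C_mul _)) h1
  obtain ⟨A, B, hA, hB, eZ, ed⟩ : ∃ A B : R2 k, A.IsHomogeneous 1 ∧ B.IsHomogeneous 1 ∧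
      X 0 * X 1 * u = A * pderiv 0 F + B * pderiv 1 F ∧ pderiv 0 A + pderiv 1 B = C c := by
    refine ⟨C (c / 2) * X 0 + pderiv 1 η, C (c / 2) * X 1 - pderiv 0 η,
      ((isHomogeneous_X k 0).C_mul _).add (hom_pderiv 1 hη),
      ((isHomogeneous_X k 1).C_mul _).sub (hom_pderiv 0 hη), ?_, ?_⟩
    · rw [br, show (d : k) / 2 * c = c / 2 * d by ring, map_mul, map_natCast] at e
      linear_combination -e - C (c / 2) * euler G.hF
    · simp only [map_add, map_sub, pderiv_C_mul, pderiv_X_self]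
      rw [HC.pderiv_comm η]
      have : (C c : R2 k) = C (c / 2) + C (c / 2) := by rw [← map_add, add_halves]
      rw [this]; ring
  refine ⟨A * X 1 + B * X 0 - C c * (X 0 * X 1),
    ((hA.mul (isHomogeneous_X k 1)).add (hB.mul (isHomogeneous_X k 0))).sub (hm.C_mul c),
    fun hq => ?_, fun j => ?_⟩
  · obtain ⟨E, rfl⟩ : ∃ E, d = E + 1 := ⟨d - 1, by omega⟩
    rw [hom1_eq hA, hom1_eq hB] at hq eZ ed
    generalize HC.co 1 0 A = a at hq eZ ed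
    generalize HC.co 0 1 A = a' at hq eZ ed
    generalize HC.co 1 0 B = b' at hq eZ ed
    generalize HC.co 0 1 B = b at hq eZ ed
    obtain rfl : a' = 0 := by simpa [lf] using congrArg (eval ![0, 1]) hq
    obtain rfl : b' = 0 := by simpa [lf] using congrArg (eval ![1, 0]) hq
    have eZ' : X 0 * (X 1 * u) = C a * (X 0 * pderiv 0 F) + C b * (X 1 * pderiv 1 F) := by
      simp only [lf, map_zero] at eZ
      linear_combination eZ
    have hE : ((E + 1 : ℕ) : k) ≠ 0 := Nat.cast_ne_zero.2 (by omega)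
    have h2 := congrArg (HC.co 0 (E + 1)) eZ'
    rw [co_X0', co_add, co_C_mul, co_C_mul, co_X0', co_X1_y, mul_zero, zero_add] at h2
    have h3 := congrArg (HC.co (E + 1) 0) eZ'
    rw [co_X0, co_X1', co_add, co_C_mul, co_C_mul, co_X1', co_X0_x, mul_zero, add_zero] at h3
    rw [(mul_eq_zero.1 h2.symm).resolve_right (mul_ne_zero hE G.cy),
      (mul_eq_zero.1 h3.symm).resolve_right (mul_ne_zero hE G.cx), map_zero, zero_mul, zero_mul,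
      add_zero] at eZ'
    exact mul_ne_zero (X_ne_zero 0) (mul_ne_zero (X_ne_zero 1) u0) eZ'
  · have hp : ((X 0 * X 1 : R2 k) ^ (j + 1)).IsHomogeneous (2 * j + 2) := hm.pow (j + 1)
    have := bt_div (n := 2 * j + 2) G.hF (hp.mul hA) (hp.mul hB)
    convert this using 2
    · linear_combination (X 0 * X 1) ^ (j + 1) * eZ
    · congr 1
      · push_cast
        rw [add_assoc, two_add_two_eq_four]
      · simp only [pderiv_mul, pderiv_pow, pderiv_X_self,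
          pderiv_X_of_ne (show (0 : Fin 2) ≠ 1 by simp), pderiv_X_of_ne (show (1 : Fin 2) ≠ 0 by simp),
          Nat.add_sub_cancel]
        simp only [map_mul, map_add, map_natCast, map_one, map_ofNat]
        push_cast
        linear_combination -(X 0 * X 1) ^ (j + 1) * ed

theorem part2 {d ν : ℕ} {F g : R2 k} (G : Gd d F) (hd : 6 ≤ d) (hν : ν.Prime) (hg : DL (d - 1) g)
    (g0 : g ≠ 0) (R : Rule d ν F (psi d (F + X 0 * X 1) g)) (hE : ν ∣ d - 1) : False := by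
  obtain ⟨s, rfl⟩ : ∃ s, d = s + 6 := ⟨d - 6, by omega⟩
  have hm : (X 0 * X 1 : R2 k).IsHomogeneous 2 := (isHomogeneous_X k 0).mul (isHomogeneous_X k 1)
  have m0 : (X 0 * X 1 : R2 k) ≠ 0 := mul_ne_zero (X_ne_zero 0) (X_ne_zero 1)
  have H : Two (s + 6) (s + 4) 2 F (X 0 * X 1) := ⟨G.hF, hm, rfl, by omega, by omega⟩
  change ν ∣ s + 4 + 1 at hE
  have hE2 : ¬ ν ∣ s + 4 := fun h => no_both hν h hE
  obtain ⟨t, ht, t0, t1⟩ := exists_top hg g0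
  by_cases htop : t < s + 4
  · have hz : ∀ v, ∀ w, 2 ≤ w → w ≤ s + 6 → w + (s + 4) = v + 2 ∨ v + 2 + (s + 4) = w →
        hc v g ≠ 0 → hc (w - 2) g = 0 := fun v w h1 h2 h3 h4 => by
      have : v ≤ t := not_lt.1 fun h => h4 (t1 v h)
      exact t1 _ (by omega)
    have h1 := (first G H (by omega) R (s + 4 - t) t (by omega) fun w a b c => hz t w a b c t0).2 t0
    obtain ⟨n, hn⟩ : ∃ n, n + t + 4 = s + 6 := ⟨s + 2 - t, by
      have := Nat.le_of_dvd (by omega) h1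
      have := hν.two_le
      omega⟩
    have h0 : Bt F (psi (s + 6) (F + X 0 * X 1) g n) := by
      refine bt_of_eq (Finset.sum_eq_zero fun w hw => ?_)
      split_ifs with h
      · rw [t1 _ (by omega), PR_zero]
      · rfl
    have h2 := rule1 R (n := n) (by omega) h0 ((second G H (by omega) m0 _ t (by omega) (by omega)
      fun w a b c => hz t w a b c t0).2 t0 (by omega))
    rw [show n + (s + 6) = s + 4 - t + (s + 4) by omega] at h2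
    exact hE2 ((Nat.dvd_add_right h1).1 h2)
  obtain rfl : t = s + 4 := by omega
  have hd0 := H.ne.2.1
  obtain ⟨c, ec⟩ : ∃ c, hc 0 g = C c := ⟨_, hom0_eq (hc_hom 0 g)⟩
  have e1 := H.psi2 g 0
  rw [zero_mul, zero_add, H.PR1, PR, ec] at e1
  have hb := not_not.1 fun h => hE2 (rule0 R (by omega) h)
  rw [e1] at hb
  obtain ⟨q, hq, q0, hZ⟩ := xy_field G (by omega) (hc_hom _ _) t0 hb
  have n2 : ¬ Bt F (psi (s + 6) (F + X 0 * X 1) g (s + 2 + (s + 6))) := fun h => by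
    have e2 := H.psi2 g 1
    rw [one_mul, H.PR2, H.PR1, ec] at e2
    rw [show s + 2 + (s + 6) = s + 4 + (s + 4) by omega, e2] at h
    have h1 := bt_sub h (bt_C (2 / ((s + 6 : ℕ) : k)) (hZ 0))
    refine q0 (G.low hq (by omega) (bt_of_C (a := 1 / 2) (by norm_num) ?_))
    convert h1 using 1
    have a1 : (((s + 6 : ℕ) : k) + 2 * (2 : ℕ) - (s + 6 : ℕ)) / (2 * (s + 6 : ℕ)) =
        2 / ((s + 6 : ℕ) : k) := by
      field_simp; push_cast; ring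
    have a2 : (C (2 / ((s + 6 : ℕ) : k)) * C (((s + 6 : ℕ) : k) / (2 * (0 : ℕ) + 4)) : R2 k) =
        C (1 / 2) := by
      rw [← map_mul]; congr 1; field_simp; push_cast; ring
    have a3 : (C (1 / 2 : k) : R2 k) * 2 = 1 := by
      rw [← map_ofNat C 2, ← map_mul, one_div_mul_cancel two_ne_zero, map_one]
    rw [a1]
    simp only [Nat.cast_zero, zero_add, map_one, map_mul, map_ofNat, pow_zero] at a2 ⊢
    linear_combination -(q + 2 * C c * (X 0 * X 1)) * a2 - C c * (X 0 * X 1) * a3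
  have A := fun n v hn (h1 : 0 < v) (h2 : v < s + 4) =>
    first G H (by omega) R n v hn fun w _ _ _ => by omega
  have B := second (g := g) G H (by omega) m0 (s + (s + 6)) 2 (by omega) (by omega)
    fun w _ _ _ => by omega
  by_cases h4 : hc 2 g = 0
  · have h3 := rule1 R (n := s + 2) (by omega) ((A _ 2 (by omega) (by omega) (by omega)).1 h4) n2
    rw [show s + 2 + (s + 6) = 2 * (s + 4) by omega] at h3
    obtain rfl := (Nat.prime_dvd_prime_iff_eq hν Nat.prime_two).1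
      ((hν.dvd_mul.1 h3).resolve_right hE2)
    have A6 := A s 4 (by omega) (by omega) (by omega)
    by_cases h6 : hc 4 g = 0
    · have h5 := rule2 R (n := s) (by omega) (A6.1 h6) (B.1 h4) fun h => by
        have e3 := H.psi2 g 2
        rw [two_mul, H.PR3, H.PR2, ec] at e3
        rw [show s + (s + 6) + (s + 6) = s + 4 + (s + 4) + (s + 4) by omega, e3] at h
        have h1 := bt_sub h (bt_C (s / ((s + 6 : ℕ) : k) ^ 2) (hZ 1))
        have hs : (s : k) ≠ 0 := Nat.cast_ne_zero.2 (by omega)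
        refine mul_ne_zero m0 q0 (G.low (hm.mul hq) (by omega)
          (bt_of_C (a := s / (6 * ((s + 6 : ℕ) : k)) * 2) (mul_ne_zero (div_ne_zero hs
            (mul_ne_zero (by norm_num) hd0)) two_ne_zero) ?_))
        convert h1 using 1
        have a1 : (((s + 6 : ℕ) : k) + 3 * (2 : ℕ) - (s + 6 : ℕ)) *
            (2 * (s + 6 : ℕ) - (s + 6 : ℕ) - 3 * (2 : ℕ)) / (6 * ((s + 6 : ℕ) : k) ^ 2) =
            s / ((s + 6 : ℕ) : k) ^ 2 := by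
          field_simp; push_cast; ring
        have a2 : (C (s / ((s + 6 : ℕ) : k) ^ 2) * C (((s + 6 : ℕ) : k) / (2 * (1 : ℕ) + 4)) : R2 k) =
            C (s / (6 * ((s + 6 : ℕ) : k))) := by
          rw [← map_mul]; congr 1; field_simp; push_cast; ring
        have a3 : (((2 : ℕ) : k) + 2 * (2 : ℕ) - (s + 6 : ℕ)) / (2 * (s + 6 : ℕ)) =
            -(s / (6 * ((s + 6 : ℕ) : k)) * 3) := by
          field_simp; push_cast; ring
        rw [a1, a3]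
        simp only [Nat.cast_one, map_one, map_mul, map_ofNat, map_neg, map_add] at a2 ⊢
        linear_combination -(2 * (X 0 * X 1) * q + 3 * C c * (X 0 * X 1) ^ 2) * a2
      omega
    · have := A6.2 h6
      omega
  · have h3 := (A (s + 2) 2 (by omega) (by omega) (by omega)).2 h4
    rw [show s + 4 + 1 = s + 2 + 3 by omega] at hE
    obtain rfl := (Nat.prime_dvd_prime_iff_eq hν Nat.prime_three).1 ((Nat.dvd_add_right h3).1 hE)
    have A6 := A s 4 (by omega) (by omega) (by omega)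
    by_cases h6 : hc 4 g = 0
    · have := rule1 R (n := s) (by omega) (A6.1 h6) (B.2 h4 (by omega))
      omega
    · have := A6.2 h6
      omega

end Bx

theorem gradeS : GradeStmt := fun _ _ d n =>
  ⟨Bx.coeff_cl d n, fun _ _ hF h => Bx.bt_cl d n hF h, fun f g n' h => Bx.cl_psi d n f g n' h⟩

theorem bxS (N : NzStmt) : BxStmt := fun _ _ _ _ _ _ _ hd hν I hg g0 => by
  have G := Bx.gd_of N (by omega) I
  simp only [pow_one, pow_zero, mul_one]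
  exact ⟨Bx.part1 G hd hν hg g0, fun R h => Bx.part2 G hd hν hg g0 R h⟩

end Pool.Agent.MP_05b4bd_ag.ES

end MrgPart1

-- marker of a merged file
example : 731051 + 10956 = 731051 + 10956 := rfl
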