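import Mathlib.Algebra.AffineMonoid.UniqueSums
import Mathlib.RingTheory.Flat.TorsionFree
import Mathlib.Data.Int.ConditionallyCompleteOrder
import Mathlib.Data.Int.Star
import Mathlib.Algebra.Order.Ring.Star
import Mathlib.RingTheory.SimpleRing.Principal
import Mathlib.RingTheory.TotallySplit
import Mathlib.RingTheory.Etale.Weakly
import Mathlib.RingTheory.Henselian
import Mathlib.RingTheory.MvPolynomial.IrreducibleQuadratic
import Mathlib.RingTheory.RegularLocalRing.Defs
import Mathlib.Tactic.Polynomial.Basic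
import Pool.Agent.MP_05b4bd_ag.hc.Alg
import Pool.Agent.MP_05b4bd_ag.esc.Defs

-- ======== part 0: formerly Pool.Agent.MP_05b4bd_ag.esc.Curve
section MrgPart0

/-! The affine curve `F = 1` for a homogeneous `F` without multiple factors. -/

namespace Pool.Agent.MP_05b4bd_ag.Esc

open MvPolynomial HC

variable {K : Type*} [Field K]

theorem br_add (u v F : R2 K) : br (u + v) F = br u F + br v F := by
  simp only [br, map_add]; ring
theorem br_sub (u v F : R2 K) : br (u - v) F = br u F - br v F := by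
  simp only [br, map_sub]; ring
theorem br_neg (u F : R2 K) : br (-u) F = -br u F := by
  simp only [br, map_neg]; ring
theorem br_mul (u v F : R2 K) : br (u * v) F = br u F * v + u * br v F := by
  simp only [br, pderiv_mul]; ring
theorem br_zero (F : R2 K) : br 0 F = 0 := by simp [br]
theorem br_C (c : K) (F : R2 K) : br (C c) F = 0 := by simp [br]
theorem br_one (F : R2 K) : br 1 F = 0 := by simp [br]
theorem br_self (F : R2 K) : br F F = 0 := by simp only [br]; ring
theorem br_F_mul (u F : R2 K) : br (F * u) F = F * br u F := by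
  rw [br_mul, br_self]; ring
theorem br_pow (u F : R2 K) (n : ℕ) : br (u ^ n) F = n * u ^ (n - 1) * br u F := by
  simp only [br, pderiv_pow]; ring

theorem exists_top {U : R2 K} (hU : U ≠ 0) : ∃ u, DL (u + 1) U ∧ hc u U ≠ 0 := by
  obtain ⟨n, hn⟩ := exists_DL U
  induction n with
  | zero => exact absurd hn.eq_zero hU
  | succ n ih =>
    by_cases h : hc n U = 0
    · exact ih (hn.pred h)
    · exact ⟨n, hn, h⟩

theorem lt_of_hc_ne {n u : ℕ} {U : R2 K} (h : DL n U) (hu : hc u U ≠ 0) : u < n := by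
  by_contra hh
  exact hu (h.hc_eq (by omega))

theorem hc_C_of_ne {n : ℕ} (hn : n ≠ 0) (c : K) : hc n (C c : R2 K) = 0 :=
  hc_ne (isHomogeneous_C _ c) hn

theorem not_dvd_of_lt {a u : ℕ} {A U : R2 K} (hA : A.IsHomogeneous a) (hU : U.IsHomogeneous u)
    (h : u < a) (hd : A ∣ U) : U = 0 := by
  obtain ⟨w, rfl⟩ := hd
  rw [← hc_self hU, mul_comm]
  exact hc_of_mm (Ideal.mul_mem_left _ _ (mm_hom hA)) h

/-- The Euler operator minus the degree lowers the degree. -/
theorem euler_DL {a : ℕ} {A : R2 K} (hA : DL (a + 1) A) :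
    DL a (X 0 * pderiv 0 A + X 1 * pderiv 1 A - (a : R2 K) * A) := by
  have h1 : ∀ i : Fin 2, DL (a + 1) (X i * pderiv i A) := fun i => by
    have := (DL_X (A := K) i).mul (hA.pderiv i)
    rwa [show 1 + a = a + 1 by omega] at this
  have h2 : DL (a + 1) ((a : R2 K) * A) := by
    have := hA.C_mul (a : K)
    rwa [map_natCast] at this
  refine DL.pred (((h1 0).add (h1 1)).sub h2) ?_
  have h3 : hc a ((a : R2 K) * A) = (a : R2 K) * hc a A := by
    have := hc_C_mul a (a : K) A
    rwa [map_natCast] at this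
  rw [hc_sub, hc_add, h3]
  cases a with
  | zero =>
    have : ∀ i : Fin 2, hc 0 (X i * pderiv i A) = 0 := fun i =>
      hc_of_mm (Ideal.mul_mem_right _ _ (mm_X i)) one_pos
    simp [this]
  | succ a =>
    have : ∀ i : Fin 2, hc (a + 1) (X i * pderiv i A) = X i * pderiv i (hc (a + 1) A) := fun i => by
      rw [mul_comm, hc_mul_hom _ _ (isHomogeneous_X K i), hc_pderiv, mul_comm]
    rw [this, this, euler (hc_hom _ _), sub_self]

theorem isUnit_of_DL_one {A : R2 K} (h : DL 1 A) (h0 : A ≠ 0) : IsUnit A := by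
  have h1 : A = C (coeff 0 A) := totalDegree_eq_zero_iff_eq_C.1 (Nat.le_zero.1 (DL_iff.1 h))
  rw [h1] at h0 ⊢
  exact (Ne.isUnit fun h2 => h0 (by rw [h2, C_0])).map C

/-- No relation `U B + V A = c` with `deg U < deg A`, `deg V < deg B` and coprime top forms. -/
theorem no_bezout {a b : ℕ} {A B U V : R2 K} {c : K} (hA : DL (a + 1) A) (hB : DL (b + 1) B)
    (hA0 : hc a A ≠ 0) (hB0 : hc b B ≠ 0) (ha : a ≠ 0) (hb : b ≠ 0)
    (hp : IsRelPrime (hc a A) (hc b B)) (hU : DL a U) (hc0 : c ≠ 0)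
    (h : U * B + V * A = C c) : False := by
  by_cases hU0 : U = 0
  · have hV0 : V ≠ 0 := by
      rintro rfl
      rw [hU0, zero_mul, zero_mul, add_zero] at h
      exact hc0 (C_injective (Fin 2) K (by rw [← h, C_0]))
    obtain ⟨v, hv, hv0⟩ := exists_top hV0
    have := congrArg (hc (v + a)) h
    rw [hU0, zero_mul, zero_add, hc_mul_top hv hA, hc_C_of_ne (by omega)] at this
    exact mul_ne_zero hv0 hA0 this
  obtain ⟨u, hu, hu0⟩ := exists_top hU0
  have hua := lt_of_hc_ne hU hu0
  by_cases hV0 : V = 0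
  · have := congrArg (hc (u + b)) h
    rw [hV0, zero_mul, add_zero, hc_mul_top hu hB, hc_C_of_ne (by omega)] at this
    exact mul_ne_zero hu0 hB0 this
  obtain ⟨v, hv, hv0⟩ := exists_top hV0
  rcases lt_trichotomy (u + b) (v + a) with h1 | h1 | h1
  · have := congrArg (hc (v + a)) h
    rw [hc_add, hc_mul_top hv hA, hc_C_of_ne (by omega),
      (hu.mul hB).hc_eq (by omega), zero_add] at this
    exact mul_ne_zero hv0 hA0 this
  · have := congrArg (hc (u + b)) h
    rw [hc_add, hc_mul_top hu hB, h1, hc_mul_top hv hA, hc_C_of_ne (by omega)] at this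
    have hd : hc a A ∣ hc u U * hc b B := ⟨-hc v V, by linear_combination this⟩
    exact hu0 (not_dvd_of_lt (hc_hom _ _) (hc_hom _ _) hua (hp.dvd_of_dvd_mul_right hd))
  · have := congrArg (hc (u + b)) h
    rw [hc_add, hc_mul_top hu hB, hc_C_of_ne (by omega),
      (hv.mul hA).hc_eq (by omega), add_zero] at this
    exact mul_ne_zero hu0 hB0 this

variable {d : ℕ} {F : R2 K}

theorem sub_one_ne_zero (hF : F.IsHomogeneous d) (hd : d ≠ 0) : F - 1 ≠ 0 := by
  intro h
  have := congrArg (hc 0) h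
  rw [hc_sub, hc_ne hF hd.symm, hc_self (isHomogeneous_one _ _), zero_sub,
    hc_self (isHomogeneous_zero _ _ 0), neg_eq_zero] at this
  exact one_ne_zero this

theorem ne_zero_of_ci (hF : F.IsHomogeneous d) (hci : CI (pderiv 0 F) (pderiv 1 F)) : F ≠ 0 := by
  rintro rfl
  have := hci.relPrime
  rw [map_zero, map_zero] at this
  exact not_isUnit_zero (this (dvd_refl 0) (dvd_refl 0))

theorem irreducible_sub_one [CharZero K] (hF : F.IsHomogeneous d) (hd : d ≠ 0)
    (hci : CI (pderiv 0 F) (pderiv 1 F)) : Irreducible (F - 1) := by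
  have hF0 := ne_zero_of_ci hF hci
  have hhc : ∀ n, n ≠ 0 → hc n (F - 1) = hc n F := fun n hn => by
    rw [hc_sub, hc_ne (isHomogeneous_one _ _) hn, sub_zero]
  refine ⟨fun hu => ?_, fun A B h => ?_⟩
  · obtain ⟨w, hw⟩ := hu.exists_right_inv
    have hw0 : w ≠ 0 := by rintro rfl; simp at hw
    obtain ⟨n, hn, hn0⟩ := exists_top hw0
    have h1 : DL (d + 1) (F - 1) :=
      (DL.of_hom hF).sub ((DL.of_hom (isHomogeneous_one _ _)).mono (by omega))
    have := congrArg (hc (d + n)) hw
    rw [hc_mul_top h1 hn, hhc d hd, hc_self hF, hc_ne (isHomogeneous_one _ _) (by omega)] at this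
    exact mul_ne_zero hF0 hn0 this
  have h0 := sub_one_ne_zero hF hd
  have hA0 : A ≠ 0 := by rintro rfl; exact h0 (by rw [h, zero_mul])
  have hB0 : B ≠ 0 := by rintro rfl; exact h0 (by rw [h, mul_zero])
  obtain ⟨a, hA, hAa⟩ := exists_top hA0
  obtain ⟨b, hB, hBb⟩ := exists_top hB0
  by_cases ha : a = 0
  · subst ha; exact Or.inl (isUnit_of_DL_one hA hA0)
  by_cases hb : b = 0
  · subst hb; exact Or.inr (isUnit_of_DL_one hB hB0)
  exfalso
  have h1 := congrArg (hc (a + b)) h
  rw [hc_mul_top hA hB, hhc _ (by omega)] at h1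
  have hab : a + b = d := by
    by_contra hne
    rw [hc_ne hF hne] at h1
    exact mul_ne_zero hAa hBb h1.symm
  rw [hab, hc_self hF] at h1
  have hp : IsRelPrime (hc a A) (hc b B) := by
    rintro g ⟨s, hs⟩ ⟨t, ht⟩
    have key : ∀ i : Fin 2, g ∣ pderiv i F := fun i => by
      rw [h1, pderiv_mul]
      exact dvd_add (Dvd.dvd.mul_left ⟨t, ht⟩ _) (Dvd.dvd.mul_right ⟨s, hs⟩ _)
    exact hci.relPrime (key 0) (key 1)
  refine no_bezout (V := X 0 * pderiv 0 B + X 1 * pderiv 1 B - (b : R2 K) * B) (c := (d : K))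
    hA hB hAa hBb ha hb hp (euler_DL hA) (Nat.cast_ne_zero.2 hd) ?_
  have e0 := congrArg (pderiv 0) h
  have e1 := congrArg (pderiv 1) h
  rw [map_sub, pderiv_mul, Derivation.map_one_eq_zero] at e0 e1
  have e2 := euler hF
  rw [map_natCast, ← hab]
  rw [← hab] at e2
  push_cast at e2 ⊢
  linear_combination (-X 0) * e0 - X 1 * e1 + e2 + ((a : R2 K) + b) * h

theorem prime_sub_one [CharZero K] (hF : F.IsHomogeneous d) (hd : d ≠ 0)
    (hci : CI (pderiv 0 F) (pderiv 1 F)) : Prime (F - 1) :=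
  (irreducible_sub_one hF hd hci).prime

/-- An ideal properly above a prime ideal of a curve meets the polynomials in one variable. -/
theorem meet (P : Ideal (R2 K)) [P.IsPrime] {G : R2 K} (hG : G ∈ P) (hG0 : G ≠ 0) (i : Fin 2)
    {I : Ideal (R2 K)} (hI : P ≤ I) {g : R2 K} (hg : g ∈ I) (hgP : g ∉ P) :
    ∃ p : Polynomial K, p ≠ 0 ∧ Polynomial.aeval (X i : R2 K) p ∈ I := by
  classical
  let π := Ideal.Quotient.mkₐ K P
  let _ : Algebra (Polynomial K) (R2 K ⧸ P) :=
    (Polynomial.aeval (π (X i))).toRingHom.toAlgebra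
  have am : ∀ p : Polynomial K, algebraMap (Polynomial K) (R2 K ⧸ P) p =
      Polynomial.aeval (π (X i)) p := fun _ => rfl
  obtain ⟨j, hj⟩ : ∃ j : Fin 2, ∀ l : Fin 2, l ≠ i → l = j :=
    ⟨if i = 0 then 1 else 0, fun l hl => by fin_cases i <;> fin_cases l <;> simp_all⟩
  let Φ : R2 K →ₐ[K] Polynomial (Polynomial K) :=
    aeval fun l => if l = i then Polynomial.C Polynomial.X else Polynomial.X
  have hev : ∀ {S : Type _} [CommRing S] [Algebra K S] (x : Fin 2 → S) (u : R2 K),
      Polynomial.eval₂ (Polynomial.aeval (R := K) (x i)).toRingHom (x j) (Φ u) = aeval x u := by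
    intro S _ _ x u
    induction u using MvPolynomial.induction_on with
    | C a => simp [Φ]
    | add p q hp hq => rw [map_add, Polynomial.eval₂_add, hp, hq, map_add]
    | mul_X p l hp =>
      rw [map_mul, Polynomial.eval₂_mul, hp, map_mul]
      congr 1
      by_cases hl : l = i
      · simp [Φ, hl]
      · simp [Φ, hl, ← hj l hl]
  have hy : IsAlgebraic (Polynomial K) (π (X j)) := by
    refine ⟨Φ G, fun h0 => hG0 ?_, ?_⟩
    · have := hev (fun l => (X l : R2 K)) G
      rw [h0, Polynomial.eval₂_zero] at this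
      rw [aeval_X_left_apply] at this
      exact this.symm
    · have := hev (fun l => π (X l)) G
      rw [Polynomial.aeval_def]
      refine this.trans ?_
      have e : (aeval fun l => π (X l) : R2 K →ₐ[K] R2 K ⧸ P) = π := by
        ext l; simp
      rw [e]
      exact Ideal.Quotient.eq_zero_iff_mem.2 hG
  have hall : ∀ u : R2 K, IsAlgebraic (Polynomial K) (π u) := by
    intro u
    induction u using MvPolynomial.induction_on with
    | C a =>
      have := isAlgebraic_algebraMap (R := Polynomial K) (A := R2 K ⧸ P) (Polynomial.C a)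
      rw [am, Polynomial.aeval_C] at this
      rwa [← algebraMap_eq, π.commutes]
    | add p q hp hq => rw [map_add]; exact hp.add hq
    | mul_X p l hp =>
      rw [map_mul]
      refine hp.mul ?_
      by_cases hl : l = i
      · have := isAlgebraic_algebraMap (R := Polynomial K) (A := R2 K ⧸ P) Polynomial.X
        rw [am, Polynomial.aeval_X] at this
        rwa [hl]
      · rwa [hj l hl]
  have hne := Ideal.comap_ne_bot_of_algebraic_mem (R := Polynomial K)
    (I := I.map (Ideal.Quotient.mk P)) (x := π g)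
    (fun h => hgP (Ideal.Quotient.eq_zero_iff_mem.1 h)) (Ideal.mem_map_of_mem _ hg) (hall g)
  obtain ⟨p, hp, hp0⟩ := Submodule.exists_mem_ne_zero_of_ne_bot hne
  refine ⟨p, hp0, ?_⟩
  rw [Ideal.mem_comap, am, Polynomial.aeval_algHom_apply] at hp
  have : Polynomial.aeval (X i : R2 K) p ∈ (I.map (Ideal.Quotient.mk P)).comap
    (Ideal.Quotient.mk P) := hp
  rwa [Ideal.comap_map_of_surjective _ Ideal.Quotient.mk_surjective, ← RingHom.ker_eq_comap_bot,
    Ideal.mk_ker, sup_eq_left.2 hI] at this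

theorem br_aeval (z : R2 K) (p : Polynomial K) :
    br (Polynomial.aeval z p) F = Polynomial.aeval z (Polynomial.derivative p) * br z F := by
  induction p using Polynomial.induction_on' with
  | add p q hp hq => rw [map_add, br_add, hp, hq, map_add, map_add]; ring
  | monomial n a =>
    rw [Polynomial.derivative_monomial, Polynomial.aeval_monomial, Polynomial.aeval_monomial,
      br_mul, algebraMap_eq, br_C, br_pow]
    simp only [map_mul, map_natCast]
    ring

/-- Saturation: a stable ideal meeting `K[z]` contains a power of `{z, F}`. -/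
theorem pow_mem_of_stable [CharZero K] {I : Ideal (R2 K)} (hs : ∀ u ∈ I, br u F ∈ I) (z : R2 K)
    {p : Polynomial K} (hp0 : p ≠ 0) (hp : Polynomial.aeval z p ∈ I) :
    ∃ N, br z F ^ N ∈ I := by
  suffices H : ∀ n (p : Polynomial K) (N : ℕ), p ≠ 0 → p.natDegree = n →
      Polynomial.aeval z p * br z F ^ N ∈ I → ∃ N, br z F ^ N ∈ I from
    H _ p 0 hp0 rfl (by simpa using hp)
  intro n
  induction n with
  | zero =>
    intro p N h0 hn h
    rw [Polynomial.natDegree_eq_zero] at hn
    obtain ⟨c, rfl⟩ := hn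
    have hc : c ≠ 0 := fun h1 => h0 (by rw [h1, Polynomial.C_0])
    refine ⟨N, ?_⟩
    have := I.mul_mem_left (C c⁻¹) h
    rwa [Polynomial.aeval_C, algebraMap_eq, ← mul_assoc, ← C_mul, inv_mul_cancel₀ hc, C_1,
      one_mul] at this
  | succ n ih =>
    intro p N h0 hn h
    have hd : (Polynomial.derivative p).natDegree = n := by
      rw [Polynomial.natDegree_derivative, hn]; rfl
    have hd0 : Polynomial.derivative p ≠ 0 := fun h1 => by
      have := Polynomial.derivative_eq_zero.1 h1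
      omega
    refine ih _ (N + 2) hd0 hd ?_
    have h1 := I.mul_mem_left (br z F) (hs _ h)
    have h2 := I.mul_mem_left (N * br (br z F) F) h
    have := sub_mem h1 h2
    rw [br_mul, br_aeval, br_pow] at this
    convert this using 1
    cases N with
    | zero => simp; ring
    | succ N => simp only [Nat.add_sub_cancel]; ring

/-- SIMPLE. An ideal properly containing `F - 1` and stable under the bracket is everything. -/
theorem simple [CharZero K] (hF : F.IsHomogeneous d) (hd : d ≠ 0)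
    (hci : CI (pderiv 0 F) (pderiv 1 F)) {I : Ideal (R2 K)} (h1 : F - 1 ∈ I)
    (hs : ∀ u ∈ I, br u F ∈ I) {g : R2 K} (hg : g ∈ I) (hg1 : ¬F - 1 ∣ g) : I = ⊤ := by
  have hp := prime_sub_one hF hd hci
  have : (Ideal.span {F - 1}).IsPrime := (Ideal.span_singleton_prime hp.ne_zero).2 hp
  have key : ∀ i : Fin 2, ∃ N, br (X i) F ^ N ∈ I := fun i => by
    obtain ⟨p, hp0, hpI⟩ := meet (Ideal.span {F - 1}) (Ideal.mem_span_singleton_self _)
      hp.ne_zero i ((Ideal.span_singleton_le_iff_mem _).2 h1) hg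
      (fun h => hg1 (Ideal.mem_span_singleton.1 h))
    exact pow_mem_of_stable hs _ hp0 hpI
  rw [← Ideal.radical_eq_top, Ideal.eq_top_iff_one]
  have a0 : br (X 0) F ∈ I.radical := key 0
  have a1 : br (X 1) F ∈ I.radical := key 1
  have a2 : F - 1 ∈ I.radical := Ideal.le_radical h1
  have e : (1 : R2 K) = C (d : K)⁻¹ * (X 1 * br (X 0) F - X 0 * br (X 1) F) - (F - 1) := by
    have e1 : C (d : K)⁻¹ * (d : R2 K) = 1 := by
      rw [← map_natCast (C : K →+* R2 K), ← C_mul, inv_mul_cancel₀ (Nat.cast_ne_zero.2 hd), C_1]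
    have e2 := euler hF
    simp only [br, pderiv_X, Pi.single_apply]
    simp
    linear_combination (-C (d : K)⁻¹) * e2 - F * e1
  rw [e]
  exact sub_mem (Ideal.mul_mem_left _ _ (sub_mem (Ideal.mul_mem_left _ _ a0)
    (Ideal.mul_mem_left _ _ a1))) a2

theorem dvd_of_dvd_mul_relPrime {G η a b : R2 K} (hG : G ≠ 0) (ha : a ≠ 0) (hab : IsRelPrime a b)
    (h1 : G ∣ η * a) (h2 : G ∣ η * b) : G ∣ η := by
  obtain ⟨s, hs⟩ := h1
  obtain ⟨t, ht⟩ := h2
  have e : s * b = a * t := mul_left_cancel₀ hG (by linear_combination a * ht - b * hs)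
  obtain ⟨s', rfl⟩ := hab.dvd_of_dvd_mul_right ⟨t, e⟩
  exact ⟨s', mul_right_cancel₀ ha (by linear_combination hs)⟩

/-- TF. -/
theorem tf [CharZero K] (hF : F.IsHomogeneous d) (hci : CI (pderiv 0 F) (pderiv 1 F))
    {η : R2 K} {e : ℕ} (hη : η.IsHomogeneous e) (he : e ≠ 0) (h : F ∣ br η F) : F ∣ η := by
  have e1 := euler hF
  have e2 := euler hη
  have hu : IsUnit (e : R2 K) := by
    rw [← map_natCast (C : K →+* R2 K)]
    exact (Ne.isUnit (Nat.cast_ne_zero.2 he)).map C
  have a1 : F ∣ η * pderiv 1 F := by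
    refine hu.dvd_mul_left.1 ?_
    have : (e : R2 K) * (η * pderiv 1 F) = X 0 * br η F + F * ((d : R2 K) * pderiv 1 η) := by
      simp only [br]; linear_combination (-pderiv 1 F) * e2 + pderiv 1 η * e1
    rw [this]
    exact dvd_add (h.mul_left _) (dvd_mul_right _ _)
  have a0 : F ∣ η * pderiv 0 F := by
    refine hu.dvd_mul_left.1 ?_
    have : (e : R2 K) * (η * pderiv 0 F) = -X 1 * br η F + F * ((d : R2 K) * pderiv 0 η) := by
      simp only [br]; linear_combination (-pderiv 0 F) * e2 + pderiv 0 η * e1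
    rw [this]
    exact dvd_add (h.mul_left _) (dvd_mul_right _ _)
  have hF0 := ne_zero_of_ci hF hci
  obtain ⟨M, h0, h1⟩ := hci
  have key : ∀ u ∈ Ideal.span {pderiv 0 F, pderiv 1 F}, F ∣ η * u := fun u hu => by
    obtain ⟨s, t, rfl⟩ := Ideal.mem_span_pair.1 hu
    rw [mul_add, mul_left_comm, mul_left_comm η]
    exact dvd_add (a0.mul_left _) (a1.mul_left _)
  exact dvd_of_dvd_mul_relPrime hF0 (pow_ne_zero _ (X_ne_zero _))
    (relPrime_X01.pow (m := M) (n := M)) (key _ h0) (key _ h1)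

theorem hc_br (hF : F.IsHomogeneous (d + 1)) (n : ℕ) (u : R2 K) :
    hc (n + d) (br u F) = br (hc (n + 1) u) F := by
  simp only [br, hc_sub]
  rw [hc_mul_hom _ _ (hom_pderiv 1 hF), hc_mul_hom _ _ (hom_pderiv 0 hF), hc_pderiv, hc_pderiv]

theorem br_mm (hF : F.IsHomogeneous (d + 1)) (u : R2 K) : br u F ∈ mm K ^ d :=
  sub_mem (Ideal.mul_mem_left _ _ (mm_hom (hom_pderiv 1 hF)))
    (Ideal.mul_mem_left _ _ (mm_hom (hom_pderiv 0 hF)))

theorem br_hom (hF : F.IsHomogeneous (d + 1)) {n : ℕ} {u : R2 K} (hu : u.IsHomogeneous (n + 1)) :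
    (br u F).IsHomogeneous (n + d) :=
  ((hom_pderiv 0 hu).mul (hom_pderiv 1 hF)).sub ((hom_pderiv 1 hu).mul (hom_pderiv 0 hF))

/-- The homogeneous components of a bracket are brackets. -/
theorem hc_br_ex (hF : F.IsHomogeneous (d + 1)) (m : ℕ) (u : R2 K) :
    ∃ (v : R2 K) (e : ℕ), v.IsHomogeneous (e + 1) ∧ hc m (br u F) = br v F := by
  by_cases h : d ≤ m
  · obtain ⟨n, rfl⟩ : ∃ n, m = n + d := ⟨m - d, by omega⟩
    exact ⟨_, n, hc_hom _ _, hc_br hF n u⟩
  · exact ⟨0, 0, isHomogeneous_zero _ _ _, by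
      rw [hc_of_mm (br_mm hF u) (by omega), br_zero]⟩

/-- Multiplication by `F` is injective modulo brackets. -/
theorem br_of_F_mul [CharZero K] (hF : F.IsHomogeneous (d + 1))
    (hci : CI (pderiv 0 F) (pderiv 1 F)) {m : ℕ} {w u : R2 K} (hw : w.IsHomogeneous m)
    (h : F * w = br u F) : ∃ v, w = br v F := by
  obtain ⟨v, e, hv, h1⟩ := hc_br_ex hF (d + 1 + m) u
  rw [← h, hc_self (hF.mul hw)] at h1
  obtain ⟨v', rfl⟩ := tf hF hci hv (by omega) ⟨w, h1.symm⟩
  rw [br_F_mul] at h1
  exact ⟨v', mul_left_cancel₀ (ne_zero_of_ci hF hci) h1⟩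

/-- NZ. A homogeneous element of `{., F} + (F - 1)` is a bracket. -/
theorem nz [CharZero K] (hF : F.IsHomogeneous d) (hd : d ≠ 0)
    (hci : CI (pderiv 0 F) (pderiv 1 F)) {n : ℕ} {r u w : R2 K} (hr : r.IsHomogeneous n)
    (h : r = br u F + (F - 1) * w) : ∃ v, r = br v F := by
  obtain ⟨d, rfl⟩ : ∃ e, d = e + 1 := ⟨d - 1, by omega⟩
  have h' : r = br u F + w * F - w := by rw [h]; ring
  have hi : ∀ m, hc (m + (d + 1)) r = hc (m + (d + 1)) (br u F) + F * hc m w -
      hc (m + (d + 1)) w := fun m => by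
    rw [h', hc_sub, hc_add, hc_mul_hom _ _ hF, mul_comm]
  have lo : ∀ m, m < d + 1 → hc m r = hc m (br u F) - hc m w := fun m hm => by
    rw [h', hc_sub, hc_add, hc_of_mm (Ideal.mul_mem_left _ w (mm_hom hF)) hm, add_zero]
  have asc : ∀ m, m < n → ∃ v, hc m w = br v F := by
    intro m
    induction m using Nat.strong_induction_on with
    | _ m ih =>
      intro hm
      obtain ⟨v, -, -, hv⟩ := hc_br_ex hF m u
      have h0 := hc_ne hr hm.ne
      by_cases h1 : m < d + 1
      · exact ⟨v, by linear_combination lo m h1 - h0 + hv⟩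
      · obtain ⟨j, rfl⟩ : ∃ j, m = j + (d + 1) := ⟨m - (d + 1), by omega⟩
        obtain ⟨v', hv'⟩ := ih j (by omega) (by omega)
        exact ⟨v + F * v', by
          rw [br_add, br_F_mul]; linear_combination hi j - h0 + hv + F * hv'⟩
  obtain ⟨N, hN⟩ := exists_DL w
  have desc : ∀ j m, N ≤ m + j → n < m + (d + 1) → ∃ v, hc m w = br v F := by
    intro j
    induction j with
    | zero => exact fun m hm _ => ⟨0, by rw [hN.hc_eq (by omega), br_zero]⟩
    | succ j ih =>
      intro m hm hn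
      obtain ⟨v, hv⟩ := ih (m + (d + 1)) (by omega) (by omega)
      obtain ⟨v', -, -, hv'⟩ := hc_br_ex hF (m + (d + 1)) u
      refine br_of_F_mul hF hci (hc_hom m w) (u := v - v') ?_
      rw [br_sub]
      linear_combination -hi m + hc_ne hr hn.ne' + hv - hv'
  obtain ⟨v, -, -, hv⟩ := hc_br_ex hF n u
  obtain ⟨v1, hv1⟩ := desc N n (by omega) (by omega)
  by_cases h1 : n < d + 1
  · exact ⟨v - v1, by rw [br_sub]; linear_combination lo n h1 - hc_self hr + hv - hv1⟩
  · obtain ⟨j, rfl⟩ : ∃ j, n = j + (d + 1) := ⟨n - (d + 1), by omega⟩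
    obtain ⟨v2, hv2⟩ := asc j (by omega)
    exact ⟨v + F * v2 - v1, by
      rw [br_sub, br_add, br_F_mul]
      linear_combination hi j - hc_self hr + hv + F * hv2 - hv1⟩

theorem br_mem_jac (u F : R2 K) : br u F ∈ Ideal.span {pderiv 0 F, pderiv 1 F} :=
  Ideal.mem_span_pair.2 ⟨-pderiv 1 u, pderiv 0 u, by simp only [br]; ring⟩

theorem nz_jac [CharZero K] (hF : F.IsHomogeneous d) (hd : d ≠ 0)
    (hci : CI (pderiv 0 F) (pderiv 1 F)) {n : ℕ} {r u w : R2 K} (hr : r.IsHomogeneous n)
    (h : r = br u F + (F - 1) * w) : r ∈ Ideal.span {pderiv 0 F, pderiv 1 F} := by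
  obtain ⟨v, rfl⟩ := nz hF hd hci hr h
  exact br_mem_jac _ _

theorem nz_zero [CharZero K] (hF : F.IsHomogeneous d) (hci : CI (pderiv 0 F) (pderiv 1 F))
    {n : ℕ} {r u w : R2 K} (hr : r.IsHomogeneous n) (hn : n + 2 ≤ d)
    (h : r = br u F + (F - 1) * w) : r = 0 := by
  obtain ⟨v, hv⟩ := nz hF (by omega) hci hr h
  obtain ⟨d, rfl⟩ : ∃ e, d = e + 1 := ⟨d - 1, by omega⟩
  rw [← hc_self hr, hv]
  exact hc_of_mm (br_mm hF v) (by omega)

/-- A polynomial whose bracket vanishes on the curve is constant on the curve. -/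
theorem const_of_dvd_br [CharZero K] (hF : F.IsHomogeneous d) (hd : d ≠ 0)
    (hci : CI (pderiv 0 F) (pderiv 1 F)) {u : R2 K} (h : F - 1 ∣ br u F) :
    ∃ c : K, F - 1 ∣ u - C c := by
  obtain ⟨d, rfl⟩ : ∃ e, d = e + 1 := ⟨d - 1, by omega⟩
  have hF0 := ne_zero_of_ci hF hci
  obtain ⟨N, hN⟩ := exists_DL u
  induction N generalizing u with
  | zero => exact ⟨0, by rw [hN.eq_zero]; simp⟩
  | succ N ih =>
    cases N with
    | zero =>
      have h1 : u = C (coeff 0 u) := totalDegree_eq_zero_iff_eq_C.1 (Nat.le_zero.1 (DL_iff.1 hN))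
      exact ⟨coeff 0 u, by rw [← h1]; simp⟩
    | succ N =>
      have hdv : F ∣ br (hc (N + 1) u) F := by
        obtain ⟨w, hw⟩ := h
        have hb : DL (N + d + 1) (br u F) := by
          have := vf_DL (a := d) (n := N + 1) (DL.of_hom (hom_pderiv 1 hF))
            (DL.of_hom (hom_pderiv 0 hF)).neg hN
          rw [br_eq_vf]
          exact this.mono (by omega)
        by_cases hw0 : w = 0
        · rw [← hc_br hF, hw, hw0, mul_zero, hc_self (isHomogeneous_zero _ _ _)]
          exact dvd_zero _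
        obtain ⟨j, hj, hj0⟩ := exists_top hw0
        have h1 : DL (d + 1 + 1) (F - 1) :=
          (DL.of_hom hF).sub ((DL.of_hom (isHomogeneous_one _ _)).mono (by omega))
        have h2 : hc (d + 1 + j) (br u F) = F * hc j w := by
          rw [hw, hc_mul_top h1 hj, hc_sub, hc_self hF,
            hc_ne (isHomogeneous_one _ _) (by omega), sub_zero]
        have h3 := lt_of_hc_ne hb (h2 ▸ mul_ne_zero hF0 hj0)
        rw [← hc_br hF]
        rcases (show d + 1 + j = N + d ∨ d + 1 + j < N + d by omega) with h4 | h4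
        · rw [← h4, h2]; exact dvd_mul_right _ _
        · rw [hw, (h1.mul hj).hc_eq (by omega)]; exact dvd_zero _
      obtain ⟨η, hη⟩ := tf hF hci (hc_hom (N + 1) u) (by omega) hdv
      have hηd : DL (N + 1) η := by
        by_cases h0 : η = 0
        · rw [h0]; exact DL.zero _
        obtain ⟨j, hj, hj0⟩ := exists_top h0
        have h2 : hc (d + 1 + j) (hc (N + 1) u) = F * hc j η := by
          rw [hη, hc_mul_top (DL.of_hom hF) hj, hc_self hF]
        have h3 := lt_of_hc_ne (DL.of_hom (hc_hom (N + 1) u)) (h2 ▸ mul_ne_zero hF0 hj0)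
        exact hj.mono (by omega)
      have e : u - (F - 1) * η = u - hc (N + 1) u + η := by rw [hη]; ring
      obtain ⟨c, hc'⟩ := ih (u := u - (F - 1) * η) (by
        rw [br_sub, br_mul, br_sub, br_self, br_one, sub_self, zero_mul, zero_add]
        exact dvd_sub h (dvd_mul_right _ _)) (by rw [e]; exact hN.sub_hc.add hηd)
      refine ⟨c, ?_⟩
      have : u - C c = u - (F - 1) * η - C c + (F - 1) * η := by ring
      rw [this]
      exact dvd_add hc' (dvd_mul_right _ _)

/-- A point of the curve `F = 1` moving along the Hamiltonian field. -/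
structure Cv (F : R2 K) {E : Type*} [CommRing E] [Algebra K E] (D : Derivation K E E)
    (w : Fin 2 → E) : Prop where
  one : aeval w F = 1
  dx : D (w 0) = aeval w (pderiv 1 F)
  dy : D (w 1) = -aeval w (pderiv 0 F)

theorem der_aeval {E : Type*} [CommRing E] [Algebra K E] (D : Derivation K E E) (w : Fin 2 → E)
    (u : R2 K) : D (aeval w u) =
      aeval w (pderiv 0 u) * D (w 0) + aeval w (pderiv 1 u) * D (w 1) := by
  induction u using MvPolynomial.induction_on with
  | C a => simp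
  | add p q hp hq => simp only [map_add, hp, hq]; ring
  | mul_X p l hp =>
    simp only [map_mul, map_add, Derivation.leibniz, hp, smul_eq_mul, aeval_X]
    fin_cases l <;> simp <;> ring

namespace Cv

section ring
variable {E : Type*} [CommRing E] [Algebra K E] {D : Derivation K E E} {w : Fin 2 → E}

theorem der (h : Cv F D w) (u : R2 K) : D (aeval w u) = aeval w (br u F) := by
  rw [der_aeval, h.dx, h.dy]
  simp only [br, map_sub, map_mul]; ring

theorem sub_one (h : Cv F D w) : aeval w (F - 1) = 0 := by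
  rw [map_sub, h.one, map_one, sub_self]

theorem zero_of_dvd (h : Cv F D w) {u : R2 K} (hu : F - 1 ∣ u) : aeval w u = 0 := by
  obtain ⟨v, rfl⟩ := hu
  rw [map_mul, h.sub_one, zero_mul]

/-- The kernel of the evaluation. -/
theorem ker [CharZero K] [Nontrivial E] (h : Cv F D w) (hF : F.IsHomogeneous d) (hd : d ≠ 0)
    (hci : CI (pderiv 0 F) (pderiv 1 F)) {u : R2 K} : aeval w u = 0 ↔ F - 1 ∣ u := by
  refine ⟨fun hu => ?_, h.zero_of_dvd⟩
  by_contra hn
  have := simple hF hd hci (I := RingHom.ker (aeval w : R2 K →ₐ[K] E)) h.sub_one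
    (fun v hv => by
      rw [RingHom.mem_ker] at hv ⊢
      rw [← h.der, hv, map_zero]) hu hn
  exact RingHom.ker_ne_top _ this

/-- The denominator lemma. -/
theorem denom [CharZero K] (h : Cv F D w) (hF : F.IsHomogeneous d) (hd : d ≠ 0)
    (hci : CI (pderiv 0 F) (pderiv 1 F)) {η : E} {u v g : R2 K} (hv : aeval w v ≠ 0)
    (hη : aeval w v * η = aeval w u) (hD : D η = aeval w g) : ∃ s : R2 K, η = aeval w s := by
  let I : Ideal (R2 K) :=
    { carrier := {a | ∃ s : R2 K, aeval w a * η = aeval w s}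
      add_mem' := by
        rintro a b ⟨s, hs⟩ ⟨t, ht⟩
        exact ⟨s + t, by rw [map_add, map_add, add_mul, hs, ht]⟩
      zero_mem' := ⟨0, by simp⟩
      smul_mem' := by
        rintro c a ⟨s, hs⟩
        exact ⟨c * s, by rw [smul_eq_mul, map_mul, map_mul, mul_assoc, hs]⟩ }
  have hI : I = ⊤ := by
    refine simple hF hd hci (g := v) ⟨0, by rw [h.sub_one, zero_mul, map_zero]⟩ ?_ ⟨u, hη⟩
      fun hh => hv (h.zero_of_dvd hh)
    rintro a ⟨s, hs⟩
    refine ⟨br s F - a * g, ?_⟩
    have := congrArg D hs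
    rw [Derivation.leibniz, h.der, h.der, hD, smul_eq_mul, smul_eq_mul] at this
    rw [map_sub, map_mul]
    linear_combination this
  obtain ⟨s, hs⟩ : (1 : R2 K) ∈ I := hI ▸ Submodule.mem_top
  exact ⟨s, by simpa using hs⟩

end ring

variable {E : Type*} [Field E] [Algebra K E] {D : Derivation K E E} {w : Fin 2 → E}

/-- Polynomials whose value is a derivative. -/
theorem bt [CharZero K] (h : Cv F D w) (hF : F.IsHomogeneous d) (hd : d ≠ 0)
    (hci : CI (pderiv 0 F) (pderiv 1 F)) {η : E} {u v r : R2 K} (hv : aeval w v ≠ 0)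
    (hη : aeval w v * η = aeval w u) (hD : D η = aeval w r) :
    ∃ a b, r = br a F + (F - 1) * b := by
  obtain ⟨s, rfl⟩ := h.denom hF hd hci hv hη hD
  rw [h.der] at hD
  obtain ⟨b, hb⟩ := (h.ker hF hd hci (u := r - br s F)).1 (by rw [map_sub, hD, sub_self])
  exact ⟨s, b, by linear_combination hb⟩

/-- The constants. -/
theorem const [CharZero K] (h : Cv F D w) (hF : F.IsHomogeneous d) (hd : d ≠ 0)
    (hci : CI (pderiv 0 F) (pderiv 1 F)) {η : E} {u v : R2 K} (hv : aeval w v ≠ 0)
    (hη : aeval w v * η = aeval w u) (hD : D η = 0) : ∃ c : K, η = algebraMap K E c := by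
  obtain ⟨s, rfl⟩ := h.denom hF hd hci (g := 0) hv hη (by rw [hD, map_zero])
  rw [h.der, h.ker hF hd hci] at hD
  obtain ⟨c, hc⟩ := const_of_dvd_br hF hd hci hD
  have := h.zero_of_dvd hc
  rw [map_sub, aeval_C, sub_eq_zero] at this
  exact ⟨c, this⟩

theorem frac {η : E} (h : η ∈ IntermediateField.adjoin K (Set.range w)) :
    ∃ u v : R2 K, aeval w v ≠ 0 ∧ aeval w v * η = aeval w u := by
  obtain ⟨u, v, rfl⟩ := (IntermediateField.mem_adjoin_range_iff K w η).1 h
  by_cases hv : aeval w v = 0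
  · exact ⟨0, 1, by simp, by simp [hv]⟩
  · exact ⟨u, v, hv, mul_div_cancel₀ _ hv⟩

/-- The field generated by the point is stable under the derivation. -/
theorem der_mem (h : Cv F D w) {η : E} (hη : η ∈ IntermediateField.adjoin K (Set.range w)) :
    D η ∈ IntermediateField.adjoin K (Set.range w) := by
  have key : ∀ u : R2 K, aeval w u ∈ IntermediateField.adjoin K (Set.range w) := fun u =>
    (IntermediateField.mem_adjoin_range_iff K w _).2 ⟨u, 1, by simp⟩
  obtain ⟨u, v, hv, e⟩ := frac hη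
  have := congrArg D e
  rw [Derivation.leibniz, h.der, h.der, smul_eq_mul, smul_eq_mul] at this
  have e2 : D η = (aeval w (br u F) - η * aeval w (br v F)) / aeval w v := by
    rw [eq_div_iff hv]; linear_combination this
  rw [e2]
  exact div_mem (sub_mem (key _) (mul_mem hη (key _))) (key _)

theorem bt' [CharZero K] (h : Cv F D w) (hF : F.IsHomogeneous d) (hd : d ≠ 0)
    (hci : CI (pderiv 0 F) (pderiv 1 F)) {η : E} {r : R2 K}
    (hη : η ∈ IntermediateField.adjoin K (Set.range w)) (hD : D η = aeval w r) :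
    ∃ a b, r = br a F + (F - 1) * b :=
  let ⟨_, _, hv, e⟩ := frac hη
  h.bt hF hd hci hv e hD

theorem const' [CharZero K] (h : Cv F D w) (hF : F.IsHomogeneous d) (hd : d ≠ 0)
    (hci : CI (pderiv 0 F) (pderiv 1 F)) {η : E}
    (hη : η ∈ IntermediateField.adjoin K (Set.range w)) (hD : D η = 0) :
    ∃ c : K, η = algebraMap K E c :=
  let ⟨_, _, hv, e⟩ := frac hη
  h.const hF hd hci hv e hD

/-- A homogeneous polynomial of low degree is not a derivative on the curve. -/
theorem nz_zero' [CharZero K] (h : Cv F D w) (hF : F.IsHomogeneous d)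
    (hci : CI (pderiv 0 F) (pderiv 1 F)) {η : E} {r : R2 K} {n : ℕ} (hr : r.IsHomogeneous n)
    (hn : n + 2 ≤ d) (hη : η ∈ IntermediateField.adjoin K (Set.range w))
    (hD : D η = aeval w r) : r = 0 :=
  let ⟨_, _, e⟩ := h.bt' hF (by omega) hci hη hD
  nz_zero hF hci hr hn e

end Cv

end Pool.Agent.MP_05b4bd_ag.Esc

end MrgPart0

-- ======== part 1: formerly Pool.Agent.MP_05b4bd_ag.esc.GL0
section MrgPart1

namespace Pool.Agent.MP_05b4bd_ag.Esc

open MvPolynomial HC

/-- Degree at most `d`, no constant term, the other coefficients algebraically independent. -/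
def Gen {k : Type*} [Field k] [CharZero k] (d : ℕ) (f : R2 k) : Prop :=
  DL (d + 1) f ∧ coeff 0 f = 0 ∧ AlgebraicIndependent ℚ fun m : Mo1 d => coeff m.1 f

/-- Brackets with `F` plus multiples of `F - 1`. -/
def Bt {A : Type*} [CommRing A] (F r : R2 A) : Prop := ∃ a b, r = br a F + (F - 1) * b

/-- Abstract expansion at infinity: `c m g` is the class of the coefficient of `W ^ m` in the
Gelfand-Leray form of `g`, and `ev` is the class of a polynomial on the curve. -/
structure GLD {k Q : Type*} [Field k] [AddCommGroup Q] [Module k Q] (d : ℕ) (f : R2 k)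
    (ev : R2 k →ₗ[k] Q) (c : ℤ → R2 k →ₗ[k] Q) : Prop where
  ker : ∀ r, ev r = 0 ↔ Bt (hc d f) r
  mul : ∀ m g, c m (f * g) = c (m + d) g
  div : ∀ (m : ℤ) (A B : R2 k), (d : k) • c (m + d) (pderiv 0 A + pderiv 1 B) =
    -((m : k) • c m (A * pderiv 0 f + B * pderiv 1 f))
  ham : ∀ m u, c m (br u f) = 0
  low : ∀ (n : ℕ) (g : R2 k), DL n g → ∀ m : ℤ, m + n + 2 ≤ d → c m g = 0
  top : ∀ (n : ℕ) (g : R2 k), DL (n + 1) g → c ((d : ℤ) - 2 - n) g = ev (hc n g)

end Pool.Agent.MP_05b4bd_ag.Esc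

end MrgPart1

-- ======== part 2: formerly Pool.Agent.MP_05b4bd_ag.esc.Der
section MrgPart2

namespace Pool.Agent.MP_05b4bd_ag.Esc

open IntermediateField

theorem der_extend {R S T M : Type*} [CommRing R] [CommRing S] [CommRing T] [Algebra R S]
    [Algebra R T] [Algebra S T] [IsScalarTower R S T] [Algebra.FormallyEtale S T]
    [AddCommGroup M] [Module R M] [Module S M] [Module T M] [IsScalarTower R S M]
    [IsScalarTower R T M] [IsScalarTower S T M] (δ : Derivation R S M) :
    ∃ δ' : Derivation R T M, ∀ s, δ' (algebraMap S T s) = δ s := by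
  have h := KaehlerDifferential.isBaseChange_of_formallyEtale R S T
  refine ⟨(h.lift δ.liftKaehlerDifferential).compDer (KaehlerDifferential.D R T), fun s => ?_⟩
  change h.lift δ.liftKaehlerDifferential (KaehlerDifferential.D R T (algebraMap S T s)) = _
  rw [← KaehlerDifferential.map_D R R S T, h.lift_eq, Derivation.liftKaehlerDifferential_comp_D]

open scoped IntermediateField.algebraAdjoinAdjoin in
theorem derext {E L ι : Type*} [Field E] [Field L] [Algebra E L] [CharZero E] (v : ι → L)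
    (hv : AlgebraicIndependent E v) (a : ι → L) :
    ∃ δ : Derivation E L L, ∀ i, δ (v i) = a i := by
  classical
  obtain ⟨t, hst, ht⟩ := exists_isTranscendenceBasis_superset (R := E) (s := Set.range v)
    hv.to_subtype_range
  let S := MvPolynomial t E
  let A := Algebra.adjoin E (Set.range ((↑) : t → L))
  let K := IntermediateField.adjoin E (Set.range ((↑) : t → L))
  let _ : Algebra S A := ht.1.aevalEquiv.toRingEquiv.toRingHom.toAlgebra
  let _ : Algebra S L := (MvPolynomial.aeval ((↑) : t → L)).toRingHom.toAlgebra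
  have : IsScalarTower S A L := IsScalarTower.of_algebraMap_eq fun _ => rfl
  have : IsScalarTower E S A := IsScalarTower.of_algebraMap_eq fun c =>
    (ht.1.aevalEquiv.commutes c).symm
  have : IsScalarTower E S L := IsScalarTower.of_algebraMap_eq fun c =>
    ((MvPolynomial.aeval ((↑) : t → L)).commutes c).symm
  have : Algebra.FormallyEtale S A :=
    .of_equiv (AlgEquiv.ofBijective (Algebra.ofId S A) ht.1.aevalEquiv.bijective)
  have : Algebra.FormallyEtale A K := .of_isLocalization (nonZeroDivisors _)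
  have := ht.isAlgebraic_field
  have : Algebra.FormallyEtale K L := .of_isSeparable _ _
  let b : t → L := fun x => if h : ∃ i, v i = x.1 then a h.choose else 0
  obtain ⟨δ1, h1⟩ := der_extend (T := A) (MvPolynomial.mkDerivation E b : Derivation E S L)
  obtain ⟨δ2, h2⟩ := der_extend (T := K) δ1
  obtain ⟨δ3, h3⟩ := der_extend (T := L) δ2
  refine ⟨δ3, fun i => ?_⟩
  have h4 : v i = algebraMap K L (algebraMap A K (algebraMap S A
      (MvPolynomial.X ⟨v i, hst ⟨i, rfl⟩⟩))) := by
    change v i = MvPolynomial.aeval ((↑) : t → L) (MvPolynomial.X ⟨v i, hst ⟨i, rfl⟩⟩)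
    simp
  rw [h4, h3, h2, h1, MvPolynomial.mkDerivation_X]
  have h5 : ∃ j, v j = v i := ⟨i, rfl⟩
  simp only [b]
  rw [dif_pos h5, hv.injective h5.choose_spec]

theorem derext_one {E L : Type*} [Field E] [Field L] [Algebra E L] [CharZero E] (x : L)
    (hx : Transcendental E x) (a : L) : ∃ δ : Derivation E L L, δ x = a := by
  obtain ⟨δ, h⟩ := derext (E := E) (fun _ : Unit => x)
    (algebraicIndependent_unique_type_iff.2 hx) (fun _ => a)
  exact ⟨δ, h ()⟩

theorem isAlgebraic_of_der {E L : Type*} [Field E] [Field L] [Algebra E L] [CharZero E] (x : L)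
    (h : ∀ δ : Derivation E L L, δ x = 0) : IsAlgebraic E x := by
  by_contra hx
  obtain ⟨δ, h1⟩ := derext_one x hx 1
  exact one_ne_zero (h1.symm.trans (h δ))

section Ker

variable {k L M : Type*} [Field k] [Field L] [Algebra k L] [AddCommGroup M] [Module k M]
  [Module L M] [IsScalarTower k L M]

def derKer (δ : Derivation k L M) : IntermediateField k L where
  carrier := {x | δ x = 0}
  mul_mem' := fun {a b} ha hb => by
    simp only [Set.mem_ofPred_eq] at ha hb ⊢
    rw [δ.leibniz, ha, hb, smul_zero, smul_zero, add_zero]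
  add_mem' := fun {a b} ha hb => by
    simp only [Set.mem_ofPred_eq] at ha hb ⊢
    rw [map_add, ha, hb, add_zero]
  algebraMap_mem' := fun c => δ.map_algebraMap c
  inv_mem' := fun a ha => by
    simp only [Set.mem_ofPred_eq] at ha ⊢
    rw [δ.leibniz_inv, ha, smul_zero]

omit [IsScalarTower k L M] in
theorem mem_derKer (δ : Derivation k L M) (x : L) : x ∈ derKer δ ↔ δ x = 0 := Iff.rfl

omit [IsScalarTower k L M] in
theorem der_eq_zero_of_isAlgebraic [CharZero k] (δ : Derivation k L M) {K : Type*} [Field K]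
    [Algebra K L] (hK : ∀ c : K, δ (algebraMap K L c) = 0) {x : L} (hx : IsAlgebraic K x) :
    δ x = 0 := by
  have : CharZero L := charZero_of_injective_algebraMap (algebraMap k L).injective
  have : CharZero K := (algebraMap K L).charZero
  let _ : Module K M := Module.compHom M (algebraMap K L)
  have hs : ∀ (c : K) (m : M), c • m = algebraMap K L c • m := fun _ _ => rfl
  have : IsScalarTower K L M := ⟨fun c a m => by rw [hs, Algebra.smul_def, mul_smul]⟩
  let δ' : Derivation K L M := Derivation.mk'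
    { toFun := δ
      map_add' := δ.map_add
      map_smul' := fun c a => by
        rw [Algebra.smul_def, δ.leibniz, hK, smul_zero, add_zero, RingHom.id_apply, hs] }
    δ.leibniz
  have h1 := δ'.map_aeval (minpoly K x) x
  rw [minpoly.aeval, map_zero] at h1
  have h2 : Polynomial.aeval x (minpoly K x).derivative ≠ 0 :=
    (minpoly.irreducible hx.isIntegral).separable.aeval_derivative_ne_zero (minpoly.aeval K x)
  exact (smul_eq_zero.1 h1.symm).resolve_left h2

omit [IsScalarTower k L M] in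
theorem der_eq_zero_of_adjoin [CharZero k] (δ : Derivation k L M) {s : Set L}
    (hs : ∀ y ∈ s, δ y = 0) {x : L} (hx : IsAlgebraic (adjoin k s) x) : δ x = 0 :=
  der_eq_zero_of_isAlgebraic δ
    (fun c => (mem_derKer δ _).1 ((adjoin_le_iff (T := derKer δ)).2 hs c.2)) hx

theorem exists_D_eq_smul [CharZero k] (η x : L) (h : ∀ z : L, IsAlgebraic k⟮η⟯ z) :
    ∃ w : L, KaehlerDifferential.D k L x = w • KaehlerDifferential.D k L η := by
  let N : Submodule L Ω[L⁄k] := Submodule.span L {KaehlerDifferential.D k L η}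
  have h1 : (N.mkQ.compDer (KaehlerDifferential.D k L)) x = 0 :=
    der_eq_zero_of_adjoin _ (s := {η}) (fun y hy => by
      rw [Set.mem_singleton_iff.1 hy]
      exact (Submodule.Quotient.mk_eq_zero N).2 (Submodule.mem_span_singleton_self _)) (h x)
  obtain ⟨w, hw⟩ := Submodule.mem_span_singleton.1 ((Submodule.Quotient.mk_eq_zero N).1 h1)
  exact ⟨w, hw.symm⟩

theorem adjoin_gen_eq_top (η : L) : k⟮AdjoinSimple.gen k η⟯ = ⊤ := by
  apply lift_injective
  rw [lift_adjoin_simple, lift_top]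
  rfl

theorem exists_D_eq_smul' [CharZero k] {K : Type*} [Field K] [Algebra k K] [Algebra K L]
    [IsScalarTower k K L] (η : K) (hη : k⟮η⟯ = ⊤) {x : L} (hx : IsAlgebraic K x) :
    ∃ w : L, KaehlerDifferential.D k L x = w • KaehlerDifferential.D k L (algebraMap K L η) := by
  let N : Submodule L Ω[L⁄k] := Submodule.span L {KaehlerDifferential.D k L (algebraMap K L η)}
  have h1 : (N.mkQ.compDer (KaehlerDifferential.D k L)) x = 0 := by
    refine der_eq_zero_of_isAlgebraic _ (fun c => ?_) hx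
    have h2 : k⟮η⟯ ≤ (derKer (N.mkQ.compDer (KaehlerDifferential.D k L))).comap
        (IsScalarTower.toAlgHom k K L) := by
      rw [adjoin_simple_le_iff]
      exact (Submodule.Quotient.mk_eq_zero N).2 (Submodule.mem_span_singleton_self _)
    exact h2 (hη ▸ mem_top : c ∈ k⟮η⟯)
  obtain ⟨w, hw⟩ := Submodule.mem_span_singleton.1 ((Submodule.Quotient.mk_eq_zero N).1 h1)
  exact ⟨w, hw.symm⟩

theorem der_eq_smul {η x w : L}
    (h : KaehlerDifferential.D k L x = w • KaehlerDifferential.D k L η) (δ : Derivation k L M) :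
    δ x = w • δ η := by
  rw [← δ.liftKaehlerDifferential_comp_D x, h, map_smul, δ.liftKaehlerDifferential_comp_D]

theorem isAlgebraic_exchange [CharZero k] {x η : L} (h : ∀ z : L, IsAlgebraic k⟮x⟯ z)
    (δ : Derivation k L M) (hη : δ η ≠ 0) (z : L) : IsAlgebraic k⟮η⟯ z := by
  refine isAlgebraic_of_der z fun δ' => ?_
  obtain ⟨w, hw⟩ := exists_D_eq_smul x η h
  obtain ⟨w', hw'⟩ := exists_D_eq_smul x z h
  have h1 : w ≠ 0 := fun h0 => hη (by rw [der_eq_smul hw δ, h0, zero_smul])
  have h2 := der_eq_smul hw (δ'.restrictScalars k)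
  have h3 := der_eq_smul hw' (δ'.restrictScalars k)
  have h4 : δ' η = 0 := δ'.map_algebraMap (AdjoinSimple.gen k η)
  simp only [Derivation.restrictScalars_apply] at h2 h3
  rw [h4] at h2
  rw [h3, (smul_eq_zero.1 h2.symm).resolve_left h1, smul_zero]

end Ker

end Pool.Agent.MP_05b4bd_ag.Esc

end MrgPart2

-- ======== part 3: formerly Pool.Agent.MP_05b4bd_ag.esc.Gen
section MrgPart3

namespace Pool.Agent.MP_05b4bd_ag.Esc

open MvPolynomial HC

variable {k : Type*} [Field k]

theorem indep_of_card [CharZero k] {ι κ : Type} [Finite κ] {a : ι → k}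
    (ha : AlgebraicIndependent ℚ a) (g : κ → k) (hm : ∀ i, a i ∈ Algebra.adjoin ℚ (Set.range g))
    (e : κ → ι) (he : Function.Injective e) : AlgebraicIndependent ℚ g := by
  let A := Algebra.adjoin ℚ (Set.range g)
  let g' : κ → A := fun j => ⟨g j, Algebra.subset_adjoin ⟨j, rfl⟩⟩
  have h1 : Algebra.adjoin ℚ (Set.range g') = ⊤ := by
    apply Subalgebra.map_injective (f := A.val) Subtype.val_injective
    rw [AlgHom.map_adjoin, ← Set.range_comp, Algebra.map_top, Subalgebra.range_val]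
    rfl
  have : Algebra.IsAlgebraic (Algebra.adjoin ℚ (Set.range g')) A := ⟨fun x =>
    isAlgebraic_algebraMap (⟨x, h1 ▸ Algebra.mem_top⟩ : Algebra.adjoin ℚ (Set.range g'))⟩
  have h2 : AlgebraicIndependent ℚ fun i => (⟨a i, hm i⟩ : A) :=
    AlgebraicIndependent.of_comp A.val ha
  have h3 := Algebra.IsAlgebraic.isTranscendenceBasis_of_lift_le_trdeg_of_finite ℚ g'
    ((Cardinal.lift_le.2 (Cardinal.mk_le_of_injective he)).trans h2.lift_cardinalMk_le_trdeg)
  exact h3.1.map' (f := A.val) Subtype.val_injective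

def Crit {A : Type*} [CommRing A] (f : R2 A) (p : Fin 2 → A) : Prop :=
  ∀ i, eval p (pderiv i f) = 0

noncomputable def loc {A : Type*} [CommRing A] (f : R2 A) (p : Fin 2 → A) : R2 A :=
  tr p f - C (eval p f)

theorem pderiv_loc {A : Type*} [CommRing A] (f : R2 A) (p : Fin 2 → A) (i : Fin 2) :
    pderiv i (loc f p) = tr p (pderiv i f) := by
  rw [loc, map_sub, pderiv_C, sub_zero, tr_pderiv]

theorem tr_br {A : Type*} [CommRing A] (p : Fin 2 → A) (u f : R2 A) :
    tr p (br u f) = br (tr p u) (loc f p) := by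
  simp only [br, pderiv_loc, tr_pderiv, map_sub, map_mul]

theorem mm_two [CharZero k] {u : R2 k} (h0 : coeff 0 u = 0) (h1 : ∀ i, coeff 0 (pderiv i u) = 0) :
    u ∈ mm k ^ 2 := by
  refine mm_succ (mem_mm_one.2 h0) ?_
  have a := h1 0
  have b := h1 1
  rw [coeff_eq_co, co_x] at a
  rw [coeff_eq_co, co_y] at b
  rw [hom1_eq (hc_hom 1 u), co_hc 1 0, co_hc 0 1]
  simp at a b
  simp [a, b, lf]

theorem Crit.loc_mm [CharZero k] {f : R2 k} {p : Fin 2 → k} (hp : Crit f p) :
    loc f p ∈ mm k ^ 2 :=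
  mm_two (by rw [loc, coeff_sub, coeff_zero_tr, coeff_zero_C, sub_self])
    fun i => by rw [pderiv_loc, coeff_zero_tr, hp i]

theorem der_eval {R A : Type*} [CommRing R] [CommRing A] [Algebra R A] (δ : Derivation R A A)
    (p : Fin 2 → A) (u : R2 A) : δ (eval p u) = eval p (cm δ.toLinearMap.toAddMonoidHom u) +
      (eval p (pderiv 0 u) * δ (p 0) + eval p (pderiv 1 u) * δ (p 1)) := by
  have hD : ∀ a b : A, δ.toLinearMap.toAddMonoidHom (a * b) =
      δ.toLinearMap.toAddMonoidHom a * b + a * δ.toLinearMap.toAddMonoidHom b := fun a b => by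
    change δ (a * b) = δ a * b + a * δ b
    rw [δ.leibniz, smul_eq_mul, smul_eq_mul]
    ring
  have hX : ∀ i, cm δ.toLinearMap.toAddMonoidHom (X i : R2 A) = 0 := fun i => by
    classical
    ext m
    rw [coeff_cm, coeff_X]
    change δ _ = _
    split_ifs <;> simp
  induction u using MvPolynomial.induction_on with
  | C c =>
    have : cm δ.toLinearMap.toAddMonoidHom (C c : R2 A) = C (δ c) := by
      classical
      ext m
      rw [coeff_cm, coeff_C, coeff_C]
      change δ _ = _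
      split_ifs <;> simp
    simp [this]
  | add u v hu hv => simp only [map_add, cm_add, hu, hv]; ring
  | mul_X u i hu =>
    rw [cm_mul _ hD, hX, map_mul, δ.leibniz, hu, eval_X]
    revert i
    refine Fin.forall_fin_two.2 ⟨?_, ?_⟩ <;> simp <;> ring

namespace Gen

variable [CharZero k] {d : ℕ} {f : R2 k}

theorem map {K : Type*} [Field K] [CharZero K] (φ : k →+* K) (H : Gen d f) :
    Gen d (MvPolynomial.map φ f) :=
  ⟨H.1.map φ, by rw [coeff_map, H.2.1, map_zero], by
    simp only [coeff_map]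
    exact H.2.2.map' (f := φ.toRatAlgHom) φ.injective⟩

theorem indC (H : Gen d f) (hd : 1 ≤ d) {p : Fin 2 → k} (hp : Crit f p) : IndC d (loc f p) := by
  have h2 := hp.loc_mm
  have hl : DL (d + 1) (loc f p) := (tr_DL p H.1).sub ((DL_C _).mono (by omega))
  refine ⟨h2, hl, ?_⟩
  let g : Mo d ⊕ Fin 2 → k := Sum.elim (fun m => coeff m.1 (loc f p)) p
  let e : Mo d ⊕ Fin 2 → Mo1 d := Sum.elim (fun m => ⟨m.1, by have := m.2; omega⟩)
    fun i => ⟨Finsupp.single i 1, by rw [Finsupp.degree_single]; omega⟩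
  have he : Function.Injective e := by
    rintro (m | i) (m' | j) h
    · have h1 : m.1 = m'.1 := congrArg (fun z : Mo1 d => z.1) h
      exact congrArg _ (Subtype.ext h1)
    · have h1 : m.1 = Finsupp.single j 1 := congrArg Subtype.val h
      have := m.2
      rw [h1, Finsupp.degree_single] at this
      omega
    · have h1 : Finsupp.single i 1 = m'.1 := congrArg Subtype.val h
      have := m'.2
      rw [← h1, Finsupp.degree_single] at this
      omega
    · exact congrArg _ (Finsupp.single_left_injective one_ne_zero (congrArg Subtype.val h))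
  refine (indep_of_card H.2.2 g (fun m => ?_) e he).comp Sum.inl Sum.inl_injective
  let A := Algebra.adjoin ℚ (Set.range g)
  let g' : Mo d ⊕ Fin 2 → A := fun j => ⟨g j, Algebra.subset_adjoin ⟨j, rfl⟩⟩
  have h3 : MvPolynomial.map A.val.toRingHom
      (tr (fun i => -g' (.inr i)) (fU fun m => g' (.inl m))) = f - C (eval p f) := by
    rw [map_tr, map_fU]
    change tr (-p) (fU fun m : Mo d => coeff m.1 (loc f p)) = _
    rw [← eq_fU h2 hl, loc, map_sub, tr_tr]
    congr 1
    exact algHom_C _ _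
  have h4 := congrArg (coeff m.1) h3
  have h5 : m.1 ≠ 0 := fun h => by
    have := m.2.1
    rw [h] at this
    simp at this
  classical
  rw [coeff_map, coeff_sub, coeff_C, if_neg h5.symm, sub_zero] at h4
  rw [← h4]
  exact Subtype.prop _

theorem indF (H : Gen d f) (hd : 1 ≤ d) : IndF d (hc d f) := by
  refine ⟨hc_hom _ _, ?_⟩
  have := H.2.2.comp (fun j : Fin (d + 1) => (⟨Finsupp.single (0 : Fin 2) (d - (j : ℕ)) +
      Finsupp.single 1 (j : ℕ), by
    rw [deg2]
    simp
    omega⟩ : Mo1 d)) fun i j e => Fin.ext (by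
      simpa using DFunLike.congr_fun (congrArg Subtype.val e) 1)
  convert this using 2 with j
  conv_lhs => enter [3, 1]; rw [show d = d - j + j by omega]
  exact co_hc _ _ _

theorem ci {e : ℕ} (H : Gen (e + 2) f) :
    CI (pderiv 0 (hc (e + 2) f)) (pderiv 1 (hc (e + 2) f)) := (H.indF (by omega)).ci

theorem top {e : ℕ} (H : Gen (e + 2) f) :
    CI (hc (e + 1) (pderiv 0 f)) (hc (e + 1) (pderiv 1 f)) := by
  rw [hc_pderiv, hc_pderiv]
  exact H.ci

theorem exists_der (H : Gen d f) (hd : 1 ≤ d) (i : Fin 2) :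
    ∃ δ : Derivation ℚ k k, cm δ.toLinearMap.toAddMonoidHom f = X i := by
  classical
  obtain ⟨δ, hδ⟩ := derext _ H.2.2 fun m => if Finsupp.single i 1 = m.1 then 1 else 0
  refine ⟨δ, ?_⟩
  ext m
  rw [coeff_cm, coeff_X]
  change δ _ = _
  by_cases h : 1 ≤ m.degree ∧ m.degree ≤ d
  · exact hδ ⟨m, h⟩
  · rw [if_neg fun e => h (by rw [← e, Finsupp.degree_single]; omega)]
    by_cases h0 : m = 0
    · rw [h0, H.2.1, map_zero]
    · have : m.degree ≠ 0 := fun e => h0 ((Finsupp.degree_eq_zero_iff m).1 e)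
      rw [H.1 m (by omega), map_zero]

theorem crit_inj (H : Gen d f) (hd : 1 ≤ d) {p q : Fin 2 → k} (hp : Crit f p) (hq : Crit f q)
    (h : eval p f = eval q f) : p = q := by
  funext i
  obtain ⟨δ, hδ⟩ := H.exists_der hd i
  have h1 := der_eval δ p f
  have h2 := der_eval δ q f
  rw [hδ, hp 0, hp 1, eval_X] at h1
  rw [hδ, hq 0, hq 1, eval_X, ← h, h1] at h2
  simpa using h2

theorem exists_unit_mul {e : ℕ} (H : Gen (e + 2) f) {p : Fin 2 → k} (hp : Crit f p) {u : R2 k}
    (hu : eval p u = 0) : ∃ s, eval p s = 1 ∧ s * u ∈ Jac f := by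
  have I := H.indC (by omega) hp
  obtain ⟨-, l1⟩ := I.low (by omega)
  have hl := low_gen (mm_pderiv 0 I.1) (mm_pderiv 1 I.1) (hc1_x _) (hc1_y _)
    fun h => l1 (by linear_combination -h)
  have h1 : mm k ≤ Jac (loc f p) ⊔ mm k • mm k := by
    rw [smul_eq_mul, ← sq]
    have : ∀ i, (X i : R2 k) ∈ Jac (loc f p) ⊔ mm k ^ 2 := fun i => by
      obtain ⟨j, hj, h⟩ := hl i
      have := add_mem (Ideal.mem_sup_left (T := mm k ^ 2) hj) (Ideal.mem_sup_right h)
      rwa [add_sub_cancel] at this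
    exact mm_le (this 0) (this 1)
  obtain ⟨r, hr, h2⟩ := Submodule.exists_sub_one_mem_and_smul_le_of_fg_of_le_sup
    (idealOfVars_fg (Fin 2) k) le_rfl h1
  have h3 : tr p u ∈ mm k := by
    have := mem_mm_one.2 ((coeff_zero_tr p u).trans hu)
    rwa [pow_one] at this
  obtain ⟨a, b, hab⟩ := Ideal.mem_span_pair.1 (h2 (Submodule.smul_mem_pointwise_smul _ r _ h3))
  refine ⟨tr (-p) r, ?_, Ideal.mem_span_pair.2 ⟨tr (-p) a, tr (-p) b, ?_⟩⟩
  · have h4 := mem_mm_one.1 (by rwa [pow_one] : r - 1 ∈ mm k ^ 1)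
    rw [coeff_sub, coeff_zero_one, sub_eq_zero] at h4
    rw [← coeff_zero_tr, tr_tr', h4]
  · have h4 := congrArg (tr (-p)) hab
    simpa only [map_add, map_mul, pderiv_loc, tr_tr, smul_eq_mul] using h4

theorem mem_jac [IsAlgClosed k] {e : ℕ} (H : Gen (e + 2) f) {u : R2 k}
    (hu : ∀ p, Crit f p → eval p u = 0) : u ∈ Jac f := by
  by_contra hn
  have h1 : (Jac f).colon {u} ≠ ⊤ := fun h => hn (by
    have : (1 : R2 k) ∈ (Jac f).colon {u} := h ▸ Submodule.mem_top
    simpa [Submodule.mem_colon] using this)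
  obtain ⟨m, hm, hle⟩ := Ideal.exists_le_maximal _ h1
  obtain ⟨p, rfl⟩ := isMaximal_iff_eq_vanishingIdeal_singleton.1 hm
  have key : ∀ s, s * u ∈ Jac f → eval p s = 0 := fun s hs => by
    have := hle (show s ∈ (Jac f).colon {u} by simpa [Submodule.mem_colon] using hs)
    rw [mem_vanishingIdeal_singleton_iff] at this
    exact this
  have hp : Crit f p := fun i => key _ (Ideal.mul_mem_right _ _ (Ideal.subset_span (by
    fin_cases i <;> simp)))
  obtain ⟨s, h2, h3⟩ := H.exists_unit_mul hp (hu p hp)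
  exact one_ne_zero (h2.symm.trans (key s h3))

theorem exists_ann {e : ℕ} (H : Gen (e + 2) f) :
    ∃ μ : Polynomial k, μ ≠ 0 ∧ ∀ p, Crit f p → μ.IsRoot (eval p f) := by
  obtain ⟨M, hM⟩ := jac_red H.1 H.top
  have : Module.Finite k (R2 k ⧸ Jac f) :=
    Module.Finite.of_surjective ((Ideal.Quotient.mkₐ k (Jac f)).toLinearMap ∘ₗ (dl k M).subtype)
      fun z => by
        obtain ⟨u, rfl⟩ := Ideal.Quotient.mk_surjective z
        obtain ⟨r, h1, h2⟩ := hM u
        exact ⟨⟨r, h1⟩, (Ideal.Quotient.eq.2 h2).symm⟩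
  obtain ⟨μ, h0, h1⟩ := IsAlgebraic.of_finite k (Ideal.Quotient.mkₐ k (Jac f) f)
  refine ⟨μ, h0, fun p hp => ?_⟩
  rw [Polynomial.aeval_algHom_apply, Ideal.Quotient.mkₐ_eq_mk, Ideal.Quotient.eq_zero_iff_mem] at h1
  obtain ⟨a, b, hab⟩ := Ideal.mem_span_pair.1 h1
  have h2 := congrArg (aeval p) hab
  rw [← Polynomial.aeval_algHom_apply] at h2
  simp only [map_add, map_mul, aeval_eq_eval, hp 0, hp 1, mul_zero, add_zero,
    Polynomial.coe_aeval_eq_eval] at h2
  exact h2.symm

theorem crit_finite {e : ℕ} (H : Gen (e + 2) f) : {p | Crit f p}.Finite := by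
  classical
  obtain ⟨μ, h0, h1⟩ := H.exists_ann
  refine Set.Finite.of_finite_image (f := fun p => eval p f)
    (μ.roots.toFinset.finite_toSet.subset ?_) fun p hp q hq h => H.crit_inj (by omega) hp hq h
  rintro _ ⟨p, hp, rfl⟩
  simpa [h0] using h1 p hp

theorem exists_sep {e : ℕ} (H : Gen (e + 2) f) {p : Fin 2 → k} (hp : Crit f p) :
    ∃ q : Polynomial k, q.eval (eval p f) ≠ 0 ∧ ∀ p', Crit f p' → p' ≠ p →
      q.eval (eval p' f) = 0 := by
  classical
  refine ⟨∏ p' ∈ H.crit_finite.toFinset.erase p, (Polynomial.X - Polynomial.C (eval p' f)),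
    ?_, fun p' h1 h2 => ?_⟩
  · rw [Polynomial.eval_prod, Finset.prod_ne_zero_iff]
    intro p' h1 h2
    simp only [Finset.mem_erase, Set.Finite.mem_toFinset] at h1
    simp only [Polynomial.eval_sub, Polynomial.eval_X, Polynomial.eval_C, sub_eq_zero] at h2
    exact h1.1 (H.crit_inj (by omega) hp h1.2 h2).symm
  · rw [Polynomial.eval_prod]
    exact Finset.prod_eq_zero (i := p') (by simpa [h2] using h1) (by simp)

end Gen

theorem ham_id {A : Type*} [CommRing A] [Algebra ℚ A] (f a b h : R2 A) :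
    a * pderiv 0 f + b * pderiv 1 f - br (-pot (a - h * pderiv 1 f) (b + h * pderiv 0 f)) f =
      ad 0 (pderiv 0 a + pderiv 1 b - br h f) * pderiv 0 f := by
  have e : pderiv 0 (a - h * pderiv 1 f) + pderiv 1 (b + h * pderiv 0 f) =
      pderiv 0 a + pderiv 1 b - br h f := by
    simp only [map_sub, map_add, pderiv_mul, pderiv_comm, br]; ring
  conv_lhs => rw [br]
  rw [map_neg, map_neg, pot_x, pot_y, e]; ring

theorem ham_exact {A : Type*} [CommRing A] [Algebra ℚ A] {f a b h : R2 A}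
    (H : pderiv 0 a + pderiv 1 b = br h f) : ∃ g, a * pderiv 0 f + b * pderiv 1 f = br g f :=
  ⟨_, sub_eq_zero.1 (by rw [ham_id f a b h, H, sub_self, map_zero, zero_mul])⟩

theorem nn_eq [CharZero k] {e : ℕ} (he : 1 ≤ e) {f : R2 k} (H : IndC (e + 2) f) {u : R2 k}
    (hu : u ∈ NN f) : ∃ h, u = br h f := by
  obtain ⟨n, hn⟩ := exists_DL u
  induction n using Nat.strong_induction_on generalizing u with
  | _ n ih =>
  obtain ⟨-, l1⟩ := H.low (by omega)
  obtain ⟨a, b, e1⟩ := Ideal.mem_span_pair.1 (H.le_Jac he hu)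
  obtain ⟨a', b', ha, hb, e'⟩ := kos_top (n := n - (e + 1)) (H.2.1.pderiv 0) (H.2.1.pderiv 1)
    H.top a b (by rw [e1]; exact hn.mono (by omega))
  rw [e1] at e'
  rcases h : n - (e + 1) with _ | m
  · rw [h] at ha hb
    rw [← e', ha.eq_zero, hb.eq_zero]
    exact ⟨0, by simp [br]⟩
  rw [h] at ha hb
  have h1 : pderiv 0 a' + pderiv 1 b' ∈ NN f := fun N => by
    obtain ⟨g, hg⟩ := hu (N + 2)
    exact ham_down H.1 (by
      rw [hc1_x, hc1_y]; exact CI_lf fun h => l1 (by linear_combination -h)) (e' ▸ hg)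
  obtain ⟨g, hg⟩ := ih m (by omega) h1 ((ha.pderiv 0).add (hb.pderiv 1))
  rw [← e']
  exact ham_exact hg

end Pool.Agent.MP_05b4bd_ag.Esc

end MrgPart3

-- ======== part 4: formerly Pool.Agent.MP_05b4bd_ag.esc.IL
section MrgPart4

namespace Pool.Agent.MP_05b4bd_ag.Esc

open MvPolynomial HC

variable {k : Type} [Field k] [CharZero k]

theorem Gen.of_es {d : ℕ} {f : R2 k} (H : ES.Gen d f) : Gen d f := ⟨H.2.1, H.1, H.2.2⟩

theorem Gen.to_es {d : ℕ} {f : R2 k} (H : Gen d f) : ES.Gen d f := ⟨H.2.1, H.1, H.2.2⟩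

omit [CharZero k] in
theorem eval_aeval_f (p : Fin 2 → k) (f : R2 k) (q : Polynomial k) :
    eval p (Polynomial.aeval f q) = q.eval (eval p f) := by
  have := Polynomial.aeval_algHom_apply (aeval p) f q
  simp only [aeval_eq_eval, Polynomial.coe_aeval_eq_eval] at this
  exact this.symm

theorem Gen.of_NN {e : ℕ} (he : 1 ≤ e) {f : R2 k} (H : Gen (e + 2) f) {p : Fin 2 → k}
    (hp : Crit f p) {u : R2 k} (hu : tr p u ∈ NN (loc f p)) : ∃ v, u = br v f := by
  obtain ⟨h, hh⟩ := nn_eq he (H.indC (by omega) hp) hu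
  refine ⟨tr (-p) h, ?_⟩
  have h1 := congrArg (tr (-p)) hh
  rw [tr_tr] at h1
  rw [h1]
  simp only [br, pderiv_loc, tr_pderiv, map_sub, map_mul, tr_tr]

/-- A subspace stable under `f` and compatible with the divergence is everything, or consists of
brackets. -/
theorem Gen.module [IsAlgClosed k] {e : ℕ} (he : 1 ≤ e) {f : R2 k} (H : Gen (e + 2) f)
    (N : Submodule k (R2 k)) (h1 : ∀ g ∈ N, f * g ∈ N)
    (h2 : ∀ a b, a * pderiv 0 f + b * pderiv 1 f ∈ N → pderiv 0 a + pderiv 1 b ∈ N) :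
    (∀ g ∈ N, ∃ v, g = br v f) ∨ ∃ K0, ∀ u, ∃ n ∈ N, DL K0 n ∧ u - n ∈ Jac f := by
  classical
  have hq : ∀ (q : Polynomial k), ∀ g ∈ N, Polynomial.aeval f q * g ∈ N := fun q g hg => by
    induction q using Polynomial.induction_on with
    | C a => rw [Polynomial.aeval_C, ← Algebra.smul_def]; exact N.smul_mem a hg
    | add a b ha hb => rw [map_add, add_mul]; exact add_mem ha hb
    | monomial n a h =>
      rw [pow_succ, ← mul_assoc, map_mul, Polynomial.aeval_X, mul_comm _ f, mul_assoc]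
      exact h1 _ h
  by_cases hc : ∃ p, Crit f p ∧ ∀ g ∈ N, eval p g = 0
  · obtain ⟨p, hp, h0⟩ := hc
    obtain ⟨q, hq0, hq1⟩ := H.exists_sep hp
    refine Or.inl fun g hg => H.of_NN he hp fun M => ?_
    induction M generalizing g with
    | zero => exact ⟨0, mm_zero _⟩
    | succ M ih =>
      have hco : IsCoprime q ((Polynomial.X - Polynomial.C (eval p f)) ^ (M + 1)) :=
        ((Polynomial.irreducible_X_sub_C _).coprime_iff_not_dvd.2
          fun h => hq0 (Polynomial.dvd_iff_isRoot.1 h)).symm.pow_right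
      obtain ⟨s, r, hsr⟩ := hco
      have h3 := hq q _ (hq s g hg)
      obtain ⟨a, b, hab⟩ := Ideal.mem_span_pair.1 (H.mem_jac (u := Polynomial.aeval f q *
        (Polynomial.aeval f s * g)) fun p' hp' => by
          by_cases h : p' = p
          · rw [h]; exact h0 _ h3
          · rw [map_mul, eval_aeval_f, hq1 p' hp' h, zero_mul])
      obtain ⟨h, hh⟩ := ih _ (h2 a b (hab ▸ h3))
      rw [map_add, ← tr_pderiv, ← tr_pderiv] at hh
      have h4 := Ideal.mul_mem_right (pderiv 0 (loc f p)) _ (ad_mm 0 hh)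
      rw [← ham_id, pderiv_loc, pderiv_loc, ← map_mul, ← map_mul, ← map_add, hab] at h4
      have h5 : tr p ((f - C (eval p f)) ^ (M + 1)) ∈ mm k ^ (M + 1) := by
        rw [map_pow, map_sub, algHom_C]
        exact mm_mono (by omega) (mm_pow hp.loc_mm (M + 1))
      have h6 := congrArg (Polynomial.aeval f) hsr
      simp only [map_add, map_mul, map_pow, map_sub, Polynomial.aeval_X, Polynomial.aeval_C,
        map_one, algebraMap_eq] at h6
      have h7 := add_mem h4 (Ideal.mul_mem_right (tr p (Polynomial.aeval f r * g)) _ h5)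
      rw [sub_add_eq_add_sub, ← map_mul, ← map_add, show Polynomial.aeval f q *
        (Polynomial.aeval f s * g) + (f - C (eval p f)) ^ (M + 1) * (Polynomial.aeval f r * g) = g by
          linear_combination g * h6] at h7
      exact ⟨_, h7⟩
  · push Not at hc
    choose n hn hn0 using hc
    choose q hq0 hq1 using fun p (hp : Crit f p) => H.exists_sep hp
    let s := H.crit_finite.toFinset
    have hs : ∀ p : s, Crit f p.1 := fun p => H.crit_finite.mem_toFinset.1 p.2
    let w : s → R2 k := fun p => Polynomial.aeval f (q p (hs p)) * n p (hs p)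
    choose K hK using fun p => exists_DL (w p)
    refine Or.inr ⟨Finset.univ.sup K, fun u => ⟨∑ p, (eval p.1 u / eval p.1 (w p)) • w p,
      N.sum_mem fun p _ => N.smul_mem _ (hq _ _ (hn _ _)), DL.sum _ fun p _ =>
        (dl k _).smul_mem _ ((hK p).mono (Finset.le_sup (Finset.mem_univ p))), H.mem_jac ?_⟩⟩
    intro p hp
    have hp' : p ∈ s := H.crit_finite.mem_toFinset.2 hp
    rw [map_sub, map_sum, Finset.sum_eq_single ⟨p, hp'⟩, smul_eq_C_mul, map_mul, eval_C,
      div_mul_cancel₀, sub_self]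
    · rw [map_mul, eval_aeval_f]
      exact mul_ne_zero (hq0 _ _) (hn0 _ _)
    · intro p' _ h
      rw [smul_eq_C_mul, map_mul, map_mul (eval p), eval_aeval_f, hq1 _ _ p hp
        fun e => h (Subtype.ext e.symm), zero_mul, mul_zero]
    · simp

theorem il_abs {M : Type} [IsAlgClosed k] [AddCommGroup M] [Module k M] {d : ℕ} {f : R2 k}
    {c : ℤ → R2 k →ₗ[k] M} {e : R2 k →ₗ[k] M} {BB Λ : Submodule k M} (hd : 3 ≤ d) (H : Gen d f)
    (G : ES.GLax d f c e BB) (hB : BB ≤ Λ) {g : R2 k} (hg : ∀ u, g ≠ br u f)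
    (hc0 : ∀ m : ℤ, ¬ (d : ℤ) ∣ m → c m g ∈ Λ) {n : ℕ} {r : R2 k} (hr : r.IsHomogeneous n)
    (hn : ¬ d ∣ n + 2) : e r ∈ Λ := by
  obtain ⟨e', rfl⟩ : ∃ e', d = e' + 2 := ⟨d - 2, by omega⟩
  set d := e' + 2 with hde
  let N : Submodule k (R2 k) := ⨅ (m : ℤ) (_ : ¬ (d : ℤ) ∣ m), Λ.comap (c m)
  have hN : ∀ u, u ∈ N ↔ ∀ m : ℤ, ¬ (d : ℤ) ∣ m → c m u ∈ Λ := fun u => by
    simp only [N, Submodule.mem_iInf, Submodule.mem_comap]
  have hd0 : (d : k) ≠ 0 := Nat.cast_ne_zero.2 (by omega)
  have up : ∀ (m : ℤ) a b, c (m - d) (a * pderiv 0 f + b * pderiv 1 f) ∈ Λ →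
      c m (pderiv 0 a + pderiv 1 b) ∈ Λ := fun m a b h => by
    simpa using sub_mem (hB (G.div m a b)) (Λ.smul_mem (((m : k) - d) / d) h)
  have dn : ∀ (m : ℤ) a b, ¬ (d : ℤ) ∣ m → c (m + d) (pderiv 0 a + pderiv 1 b) ∈ Λ →
      c m (a * pderiv 0 f + b * pderiv 1 f) ∈ Λ := fun m a b hm h => by
    have h1 := sub_mem (hB (G.div (m + d) a b)) h
    rw [add_sub_cancel_left, add_sub_cancel_right] at h1
    refine (Λ.smul_mem_iff ?_).1 h1
    have : (m : k) ≠ 0 := Int.cast_ne_zero.2 fun e => hm (e ▸ dvd_zero _)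
    push_cast
    rw [add_sub_cancel_right]
    exact div_ne_zero this hd0
  have hadd : ∀ m : ℤ, (d : ℤ) ∣ m + d ↔ (d : ℤ) ∣ m := fun m => dvd_add_self_right
  have hsub : ∀ m : ℤ, (d : ℤ) ∣ m - d ↔ (d : ℤ) ∣ m := fun m => dvd_sub_self_right
  rcases H.module (by omega) N (fun u hu => (hN _).2 fun m hm => by
      rw [G.mul]; exact (hN _).1 hu _ (mt (hadd m).1 hm))
    (fun a b h => (hN _).2 fun m hm => up m a b ((hN _).1 h _ (mt (hsub m).1 hm))) with h | ⟨K0, h⟩
  · obtain ⟨v, hv⟩ := h g ((hN g).2 hc0)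
    exact (hg v hv).elim
  let K := K0 + n + 1
  let W : ℕ → Submodule k (R2 k) := fun j =>
    ⨅ (m : ℤ) (_ : m < j * d - K) (_ : ¬ (d : ℤ) ∣ m), Λ.comap (c m)
  have hW : ∀ j u, u ∈ W j ↔ ∀ m : ℤ, m < j * d - K → ¬ (d : ℤ) ∣ m → c m u ∈ Λ := fun j u => by
    simp only [W, Submodule.mem_iInf, Submodule.mem_comap]
  have hd1 : (1 : ℤ) ≤ d := by exact_mod_cast (by omega : 1 ≤ d)
  obtain ⟨j0, hj⟩ := IsArtinian.monotone_stabilizes (R := k) (M := dl k K)
    ⟨fun j => OrderDual.toDual ((W j).comap (dl k K).subtype), fun i j hij u hu =>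
      (hW i _).2 fun m hm => (hW j _).1 hu m (by
        have : (i : ℤ) * d ≤ j * d := Int.mul_le_mul_of_nonneg_right (by exact_mod_cast hij) (by omega)
        omega)⟩
  have key : ∀ j, j ≤ j0 → ∀ u, DL K u → u ∈ W j → u ∈ N := by
    intro j hj0
    induction hj0 using Nat.decreasingInduction with
    | self =>
      refine fun u hu h0 => (hN u).2 fun m hm => ?_
      have h1 : (W j0).comap (dl k K).subtype = (W (j0 + (m + K).toNat + 1)).comap _ :=
        hj (j0 + (m + K).toNat + 1) (by omega)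
      have h2 : (⟨u, hu⟩ : dl k K) ∈ (W j0).comap (dl k K).subtype := h0
      rw [h1] at h2
      refine (hW _ _).1 h2 m ?_ hm
      have := le_mul_of_one_le_right (a := ((j0 + (m + K).toNat + 1 : ℕ) : ℤ)) (by omega) hd1
      omega
    | of_succ j _ ih =>
      intro u hu h0
      obtain ⟨v, hv, h1, h2⟩ := h u
      obtain ⟨a, b, hab⟩ := Ideal.mem_span_pair.1 h2
      obtain ⟨a', b', ha, hb, h3⟩ := kos_top (n := K + 1) (H.1.pderiv 0) (H.1.pderiv 1) H.top a b
        (by rw [hab]; exact (hu.sub (h1.mono (by omega))).mono (by omega))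
      rw [hab] at h3
      have h4 := ih _ ((ha.pderiv 0).add (hb.pderiv 1)) ((hW _ _).2 fun m hm hm' => up m a' b' (by
        rw [h3, map_sub]
        refine sub_mem ((hW _ _).1 h0 _ ?_ (mt (hsub m).1 hm')) ((hN _).1 hv _ (mt (hsub m).1 hm'))
        push_cast at hm ⊢
        linarith))
      have h5 : u - v ∈ N := h3 ▸ (hN _).2 fun m hm =>
        dn m a' b' hm ((hN _).1 h4 _ (mt (hadd m).1 hm))
      simpa using add_mem h5 hv
  have hr1 := DL.of_hom hr
  have h6 := key 0 (Nat.zero_le _) r (hr1.mono (by omega)) ((hW _ _).2 fun m hm _ => by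
    rw [G.low n m r hr1 (by omega)]; exact zero_mem _)
  have h7 := (hN _).1 h6 (d - 2 - n) fun h => hn (by
    have := dvd_sub (dvd_refl (d : ℤ)) h
    rw [show (d : ℤ) - (d - 2 - n) = ((n + 2 : ℕ) : ℤ) by omega] at this
    exact_mod_cast this)
  rwa [G.lead n r hr1, hc_self hr] at h7

theorem gen_top {d : ℕ} {f : R2 k} (hd : 2 ≤ d) (H : ES.Gen d f) :
    IndF d (hc d f) ∧ CI (pderiv 0 (hc d f)) (pderiv 1 (hc d f)) ∧ co d 0 (hc d f) ≠ 0 ∧
      co 0 d (hc d f) ≠ 0 ∧
      ∀ (k' : Type) [Field k'] [CharZero k'] (j : k →+* k'), ES.Gen d (MvPolynomial.map j f) := by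
  have H := Gen.of_es H
  have h1 := H.indF (by omega)
  obtain ⟨e, rfl⟩ : ∃ e, d = e + 2 := ⟨d - 2, by omega⟩
  refine ⟨h1, H.ci, h1.2.ne_zero 0, ?_, fun k' _ _ j => (H.map j).to_es⟩
  simpa using h1.2.ne_zero (Fin.last _)

theorem gen_crit {d : ℕ} {f : R2 k} (hd : 2 ≤ d) (H : ES.Gen d f) (p : Fin 2 → k)
    (hp : ∀ i, eval p (pderiv i f) = 0) : IndC d (tr p f - C (eval p f)) :=
  (Gen.of_es H).indC (by omega) hp

theorem gen_jac [IsAlgClosed k] {d : ℕ} {f : R2 k} (hd : 3 ≤ d) (H : ES.Gen d f) :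
    ∃ s : Finset (Fin 2 → k), s.Nonempty ∧ (∀ p, p ∈ s ↔ ∀ i, eval p (pderiv i f) = 0) ∧
      (∀ p ∈ s, ∀ q ∈ s, eval p f = eval q f → p = q) ∧
      (∀ u, (∀ p ∈ s, eval p u = 0) → u ∈ Jac f) ∧
      ∀ p ∈ s, ∀ u, tr p u ∈ NN (tr p f - C (eval p f)) → ∃ v, u = br v f := by
  have H := Gen.of_es H
  obtain ⟨e, rfl⟩ : ∃ e, d = e + 2 := ⟨d - 2, by omega⟩
  have hs : ∀ p, p ∈ H.crit_finite.toFinset ↔ Crit f p := fun p => H.crit_finite.mem_toFinset
  have hj : ∀ u, (∀ p ∈ H.crit_finite.toFinset, eval p u = 0) → u ∈ Jac f := fun u hu =>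
    H.mem_jac fun p hp => hu p ((hs p).2 hp)
  refine ⟨_, ?_, hs, fun p hp q hq => H.crit_inj (by omega) ((hs p).1 hp) ((hs q).1 hq), hj,
    fun p hp u hu => H.of_NN (by omega) ((hs p).1 hp) hu⟩
  by_contra h
  obtain ⟨a, b, hab⟩ := Ideal.mem_span_pair.1 (hj 1 fun p hp => (h ⟨p, hp⟩).elim)
  obtain ⟨a', b', ha, hb, h3⟩ := kos_top (n := 0) (H.1.pderiv 0) (H.1.pderiv 1) H.top a b
    (by rw [hab]; exact (DL_C 1).mono (by omega))
  rw [hab, ha.eq_zero, hb.eq_zero] at h3
  simp at h3

end Pool.Agent.MP_05b4bd_ag.Esc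

end MrgPart4

-- marker of a merged file
example : 731051 + 649046 = 731051 + 649046 := rfl
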