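import Pool.Agent.MP_05b4bd_ag.esc.K2b
import Pool.Agent.MP_05b4bd_ag.esc.Bx
import Mathlib.FieldTheory.AlgebraicClosure

-- ======== part 0: formerly Pool.Agent.MP_05b4bd_ag.esc.K2
section MrgPart0

/-! Kit 2: the maps `iT` and `out`. -/

namespace Pool.Agent.MP_05b4bd_ag.ES

open PowerSeries LaurentSeries

variable {R S T A B : Type} [CommRing R] [CommRing S] [CommRing T] [CommRing A] [CommRing B]

section Out
theorem iT_apply (c : AA R) : iT c = map (coeL R) (swap c) := rfl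
theorem out_apply (ε : ℕ) (c : AA R) : out ε c = rescale (wL R (-(ε : ℤ))) (iT c) := rfl
theorem coeff_iT (c : AA R) (n : ℕ) : coeff n (iT c) = coeL R (coeff n (swap c)) := by
  rw [iT_apply, coeff_map]
theorem iT_inj : Function.Injective (iT (R := R)) := fun a b h => by
  have e : swap a = swap b := PowerSeries.ext fun n =>
    coeL_inj (by rw [← coeff_iT, ← coeff_iT, h])
  rw [← swap_swap a, e, swap_swap]
theorem iT_C (c : R⟦X⟧) : iT (C c) = map (cL R) c := by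
  refine PowerSeries.ext fun n => ?_
  rw [coeff_iT, swap_C, coeff_map, coeff_map, coeL_C]
theorem iT_mapC (c : R⟦X⟧) : iT (map C c) = C (coeL R c) := by
  rw [iT_apply, swap_mapC, map_C]
theorem iT_CC (r : R) : iT (CC r) = C (cL R r) := by
  rw [CC_apply, iT_C, map_C]
theorem iT_CX : iT (C X : AA R) = X := by
  rw [iT_C, map_X]
theorem iT_X : iT (X : AA R) = C (wL R 1) := by
  rw [iT_apply, swap_X, map_C, coeL_X]
theorem cc_iT (c : AA R) : cc (iT c) = coeL R (red c) := by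
  rw [← coeff_zero_eq_constantCoeff_apply, coeff_iT, coeff_zero_eq_constantCoeff_apply, cc_swap]
theorem cw_thP_swap (c : AA R) : cw (thP R) (swap c) = swap (thP _ c) := by
  refine co2_ext fun i j => ?_
  have e : (i : R⟦X⟧) = C (i : R) := by simp
  rw [co2_swap, co2, coeff_cw, coeff_thP, co2, coeff_thP, e, coeff_C_mul]
  exact congrArg _ (co2_swap i j c)
theorem th_iT (c : AA R) : cw (thL R) (iT c) = iT (thP _ c) := by
  refine PowerSeries.ext fun n => ?_
  rw [coeff_cw, coeff_iT, coeff_iT, thL_coeL, ← cw_thP_swap, coeff_cw]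
theorem dL_iT (c : AA R) : cw (dL R) (iT c) = iT (dX _ c) := by
  refine PowerSeries.ext fun n => ?_
  rw [coeff_cw, coeff_iT, coeff_iT, dL_coeL, ← cw_dX_swap, coeff_cw]
theorem cw_iT (L : A →+ B) (c : AA A) : cw (cwL L) (iT c) = iT (cw (cw L) c) := by
  refine PowerSeries.ext fun n => ?_
  rw [coeff_cw, coeff_iT, coeff_iT, cwL_coeL, ← cw_cw_swap, coeff_cw]
theorem dX_iT (c : AA R) : dX _ (iT c) = iT (cw (dX R) c) := by
  rw [iT_apply, iT_apply, dX_map, dX_swap]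
theorem coeff_mT (τ : A →+* B) (s : TT A) (n : ℕ) : coeff n (mT τ s) = mapL τ (coeff n s) :=
  coeff_map _ _ _
theorem mT_iT (τ : A →+* B) (c : AA A) : mT τ (iT c) = iT (mA τ c) := by
  refine PowerSeries.ext fun n => ?_
  rw [coeff_mT, coeff_iT, coeff_iT, mapL_coeL, ← mA_swap, mA, coeff_map]
theorem mT_inj {τ : A →+* B} (h : Function.Injective τ) : Function.Injective (mT τ) :=
  fun a b e => PowerSeries.ext fun n => mapL_inj h (by rw [← coeff_mT, ← coeff_mT, e])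
theorem exists_mT {τ : A →+* B} (hτ : Function.Injective τ) {s : TT B}
    (h : ∀ i n, ∃ a, (coeff i s).coeff n = τ a) : ∃ s', s = mT τ s' :=
  exists_map_of_coeff fun i => exists_mapL hτ (h i)
theorem X_pow_dvd_iT (n : ℕ) (c : AA R) : X ^ n ∣ iT c ↔ C X ^ n ∣ c := by
  rw [X_pow_dvd_iff, CX_pow_dvd_iff]
  refine ⟨fun h i j hi => ?_, fun h m hm => ?_⟩
  · have h1 : coeff i (swap c) = 0 := coeL_inj (by rw [← coeff_iT, h i hi, map_zero])
    rw [← co2_swap, co2, h1, map_zero]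
  · have h1 : coeff m (swap c) = 0 := PowerSeries.ext fun j => by
      have := h m j hm
      rw [← co2_swap, co2] at this
      rw [this, map_zero]
    rw [coeff_iT, h1, map_zero]
theorem out_zero : out (R := R) 0 = iT := by
  refine RingHom.ext fun c => ?_
  rw [out_apply, Nat.cast_zero, neg_zero, wL_zero, rescale_one, RingHom.id_apply]
theorem coeff_out (ε : ℕ) (c : AA R) (n : ℕ) :
    coeff n (out ε c) = wL R (n * -(ε : ℤ)) * coeL R (coeff n (swap c)) := by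
  rw [out_apply, coeff_rescale, wL_pow, coeff_iT]
theorem out_inj (ε : ℕ) : Function.Injective (out (R := R) ε) := fun a b h => by
  refine iT_inj (PowerSeries.ext fun n => ?_)
  have e : coeff n (out ε a) = coeff n (out ε b) := by rw [h]
  rw [coeff_out, coeff_out] at e
  rw [coeff_iT, coeff_iT]
  exact (isUnit_wL _).mul_left_cancel e
theorem rescale_C' (a r : R) : rescale a (C r) = C r := by
  refine PowerSeries.ext fun n => ?_
  rw [coeff_rescale, coeff_C]
  split_ifs with h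
  · rw [h, pow_zero, one_mul]
  · rw [mul_zero]
theorem out_mapC (ε : ℕ) (c : R⟦X⟧) : out ε (map C c) = C (coeL R c) := by
  rw [out_apply, iT_mapC, rescale_C']
theorem out_CC (ε : ℕ) (r : R) : out ε (CC r) = C (cL R r) := by
  rw [out_apply, iT_CC, rescale_C']
theorem out_X (ε : ℕ) : out ε (X : AA R) = C (wL R 1) := by
  rw [out_apply, iT_X, rescale_C']
theorem out_CX (ε : ℕ) : out ε (C X : AA R) = C (wL R (-(ε : ℤ))) * X := by
  rw [out_apply, iT_CX, rescale_X]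
theorem out_CX_mul (ε : ℕ) : out ε (C X : AA R) * out ε (X : AA R) ^ ε = X := by
  have e : wL R (-(ε : ℤ)) * wL R 1 ^ ε = 1 := by
    rw [wL_pow, ← wL_add, mul_one, neg_add_cancel, wL_zero]
  rw [out_CX, out_X, mul_right_comm, ← map_pow, ← map_mul, e, map_one, one_mul]
theorem out_tA (ε : ℕ) : out ε (tA R ε) = X := by
  rw [tA, map_mul, map_pow, out_CX_mul]
theorem cc_out (ε : ℕ) (c : AA R) : cc (out ε c) = coeL R (red c) := by
  rw [← coeff_zero_eq_constantCoeff_apply, coeff_out, Nat.cast_zero, zero_mul, wL_zero, one_mul,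
    coeff_zero_eq_constantCoeff_apply, cc_swap]
theorem tA_mem (ε : ℕ) : tA R ε ∈ up (up (⊥ : Ideal R)) := by
  have hu : (C X : AA R) ∈ up (up (⊥ : Ideal R)) := by simp [mem_up2, c00_apply]
  exact Ideal.mul_mem_right _ _ hu
theorem out_ev (ε : ℕ) (c : R⟦X⟧) : out ε (ev CC (tA R ε) c) = map (cL R) c := by
  have e1 : ((out ε).comp (ev CC (tA R ε))) X = X := by
    rw [RingHom.comp_apply, ev_X _ (tA_mem ε), out_tA]
  have e : (out ε).comp (ev CC (tA R ε)) = map (cL R) := by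
    refine homExt (up ⊥) (fun r => ?_) ?_ ?_
    · rw [RingHom.comp_apply, ev_C _ (tA_mem ε), out_CC, map_C]
    · rw [e1, map_X]
    · rw [e1]
      exact X_mem_up _
  exact RingHom.congr_fun e c
theorem th_out (ε : ℕ) (c : AA R) : cw (thL R) (out ε c) = out ε (DA R ε c) := by
  refine PowerSeries.ext fun n => ?_
  have e : coeff n (swap (DA R ε c)) =
      thP R (coeff n (swap c)) - C ((ε : R) * n) * coeff n (swap c) := by
    refine PowerSeries.ext fun j => ?_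
    have h1 : coeff j (coeff n (swap (DA R ε c))) = co2 n j (DA R ε c) := co2_swap j n _
    have h2 : coeff j (coeff n (swap c)) = co2 n j c := co2_swap j n _
    rw [h1, co2_DA, map_sub, coeff_thP, coeff_C_mul, h2]
    ring
  rw [coeff_cw, coeff_out, coeff_out, thL_wL_mul, e, map_sub, map_mul, coeL_C, thL_coeL, map_mul,
    map_natCast, map_natCast]
  push_cast
  ring
theorem cw_out (ε : ℕ) (L : A →+ B) (c : AA A) :
    cw (cwL L) (out ε c) = out ε (cw (cw L) c) := by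
  refine PowerSeries.ext fun n => ?_
  rw [coeff_cw, coeff_out, coeff_out, cwL_wL_mul, cwL_coeL, ← cw_cw_swap, coeff_cw]
theorem mT_out (ε : ℕ) (τ : A →+* B) (c : AA A) : mT τ (out ε c) = out ε (mA τ c) := by
  refine PowerSeries.ext fun n => ?_
  rw [coeff_mT, coeff_out, coeff_out, map_mul, mapL_wL, mapL_coeL, ← mA_swap, mA, coeff_map]
theorem isOut_out (ε : ℕ) : IsOut ε (out ε) (coeL R) := by
  refine ⟨⟨fun c => ?_, fun c => ?_⟩, out_CX_mul ε⟩
  · rw [RingHom.comp_apply, out_mapC, constantCoeff_C]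
  · rw [RingHom.comp_apply, RingHom.comp_apply, RingHom.comp_apply, out_mapC, out_mapC, out_mapC,
      dX_C, dX_C, mul_zero]
theorem out_ev2 (ε : ℕ) {M : ℕ} (hM : 1 ≤ M) :
    (out ε).comp (ev2 CC (tA R ε) (X ^ M)) = iT.comp (ram R⟦X⟧ M) := by
  have hz : (X ^ M : AA R) ∈ up (up (⊥ : Ideal R)) := by
    have h : (X : AA R) ∈ up (up (⊥ : Ideal R)) := by simp [mem_up2, c00_apply]
    exact Ideal.pow_mem_of_mem _ h M hM
  have h0 : cc (X ^ M : R⟦X⟧) = 0 := by
    rw [map_pow, constantCoeff_X, zero_pow (by omega)]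
  have e1 : ((out ε).comp (ev2 CC (tA R ε) (X ^ M))) (C X) = X := by
    rw [RingHom.comp_apply, ev2_CX _ (tA_mem ε) hz, out_tA]
  refine homExtT (up ⊥) (fun c => ?_) ?_ ?_
  · have e2 : ram R⟦X⟧ M (map C c) = map C (ram R M c) := by
      rw [ram, ram, map_sb h0, map_pow, map_X]
    have e3 : ev CC (X ^ M : AA R) c = ram R⟦X⟧ M (map C c) := (ev_map _ hz C c).symm
    rw [RingHom.comp_apply, RingHom.comp_apply, ev2_mapC _ (tA_mem ε) hz, e3, e2, out_mapC,
      iT_mapC]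
  · rw [e1, RingHom.comp_apply, ram_C hM, iT_CX]
  · rw [e1]
    exact X_mem_up _
theorem out_thA (ε : ℕ) {N d : ℕ} (hN : 1 ≤ N) (hd : 1 ≤ d) (c : AA R⟦X⟧) :
    map (out ε) (thA R ε N d c) = thU R N d c := by
  refine PowerSeries.ext fun n => ?_
  have e : out ε (X ^ N : AA R) = C (wL R N) := by
    rw [map_pow, out_X, ← map_pow, wL_pow, mul_one]
  rw [thA, thU, RingHom.comp_apply, RingHom.comp_apply, coeff_map, coeff_rescale, coeff_rescale,
    coeff_map, coeff_map, map_mul, map_pow, e, ← out_ev2 ε (Nat.mul_pos hd hN),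
    RingHom.comp_apply]
end Out

end Pool.Agent.MP_05b4bd_ag.ES

end MrgPart0

-- ======== part 1: formerly Pool.Agent.MP_05b4bd_ag.esc.K4a
section MrgPart1

/-! Kit 4: transport of centres, inverse integrating factors, Lienard data. -/

namespace Pool.Agent.MP_05b4bd_ag.ES

open PowerSeries LaurentSeries HC

variable {R S T : Type} [CommRing R] [CommRing S] [CommRing T] {K K' : Type} [Field K] [Field K']

section Cab
variable {d1 d2 : S →+ S} {c : S →+* K} {A B : S}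

theorem map_mem_ker_pow (Φ : S →+* T) {c' : T →+* K'} (j : K →+* K') (hc : ∀ s, c' (Φ s) = j (c s))
    {N : ℕ} {x : S} (hx : x ∈ RingHom.ker c ^ N) : Φ x ∈ RingHom.ker c' ^ N := by
  have h1 : (RingHom.ker c).map Φ ≤ RingHom.ker c' :=
    Ideal.map_le_iff_le_comap.2 fun y hy => by
      rw [Ideal.mem_comap, RingHom.mem_ker, hc, RingHom.mem_ker.1 hy, map_zero]
  have h2 := Ideal.mem_map_of_mem Φ hx
  rw [Ideal.map_pow] at h2
  exact Ideal.pow_right_mono h1 N h2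

/-- Pull-back of a centre along a ring map with a chain rule. -/
theorem Cab.trans (h : Cab d1 d2 c A B) (Φ : S →+* T) {e1 e2 : T →+ T} (h1 : IsDer e1)
    (h2 : IsDer e2) {c' : T →+* K'} (j : K →+* K') (hc : ∀ s, c' (Φ s) = j (c s))
    {J11 J12 J21 J22 lam A' B' : T} (k1 : ∀ s, e1 (Φ s) = J11 * Φ (d1 s) + J12 * Φ (d2 s))
    (k2 : ∀ s, e2 (Φ s) = J21 * Φ (d1 s) + J22 * Φ (d2 s)) (hJ : c' (J11 * J22 - J12 * J21) ≠ 0)
    (hl : c' lam ≠ 0) (eA : lam * A' = J11 * Φ A + J12 * Φ B)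
    (eB : lam * B' = J21 * Φ A + J22 * Φ B) : Cab e1 e2 c' A' B' := by
  obtain ⟨hA, hB, hd, hN⟩ := h
  have a0 : c' (Φ A) = 0 := by rw [hc, hA, map_zero]
  have b0 : c' (Φ B) = 0 := by rw [hc, hB, map_zero]
  have a1 : c' A' = 0 := by
    have := congrArg c' eA
    simp only [map_mul, map_add, a0, b0, mul_zero, add_zero] at this
    exact (mul_eq_zero.1 this).resolve_left hl
  have b1 : c' B' = 0 := by
    have := congrArg c' eB
    simp only [map_mul, map_add, a0, b0, mul_zero, add_zero] at this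
    exact (mul_eq_zero.1 this).resolve_left hl
  have key : ∀ {e : T →+ T}, IsDer e → ∀ {P Q Z : T}, c' Z = 0 → lam * Z = P * Φ A + Q * Φ B →
      c' lam * c' (e Z) = c' P * c' (e (Φ A)) + c' Q * c' (e (Φ B)) := fun {e} he {P Q Z} hZ h => by
    have := congrArg (fun x => c' (e x)) h
    simpa only [map_add, he _ _, map_mul, a0, b0, hZ, mul_zero, zero_add] using this
  refine ⟨a1, b1, fun h0 => ?_, fun N => ?_⟩
  · have f1 := key h1 a1 eA
    have f2 := key h2 a1 eA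
    have f3 := key h1 b1 eB
    have f4 := key h2 b1 eB
    have hd' : c' (Φ (d1 A * d2 B - d2 A * d1 B)) ≠ 0 := by
      rw [hc]; exact (map_ne_zero j).2 hd
    simp only [k1, k2, map_add, map_mul, map_sub] at f1 f2 f3 f4 h0 hJ hd'
    refine mul_ne_zero (pow_ne_zero 2 hJ) hd' ?_
    have g : (c' lam * c' (e1 A')) * (c' lam * c' (e2 B')) -
        (c' lam * c' (e2 A')) * (c' lam * c' (e1 B')) = 0 := by
      linear_combination c' lam ^ 2 * h0
    rw [f1, f2, f3, f4] at g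
    linear_combination g
  · obtain ⟨I, μ, hμ, m1, m2⟩ := hN N
    have n1 := map_mem_ker_pow Φ j hc m1
    have n2 := map_mem_ker_pow Φ j hc m2
    refine ⟨Φ I, Φ μ * lam, ?_, ?_, ?_⟩
    · rw [map_mul, hc]; exact mul_ne_zero ((map_ne_zero j).2 hμ) hl
    · have e : e1 (Φ I) - Φ μ * lam * A' = J11 * Φ (d1 I - μ * A) + J12 * Φ (d2 I - μ * B) := by
        simp only [k1, map_sub, map_mul]; linear_combination (-Φ μ) * eA
      rw [e]; exact add_mem (Ideal.mul_mem_left _ _ n1) (Ideal.mul_mem_left _ _ n2)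
    · have e : e2 (Φ I) - Φ μ * lam * B' = J21 * Φ (d1 I - μ * A) + J22 * Φ (d2 I - μ * B) := by
        simp only [k2, map_sub, map_mul]; linear_combination (-Φ μ) * eB
      rw [e]; exact add_mem (Ideal.mul_mem_left _ _ n1) (Ideal.mul_mem_left _ _ n2)

theorem Cab.trace (h : Cab d1 d2 c A B) (h1 : IsDer d1) (h2 : IsDer d2)
    (hc : ∀ s, d1 (d2 s) = d2 (d1 s)) : c (d2 A) = c (d1 B) := by
  obtain ⟨hA, hB, -, hN⟩ := h
  obtain ⟨I, μ, hμ, m1, m2⟩ := hN 2
  have n1 := h2.mem_pow _ m1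
  have n2 := h1.mem_pow _ m2
  rw [pow_one, RingHom.mem_ker] at n1 n2
  rw [map_sub, h2, map_sub, map_add, map_mul, map_mul, hA] at n1
  rw [map_sub, h1, hc, map_sub, map_add, map_mul, map_mul, hB] at n2
  exact mul_left_cancel₀ hμ (by linear_combination n2 - n1)

theorem Cab.no_factor (h : Cab d1 d2 c A B) (h1 : IsDer d1) (h2 : IsDer d2) {w : S} (hw : c w = 0)
    (hA : w ∣ A) (hB : w ∣ B) : False := by
  obtain ⟨a, rfl⟩ := hA
  obtain ⟨b, rfl⟩ := hB
  refine h.2.2.1 ?_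
  simp only [h1 _ _, h2 _ _, map_sub, map_mul, map_add, hw]
  ring

/-- A derivation extends to a localisation. -/
theorem exists_der_loc (M : Submonoid S) [Algebra S T] [IsLocalization M T] {D : S →+ S}
    (h : IsDer D) : ∃ E : T →+ T, IsDer E ∧ ∀ s, E (algebraMap S T s) = algebraMap S T (D s) := by
  let Φ0 : S →+* DualNumber T :=
    { toFun := fun s => TrivSqZeroExt.inl (algebraMap S T s) +
        TrivSqZeroExt.inr (algebraMap S T (D s))
      map_one' := by ext <;> simp [h.one]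
      map_mul' := fun a b => by
        ext
        · simp
        · rw [DualNumber.snd_mul]
          simp only [TrivSqZeroExt.snd_add, TrivSqZeroExt.fst_add, TrivSqZeroExt.snd_inl,
            TrivSqZeroExt.snd_inr, TrivSqZeroExt.fst_inl, TrivSqZeroExt.fst_inr, h a b,
            map_add, map_mul]
          ring
      map_zero' := by ext <;> simp
      map_add' := fun a b => by ext <;> simp [Algebra.smul_def] }
  have hu : ∀ y : M, IsUnit (Φ0 y) := fun y =>
    TrivSqZeroExt.isUnit_iff_isUnit_fst.2 (by simpa [Φ0] using IsLocalization.map_units T y)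
  let Φ : T →+* DualNumber T := IsLocalization.lift hu
  have h1 : (TrivSqZeroExt.fstHom T T T).toRingHom.comp Φ = RingHom.id T :=
    IsLocalization.ringHom_ext M (RingHom.ext fun s => by
      simp only [RingHom.comp_apply, Φ, IsLocalization.lift_eq]; simp [Φ0])
  have h2 : ∀ a, (Φ a).fst = a := fun a => DFunLike.congr_fun h1 a
  refine ⟨{ toFun := fun a => (Φ a).snd, map_zero' := by simp, map_add' := by simp }, ?_, ?_⟩
  · intro a b
    simp only [AddMonoidHom.coe_mk, ZeroHom.coe_mk, map_mul, DualNumber.snd_mul, h2]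
    ring
  · intro s
    change (Φ (algebraMap S T s)).snd = _
    rw [IsLocalization.lift_eq]
    exact (TrivSqZeroExt.snd_add _ _).trans (by
      rw [TrivSqZeroExt.snd_inl, TrivSqZeroExt.snd_inr, zero_add])

/-- A power of a constant is a multiple of `s` up to any order. -/
theorem const_pow (h1 : IsDer d1) (h2 : IsDer d2) (c : S →+* K)
    (hc : ∀ s, ∃ s', d1 s' = 0 ∧ d2 s' = 0 ∧ c s' = c s) {s : S} (hs : c s ≠ 0) (N : ℕ) :
    ∃ ρ q, d1 ρ = 0 ∧ d2 ρ = 0 ∧ c ρ ≠ 0 ∧ ρ - s * q ∈ RingHom.ker c ^ N := by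
  obtain ⟨s', a1, a2, a3⟩ := hc s
  obtain ⟨q, hq⟩ := sub_dvd_pow_sub_pow s' (s' - s) N
  refine ⟨s' ^ N, q, by rw [h1.pow, a1, mul_zero], by rw [h2.pow, a2, mul_zero], ?_, ?_⟩
  · rw [map_pow, a3]; exact pow_ne_zero _ hs
  · have e : s' ^ N - s * q = (s' - s) ^ N := by linear_combination hq
    rw [e]
    exact Ideal.pow_mem_pow (by rw [RingHom.mem_ker, map_sub, a3, sub_self]) N

/-- Localisation at the centre. -/
theorem exists_local (h1 : IsDer d1) (h2 : IsDer d2) (c : S →+* K)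
    (hc : ∀ s, ∃ s', d1 s' = 0 ∧ d2 s' = 0 ∧ c s' = c s) :
    ∃ (T : Type) (_ : CommRing T) (η : S →+* T) (e1 e2 : T →+ T) (c' : T →+* K), IsDer e1 ∧
      IsDer e2 ∧ (∀ s, e1 (η s) = η (d1 s)) ∧ (∀ s, e2 (η s) = η (d2 s)) ∧ (∀ s, c' (η s) = c s) ∧
      (∀ x, c' x ≠ 0 → IsUnit x) ∧ ∀ A B, Cab e1 e2 c' (η A) (η B) → Cab d1 d2 c A B := by
  have := RingHom.ker_isPrime c
  let M := (RingHom.ker c).primeCompl
  let T := Localization M
  let η : S →+* T := algebraMap S T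
  have hM : ∀ y : M, c y ≠ 0 := fun y => y.2
  have hu : ∀ y : M, IsUnit (c y) := fun y => (hM y).isUnit
  let c' : T →+* K := IsLocalization.lift hu
  have hc' : ∀ s, c' (η s) = c s := fun s => IsLocalization.lift_eq hu s
  obtain ⟨e1, i1, k1⟩ := exists_der_loc (T := T) M h1
  obtain ⟨e2, i2, k2⟩ := exists_der_loc (T := T) M h2
  have k1 : ∀ s, e1 (η s) = η (d1 s) := k1
  have k2 : ∀ s, e2 (η s) = η (d2 s) := k2
  have sj : ∀ x : T, ∃ a s, c s ≠ 0 ∧ IsUnit (η s) ∧ x * η s = η a := fun x => by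
    obtain ⟨⟨a, s⟩, h⟩ := IsLocalization.surj M x
    exact ⟨a, s, hM s, IsLocalization.map_units T s, h⟩
  have up : ∀ {N : ℕ} {x : S}, x ∈ RingHom.ker c ^ N → η x ∈ RingHom.ker c' ^ N := fun hx =>
    map_mem_ker_pow η (RingHom.id K) hc' hx
  have s1 : ∀ (x : T) (N : ℕ), ∃ ρ p, d1 ρ = 0 ∧ d2 ρ = 0 ∧ c ρ ≠ 0 ∧
      η ρ * x - η p ∈ RingHom.ker c' ^ N := fun x N => by
    obtain ⟨a, s, hs, -, h⟩ := sj x
    obtain ⟨ρ, q, r1, r2, r3, r4⟩ := const_pow h1 h2 c hc hs N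
    refine ⟨ρ, q * a, r1, r2, r3, ?_⟩
    have e : η ρ * x - η (q * a) = x * η (ρ - s * q) := by
      simp only [map_sub, map_mul]; linear_combination η q * h
    rw [e]; exact Ideal.mul_mem_left _ _ (up r4)
  have kr : RingHom.ker c' ≤ (RingHom.ker c).map η := fun x hx => by
    obtain ⟨a, s, -, ⟨v, hv⟩, h⟩ := sj x
    have ha : a ∈ RingHom.ker c := by
      rw [RingHom.mem_ker, ← hc', ← h, map_mul, RingHom.mem_ker.1 hx, zero_mul]
    have e : x = η a * ↑v⁻¹ := by rw [← h, ← hv, mul_assoc, Units.mul_inv, mul_one]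
    rw [e]; exact Ideal.mul_mem_right _ _ (Ideal.mem_map_of_mem η ha)
  have s2 : ∀ (x : S) (N : ℕ), η x ∈ RingHom.ker c' ^ N →
      ∃ ρ, d1 ρ = 0 ∧ d2 ρ = 0 ∧ c ρ ≠ 0 ∧ ρ * x ∈ RingHom.ker c ^ N := fun x N hx => by
    have h := Ideal.pow_right_mono kr N hx
    rw [← Ideal.map_pow] at h
    obtain ⟨⟨y, s⟩, h⟩ := (IsLocalization.mem_map_algebraMap_iff M T).1 h
    rw [← map_mul] at h
    obtain ⟨r, hr⟩ := (IsLocalization.eq_iff_exists M T).1 h
    obtain ⟨ρ, q, r1, r2, r3, r4⟩ := const_pow h1 h2 c hc (hM (r * s)) N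
    refine ⟨ρ, r1, r2, r3, ?_⟩
    have e : ρ * x = x * (ρ - (r * s : M) * q) + (q * r) * y := by
      simp only [Submonoid.coe_mul] at hr ⊢; linear_combination q * hr
    rw [e]; exact add_mem (Ideal.mul_mem_left _ _ r4) (Ideal.mul_mem_left _ _ y.2)
  refine ⟨T, inferInstance, η, e1, e2, c', i1, i2, k1, k2, hc', fun x hx => ?_, fun A B h => ?_⟩
  · obtain ⟨a, s, hs, -, h⟩ := sj x
    have ha : c a ≠ 0 := by rw [← hc', ← h, map_mul, hc']; exact mul_ne_zero hx hs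
    have : IsUnit (η a) := IsLocalization.map_units T (⟨a, ha⟩ : M)
    rw [← h] at this
    exact isUnit_of_mul_isUnit_left this
  · obtain ⟨hA, hB, hd, hN⟩ := h
    refine ⟨by rw [← hc', hA], by rw [← hc', hB], ?_, fun N => ?_⟩
    · rw [← hc']; simpa only [k1, k2, map_sub, map_mul] using hd
    · obtain ⟨I, μ, hμ, m1, m2⟩ := hN N
      obtain ⟨ρ1, p, a1, a2, a3, a4⟩ := s1 I (N + 1)
      obtain ⟨ρ2, q, b1, b2, b3, b4⟩ := s1 μ (N + 1)
      have hq : c q ≠ 0 := by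
        have := Ideal.pow_le_self N.succ_ne_zero b4
        rw [RingHom.mem_ker, map_sub, map_mul, hc', hc', sub_eq_zero] at this
        rw [← this]; exact mul_ne_zero b3 hμ
      have b5 := Ideal.pow_le_pow_right N.le_succ b4
      have key : ∀ {d : S →+ S} {e : T →+ T} {Z : S}, IsDer e → (∀ s, e (η s) = η (d s)) →
          d ρ1 = 0 → e I - μ * η Z ∈ RingHom.ker c' ^ N →
          η (ρ2 * d p - ρ1 * q * Z) ∈ RingHom.ker c' ^ N := fun {d e Z} he k hd m => by
        have n := he.mem_pow _ a4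
        rw [map_sub, he, k, k, hd, map_zero, zero_mul, zero_add] at n
        have e : η (ρ2 * d p - ρ1 * q * Z) = -η ρ2 * (η ρ1 * e I - η (d p)) +
            η ρ1 * η ρ2 * (e I - μ * η Z) + η ρ1 * η Z * (η ρ2 * μ - η q) := by
          simp only [map_sub, map_mul]; ring
        rw [e]
        exact add_mem (add_mem (Ideal.mul_mem_left _ _ n) (Ideal.mul_mem_left _ _ m))
          (Ideal.mul_mem_left _ _ b5)
      obtain ⟨ρ3, f1, f2, f3, f4⟩ := s2 _ N (key i1 k1 a1 m1)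
      obtain ⟨ρ4, g1, g2, g3, g4⟩ := s2 _ N (key i2 k2 a2 m2)
      refine ⟨ρ3 * (ρ4 * (ρ2 * p)), ρ3 * ρ4 * ρ1 * q, ?_, ?_, ?_⟩
      · simp only [map_mul]; exact mul_ne_zero (mul_ne_zero (mul_ne_zero f3 g3) a3) hq
      · rw [h1.const_mul f1, h1.const_mul g1, h1.const_mul b1]
        have e : ρ3 * (ρ4 * (ρ2 * d1 p)) - ρ3 * ρ4 * ρ1 * q * A =
            ρ4 * (ρ3 * (ρ2 * d1 p - ρ1 * q * A)) := by ring
        rw [e]; exact Ideal.mul_mem_left _ _ f4
      · rw [h2.const_mul f2, h2.const_mul g2, h2.const_mul b2]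
        have e : ρ3 * (ρ4 * (ρ2 * d2 p)) - ρ3 * ρ4 * ρ1 * q * B =
            ρ3 * (ρ4 * (ρ2 * d2 p - ρ1 * q * B)) := by ring
        rw [e]; exact Ideal.mul_mem_left _ _ g4

/-- Pull-back of `CenN` along a map of two-variable rings. -/
theorem CenN.trans {k k' : Type} [Field k] [Field k'] {j : k⟦X⟧ →+* K} {j' : k'⟦X⟧ →+* K'}
    (i : K →+* K') (ρ : k⟦X⟧ →+* k'⟦X⟧) (hρ : ∀ r, j' (ρ r) = i (j r)) {A B : AA k⟦X⟧}
    {u z : k⟦X⟧} (h : CenN j A B u z) (hu : cc u = 0) (hz : cc z = 0) (hρ0 : cc (ρ X) = 0)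
    (Φ : AA k⟦X⟧ →+* AA k'⟦X⟧) (hΦ : ∀ r, Φ (CC r) = CC (ρ r)) (pu : cc (c00 (Φ (C X))) = 0)
    (pz : cc (c00 (Φ X)) = 0) {u' z' : k'⟦X⟧} (hu' : cc u' = 0) (hz' : cc z' = 0)
    (eu : ev2 (RingHom.id _) u' z' (Φ (C X)) = ρ u) (ez : ev2 (RingHom.id _) u' z' (Φ X) = ρ z)
    (hJ : j' (ev2 (RingHom.id _) u' z'
      (cw (dX _) (Φ (C X)) * dX _ (Φ X) - cw (dX _) (Φ X) * dX _ (Φ (C X)))) ≠ 0)
    {lam A' B' : AA k'⟦X⟧} (hl : j' (ev2 (RingHom.id _) u' z' lam) ≠ 0)
    (eA : lam * A' = cw (dX _) (Φ (C X)) * Φ A + cw (dX _) (Φ X) * Φ B)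
    (eB : lam * B' = dX _ (Φ (C X)) * Φ A + dX _ (Φ X) * Φ B) : CenN j' A' B' u' z' := by
  have m : ∀ {F : Type} [Field F] {f : F⟦X⟧}, cc f = 0 → f ∈ up (⊥ : Ideal F) := fun h => h
  have mρ : ∀ {f : k⟦X⟧}, cc f = 0 → ρ f ∈ up (⊥ : Ideal k') := fun {f} hf => by
    obtain ⟨g, hg⟩ := eq_C_add_X_mul f
    rw [hg, hf, map_zero, zero_add, map_mul]
    exact Ideal.mul_mem_right _ _ (m hρ0)
  have e : (ev2 (RingHom.id _) u' z').comp Φ = ρ.comp (ev2 (RingHom.id _) u z) := by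
    refine homExt2 (up ⊥) (fun r => ?_) ?_ ?_ ?_ ?_
    · rw [RingHom.comp_apply, RingHom.comp_apply, hΦ, ev2_CC _ (m hu') (m hz'),
        ev2_CC _ (m hu) (m hz), RingHom.id_apply, RingHom.id_apply]
    · rw [RingHom.comp_apply, RingHom.comp_apply, eu, ev2_CX _ (m hu) (m hz)]
    · rw [RingHom.comp_apply, RingHom.comp_apply, ez, ev2_X _ (m hz)]
    · rw [RingHom.comp_apply, eu]; exact mρ hu
    · rw [RingHom.comp_apply, ez]; exact mρ hz
  have qu : Φ (C X) ∈ up (up (up (⊥ : Ideal k'))) := mem_up2.2 (m pu)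
  have qz : Φ X ∈ up (up (up (⊥ : Ideal k'))) := mem_up2.2 (m pz)
  refine Cab.trans h Φ isDer_dX.coefw isDer_dX i (fun s => ?_) (fun s => ?_) (fun s => ?_) hJ hl
    eA eB
  · rw [RingHom.comp_apply, RingHom.comp_apply, ← hρ]
    exact congrArg j' (RingHom.congr_fun e s)
  · rw [hom_chain2' _ qu qz isDer_dX.coefw (fun r => by
      rw [hΦ, CC_apply, cw_C, dX_C, map_zero]) s]
    ring
  · rw [hom_chain2' _ qu qz isDer_dX (fun r => by rw [hΦ, CC_apply, dX_C]) s]
    ring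
end Cab

section IIF
/-- The equation of an inverse integrating factor of `A dx1 + B dx2`. -/
def iifE (d1 d2 : S →+ S) (A B I : S) : S := I * (d1 B - d2 A) - (d1 I * B - d2 I * A)

theorem iif_iff {D : S →+ S} {a b I : S⟦X⟧} :
    IIF D a b I ↔ I ≠ 0 ∧ iifE (cw D) (dX S) b a I = 0 := by
  rw [IIF, iifE, sub_eq_zero]

theorem iifE_scale {d1 d2 : S →+ S} (h1 : IsDer d1) (h2 : IsDer d2) (l A B I : S) :
    iifE d1 d2 (l * A) (l * B) (l * I) = l ^ 2 * iifE d1 d2 A B I := by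
  simp only [iifE, h1 _ _, h2 _ _]
  ring

theorem iifE_trans {d1 d2 : S →+ S} (Φ : S →+* T) {e1 e2 : T →+ T} (h1 : IsDer e1) (h2 : IsDer e2)
    {J11 J12 J21 J22 : T} (k1 : ∀ s, e1 (Φ s) = J11 * Φ (d1 s) + J12 * Φ (d2 s))
    (k2 : ∀ s, e2 (Φ s) = J21 * Φ (d1 s) + J22 * Φ (d2 s)) (c1 : e1 J21 = e2 J11)
    (c2 : e1 J22 = e2 J12) (A B I : S) :
    iifE e1 e2 (J11 * Φ A + J12 * Φ B) (J21 * Φ A + J22 * Φ B) (Φ I) =
      (J11 * J22 - J12 * J21) * Φ (iifE d1 d2 A B I) := by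
  simp only [iifE, map_add, map_sub, map_mul, h1 _ _, h2 _ _, k1, k2, c1, c2]
  ring

theorem IIF.push {D : S →+ S} {D' : T →+ T} {a b I : S⟦X⟧} (h : IIF D a b I) {η : S →+* T}
    (hη : Function.Injective η) {θ : T} (hD : ∀ c, D' (η c) = θ * η (D c)) :
    IIF D' (map η a) (C θ * map η b) (map η I) := by
  refine ⟨fun h0 => h.1 (map_injective η hη (by rw [h0, map_zero])), ?_⟩
  have := congrArg (map η) h.2
  simp only [map_mul, map_sub] at this
  rw [cw_map hD, cw_map hD, isDer_dX.const_mul (dX_C θ), dX_map, dX_map]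
  linear_combination C θ * this

theorem FIe.push {D : S →+ S} {D' : T →+ T} {a b r : S⟦X⟧} (h : FIe D a b r) {η : S →+* T}
    (hD : ∀ c, D' (η c) = η (D c)) : FIe D' (map η a) (map η b) (map η r) := by
  rw [FIe, cw_map' hD, dX_map, ← map_mul, ← map_mul]
  exact congrArg (map η) h

/-- The pull-back of a form in two variables is integrable in three variables. -/
theorem int3 {d1 d2 d3 : S →+ S} (h1 : IsDer d1) (h2 : IsDer d2) (h3 : IsDer d3)
    {A B As Aw Bs Bw s1 s2 s3 w1 w2 w3 : S} (a1 : d1 A = s1 * As + w1 * Aw)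
    (a2 : d2 A = s2 * As + w2 * Aw) (a3 : d3 A = s3 * As + w3 * Aw) (b1 : d1 B = s1 * Bs + w1 * Bw)
    (b2 : d2 B = s2 * Bs + w2 * Bw) (b3 : d3 B = s3 * Bs + w3 * Bw) (s12 : d1 s2 = d2 s1)
    (s13 : d1 s3 = d3 s1) (s23 : d2 s3 = d3 s2) (w12 : d1 w2 = d2 w1) (w13 : d1 w3 = d3 w1)
    (w23 : d2 w3 = d3 w2) {l o1 o2 o3 : S} (e1 : l * o1 = A * w1 + B * s1)
    (e2 : l * o2 = A * w2 + B * s2) (e3 : l * o3 = A * w3 + B * s3) :
    l ^ 2 * (o1 * (d2 o3 - d3 o2) + o2 * (d3 o1 - d1 o3) + o3 * (d1 o2 - d2 o1)) = 0 := by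
  have f12 := congrArg d1 e2
  have f13 := congrArg d1 e3
  have f21 := congrArg d2 e1
  have f23 := congrArg d2 e3
  have f31 := congrArg d3 e1
  have f32 := congrArg d3 e2
  simp only [map_add, h1 _ _, h2 _ _, h3 _ _, a1, a2, a3, b1, b2, b3, s12, s13, s23, w12, w13,
    w23] at f12 f13 f21 f23 f31 f32
  linear_combination l * o1 * (f23 - f32) + l * o2 * (f31 - f13) + l * o3 * (f12 - f21) +
    (As - Bw) * ((s2 * w3 - s3 * w2) * e1 + (s3 * w1 - s1 * w3) * e2 + (s1 * w2 - s2 * w1) * e3)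
end IIF

section LD
variable {t : S} {D : S →+ S} {a b Wt lam : S⟦X⟧} {G0 G1 : S}

theorem LD.push (h : LD t D a b Wt lam G0 G1) (η : S →+* T) {t' θ : T} {D' : T →+ T}
    (ht : t' ∣ η t) (hD : ∀ c, D' (η c) = θ * η (D c)) :
    LD t' D' (map η a) (C θ * map η b) (map η Wt) (map η lam) (η G0) (η G1) := by
  refine ⟨h.u.map _, ?_, ?_, ?_⟩
  · have := map_dvd (map η) h.w
    rw [map_sub, map_C, map_X] at this
    exact (map_dvd C ht).trans this
  · rw [dX_map, ← map_mul, ← map_mul, h.ea]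
  · have := congrArg (map η) h.eb
    simp only [map_mul, map_sub, map_C, map_X] at this
    rw [cw_map hD, hD, hD, map_mul, map_mul]
    linear_combination C θ * this

theorem LD.push' (h : LD t D a b Wt lam G0 G1) (η : S →+* T) {t' : T} {D' : T →+ T}
    (ht : t' ∣ η t) (hD : ∀ c, D' (η c) = η (D c)) :
    LD t' D' (map η a) (map η b) (map η Wt) (map η lam) (η G0) (η G1) := by
  simpa using h.push η ht (θ := 1) (fun c => by rw [hD, one_mul])

theorem LD.one [IsAdicComplete (Ideal.span {t}) S] (h : LD t D a b Wt lam G0 G1) :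
    IsUnit (coeff 1 Wt) := by
  have := (C_dvd_iff _ _).1 h.w 1
  rw [map_sub, coeff_one_X] at this
  exact unit_of_sub_mem _ isUnit_one (Ideal.mem_span_singleton.2 this)

theorem LD.const [IsAdicComplete (Ideal.span {t}) S] (h : LD t D a b Wt lam G0 G1) {g : S}
    (hg : Wt ∣ C g) : g = 0 := by
  have h0 := (C_dvd_iff _ _).1 h.w 0
  rw [map_sub, coeff_zero_X, sub_zero, coeff_zero_eq_constantCoeff_apply] at h0
  obtain ⟨z, hz, e⟩ := root (Ideal.span {t}) (Ideal.mem_span_singleton.2 h0) h.one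
  have := map_dvd (ev (RingHom.id S) z) hg
  rwa [e, ev_C _ hz, zero_dvd_iff] at this

theorem LD.unit [IsAdicComplete (Ideal.span {t}) S] (h : LD t D a b Wt lam G0 G1) :
    IsUnit (dX S Wt) := by
  rw [isUnit_iff_constantCoeff, ← coeff_zero_eq_constantCoeff_apply, coeff_dX]
  simpa using h.one

theorem LD.nd [IsAdicComplete (Ideal.span {t}) S] (h : LD t D a b Wt lam G0 G1) (h0 : D G0 ≠ 0) :
    ¬ a ∣ X * b := fun ⟨r, hr⟩ => h0 (h.const ⟨cw D Wt - C (D G1) - dX S Wt * r, by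
  linear_combination -h.eb - lam * hr + r * h.ea⟩)

theorem Lead.push {c a0 b0 : S} (h : Lead c t D a0 b0 G0 G1) (η : S →+* T) {D' : T →+ T}
    (h0 : D' (η G0) = η (D G0)) (h1 : D' (η G1) = η (D G1)) (ha : D' (η a0) = η (D a0)) :
    Lead (η c) (η t) D' (η a0) (η b0) (η G0) (η G1) := by
  obtain ⟨⟨e1, e2, e3, p⟩, e4, e5, q⟩ := h
  refine ⟨⟨η e1, η e2, η e3, ?_⟩, η e4, η e5, ?_⟩
  · simpa only [h1, ha, map_add, map_sub, map_mul] using congrArg η p
  · simpa only [h0, map_add, map_sub, map_mul, map_pow] using congrArg η q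

/-- The polar curve `a = 0` of a form with `a = c W` modulo `t`. -/
theorem exists_w0 {U : Type} [Field U] {a : AA U} {c : U⟦X⟧} (hc : IsUnit c) (h : red a = c * X) :
    ∃ w u, cc w = 0 ∧ IsUnit u ∧ a = (X - C w) * u := by
  have h0 : cc a ∈ up (⊥ : Ideal U) := by
    rw [mem_up, ← c00_apply, ← cc_red, h]; simp
  have h1 : IsUnit (coeff 1 a) := by
    rw [isUnit_iff_constantCoeff, ← coeff_red, h, coeff_succ_mul_X,
      coeff_zero_eq_constantCoeff_apply]
    exact hc.map _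
  obtain ⟨w, hw, e⟩ := root (up ⊥) h0 h1
  obtain ⟨u, hu⟩ := (factor _ hw).2 e
  have hw' : cc w = 0 := hw
  refine ⟨w, u, hw', ?_, hu⟩
  rw [hu, map_mul, map_sub, red_X, red_C, hw', map_zero, sub_zero, mul_comm c] at h
  rw [isUnit_iff_constantCoeff, isUnit_iff_constantCoeff, ← c00_apply, ← cc_red,
    mul_left_cancel₀ X_ne_zero h]
  exact hc.map _

theorem nd_map {L U : Type} [Field L] [Field U] (ι : L →+* U) {a b : AA L} :
    mA ι a ∣ X * mA ι b ↔ a ∣ X * b := by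
  have e : X * mA ι b = mA ι (X * b) := by rw [map_mul, mA_X]
  rw [e]
  refine ⟨fun ⟨r, hr⟩ => ?_, map_dvd _⟩
  let _ := ι.toAlgebra
  obtain ⟨π, hπ⟩ := (Algebra.linearMap L U).exists_leftInverse_of_injective
    (LinearMap.ker_eq_bot.2 ι.injective)
  have p : ∀ x y, π.toAddMonoidHom (ι x * y) = x * π.toAddMonoidHom y := fun x y =>
    π.map_smul x y
  have p1 : π.toAddMonoidHom 1 = 1 := by simpa using LinearMap.congr_fun hπ 1
  have q := cw_proj (φ := map ι) (cw_proj p)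
  refine ⟨cw (cw π.toAddMonoidHom) r, ?_⟩
  have q1 : cw (cw π.toAddMonoidHom) (1 : AA U) = 1 := by
    rw [← map_one C, cw_C, ← map_one C, cw_C, p1, map_one, map_one]
  have := q (X * b) 1
  rw [mul_one, q1, mul_one] at this
  rw [← q, ← this]
  exact congrArg _ hr
end LD

end Pool.Agent.MP_05b4bd_ag.ES

end MrgPart1

-- ======== part 2: formerly Pool.Agent.MP_05b4bd_ag.esc.K3
section MrgPart2

/-! Kit 3: substitutions `IsSub`, `IsOut`. -/

namespace Pool.Agent.MP_05b4bd_ag.ES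

open PowerSeries LaurentSeries

variable {R S : Type} [CommRing R] [CommRing S] [Algebra ℚ S]

namespace K3

/-- The ideal of the variable. -/
noncomputable abbrev JX (R : Type) [CommRing R] : Ideal R⟦X⟧ := Ideal.span {X}

theorem mem_JX {f : R⟦X⟧} (h : X ∣ f) : f ∈ JX R := Ideal.mem_span_singleton.2 h

theorem mem_JX' {f : R⟦X⟧} (h : cc f = 0) : f ∈ JX R := mem_JX (X_dvd_iff.2 h)

theorem cc_map {T : Type} [CommRing T] (g : R →+* T) (f : R⟦X⟧) : cc (map g f) = g (cc f) := rfl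

theorem dvd_dX {f : R⟦X⟧} {n : ℕ} (h : X ^ (n + 1) ∣ f) : X ^ n ∣ dX R f := by
  rw [X_pow_dvd_iff] at h ⊢
  intro m hm
  rw [coeff_dX, h _ (by omega), zero_mul]

theorem ode {ι : Type} (F : ι → S⟦X⟧) (h0 : ∀ c, cc (F c) = 0)
    (h : ∀ n, (∀ c, X ^ n ∣ F c) → ∀ c, X ^ n ∣ dX S (F c)) (c : ι) : F c = 0 := by
  have k : ∀ n c, X ^ n ∣ F c := by
    intro n
    induction n with
    | zero => simp
    | succ n ih => exact fun c => X_pow_dvd_of_dX (h0 c) (h n ih c)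
  exact haus_dvd X fun n => k n c

theorem isDer_zero : IsDer (0 : R →+ R) := fun _ _ => by simp

theorem cw_zero {T : Type} [CommRing T] (f : R⟦X⟧) : cw (0 : R →+ T) f = 0 := by
  ext n
  simp [coeff_cw]

theorem cw_mapC (E : R →+ R) (c : R⟦X⟧) : cw (cw E) (map C c) = map C (cw E c) :=
  cw_map' (fun a => cw_C E a) c

theorem DA_mapC (ε : ℕ) (c : R⟦X⟧) : DA R ε (map C c) = X * map C (dX R c) := by
  have : cw (thP R) (map C c) = 0 := by
    refine PowerSeries.ext fun n => ?_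
    rw [coeff_cw, coeff_map, thP_apply, dX_C, mul_zero, map_zero]
  simp only [DA, AddMonoidHom.sub_apply, AddMonoidHom.nsmul_apply, this, smul_zero, sub_zero,
    thP_apply, dX_map]

end K3

open K3

theorem IsSub.const {φ : R⟦X⟧ →+* S⟦X⟧} {φ0 : R⟦X⟧ →+* S} (h : IsSub φ φ0) (r : R) :
    φ (C r) = C (φ0 (C r)) := by
  rw [← h.1]
  exact eq_C_of_dX (by rw [h.2, dX_C, map_zero, zero_mul])

theorem IsSub.unique {φ φ' : R⟦X⟧ →+* S⟦X⟧} {φ0 : R⟦X⟧ →+* S} (h : IsSub φ φ0) (h' : IsSub φ' φ0)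
    (e : φ X = φ' X) : φ = φ' := by
  refine RingHom.ext fun c => sub_eq_zero.1 (ode (fun c => φ c - φ' c) (fun c => ?_)
    (fun n k c => ?_) c)
  · rw [map_sub, h.1, h'.1, sub_self]
  · rw [map_sub, h.2, h'.2, e, ← sub_mul]
    exact (k _).mul_right _

theorem exists_isSub (φ0 : R⟦X⟧ →+* S) {σ : S⟦X⟧} (h : cc σ = φ0 X) :
    ∃ φ, IsSub φ φ0 ∧ φ X = σ := by
  obtain ⟨τ, h1, h2, -⟩ := exists_tayl (isDer_dX (R := R)) φ0
  have hz : cc (σ - C (φ0 X)) = 0 := by rw [map_sub, h, constantCoeff_C, sub_self]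
  have hX : τ X = C (φ0 X) + X := by
    have := eq_C_of_dX (f := τ X - X) (by rw [map_sub, h2, dX_X, dX_X, map_one, sub_self])
    rw [map_sub, h1, constantCoeff_X, sub_zero] at this
    exact sub_eq_iff_eq_add.1 this
  have e : sb (σ - C (φ0 X)) (τ X) = σ := by
    rw [hX, map_add, sb_C hz, sb_X hz, add_sub_cancel]
  refine ⟨(sb (σ - C (φ0 X))).comp τ, ⟨fun c => ?_, fun c => ?_⟩, e⟩
  · rw [RingHom.comp_apply, cc_sb hz, h1]
  · simp only [RingHom.comp_apply]
    rw [dX_sb hz, h2, e, map_sub, dX_C, sub_zero]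

/-- A chain rule that holds for the reduction holds for the substitution. -/
theorem IsSub.chain {φ : R⟦X⟧ →+* S⟦X⟧} {φ0 : R⟦X⟧ →+* S} (h : IsSub φ φ0) {δ : S →+ S}
    (hδ : IsDer δ) {L : R →+ R} (hL : IsDer L)
    (h0 : ∀ c, δ (φ0 c) = φ0 (cw L c) + φ0 (dX R c) * δ (φ0 X)) (c : R⟦X⟧) :
    cw δ (φ c) = φ (cw L c) + φ (dX R c) * cw δ (φ X) := by
  have _ := hL
  refine sub_eq_zero.1 (ode (fun c => cw δ (φ c) - (φ (cw L c) + φ (dX R c) * cw δ (φ X)))
    (fun c => ?_) (fun n k c => ?_) c)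
  · simp only [map_sub, map_add, map_mul, cc_cw, h.1, h0 c, sub_self]
  · have e : dX S (cw δ (φ c) - (φ (cw L c) + φ (dX R c) * cw δ (φ X))) =
        (cw δ (φ (dX R c)) - (φ (cw L (dX R c)) + φ (dX R (dX R c)) * cw δ (φ X))) *
          dX S (φ X) := by
      rw [map_sub, map_add, isDer_dX, dX_cw, dX_cw, h.2 c, h.2 (cw L c), h.2 (dX R c), hδ.coefw,
        dX_cw]
      ring
    rw [e]
    exact (k _).mul_right _

variable {κ L : Type} [Field κ] [Field L] [CharZero L] {ε : ℕ} {φ0 : κ⟦X⟧ →+* L}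
  {Φ Φ' : AA κ →+* L⟦X⟧}

omit [CharZero L] in
theorem IsOut.ccC (h : IsOut ε Φ φ0) (c : κ⟦X⟧) : cc (Φ (map C c)) = φ0 c := h.1.1 c

omit [CharZero L] in
theorem IsOut.ccX (h : IsOut ε Φ φ0) : cc (Φ X) = φ0 X := by
  simpa using h.ccC X

omit [CharZero L] in
theorem IsOut.dC (h : IsOut ε Φ φ0) (c : κ⟦X⟧) :
    dX L (Φ (map C c)) = Φ (map C (dX κ c)) * dX L (Φ X) := by
  simpa using h.1.2 c

theorem IsOut.unit (h : IsOut ε Φ φ0) (h0 : φ0 X ≠ 0) : IsUnit (Φ X) ∧ X ∣ Φ (C X) := by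
  have u : IsUnit (Φ X) := isUnit_iff_constantCoeff.2 (Ne.isUnit (h.ccX.trans_ne h0))
  exact ⟨u, (u.pow ε).dvd_mul_right.1 ⟨1, by rw [h.2, mul_one]⟩⟩

theorem IsOut.cc_eq (h : IsOut ε Φ φ0) (h0 : φ0 X ≠ 0) (c : AA κ) : cc (Φ c) = φ0 (red c) := by
  obtain ⟨c', e⟩ := eq_red_add c
  conv_lhs => rw [e]
  rw [map_add, map_add, map_mul, map_mul, h.ccC, X_dvd_iff.1 (h.unit h0).2, zero_mul, add_zero]

omit [CharZero L] in
theorem IsOut.map_tA (h : IsOut ε Φ φ0) : Φ (tA κ ε) = X := by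
  rw [tA, map_mul, map_pow, h.2]

theorem IsOut.map_CC (h : IsOut ε Φ φ0) (r : κ) : Φ (CC r) = C (φ0 (C r)) := by
  simpa [CC_apply] using h.1.const r

theorem IsOut.tmap (h : IsOut ε Φ φ0) (h0 : φ0 X ≠ 0) (c : κ⟦X⟧) :
    Φ (ev CC (tA κ ε) c) = map (φ0.comp C) c := by
  have _ := h0
  have m := Ideal.mem_span_singleton_self (tA κ ε)
  have e : (Φ.comp (ev CC (tA κ ε))) X = X := by rw [RingHom.comp_apply, ev_X _ m, h.map_tA]
  refine RingHom.congr_fun (homExt (JX L) (g := Φ.comp (ev CC (tA κ ε)))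
    (g' := map (φ0.comp C)) (fun r => ?_) (e.trans (map_X _).symm) (e ▸ mem_JX dvd_rfl)) c
  rw [RingHom.comp_apply, ev_C _ m, h.map_CC, map_C, RingHom.comp_apply]

theorem IsOut.unique (h : IsOut ε Φ φ0) (h' : IsOut ε Φ' φ0) (h0 : φ0 X ≠ 0) (e : Φ X = Φ' X) :
    Φ = Φ' := by
  refine homExtT (JX L) (fun c => RingHom.congr_fun (h.1.unique h'.1 (by simpa using e)) c) ?_
    (mem_JX (h.unit h0).2)
  refine ((h.unit h0).1.pow ε).mul_right_cancel ?_
  rw [h.2, e, h'.2]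

theorem exists_isOut (ε : ℕ) (h0 : φ0 X ≠ 0) {σ : L⟦X⟧} (h : cc σ = φ0 X) :
    ∃ Φ, IsOut ε Φ φ0 ∧ Φ X = σ := by
  obtain ⟨φ, h1, h2⟩ := exists_isSub φ0 h
  obtain ⟨v, hv⟩ := ((isUnit_iff_constantCoeff.2 (Ne.isUnit (h.trans_ne h0))).pow ε).exists_left_inv
  have m : X * v ∈ JX L := mem_JX (dvd_mul_right _ _)
  have e : ((ev φ (X * v)).comp swap) X = σ := by rw [RingHom.comp_apply, swap_X, ev_C _ m, h2]
  refine ⟨(ev φ (X * v)).comp swap, ⟨?_, ?_⟩, e⟩
  · have : ((ev φ (X * v)).comp swap).comp (map C) = φ := RingHom.ext fun c => by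
      rw [RingHom.comp_apply, RingHom.comp_apply, swap_mapC, ev_C _ m]
    rwa [this]
  · rw [e, RingHom.comp_apply, swap_CX, ev_X _ m, mul_assoc, hv, mul_one]

theorem IsOut.dt (h : IsOut ε Φ φ0) (h0 : φ0 X ≠ 0) (c : AA κ) :
    dX L (Φ c) = Φ (cw (dX κ) c) * dX L (Φ (C X)) + Φ (dX _ c) * dX L (Φ X) := by
  have k := hom_chain (JX L) (g := Φ.comp swap)
    (by rw [RingHom.comp_apply, swap_X]; exact mem_JX (h.unit h0).2) isDer_dX
    (isDer_dX (R := κ)) (a := dX L (Φ X))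
    (fun r => by simp only [RingHom.comp_apply, swap_C]; rw [h.dC, mul_comm]) (swap c)
  simp only [RingHom.comp_apply, swap_swap, cw_dX_swap, dX_swap, swap_X] at k
  rw [k]
  ring

theorem IsOut.chain (h : IsOut ε Φ φ0) (h0 : φ0 X ≠ 0) {δ : L →+ L} (hδ : IsDer δ) {E : κ →+ κ}
    (hE : IsDer E) (hc : ∀ c, δ (φ0 c) = φ0 (cw E c) + φ0 (dX κ c) * δ (φ0 X)) (c : AA κ) :
    Φ X * cw δ (Φ c) = Φ X * Φ (cw (cw E) c) + Φ (DA κ ε c) * cw δ (Φ X) := by
  have d := ((hδ.coefw.comp_hom Φ).mulLeft (Φ X)).sub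
    (((hE.coefw.coefw.hom_comp Φ).mulLeft (Φ X)).add
      (((isDer_DA ε).hom_comp Φ).mulLeft (cw δ (Φ X))))
  set Δ := (AddMonoidHom.mulLeft (Φ X)).comp ((cw δ).comp Φ.toAddMonoidHom) -
    ((AddMonoidHom.mulLeft (Φ X)).comp (Φ.toAddMonoidHom.comp (cw (cw E))) +
      (AddMonoidHom.mulLeft (cw δ (Φ X))).comp (Φ.toAddMonoidHom.comp (DA κ ε))) with hΔ
  have ap : ∀ c, Δ c = Φ X * cw δ (Φ c) -
      (Φ X * Φ (cw (cw E) c) + cw δ (Φ X) * Φ (DA κ ε c)) := fun _ => rfl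
  have d0 : ∀ c, Δ (map C c) = 0 := by
    intro c
    have k := h.1.chain hδ hE hc c
    simp only [RingHom.comp_apply, map_X] at k
    rw [ap, k, cw_mapC, DA_mapC, map_mul]
    ring
  have d1 : Δ (tA κ ε) = 0 := by
    have k : cw (cw E) (tA κ ε) = 0 := by
      rw [tA, mul_comm, cw_X_pow_mul, cw_C, cw_X hE.one, map_zero, mul_zero]
    rw [ap, h.map_tA, cw_X hδ.one, k, DA_tA, map_zero]
    ring
  have d2 : Δ (C X) = 0 := by
    have k := d0 (X ^ ε)
    rw [map_pow, map_X] at k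
    rw [tA, d, k, mul_zero, add_zero, map_pow] at d1
    exact ((h.unit h0).1.pow ε).mul_left_eq_zero.1 d1
  have k := derExtT (JX L) d d0 d2 (mem_JX (h.unit h0).2) c
  rw [ap, sub_eq_zero] at k
  rw [k]
  ring

namespace K3

theorem pdiff (h : IsOut ε Φ φ0) (h' : IsOut ε Φ' φ0) (h0 : φ0 X ≠ 0) {n : ℕ}
    (e : X ^ n ∣ Φ X - Φ' X) : X ^ n ∣ dX L (Φ (C X) - Φ' (C X)) := by
  obtain ⟨v, hv⟩ := (h'.unit h0).2
  refine dvd_dX (((h.unit h0).1.pow ε).dvd_mul_right.1 ?_)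
  have : (Φ (C X) - Φ' (C X)) * Φ X ^ ε = -(X * v * (Φ X ^ ε - Φ' X ^ ε)) := by
    rw [← hv]
    linear_combination h.2 - h'.2
  rw [this, dvd_neg, pow_succ', mul_assoc]
  exact mul_dvd_mul_left _ ((e.trans (sub_dvd_pow_sub_pow _ _ _)).mul_left _)

theorem ddiff (h : IsOut ε Φ φ0) (h' : IsOut ε Φ' φ0) (h0 : φ0 X ≠ 0) (c : AA κ) :
    dX L (Φ c - Φ' c) = (Φ (cw (dX κ) c) - Φ' (cw (dX κ) c)) * dX L (Φ (C X)) +
      Φ' (cw (dX κ) c) * dX L (Φ (C X) - Φ' (C X)) + (Φ (dX _ c) - Φ' (dX _ c)) * dX L (Φ X) +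
      Φ' (dX _ c) * dX L (Φ X - Φ' X) := by
  rw [map_sub, map_sub, map_sub, h.dt h0 c, h'.dt h0 c]
  ring

theorem near (h : IsOut ε Φ φ0) (h' : IsOut ε Φ' φ0) (h0 : φ0 X ≠ 0) (n : ℕ) :
    X ^ n ∣ Φ X - Φ' X → ∀ c, X ^ n ∣ Φ c - Φ' c := by
  induction n with
  | zero => simp
  | succ n ih =>
    intro e c
    have e' : X ^ n ∣ Φ X - Φ' X := (pow_dvd_pow _ n.le_succ).trans e
    refine X_pow_dvd_of_dX (by rw [map_sub, h.cc_eq h0, h'.cc_eq h0, sub_self]) ?_
    rw [ddiff h h' h0]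
    exact ((((ih e' _).mul_right _).add ((pdiff h h' h0 e').mul_left _)).add
      ((ih e' _).mul_right _)).add ((dvd_dX e).mul_left _)

theorem near2 (h : IsOut ε Φ φ0) (h' : IsOut ε Φ' φ0) (h0 : φ0 X ≠ 0) {n : ℕ}
    (e : X ^ (n + 1) ∣ Φ X - Φ' X) (c : AA κ) :
    X ^ (n + 2) ∣ Φ c - Φ' c - C (φ0 (dX κ (red c))) * (Φ X - Φ' X) := by
  refine X_pow_dvd_of_dX ?_ ?_
  · simp only [map_sub, map_mul, h.cc_eq h0, h'.cc_eq h0, sub_self, mul_zero]
  · have k : X ∣ Φ' (dX _ c) - C (φ0 (dX κ (red c))) := by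
      rw [X_dvd_iff, map_sub, h'.cc_eq h0, constantCoeff_C, red, dX_map, sub_self]
    rw [map_sub, ddiff h h' h0, isDer_dX, dX_C, zero_mul, zero_add, add_sub_assoc, ← sub_mul]
    refine ((((near h h' h0 _ e _).mul_right _).add ((pdiff h h' h0 e).mul_left _)).add
      ((near h h' h0 _ e _).mul_right _)).add ?_
    rw [pow_succ']
    exact mul_dvd_mul k (dvd_dX e)

end K3

/-- Lifting a deck transformation of the reduction. -/
theorem exists_deck (ε : ℕ) (h0 : φ0 X ≠ 0) {y : AA κ} (hy : φ0 (dX κ (red y)) ≠ 0) {η : L⟦X⟧}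
    (hη : cc η = φ0 (red y)) : ∃ Φ, IsOut ε Φ φ0 ∧ Φ y = η := by
  have ex : ∀ z : L⟦X⟧, ∃ (Ψ : AA κ →+* L⟦X⟧) (g : L⟦X⟧), IsOut ε Ψ φ0 ∧
      Ψ X = C (φ0 X) + X * z ∧ Ψ y - η = X * g := by
    intro z
    obtain ⟨Ψ, h1, h2⟩ := exists_isOut ε h0 (σ := C (φ0 X) + X * z) (by simp)
    obtain ⟨g, hg⟩ : X ∣ Ψ y - η := by rw [X_dvd_iff, map_sub, h1.cc_eq h0, hη, sub_self]
    exact ⟨Ψ, g, h1, h2, hg⟩
  choose Ψ g h1 h2 h3 using ex
  set w := φ0 (dX κ (red y))
  have hw : (C w⁻¹ : L⟦X⟧) * C w = 1 := by rw [← map_mul, inv_mul_cancel₀ hy, map_one]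
  obtain ⟨z, hz, -⟩ := fix_dvd (X : L⟦X⟧) (fun z => z - C w⁻¹ * g z) fun n z z' e => by
    have e1 : Ψ z X - Ψ z' X = X * (z - z') := by rw [h2, h2]; ring
    have k := near2 (h1 z) (h1 z') h0 (n := n)
      (by rw [e1, pow_succ']; exact mul_dvd_mul_left _ e) y
    have e2 : Ψ z y - Ψ z' y - C w * (Ψ z X - Ψ z' X) = X * (g z - g z' - C w * (z - z')) := by
      rw [e1]
      linear_combination h3 z - h3 z'
    rw [e2, pow_succ', mul_dvd_mul_iff_left X_ne_zero] at k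
    have e3 : z - C w⁻¹ * g z - (z' - C w⁻¹ * g z') =
        -C w⁻¹ * (g z - g z' - C w * (z - z')) := by linear_combination -(z - z') * hw
    rw [e3]
    exact k.mul_left _
  refine ⟨Ψ z, h1 z, sub_eq_zero.1 ?_⟩
  have : g z = 0 := by linear_combination -C w * hz - g z * hw
  rw [h3, this, mul_zero]

theorem IsOut.deck_unique (h : IsOut ε Φ φ0) (h' : IsOut ε Φ' φ0) (h0 : φ0 X ≠ 0) {y : AA κ}
    (hy : φ0 (dX κ (red y)) ≠ 0) (e : Φ y = Φ' y) : Φ = Φ' := by
  have k : ∀ n, X ^ (n + 1) ∣ Φ X - Φ' X := by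
    intro n
    induction n with
    | zero => rw [zero_add, pow_one, X_dvd_iff, map_sub, h.ccX, h'.ccX, sub_self]
    | succ n ih =>
      have := near2 h h' h0 ih y
      rwa [e, sub_self, zero_sub, dvd_neg, (hy.isUnit.map C).dvd_mul_left] at this
  exact h.unique h' h0 (sub_eq_zero.1 (haus_dvd X fun n =>
    (pow_dvd_pow _ n.le_succ).trans (k n)))

theorem K3.sub_ev (h : IsOut ε Φ φ0) (h0 : φ0 X ≠ 0) {y : AA κ} (hy : c00 y = 0) :
    IsSub (Φ.comp (ev CC y)) (φ0.comp (sb (red y))) := by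
  have m : y ∈ up (up (⊥ : Ideal κ)) := hy
  have ch : ∀ δ : AA κ →+ AA κ, IsDer δ → (∀ r, δ (CC r) = 0) → ∀ c,
      δ (ev CC y c) = ev CC y (dX κ c) * δ y := by
    intro δ hδ hr c
    have := hom_chain _ (g := ev CC y) (by rwa [ev_X _ m]) hδ isDer_zero (a := 0)
      (fun r => by rw [ev_C _ m, hr, zero_mul]) c
    rwa [zero_mul, zero_add, ev_X _ m] at this
  refine ⟨fun c => ?_, fun c => ?_⟩
  · have e : (red : AA κ →+* κ⟦X⟧).comp CC = C := RingHom.ext fun r => by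
      rw [RingHom.comp_apply, CC_apply, red_C, constantCoeff_C]
    rw [RingHom.comp_apply, h.cc_eq h0, hom_ev _ (JX κ) m red (mem_JX' ((cc_red y).trans hy)), e]
    rfl
  · simp only [RingHom.comp_apply]
    rw [h.dt h0, ev_X _ m, h.dt h0 y, ch _ isDer_dX fun r => dX_C _,
      ch _ isDer_dX.coefw fun r => by rw [CC_apply, cw_C, dX_C, map_zero], map_mul, map_mul]
    ring

/-- Two such maps with the same value at `y` agree on all series in `t` and `y`. The second map may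
be of the inner kind (variables exchanged). -/
theorem IsOut.agree {φ0' : κ⟦X⟧ →+* L} (h : IsOut ε Φ φ0) (h0 : φ0 X ≠ 0) (h' : IsOut ε Φ' φ0')
    (h0' : φ0' X ≠ 0) {y y' : AA κ} (hy : c00 y = 0) (hy' : c00 y' = 0) (e : Φ y = Φ' y')
    (e0 : ∀ g, φ0 (sb (red y) g) = φ0' (sb (red y') g)) (g : AA κ) :
    Φ (ev2 CC (tA κ ε) y g) = Φ' (ev2 CC (tA κ ε) y' g) := by
  have m : y ∈ up (up (⊥ : Ideal κ)) := hy
  have m' : y' ∈ up (up (⊥ : Ideal κ)) := hy'
  have mt : tA κ ε ∈ up (up (⊥ : Ideal κ)) := by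
    rw [mem_up2, Ideal.mem_bot, c00_apply, tA]
    simp
  have s := sub_ev h h0 hy
  rw [show φ0.comp (sb (red y)) = φ0'.comp (sb (red y')) from RingHom.ext e0] at s
  have k := s.unique (sub_ev h' h0' hy')
    (by rw [RingHom.comp_apply, RingHom.comp_apply, ev_X _ m, ev_X _ m', e])
  have e1 : (Φ.comp (ev2 CC (tA κ ε) y)) (C X) = X := by
    rw [RingHom.comp_apply, ev2_CX _ mt m, h.map_tA]
  refine RingHom.congr_fun (homExtT (JX L) (g := Φ.comp (ev2 CC (tA κ ε) y))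
    (g' := Φ'.comp (ev2 CC (tA κ ε) y')) (fun c => ?_) ?_ (e1 ▸ mem_JX dvd_rfl)) g
  · rw [RingHom.comp_apply, RingHom.comp_apply, ev2_mapC _ mt m, ev2_mapC _ mt m']
    exact RingHom.congr_fun k c
  · rw [e1, RingHom.comp_apply, ev2_CX _ mt m', h'.map_tA]

omit [CharZero L] in
theorem IsOut.comp_map {L' : Type} [Field L'] (h : IsOut ε Φ φ0) (ρ : L →+* L') :
    IsOut ε ((map ρ).comp Φ) (ρ.comp φ0) := by
  refine ⟨⟨fun c => ?_, fun c => ?_⟩, ?_⟩
  · simp only [RingHom.comp_apply]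
    rw [cc_map, h.ccC]
  · simp only [RingHom.comp_apply, map_X]
    rw [dX_map, dX_map, h.dC, map_mul]
  · simp only [RingHom.comp_apply]
    rw [← map_pow, ← map_mul, h.2, map_X]

omit [CharZero L] in
theorem IsOut.comp_mA {κ' : Type} [Field κ'] (h : IsOut ε Φ φ0) (τ : κ' →+* κ) :
    IsOut ε (Φ.comp (mA τ)) (φ0.comp (map τ)) := by
  have e : ∀ c : κ'⟦X⟧, mA τ (map C c) = map C (map τ c) := fun c =>
    PowerSeries.ext fun n => by simp [mA]
  refine ⟨⟨fun c => ?_, fun c => ?_⟩, ?_⟩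
  · simp only [RingHom.comp_apply]
    rw [e, h.ccC]
  · simp only [RingHom.comp_apply]
    rw [e, e, e, h.dC, dX_map, map_X, map_X]
  · simpa [mA] using h.2

theorem K3.charL [CharZero κ] : CharZero κ⸨X⸩ := charZero_of_injective_ringHom (cL_inj (R := κ))

theorem K3.ne0 {σ0 : κ⟦X⟧} (h1 : cc σ0 = 0) (h2 : σ0 ≠ 0) :
    ((coeL κ).comp (sb σ0)) X ≠ 0 := by
  rw [RingHom.comp_apply, sb_X h1]
  exact (map_ne_zero_iff _ coeL_inj).2 h2

/-- Change of the coefficient field. -/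
theorem IsOut.nat {κ' : Type} [Field κ'] [CharZero κ] [CharZero κ'] (τ : κ →+* κ') {σ0 : κ⟦X⟧}
    (h1 : cc σ0 = 0) (h2 : σ0 ≠ 0) {Φ : AA κ →+* TT κ} {Φ' : AA κ' →+* TT κ'}
    (h : IsOut ε Φ ((coeL κ).comp (sb σ0))) (h' : IsOut ε Φ' ((coeL κ').comp (sb (map τ σ0))))
    (e : Φ' X = mT τ (Φ X)) (c : AA κ) : Φ' (mA τ c) = mT τ (Φ c) := by
  have := charL (κ := κ')
  have a := h'.comp_mA τ
  have b := h.comp_map (mapL τ)
  rw [show ((coeL κ').comp (sb (map τ σ0))).comp (map τ) =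
      (mapL τ).comp ((coeL κ).comp (sb σ0)) from RingHom.ext fun f => by
    simp only [RingHom.comp_apply]
    rw [mapL_coeL, map_sb h1]] at a
  refine RingHom.congr_fun (a.unique b ?_ ?_) c
  · exact (map_ne_zero_iff _ (mapL_inj τ.injective)).2 (ne0 h1 h2)
  · simpa [mA, mT] using e

/-- Extension to Laurent series. -/
theorem IsOut.ext [CharZero κ] {σ0 : κ⟦X⟧} (h1 : cc σ0 = 0) (h2 : σ0 ≠ 0) {Φ : AA κ →+* TT κ}
    (h : IsOut ε Φ ((coeL κ).comp (sb σ0))) : ∃ φ : κ⸨X⸩ →+* TT κ,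
      (∀ c, φ (coeL κ c) = Φ (map C c)) ∧ (∀ c, hat φ (out ε c) = Φ c) ∧
      (∀ c, Φ X * cw (thL κ) (φ c) = φ (thL κ c) * cw (thL κ) (Φ X)) ∧
      ∀ E : κ →+ κ, IsDer E → ∀ c,
        Φ X * cw (cwL E) (φ c) = Φ X * φ (cwL E c) + φ (thL κ c) * cw (cwL E) (Φ X) := by
  have := charL (κ := κ)
  have u := h.unit (ne0 h1 h2)
  obtain ⟨φ, hφ⟩ := liftL (Φ.comp (map C)) (by simpa using u.1)
  replace hφ : ∀ c, φ (coeL κ c) = Φ (map C c) := hφ
  have key : ∀ (δ E' : κ⸨X⸩ →+ κ⸨X⸩) (E : κ →+ κ), IsDer δ → IsDer E' → IsDer E →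
      (∀ c, E' (coeL κ c) = coeL κ (cw E c)) →
      (∀ c, δ (coeL κ (sb σ0 c)) =
        coeL κ (sb σ0 (cw E c)) + coeL κ (sb σ0 (dX κ c)) * δ (coeL κ (sb σ0 X))) →
      ∀ c, Φ X * cw δ (φ c) = Φ X * φ (E' c) + φ (thL κ c) * cw δ (Φ X) := by
    intro δ E' E hδ hE' hE a1 a2 c
    have d := ((hδ.coefw.comp_hom φ).mulLeft (Φ X)).sub
      (((hE'.hom_comp φ).mulLeft (Φ X)).add ((isDer_thL.hom_comp φ).mulLeft (cw δ (Φ X))))
    have k : Φ X * cw δ (φ c) - (Φ X * φ (E' c) + cw δ (Φ X) * φ (thL κ c)) = 0 := by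
      refine derExtL d (fun c => ?_) c
      have k := h.1.chain hδ hE a2 c
      simp only [RingHom.comp_apply, map_X] at k
      change Φ X * cw δ (φ (coeL κ c)) -
        (Φ X * φ (E' (coeL κ c)) + cw δ (Φ X) * φ (thL κ (coeL κ c))) = 0
      rw [a1, thL_coeL, hφ, hφ, hφ, k, thP_apply, map_mul, map_mul, map_X]
      ring
    linear_combination k
  refine ⟨φ, hφ, fun c => ?_, fun c => ?_, fun E hE => key _ _ E hE.coefL hE.coefL hE
    (cwL_coeL E) fun c => ?_⟩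
  · have e : ((hat φ).comp (out ε)) (C X) = Φ (C X) := by
      refine (u.1.pow ε).mul_right_cancel ?_
      have e1 : Φ X = φ (wL κ 1) := by rw [← coeL_X, hφ, map_X]
      rw [h.2, RingHom.comp_apply, out_CX, map_mul, hat_C, hat_X, e1, mul_right_comm, ← map_pow,
        ← map_mul, wL_pow, ← wL_add, mul_one, neg_add_cancel, wL_zero, map_one, one_mul]
    refine RingHom.congr_fun (homExtT (JX _) (g := (hat φ).comp (out ε)) (fun c => ?_) e
      (e ▸ mem_JX u.2)) c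
    rw [RingHom.comp_apply, out_mapC, hat_C, hφ]
  · have := key (thL κ) 0 0 isDer_thL isDer_zero isDer_zero (fun c => by simp [cw_zero])
      (fun c => by
        rw [cw_zero, map_zero, map_zero, zero_add, sb_X h1, thL_coeL, thL_coeL, ← map_mul,
          thP_apply, thP_apply, dX_sb h1]
        congr 1
        ring) c
    simpa using this
  · rw [cwL_coeL, cw_sb h1 hE, sb_X h1, cwL_coeL, map_add, map_mul]

namespace K3

theorem ord_fac {m : ℕ} {w : κ⟦X⟧} (h : cc w ≠ 0) :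
    OrdIs m (X ^ m * w) ∧ coeff m (X ^ m * w) = cc w := by
  have e : coeff m (X ^ m * w) = cc w := by simp [coeff_X_pow_mul']
  exact ⟨⟨e ▸ h, fun j hj => by rw [coeff_X_pow_mul', if_neg (by omega)]⟩, e⟩

theorem root_fac [CharZero κ] {n k : ℕ} (hn : 1 ≤ n) {f : κ⟦X⟧} (h : OrdIs k f) :
    ∃ r, cc r = 1 ∧ f = C (coeff k f) * X ^ k * r ^ n := by
  obtain ⟨u, h1, h2⟩ := h.fac
  obtain ⟨r, h3, h4⟩ := nth_root (JX κ) (s := C (coeff k f)⁻¹ * u) hn
    (mem_JX' (by simp [h2, inv_mul_cancel₀ h.1]))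
  refine ⟨r, ?_, ?_⟩
  · have := X_dvd_iff.1 (Ideal.mem_span_singleton.1 h3)
    rwa [map_sub, map_one, sub_eq_zero] at this
  · have : (C (coeff k f) : κ⟦X⟧) * C (coeff k f)⁻¹ = 1 := by
      rw [← map_mul, mul_inv_cancel₀ h.1, map_one]
    rw [h4]
    linear_combination h1 - X ^ k * u * this

theorem lin_fac [CharZero κ] {n : ℕ} (hn : 1 ≤ n) {f : κ⟦X⟧} (h : OrdIs n f) :
    ∃ e e' : κ⟦X⟧, cc e = 0 ∧ coeff 1 e = 1 ∧ cc e' = 0 ∧ coeff 1 e' = 1 ∧ sb e' e = X ∧
      sb e e' = X ∧ f = C (coeff n f) * e ^ n := by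
  obtain ⟨r, h1, h2⟩ := root_fac hn h
  have a0 : cc (X * r) = 0 := by simp
  have a1 : coeff 1 (X * r) = 1 := by simpa [coeff_succ_X_mul] using h1
  obtain ⟨e', b0, b1, b2, b3⟩ := exists_inv a0 (a1 ▸ isUnit_one)
  exact ⟨X * r, e', a0, a1, b0, by rwa [a1, mul_one] at b1, b2, b3, by rw [mul_pow, ← mul_assoc, ← h2]⟩

end K3

/-- Deck transformations of a series of order `n`. -/
theorem exists_sig [CharZero κ] {n : ℕ} (hn : 1 ≤ n) {β γ : κ⟦X⟧} (hβ : OrdIs n β) {m : ℕ}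
    (hm : 1 ≤ m) (hγ : OrdIs (n * m) γ) {ζ : κ} (hζ : coeff n β * ζ ^ n = coeff (n * m) γ) :
    ∃ σ, OrdIs m σ ∧ coeff m σ = ζ ∧ sb σ β = γ := by
  obtain ⟨e, e', a0, -, b0, b1, b2, -, h1⟩ := lin_fac hn hβ
  obtain ⟨r, h2, h3⟩ := root_fac hn hγ
  have hz : ζ ≠ 0 := by
    rintro rfl
    exact hγ.1 (by rw [← hζ, zero_pow (by omega), mul_zero])
  obtain ⟨w, hw⟩ := X_dvd_iff.2 b0
  have w1 : cc w = 1 := by simpa [hw, coeff_succ_X_mul] using b1
  set g : κ⟦X⟧ := X ^ m * (C ζ * r) with hg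
  have g0 : cc g = 0 := by simp [hg, zero_pow (by omega : m ≠ 0)]
  have e1 : sb g e' = X ^ m * (C ζ * r * sb g w) := by
    rw [hw, map_mul, sb_X g0, hg]
    ring
  have e2 : cc (C ζ * r * sb g w) = ζ := by
    rw [map_mul, map_mul, cc_sb g0, w1, h2, constantCoeff_C, mul_one, mul_one]
  have k := ord_fac (m := m) (e2.trans_ne hz)
  have s0 : cc (sb g e') = 0 := (cc_sb g0 _).trans b0
  refine ⟨sb g e', e1 ▸ k.1, by rw [e1, k.2, e2], ?_⟩
  rw [h1, map_mul, map_pow, sb_C s0, ← sb_sb g0 b0, b2, sb_X g0, h3, ← hζ, hg, map_mul, map_pow,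
    mul_comm n m, pow_mul]
  ring

theorem sig_unique [CharZero κ] {n : ℕ} (hn : 1 ≤ n) {β σ σ' : κ⟦X⟧} (hβ : OrdIs n β)
    (h0 : cc σ = 0) (h0' : cc σ' = 0) (h1 : coeff 1 σ ≠ 0) (e1 : coeff 1 σ = coeff 1 σ')
    (e : sb σ β = sb σ' β) : σ = σ' := by
  obtain ⟨f, f', a0, a1, b0, -, -, b3, h2⟩ := lin_fac hn hβ
  obtain ⟨a, ha⟩ := X_dvd_iff.2 ((cc_sb h0 f).trans a0)
  obtain ⟨a', ha'⟩ := X_dvd_iff.2 ((cc_sb h0' f).trans a0)
  have c1 : cc a = coeff 1 σ := by simpa [ha, a1, coeff_succ_X_mul] using coeff_one_sb h0 f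
  have c2 : cc a' = coeff 1 σ' := by simpa [ha', a1, coeff_succ_X_mul] using coeff_one_sb h0' f
  rw [h2, map_mul, map_mul, map_pow, map_pow, sb_C h0, sb_C h0', ha, ha', mul_pow, mul_pow] at e
  have e2 : a ^ n = a' ^ n := mul_left_cancel₀ (pow_ne_zero n X_ne_zero)
    ((hβ.1.isUnit.map C).mul_left_cancel e)
  have e3 : a = a' := by
    refine hensel_unique (JX κ) (Polynomial.X ^ n) ?_
      (mem_JX' (by rw [map_sub, c1, c2, e1, sub_self])) (by simpa using e2)
    rw [isUnit_iff_constantCoeff]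
    refine Ne.isUnit ?_
    have : (n : κ) ≠ 0 := Nat.cast_ne_zero.2 (by omega)
    simp [Polynomial.derivative_X_pow, c1, h1, this]
  rw [← sb_X h0, ← sb_X h0', ← b3, sb_sb h0 a0, sb_sb h0' a0, ha, ha', e3]

end Pool.Agent.MP_05b4bd_ag.ES

end MrgPart2

-- ======== part 3: formerly Pool.Agent.MP_05b4bd_ag.esc.K4
section MrgPart3

/-! Kit 4: homogenisation. -/

namespace Pool.Agent.MP_05b4bd_ag.ES

open PowerSeries LaurentSeries HC

variable {R S T : Type} [CommRing R] [CommRing S] [CommRing T] {K K' : Type} [Field K] [Field K']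

section Hev
variable (φ : R →+* S) (d : ℕ)

theorem k4_map (g : S →+* T) (u : R2 R) (x y : S) :
    g (MvPolynomial.eval₂ φ ![x, y] u) = MvPolynomial.eval₂ (g.comp φ) ![g x, g y] u := by
  rw [MvPolynomial.eval₂_comp_left]
  congr 1
  funext i
  fin_cases i <;> rfl

theorem k4_hom {n : ℕ} {u : R2 R} (hu : u.IsHomogeneous n) (l x y : S) :
    MvPolynomial.eval₂ φ ![l * x, l * y] u = l ^ n * MvPolynomial.eval₂ φ ![x, y] u := by
  rw [MvPolynomial.eval₂_eq', MvPolynomial.eval₂_eq', Finset.mul_sum]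
  refine Finset.sum_congr rfl fun m hm => ?_
  have h : m.degree = n := by
    by_contra h
    exact MvPolynomial.mem_support_iff.1 hm (hu.coeff_eq_zero h)
  rw [deg2] at h
  simp only [Fin.prod_univ_two, Matrix.cons_val_zero, Matrix.cons_val_one, ← h]
  ring

theorem k4_sum {u : R2 R} (hu : DL (d + 1) u) : ∑ e ∈ Finset.range (d + 1), hc e u = u := by
  ext m
  rw [MvPolynomial.coeff_sum]
  simp only [coeff_hc, Finset.sum_ite_eq, Finset.mem_range]
  split_ifs with h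
  · rfl
  · exact (hu m (by omega)).symm

theorem k4_pd (i : Fin 2) (u : R2 R) (x y w : S) :
    ∑ e ∈ Finset.range (d + 1 + 1),
      MvPolynomial.eval₂ φ ![x, y] (MvPolynomial.pderiv i (hc e u)) * w ^ (d + 1 - e) =
        hev φ d (MvPolynomial.pderiv i u) x y w := by
  rw [Finset.sum_range_succ', hev]
  have h0 : MvPolynomial.pderiv i (hc 0 u) = 0 := by
    rw [hc, MvPolynomial.homogeneousComponent_zero, MvPolynomial.pderiv_C]
  rw [h0, MvPolynomial.eval₂_zero, zero_mul, add_zero]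
  refine Finset.sum_congr rfl fun e _ => ?_
  rw [hc_pderiv, Nat.add_sub_add_right]

theorem k4_der {δ : S →+ S} (hδ : IsDer δ) (hφ : ∀ r, δ (φ r) = 0) (u : R2 R) (x y w : S) :
    δ (hev φ (d + 1) u x y w) = hev φ d (MvPolynomial.pderiv 0 u) x y w * δ x +
      hev φ d (MvPolynomial.pderiv 1 u) x y w * δ y +
      (∑ e ∈ Finset.range (d + 1 + 1), MvPolynomial.eval₂ φ ![x, y] (hc e u) *
        (((d + 1 - e : ℕ) : S) * w ^ (d + 1 - e - 1))) * δ w := by
  rw [← k4_pd, ← k4_pd, hev, map_sum, Finset.sum_mul, Finset.sum_mul, Finset.sum_mul,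
    ← Finset.sum_add_distrib, ← Finset.sum_add_distrib]
  refine Finset.sum_congr rfl fun e _ => ?_
  rw [hδ, hδ.eval₂ φ hφ, hδ.pow]
  ring

theorem k4_euler (u : R2 R) (x y w : S) :
    w * (∑ e ∈ Finset.range (d + 1 + 1), MvPolynomial.eval₂ φ ![x, y] (hc e u) *
        (((d + 1 - e : ℕ) : S) * w ^ (d + 1 - e - 1))) +
      x * hev φ d (MvPolynomial.pderiv 0 u) x y w + y * hev φ d (MvPolynomial.pderiv 1 u) x y w =
      (d + 1) * hev φ (d + 1) u x y w := by
  rw [← k4_pd, ← k4_pd, hev, Finset.mul_sum, Finset.mul_sum, Finset.mul_sum, Finset.mul_sum,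
    ← Finset.sum_add_distrib, ← Finset.sum_add_distrib]
  refine Finset.sum_congr rfl fun e he => ?_
  have h1 := congrArg (MvPolynomial.eval₂ φ ![x, y]) (euler (hc_hom e u))
  simp only [MvPolynomial.eval₂_add, MvPolynomial.eval₂_mul, MvPolynomial.eval₂_X,
    Matrix.cons_val_zero, Matrix.cons_val_one, MvPolynomial.eval₂_natCast] at h1
  have h2 : ∀ n : ℕ, w * ((n : S) * w ^ (n - 1)) = n * w ^ n := by
    intro n
    cases n with
    | zero => simp
    | succ n => rw [Nat.add_sub_cancel]; ring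
  have h3 : ((d + 1 - e : ℕ) : S) = d + 1 - e := by
    rw [Nat.cast_sub (by have := Finset.mem_range.1 he; omega)]; push_cast; rfl
  have h4 := h2 (d + 1 - e)
  rw [h3] at h4 ⊢
  linear_combination MvPolynomial.eval₂ φ ![x, y] (hc e u) * h4 + w ^ (d + 1 - e) * h1

theorem map_hev (g : S →+* T) (u : R2 R) (x y w : S) :
    g (hev φ d u x y w) = hev (g.comp φ) d u (g x) (g y) (g w) := by
  simp only [hev, map_sum, map_mul, map_pow, k4_map]

theorem hev_map (ψ : T →+* R) (u : R2 T) (x y w : S) :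
    hev φ d (MvPolynomial.map ψ u) x y w = hev (φ.comp ψ) d u x y w := by
  simp only [hev, hc_map, MvPolynomial.eval₂_map]

theorem hev_add (u v : R2 R) (x y w : S) :
    hev φ d (u + v) x y w = hev φ d u x y w + hev φ d v x y w := by
  simp only [hev, hc_add, MvPolynomial.eval₂_add, add_mul, Finset.sum_add_distrib]

theorem hev_neg (u : R2 R) (x y w : S) : hev φ d (-u) x y w = -hev φ d u x y w := by
  simp only [hev, hc_neg, MvPolynomial.eval₂_neg, neg_mul, Finset.sum_neg_distrib]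

theorem hev_C_mul (r : R) (u : R2 R) (x y w : S) :
    hev φ d (MvPolynomial.C r * u) x y w = φ r * hev φ d u x y w := by
  simp only [hev, hc_C_mul, MvPolynomial.eval₂_mul, MvPolynomial.eval₂_C, Finset.mul_sum, mul_assoc]

theorem hev_smul (u : R2 R) (l x y w : S) :
    hev φ d u (l * x) (l * y) (l * w) = l ^ d * hev φ d u x y w := by
  rw [hev, hev, Finset.mul_sum]
  refine Finset.sum_congr rfl fun e he => ?_
  obtain ⟨c, rfl⟩ := Nat.exists_eq_add_of_le (Nat.le_of_lt_succ (Finset.mem_range.1 he))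
  rw [k4_hom φ (hc_hom e u), Nat.add_sub_cancel_left]
  ring

theorem hev_eq {u : R2 R} (hu : DL (d + 1) u) (x y w : S) :
    hev φ d u (w * x) (w * y) w = w ^ d * MvPolynomial.eval₂ φ ![x, y] u := by
  have h := hev_smul φ d u w x y 1
  rw [mul_one] at h
  rw [h, hev]
  simp only [one_pow, mul_one]
  rw [← MvPolynomial.eval₂_sum, k4_sum d hu]

theorem hev_zero (u : R2 R) (x y : S) :
    hev φ d u x y 0 = MvPolynomial.eval₂ φ ![x, y] (hc d u) := by
  rw [hev, Finset.sum_range_succ, Nat.sub_self, pow_zero, mul_one, Finset.sum_eq_zero, zero_add]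
  intro e he
  rw [zero_pow (by have := Finset.mem_range.1 he; omega), mul_zero]

theorem hev_succ {u : R2 R} (hu : DL (d + 1) u) (x y w : S) :
    hev φ (d + 1) u x y w = w * hev φ d u x y w := by
  rw [hev, Finset.sum_range_succ, hu.hc_eq le_rfl, MvPolynomial.eval₂_zero, zero_mul, add_zero, hev,
    Finset.mul_sum]
  refine Finset.sum_congr rfl fun e he => ?_
  rw [Nat.succ_sub (Nat.le_of_lt_succ (Finset.mem_range.1 he)), pow_succ]
  ring

/-- Chain rule together with the Euler identity. -/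
theorem der_hev {δ : S →+ S} (hδ : IsDer δ) (hφ : ∀ r, δ (φ r) = 0) (u : R2 R) (x y w : S) :
    w * δ (hev φ (d + 1) u x y w) = hev φ d (MvPolynomial.pderiv 0 u) x y w * (w * δ x - x * δ w) +
      hev φ d (MvPolynomial.pderiv 1 u) x y w * (w * δ y - y * δ w) +
      (d + 1) * hev φ (d + 1) u x y w * δ w := by
  rw [k4_der φ d hδ hφ]
  linear_combination δ w * k4_euler φ d u x y w

theorem der_hev' {δ : S →+ S} (hδ : IsDer δ) (hφ : ∀ r, δ (φ r) = 0) (u : R2 R) (x y : S) {w : S}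
    (hw : δ w = 0) : δ (hev φ (d + 1) u x y w) = hev φ d (MvPolynomial.pderiv 0 u) x y w * δ x +
      hev φ d (MvPolynomial.pderiv 1 u) x y w * δ y := by
  rw [k4_der φ d hδ hφ, hw, mul_zero, add_zero]

theorem k4_isDer : IsDer (Polynomial.derivative (R := S)).toAddMonoidHom :=
  fun _ _ => Polynomial.derivative_mul

theorem k4_ev (g : S →+* T) (r : T) (n : ℕ) (u : R2 R) (a b c : Polynomial S) :
    ((hev (Polynomial.C.comp φ) n u a b c).map g).eval r =
      hev (g.comp φ) n u ((a.map g).eval r) ((b.map g).eval r) ((c.map g).eval r) := by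
  have h := map_hev (Polynomial.C.comp φ) n (Polynomial.eval₂RingHom g r) u a b c
  have e : (Polynomial.eval₂RingHom g r).comp (Polynomial.C.comp φ) = g.comp φ :=
    RingHom.ext fun s => by simp
  simpa only [e, Polynomial.coe_eval₂RingHom, Polynomial.eval₂_eq_eval_map] using h

/-- `hev` as a polynomial in `y`, and in a common factor of `x, y`. -/
theorem exists_poly_y (u : R2 R) (x w : S) : ∃ p : Polynomial S,
    (∀ (T : Type) [CommRing T] (g : S →+* T) (y : T),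
      (p.map g).eval y = hev (g.comp φ) (d + 1) u (g x) y (g w) ∧
      (p.map g).derivative.eval y = hev (g.comp φ) d (MvPolynomial.pderiv 1 u) (g x) y (g w)) := by
  refine ⟨hev (Polynomial.C.comp φ) (d + 1) u (.C x) .X (.C w), fun T _ g y => ⟨?_, ?_⟩⟩
  · rw [k4_ev]; simp
  · have h := der_hev' (Polynomial.C.comp φ) d k4_isDer (fun r => by simp) u (.C x) .X
      (w := .C w) (by simp)
    simp only [LinearMap.toAddMonoidHom_coe, Polynomial.derivative_C, Polynomial.derivative_X,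
      mul_zero, mul_one, zero_add] at h
    rw [Polynomial.derivative_map, h, k4_ev]; simp

theorem exists_poly_r (u : R2 R) (x y w : S) : ∃ p : Polynomial S,
    (∀ (T : Type) [CommRing T] (g : S →+* T) (r : T),
      (p.map g).eval r = hev (g.comp φ) (d + 1) u (r * g x) (r * g y) (g w) ∧
      (p.map g).derivative.eval r =
        g x * hev (g.comp φ) d (MvPolynomial.pderiv 0 u) (r * g x) (r * g y) (g w) +
        g y * hev (g.comp φ) d (MvPolynomial.pderiv 1 u) (r * g x) (r * g y) (g w)) := by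
  refine ⟨hev (Polynomial.C.comp φ) (d + 1) u (.C x * .X) (.C y * .X) (.C w),
    fun T _ g r => ⟨?_, ?_⟩⟩
  · rw [k4_ev]
    simp only [Polynomial.map_mul, Polynomial.map_C, Polynomial.map_X, Polynomial.eval_mul,
      Polynomial.eval_C, Polynomial.eval_X, mul_comm r]
  · have h := der_hev' (Polynomial.C.comp φ) d k4_isDer (fun r => by simp) u (.C x * .X) (.C y * .X)
      (w := .C w) (by simp)
    simp only [LinearMap.toAddMonoidHom_coe, Polynomial.derivative_C_mul_X] at h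
    rw [Polynomial.derivative_map, h, Polynomial.map_add, Polynomial.map_mul, Polynomial.map_mul,
      Polynomial.eval_add, Polynomial.eval_mul, Polynomial.eval_mul, k4_ev, k4_ev]
    simp only [Polynomial.map_mul, Polynomial.map_C, Polynomial.map_X, Polynomial.eval_mul,
      Polynomial.eval_C, Polynomial.eval_X, mul_comm r]
    ring

theorem map_aF (φ : R →+* S⟦X⟧) (η : S →+* T) (P Q : R2 R) (x y : S⟦X⟧) :
    map η (aF φ d P Q x y) = aF ((map η).comp φ) d P Q (map η x) (map η y) := by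
  simp only [aF, map_sub, map_mul, map_hev, map_X, dX_map]

theorem map_bF (φ : R →+* S⟦X⟧) (η : S →+* T) {D : S →+ S} {D' : T →+ T} {θ : T}
    (hD : ∀ c, D' (η c) = θ * η (D c)) (P Q : R2 R) (x y : S⟦X⟧) :
    C θ * map η (bF φ d P Q D x y) = bF ((map η).comp φ) d P Q D' (map η x) (map η y) := by
  simp only [bF, map_sub, map_mul, map_hev, map_X, cw_map hD]
  ring
end Hev

end Pool.Agent.MP_05b4bd_ag.ES

end MrgPart3

-- ======== part 4: formerly Pool.Agent.MP_05b4bd_ag.esc.Syma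
section MrgPart4

/-! A symmetry of the form at infinity has no moduli (row SYMA). -/

namespace Pool.Agent.MP_05b4bd_ag.ES

open PowerSeries LaurentSeries HC

noncomputable section

namespace Syma

variable {k L U : Type} [Field k] [CharZero k] [Field L] [Field U] {d : ℕ}

theorem memX {R : Type} [CommRing R] : (X : R⟦X⟧) ∈ up (⊥ : Ideal R) := by
  rw [mem_up]; simp

theorem memW {W : AA U} (h : C X ∣ W - X) : W ∈ up (up (⊥ : Ideal U)) := by
  obtain ⟨q, hq⟩ := h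
  have : W = X + C X * q := by linear_combination hq
  rw [mem_up2, this, c00_apply]
  simp

theorem unitW {W : AA U} (h : C X ∣ W - X) : IsUnit (dX _ W) := by
  obtain ⟨q, hq⟩ := h
  have e : W = X + C X * q := by linear_combination hq
  refine unit_of_sub_mem (up (up (⊥ : Ideal U))) isUnit_one ?_
  rw [e, map_add, dX_X, isDer_dX _ _, dX_C, mem_up2, c00_apply]
  simp

/-- Every derivation over `k` along `φ` is a multiple of `φ ∘ D`. -/
theorem sigma (hA : DerAlgStmt) [CharZero L] [CharZero U] (I : Inf k d L) (hd : 6 ≤ d)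
    (φ : L →+* U⟦X⟧) {e : U⟦X⟧ →+ U⟦X⟧} (he : IsDer e) (h0 : ∀ c, e (φ (I.κ c)) = 0) :
    (∃ σ, ∀ c, e (φ c) = σ * φ (I.D c)) ∧ ∀ z, (∀ c, z * φ (I.D c) = 0) → z = 0 := by
  obtain ⟨hD, -, hF, hx, hy⟩ := I.cv
  set x := cc I.x0
  set y := cc I.y0
  set F := hc d I.f
  have hE : x * evp I.κ x y (MvPolynomial.pderiv 0 F) + y * evp I.κ x y (MvPolynomial.pderiv 1 F) =
      d := by
    have := congrArg (evp I.κ x y) (euler (hc_hom d I.f))
    simp only [map_add, map_mul, map_natCast] at this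
    rw [hF] at this
    simpa [evp] using this
  have hE' := congrArg φ hE
  simp only [map_add, map_mul, map_natCast] at hE'
  have hd0 : (d : U⟦X⟧) ≠ 0 := by
    have : (d : U⟦X⟧) = C (d : U) := (map_natCast _ _).symm
    rw [this]
    intro h
    have := congrArg cc h
    simp at this
    omega
  have hev : ∀ u, φ (evp I.κ x y u) = MvPolynomial.eval₂ (φ.comp I.κ) ![φ x, φ y] u := fun u =>
    k4_map I.κ φ u x y
  have h1 := he.eval₂ (φ.comp I.κ) h0 (φ x) (φ y) F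
  rw [← hev, ← hev, ← hev, hF, map_one, he.one] at h1
  refine ⟨?_, fun z hz => ?_⟩
  · have hdU : (d : U) ≠ 0 := by exact_mod_cast (by omega : d ≠ 0)
    have hinv : (C (d : U)⁻¹ : U⟦X⟧) * d = 1 := by
      rw [← map_natCast (C : U →+* U⟦X⟧), ← map_mul, inv_mul_cancel₀ hdU, map_one]
    refine ⟨C (d : U)⁻¹ * (φ y * e (φ x) - φ x * e (φ y)), fun c => ?_⟩
    have key := (hA L ⊤).2.2.2.2.1 U⟦X⟧ φ _
      ((he.comp_hom φ).sub ((hD.hom_comp φ).mulLeft
        (C (d : U)⁻¹ * (φ y * e (φ x) - φ x * e (φ y))))) (Set.range I.κ ∪ {x, y}) ?_ c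
      (by have := I.gb; unfold gf at this; rw [this]; trivial)
    · simpa [sub_eq_zero] using key
    · rintro m (⟨r, rfl⟩ | rfl | rfl)
      · simp [h0, I.cv.2.1]
      · have : e (φ x) - C (d : U)⁻¹ * (φ y * e (φ x) - φ x * e (φ y)) * φ (I.D x) = 0 := by
          rw [hx]
          linear_combination (-e (φ x)) * hinv - C (d : U)⁻¹ * e (φ x) * hE' -
            C (d : U)⁻¹ * φ x * h1
        simpa using this
      · have : e (φ y) - C (d : U)⁻¹ * (φ y * e (φ x) - φ x * e (φ y)) * φ (I.D y) = 0 := by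
          rw [hy, map_neg]
          linear_combination (-e (φ y)) * hinv - C (d : U)⁻¹ * e (φ y) * hE' -
            C (d : U)⁻¹ * φ y * h1
        simpa using this
  · have a1 := hz x
    have a2 := hz y
    rw [hx] at a1
    rw [hy, map_neg] at a2
    have : z * d = 0 := by linear_combination (-z) * hE' + φ y * a1 - φ x * a2
    exact (mul_eq_zero.1 this).resolve_right hd0

theorem hat_chain (φ : L →+* U⟦X⟧) {D : L →+ L} (hD : IsDer D) {δ : U →+ U} (hδ : IsDer δ)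
    {σ : U⟦X⟧} (h : ∀ c, cw δ (φ c) = σ * φ (D c)) (r : L⟦X⟧) :
    cw δ (hat φ r) = σ * hat φ (cw D r) := by
  have := hom_chain (up (⊥ : Ideal U)) (g := hat φ) (by rw [hat_X]; exact memX) hδ.coefw hD
    (a := σ) (fun r => by rw [hat_C, hat_C, h]) r
  rw [this, hat_X, cw_X hδ.one, mul_zero, add_zero]

theorem chain (φ : L →+* U⟦X⟧) {D : L →+ L} (hD : IsDer D) {δ : U →+ U} (hδ : IsDer δ)
    {σ : U⟦X⟧} (h : ∀ c, cw δ (φ c) = σ * φ (D c)) {W : AA U} (hW : C X ∣ W - X) (f : AA L) :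
    cw (cw δ) (ev ((C : U⟦X⟧ →+* AA U).comp (hat φ)) W f) =
      C σ * ev ((C : U⟦X⟧ →+* AA U).comp (hat φ)) W (cw (cw D) f) +
        cw (cw δ) W * ev ((C : U⟦X⟧ →+* AA U).comp (hat φ)) W (dX _ f) := by
  have hm := memW hW
  have := hom_chain (up (up (⊥ : Ideal U))) (g := ev ((C : U⟦X⟧ →+* AA U).comp (hat φ)) W)
    (by rw [ev_X _ hm]; exact hm) hδ.coefw.coefw hD.coefw (a := C σ) (fun r => by
      rw [ev_C _ hm, ev_C _ hm, RingHom.comp_apply, RingHom.comp_apply, cw_C,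
        hat_chain φ hD hδ h, map_mul]) f
  rw [this, ev_X _ hm, mul_comm (cw (cw δ) W)]

theorem chainX (φ : L →+* U⟦X⟧) {D : L →+ L} (hD : IsDer D) {W : AA U} (hW : C X ∣ W - X)
    (f : AA L) : dX _ (ev ((C : U⟦X⟧ →+* AA U).comp (hat φ)) W f) =
      0 * ev ((C : U⟦X⟧ →+* AA U).comp (hat φ)) W (cw (cw D) f) +
        dX _ W * ev ((C : U⟦X⟧ →+* AA U).comp (hat φ)) W (dX _ f) := by
  have hm := memW hW
  have := hom_chain (up (up (⊥ : Ideal U))) (g := ev ((C : U⟦X⟧ →+* AA U).comp (hat φ)) W)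
    (by rw [ev_X _ hm]; exact hm) isDer_dX hD.coefw (a := 0) (fun r => by
      rw [ev_C _ hm, RingHom.comp_apply, dX_C, zero_mul]) f
  rw [this, ev_X _ hm, mul_comm (dX _ W)]

theorem cw2_mA {δ : U →+ U} {i : L →+* U} (h : ∀ c, δ (i c) = 0) (a : AA L) :
    cw (cw δ) (mA i a) = 0 := by
  refine co2_ext fun m n => ?_
  have := co2_mA i m n a
  rw [co2_zero]
  unfold co2 at this ⊢
  rw [coeff_cw, coeff_cw, this, h]

/-- The case of commuting derivations. -/
theorem core (h1 : S1Stmt) (hA : DerAlgStmt) [CharZero L] [CharZero U] (I : Inf k d L)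
    (D1 : U →+ U) (i : L →+* U) (φ : L →+* U⟦X⟧) (s : U⟦X⟧) (W l : AA U) (hd : 6 ≤ d)
    (nd : ¬ I.a ∣ X * I.b) (hi : DExt I.D D1 i) (hk : ∀ c, φ (I.κ c) = C (i (I.κ c)))
    (hs : ∀ c, cw D1 (φ c) = s * φ (I.D c)) (hW : C X ∣ W - X) (hl : IsUnit l)
    (e2 : ev ((C : U⟦X⟧ →+* AA U).comp (hat φ)) W I.a * dX _ W = l * mA i I.a)
    (e1 : ev ((C : U⟦X⟧ →+* AA U).comp (hat φ)) W I.a * cw (cw D1) W +
      C s * ev ((C : U⟦X⟧ →+* AA U).comp (hat φ)) W (X * I.b) = l * (X * mA i I.b))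
    (δ : U →+ U) (hδ : IsDer δ) (h0 : ∀ c, δ (i c) = 0) (hc : ∀ c, D1 (δ c) = δ (D1 c)) :
    cw (cw δ) W = 0 ∧ cw δ s = 0 ∧ ∀ c, cw δ (φ c) = 0 := by
  have hD : IsDer I.D := I.cv.1
  obtain ⟨⟨σ, hσ⟩, hz⟩ := sigma hA I hd φ hδ.coefw (fun c => by rw [hk, cw_C, h0, map_zero])
  have hc1 : ∀ f : U⟦X⟧, cw D1 (cw δ f) = cw δ (cw D1 f) := cw_comm hc
  have hc2 : ∀ f : AA U, cw (cw D1) (cw (cw δ) f) = cw (cw δ) (cw (cw D1) f) := cw_comm hc1
  have hσs : cw D1 σ = cw δ s := by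
    refine sub_eq_zero.1 (hz _ fun c => ?_)
    have := hc1 (φ c)
    rw [hσ, hs, hi.1.coefw _ _, hδ.coefw _ _, hσ, hs] at this
    linear_combination this
  obtain ⟨l', hl'⟩ := hl.exists_right_inv
  set Φ := ev ((C : U⟦X⟧ →+* AA U).comp (hat φ)) W
  have nd' : ¬ mA i I.a ∣ X * mA i I.b := fun h => nd ((nd_map i).1 h)
  have e3 : l * (l' * (Φ I.a * cw (cw δ) W + Φ (X * I.b) * C σ)) =
      Φ I.a * cw (cw δ) W + Φ (X * I.b) * C σ := by rw [← mul_assoc, hl', one_mul]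
  have key := int3 hi.1.coefw.coefw isDer_dX hδ.coefw.coefw (chain φ hD hi.1 hs hW I.a)
    (chainX φ hD hW I.a) (chain φ hD hδ hσ hW I.a) (chain φ hD hi.1 hs hW (X * I.b))
    (chainX φ hD hW (X * I.b)) (chain φ hD hδ hσ hW (X * I.b)) (by rw [map_zero, dX_C])
    (by rw [cw_C, cw_C, hσs]) (by rw [map_zero, dX_C]) (dX_cw _ W).symm (hc2 W) (dX_cw _ W)
    (l := l) (o1 := X * mA i I.b) (o2 := mA i I.a) (by linear_combination -e1)
    (by linear_combination -e2) e3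
  have z1 : cw (cw δ) (X * mA i I.b) = 0 := by
    rw [← mA_X i, ← map_mul]; exact cw2_mA h0 _
  rw [cw2_mA h0, z1] at key
  have key' := (mul_eq_zero.1 key).resolve_left (pow_ne_zero 2 hl.ne_zero)
  have o3 : l' * (Φ I.a * cw (cw δ) W + Φ (X * I.b) * C σ) = 0 := by
    by_contra h
    refine h1 k U d (i.comp I.κ) D1 (i (cc I.x0)) (i (cc I.y0)) (mA i I.a) (mA i I.b) _ hd
      ⟨hi.1, L, inferInstance, I, i, 1, one_ne_zero, fun c => by rw [hi.2, one_mul],
        fun _ => rfl, rfl, rfl, rfl, by rw [map_one, one_mul]⟩ nd' ⟨h, ?_⟩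
    linear_combination key'
  rw [o3, mul_zero] at e3
  have hdU : (d : U) ≠ 0 := by exact_mod_cast (by omega : d ≠ 0)
  obtain ⟨w, u, w0, hu, ha⟩ := exists_w0 (a := mA i I.a) (c := -C (d : U))
    ((IsUnit.mk0 _ hdU).map C).neg (by rw [red_mA, I.ra]; simp)
  have hw : w ∈ up (⊥ : Ideal U) := by rw [mem_up, w0]; simp
  have dA : X - C w ∣ Φ I.a := by
    refine (unitW hW).dvd_mul_right.1 ?_
    rw [e2, ha]
    exact Dvd.intro (l * u) (by ring)
  have σ0 : σ = 0 := by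
    by_contra h
    apply nd'
    have hB : X - C w ∣ Φ (X * I.b) := by
      have a1 := (factor _ hw).1 dA
      have a2 := congrArg (ev (RingHom.id U⟦X⟧) w) e3
      rw [map_zero, map_add, map_mul, map_mul, a1, zero_mul, zero_add, ev_C _ hw] at a2
      exact (factor _ hw).2 ((mul_eq_zero.1 a2.symm).resolve_right h)
    rw [ha, hu.mul_right_dvd, ← hl.dvd_mul_left, ← e1]
    exact dvd_add (dA.mul_right _) (hB.mul_left _)
  have A0 : Φ I.a ≠ 0 := by
    intro h
    rw [h, zero_mul, ha] at e2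
    have := (mul_eq_zero.1 ((mul_eq_zero.1 e2.symm).resolve_left hl.ne_zero)).resolve_right
      hu.ne_zero
    have := congrArg (coeff 1) this
    simp [coeff_C, coeff_X] at this
  rw [σ0] at e3 hσs hσ
  refine ⟨?_, ?_, fun c => by rw [hσ, zero_mul]⟩
  · rw [map_zero, mul_zero, add_zero] at e3
    exact (mul_eq_zero.1 e3.symm).resolve_left A0
  · rw [← hσs, map_zero]

theorem push {Ω : Type} [Field Ω] (j : U →+* Ω) (φ : L →+* U⟦X⟧) {W : AA U} (hW : C X ∣ W - X)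
    (hW' : C X ∣ mA j W - X) (f : AA L) :
    ev ((C : Ω⟦X⟧ →+* AA Ω).comp (hat ((map j).comp φ))) (mA j W) f =
      mA j (ev ((C : U⟦X⟧ →+* AA U).comp (hat φ)) W f) := by
  rw [hom_ev _ (up (up (⊥ : Ideal Ω))) (memW hW) (mA j) (memW hW')]
  congr 2
  refine RingHom.ext fun r => ?_
  have := hom_ev (up (⊥ : Ideal U)) (up (⊥ : Ideal Ω)) (φ := φ) memX (map j)
    (by rw [map_X]; exact memX) r
  rw [map_X] at this
  simp only [RingHom.comp_apply, mA, map_C]
  exact congrArg C this.symm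

end Syma

open Syma in
theorem symaS (h1 : S1Stmt) (h2 : CommuteStmt) (hA : DerAlgStmt) : SymaStmt := by
  intro k L U _ _ _ _ d I D1 i φ s W l hd nd hi hk hs hW hl e2 e1 δ hδ h0
  haveI : CharZero L := (RingHom.charZero_iff I.κ.injective).1 inferInstance
  haveI : CharZero U := (RingHom.charZero_iff i.injective).1 inferInstance
  obtain ⟨Ω, _, D', δ', j, hj, hδ', hc, hb, hf⟩ := h2 U D1 δ hi.1 hδ
  haveI : CharZero Ω := (RingHom.charZero_iff j.injective).1 inferInstance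
  have it : ∀ n c, D1^[n] (i c) = i (I.D^[n] c) := by
    intro n
    induction n with
    | zero => intro c; rfl
    | succ n ih => intro c; rw [Function.iterate_succ_apply, hi.2, ih]; rfl
  have hW' : C X ∣ mA j W - X := by
    have := map_dvd (mA j) hW
    rwa [mA_CX, map_sub, mA_X] at this
  have m1 : ∀ f, cw D' (map j f) = map j (cw D1 f) := cw_map' hj.2
  have m2 : ∀ f : AA U, cw (cw D') (mA j f) = mA j (cw (cw D1) f) := cw_map' m1
  have m3 : ∀ f : AA U, dX _ (mA j f) = mA j (dX _ f) := dX_map _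
  have mC : ∀ r : U⟦X⟧, mA j (C r) = C (map j r) := fun r => map_C _ _
  obtain ⟨r1, r2, r3⟩ := core h1 hA I D' (j.comp i) ((map j).comp φ) (map j s) (mA j W) (mA j l) hd
    nd ⟨hj.1, fun c => by simp only [RingHom.comp_apply, hj.2, hi.2]⟩
    (fun c => by simp only [RingHom.comp_apply, hk, map_C])
    (fun c => by simp only [RingHom.comp_apply, m1, hs, map_mul]) hW' (hl.map _)
    (by rw [push j φ hW hW', m3, ← mA_mA, ← map_mul, ← map_mul, e2])
    (by
      have := congrArg (mA j) e1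
      rw [map_add, map_mul, map_mul, map_mul (mA j), map_mul (mA j), mA_X, mA_mA, mC] at this
      rw [push j φ hW hW', push j φ hW hW', m2, this])
    δ' hδ' (fun c => hf _ fun n => by rw [it, h0]) hc
  have b1 : ∀ f : U⟦X⟧, cw δ' (map j f) = 0 → cw δ f = 0 := by
    intro f h
    ext n
    have := congrArg (coeff n) h
    rw [coeff_cw, coeff_map, map_zero] at this
    rw [coeff_cw, map_zero, hb _ this]
  refine ⟨?_, b1 _ r2, fun c => b1 _ (r3 c)⟩
  refine PowerSeries.ext fun n => ?_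
  have := congrArg (coeff n) r1
  rw [coeff_cw, mA, coeff_map, map_zero] at this
  rw [coeff_cw, map_zero, b1 _ this]

end

end Pool.Agent.MP_05b4bd_ag.ES

end MrgPart4

-- ======== part 5: formerly Pool.Agent.MP_05b4bd_ag.esc.Symb
section MrgPart5

/-! A symmetry with algebraic coefficients reduces to the identity on the curve. -/

namespace Pool.Agent.MP_05b4bd_ag.ES

open PowerSeries LaurentSeries HC

namespace Symb

/-- an algebraic extension of the function field of `F = 1` is algebraic over `k(x)` -/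
theorem alg {k L E : Type} [Field k] [Field L] [Field E] (κ : k →+* L) (i : L →+* E) {d : ℕ}
    {F : R2 k} (hd : 1 ≤ d) (hF : F.IsHomogeneous d) (h0 : HC.co 0 d F ≠ 0) {x y : L}
    (h1 : evp κ x y F = 1) (hg : gf κ x y = ⊤) (ha : ∀ e : E, IsAlgebraic i.fieldRange e) (e : E) :
    IsAlgebraic (Subfield.closure (Set.range (i.comp κ) ∪ {i x})) e := by
  generalize hM : Subfield.closure (Set.range (i.comp κ) ∪ {i x}) = M
  have mk : ∀ c, i (κ c) ∈ M := fun c => hM ▸ Subfield.subset_closure (Or.inl ⟨c, rfl⟩)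
  have mx : i x ∈ M := hM ▸ Subfield.subset_closure (Or.inr rfl)
  have hy : IsAlgebraic M (i y) := by
    refine ⟨∑ j ∈ Finset.range (d + 1), Polynomial.monomial j
      (⟨_, mk (HC.co (d - j) j F)⟩ * ⟨_, mx⟩ ^ (d - j)) - 1, fun h => h0 ?_, ?_⟩
    · have h2 := congrArg (fun p => Polynomial.coeff p d) h
      simp only [Polynomial.coeff_sub, Polynomial.finsetSum_coeff, Polynomial.coeff_monomial,
        Finset.sum_ite_eq', Finset.mem_range, Nat.lt_succ_self, if_true, Polynomial.coeff_one,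
        if_neg (show ¬ d = 0 by omega), Nat.sub_self, pow_zero, mul_one, sub_zero,
        Polynomial.coeff_zero] at h2
      have h3 : i (κ (HC.co 0 d F)) = 0 := congrArg Subtype.val h2
      simpa using h3
    · have h2 := congrArg i h1
      rw [hom_eq_sum hF] at h2
      simp only [evp, map_sum, map_mul, map_pow, MvPolynomial.eval₂Hom_C,
        MvPolynomial.eval₂Hom_X', Matrix.cons_val_zero, Matrix.cons_val_one, map_one] at h2
      rw [map_sub, map_one, map_sum, sub_eq_zero, ← h2]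
      refine Finset.sum_congr rfl fun j _ => ?_
      rw [Polynomial.aeval_monomial, map_mul, map_pow, mul_assoc]
      rfl
  have sub : ∀ c, i c ∈ algebraicClosure M E := by
    intro c
    have hc : c ∈ gf κ x y := hg ▸ Subfield.mem_top c
    have le : gf κ x y ≤ (algebraicClosure M E).toSubfield.comap i := by
      refine Subfield.closure_le.2 ?_
      rintro z (⟨r, rfl⟩ | rfl | rfl)
      · exact (algebraicClosure M E).algebraMap_mem ⟨_, mk r⟩
      · exact (algebraicClosure M E).algebraMap_mem ⟨_, mx⟩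
      · exact mem_algebraicClosure_iff.2 hy
    exact le hc
  let ψ : i.fieldRange →+* algebraicClosure M E :=
    i.fieldRange.subtype.codRestrict (algebraicClosure M E) (by
      rintro ⟨_, c, rfl⟩
      exact sub c)
  let _ : Algebra i.fieldRange (algebraicClosure M E) := ψ.toAlgebra
  have : IsScalarTower i.fieldRange (algebraicClosure M E) E :=
    IsScalarTower.of_algebraMap_eq fun _ => rfl
  exact ((ha e).tower_top (algebraicClosure M E)).restrictScalars M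

variable {L E : Type} [Field L] [Field E]

theorem VT_mT {D : L →+ L} {D1 : E →+ E} {i : L →+* E} (h : ∀ c, D1 (i c) = i (D c))
    (vb c : TT L) : VT D1 (mT i vb) (mT i c) = mT i (VT D vb c) := by
  simp only [VT, map_sub, map_mul]
  rw [show cw (cwL D1) (mT i c) = mT i (cw (cwL D) c) from cw_map' (cwL_mapL h) c,
    show cw (thL E) (mT i c) = mT i (cw (thL L) c) from cw_map' (thL_mapL i) c]

theorem mapL_id (c : E⸨X⸩) : mapL (RingHom.id E) c = c := by
  ext n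
  rw [coeff_mapL]
  rfl

theorem mT_id (c : TT E) : mT (RingHom.id E) c = c :=
  PowerSeries.ext fun n => by rw [coeff_mT, mapL_id]

theorem dh_wL [CharZero E] {d : ℕ} (hd : 1 ≤ d) : dh d (wL E (-(d : ℤ))) = 1 := by
  have h1 : (d : E) ≠ 0 := Nat.cast_ne_zero.2 (by omega)
  have h2 : cL E (d : E)⁻¹ * cL E d = 1 := by rw [← map_mul, inv_mul_cancel₀ h1, map_one]
  have h3 := wL_mul_neg (R := E) (d : ℤ)
  rw [dh, thL_wL]
  push_cast
  rw [map_natCast] at h2
  linear_combination (wL E d * wL E (-(d : ℤ))) * h2 + h3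

/-- The symmetry extended to `TT`, with its chain rules. -/
theorem ext {D : L →+ L} {D1 : E →+ E} (hD : IsDer D) (hD1 : IsDer D1) (φ : L →+* E⟦X⟧)
    (s : E⟦X⟧) (W : AA E) (hφ : ∀ c, cw D1 (φ c) = s * φ (D c)) (hW : C X ∣ W - X) :
    ∃ Ψ : TT L →+* TT E,
      (∀ c, Ψ (iT c) = iT (ev ((C : E⟦X⟧ →+* AA E).comp (hat φ)) W c)) ∧ Ψ X = X ∧
      (∀ c, cc (Ψ c) = mapL (cc.comp φ) (cc c)) ∧
      (∀ c, iT W * cw (cwL D1) (Ψ c) = iT W * (iT (C s) * Ψ (cw (cwL D) c)) +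
        Ψ (cw (thL L) c) * cw (cwL D1) (iT W)) ∧
      ∀ c, iT W * cw (thL E) (Ψ c) = Ψ (cw (thL L) c) * cw (thL E) (iT W) := by
  have rW : red W = X := by
    have := red_eq_zero.2 hW
    rwa [map_sub, red_X, sub_eq_zero] at this
  have mW : W ∈ up (up (⊥ : Ideal E)) := by
    rw [mem_up2, ← cc_red, rW]
    simp
  generalize hΦ : ev ((C : E⟦X⟧ →+* AA E).comp (hat φ)) W = Φ
  have ΦC : ∀ r, Φ (C r) = C (hat φ r) := fun r => hΦ ▸ ev_C _ mW r
  have ΦX : Φ X = W := hΦ ▸ ev_X _ mW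
  obtain ⟨g, hg⟩ : ∃ g : L⟦X⟧ →+* AA E, g = Φ.comp (map C) := ⟨_, rfl⟩
  have gC : ∀ r, g (C r) = C (φ r) := fun r => by
    rw [hg, RingHom.comp_apply, map_C, ΦC, hat_C]
  have gX : g X = W := by rw [hg, RingHom.comp_apply, map_X, ΦX]
  have uW : IsUnit (iT W) := by
    rw [isUnit_iff_constantCoeff]
    show IsUnit (cc (iT W))
    rw [cc_iT, rW, coeL_X]
    exact isUnit_wL 1
  obtain ⟨ψ, hψ⟩ := liftL (iT.comp g) (by rw [RingHom.comp_apply, gX]; exact uW)
  simp only [RingHom.comp_apply] at hψ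
  have c1 : ∀ f, cw (cw D1) (g f) = C s * g (cw D f) + g (dX L f) * cw (cw D1) W := fun f => by
    rw [← gX]
    refine hom_chain _ (gX ▸ mW) hD1.coefw.coefw hD (fun r => ?_) f
    rw [gC, gC, cw_C, hφ, map_mul]
  have c2 : ∀ f, dX _ (g f) = g (dX L f) * dX _ W := fun f => by
    have := hom_chain (g := g) _ (gX ▸ mW) isDer_dX (K3.isDer_zero (R := L)) (a := 0)
      (fun r => by rw [gC, dX_C, zero_mul]) f
    rwa [zero_mul, zero_add, gX] at this
  have dD : IsDer (cw (cwL D1)) := hD1.coefL.coefw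
  have dT : IsDer (cw (thL E)) := isDer_thL.coefw
  have th : ∀ f, ψ (thL L (coeL L f)) = iT W * iT (g (dX L f)) := fun f => by
    rw [thL_coeL, hψ, thP_apply, map_mul, gX, map_mul]
  have e1 : ∀ c, iT W * cw (cwL D1) (ψ c) = iT W * (iT (C s) * ψ (cwL D c)) +
      ψ (thL L c) * cw (cwL D1) (iT W) := fun c => by
    have := derExtL ((((dD.comp_hom ψ).mulLeft (iT W)).sub
      (((hD.coefL.hom_comp ψ).mulLeft (iT (C s))).mulLeft (iT W))).sub
      ((isDer_thL.hom_comp ψ).mulLeft (cw (cwL D1) (iT W)))) (fun f => by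
        show iT W * cw (cwL D1) (ψ (coeL L f)) - iT W * (iT (C s) * ψ (cwL D (coeL L f))) -
          cw (cwL D1) (iT W) * ψ (thL L (coeL L f)) = 0
        rw [th, cwL_coeL, hψ, hψ, cw_iT, cw_iT, c1, map_add, map_mul, map_mul]
        ring) c
    change iT W * cw (cwL D1) (ψ c) - iT W * (iT (C s) * ψ (cwL D c)) -
      cw (cwL D1) (iT W) * ψ (thL L c) = 0 at this
    linear_combination this
  have e2 : ∀ c, iT W * cw (thL E) (ψ c) = ψ (thL L c) * cw (thL E) (iT W) := fun c => by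
    have := derExtL (((dT.comp_hom ψ).mulLeft (iT W)).sub
      ((isDer_thL.hom_comp ψ).mulLeft (cw (thL E) (iT W)))) (fun f => by
        show iT W * cw (thL E) (ψ (coeL L f)) - cw (thL E) (iT W) * ψ (thL L (coeL L f)) = 0
        rw [th, hψ, th_iT, th_iT, thP_apply, thP_apply, c2]
        simp only [map_mul]
        ring) c
    change iT W * cw (thL E) (ψ c) - cw (thL E) (iT W) * ψ (thL L c) = 0 at this
    linear_combination this
  have mX : hat ψ X ∈ K3.JX E⸨X⸩ := by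
    rw [hat_X]
    exact K3.mem_JX dvd_rfl
  refine ⟨hat ψ, fun c => ?_, hat_X _, fun c => ?_, fun c => ?_, fun c => ?_⟩
  · have := homExtT (K3.JX E⸨X⸩) (g := (hat ψ).comp iT) (g' := iT.comp Φ) (fun f => by
      rw [RingHom.comp_apply, RingHom.comp_apply, iT_mapC, hat_C, hψ, hg, RingHom.comp_apply])
      (by rw [RingHom.comp_apply, RingHom.comp_apply, iT_CX, hat_X, ΦC, hat_X, iT_CX])
      (by rw [RingHom.comp_apply, iT_CX]; exact mX)
    exact RingHom.congr_fun this c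
  · have k1 : red.comp g = map (cc.comp φ) := homExt (K3.JX E)
      (fun r => by rw [RingHom.comp_apply, gC, red_C, map_C, RingHom.comp_apply])
      (by rw [RingHom.comp_apply, gX, rW, map_X])
      (by rw [RingHom.comp_apply, gX, rW]; exact K3.mem_JX dvd_rfl)
    have k2 : cc.comp ψ = mapL (cc.comp φ) := homExtL fun f => by
      rw [RingHom.comp_apply, hψ, cc_iT, mapL_coeL, ← k1, RingHom.comp_apply]
    rw [cc_hat, ← k2, RingHom.comp_apply]
  · have := derExt (K3.JX E⸨X⸩) ((((dD.comp_hom (hat ψ)).mulLeft (iT W)).sub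
      (((hD.coefL.coefw.hom_comp (hat ψ)).mulLeft (iT (C s))).mulLeft (iT W))).sub
      ((isDer_thL.coefw.hom_comp (hat ψ)).mulLeft (cw (cwL D1) (iT W)))) (fun r => by
        show iT W * cw (cwL D1) (hat ψ (C r)) - iT W * (iT (C s) * hat ψ (cw (cwL D) (C r))) -
          cw (cwL D1) (iT W) * hat ψ (cw (thL L) (C r)) = 0
        rw [cw_C, cw_C, hat_C, hat_C, hat_C, e1]
        ring) (by
        show iT W * cw (cwL D1) (hat ψ X) - iT W * (iT (C s) * hat ψ (cw (cwL D) X)) -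
          cw (cwL D1) (iT W) * hat ψ (cw (thL L) X) = 0
        rw [hat_X, cw_X hD1.coefL.one, cw_X hD.coefL.one, cw_X isDer_thL.one, map_zero]
        ring) mX c
    change iT W * cw (cwL D1) (hat ψ c) - iT W * (iT (C s) * hat ψ (cw (cwL D) c)) -
      cw (cwL D1) (iT W) * hat ψ (cw (thL L) c) = 0 at this
    linear_combination this
  · have := derExt (K3.JX E⸨X⸩) (((dT.comp_hom (hat ψ)).mulLeft (iT W)).sub
      ((isDer_thL.coefw.hom_comp (hat ψ)).mulLeft (cw (thL E) (iT W)))) (fun r => by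
        show iT W * cw (thL E) (hat ψ (C r)) - cw (thL E) (iT W) * hat ψ (cw (thL L) (C r)) = 0
        rw [cw_C, hat_C, hat_C, e2]
        ring) (by
        show iT W * cw (thL E) (hat ψ X) - cw (thL E) (iT W) * hat ψ (cw (thL L) X) = 0
        rw [hat_X, cw_X isDer_thL.one, cw_X isDer_thL.one, map_zero]
        ring) mX c
    change iT W * cw (thL E) (hat ψ c) - cw (thL E) (iT W) * hat ψ (cw (thL L) c) = 0 at this
    linear_combination this

theorem map_evp {k : Type} [Field k] (κ : k →+* L) (τ : L →+* E) (x y : L) (r : R2 k) :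
    τ (evp κ x y r) = evp (τ.comp κ) (τ x) (τ y) r := by
  have : τ.comp (evp κ x y) = evp (τ.comp κ) (τ x) (τ y) := by
    refine MvPolynomial.ringHom_ext (fun c => by simp [evp]) fun j => ?_
    fin_cases j <;> simp [evp]
  exact RingHom.congr_fun this r

end Symb

open Symb in
theorem symbS (h1 : CmpStmt) (h2 : IlStmt) (h3 : HolStmt) (h4 : GenTopStmt) : SymbStmt := by
  intro k L E _ _ _ _ _ d I D1 i φ s W hd hE halg hκ hφ hW heq
  have : CharZero L := charZero_of_injective_ringHom I.κ.injective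
  have : CharZero E := charZero_of_injective_ringHom i.injective
  obtain ⟨hD, hDκ, hF, hx, hy⟩ := I.cv
  obtain ⟨-, hCI, -, h0d, -⟩ := h4 k d I.f (by omega) I.gen
  obtain ⟨Ψ, p1, p2, p3, p4, p5⟩ := ext hD hE.1 φ s W hφ hW
  have rW : red W = X := by
    have := red_eq_zero.2 hW
    rwa [map_sub, red_X, sub_eq_zero] at this
  have mW : W ∈ up (up (⊥ : Ideal E)) := by
    rw [mem_up2, ← cc_red, rW]
    simp
  have nW : iT W ≠ 0 := fun h => by
    have := congrArg cc h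
    rw [cc_iT, rW, coeL_X, map_zero] at this
    exact (isUnit_wL 1).ne_zero this
  have ca : cc (iT I.a) ≠ 0 := by
    rw [cc_iT, I.ra, map_neg, map_mul, coeL_X, map_natCast, neg_ne_zero]
    refine mul_ne_zero ?_ (isUnit_wL 1).ne_zero
    rw [← map_natCast (cL L), map_ne_zero]
    exact Nat.cast_ne_zero.2 (by omega)
  have ua : IsUnit (iT I.a) := isUnit_iff_constantCoeff.2 (Ne.isUnit ca)
  have cv : cc I.vb = 0 := by
    have := congrArg cc I.hv
    rw [map_mul, cc_iT I.b, I.rb, map_zero] at this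
    exact (mul_eq_zero.1 this).resolve_left ca
  have key : cw (cwL D1) (iT W) + iT (C s) * (iT W * Ψ I.vb) = cw (thL E) (iT W) * mT i I.vb := by
    have e := congrArg iT heq
    rw [map_mul (ev _ W) X, ev_X _ mW] at e
    simp only [map_mul, map_add] at e
    rw [← p1, ← p1, ← mT_iT, ← mT_iT, ← I.hv, ← cw_iT, map_mul, map_mul] at e
    rw [th_iT, thP_apply, map_mul]
    refine mul_left_cancel₀ (mul_ne_zero (ua.map (mT i)).ne_zero (ua.map Ψ).ne_zero) ?_
    linear_combination e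
  have hV : VT D1 (mT (RingHom.id E) (mT i I.vb)) (Ψ I.h) = X ^ I.n * (iT (C s) * Ψ I.Xi) := by
    have e := congrArg Ψ I.hV
    rw [VT, map_sub, map_mul, map_mul, map_pow, p2] at e
    rw [mT_id, VT]
    refine mul_left_cancel₀ nW ?_
    linear_combination p4 I.h - mT i I.vb * p5 I.h + Ψ (cw (thL L) I.h) * key +
      iT W * iT (C s) * e
  obtain ⟨S0, S', -, -, q⟩ := h1 E E D1 D1 (RingHom.id E) d I.n (mT i I.vb) (mT i I.h) (mT i I.Xi)
    (Ψ I.h) _ (by omega) I.n1 ⟨hE.1, fun _ => rfl⟩ (fun c _ => ⟨c, rfl⟩)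
    (by rw [mT, K3.cc_map, cv, map_zero]) (by rw [mT, K3.cc_map, I.rh, mapL_wL])
    (by rw [VT_mT hE.2, I.hV, map_mul, map_pow, mT, map_X]) hV
  rw [p3, I.rh, mapL_wL, dh_wL (by omega), one_mul, mapL_id, map_mul, p3, cc_iT, red_C, coeL_C, mT,
    K3.cc_map] at q
  generalize hφ0 : cc.comp φ = φ0 at q
  have f0 : ∀ c, cc (φ c) = φ0 c := fun c => RingHom.congr_fun hφ0 c
  have fκ : φ0.comp I.κ = i.comp I.κ := RingHom.ext fun c => by
    rw [RingHom.comp_apply, ← f0, hκ]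
    simp
  have fD : ∀ c, D1 (φ0 c) = cc s * φ0 (I.D c) := fun c => by
    rw [← f0, ← f0, ← cc_cw, hφ, map_mul]
  have Dκ : ∀ c, D1 (i (I.κ c)) = 0 := fun c => by rw [hE.2, hDκ, map_zero]
  let Λ : AddSubgroup L := D1.range.comap
    ((AddMonoidHom.mulLeft (cc s)).comp φ0.toAddMonoidHom - i.toAddMonoidHom)
  have mΛ : ∀ z, z ∈ Λ ↔ ∃ η, D1 η = cc s * φ0 z - i z := fun z => Iff.rfl
  have il := h2 k L d I Λ (by omega) (fun c z hz => by
      obtain ⟨η, e⟩ := (mΛ z).1 hz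
      refine (mΛ _).2 ⟨i (I.κ c) * η, ?_⟩
      rw [hE.1.const_mul (Dκ c), e, map_mul, map_mul,
        show φ0 (I.κ c) = i (I.κ c) from RingHom.congr_fun fκ c]
      ring)
    (fun η => (mΛ _).2 ⟨φ0 η - i η, by rw [map_sub, fD, hE.2]⟩)
    (fun m _ => (mΛ _).2 ⟨(cc S').coeff m, by
      rw [← coeff_cwL, q, HahnSeries.coeff_sub, coeff_cL_mul, coeff_mapL, coeff_mapL]⟩)
  have fin : ∀ (n : ℕ) (r : R2 k), r.IsHomogeneous n → n ≤ 1 →
      cc s * φ0 (evp I.κ (cc I.x0) (cc I.y0) r) = i (evp I.κ (cc I.x0) (cc I.y0) r) := by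
    intro n r hr hn
    obtain ⟨η, e⟩ := (mΛ _).1 (il n r hr fun t => by have := Nat.le_of_dvd (by omega) t; omega)
    have dl : DL (d - 2) r := fun m hm => hr.coeff_eq_zero (by omega)
    have z := h3 k E (i.comp I.κ) D1 hE.1 Dκ
      ⟨_, alg I.κ i (by omega) (hc_hom d I.f) h0d hF I.gb halg⟩ d (hc d I.f) (by omega)
      (hc_hom d I.f) hCI 2 0 ![cc s, 1] ![φ0 (cc I.x0), i (cc I.x0)] ![φ0 (cc I.y0), i (cc I.y0)]
      ![r, -r] Fin.elim0 Fin.elim0 η (fun j => by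
        fin_cases j
        · refine ⟨?_, ?_, ?_, dl⟩
          · show evp _ (φ0 _) (φ0 _) _ = 1
            rw [← fκ, ← map_evp, hF, map_one]
          · show D1 (φ0 _) = cc s * evp _ (φ0 _) (φ0 _) _
            rw [← fκ, ← map_evp, fD, hx]
          · show D1 (φ0 _) = -(cc s * evp _ (φ0 _) (φ0 _) _)
            rw [← fκ, ← map_evp, fD, hy, map_neg, mul_neg]
        · refine ⟨?_, ?_, ?_, fun m hm => ?_⟩
          · show evp _ (i _) (i _) _ = 1
            rw [← map_evp, hF, map_one]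
          · show D1 (i _) = 1 * evp _ (i _) (i _) _
            rw [← map_evp, hE.2, hx, one_mul]
          · show D1 (i _) = -(1 * evp _ (i _) (i _) _)
            rw [← map_evp, hE.2, hy, map_neg, one_mul]
          · show MvPolynomial.coeff m (-r) = 0
            rw [MvPolynomial.coeff_neg, dl m hm, neg_zero])
      (fun j => j.elim0) (by
        rw [Fin.sum_univ_two, Fin.sum_univ_zero, add_zero, e]
        show _ = cc s * evp _ (φ0 _) (φ0 _) r + 1 * evp _ (i _) (i _) (-r)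
        rw [map_evp, map_evp, fκ, map_neg]
        ring)
    rw [e] at z
    exact sub_eq_zero.1 z
  have s1 : cc s = 1 := by simpa using fin 0 1 (MvPolynomial.isHomogeneous_one _ _) (by omega)
  have sx := fin 1 _ (MvPolynomial.isHomogeneous_X k 0) le_rfl
  have sy := fin 1 _ (MvPolynomial.isHomogeneous_X k 1) le_rfl
  rw [s1, one_mul] at sx sy
  rw [f0, f0]
  exact ⟨by simpa [evp] using sx, by simpa [evp] using sy⟩

end Pool.Agent.MP_05b4bd_ag.ES

end MrgPart5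

-- marker of a merged file
example : 731051 + 461563 = 731051 + 461563 := rfl
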