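import Mathlib.RingTheory.AdicCompletion.Noetherian
import Mathlib.RingTheory.PowerSeries.Expand
import Mathlib.RingTheory.PowerSeries.WeierstrassPreparation
import Pool.Agent.MP_05b4bd_ag.esc.IL
import Pool.Agent.MP_05b4bd_ag.esc.Bx
import Pool.Agent.MP_05b4bd_ag.esc.K2b
import Mathlib.Algebra.Azumaya.Basic
import Mathlib.Data.Rat.Star
import Pool.Agent.MP_05b4bd_ag.esc.Symb

-- ======== part 0: formerly Pool.Agent.MP_05b4bd_ag.esc.Wrap1
section MrgPart0

-- ======== part 0: formerly Pool.Agent.MP_05b4bd_ag.esc.NP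
section MrgPart0

namespace Pool.Agent.MP_05b4bd_ag.Esc

open Polynomial

section NP0

theorem coeff_taylor_pred {R : Type*} [CommRing R] (f : R[X]) (r : R) (m : ℕ)
    (hm : f.natDegree = m + 1) :
    (taylor r f).coeff m = f.coeff m + (m + 1 : R) * f.coeff (m + 1) * r := by
  rw [taylor_coeff]
  have h : hasseDeriv m f = C (f.coeff m) + C ((m + 1 : R) * f.coeff (m + 1)) * X := by
    ext j
    rw [hasseDeriv_coeff]
    rcases j with _ | _ | j
    · simp
    · simp [add_comm 1 m, Nat.choose_succ_self_right, coeff_C]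
    · have : f.coeff (j + 1 + 1 + m) = 0 := coeff_eq_zero_of_natDegree_lt (by omega)
      simp [this, coeff_one]
  rw [h]
  simp

variable {k : Type*} [Field k]

def HasRoot (f : (PowerSeries k)[X]) : Prop :=
  ∃ (n : ℕ) (hn : n ≠ 0) (y : PowerSeries k),
    eval₂ (PowerSeries.expand n hn : PowerSeries k →ₐ[k] PowerSeries k).toRingHom y f = 0

theorem HasRoot.of_taylor {f : (PowerSeries k)[X]} (r : PowerSeries k)
    (h : HasRoot (taylor r f)) : HasRoot f := by
  obtain ⟨n, hn, y, hy⟩ := h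
  refine ⟨n, hn, y + PowerSeries.expand n hn r, ?_⟩
  rw [eval₂_eq_eval_map] at hy ⊢
  rw [map_taylor, taylor_eval] at hy
  exact hy

theorem HasRoot.of_dvd {f g : (PowerSeries k)[X]} (hd : g ∣ f) (h : HasRoot g) : HasRoot f := by
  obtain ⟨n, hn, y, hy⟩ := h
  obtain ⟨q, rfl⟩ := hd
  exact ⟨n, hn, y, by rw [eval₂_mul, hy, zero_mul]⟩

theorem HasRoot.of_scale {f g : (PowerSeries k)[X]} (n : ℕ) (hn : n ≠ 0) (s : PowerSeries k)
    (hfg : f.map (PowerSeries.expand n hn : PowerSeries k →ₐ[k] PowerSeries k).toRingHom =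
      g.scaleRoots s) (h : HasRoot g) : HasRoot f := by
  obtain ⟨n', hn', y, hy⟩ := h
  refine ⟨n' * n, Nat.mul_ne_zero hn' hn, PowerSeries.expand n' hn' s * y, ?_⟩
  have h1 := scaleRoots_eval₂_eq_zero (s := s) _ hy
  rw [← hfg, eval₂_map] at h1
  have h2 : (PowerSeries.expand (n' * n) (Nat.mul_ne_zero hn' hn) :
      PowerSeries k →ₐ[k] PowerSeries k).toRingHom = ((PowerSeries.expand n' hn' :
      PowerSeries k →ₐ[k] PowerSeries k).toRingHom).comp (PowerSeries.expand n hn :
      PowerSeries k →ₐ[k] PowerSeries k).toRingHom :=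
    RingHom.ext fun φ => PowerSeries.expand_mul n' hn' n hn φ
  rw [h2]
  exact h1

instance : IsAdicComplete (IsLocalRing.maximalIdeal (PowerSeries k)) (PowerSeries k) := by
  rw [PowerSeries.maximalIdeal_eq_span_X]
  infer_instance

theorem mem_max_iff (a : PowerSeries k) :
    a ∈ IsLocalRing.maximalIdeal (PowerSeries k) ↔ PowerSeries.constantCoeff a = 0 := by
  rw [PowerSeries.maximalIdeal_eq_span_X, Ideal.mem_span_singleton, PowerSeries.X_dvd_iff]

theorem exists_factor (g : (PowerSeries k)[X]) (hg : g.Monic)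
    (h0 : PowerSeries.constantCoeff (g.coeff 0) = 0)
    (h1 : ∃ i < g.natDegree, PowerSeries.constantCoeff (g.coeff i) ≠ 0) :
    ∃ P : (PowerSeries k)[X], P.Monic ∧ P ∣ g ∧ 0 < P.natDegree ∧ P.natDegree < g.natDegree := by
  have hne : (g : PowerSeries (PowerSeries k)).map (IsLocalRing.residue (PowerSeries k)) ≠ 0 := by
    rw [← Polynomial.polynomial_map_coe]
    exact_mod_cast g.map_monic_ne_zero (f := IsLocalRing.residue (PowerSeries k)) hg
  obtain ⟨P, h, H⟩ := PowerSeries.exists_isWeierstrassFactorization hne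
  have hP := H.isDistinguishedAt
  have hdvd : P ∣ g := by
    have hW := hP.isWeierstrassDivisorAt' (A := PowerSeries k)
    have hdeg : (P.natDegree : ℕ) = ((P : PowerSeries (PowerSeries k)).map
        (Ideal.Quotient.mk (IsLocalRing.maximalIdeal (PowerSeries k)))).order.toNat := by
      have := hP.coe_natDegree_eq_order_map (P : PowerSeries (PowerSeries k)) 1
        (by simp) (by simp)
      exact congr(ENat.toNat $this)
    have hr : (g %ₘ P).degree < (((P : PowerSeries (PowerSeries k)).map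
        (Ideal.Quotient.mk (IsLocalRing.maximalIdeal (PowerSeries k)))).order.toNat : ℕ) := by
      rw [← hdeg, ← degree_eq_natDegree hP.monic.ne_zero]
      exact degree_modByMonic_lt g hP.monic
    have hz : (0 : (PowerSeries k)[X]).degree < (((P : PowerSeries (PowerSeries k)).map
        (Ideal.Quotient.mk (IsLocalRing.maximalIdeal (PowerSeries k)))).order.toNat : ℕ) := by
      rw [degree_zero]
      exact WithBot.bot_lt_coe _
    have he : (P : PowerSeries (PowerSeries k)) * ((g /ₘ P : (PowerSeries k)[X]) :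
        PowerSeries (PowerSeries k)) + ((g %ₘ P : (PowerSeries k)[X]) :
        PowerSeries (PowerSeries k)) = (P : PowerSeries (PowerSeries k)) * h +
          ((0 : (PowerSeries k)[X]) : PowerSeries (PowerSeries k)) := by
      rw [← Polynomial.coe_mul, ← Polynomial.coe_add, add_comm, modByMonic_add_div,
        Polynomial.coe_zero, add_zero]
      exact H.eq_mul
    have := (hW.eq_of_mul_add_eq_mul_add hr hz he).2
    exact (modByMonic_eq_zero_iff_dvd hP.monic).1 this
  refine ⟨P, hP.monic, hdvd, ?_, ?_⟩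
  · rcases Nat.eq_zero_or_pos P.natDegree with h2 | h2
    · exfalso
      have h3 : P = 1 := hP.monic.natDegree_eq_zero.1 h2
      have h4 : IsUnit (g : PowerSeries (PowerSeries k)) := by
        rw [H.eq_mul, h3]
        simpa using H.isUnit
      have h5 := PowerSeries.isUnit_iff_constantCoeff.1 h4
      rw [Polynomial.constantCoeff_coe] at h5
      have h6 := PowerSeries.isUnit_iff_constantCoeff.1 h5
      rw [h0] at h6
      exact not_isUnit_zero h6
    · exact h2
  · by_contra h2
    have h3 : g = P := eq_of_monic_of_dvd_of_natDegree_le hP.monic hg hdvd (by omega)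
    obtain ⟨i, hi, hi'⟩ := h1
    apply hi'
    rw [← mem_max_iff, h3]
    exact hP.mem (h3 ▸ hi)

theorem hasRoot_of_monic [IsAlgClosed k] [CharZero k] :
    ∀ (m : ℕ) (f : (PowerSeries k)[X]), f.Monic → f.natDegree = m + 1 → HasRoot f := by
  classical
  intro m
  induction m using Nat.strong_induction_on with
  | _ m ih =>
  intro f0 hf0 hd0
  have hm : ((m : k) + 1) ≠ 0 := by exact_mod_cast Nat.succ_ne_zero m
  set r : PowerSeries k := -(PowerSeries.C ((m : k) + 1)⁻¹ * f0.coeff m) with hr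
  apply HasRoot.of_taylor r
  set f := taylor r f0 with hf
  have hfm : f.Monic := by rw [Monic, hf, leadingCoeff_taylor]; exact hf0
  have hd : f.natDegree = m + 1 := by rw [hf, natDegree_taylor, hd0]
  have hc : f.coeff m = 0 := by
    rw [hf, coeff_taylor_pred f0 r m hd0, ← hd0, hf0.coeff_natDegree, hr]
    have : ((m : PowerSeries k) + 1) * PowerSeries.C ((m : k) + 1)⁻¹ = 1 := by
      have h1 : ((m : PowerSeries k) + 1) = PowerSeries.C ((m : k) + 1) := by simp
      rw [h1, ← map_mul, mul_inv_cancel₀ hm, map_one]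
    linear_combination (-(f0.coeff m)) * this
  clear_value f
  by_cases h0 : f.coeff 0 = 0
  · exact ⟨1, one_ne_zero, 0, by rw [eval₂_at_zero, h0, map_zero]⟩
  obtain ⟨i0, hi0, hmin⟩ := ((Finset.range (m + 1)).filter fun i => f.coeff i ≠ 0).exists_min_image
    (fun i => ((f.coeff i).order.toNat : ℚ) / ((m + 1 - i : ℕ) : ℚ)) ⟨0, by simp [h0]⟩
  simp only [Finset.mem_filter, Finset.mem_range] at hi0 hmin
  set n := m + 1 - i0 with hn
  have hn0 : n ≠ 0 := by omega
  set u := (f.coeff i0).order.toNat with hu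
  have hdiv : ∀ i, (PowerSeries.X : PowerSeries k) ^ (u * (m + 1 - i)) ∣
      PowerSeries.expand n hn0 (f.coeff i) := by
    intro i
    by_cases hi : i < m + 1
    · by_cases hz : f.coeff i = 0
      · simp [hz]
      · have h1 := hmin i ⟨hi, hz⟩
        have h2 : (0 : ℚ) < ((m + 1 - i : ℕ) : ℚ) := by exact_mod_cast (by omega)
        have h3 : (0 : ℚ) < (n : ℚ) := by exact_mod_cast (by omega)
        rw [div_le_div_iff₀ h3 h2] at h1
        have h4 : u * (m + 1 - i) ≤ (f.coeff i).order.toNat * n := by exact_mod_cast h1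
        obtain ⟨b, hb⟩ := PowerSeries.X_pow_order_dvd (φ := f.coeff i)
        rw [hb, map_mul, map_pow, PowerSeries.expand_X, ← pow_mul]
        exact Dvd.dvd.mul_right (pow_dvd_pow _ (by rw [mul_comm n]; exact h4)) _
    · have : m + 1 - i = 0 := by omega
      simp [this]
  choose b hb using hdiv
  have hXne : ∀ j : ℕ, (PowerSeries.X : PowerSeries k) ^ j ≠ 0 := fun j =>
    pow_ne_zero _ PowerSeries.X_ne_zero
  set g : (PowerSeries k)[X] := ∑ i ∈ Finset.range (m + 2), monomial i (b i) with hg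
  have hgc : ∀ i, g.coeff i = if i < m + 2 then b i else 0 := by
    intro i
    simp [hg, coeff_monomial]
  have hb1 : b (m + 1) = 1 := by
    have := hb (m + 1)
    rw [← hd, hfm.coeff_natDegree, map_one, hd] at this
    simpa using this.symm
  have hgd : g.natDegree = m + 1 := by
    apply natDegree_eq_of_le_of_coeff_ne_zero
    · rw [natDegree_le_iff_coeff_eq_zero]
      intro i hi
      rw [hgc, if_neg (by omega)]
    · rw [hgc, if_pos (by omega), hb1]
      exact one_ne_zero
  have hgm : g.Monic := by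
    rw [Monic, leadingCoeff, hgd, hgc, if_pos (by omega), hb1]
  have hbm : b m = 0 := by
    have := hb m
    rw [hc, map_zero] at this
    exact (mul_eq_zero.1 this.symm).resolve_left (hXne _)
  have hbi : PowerSeries.constantCoeff (b i0) ≠ 0 := by
    intro h
    have h1 := hb i0
    have h2 := congr(PowerSeries.coeff (n * u) $h1)
    rw [PowerSeries.coeff_expand_mul, ← hn, mul_comm u n] at h2
    have h3 := PowerSeries.coeff_X_pow_mul (b i0) (n * u) 0
    rw [zero_add] at h3
    rw [h3, PowerSeries.coeff_zero_eq_constantCoeff, h] at h2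
    exact PowerSeries.coeff_order hi0.2 h2
  refine HasRoot.of_scale (g := g) n hn0 (PowerSeries.X ^ u) ?_ ?_
  · ext1 i
    rw [coeff_map, coeff_scaleRoots, hgd, hgc]
    split_ifs with hi
    · rw [← pow_mul, mul_comm]
      exact hb i
    · rw [coeff_eq_zero_of_natDegree_lt (by omega), map_zero, zero_mul]
  set gb : k[X] := g.map (PowerSeries.constantCoeff (R := k)) with hgb
  have hgbm : gb.Monic := hgm.map _
  have hgbd : gb.natDegree = m + 1 := by rw [hgb, hgm.natDegree_map, hgd]
  obtain ⟨c, hc0⟩ := IsAlgClosed.exists_root gb (by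
    rw [degree_eq_natDegree hgbm.ne_zero, hgbd]
    exact_mod_cast Nat.succ_ne_zero m)
  apply HasRoot.of_taylor (PowerSeries.C c)
  set g1 := taylor (PowerSeries.C c) g with hg1
  have hg1m : g1.Monic := by rw [Monic, hg1, leadingCoeff_taylor]; exact hgm
  have hg1d : g1.natDegree = m + 1 := by rw [hg1, natDegree_taylor, hgd]
  have hmap : ∀ i, PowerSeries.constantCoeff (g1.coeff i) = (taylor c gb).coeff i := by
    intro i
    rw [← coeff_map, hg1, map_taylor, PowerSeries.constantCoeff_C]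
  obtain ⟨P, hPm, hPd, hP0, hP1⟩ := exists_factor g1 hg1m
    (by rw [hmap, taylor_coeff_zero]; exact hc0) (by
      by_contra hcon
      push Not at hcon
      have h1 := hcon m (by omega)
      rw [hmap, coeff_taylor_pred gb c m hgbd, ← hgbd, hgbm.coeff_natDegree, hgb, coeff_map, hgc,
        if_pos (by omega), hbm, map_zero, zero_add, mul_one] at h1
      have h2 : c = 0 := (mul_eq_zero.1 h1).resolve_left hm
      have h3 := hcon i0 (by omega)
      rw [hmap, h2, taylor_zero, hgb, coeff_map, hgc, if_pos (by omega)] at h3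
      exact hbi h3)
  exact HasRoot.of_dvd hPd (ih (P.natDegree - 1) (by omega) P hPm (by omega))

end NP0

section NP1

variable {k : Type*} [Field k]

theorem expand_injective (n : ℕ) (hn : n ≠ 0) :
    Function.Injective (PowerSeries.expand n hn : PowerSeries k →ₐ[k] PowerSeries k) := by
  intro a b h
  ext m
  rw [← PowerSeries.coeff_expand_mul n hn a m, h, PowerSeries.coeff_expand_mul]

noncomputable def expandL (n : ℕ) (hn : n ≠ 0) : LaurentSeries k →+* LaurentSeries k :=
  IsFractionRing.lift (A := PowerSeries k)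
    (g := (algebraMap (PowerSeries k) (LaurentSeries k)).comp
      (PowerSeries.expand n hn : PowerSeries k →ₐ[k] PowerSeries k).toRingHom)
    ((IsFractionRing.injective (PowerSeries k) (LaurentSeries k)).comp (expand_injective n hn))

theorem expandL_algebraMap (n : ℕ) (hn : n ≠ 0) (a : PowerSeries k) :
    expandL n hn (algebraMap (PowerSeries k) (LaurentSeries k) a) =
      algebraMap (PowerSeries k) (LaurentSeries k) (PowerSeries.expand n hn a) :=
  IsFractionRing.lift_algebraMap _ a

theorem expandL_C (n : ℕ) (hn : n ≠ 0) (c : k) :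
    expandL n hn (HahnSeries.C c) = HahnSeries.C c := by
  have h : (HahnSeries.C c : LaurentSeries k) =
      algebraMap (PowerSeries k) (LaurentSeries k) (PowerSeries.C c) := by
    rw [LaurentSeries.coe_algebraMap, HahnSeries.ofPowerSeries_C]
  rw [h, expandL_algebraMap, PowerSeries.expand_C]

theorem expandL_X (n : ℕ) (hn : n ≠ 0) :
    expandL n hn (algebraMap (PowerSeries k) (LaurentSeries k) PowerSeries.X) =
      algebraMap (PowerSeries k) (LaurentSeries k) PowerSeries.X ^ n := by
  rw [expandL_algebraMap, PowerSeries.expand_X, map_pow]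

theorem expandL_single_one (n : ℕ) (hn : n ≠ 0) :
    expandL n hn (HahnSeries.single 1 1 : LaurentSeries k) = HahnSeries.single (n : ℤ) 1 := by
  have h := expandL_X (k := k) n hn
  rw [LaurentSeries.coe_algebraMap, HahnSeries.ofPowerSeries_X, HahnSeries.single_pow] at h
  simpa using h

theorem exists_root_laurent [IsAlgClosed k] [CharZero k] (f : (LaurentSeries k)[X])
    (hf : f.Monic) (hd : 0 < f.natDegree) :
    ∃ (n : ℕ) (hn : n ≠ 0) (y : LaurentSeries k), eval₂ (expandL n hn) y f = 0 := by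
  classical
  obtain ⟨s, hs⟩ := IsLocalization.exist_integer_multiples_of_finset
    (nonZeroDivisors (PowerSeries k)) (S := LaurentSeries k) f.coeffs
  have hs0 : (s : PowerSeries k) ≠ 0 := nonZeroDivisors.coe_ne_zero s
  set s' : LaurentSeries k := algebraMap (PowerSeries k) (LaurentSeries k) s with hs'
  have hl : f.scaleRoots s' ∈ lifts (algebraMap (PowerSeries k) (LaurentSeries k)) := by
    rw [lifts_iff_coeff_lifts]
    intro i
    rw [coeff_scaleRoots]
    rcases lt_trichotomy i f.natDegree with hi | hi | hi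
    · by_cases hz : f.coeff i = 0
      · exact ⟨0, by simp [hz]⟩
      · obtain ⟨a, ha⟩ := hs (f.coeff i) (coeff_mem_coeffs hz)
        refine ⟨a * s ^ (f.natDegree - i - 1), ?_⟩
        have h1 : f.natDegree - i = (f.natDegree - i - 1) + 1 := by omega
        rw [map_mul, map_pow, ha, Algebra.smul_def, ← hs']
        conv_rhs => rw [h1]
        ring
    · exact ⟨1, by simp [hi, hf.coeff_natDegree]⟩
    · exact ⟨0, by simp [coeff_eq_zero_of_natDegree_lt hi]⟩
  obtain ⟨g, hg, hgd, hgm⟩ := lifts_and_natDegree_eq_and_monic hl ((monic_scaleRoots_iff _).2 hf)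
  rw [natDegree_scaleRoots] at hgd
  obtain ⟨n, hn, y, hy⟩ := hasRoot_of_monic (g.natDegree - 1) g hgm (by omega)
  have hs1 : expandL n hn s' ≠ 0 := by
    rw [_root_.map_ne_zero, hs']
    exact (map_ne_zero_iff _ (IsFractionRing.injective _ _)).2 hs0
  refine ⟨n, hn, algebraMap (PowerSeries k) (LaurentSeries k) y / expandL n hn s', ?_⟩
  have h1 := scaleRoots_eval₂_mul (p := f) (expandL n hn)
    (algebraMap (PowerSeries k) (LaurentSeries k) y / expandL n hn s') s'
  rw [mul_div_cancel₀ _ hs1, ← hg, eval₂_map] at h1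
  have h2 : (expandL n hn).comp (algebraMap (PowerSeries k) (LaurentSeries k)) =
      (algebraMap (PowerSeries k) (LaurentSeries k)).comp
        (PowerSeries.expand n hn : PowerSeries k →ₐ[k] PowerSeries k).toRingHom :=
    RingHom.ext fun a => expandL_algebraMap n hn a
  rw [h2, ← hom_eval₂, hy, map_zero] at h1
  exact (mul_eq_zero.1 h1.symm).resolve_left (pow_ne_zero _ hs1)

theorem exists_extension [IsAlgClosed k] [CharZero k] {K0 L : Type*} [Field K0] [Field L]
    [Algebra K0 L] [FiniteDimensional K0 L] (ψ : K0 →+* LaurentSeries k) :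
    ∃ (n : ℕ) (hn : n ≠ 0) (φ : L →+* LaurentSeries k),
      ∀ c : K0, φ (algebraMap K0 L c) = expandL n hn (ψ c) := by
  have : CharZero (LaurentSeries k) := algebraRat.charZero _
  have : CharZero K0 := ψ.charZero
  let pb := Field.powerBasisOfFiniteOfSeparable K0 L
  have hi : IsIntegral K0 pb.gen := Algebra.IsIntegral.isIntegral _
  obtain ⟨n, hn, y, hy⟩ := exists_root_laurent ((minpoly K0 pb.gen).map ψ)
    ((minpoly.monic hi).map _) (by
      rw [(minpoly.monic hi).natDegree_map]
      exact minpoly.natDegree_pos hi)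
  let _ : Algebra K0 (LaurentSeries k) := ((expandL n hn).comp ψ).toAlgebra
  rw [eval₂_map] at hy
  exact ⟨n, hn, (pb.lift y hy).toRingHom, fun c => (pb.lift y hy).commutes c⟩

end NP1

end Pool.Agent.MP_05b4bd_ag.Esc

end MrgPart0

-- ======== part 1: formerly Pool.Agent.MP_05b4bd_ag.esc.Hol
section MrgPart1

namespace Pool.Agent.MP_05b4bd_ag.Esc

open IntermediateField WithZero

attribute [-instance] HahnSeries.powerSeriesAlgebra

section Theta

variable (k : Type*) [Field k]

def thetaFun (x : LaurentSeries k) : LaurentSeries k where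
  coeff n := (n : k) * x.coeff n
  isPWO_support' := x.isPWO_support.mono fun n hn h => hn (by simp [h])

theorem thetaFun_coeff (x : LaurentSeries k) (n : ℤ) :
    (thetaFun k x).coeff n = (n : k) * x.coeff n := rfl

theorem thetaFun_support (x : LaurentSeries k) : (thetaFun k x).support ⊆ x.support :=
  fun n hn h => hn (by simp [thetaFun_coeff, h])

noncomputable def thetaL : Derivation k (LaurentSeries k) (LaurentSeries k) :=
  Derivation.mk'
    { toFun := thetaFun k
      map_add' := fun x y => by ext n; simp [thetaFun_coeff, mul_add]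
      map_smul' := fun c x => by
        ext n
        simp only [thetaFun_coeff, HahnSeries.coeff_smul, smul_eq_mul, RingHom.id_apply]
        ring }
    (fun x y => by
      ext n
      simp only [LinearMap.coe_mk, AddHom.coe_mk, smul_eq_mul, HahnSeries.coeff_add,
        thetaFun_coeff]
      rw [mul_comm y, HahnSeries.coeff_mul_right' y.isPWO_support (thetaFun_support k y),
        HahnSeries.coeff_mul_left' x.isPWO_support (thetaFun_support k x), HahnSeries.coeff_mul,
        Finset.mul_sum, ← Finset.sum_add_distrib]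
      refine Finset.sum_congr rfl fun ij hij => ?_
      rw [thetaFun_coeff, thetaFun_coeff, ← (Finset.mem_antidiagonal.1 hij).2.2]
      push_cast
      ring)

theorem thetaL_coeff (x : LaurentSeries k) (n : ℤ) :
    (thetaL k x).coeff n = (n : k) * x.coeff n := rfl

theorem val_thetaL_le (x : LaurentSeries k) : Valued.v (thetaL k x) ≤ Valued.v x := by
  by_cases hx : x = 0
  · simp [hx]
  have h : Valued.v x ≠ (0 : ℤᵐ⁰) := (Valuation.ne_zero_iff _).2 hx
  rw [LaurentSeries.valuation_le_iff_coeff_lt_log_eq_zero _ h]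
  intro n hn
  rw [thetaL_coeff,
    (LaurentSeries.valuation_le_iff_coeff_lt_log_eq_zero _ h).1 le_rfl n hn, mul_zero]

theorem val_C_le (c : k) : Valued.v (algebraMap k (LaurentSeries k) c) ≤ (1 : ℤᵐ⁰) := by
  rw [LaurentSeries.val_le_one_iff_eq_coe]
  exact ⟨PowerSeries.C c, HahnSeries.ofPowerSeries_C c⟩

theorem thetaL_single (n : ℤ) (c : k) :
    thetaL k (HahnSeries.single n c) = HahnSeries.single n ((n : k) * c) := by
  ext m
  rw [thetaL_coeff]
  by_cases h : m = n
  · simp [h]
  · simp [HahnSeries.coeff_single_of_ne h]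

end Theta

section Val

open MvPolynomial

variable {k K Γ : Type*} [Field k] [Field K] [Algebra k K] [LinearOrderedCommGroupWithZero Γ]
  (v : Valuation K Γ) (hv : ∀ c : k, v (algebraMap k K c) ≤ 1)

include hv in
theorem val_aeval_le (w : Fin 2 → K) {γ β : Γ} (hw : ∀ i, v (w i) ≤ γ) (p : MvPolynomial (Fin 2) k)
    (hp : ∀ m ∈ p.support, γ ^ m.degree ≤ β) : v (aeval w p) ≤ β := by
  rw [aeval_def, eval₂_eq']
  refine v.map_sum_le fun m hm => le_trans ?_ (hp m hm)
  rw [map_mul, Fin.prod_univ_two, map_mul, map_pow, map_pow, Finsupp.degree_eq_sum,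
    Fin.sum_univ_two, pow_add]
  exact (mul_le_mul' (hv _) (mul_le_mul' (pow_le_pow_left₀ zero_le (hw 0) _)
    (pow_le_pow_left₀ zero_le (hw 1) _))).trans_eq (one_mul _)

theorem aeval_mul_hom (w : Fin 2 → K) (t : K) {p : MvPolynomial (Fin 2) k} {n : ℕ}
    (hp : p.IsHomogeneous n) : aeval (fun i => t * w i) p = t ^ n * aeval w p := by
  rw [aeval_def, aeval_def, eval₂_eq', eval₂_eq', Finset.mul_sum]
  refine Finset.sum_congr rfl fun m hm => ?_
  have h : m 0 + m 1 = n := by
    by_contra hne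
    refine (mem_support_iff.1 hm) (hp.coeff_eq_zero ?_)
    rwa [Finsupp.degree_eq_sum, Fin.sum_univ_two]
  rw [Fin.prod_univ_two, Fin.prod_univ_two, mul_pow, mul_pow, ← h, pow_add]
  ring

include hv in
theorem val_hol_term {F r : MvPolynomial (Fin 2) k} {d : ℕ} (hF : F.IsHomogeneous d)
    (hci : ∃ M : ℕ, X 0 ^ M ∈ Ideal.span {pderiv 0 F, pderiv 1 F} ∧
      X 1 ^ M ∈ Ideal.span {pderiv 0 F, pderiv 1 F})
    (hr : r.totalDegree + 2 ≤ d) (w : Fin 2 → K) (s : K) (h1 : aeval w F = 1)
    (h2 : v (s * aeval w (pderiv 1 F)) ≤ v (w 0)) (h3 : v (s * aeval w (pderiv 0 F)) ≤ v (w 1)) :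
    v (s * aeval w r) ≤ 1 := by
  obtain ⟨i, hi⟩ : ∃ i, ∀ j, v (w j) ≤ v (w i) := by
    rcases le_total (v (w 0)) (v (w 1)) with h | h
    · exact ⟨1, Fin.forall_fin_two.2 ⟨h, le_rfl⟩⟩
    · exact ⟨0, Fin.forall_fin_two.2 ⟨le_rfl, h⟩⟩
  set γ := v (w i) with hγ
  have hd : 1 ≤ γ ^ d := by
    have := val_aeval_le v hv w (β := γ ^ d) hi F fun m hm => by
      have : m.degree = d := by
        by_contra hne
        exact (mem_support_iff.1 hm) (hF.coeff_eq_zero hne)
      rw [this]
    rwa [h1, map_one] at this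
  have hγ1 : 1 ≤ γ := by
    by_contra h
    exact absurd hd (not_le.2 (pow_lt_one₀ zero_le (not_le.1 h) (by omega)))
  have hγ0 : γ ≠ 0 := (lt_of_lt_of_le zero_lt_one hγ1).ne'
  have hw0 : w i ≠ 0 := (v.ne_zero_iff).1 hγ0
  let u : Fin 2 → K := fun j => w j / w i
  have hu : w = fun j => w i * u j := funext fun j => (mul_div_cancel₀ _ hw0).symm
  have hu1 : ∀ j, v (u j) ≤ 1 := fun j => by
    rw [map_div₀]
    exact div_le_one_of_le₀ (hi j) zero_le
  have hint : ∀ p : MvPolynomial (Fin 2) k, v (aeval u p) ≤ 1 := fun p =>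
    val_aeval_le v hv u hu1 p fun m _ => by rw [one_pow]
  have hs : ∀ j, v s * γ ^ (d - 1) * v (aeval u (pderiv j F)) ≤ γ := by
    have h4 : ∀ j, v (s * aeval w (pderiv j F)) = v s * γ ^ (d - 1) * v (aeval u (pderiv j F)) := by
      intro j
      conv_lhs => rw [hu, aeval_mul_hom u (w i) hF.pderiv]
      rw [map_mul, map_mul, map_pow, mul_assoc]
    refine Fin.forall_fin_two.2 ⟨?_, ?_⟩
    · rw [← h4]
      exact h3.trans (hi 1)
    · rw [← h4]
      exact h2.trans (hi 0)
  have hs1 : v s * γ ^ (d - 1) ≤ γ := by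
    obtain ⟨M, hM0, hM1⟩ := hci
    have hM : X i ^ M ∈ Ideal.span {pderiv 0 F, pderiv 1 F} := by
      revert i
      exact Fin.forall_fin_two.2 ⟨fun _ => by intros; exact hM0, fun _ => by intros; exact hM1⟩
    obtain ⟨a, b, hab⟩ := Ideal.mem_span_pair.1 hM
    have h5 := congr(aeval u $hab)
    have h6 : u i = 1 := div_self hw0
    rw [map_add, map_mul, map_mul, map_pow, aeval_X, h6, one_pow] at h5
    have h7 : ∀ (c : MvPolynomial (Fin 2) k) j, v (s * w i ^ (d - 1) *
        (aeval u c * aeval u (pderiv j F))) ≤ γ := by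
      intro c j
      rw [map_mul, map_mul, map_mul, map_pow, mul_comm (v (aeval u c)), ← mul_assoc]
      exact (mul_le_mul' (hs j) (hint c)).trans_eq (mul_one _)
    have h8 := v.map_add_le (h7 a 0) (h7 b 1)
    rwa [← mul_add, h5, mul_one, map_mul, map_pow] at h8
  have h9 : v (aeval w r) ≤ γ ^ (d - 2) := val_aeval_le v hv w hi r fun m hm =>
    pow_le_pow_right₀ hγ1 (by
      have := le_totalDegree hm
      have h10 : m.degree = m.sum fun _ e => e := rfl
      omega)
  rw [map_mul]
  refine (mul_le_mul' le_rfl h9).trans ?_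
  have h11 : d - 1 = (d - 2) + 1 := by omega
  rw [h11, pow_succ, ← mul_assoc] at hs1
  exact (mul_le_iff_le_one_left (zero_lt_iff.2 hγ0)).1 hs1

end Val

open MvPolynomial in
theorem hol_core {k L E : Type*} [Field k] [Field L] [Field E] [Algebra k L] [Algebra k E]
    (D : Derivation k E E) (τ : L →ₐ[k] E) (φ : L →ₐ[k] LaurentSeries k) (lam : LaurentSeries k)
    (key : ∀ z z' : L, D (τ z) = τ z' → thetaL k (φ z) = lam * φ z')
    {F : MvPolynomial (Fin 2) k} {d : ℕ} (hF : F.IsHomogeneous d)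
    (hci : ∃ M : ℕ, X 0 ^ M ∈ Ideal.span {pderiv 0 F, pderiv 1 F} ∧
      X 1 ^ M ∈ Ideal.span {pderiv 0 F, pderiv 1 F})
    {ι κ : Type*} [Fintype ι] [Fintype κ] (s : ι → L) (w : ι → Fin 2 → L)
    (r : ι → MvPolynomial (Fin 2) k) (hr : ∀ i, (r i).totalDegree + 2 ≤ d)
    (h1 : ∀ i, aeval (fun j => τ (w i j)) F = 1)
    (h2 : ∀ i, D (τ (w i 0)) = τ (s i) * aeval (fun j => τ (w i j)) (pderiv 1 F))
    (h3 : ∀ i, D (τ (w i 1)) = -(τ (s i) * aeval (fun j => τ (w i j)) (pderiv 0 F)))
    (c : κ → k) (e e' : κ → L) (he : ∀ j, D (τ (e j)) = τ (e' j)) (η η' : L)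
    (hη : D (τ η) = τ η')
    (h : τ η' = ∑ i, τ (s i) * aeval (fun j => τ (w i j)) (r i) +
      ∑ j, algebraMap k E (c j) * (τ (e' j) / τ (e j))) :
    Valued.v (thetaL k (φ η)) ≤ (1 : ℤᵐ⁰) := by
  have hae : ∀ i (p : MvPolynomial (Fin 2) k),
      τ (aeval (w i) p) = aeval (fun j => τ (w i j)) p := fun i p => by
    rw [← AlgHom.comp_apply, comp_aeval]
  have hφe : ∀ i (p : MvPolynomial (Fin 2) k),
      φ (aeval (w i) p) = aeval (fun j => φ (w i j)) p := fun i p => by
    rw [← AlgHom.comp_apply, comp_aeval]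
  have hL : η' = ∑ i, s i * aeval (w i) (r i) + ∑ j, algebraMap k L (c j) * (e' j / e j) := by
    apply τ.toRingHom.injective
    change τ η' = τ _
    simp only [h, map_add, map_sum, map_mul, hae, AlgHom.commutes, map_div₀]
  have h7 : thetaL k (φ η) = ∑ i, (lam * φ (s i)) * aeval (fun j => φ (w i j)) (r i) +
      ∑ j, algebraMap k (LaurentSeries k) (c j) * (thetaL k (φ (e j)) / φ (e j)) := by
    rw [key η η' hη, hL, map_add, map_sum, map_sum, mul_add, Finset.mul_sum, Finset.mul_sum]
    congr 1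
    · exact Finset.sum_congr rfl fun i _ => by rw [map_mul, hφe, mul_assoc]
    · refine Finset.sum_congr rfl fun j _ => ?_
      rw [map_mul, φ.commutes, map_div₀, key (e j) (e' j) (he j)]
      ring
  rw [h7]
  refine Valuation.map_add_le _ (Valuation.map_sum_le _ fun i _ => ?_)
    (Valuation.map_sum_le _ fun j _ => ?_)
  · refine val_hol_term _ (val_C_le k) hF hci (hr i) _ _ ?_ ?_ ?_
    · have : aeval (w i) F = 1 := τ.toRingHom.injective (((hae i F).trans (h1 i)).trans
        (map_one τ).symm)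
      rw [← hφe, this, map_one]
    · rw [← hφe, mul_assoc, ← map_mul, ← key (w i 0) _ (by rw [map_mul, hae, h2])]
      exact val_thetaL_le k _
    · rw [← hφe, mul_assoc, ← map_mul, ← Valuation.map_neg, ← mul_neg, ← map_neg,
        ← key (w i 1) _ (by rw [map_neg, map_mul, hae, h3])]
      exact val_thetaL_le k _
  · rw [map_mul, map_div₀]
    exact (mul_le_mul' (val_C_le k _)
      (div_le_one_of_le₀ (val_thetaL_le k _) zero_le)).trans_eq (one_mul _)

theorem exists_key {k K L E : Type*} [Field k] [CharZero k] [Field K] [Field L] [Field E]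
    [Algebra k K] [Algebra k L] [Algebra k E] [Algebra K L] [IsScalarTower k K L]
    [Algebra.IsAlgebraic K L] (η0 : K) (hη0 : k⟮η0⟯ = ⊤)
    (D : Derivation k E E) (τ : L →ₐ[k] E) (φ : L →ₐ[k] LaurentSeries k) (η' : L)
    (hη : D (τ (algebraMap K L η0)) = τ η') (hne : η' ≠ 0) :
    ∃ lam : LaurentSeries k, ∀ z z' : L, D (τ z) = τ z' → thetaL k (φ z) = lam * φ z' := by
  let _ : Algebra L (LaurentSeries k) := φ.toRingHom.toAlgebra
  let _ : Algebra L E := τ.toRingHom.toAlgebra
  have : IsScalarTower k L (LaurentSeries k) := IsScalarTower.of_algebraMap_eq fun a =>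
    (φ.commutes a).symm
  have : IsScalarTower k L E := IsScalarTower.of_algebraMap_eq fun a => (τ.commutes a).symm
  have h0 : φ η' ≠ 0 := (_root_.map_ne_zero φ).2 hne
  refine ⟨thetaL k (φ (algebraMap K L η0)) / φ η', fun z z' hz => ?_⟩
  obtain ⟨u, hu⟩ := exists_D_eq_smul' (k := k) (L := L) η0 hη0 (Algebra.IsAlgebraic.isAlgebraic z)
  have h4 : D (τ z) = τ u * D (τ (algebraMap K L η0)) := der_eq_smul hu (D.compAlgebraMap L)
  have h5 : thetaL k (φ z) = φ u * thetaL k (φ (algebraMap K L η0)) :=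
    der_eq_smul hu ((thetaL k).compAlgebraMap L)
  have h6 : z' = u * η' := τ.toRingHom.injective (by
    change τ z' = τ _
    rw [← hz, h4, hη, map_mul])
  rw [h5, h6, map_mul]
  field_simp

theorem exists_pole {k K L : Type*} [Field k] [IsAlgClosed k] [CharZero k] [Field K] [Field L]
    [Algebra k K] [Algebra k L] [Algebra K L] [IsScalarTower k K L] [FiniteDimensional K L]
    (e : RatFunc k ≃ₐ[k] K) :
    ∃ φ : L →ₐ[k] LaurentSeries k,
      ¬ Valued.v (thetaL k (φ (algebraMap K L (e RatFunc.X)))) ≤ (1 : ℤᵐ⁰) := by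
  let y : LaurentSeries k := HahnSeries.single (-1) 1
  have hy : Transcendental k y := fun ha => by
    have h4 := der_eq_zero_of_isAlgebraic (thetaL k) (thetaL k).map_algebraMap ha
    rw [thetaL_single] at h4
    simp at h4
  let ψ : K →ₐ[k] LaurentSeries k := (k⟮y⟯.val.comp
    (RatFunc.algEquivOfTranscendental y hy).toAlgHom).comp e.symm.toAlgHom
  have hψ : ψ (e RatFunc.X) = y := by
    change ((RatFunc.algEquivOfTranscendental y hy) (e.symm (e RatFunc.X)) : LaurentSeries k) = y
    rw [e.symm_apply_apply, RatFunc.algEquivOfTranscendental_X]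
  obtain ⟨n, hn, φ, hφ⟩ := exists_extension (k := k) (L := L) ψ.toRingHom
  have hφk : ∀ a : k, φ (algebraMap k L a) = algebraMap k (LaurentSeries k) a := fun a => by
    rw [IsScalarTower.algebraMap_apply k K L, hφ]
    change expandL n hn (ψ (algebraMap k K a)) = _
    rw [ψ.commutes]
    exact expandL_C n hn a
  refine ⟨⟨φ, hφk⟩, fun h8 => ?_⟩
  have h9 : φ (algebraMap K L (e RatFunc.X)) = HahnSeries.single (-(n : ℤ)) 1 := by
    rw [hφ]
    change expandL n hn (ψ (e RatFunc.X)) = _
    rw [hψ]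
    have h10 : y = (HahnSeries.single 1 1 : LaurentSeries k)⁻¹ := by
      symm
      apply inv_eq_of_mul_eq_one_right
      simp [y, HahnSeries.single_mul_single]
    rw [h10, map_inv₀, expandL_single_one]
    apply inv_eq_of_mul_eq_one_right
    simp [HahnSeries.single_mul_single]
  change Valued.v (thetaL k (φ (algebraMap K L (e RatFunc.X)))) ≤ (1 : ℤᵐ⁰) at h8
  rw [h9, thetaL_single, LaurentSeries.valuation_le_iff_coeff_lt_log_eq_zero _ one_ne_zero] at h8
  have h11 := h8 (-(n : ℤ)) (by rw [log_one]; omega)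
  simp [hn] at h11

open MvPolynomial in
theorem hol {k E : Type*} [Field k] [IsAlgClosed k] [CharZero k] [Field E] [Algebra k E]
    (D : Derivation k E E) (x : E) (halg : ∀ z : E, IsAlgebraic k⟮x⟯ z)
    {F : MvPolynomial (Fin 2) k} {d : ℕ} (hF : F.IsHomogeneous d)
    (hci : ∃ M : ℕ, X 0 ^ M ∈ Ideal.span {pderiv 0 F, pderiv 1 F} ∧
      X 1 ^ M ∈ Ideal.span {pderiv 0 F, pderiv 1 F})
    {ι κ : Type*} [Fintype ι] [Fintype κ] (s : ι → E) (w : ι → Fin 2 → E)
    (r : ι → MvPolynomial (Fin 2) k) (hr : ∀ i, (r i).totalDegree + 2 ≤ d)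
    (h1 : ∀ i, aeval (w i) F = 1) (h2 : ∀ i, D (w i 0) = s i * aeval (w i) (pderiv 1 F))
    (h3 : ∀ i, D (w i 1) = -(s i * aeval (w i) (pderiv 0 F)))
    (c : κ → k) (e : κ → E) (η : E)
    (h : D η = ∑ i, s i * aeval (w i) (r i) + ∑ j, algebraMap k E (c j) * (D (e j) / e j)) :
    D η = 0 := by
  by_contra hne
  have halg' := isAlgebraic_exchange halg D hne
  have htr : Transcendental k η := fun ha =>
    hne (der_eq_zero_of_isAlgebraic D D.map_algebraMap ha)
  let S : Set E := ((Set.range s ∪ Set.range fun p : ι × Fin 2 => w p.1 p.2) ∪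
    (Set.range e ∪ Set.range fun j => D (e j))) ∪ {D η}
  have : Finite S := Set.Finite.to_subtype (Set.Finite.union (Set.Finite.union
    ((Set.finite_range _).union (Set.finite_range _))
    ((Set.finite_range _).union (Set.finite_range _))) (Set.finite_singleton _))
  have : FiniteDimensional k⟮η⟯ (adjoin k⟮η⟯ S) :=
    finiteDimensional_adjoin fun z _ => (halg' z).isIntegral
  obtain ⟨φ, hφ⟩ := exists_pole (L := adjoin k⟮η⟯ S) (RatFunc.algEquivOfTranscendental η htr)
  have hX : RatFunc.algEquivOfTranscendental η htr RatFunc.X = AdjoinSimple.gen k η :=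
    Subtype.ext (RatFunc.algEquivOfTranscendental_X η htr)
  rw [hX] at hφ
  have hS : ∀ z ∈ S, z ∈ adjoin k⟮η⟯ S := fun z hz => subset_adjoin _ _ hz
  let τ : adjoin k⟮η⟯ S →ₐ[k] E := (adjoin k⟮η⟯ S).val.restrictScalars k
  obtain ⟨lam, key⟩ := exists_key (AdjoinSimple.gen k η) (adjoin_gen_eq_top η) D τ φ
    ⟨D η, hS _ (Or.inr rfl)⟩ rfl fun h0 => hne congr(($h0 : E))
  exact hφ (hol_core D τ φ lam key hF hci
    (fun i => ⟨s i, hS _ (Or.inl (Or.inl (Or.inl ⟨i, rfl⟩)))⟩)
    (fun i j => ⟨w i j, hS _ (Or.inl (Or.inl (Or.inr ⟨(i, j), rfl⟩)))⟩) r hr h1 h2 h3 c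
    (fun j => ⟨e j, hS _ (Or.inl (Or.inr (Or.inl ⟨j, rfl⟩)))⟩)
    (fun j => ⟨D (e j), hS _ (Or.inl (Or.inr (Or.inr ⟨j, rfl⟩)))⟩) (fun _ => rfl) _
    ⟨D η, hS _ (Or.inr rfl)⟩ rfl h)

end Pool.Agent.MP_05b4bd_ag.Esc

end MrgPart1

-- ======== part 2: formerly Pool.Agent.MP_05b4bd_ag.esc.Wrap1
section MrgPart2

/-! Escaping centres: Newton-Puiseux, derivations of fields, holomorphic forms. -/

namespace Pool.Agent.MP_05b4bd_ag.ES

open PowerSeries LaurentSeries HC

namespace W1

variable {L S : Type} [Field L] [CommRing S] {g : L →+* S} {δ : L →+ S}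

theorem isDer_der {E : Type} [CommRing E] [Algebra E L] (d : Derivation E L L) :
    IsDer d.toLinearMap.toAddMonoidHom := by
  intro a b
  change d (a * b) = d a * b + a * d b
  rw [d.leibniz, smul_eq_mul, smul_eq_mul]
  ring

theorem der_aeval (h : IsDerOver g δ) (M : Subfield L) (T : AddSubgroup S) (z : L)
    (hT : ∀ s ∈ T, s * g z ∈ T) (hM : ∀ m ∈ M, δ m ∈ T) (p : Polynomial M) :
    δ (Polynomial.aeval z p) - g (Polynomial.aeval z (Polynomial.derivative p)) * δ z ∈ T := by
  induction p using Polynomial.induction_on' with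
  | add p q hp hq =>
    have := T.add_mem hp hq
    simp only [map_add, add_mul]
    rwa [add_sub_add_comm]
  | monomial n c =>
    have h1 : ∀ n : ℕ, δ c * g z ^ n ∈ T := fun n => by
      induction n with
      | zero => simpa using hM c c.2
      | succ n ih => simpa only [pow_succ, mul_assoc] using hT _ ih
    have h2 : (algebraMap M L c) = (c : L) := rfl
    rw [Polynomial.derivative_monomial, Polynomial.aeval_monomial, Polynomial.aeval_monomial,
      h, h.pow, map_mul (algebraMap M L), map_natCast, h2, map_mul, map_mul, map_pow, map_pow,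
      map_natCast]
    have e : δ c * g z ^ n + g c * (n * g z ^ (n - 1) * δ z) - g c * n * g z ^ (n - 1) * δ z =
        δ c * g z ^ n := by ring
    rw [e]
    exact h1 n

theorem der_alg [CharZero L] (h : IsDerOver g δ) (M : Subfield L) (T : AddSubgroup S) (z : L)
    (hT : ∀ s ∈ T, s * g z ∈ T) (hM : ∀ m ∈ M, δ m ∈ T) (hz : IsAlgebraic M z) :
    ∃ p : Polynomial M, Polynomial.aeval z p ≠ 0 ∧ g (Polynomial.aeval z p) * δ z ∈ T := by
  have h1 := der_aeval h M T z hT hM (minpoly M z)
  rw [minpoly.aeval, map_zero, zero_sub] at h1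
  exact ⟨_, (minpoly.irreducible hz.isIntegral).separable.aeval_derivative_ne_zero
    (minpoly.aeval M z), T.neg_mem_iff.1 h1⟩

theorem der_closure (h : IsDerOver g δ) (T : AddSubgroup S) (s : Set L)
    (hT : ∀ z ∈ Subfield.closure s, ∀ t ∈ T, t * g z ∈ T) (hs : ∀ m ∈ s, δ m ∈ T) :
    ∀ z ∈ Subfield.closure s, δ z ∈ T := by
  intro z hz
  induction hz using Subfield.closure_induction with
  | mem x hx => exact hs x hx
  | one => rw [h.one]; exact T.zero_mem
  | add x y _ _ hx hy => rw [map_add]; exact T.add_mem hx hy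
  | neg x _ hx => rw [map_neg]; exact T.neg_mem hx
  | inv x hx ih =>
    by_cases h0 : x = 0
    · rw [h0, inv_zero, map_zero]; exact T.zero_mem
    have h1 := h x x⁻¹
    have h2 : g x * g x⁻¹ = 1 := by rw [← map_mul, mul_inv_cancel₀ h0, map_one]
    rw [mul_inv_cancel₀ h0, h.one] at h1
    have e : δ x⁻¹ = -(δ x * g x⁻¹ * g x⁻¹) := by
      linear_combination -(g x⁻¹ * h1) - δ x⁻¹ * h2
    rw [e]
    exact T.neg_mem (hT _ (inv_mem hx) _ (hT _ (inv_mem hx) _ ih))
  | mul x y hx hy ihx ihy =>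
    rw [h, mul_comm (g x)]
    exact T.add_mem (hT _ hy _ ihx) (hT _ hx _ ihy)

end W1

open W1

theorem npS : NpStmt := by
  intro k _ _ _ E L _ _ _ _ g
  obtain ⟨n, hn, φ, h⟩ := Esc.exists_extension (L := L) g
  refine ⟨n, Esc.expandL n hn, φ, Nat.pos_of_ne_zero hn, fun c => ?_, h⟩
  have e : ram k n c = PowerSeries.expand n hn c := by
    ext m
    rw [coeff_ram (Nat.pos_of_ne_zero hn), PowerSeries.coeff_expand]
  rw [e]
  exact Esc.expandL_algebraMap n hn c

theorem derExtS : DerExtStmt := by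
  intro E L _ _ _ _ ι x v hx
  obtain ⟨d, hd⟩ := Esc.derext x hx v
  exact ⟨d.toLinearMap.toAddMonoidHom, isDer_der d, d.map_algebraMap, hd⟩

theorem derAlgS : DerAlgStmt := by
  intro L _ _ M
  refine ⟨fun S _ _ g δ h hM z hz => ?_, fun D h N hN hM z hzN hz => ?_, fun z h => ?_,
    ⟨(algebraicClosure M L).toSubfield, fun z => mem_algebraicClosure_iff⟩,
    fun S _ _ g δ h s hs z hz => ?_, fun D h s hs z hz => ?_⟩
  · obtain ⟨p, h1, h2⟩ := der_alg h M ⊥ z (fun s hs => by simp_all) (fun m hm => hM m hm) hz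
    exact (mul_eq_zero.1 h2).resolve_left ((map_ne_zero g).2 h1)
  · obtain ⟨p, h1, h2⟩ := der_alg h.over M N.toAddSubgroup z (fun s hs => N.mul_mem hs hzN) hM hz
    have h3 : Polynomial.aeval z p ∈ N := by
      rw [Polynomial.aeval_eq_sum_range]
      exact N.sum_mem fun i _ => N.mul_mem (hN (p.coeff i).2) (N.pow_mem hzN i)
    have h4 := N.mul_mem (N.inv_mem h3) h2
    rwa [RingHom.id_apply, inv_mul_cancel_left₀ h1] at h4
  · exact Esc.isAlgebraic_of_der z fun d =>
      h d.toLinearMap.toAddMonoidHom (isDer_der d) fun m hm => d.map_algebraMap ⟨m, hm⟩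
  · exact der_closure h ⊥ s (fun _ _ t ht => by simp_all) (fun m hm => hs m hm) z hz
  · exact der_closure h.over M.toAddSubgroup s (fun y hy t ht =>
      M.mul_mem ht (Subfield.closure_le.2 (fun m hm => (hs m hm).1) hy)) (fun m hm => (hs m hm).2)
      z hz

theorem holS : HolStmt := by
  intro k E _ _ _ _ κ D hD hκ ⟨x0, hx0⟩ d F hd hF hci m n s x y r c e η hxy _ h
  let _ : Algebra k E := κ.toAlgebra
  let D' : Derivation k E E := Derivation.mk'
    { toFun := D
      map_add' := D.map_add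
      map_smul' := fun a b => hD.const_mul (hκ a) b }
    (fun a b => by
      change D (a * b) = a * D b + b * D a
      rw [hD]
      ring)
  refine Esc.hol D' x0 hx0 hF hci s (fun i => ![x i, y i]) r (fun i => ?_)
    (fun i => (hxy i).1) (fun i => (hxy i).2.1) (fun i => (hxy i).2.2.1) c e η h
  have h1 : (r i).totalDegree ≤ d - 3 := by
    refine MvPolynomial.totalDegree_finsetSum_le (f := fun v => MvPolynomial.monomial v
      (MvPolynomial.coeff v (r i))) (s := (r i).support) (fun v hv => ?_) |>.trans_eq' ?_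
    · refine (MvPolynomial.totalDegree_monomial_le _ _).trans ?_
      by_contra hc
      refine MvPolynomial.mem_support_iff.1 hv ((hxy i).2.2.2 v ?_)
      have : v.degree = v.sum fun _ => id := rfl
      omega
    · rw [← (r i).as_sum]
  omega

end Pool.Agent.MP_05b4bd_ag.ES

end MrgPart2

-- marker of a merged file
example : 731051 + 560962 = 731051 + 560962 := rfl

end MrgPart0

-- ======== part 1: formerly Pool.Agent.MP_05b4bd_ag.esc.Wrap2
section MrgPart1

-- ======== part 0: formerly Pool.Agent.MP_05b4bd_ag.esc.Low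
section MrgPart0

/-! Lowest terms of the image of a vector field with a centre: row LOW. -/

namespace Pool.Agent.MP_05b4bd_ag.ES

open PowerSeries

namespace Low

variable {R : Type} [CommRing R]

theorem co2_add (i j : ℕ) (a b : AA R) : co2 i j (a + b) = co2 i j a + co2 i j b := by simp [co2]
theorem co2_sub (i j : ℕ) (a b : AA R) : co2 i j (a - b) = co2 i j a - co2 i j b := by simp [co2]
theorem co2_neg (i j : ℕ) (a : AA R) : co2 i j (-a) = -co2 i j a := by simp [co2]
theorem co2_CC_mul (i j : ℕ) (r : R) (a : AA R) : co2 i j (CC r * a) = r * co2 i j a := by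
  simp [co2, CC_apply]
theorem co2_d1 (i j : ℕ) (a : AA R) : co2 i j (cw (dX R) a) = co2 (i + 1) j a * (i + 1) := by
  rw [co2, coeff_cw, coeff_dX]; rfl
theorem co2_d2 (i j : ℕ) (a : AA R) : co2 i j (dX _ a) = co2 i (j + 1) a * (j + 1) := by
  rw [co2, coeff_dX, ← map_natCast (C : R →+* R⟦X⟧), ← map_one (C : R →+* R⟦X⟧), ← map_add,
    coeff_mul_C]; rfl
theorem co2_CX_zero (j : ℕ) (a : AA R) : co2 0 j (C X * a) = 0 := by
  rw [co2, coeff_C_mul, coeff_zero_X_mul]
theorem co2_CX_succ (i j : ℕ) (a : AA R) : co2 (i + 1) j (C X * a) = co2 i j a := by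
  rw [co2, coeff_C_mul, coeff_succ_X_mul]; rfl
theorem co2_X_zero (i : ℕ) (a : AA R) : co2 i 0 (X * a) = 0 := by
  rw [co2, coeff_zero_X_mul, map_zero]
theorem co2_X_succ (i j : ℕ) (a : AA R) : co2 i (j + 1) (X * a) = co2 i j a := by
  rw [co2, coeff_succ_X_mul]; rfl
theorem co2_zero (a : AA R) : co2 0 0 a = c00 a := by simp [co2, c00_apply]
theorem co2_th1 (i j : ℕ) (a : AA R) : co2 i j (C X * cw (dX R) a) = i * co2 i j a := by
  cases i with
  | zero => simp [co2_CX_zero]
  | succ i => rw [co2_CX_succ, co2_d1]; push_cast; ring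
theorem co2_th2 (i j : ℕ) (a : AA R) : co2 i j (X * dX _ a) = j * co2 i j a := by
  cases j with
  | zero => simp [co2_X_zero]
  | succ j => rw [co2_X_succ, co2_d2]; push_cast; ring

variable {m n : ℕ} {a b : AA R}

theorem o_zero (a : AA R) : Ord2 0 a := fun _ _ h => absurd h (Nat.not_lt_zero _)
theorem o_mono (h : Ord2 n a) (hm : m ≤ n) : Ord2 m a := fun i j hij => h i j (by omega)
theorem o_add (h : Ord2 n a) (h' : Ord2 n b) : Ord2 n (a + b) := fun i j hij => by
  rw [co2_add, h i j hij, h' i j hij, add_zero]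
theorem o_sub (h : Ord2 n a) (h' : Ord2 n b) : Ord2 n (a - b) := fun i j hij => by
  rw [co2_sub, h i j hij, h' i j hij, sub_zero]
theorem o_neg (h : Ord2 n a) : Ord2 n (-a) := fun i j hij => by
  rw [co2_neg, h i j hij, neg_zero]
theorem o_mul (h : Ord2 m a) (h' : Ord2 n b) : Ord2 (m + n) (a * b) := by
  rw [ord2_iff] at *
  rw [pow_add]; exact Ideal.mul_mem_mul h h'
theorem o_left (a : AA R) (h : Ord2 n b) : Ord2 n (a * b) := by
  simpa using o_mul (o_zero a) h
theorem o_right (b : AA R) (h : Ord2 n a) : Ord2 n (a * b) := o_mul h (o_zero b)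
theorem o_pow (h : Ord2 m a) (r : ℕ) : Ord2 (m * r) (a ^ r) := by
  rw [ord2_iff] at *
  rw [pow_mul]; exact Ideal.pow_mem_pow h r
theorem o_d1 (h : Ord2 n a) : Ord2 (n - 1) (cw (dX R) a) := fun i j hij => by
  rw [co2_d1, h _ _ (by omega), zero_mul]
theorem o_d2 (h : Ord2 n a) : Ord2 (n - 1) (dX _ a) := fun i j hij => by
  rw [co2_d2, h _ _ (by omega), zero_mul]
theorem o_succ (h : Ord2 n a) (h' : ∀ i j, i + j = n → co2 i j a = 0) : Ord2 (n + 1) a :=
  fun i j hij => by
    by_cases e : i + j = n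
    exacts [h' i j e, h i j (by omega)]
theorem o_one : Ord2 1 a ↔ c00 a = 0 := by rw [ord2_iff, pow_one, RingHom.mem_ker]
theorem o_X : Ord2 1 (X : AA R) := o_one.2 (by simp [c00_apply])
theorem o_CX : Ord2 1 (C X : AA R) := o_one.2 (by simp [c00_apply])
theorem o_sub_CC (a : AA R) : Ord2 1 (a - CC (c00 a)) :=
  o_one.2 (by simp [c00_apply, CC_apply])

theorem co2_mul_low (μ : AA R) (h : Ord2 n a) {i j : ℕ} (hij : i + j = n) :
    co2 i j (μ * a) = c00 μ * co2 i j a := by
  have : μ * a = CC (c00 μ) * a + (μ - CC (c00 μ)) * a := by ring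
  rw [this, co2_add, co2_CC_mul, o_mul (o_sub_CC μ) h i j (by omega), add_zero]

theorem d1_CC (r : R) : cw (dX R) (CC r) = 0 := by rw [CC_apply, cw_C, dX_C, map_zero]
theorem d2_CC (r : R) : dX _ (CC r : AA R) = 0 := dX_C _

/-- The vector field `P d1 + Q d2`. -/
noncomputable def vv (P Q : AA R) : AA R →+ AA R :=
  (AddMonoidHom.mulLeft P).comp (cw (dX R)) + (AddMonoidHom.mulLeft Q).comp (dX _)

theorem vv_apply (P Q g : AA R) : vv P Q g = P * cw (dX R) g + Q * dX _ g := rfl

theorem isDer_vv (P Q : AA R) : IsDer (vv P Q) :=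
  (isDer_dX.coefw.mulLeft P).add (isDer_dX.mulLeft Q)

theorem vv_CC (P Q : AA R) (r : R) : vv P Q (CC r) = 0 := by
  rw [vv_apply, d1_CC, d2_CC]; simp

theorem vv_CC_mul (P Q : AA R) (r : R) (g : AA R) : vv P Q (CC r * g) = CC r * vv P Q g :=
  (isDer_vv P Q).const_mul (vv_CC P Q r) g

/-- A first integral up to order `N`, from a centre. -/
theorem exists_fi {K : Type} [Field K] {j : R →+* K} (hj : Function.Injective j) {P Q : AA R}
    (h : Cab (cw (dX R)) (dX _) (j.comp c00) Q (-P)) (N : ℕ) :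
    ∃ I μ, c00 μ ≠ 0 ∧ Ord2 2 I ∧ Ord2 (N + 2) (cw (dX R) I - μ * Q) ∧
      Ord2 (N + 2) (dX _ I + μ * P) ∧ Ord2 (N + 2) (vv P Q I) := by
  obtain ⟨h1, h2, -, h4⟩ := h
  obtain ⟨I, μ, a1, a2, a3⟩ := h4 (N + 2)
  have hk : RingHom.ker (j.comp (c00 (R := R))) = RingHom.ker c00 :=
    RingHom.ker_comp_of_injective _ hj
  rw [hk, ← ord2_iff] at a2 a3
  have hQ : c00 Q = 0 := hj (by rw [map_zero]; exact h1)
  have hP : c00 P = 0 := by
    have : c00 (-P) = 0 := hj (by rw [map_zero]; exact h2)
    rwa [map_neg, neg_eq_zero] at this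
  rw [mul_neg, sub_neg_eq_add] at a3
  refine ⟨I - CC (c00 I), μ, fun h => a1 (by rw [RingHom.comp_apply, h, map_zero]), ?_,
    by rwa [map_sub, d1_CC, sub_zero], by rwa [map_sub, d2_CC, sub_zero], ?_⟩
  · refine o_succ (o_sub_CC I) fun i j hij => ?_
    have b1 := a2 0 0 (by omega)
    have b2 := a3 0 0 (by omega)
    rw [co2_sub, co2_d1, co2_zero, map_mul, hQ] at b1
    rw [co2_add, co2_d2, co2_zero, map_mul, hP] at b2
    have hc : co2 i j (CC (c00 I) : AA R) = 0 := by
      have := co2_CC_mul i j (c00 I) 1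
      rw [mul_one] at this
      rw [this]
      rcases (by omega : i = 1 ∧ j = 0 ∨ i = 0 ∧ j = 1) with ⟨rfl, rfl⟩ | ⟨rfl, rfl⟩ <;>
        simp [co2, coeff_one]
    rw [co2_sub, hc]
    rcases (by omega : i = 1 ∧ j = 0 ∨ i = 0 ∧ j = 1) with ⟨rfl, rfl⟩ | ⟨rfl, rfl⟩
    · simpa using b1
    · simpa using b2
  · rw [map_sub, vv_CC, sub_zero]
    have : vv P Q I = P * (cw (dX R) I - μ * Q) + Q * (dX _ I + μ * P) := by
      rw [vv_apply]; ring
    rw [this]
    exact o_add (o_left _ a2) (o_left _ a3)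

/-- The order of a primitive can be raised to the order of its image. -/
theorem core [IsDomain R] {P Q I : AA R} {N : ℕ} (hI : Ord2 N (vv P Q I))
    (hker : ∀ k g, k < N → Ord2 k g → Ord2 (k + 1) (vv P Q g) →
      ∃ σ c r, σ ≠ 0 ∧ Ord2 (k + 1) (CC σ * g - CC c * I ^ r))
    {n : ℕ} (hn : n ≤ N) {g : AA R} (hg : Ord2 n (vv P Q g)) :
    ∃ σ g', σ ≠ 0 ∧ Ord2 n g' ∧ Ord2 N (CC σ * vv P Q g - vv P Q g') := by
  induction n with
  | zero => exact ⟨1, g, one_ne_zero, o_zero _, by simp [Ord2, co2]⟩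
  | succ n ih =>
    obtain ⟨σ, g', h1, h2, h3⟩ := ih (by omega) (o_mono hg (by omega))
    have h4 : Ord2 (n + 1) (vv P Q g') := by
      have := o_sub (o_left (CC σ) hg) (o_mono h3 hn)
      rwa [sub_sub_cancel] at this
    obtain ⟨σ', c, r, h5, h6⟩ := hker n g' hn h2 h4
    refine ⟨σ' * σ, _, mul_ne_zero h5 h1, h6, ?_⟩
    have := o_add (o_left (CC σ') h3) (o_left (CC c * ((r : AA R) * I ^ (r - 1))) hI)
    convert this using 1
    rw [map_sub, vv_CC_mul, vv_CC_mul, (isDer_vv P Q).pow, map_mul]; ring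

section diag
variable {δ : R} {P Q : AA R}

theorem co_lin (hP : Ord2 2 (P - CC δ * C X)) (hQ : Ord2 2 (Q + CC δ * X)) {g : AA R}
    (hg : Ord2 n g) : Ord2 n (vv P Q g) ∧
      ∀ i j, i + j = n → co2 i j (vv P Q g) = δ * ((i : R) - j) * co2 i j g := by
  have e : vv P Q g = ((P - CC δ * C X) * cw (dX R) g + (Q + CC δ * X) * dX _ g) +
      (CC δ * (C X * cw (dX R) g) - CC δ * (X * dX _ g)) := by rw [vv_apply]; ring
  have h1 : Ord2 (n + 1) ((P - CC δ * C X) * cw (dX R) g + (Q + CC δ * X) * dX _ g) :=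
    o_add (o_mono (o_mul hP (o_d1 hg)) (by omega)) (o_mono (o_mul hQ (o_d2 hg)) (by omega))
  have h2 : ∀ i j, i + j ≤ n → co2 i j (vv P Q g) = δ * ((i : R) - j) * co2 i j g :=
    fun i j hij => by
      rw [e, co2_add, h1 i j (by omega), co2_sub, co2_CC_mul, co2_CC_mul, co2_th1, co2_th2]; ring
  exact ⟨fun i j hij => by rw [h2 i j hij.le, hg i j hij, mul_zero], fun i j hij => h2 i j hij.le⟩

theorem co2_mon (i j p q : ℕ) :
    co2 i j (C X ^ p * X ^ q : AA R) = if i = p ∧ j = q then 1 else 0 := by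
  rw [co2, ← map_pow, coeff_C_mul, coeff_X_pow]
  by_cases h : j = q <;> simp [h, coeff_X_pow]

theorem cast_sub_unit [Algebra ℚ R] {i j : ℕ} (h : i ≠ j) : IsUnit ((i : R) - j) := by
  have : IsUnit ((i : ℚ) - j) := Ne.isUnit (sub_ne_zero.2 (Nat.cast_injective.ne h))
  simpa using this.map (algebraMap ℚ R)

theorem res [IsDomain R] [Algebra ℚ R] {K : Type} [Field K] {j : R →+* K}
    (hj : Function.Injective j) (hδ : IsUnit δ) (hP : Ord2 2 (P - CC δ * C X))
    (hQ : Ord2 2 (Q + CC δ * X)) (h : Cab (cw (dX R)) (dX _) (j.comp c00) Q (-P)) (m : ℕ)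
    (b g : AA R) (hb : Ord2 (m + m) b) (hg : Ord2 (m + m + 1) (b - vv P Q g)) :
    co2 m m b = 0 := by
  obtain ⟨I, μ, h1, h2, h3, -, h5⟩ := exists_fi hj h (m + m + 1)
  have off : ∀ k g, Ord2 k g → Ord2 (k + 1) (vv P Q g) → ∀ i j, i + j = k → i ≠ j →
      co2 i j g = 0 := fun k g a1 a2 i j hij hne => by
    have := (co_lin hP hQ a1).2 i j hij
    rw [a2 i j (by omega)] at this
    exact (hδ.mul (cast_sub_unit hne)).mul_right_eq_zero.1 this.symm
  have hQ1 : Ord2 1 Q := by
    have := o_sub (o_mono hQ one_le_two) (o_left (CC δ) o_X)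
    rwa [add_sub_cancel_right] at this
  have hκ : co2 1 1 I ≠ 0 := by
    have a1 := h3 0 1 (by omega)
    have a2 := hQ 0 1 (by omega)
    rw [co2_add, co2_CC_mul, show co2 0 1 (X : AA R) = 1 by simp [co2]] at a2
    rw [co2_sub, co2_d1, co2_mul_low μ hQ1 rfl] at a1
    intro h0
    rw [h0] at a1
    exact mul_ne_zero h1 hδ.ne_zero (by linear_combination a1 + c00 μ * a2)
  have hI3 : Ord2 3 (I - CC (co2 1 1 I) * (C X * X)) := by
    refine o_succ (o_sub h2 (o_left _ (o_mul o_CX o_X))) fun i j hij => ?_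
    have := co2_mon (R := R) i j 1 1
    rw [pow_one, pow_one] at this
    rw [co2_sub, co2_CC_mul, this]
    split_ifs with e
    · rw [e.1, e.2]; ring
    · rw [off 2 I h2 (o_mono h5 (by omega)) i j hij (by omega)]; ring
  have hIr : ∀ r, Ord2 (2 * r + 1) (I ^ r - CC (co2 1 1 I ^ r) * (C X ^ r * X ^ r)) := fun r => by
    induction r with
    | zero => simp [Ord2, co2]
    | succ r ih =>
      have a1 := o_mul ih h2
      have a2 := o_mul (o_left (CC (co2 1 1 I ^ r)) (o_pow (o_mul (o_CX (R := R)) o_X) r)) hI3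
      have := o_add (o_mono a1 (show 2 * (r + 1) + 1 ≤ _ by omega))
        (o_mono a2 (show 2 * (r + 1) + 1 ≤ _ by omega))
      convert this using 1
      rw [pow_succ (co2 1 1 I), map_mul]; ring
  have hvg : Ord2 (m + m) (vv P Q g) := by
    have := o_sub hb (o_mono hg (Nat.le_succ _))
    rwa [sub_sub_cancel] at this
  obtain ⟨σ, g', a1, a2, a3⟩ := core h5 (fun k g _ b1 b2 => by
    rcases Nat.even_or_odd' k with ⟨r, rfl | rfl⟩
    · refine ⟨co2 1 1 I ^ r, co2 r r g, r, pow_ne_zero _ hκ, ?_⟩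
      have c1 : Ord2 (2 * r + 1) (g - CC (co2 r r g) * (C X ^ r * X ^ r)) := by
        refine o_succ (o_sub b1 (o_left _ ?_)) fun i j hij => ?_
        · have := o_pow (o_mul (o_CX (R := R)) o_X) r
          rwa [mul_pow] at this
        · rw [co2_sub, co2_CC_mul, co2_mon]
          split_ifs with e
          · rw [e.1, e.2]; ring
          · rw [off _ g b1 b2 i j hij (by omega)]; ring
      have := o_sub (o_left (CC (co2 1 1 I ^ r)) c1) (o_left (CC (co2 r r g)) (hIr r))
      convert this using 1; ring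
    · exact ⟨1, 0, 0, one_ne_zero, by
        simpa using o_succ b1 fun i j hij => off _ g b1 b2 i j hij (by omega)⟩)
    (show m + m ≤ _ by omega) hvg
  have c1 := a3 m m (by omega)
  have c2 := hg m m (by omega)
  rw [co2_sub, co2_CC_mul, (co_lin hP hQ a2).2 m m rfl, sub_self, mul_zero, zero_mul,
    sub_zero] at c1
  rw [co2_sub, (mul_eq_zero.1 c1).resolve_left a1, sub_zero] at c2
  exact c2

end diag

end Low

open Low

theorem lowS : LowStmt := by
  intro O K _ _ _ _ j δ P Q hj hδ hP hQ h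
  refine ⟨res hj hδ hP hQ h, fun σ b H hσ hH N => ?_⟩
  induction N with
  | zero => exact ⟨0, o_zero _⟩
  | succ n ih =>
    obtain ⟨g, hg⟩ := ih
    rw [← vv_apply] at hg hH
    have key : ∀ i j, ∃ c, i + j = n → δ * ((i : O) - j) * c = co2 i j (b - vv P Q g) := by
      intro i j
      by_cases hij : i = j
      · subst hij
        refine ⟨0, fun hn => ?_⟩
        subst hn
        have := res hj hδ hP hQ h i (CC σ * (b - vv P Q g)) (H - CC σ * g) (o_left _ hg) (by
          rw [map_sub, vv_CC_mul, hH, mul_sub, sub_self]; simp [Ord2, co2])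
        rw [co2_CC_mul] at this
        rw [(mul_eq_zero.1 this).resolve_left hσ, mul_zero]
      · obtain ⟨u, hu⟩ := (hδ.mul (cast_sub_unit hij)).exists_right_inv
        exact ⟨u * co2 i j (b - vv P Q g), fun _ => by rw [← mul_assoc, hu, one_mul]⟩
    choose c hc using key
    let g1 : AA O := mk fun j => mk fun i => if i + j = n then c i j else 0
    have h1 : ∀ i j, co2 i j g1 = if i + j = n then c i j else 0 := fun i j => by simp [g1, co2]
    have h2 : Ord2 n g1 := fun i j hij => by rw [h1, if_neg (by omega)]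
    refine ⟨g + g1, ?_⟩
    rw [← vv_apply, map_add, ← sub_sub]
    refine o_succ (o_sub hg (co_lin hP hQ h2).1) fun i j hij => ?_
    rw [co2_sub, (co_lin hP hQ h2).2 i j hij, h1, if_pos hij, hc i j hij, sub_self]

end Pool.Agent.MP_05b4bd_ag.ES

end MrgPart0

-- ======== part 1: formerly Pool.Agent.MP_05b4bd_ag.esc.Cher
section MrgPart1

/-! A centre of a Lienard form is symmetric: row CHER. -/

namespace Pool.Agent.MP_05b4bd_ag.ES

open PowerSeries Low

namespace Cher

variable {K : Type} [Field K] [CharZero K]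

omit [CharZero K] in
theorem o_C {n : ℕ} {f : K⟦X⟧} (h : ∀ i < n, coeff i f = 0) : Ord2 n (C f : AA K) :=
  fun i j hij => by
    rw [co2, coeff_C]
    split_ifs
    exacts [h i (by omega), map_zero _]

omit [CharZero K] in
theorem co_lin {c : K} {Q g : AA K} {n : ℕ} (hQ : Ord2 2 (Q - CC c * C X)) (hg : Ord2 n g)
    {i j : ℕ} (hij : i + j = n) : co2 i j (vv X Q g) =
      co2 i j (X * cw (dX K) g) + c * co2 i j (C X * dX _ g) := by
  have e : vv X Q g = X * cw (dX K) g + CC c * (C X * dX _ g) + (Q - CC c * C X) * dX _ g := by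
    rw [vv_apply]; ring
  rw [e, co2_add, co2_add, co2_CC_mul, o_mul hQ (o_d2 hg) i j (by omega), add_zero]

theorem succ_ne (n : ℕ) : (n : K) + 1 ≠ 0 := Nat.cast_add_one_ne_zero n

/-- Descending from the pure power of the inner variable. -/
theorem ker_zero {c : K} (hc : c ≠ 0) {Q g : AA K} {n : ℕ} (hQ : Ord2 2 (Q - CC c * C X))
    (hg : Ord2 n g) (hv : Ord2 (n + 1) (vv X Q g)) (h0 : co2 n 0 g = 0) : Ord2 (n + 1) g := by
  refine o_succ hg fun p q => ?_
  induction q using Nat.strong_induction_on generalizing p with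
  | _ q ih =>
    intro hpq
    rcases q with _ | _ | q
    · rwa [show p = n by omega]
    · have := co_lin hQ hg (show p + 1 + 0 = n by omega)
      rw [hv _ _ (by omega), co2_X_zero, co2_CX_succ, co2_d2, zero_add] at this
      exact (mul_eq_zero.1 ((mul_eq_zero.1 this.symm).resolve_left hc)).resolve_right (succ_ne _)
    · have := co_lin hQ hg (show p + 1 + (q + 1) = n by omega)
      rw [hv _ _ (by omega), co2_X_succ, co2_CX_succ, co2_d1, co2_d2,
        ih q (by omega) _ (by omega), zero_mul, zero_add] at this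
      exact (mul_eq_zero.1 ((mul_eq_zero.1 this.symm).resolve_left hc)).resolve_right (succ_ne _)

/-- Ascending from the pure power of the outer variable. -/
theorem odd_zero {c : K} {Q g : AA K} {n : ℕ} (hQ : Ord2 2 (Q - CC c * C X)) (hg : Ord2 n g)
    (r : ℕ) (hv : ∀ s ≤ r, ∀ j, 2 * s + j = n → co2 (2 * s) j (vv X Q g) = 0) (q : ℕ)
    (hq : 2 * r + 1 + q = n) : co2 (2 * r + 1) q g = 0 := by
  induction r generalizing q with
  | zero =>
    have := co_lin hQ hg (show 0 + (q + 1) = n by omega)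
    rw [hv 0 le_rfl _ (by omega), co2_X_succ, co2_CX_zero, co2_d1, mul_zero, add_zero] at this
    exact (mul_eq_zero.1 this.symm).resolve_right (succ_ne _)
  | succ r ih =>
    have := co_lin hQ hg (show 2 * r + 1 + 1 + (q + 1) = n by omega)
    have h0 : co2 (2 * r + 1 + 1) (q + 1) (vv X Q g) = 0 := hv (r + 1) le_rfl _ (by omega)
    rw [h0, co2_X_succ, co2_CX_succ, co2_d1, co2_d2,
      ih (fun s hs => hv s (by omega)) _ (by omega), zero_mul, mul_zero, add_zero] at this
    exact (mul_eq_zero.1 this.symm).resolve_right (succ_ne _)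

omit [CharZero K] in
theorem co2_pow {I : AA K} (h : Ord2 2 I) (r : ℕ) : co2 (2 * r) 0 (I ^ r) = co2 2 0 I ^ r := by
  obtain ⟨u, hu⟩ : (X : K⟦X⟧) ^ 2 ∣ coeff 0 I := X_pow_dvd_iff.2 fun m hm => h m 0 hm
  have h1 : co2 2 0 I = constantCoeff u := by
    rw [co2, hu, ← coeff_zero_eq_constantCoeff_apply]
    exact coeff_X_pow_mul u 2 0
  rw [h1, co2, coeff_zero_eq_constantCoeff_apply, map_pow, ← coeff_zero_eq_constantCoeff_apply,
    hu, mul_pow, ← pow_mul, ← map_pow, ← coeff_zero_eq_constantCoeff_apply]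
  simpa using coeff_X_pow_mul (u ^ r) (2 * r) 0

omit [CharZero K] in
theorem rescale_C' (a r : K) : rescale a (C r) = C r := by
  ext n
  rw [coeff_rescale, coeff_C]
  split_ifs with h <;> simp [h]

omit [CharZero K] in
theorem o_refl {n : ℕ} {f : AA K} (h : Ord2 n f) : Ord2 n (map (rescale (-1)) f) :=
  fun i j hij => by
    have := h i j hij
    rw [co2] at this
    rw [co2, coeff_map, coeff_rescale, this, mul_zero]

theorem even_part {c : K} (hc : c ≠ 0) {γ : K⟦X⟧}
    (h : Cab (cw (dX K)) (dX _) c00 (-(CC c * C X + X * C γ)) X) : γ + rescale (-1) γ = 0 := by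
  by_contra hne
  obtain ⟨p, hp⟩ := exists_ordIs hne
  obtain ⟨m, rfl⟩ : ∃ m, p = 2 * m := by
    rcases Nat.even_or_odd' p with ⟨m, rfl | rfl⟩
    · exact ⟨m, rfl⟩
    · refine absurd ?_ hp.1
      rw [map_add, coeff_rescale, pow_succ, pow_mul]; simp
  have h0 : coeff 0 γ = 0 := by
    have := h.trace isDer_dX.coefw isDer_dX fun s => (dX_cw _ s).symm
    rw [cw_X isDer_dX.one, map_neg, map_add, isDer_dX, isDer_dX, d2_CC, dX_C, dX_C,
      dX_X] at this
    simpa [c00_apply] using this
  have hQ : Ord2 2 (CC c * C X + X * C γ - CC c * C X) := by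
    rw [add_sub_cancel_left]
    exact o_mul o_X (o_C (n := 1) fun i hi => by rwa [show i = 0 by omega])
  set Q : AA K := CC c * C X + X * C γ with hQe
  have h' : Cab (cw (dX K)) (dX _) ((RingHom.id K).comp c00) Q (-X) := by
    refine Cab.trans h (RingHom.id _) isDer_dX.coefw isDer_dX (RingHom.id K) (fun _ => rfl)
      (J11 := 1) (J12 := 0) (J21 := 0) (J22 := 1) (lam := -1) (fun s => by simp)
      (fun s => by simp) (by simp) (by simp) (by simp) (by simp)
  obtain ⟨I, μ, h1, h2, h3, h4, h5⟩ := exists_fi (fun _ _ e => e) h' (2 * m + 1)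
  have hQ1 : Ord2 1 Q := o_add (o_left _ o_CX) (o_right _ o_X)
  have hα : co2 2 0 I ≠ 0 := by
    have a1 := h3 1 0 (by omega)
    have a2 := hQ 1 0 (by omega)
    rw [co2_sub, co2_CC_mul, show co2 1 0 (C X : AA K) = 1 by simp [co2]] at a2
    rw [co2_sub, co2_d1, co2_mul_low μ hQ1 rfl] at a1
    intro e
    rw [e] at a1
    exact mul_ne_zero h1 hc (by linear_combination -a1 - c00 μ * a2)
  let ρ : AA K →+* AA K := map (rescale (-1))
  have r1 : cw (dX K) (ρ I) = -ρ (cw (dX K) I) := by
    have := cw_map (φ := rescale (-1 : K)) (D := dX K) (D' := dX K) (θ := C (-1))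
      (fun a => dX_rescale _ a) I
    rw [this]; simp [ρ]
  have r2 : dX _ (ρ I) = ρ (dX _ I) := dX_map _ _
  have r3 : ρ Q = -(CC c * C X) + X * C (rescale (-1) γ) := by
    simp [ρ, hQe, CC_apply, rescale_X, rescale_C']
  have r4 : ρ X = X := map_X _
  have e : vv X Q (ρ I) + ρ μ * (C (γ + rescale (-1) γ) * X ^ 2) =
      X * C (γ + rescale (-1) γ) * ρ (dX _ I + μ * X) - ρ (vv X Q I) := by
    rw [vv_apply, vv_apply, r1, r2]
    simp only [map_add, map_mul, r3, r4]
    rw [hQe]
    ring
  have hw : Ord2 (2 * m + 2) (C (γ + rescale (-1) γ) * X ^ 2 : AA K) :=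
    o_mul (o_C hp.2) (by simpa using o_pow (o_X (R := K)) 2)
  have hN : Ord2 (2 * m + 3) (vv X Q (ρ I) + ρ μ * (C (γ + rescale (-1) γ) * X ^ 2)) := by
    rw [e]; exact o_sub (o_left _ (o_refl h4)) (o_refl h5)
  have hv : Ord2 (2 * m + 2) (vv X Q (ρ I)) := by
    have := o_sub (o_mono hN (Nat.le_succ _)) (o_left (ρ μ) hw)
    rwa [add_sub_cancel_right] at this
  obtain ⟨σ, g, a1, a2, a3⟩ := core h5 (fun k g _ b1 b2 => by
    rcases Nat.even_or_odd' k with ⟨r, rfl | rfl⟩
    · refine ⟨co2 2 0 I ^ r, co2 (2 * r) 0 g, r, pow_ne_zero _ hα,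
        ker_zero hc hQ (o_sub (o_left _ b1) (o_left _ (o_pow h2 r))) ?_ ?_⟩
      · rw [map_sub, vv_CC_mul, vv_CC_mul, (isDer_vv _ _).pow]
        refine o_sub (o_left _ b2) (o_left _ ?_)
        cases r with
        | zero => simp [Ord2, co2]
        | succ r =>
          rw [mul_assoc]
          exact o_left _ (o_mono (o_mul (o_pow h2 r) h5) (by omega))
      · rw [co2_sub, co2_CC_mul, co2_CC_mul, co2_pow h2]; ring
    · exact ⟨1, 0, 0, one_ne_zero, by
        simpa using ker_zero hc hQ b1 b2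
          (odd_zero hQ b1 r (fun s _ j hj => b2 _ _ (by omega)) 0 rfl)⟩)
    (show 2 * m + 2 ≤ _ by omega) hv
  have hco : ∀ i j, i + j = 2 * m + 2 → co2 i j (vv X Q g) =
      -(σ * c00 μ * if j = 2 then coeff i (γ + rescale (-1) γ) else 0) := fun i j hij => by
    have b1 := a3 i j (by omega)
    have b2 := hN i j (by omega)
    have b3 : c00 (ρ μ) = c00 μ := by
      rw [← Low.co2_zero, ← Low.co2_zero, co2, co2, coeff_map, coeff_rescale, pow_zero, one_mul]
    have b4 : co2 i j (C (γ + rescale (-1) γ) * X ^ 2 : AA K) =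
        if j = 2 then coeff i (γ + rescale (-1) γ) else 0 := by
      rw [co2, coeff_C_mul, coeff_X_pow]
      split_ifs <;> simp
    rw [co2_sub, co2_CC_mul] at b1
    rw [co2_add, co2_mul_low _ hw hij, b3, b4] at b2
    linear_combination σ * b2 - b1
  have c1 := co_lin hQ a2 (show 2 * m + 1 + 1 + 0 = 2 * m + 2 by omega)
  rw [hco _ _ (by omega), if_neg (by omega), co2_X_zero, co2_CX_succ, co2_d2] at c1
  have c2 : co2 (2 * m + 1) 1 g = 0 := by
    have : c * co2 (2 * m + 1) 1 g = 0 := by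
      simp only [Nat.cast_zero, zero_add] at c1
      linear_combination -c1
    exact (mul_eq_zero.1 this).resolve_left hc
  have c3 := co_lin hQ a2 (show 2 * m + (1 + 1) = 2 * m + 2 by omega)
  rw [hco _ _ (by omega), if_pos rfl, co2_X_succ, co2_d1, c2] at c3
  have c4 : co2 (2 * m) (1 + 1) (C X * dX _ g) = 0 := by
    cases m with
    | zero => exact co2_CX_zero _ _
    | succ m =>
      rw [show 2 * (m + 1) = 2 * m + 1 + 1 by omega, co2_CX_succ, co2_d2,
        odd_zero hQ a2 m (fun s hs j hj => by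
          rw [hco _ _ hj, if_neg (by omega)]; simp) _ (by omega), zero_mul]
  rw [c4] at c3
  exact mul_ne_zero (mul_ne_zero a1 h1) hp.1 (by linear_combination -c3)

end Cher

open Cher

theorem cherS : CherStmt := by
  intro K _ _ _ G0 G1 h
  have h1 : coeff 1 G0 = 0 := by
    have := h.1
    rw [← Low.co2_zero, co2_neg, co2_add, co2_X_zero] at this
    simpa [co2, ← coeff_zero_eq_constantCoeff_apply, coeff_dX] using this
  have h2 : coeff 2 G0 ≠ 0 := by
    intro h0
    apply h.2.2.1
    rw [cw_X isDer_dX.one, dX_X, mul_zero, sub_zero, mul_one, ← Low.co2_zero, co2_d1, co2_neg,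
      co2_add, co2_X_zero]
    simp [co2, coeff_dX, h0]
  refine ⟨fun h0 => h2 ?_, ?_⟩
  · have := coeff_dX G0 1
    rw [h0, map_zero] at this
    exact (mul_eq_zero.1 this.symm).resolve_right (succ_ne _)
  have hT : OrdIs 2 (G0 - C (cc G0)) := by
    refine ⟨by simpa [coeff_C] using h2, fun j hj => ?_⟩
    rcases (by omega : j = 0 ∨ j = 1) with rfl | rfl
    · simp
    · simpa [coeff_C] using h1
  obtain ⟨e, e0, e1, e2⟩ := exists_sq hT
  rw [map_sub, sb_C e0, sub_eq_iff_eq_add] at e2
  refine ⟨e, e0, e1, by rw [e2]; simp [rescale_X, rescale_C'], ?_⟩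
  set c := coeff 2 (G0 - C (cc G0))
  have e3 : sb e (dX K G0) * dX K e = C (2 * c) * X := by
    rw [← dX_sb e0, e2, map_add, dX_C, isDer_dX, dX_C, isDer_dX.pow, dX_X, map_mul,
      map_ofNat]
    simp; ring
  have hc : Cab (cw (dX K)) (dX _) c00 (-(CC (2 * c) * C X + X * C (dX K (sb e G1)))) X := by
    refine Cab.trans h (map (sb e)) isDer_dX.coefw isDer_dX (RingHom.id K) (fun s => ?_)
      (J11 := C (dX K e)) (J12 := 0) (J21 := 0) (J22 := 1) (lam := 1) (fun s => ?_)
      (fun s => by rw [dX_map]; simp) ?_ (by simp) ?_ (by simp)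
    · rw [c00_apply, c00_apply, RingHom.id_apply, ← cc_sb e0 (cc s)]
      congr 1
    · rw [zero_mul, add_zero]
      exact cw_map (fun a => by rw [dX_sb e0, mul_comm]) s
    · have := coeff_dX e 0
      rw [e1] at this
      simp [c00_apply, ← coeff_zero_eq_constantCoeff_apply, this]
    · rw [dX_sb e0, CC_apply, ← map_mul, ← e3]
      simp only [map_neg, map_add, map_mul, map_C, map_X]
      ring
  have h3 := even_part (mul_ne_zero two_ne_zero hT.1) hc
  have h4 : dX K (sb e G1 - rescale (-1) (sb e G1)) = 0 := by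
    rw [map_sub, dX_rescale, ← h3]; simp
  have h5 := eq_C_of_dX h4
  rw [map_sub, ← coeff_zero_eq_constantCoeff_apply, ← coeff_zero_eq_constantCoeff_apply,
    coeff_rescale, pow_zero, one_mul, sub_self, map_zero] at h5
  exact sub_eq_zero.1 h5

end Pool.Agent.MP_05b4bd_ag.ES

end MrgPart1

-- ======== part 2: formerly Pool.Agent.MP_05b4bd_ag.esc.Amalg
section MrgPart2

namespace Pool.Agent.MP_05b4bd_ag.Esc

open IntermediateField TensorProduct

universe u v w

section Taylor

variable {R U Ω : Type*} [CommRing R] [CommRing U] [Algebra R U] [CommRing Ω] [Algebra ℚ Ω]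
  (D : Derivation R U U) (σ : U →+* Ω)

noncomputable def tayFun (a : U) : PowerSeries Ω :=
  PowerSeries.mk fun n => ((n.factorial : ℚ)⁻¹) • σ (D^[n] a)

theorem constantCoeff_tayFun (a : U) : PowerSeries.constantCoeff (tayFun D σ a) = σ a := by
  rw [← PowerSeries.coeff_zero_eq_constantCoeff_apply]
  simp [tayFun]

theorem derivative_tayFun (a : U) :
    PowerSeries.derivative Ω (tayFun D σ a) = tayFun D σ (D a) := by
  ext n
  rw [PowerSeries.coeff_derivative, tayFun, tayFun, PowerSeries.coeff_mk, PowerSeries.coeff_mk,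
    Function.iterate_succ_apply, Nat.factorial_succ]
  have h1 : ((n : Ω) + 1) = ((n : ℚ) + 1) • (1 : Ω) := by
    rw [add_smul, one_smul, Nat.cast_smul_eq_nsmul, nsmul_one]
  have h2 : ((n : ℚ) + 1) ≠ 0 := by positivity
  have h3 : (n.factorial : ℚ) ≠ 0 := by positivity
  rw [h1, mul_smul_comm, mul_one, smul_smul]
  congr 1
  push_cast
  field_simp

theorem tayFun_add (a b : U) : tayFun D σ (a + b) = tayFun D σ a + tayFun D σ b := by
  ext n
  simp [tayFun]

theorem coeff_eq_of_derivative {f g : PowerSeries Ω} {n : ℕ}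
    (h : PowerSeries.coeff n (PowerSeries.derivative Ω f) =
      PowerSeries.coeff n (PowerSeries.derivative Ω g)) :
    PowerSeries.coeff (n + 1) f = PowerSeries.coeff (n + 1) g := by
  rw [PowerSeries.coeff_derivative, PowerSeries.coeff_derivative] at h
  have h1 : IsUnit ((n : Ω) + 1) := by
    have : ((n : Ω) + 1) = algebraMap ℚ Ω ((n : ℚ) + 1) := by simp
    rw [this]
    exact (IsUnit.mk0 _ (by positivity)).map _
  exact h1.mul_right_cancel h

theorem tayFun_mul (a b : U) : tayFun D σ (a * b) = tayFun D σ a * tayFun D σ b := by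
  suffices h : ∀ n : ℕ, ∀ a b : U, ∀ m ≤ n, PowerSeries.coeff m (tayFun D σ (a * b)) =
      PowerSeries.coeff m (tayFun D σ a * tayFun D σ b) by
    ext n
    exact h n a b n le_rfl
  intro n
  induction n with
  | zero =>
    intro a b m hm
    rw [Nat.le_zero.1 hm, PowerSeries.coeff_zero_eq_constantCoeff, map_mul, constantCoeff_tayFun,
      constantCoeff_tayFun, constantCoeff_tayFun, map_mul]
  | succ n ih =>
    intro a b m hm
    rcases m with _ | m
    · exact ih a b 0 (Nat.zero_le _)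
    · apply coeff_eq_of_derivative
      rw [derivative_tayFun, Derivation.leibniz, Derivation.leibniz, smul_eq_mul, smul_eq_mul,
        smul_eq_mul, smul_eq_mul, tayFun_add, derivative_tayFun, derivative_tayFun, map_add,
        map_add, ih _ _ m (by omega), ih _ _ m (by omega)]

theorem tayFun_of_const {a : U} (h : D a = 0) : tayFun D σ a = PowerSeries.C (σ a) := by
  ext n
  rcases n with _ | n
  · simp [tayFun]
  · have : D^[n + 1] a = 0 := by
      rw [Function.iterate_succ_apply, h]
      exact Function.iterate_fixed (map_zero D) n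
    rw [tayFun, PowerSeries.coeff_mk, this, map_zero, smul_zero, PowerSeries.coeff_C,
      if_neg (Nat.succ_ne_zero n)]

noncomputable def tay : U →+* PowerSeries Ω where
  toFun := tayFun D σ
  map_one' := by rw [tayFun_of_const D σ D.map_one_eq_zero, map_one, map_one]
  map_mul' := tayFun_mul D σ
  map_zero' := by rw [tayFun_of_const D σ (map_zero D), map_zero, map_zero]
  map_add' := tayFun_add D σ

theorem coeff_tay (a : U) (n : ℕ) :
    PowerSeries.coeff n (tay D σ a) = ((n.factorial : ℚ)⁻¹) • σ (D^[n] a) :=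
  PowerSeries.coeff_mk n fun n => ((n.factorial : ℚ)⁻¹) • σ (D^[n] a)

theorem constantCoeff_tay (a : U) : PowerSeries.constantCoeff (tay D σ a) = σ a :=
  constantCoeff_tayFun D σ a

theorem derivative_tay (a : U) : PowerSeries.derivative Ω (tay D σ a) = tay D σ (D a) :=
  derivative_tayFun D σ a

theorem tay_of_const {a : U} (h : D a = 0) : tay D σ a = PowerSeries.C (σ a) :=
  tayFun_of_const D σ h

theorem tay_congr {R' U' F : Type*} [CommRing R'] [CommRing U'] [Algebra R' U']
    (D' : Derivation R' U' U') (σ' : U' →+* Ω) (i : F → U) (i' : F → U') (δ : F → F)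
    (h : ∀ c, D (i c) = i (δ c)) (h' : ∀ c, D' (i' c) = i' (δ c))
    (hσ : ∀ c, σ (i c) = σ' (i' c)) (c : F) : tay D σ (i c) = tay D' σ' (i' c) := by
  ext n
  have h1 : ∀ c, D^[n] (i c) = i (δ^[n] c) ∧ D'^[n] (i' c) = i' (δ^[n] c) := by
    induction n with
    | zero => exact fun c => ⟨rfl, rfl⟩
    | succ n ih =>
      intro c
      simp only [Function.iterate_succ_apply, h, h']
      exact ih _
  rw [coeff_tay, coeff_tay, (h1 c).1, (h1 c).2, hσ]

end Taylor

section DerL

attribute [-instance] HahnSeries.powerSeriesAlgebra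

variable (k : Type*) [Field k]

noncomputable def derL : Derivation k (LaurentSeries k) (LaurentSeries k) :=
  (HahnSeries.single (-1) 1 : LaurentSeries k) • thetaL k

theorem derL_coeff (x : LaurentSeries k) (n : ℤ) :
    (derL k x).coeff n = ((n : k) + 1) * x.coeff (n + 1) := by
  have h := HahnSeries.coeff_single_mul_add (r := (1 : k)) (x := thetaL k x) (a := n + 1)
    (b := -1)
  rw [show n + 1 + -1 = n by ring, one_mul, thetaL_coeff] at h
  rw [derL, Derivation.smul_apply, smul_eq_mul, h]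
  push_cast
  rfl

theorem derL_ofPowerSeries (f : PowerSeries k) :
    derL k (HahnSeries.ofPowerSeries ℤ k f) =
      HahnSeries.ofPowerSeries ℤ k (PowerSeries.derivative k f) := by
  ext n
  rw [derL_coeff]
  rcases lt_trichotomy n (-1) with h | h | h
  · rw [PowerSeries.coeff_coe, PowerSeries.coeff_coe, if_pos (by omega), if_pos (by omega),
      mul_zero]
  · rw [PowerSeries.coeff_coe, PowerSeries.coeff_coe, if_pos (show n < 0 by omega), h]
    simp
  · obtain ⟨m, rfl⟩ := Int.eq_ofNat_of_zero_le (show 0 ≤ n by omega)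
    have h1 : (m : ℤ) + 1 = ((m + 1 : ℕ) : ℤ) := by push_cast; rfl
    rw [h1, LaurentSeries.coeff_coe_powerSeries, LaurentSeries.coeff_coe_powerSeries,
      PowerSeries.coeff_derivative, mul_comm]
    push_cast
    rfl

theorem eq_C_of_derL [CharZero k] {x : LaurentSeries k} (h : derL k x = 0) :
    x = HahnSeries.C (x.coeff 0) := by
  ext n
  by_cases hn : n = 0
  · simp [hn]
  · have h1 := derL_coeff k x (n - 1)
    rw [h, HahnSeries.coeff_zero, sub_add_cancel] at h1
    have h2 : (((n - 1 : ℤ) : k) + 1) ≠ 0 := by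
      push_cast
      rw [sub_add_cancel]
      exact_mod_cast hn
    rw [(mul_eq_zero.1 h1.symm).resolve_left h2, HahnSeries.C_apply,
      HahnSeries.coeff_single_of_ne hn]

variable {k} [CharZero k] {R U : Type*} [CommRing R] [CommRing U] [Algebra R U]
  (D : Derivation R U U) (σ : U →+* k)

noncomputable def tayL : U →+* LaurentSeries k := (HahnSeries.ofPowerSeries ℤ k).comp (tay D σ)

theorem tayL_apply (a : U) : tayL D σ a = HahnSeries.ofPowerSeries ℤ k (tay D σ a) := rfl

theorem derL_tayL (a : U) : derL k (tayL D σ a) = tayL D σ (D a) := by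
  rw [tayL_apply, derL_ofPowerSeries, derivative_tay, tayL_apply]

theorem coeff_zero_tayL (a : U) : (tayL D σ a).coeff 0 = σ a := by
  have h := LaurentSeries.coeff_coe_powerSeries (tay D σ a) 0
  rw [PowerSeries.coeff_zero_eq_constantCoeff, constantCoeff_tay] at h
  exact h

theorem tayL_of_const {a : U} (h : D a = 0) : tayL D σ a = HahnSeries.C (σ a) := by
  rw [tayL_apply, tay_of_const D σ h, HahnSeries.ofPowerSeries_C]

end DerL

section Amalg

theorem exists_amalgam {K : Type u} {A : Type v} {B : Type w} [Field K] [Field A] [Field B]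
    (f : K →+* A) (g : K →+* B) :
    ∃ (Ω : Type (max v w)) (_ : Field Ω) (a : A →+* Ω) (b : B →+* Ω),
      ∀ c, a (f c) = b (g c) := by
  let _ : Algebra K A := f.toAlgebra
  let _ : Algebra K B := g.toAlgebra
  obtain ⟨m, hm⟩ := Ideal.exists_maximal (A ⊗[K] B)
  let _ : Field ((A ⊗[K] B) ⧸ m) := Ideal.Quotient.field m
  refine ⟨(A ⊗[K] B) ⧸ m, inferInstance,
    (Ideal.Quotient.mk m).comp Algebra.TensorProduct.includeLeftRingHom,
    (Ideal.Quotient.mk m).comp
      (Algebra.TensorProduct.includeRight (R := K) (A := A) (B := B)).toRingHom, fun c => ?_⟩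
  have h1 : (Algebra.TensorProduct.includeRight (R := K) (A := A) (B := B)) (algebraMap K B c) =
    algebraMap K (A ⊗[K] B) c := AlgHom.commutes _ c
  exact congrArg (Ideal.Quotient.mk m) h1.symm

theorem exists_move {F U : Type*} [Field F] [CharZero F] [Field U] [Algebra F U] (x : U)
    (hx : x ∉ Set.range (algebraMap F U)) :
    ∃ j : F⟮x⟯ →ₐ[F] AlgebraicClosure U,
      j (AdjoinSimple.gen F x) ≠ algebraMap U (AlgebraicClosure U) x := by
  by_cases ha : IsAlgebraic F x
  · have hi := ha.isIntegral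
    have := adjoin.finiteDimensional hi
    by_contra hcon
    push Not at hcon
    have h1 := Algebra.IsAlgebraic.range_eval_eq_rootSet_minpoly (F := F) (K := F⟮x⟯)
      (A := AlgebraicClosure U) (AdjoinSimple.gen F x)
    rw [minpoly_gen] at h1
    have h2 := Polynomial.card_rootSet_eq_natDegree (K := AlgebraicClosure U)
      (minpoly.irreducible hi).separable (IsAlgClosed.splits _)
    have h3 : Fintype.card ((minpoly F x).rootSet (AlgebraicClosure U)) ≤ 1 := by
      rw [Fintype.card_le_one_iff]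
      rintro ⟨a, ha⟩ ⟨b, hb⟩
      rw [← h1] at ha hb
      obtain ⟨ψ, rfl⟩ := ha
      obtain ⟨ψ', rfl⟩ := hb
      exact Subtype.ext ((hcon ψ).trans (hcon ψ').symm)
    have h4 := minpoly.natDegree_pos hi
    exact hx (minpoly.natDegree_eq_one_iff.1 (by omega))
  · have hy : Transcendental F (x + 1) := fun h => ha (by
      simpa using h.sub (isAlgebraic_one (R := F) (A := U)))
    refine ⟨((IsScalarTower.toAlgHom F U (AlgebraicClosure U)).comp (F⟮x + 1⟯.val.comp
      (RatFunc.algEquivOfTranscendental (x + 1) hy).toAlgHom)).comp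
        (RatFunc.algEquivOfTranscendental x ha).symm.toAlgHom, ?_⟩
    change algebraMap U (AlgebraicClosure U) ((RatFunc.algEquivOfTranscendental (x + 1) hy)
      ((RatFunc.algEquivOfTranscendental x ha).symm (AdjoinSimple.gen F x)) : U) ≠ _
    rw [RatFunc.algEquivOfTranscendental_symm_gen, RatFunc.algEquivOfTranscendental_X]
    simp

theorem exists_sep_one {F : Type*} {U : Type u} [Field F] [CharZero F] [Field U] [Algebra F U]
    (x : U) (hx : x ∉ Set.range (algebraMap F U)) :
    ∃ (Ω : Type u) (_ : Field Ω) (σ σ' : U →+* Ω),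
      (∀ c, σ' (algebraMap F U c) = σ (algebraMap F U c)) ∧ σ' x ≠ σ x := by
  obtain ⟨j, hj⟩ := exists_move x hx
  obtain ⟨Ω, _, a, b, h⟩ := exists_amalgam (algebraMap F⟮x⟯ U) j.toRingHom
  refine ⟨Ω, inferInstance, b.comp (algebraMap U (AlgebraicClosure U)), a, fun c => ?_,
    fun h1 => hj (b.injective ((h (AdjoinSimple.gen F x)).symm.trans h1))⟩
  exact (h (algebraMap F F⟮x⟯ c)).trans (congrArg b (j.commutes c))

theorem exists_sep {F : Type*} {U : Type u} [Field F] [CharZero F] [Field U] [Algebra F U]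
    {ι : Type*} [Finite ι] (x : ι → U) (hx : ∀ i, x i ∉ Set.range (algebraMap F U)) :
    ∃ (Ω : Type u) (_ : Field Ω) (σ : U →+* Ω) (σ' : ι → U →+* Ω),
      (∀ i c, σ' i (algebraMap F U c) = σ (algebraMap F U c)) ∧ ∀ i, σ' i (x i) ≠ σ (x i) := by
  classical
  suffices h : ∀ s : Finset ι, ∃ (Ω : Type u) (_ : Field Ω) (σ : U →+* Ω) (σ' : ι → U →+* Ω),
      (∀ i c, σ' i (algebraMap F U c) = σ (algebraMap F U c)) ∧
        ∀ i ∈ s, σ' i (x i) ≠ σ (x i) by
    have := Fintype.ofFinite ι
    obtain ⟨Ω, _, σ, σ', h1, h2⟩ := h Finset.univ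
    exact ⟨Ω, inferInstance, σ, σ', h1, fun i => h2 i (Finset.mem_univ i)⟩
  intro s
  induction s using Finset.induction_on with
  | empty => exact ⟨U, inferInstance, RingHom.id U, fun _ => RingHom.id U, fun _ _ => rfl,
      fun _ h => absurd h (Finset.notMem_empty _)⟩
  | insert i s hi ih =>
    obtain ⟨Ω, _, σ, σ', h1, h2⟩ := ih
    obtain ⟨Ω', _, ρ, ρ', h3, h4⟩ := exists_sep_one (x i) (hx i)
    obtain ⟨Ω'', _, a, b, h5⟩ := exists_amalgam σ ρ
    refine ⟨Ω'', inferInstance, a.comp σ, fun j => if j = i then b.comp ρ' else a.comp (σ' j),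
      fun j c => ?_, fun j hj => ?_⟩
    · dsimp only
      split_ifs
      · rw [RingHom.comp_apply, RingHom.comp_apply, h3, h5]
      · rw [RingHom.comp_apply, RingHom.comp_apply, h1]
    · dsimp only
      split_ifs with h6
      · rw [RingHom.comp_apply, RingHom.comp_apply, h5, h6]
        exact fun h => h4 (b.injective h)
      · exact fun h => h2 j ((Finset.mem_insert.1 hj).resolve_left h6) (a.injective h)

attribute [-instance] HahnSeries.powerSeriesAlgebra

theorem amalg {R F : Type*} {U : Type u} [CommRing R] [Field F] [CharZero F] [Field U]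
    [Algebra F U] [Algebra R U] (D : Derivation R U U) (δ : F → F)
    (hD : ∀ c, D (algebraMap F U c) = algebraMap F U (δ c))
    {ι : Type*} [Finite ι] (x : ι → U) (hx : ∀ i, x i ∉ Set.range (algebraMap F U)) :
    ∃ (Ω : Type u) (_ : Field Ω) (_ : CharZero Ω) (τ : U →+* LaurentSeries Ω)
      (τ' : ι → U →+* LaurentSeries Ω), (∀ a, derL Ω (τ a) = τ (D a)) ∧
      (∀ i a, derL Ω (τ' i a) = τ' i (D a)) ∧
      (∀ i c, τ' i (algebraMap F U c) = τ (algebraMap F U c)) ∧ ∀ i, τ' i (x i) ≠ τ (x i) := by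
  obtain ⟨Ω, _, σ, σ', h1, h2⟩ := exists_sep x hx
  have : CharZero Ω := (RingHom.charZero_iff (σ.comp (algebraMap F U)).injective).1 inferInstance
  refine ⟨Ω, inferInstance, this, tayL D σ, fun i => tayL D (σ' i), derL_tayL D σ,
    fun i => derL_tayL D (σ' i), fun i c => ?_, fun i h => h2 i ?_⟩
  · rw [tayL_apply, tayL_apply, tay_congr D (σ' i) D σ _ _ δ hD hD (h1 i)]
  · rw [← coeff_zero_tayL D (σ' i), h, coeff_zero_tayL]

theorem amalg_two {R R' F : Type*} {U U' : Type u} [CommRing R] [CommRing R'] [Field F]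
    [CharZero F] [Field U] [Field U'] [Algebra R U] [Algebra R' U'] (D : Derivation R U U)
    (D' : Derivation R' U' U') (i : F →+* U) (i' : F →+* U') (δ : F → F)
    (hD : ∀ c, D (i c) = i (δ c)) (hD' : ∀ c, D' (i' c) = i' (δ c)) :
    ∃ (Ω : Type u) (_ : Field Ω) (_ : CharZero Ω) (τ : U →+* LaurentSeries Ω)
      (τ' : U' →+* LaurentSeries Ω), (∀ a, derL Ω (τ a) = τ (D a)) ∧
      (∀ a, derL Ω (τ' a) = τ' (D' a)) ∧ ∀ c, τ (i c) = τ' (i' c) := by
  obtain ⟨Ω, _, a, b, h⟩ := exists_amalgam i i'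
  have : CharZero Ω := (RingHom.charZero_iff (a.comp i).injective).1 inferInstance
  refine ⟨Ω, inferInstance, this, tayL D a, tayL D' b, derL_tayL D a, derL_tayL D' b, fun c => ?_⟩
  rw [tayL_apply, tayL_apply, tay_congr D a D' b _ _ δ hD hD' h]

end Amalg

section Pair

theorem card_le_of_homs {Dd A Ω ι κ : Type*} [CommRing Dd] [CommRing A] [Algebra Dd A] [Field Ω]
    [Fintype ι] [Fintype κ] (g : κ → A) (hg : Submodule.span Dd (Set.range g) = ⊤)
    (φ : ι → A →+* Ω) (hφ : Function.Injective φ)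
    (hD : ∀ i j c, φ i (algebraMap Dd A c) = φ j (algebraMap Dd A c)) :
    Fintype.card ι ≤ Fintype.card κ := by
  have h1 : LinearIndependent Ω fun i => (φ i : A → Ω) :=
    (linearIndependent_monoidHom A Ω).comp (fun i => (φ i : A →* Ω))
      fun i j h => hφ (RingHom.coe_monoidHom_injective h)
  have h2 : LinearIndependent Ω fun i j => φ i (g j) := by
    rw [Fintype.linearIndependent_iff] at h1 ⊢
    intro c hc
    refine h1 c (funext fun a => ?_)
    have ha : a ∈ Submodule.span Dd (Set.range g) := hg ▸ Submodule.mem_top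
    simp only [Finset.sum_apply, Pi.smul_apply, smul_eq_mul, Pi.zero_apply]
    induction ha using Submodule.span_induction with
    | mem a ha =>
      obtain ⟨j, rfl⟩ := ha
      simpa using congrFun hc j
    | zero => simp
    | add a b _ _ ha hb => simp only [map_add, mul_add, Finset.sum_add_distrib, ha, hb, add_zero]
    | smul r a _ ha =>
      rcases isEmpty_or_nonempty ι with h | ⟨⟨i0⟩⟩
      · simp
      · have : ∀ i, c i * φ i (r • a) = φ i0 (algebraMap Dd A r) * (c i * φ i a) := fun i => by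
          rw [Algebra.smul_def, map_mul, hD i i0]
          ring
        simp only [this, ← Finset.mul_sum, ha, mul_zero]
  simpa using h2.fintype_card_le_finrank

theorem pair_abs {Dd A B Ω ι κ : Type*} [CommRing Dd] [CommRing A] [IsDomain A] [Algebra Dd A]
    [CommRing B] [IsDomain B] [CommRing Ω] [IsDomain Ω] [Fintype ι] [Fintype κ] (g : κ → A)
    (hg : Submodule.span Dd (Set.range g) = ⊤) (hn : Fintype.card κ ≤ Fintype.card ι)
    (φ : ι → A →+* Ω) (hφ : Function.Injective φ)
    (hD : ∀ i j c, φ i (algebraMap Dd A c) = φ j (algebraMap Dd A c)) (i0 : ι)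
    (h0 : Function.Injective (φ i0)) (ψ1 ψ2 : A →+* B) (h1 : Function.Injective ψ1)
    (hψ : ∀ c, ψ1 (algebraMap Dd A c) = ψ2 (algebraMap Dd A c)) :
    ∃ i, ∀ a a', ψ2 a = ψ1 a' ↔ φ i a = φ i0 a' := by
  let iΩ := algebraMap Ω (FractionRing Ω)
  let iB := algebraMap B (FractionRing B)
  have hΩ : Function.Injective iΩ := IsFractionRing.injective _ _
  have hB : Function.Injective iB := IsFractionRing.injective _ _
  obtain ⟨Ω', _, a, b, h⟩ := exists_amalgam
    (IsFractionRing.lift (K := FractionRing A) (g := iΩ.comp (φ i0)) (hΩ.comp h0))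
    (IsFractionRing.lift (K := FractionRing A) (g := iB.comp ψ1) (hB.comp h1))
  have h2 : ∀ x, a (iΩ (φ i0 x)) = b (iB (ψ1 x)) := fun x => by
    simpa only [IsFractionRing.lift_algebraMap, RingHom.comp_apply] using
      h (algebraMap A (FractionRing A) x)
  obtain ⟨i, hi⟩ : ∃ i, (a.comp iΩ).comp (φ i) = (b.comp iB).comp ψ2 := by
    by_contra hcon
    push Not at hcon
    have h3 := card_le_of_homs (Dd := Dd) g hg
      (fun o : Option ι => o.elim ((b.comp iB).comp ψ2) fun i => (a.comp iΩ).comp (φ i)) (by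
        rintro (_ | i) (_ | j) hij
        · rfl
        · exact absurd hij.symm (hcon j)
        · exact absurd hij (hcon i)
        · exact congrArg some (hφ (RingHom.ext fun x =>
            hΩ (a.injective (DFunLike.congr_fun hij x))))) (by
        have h4 : ∀ (o : Option ι) c, (o.elim ((b.comp iB).comp ψ2) fun i =>
            (a.comp iΩ).comp (φ i)) (algebraMap Dd A c) = a (iΩ (φ i0 (algebraMap Dd A c))) := by
          rintro (_ | i) c
          · exact (congrArg (b.comp iB) (hψ c).symm).trans (h2 _).symm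
          · exact congrArg (a.comp iΩ) (hD i i0 c)
        intro o o' c
        rw [h4, h4])
    rw [Fintype.card_option] at h3
    omega
  refine ⟨i, fun x x' => ?_⟩
  have h5 : a (iΩ (φ i x)) = b (iB (ψ2 x)) := DFunLike.congr_fun hi x
  rw [← hB.eq_iff, ← b.injective.eq_iff, ← h5, ← h2, a.injective.eq_iff, hΩ.eq_iff]

end Pair

end Pool.Agent.MP_05b4bd_ag.Esc

end MrgPart2

-- ======== part 3: formerly Pool.Agent.MP_05b4bd_ag.esc.Wrap2
section MrgPart3

/-! Amalgamation of differential fields. -/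

namespace Pool.Agent.MP_05b4bd_ag.ES

open PowerSeries LaurentSeries HC

namespace W2

/-- An additive derivation as a derivation over the integers. -/
def toDer {U : Type} [CommRing U] {D : U →+ U} (h : IsDer D) : Derivation ℤ U U :=
  Derivation.mk' D.toIntLinearMap fun a b => by
    change D (a * b) = a * D b + b * D a
    rw [h]
    ring

theorem toDer_apply {U : Type} [CommRing U] {D : U →+ U} (h : IsDer D) (a : U) :
    toDer h a = D a := rfl

theorem derL_eq (k : Type) [Field k] (x : k⸨X⸩) : Esc.derL k x = dL k x := by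
  ext n
  rw [Esc.derL_coeff]
  change _ = (wL k (-1) * thL k x).coeff n
  rw [coeff_wL_mul, coeff_thL, sub_neg_eq_add]
  push_cast
  rfl

end W2

theorem famS : FamStmt := fun _ _ _ _ _ _ i1 i2 => Esc.exists_amalgam i1 i2

theorem commonS : CommonStmt := by
  intro L U1 U2 _ _ _ _ D D1 D2 i1 i2 h1 h2
  obtain ⟨Ω, _, _, τ, τ', a1, a2, a3⟩ := Esc.amalg_two (W2.toDer h1.1) (W2.toDer h2.1) i1 i2 D
    h1.2 h2.2
  exact ⟨Ω⸨X⸩, inferInstance, dL Ω, τ, τ', ⟨isDer_dL, fun c => (W2.derL_eq _ _).symm.trans (a1 c)⟩,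
    ⟨isDer_dL, fun c => (W2.derL_eq _ _).symm.trans (a2 c)⟩, a3⟩

theorem amalgS : AmalgStmt := by
  intro L U _ _ _ D D1 i h ι _ x hx
  let _ : Algebra L U := i.toAlgebra
  obtain ⟨Ω, _, _, τ, τ', a1, a2, a3, a4⟩ := Esc.amalg (F := L) (W2.toDer h.1) D h.2 x
    fun a ⟨e, he⟩ => hx a e he.symm
  exact ⟨Ω⸨X⸩, inferInstance, dL Ω, τ, τ', ⟨isDer_dL, fun c => (W2.derL_eq _ _).symm.trans (a1 c)⟩,
    fun a => ⟨⟨isDer_dL, fun c => (W2.derL_eq _ _).symm.trans (a2 a c)⟩, a3 a, a4 a⟩⟩

theorem commuteS : CommuteStmt := by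
  intro U _ _ D δ hD hδ
  obtain ⟨τ, t0, t1, t2⟩ := exists_tayl hD (RingHom.id U)
  refine ⟨U⸨X⸩, inferInstance, dL U, cwL δ, (coeL U).comp τ, ⟨isDer_dL, fun c => ?_⟩, hδ.coefL,
    dL_cwL δ, fun c h => ?_, fun c h => ?_⟩
  · rw [RingHom.comp_apply, dL_coeL, t1, RingHom.comp_apply]
  · rw [RingHom.comp_apply, cwL_coeL, ← map_zero (coeL U)] at h
    have := congrArg cc (coeL_inj h)
    rwa [cc_cw, t0, map_zero] at this
  · have : cw δ (τ c) = 0 := by
      ext n
      rw [coeff_cw, t2, hδ.const_mul (hδ.rat _), RingHom.id_apply, h, mul_zero, map_zero]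
    rw [RingHom.comp_apply, cwL_coeL, this, map_zero]

theorem pairAbsS : PairAbsStmt := by
  intro B A Ω S _ _ _ _ _ _ g ι ι' _ _ e φ i0 ψ1 ψ2 hn hs hφ hg h0 h1 hψ
  let _ : Algebra B A := g.toAlgebra
  have sp : Submodule.span B (Set.range e) = ⊤ := by
    rw [eq_top_iff]
    intro a _
    obtain ⟨c, rfl⟩ := hs a
    exact Submodule.sum_mem _ fun i _ =>
      Submodule.smul_mem _ (c i) (Submodule.subset_span ⟨i, rfl⟩)
  obtain ⟨i, hi⟩ := Esc.pair_abs e sp hn φ hφ (fun i j c => (hg i c).trans (hg j c).symm) i0 h0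
    ψ1 ψ2 h1 hψ
  exact ⟨i, fun a => (hi a a).symm.trans eq_comm⟩

end Pool.Agent.MP_05b4bd_ag.ES

end MrgPart3

-- marker of a merged file
example : 731051 + 44157 = 731051 + 44157 := rfl

end MrgPart1

-- marker of a merged file
example : 731051 + 44157 = 731051 + 44157 := rfl
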