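import Pool.Agent.MP_05b4bd_ag.esc.Bx
import Pool.Agent.MP_05b4bd_ag.esc.Symb
import Mathlib.RingTheory.RootsOfUnity.AlgebraicallyClosed

-- ======== part 0: formerly Pool.Agent.MP_05b4bd_ag.esc.A3
section MrgPart0

/-! The normal form of the small case has an inverse integrating factor. -/

namespace Pool.Agent.MP_05b4bd_ag.ES

open PowerSeries LaurentSeries HC

namespace A3

section
variable {O : Type} [CommRing O]

theorem u_CC (r : O) : cw (dX O) (CC r : AA O) = 0 := by rw [CC_apply, cw_C, dX_C, map_zero]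
theorem u_x : cw (dX O) (C X : AA O) = 1 := by rw [cw_C, dX_X, map_one]
theorem u_z : cw (dX O) (X : AA O) = 0 := cw_X isDer_dX.one
theorem u_mapC (m : O⟦X⟧) : cw (dX O) (map C m) = 0 := by
  ext1 n; rw [coeff_cw, coeff_map, dX_C, map_zero]
theorem z_CC (r : O) : dX _ (CC r : AA O) = 0 := dX_C _
theorem u_mul (a b : AA O) : cw (dX O) (a * b) = cw (dX O) a * b + a * cw (dX O) b :=
  isDer_dX.coefw a b
theorem z_mul (a b : O⟦X⟧) : dX O (a * b) = dX O a * b + a * dX O b := isDer_dX a b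
theorem u_one : cw (dX O) (1 : AA O) = 0 := isDer_dX.coefw.one
theorem z_one : dX O 1 = 0 := isDer_dX.one
theorem u_pow (a : AA O) (n : ℕ) : cw (dX O) (a ^ (n + 1)) = (n + 1) * a ^ n * cw (dX O) a := by
  rw [isDer_dX.coefw.pow, Nat.add_sub_cancel, Nat.cast_succ]
theorem z_pow (a : O⟦X⟧) (n : ℕ) : dX O (a ^ (n + 1)) = (n + 1) * a ^ n * dX O a := by
  rw [isDer_dX.pow, Nat.add_sub_cancel, Nat.cast_succ]
theorem c00_CC (r : O) : c00 (CC r : AA O) = r := by simp [c00_apply, CC_apply]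
theorem c00_x : c00 (C X : AA O) = 0 := by simp [c00_apply]
theorem c00_z : c00 (X : AA O) = 0 := by simp [c00_apply]
theorem mapC_C (r : O) : map C (C r) = (CC r : AA O) := map_C _ _

theorem ord_two {c : AA O} (h0 : c00 c = 0) (h1 : c00 (cw (dX O) c) = 0) (h2 : c00 (dX _ c) = 0) :
    Ord2 2 c := by
  have e : ∀ c : AA O, c00 c = co2 0 0 c := fun c => by simp [c00_apply, co2]
  rw [e] at h0 h1 h2
  rw [co2_cw_dX] at h1
  rw [co2_dX] at h2
  intro i j h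
  obtain ⟨rfl, rfl⟩ | ⟨rfl, rfl⟩ | ⟨rfl, rfl⟩ : (i = 0 ∧ j = 0) ∨ (i = 1 ∧ j = 0) ∨ (i = 0 ∧ j = 1) := by
    omega
  · exact h0
  · simpa using h1
  · simpa using h2

/-- The series `(1 + X) ^ a`. -/
theorem exists_pow [Algebra ℚ O] (a : O) : ∃ M : O⟦X⟧, cc M = 1 ∧ (1 + X) * dX O M = C a * M := by
  let c : ℕ → O := fun n =>
    Nat.rec 1 (fun n c => algebraMap ℚ O (1 / (n + 1)) * ((a - n) * c)) n
  have hc : ∀ n : ℕ, c (n + 1) * (n + 1) = (a - n) * c n := fun n => by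
    have e : algebraMap ℚ O (1 / (n + 1)) * (n + 1) = 1 := by
      have : (n + 1 : O) = algebraMap ℚ O (n + 1) := by simp
      rw [this, ← map_mul, one_div_mul_cancel (by positivity), map_one]
    show algebraMap ℚ O (1 / (n + 1)) * ((a - n) * c n) * (n + 1) = _
    linear_combination ((a - n) * c n) * e
  refine ⟨mk c, ?_, ?_⟩
  · rw [← coeff_zero_eq_constantCoeff_apply, coeff_mk]; rfl
  · ext1 n
    rw [add_mul, one_mul, ← thP_apply, map_add, coeff_dX, coeff_thP, coeff_C_mul, coeff_mk,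
      coeff_mk, hc]
    ring

theorem pow_inv [Algebra ℚ O] {M : O⟦X⟧} {n : ℕ} (h0 : cc M = 1)
    (h : (1 + X) * dX O M = -((n : O⟦X⟧) + 1) * M) : (1 + X) ^ (n + 1) * M = 1 := by
  have e : dX O ((1 + X) ^ (n + 1) * M) = 0 := by
    rw [z_mul, z_pow, map_add, z_one, dX_X]
    linear_combination (1 + X) ^ n * h
  rw [eq_C_of_dX e, map_mul, h0]
  simp
end

/-- The resonant coefficient in one variable. -/
theorem fin1 {k : Type} [Field k] [CharZero k] {d n : ℕ} (hd : 1 ≤ d) {N g : k⟦X⟧} {e : k}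
    (h0 : cc N = 1) (hN : (1 + X) ^ (d + 1 + 1) * N = 1)
    (h : X ^ (n + 2) ∣ X * (1 + X) * N * C e -
      (((d : k⟦X⟧) * (1 + X) - ((d : k⟦X⟧) + 1)) * (((n + 1 : ℕ) : k⟦X⟧) * g) + (1 + X) * X * dX k g)) :
    e = 0 := by
  obtain ⟨s, hs⟩ : ∃ s, s = (1 + X) ^ (n * (d + 1) + d + 1) * g := ⟨_, rfl⟩
  have e1 : (1 + X : k⟦X⟧) ^ (n * (d + 1) + d) * (X * (1 + X) * N * C e -
      (((d : k⟦X⟧) * (1 + X) - ((d : k⟦X⟧) + 1)) * (((n + 1 : ℕ) : k⟦X⟧) * g) + (1 + X) * X * dX k g)) =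
      C e * (((1 + X) ^ (n * (d + 1) + d + 1) * N) * X) - (thP k s - C (n + 1 : k) * s) := by
    rw [thP_apply, hs, z_mul, z_pow, map_add, z_one, dX_X]
    simp only [map_add, map_natCast, map_one]
    push_cast
    ring
  have h1 := X_pow_dvd_iff.1 (dvd_mul_of_dvd_right h ((1 + X : k⟦X⟧) ^ (n * (d + 1) + d))) (n + 1)
    (by omega)
  rw [e1, map_sub, map_sub, coeff_thP, coeff_C_mul, coeff_C_mul, coeff_succ_mul_X] at h1
  push_cast at h1
  rw [sub_self, sub_zero] at h1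
  refine (mul_eq_zero.1 h1).resolve_right ?_
  cases n with
  | zero => simp [h0]
  | succ n =>
    have e2 : (1 + X) ^ ((n + 1) * (d + 1) + d + 1) * N = (1 + X) ^ (n * (d + 1) + d) := by
      linear_combination (1 + X) ^ (n * (d + 1) + d) * hN
    have e3 : ((1 + X : k⟦X⟧)) ^ (n * (d + 1) + d) =
        ((1 + Polynomial.X : Polynomial k) ^ (n * (d + 1) + d) : Polynomial k) := by simp
    rw [e2, e3, Polynomial.coeff_coe, Polynomial.coeff_one_add_X_pow]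
    exact Nat.cast_ne_zero.2 (Nat.choose_pos (by nlinarith)).ne'

/-- The reduced equation has no solution. -/
theorem fin2 {k : Type} [Field k] [CharZero k] {d n : ℕ} (hd : 1 ≤ d) {N ε : k⟦X⟧} {g : AA k}
    (h0 : cc N = 1) (hN : (1 + X) ^ (d + 1 + 1) * N = 1)
    (h : Ord2 (n + 1 + (n + 2)) (C ε * X * (1 + X) * map C N -
      (((d : AA k) * C X * (1 + X) - ((d : AA k) + 1) * C X) * cw (dX k) g + (1 + X) * X * dX _ g))) :
    coeff (n + 1) ε = 0 := by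
  let π : k⟦X⟧ →+ k := (coeff (n + 1)).toAddMonoidHom
  have p : ∀ f c, cw π (map C f * c) = f * cw π c := cw_proj fun a b => coeff_C_mul _ _ _
  have e1 : cw π (C X * cw (dX k) g) = ((n + 1 : ℕ) : k⟦X⟧) * cw π g := by
    ext1 j
    rw [← map_natCast (C : k →+* k⟦X⟧), coeff_C_mul, coeff_cw, coeff_cw, coeff_C_mul, coeff_cw,
      ← thP_apply]
    exact coeff_thP _ _
  have e2 : C ε * X * (1 + X) * map C N -
      (((d : AA k) * C X * (1 + X) - ((d : AA k) + 1) * C X) * cw (dX k) g + (1 + X) * X * dX _ g) =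
      map C (X * (1 + X) * N) * C ε - (map C ((d : k⟦X⟧) * (1 + X) - ((d : k⟦X⟧) + 1)) *
        (C X * cw (dX k) g) + map C ((1 + X : k⟦X⟧) * X) * dX _ g) := by
    simp only [map_mul, map_add, map_sub, map_one, map_X, map_natCast]
    ring
  refine fin1 (n := n) (g := cw π g) hd h0 hN (X_pow_dvd_iff.2 fun j hj => ?_)
  have := h (n + 1) j (by omega)
  rw [e2] at this
  have e3 := coeff_cw π (map C (X * (1 + X) * N) * C ε -
    (map C ((d : k⟦X⟧) * (1 + X) - ((d : k⟦X⟧) + 1)) * (C X * cw (dX k) g) +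
      map C ((1 + X : k⟦X⟧) * X) * dX _ g)) j
  rw [map_sub, map_add, p, p, p, e1, cw_C, ← dX_cw] at e3
  exact e3.trans this

/-- The free term is affine. -/
theorem aff (hL : LowStmt) {k : Type} [Field k] [CharZero k] {d : ℕ} (hd : 1 ≤ d)
    {l Γ β U : k⟦X⟧} {E : AA k} (hβ : cc β = 0) (β0 : β ≠ 0) (hU : cc U = 0) (hl : cc l = d)
    (hΓ : cc Γ = 0) (rE : red E = -(((d : k⟦X⟧) + 1) * X))
    (hc : CenN (coeL k) (X * (X - CC β)) (-(CC l * C X * X + C (C β * E) + CC Γ * X ^ (d + 1))) U β) :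
    E - C (cc E) + C (l + 1) * X = 0 := by
  obtain ⟨γ, hγ⟩ : ∃ γ, γ = Γ * β ^ d := ⟨_, rfl⟩
  obtain ⟨ρ, hρ⟩ : ∃ ρ, ρ = algebraMap ℚ k⟦X⟧ (1 / 2) * (l * U + (d + 1) * γ) := ⟨_, rfl⟩
  have γ0 : cc γ = 0 := by rw [hγ, map_mul, hΓ, zero_mul]
  have ρ0 : cc ρ = 0 := by simp [hρ, hU, γ0]
  have ρ2 : 2 * ρ = l * U + (d + 1) * γ := by
    have : (2 : k⟦X⟧) = algebraMap ℚ k⟦X⟧ 2 := (map_ofNat _ 2).symm
    rw [hρ, ← mul_assoc, this, ← map_mul]; norm_num
  obtain ⟨V, hV⟩ : ∃ V : AA k⟦X⟧, V = CC U + C X + CC ρ * X := ⟨_, rfl⟩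
  let J := up (up (up (⊥ : Ideal k)))
  have mJ : ∀ {c : AA k⟦X⟧}, cc (c00 c) = 0 → c ∈ J := fun h => h
  have V0 : c00 V = U := by simp [hV, c00_CC, c00_x, c00_z]
  have mV : V ∈ J := mJ (by rw [V0, hU])
  have mZ : CC β * (1 + X) ∈ J := mJ (by simp [c00_CC, hβ])
  have Vu : cw (dX _) V = 1 := by simp [hV, u_CC, u_x, u_z, u_mul]
  have Vz : dX _ V = CC ρ := by simp [hV, z_CC, dX_C, dX_X, z_mul]
  let e : AA k →+* AA k⟦X⟧ := ev CC V
  have eC : ∀ r, e (C r) = CC r := ev_C J mV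
  have eX : e X = V := ev_X J mV
  have ch : ∀ {δ : AA k⟦X⟧ →+ AA k⟦X⟧}, IsDer δ → (∀ r, δ (CC r) = 0) → ∀ f,
      δ (e f) = e (dX _ f) * δ V := fun {δ} h1 h2 f => by
    have := hom_chain J (g := e) (by rwa [eX]) h1 (L := 0) (fun _ _ => by simp) (a := 0)
      (fun r => by rw [eC, h2, zero_mul]) f
    rwa [zero_mul, zero_add, eX] at this
  have eu : ∀ f, cw (dX _) (e f) = e (dX _ f) := fun f => by
    rw [ch isDer_dX.coefw u_CC, Vu, mul_one]
  have ez : ∀ f, dX _ (e f) = e (dX _ f) * CC ρ := fun f => by rw [ch isDer_dX z_CC, Vz]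
  obtain ⟨Q, hQ⟩ : ∃ Q : AA k⟦X⟧, Q = (1 + X) * X := ⟨_, rfl⟩
  obtain ⟨P, hP⟩ : ∃ P : AA k⟦X⟧,
    P = CC l * V * (1 + X) + e E + CC γ * (1 + X) ^ (d + 1) - CC ρ * Q := ⟨_, rfl⟩
  let Φ : AA k⟦X⟧ →+* AA k⟦X⟧ := ev2 CC V (CC β * (1 + X))
  have ΦC : ∀ f, Φ (C f) = e f := ev2_C J mZ
  have ΦCC : ∀ r, Φ (CC r) = CC r := ev2_CC J mV mZ
  have Φx : Φ (C X) = V := ev2_CX J mV mZ
  have Φz : Φ X = CC β * (1 + X) := ev2_X J mZ
  have βn : coeL k β ≠ 0 := fun h => β0 (coeL_inj (by rw [h, map_zero]))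
  have e0 : ∀ c : AA k⟦X⟧, ev2 (RingHom.id _) 0 0 c = c00 c := ev2_zero _
  have cen : CenN (coeL k) Q (-P) 0 0 := by
    refine hc.trans (RingHom.id _) (RingHom.id _) (fun _ => rfl) hU hβ (by simp) Φ ΦCC
      (by rw [Φx, V0, hU]) (by simp [Φz, c00_CC, hβ]) (by simp) (by simp) (by rw [e0, Φx, V0]; rfl)
      (by simp [e0, Φz, c00_CC, c00_z]) ?_ (lam := CC β ^ 2) ?_ ?_ ?_
    · simpa [e0, Φx, Φz, Vu, u_mul, u_CC, u_one, u_z, z_mul, z_CC, z_one, dX_X, c00_CC] using βn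
    · simpa [e0, c00_CC] using βn
    · simp only [Φx, Φz, Vu, u_mul, u_CC, u_one, u_z, map_add, map_mul, map_sub, ΦCC, hQ]
      ring
    · simp only [Φx, Φz, Vz, z_mul, z_CC, z_one, dX_X, map_add, map_mul, map_sub, map_neg, map_pow,
        ΦCC, ΦC, eC, hQ, hP, hγ, mul_pow]
      ring
  have cab : Cab (cw (dX _)) (dX _) ((coeL k).comp c00) Q (-P) := by
    have : ev2 (RingHom.id k⟦X⟧) 0 0 = c00 := RingHom.ext e0
    rwa [CenN, this] at cen
  have Pu : cw (dX _) P = CC l * (1 + X) + e (dX _ E) := by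
    simp only [hP, hQ, map_add, map_sub, u_mul, u_pow, u_CC, u_one, u_z, Vu, eu]
    ring
  have Pz : dX _ P = (CC l * (1 + X) + e (dX _ E)) * CC ρ + CC l * V +
      CC γ * ((d : AA k⟦X⟧) + 1) * (1 + X) ^ d - CC ρ * (1 + 2 * X) := by
    simp only [hP, hQ, map_add, map_sub, z_mul, z_pow, z_CC, z_one, dX_X, Vz, ez]
    ring
  have Qz : dX _ Q = 1 + 2 * X := by
    simp only [hQ, map_add, z_mul, z_one, dX_X]
    ring
  have P0 : c00 P = 0 := coeL_inj (by simpa using cab.2.1)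
  have tr : c00 (CC l * (1 + X) + e (dX _ E)) = -1 := coeL_inj (by
    have := cab.trace isDer_dX.coefw isDer_dX (fun s => (dX_cw _ s).symm)
    rw [map_neg, Pu, Qz] at this
    simp only [RingHom.comp_apply, map_neg, map_add, map_one, map_mul, c00_z, mul_zero,
      add_zero, map_zero] at this ⊢
    linear_combination this)
  have o1 : Ord2 2 (P - CC (-1) * C X) := by
    refine ord_two (by simp [P0, c00_x]) ?_ ?_
    · rw [map_sub, Pu, map_sub, tr]; simp [u_x]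
    · rw [map_sub, Pz, map_sub, map_sub, map_add, map_add, map_mul, tr]
      simp only [map_mul, map_add, map_pow, map_one, map_natCast, c00_CC, c00_z, V0, z_mul, z_CC,
        dX_C, map_zero]
      linear_combination -ρ2
  have o2 : Ord2 2 (Q + CC (-1) * X) := by
    refine ord_two (by simp [hQ, c00_z]) (by simp [hQ, u_mul, u_z, u_one]) ?_
    simp [Qz, dX_X, c00_z]
  by_contra h
  obtain ⟨s, ε, h1, h2⟩ := exists_tfac h
  obtain ⟨N, N0, hN⟩ := exists_pow (-(l + 2))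
  obtain ⟨I, hI, -⟩ := exists_int (R := k⟦X⟧)
  have hN' := congrArg (map (C : k⟦X⟧ →+* AA k)) hN
  have h3 := congrArg e h1
  simp only [map_mul, map_add, map_sub, map_neg, map_one, map_pow, map_X, mapC_C, eC, eX,
    map_ofNat] at hN' h3
  have key := (hL k⟦X⟧ k⸨X⸩ (coeL k) (-1) P Q coeL_inj isUnit_one.neg o1 o2 cab).2 (X ^ s)
    (e ε * X * (1 + X) * map C N)
    (V * X * (1 + X) * map C N - map C (I (N * (C (cc E) + C γ * (1 + X) ^ (d + 1)))))
    (pow_ne_zero _ X_ne_zero) (by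
      simp only [map_sub, map_add, u_mul, z_mul, u_mapC, u_z, u_one, z_one, Vu, Vz, dX_X, dX_map, hI,
        map_mul, map_pow, map_one, map_X, mapC_C]
      rw [hP, hQ]
      linear_combination (X * (1 + X) * map C N) * h3 + (V * X ^ 2 * (1 + X)) * hN')
  let π : AA k⟦X⟧ →+* AA k := mA cc
  have πV : π V = C X := by simp [π, hV, mA_CC, mA_CX, hU, ρ0]
  have πe : ∀ f, π (e f) = C (red f) := by
    have m : (C X : AA k) ∈ up (up ⊥) := by simp [mem_up2, c00_x]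
    have : π.comp e = (C : k⟦X⟧ →+* AA k).comp red := by
      refine homExt (up (up ⊥)) (fun r => ?_) ?_ ?_
      · rw [RingHom.comp_apply, RingHom.comp_apply, eC, red_C, mA_CC, CC_apply]
      · rw [RingHom.comp_apply, RingHom.comp_apply, eX, red_X, πV]
      · rwa [RingHom.comp_apply, eX, πV]
    exact RingHom.congr_fun this
  have πm : ∀ f : AA k, π (map C f) = map C (red f) := fun f => by
    ext1 j; simp [π, mA, coeff_red]
  have πu : ∀ g, π (cw (dX _) g) = cw (dX k) (π g) := fun g =>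
    (cw_map' (φ := map (cc : k⟦X⟧ →+* k)) (fun a => dX_map cc a) g).symm
  have πz : ∀ g, π (dX _ g) = dX _ (π g) := fun g => (dX_map _ g).symm
  have πC : ∀ r, π (CC r) = CC (cc r) := mA_CC _
  have πX : π X = X := mA_X _
  have n0 : cc (red N) = 1 := by rw [cc_red, c00_apply, N0, map_one]
  have n1 : (1 + X) ^ (d + 1 + 1) * red N = 1 := by
    refine pow_inv n0 ?_
    have := congrArg red hN
    simp only [map_mul, map_add, map_neg, map_one, red_X, red_C, hl, map_ofNat, map_natCast] at this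
    have e : dX k (red N) = red (dX _ N) := dX_map _ _
    rw [e]
    push_cast
    linear_combination this
  refine h2 (PowerSeries.ext fun n => ?_)
  cases n with
  | zero =>
    have := congrArg cc h1
    simp only [map_add, map_sub, map_mul, map_pow, constantCoeff_C, constantCoeff_X, sub_self,
      mul_zero, add_zero] at this
    rw [coeff_red, coeff_zero_eq_constantCoeff_apply,
      (mul_eq_zero.1 this.symm).resolve_left (pow_ne_zero _ X_ne_zero), map_zero, map_zero]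
  | succ n =>
    obtain ⟨g, hg⟩ := key (n + 1 + (n + 2))
    refine fin2 (g := π g) hd n0 n1 fun i j hij => ?_
    have := co2_mA cc i j (e ε * X * (1 + X) * map C N - (P * cw (dX _) g + Q * dX _ g))
    rw [hg i j hij, map_zero] at this
    rw [← this]
    congr 1
    show _ = π _
    simp only [hP, hQ, map_sub, map_add, map_mul, map_pow, map_one, πe, πm, πu, πz, πC, πX, πV, hl,
      γ0, ρ0, rE, map_zero, map_neg, map_natCast]
    ring

end A3

open A3 in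
theorem a3S (hL : LowStmt) : A3Stmt := by
  rintro k _ _ d κ Γ β U eh hd ⟨hβ, β0, hU, hκ, hΓ, ⟨E1, hE1⟩, hc⟩
  obtain ⟨E, hE, rE⟩ : ∃ E : AA k, eh = C β * E ∧ red E = -(((d : k⟦X⟧) + 1) * X) := by
    refine ⟨C X * E1 - ((d : AA k) + 1) * X, ?_, by simp [red_C, red_X]⟩
    simp only [map_mul, map_add, map_natCast, map_one] at hE1
    linear_combination hE1
  subst hE
  have key := aff hL hd hβ β0 hU (l := (d : k⟦X⟧) + κ) (by simp [hκ]) hΓ rE hc
  have un : IsUnit ((d : k⟦X⟧) + κ + 1) := by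
    rw [isUnit_iff_constantCoeff]
    simp only [map_add, map_natCast, hκ, map_one, add_zero]
    exact (Nat.cast_add_one_ne_zero d).isUnit
  obtain ⟨v, hv⟩ := un.exists_right_inv
  obtain ⟨c, hc'⟩ : ∃ c, c = β * cc E * v := ⟨_, rfl⟩
  have e1 : (C (C β * E) : AA k⟦X⟧) = CC ((d : k⟦X⟧) + κ + 1) * (CC c - CC β * C X) := by
    rw [CC_apply, CC_apply, CC_apply, ← map_mul, ← map_sub, ← map_mul, hc']
    have := congrArg (C : k⟦X⟧ →+* AA k) hv
    rw [map_mul, map_one] at this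
    rw [map_mul C _ v, map_mul C β (cc _)]
    congr 1
    linear_combination C β * key - C β * C (cc E) * this
  rw [e1]
  by_cases h : κ = 0
  · refine ⟨X ^ (d + 1 + 1), pow_ne_zero _ X_ne_zero, ?_⟩
    simp only [map_neg, map_add, map_sub, u_mul, z_mul, u_pow, z_pow, u_CC, z_CC, u_x, u_z, dX_X]
    simp only [h, map_natCast, map_one, map_zero]
    push_cast
    ring
  · refine ⟨CC κ * (X * ((X - CC β) * C X + CC c)) + CC Γ * X ^ (d + 1 + 1), fun h0 => h ?_, ?_⟩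
    · have h1 := congrArg (fun x => c00 (dX _ (dX _ (cw (dX _) x)))) h0
      simp only [map_add, map_sub, u_mul, z_mul, u_pow, u_CC, z_CC, u_x, u_z, dX_X, map_zero,
        mul_zero, zero_mul, add_zero, zero_add, mul_one, one_mul, sub_zero, map_mul, map_one,
        c00_CC] at h1
      have h2 := congrArg (algebraMap ℚ k⟦X⟧ (1 / 2) * ·) h1
      have : (1 + 1 : k⟦X⟧) = algebraMap ℚ k⟦X⟧ (1 + 1) := by rw [map_add, map_one]
      simp only [this] at h2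
      rwa [mul_left_comm, ← map_mul, mul_zero, show (1 / 2 * (1 + 1) : ℚ) = 1 by norm_num, map_one,
        mul_one] at h2
    · simp only [map_neg, map_add, map_sub, u_mul, z_mul, u_pow, z_pow, u_CC, z_CC, u_x, u_z, dX_C,
        dX_X]
      simp only [map_natCast, map_one]
      push_cast
      ring

end Pool.Agent.MP_05b4bd_ag.ES

end MrgPart0

-- ======== part 1: formerly Pool.Agent.MP_05b4bd_ag.esc.Disc
section MrgPart1

/-! Escaping centres: deck transformations of a disc. -/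

namespace Pool.Agent.MP_05b4bd_ag.ES

open PowerSeries LaurentSeries K3

namespace Disc

variable {κ : Type} [Field κ]

/-- Division by a series of order `n`. -/
theorem divide {n : ℕ} {f : κ⟦X⟧} (hf : OrdIs n f) (h : κ⟦X⟧) :
    ∃ s, h = ∑ i : Fin n, C (coeff i h) * X ^ (i : ℕ) + f * s := by
  obtain ⟨u, e, hu⟩ := hf.fac
  obtain ⟨v, hv⟩ : IsUnit u := by
    rw [isUnit_iff_constantCoeff, isUnit_iff_ne_zero]
    exact hu ▸ hf.1
  obtain ⟨r, hr⟩ : X ^ n ∣ h - ∑ i : Fin n, C (coeff i h) * X ^ (i : ℕ) := by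
    rw [X_pow_dvd_iff]
    intro m hm
    rw [map_sub, map_sum, Finset.sum_eq_single ⟨m, hm⟩]
    · simp
    · intro i _ hi
      rw [coeff_C_mul, coeff_X_pow, if_neg fun c => hi (Fin.ext c.symm), mul_zero]
    · simp
  refine ⟨(v⁻¹ : κ⟦X⟧ˣ) * r, ?_⟩
  rw [e, ← hv, mul_assoc, Units.mul_inv_cancel_left, ← hr]
  ring

theorem cc_eq_zero {n : ℕ} (hn : 1 ≤ n) {f : κ⟦X⟧} (hf : OrdIs n f) : cc f = 0 := by
  simpa using hf.2 0 hn

theorem dX_ne [CharZero κ] {n : ℕ} (hn : 1 ≤ n) {f : κ⟦X⟧} (hf : OrdIs n f) : dX κ f ≠ 0 := by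
  intro h
  have := coeff_dX f (n - 1)
  rw [h, map_zero, Nat.sub_add_cancel hn] at this
  exact mul_ne_zero hf.1 (Nat.cast_add_one_ne_zero _) this.symm

theorem ne1 [CharZero κ] {n : ℕ} (hn : 1 ≤ n) {f σ : κ⟦X⟧} (hf : OrdIs n f) (h1 : cc σ = 0)
    (h2 : σ ≠ 0) : ((coeL κ).comp (sb σ)) (dX κ f) ≠ 0 := by
  rw [RingHom.comp_apply, map_ne_zero_iff _ coeL_inj, map_ne_zero_iff _ (sb_inj h1 h2)]
  exact dX_ne hn hf

/-- The outer deck transformations. -/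
theorem outer [CharZero κ] (ε : ℕ) {ν : ℕ} (hν : 1 ≤ ν) {ω : κ} (hω : IsPrimitiveRoot ω ν)
    {y : AA κ} (hy : OrdIs ν (red y)) :
    ∃ (σ : Fin ν → κ⟦X⟧) (Φ : Fin ν → AA κ →+* TT κ), Φ ⟨0, hν⟩ = out ε ∧ ∀ i, cc (σ i) = 0 ∧
      coeff 1 (σ i) = ω ^ (i : ℕ) ∧ sb (σ i) (red y) = red y ∧
      IsOut ε (Φ i) ((coeL κ).comp (sb (σ i))) ∧ cc (Φ i X) = coeL κ (σ i) ∧ cc (Φ i (C X)) = 0 ∧
      ∀ g, Φ i (ev2 CC (tA κ ε) y g) = out ε (ev2 CC (tA κ ε) y g) := by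
  have := charL (κ := κ)
  have b0 := cc_eq_zero hν hy
  have y0 : c00 y = 0 := (cc_red y).symm.trans b0
  have w1 : coeL κ X ≠ 0 := (map_ne_zero_iff _ coeL_inj).2 X_ne_zero
  have k : ∀ i : Fin ν, ∃ (σ : κ⟦X⟧) (Φ : AA κ →+* TT κ), OrdIs 1 σ ∧ coeff 1 σ = ω ^ (i : ℕ) ∧
      sb σ (red y) = red y ∧ IsOut ε Φ ((coeL κ).comp (sb σ)) ∧ Φ y = out ε y := by
    intro i
    obtain ⟨σ, s1, s2, s3⟩ := exists_sig hν hy le_rfl (γ := red y) (by rwa [mul_one])
      (ζ := ω ^ (i : ℕ)) (by rw [mul_one, ← pow_mul, mul_comm _ ν, pow_mul, hω.pow_eq_one]; simp)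
    have s0 := cc_eq_zero le_rfl s1
    have sn : σ ≠ 0 := fun c => s1.1 (by rw [c, map_zero])
    obtain ⟨Φ, p1, p2⟩ := exists_deck ε (ne0 s0 sn) (ne1 hν hy s0 sn) (η := out ε y)
      (by rw [cc_out, RingHom.comp_apply, s3])
    exact ⟨σ, Φ, s1, s2, s3, p1, p2⟩
  choose σ Φ s1 s2 s3 p1 p2 using k
  have s0 := fun i => cc_eq_zero le_rfl (s1 i)
  have sn : ∀ i, σ i ≠ 0 := fun i c => (s1 i).1 (by rw [c, map_zero])
  refine ⟨σ, Φ, ?_, fun i => ⟨s0 i, s2 i, s3 i, p1 i, ?_, ?_, fun g => ?_⟩⟩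
  · have e : σ ⟨0, hν⟩ = X := sig_unique hν hy (s0 _) (by simp) (s1 _).1 (by simp [s2])
      (by rw [s3, sb_id])
    have h := p1 ⟨0, hν⟩
    have h1 := ne1 hν hy (s0 ⟨0, hν⟩) (sn _)
    have e' : (coeL κ).comp (sb (σ ⟨0, hν⟩)) = coeL κ := RingHom.ext fun f => by
      rw [RingHom.comp_apply, e, sb_id]
    rw [e'] at h h1
    exact h.deck_unique (isOut_out ε) w1 h1 (p2 _)
  · rw [(p1 i).ccX, RingHom.comp_apply, sb_X (s0 i)]
  · exact X_dvd_iff.1 ((p1 i).unit (ne0 (s0 i) (sn i))).2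
  · refine (p1 i).agree (ne0 (s0 i) (sn i)) (isOut_out ε) w1 y0 y0 (p2 i) (fun f => ?_) g
    rw [RingHom.comp_apply, sb_sb (s0 i) b0, s3]

/-- Generators over the ring of series in `t` and `y`. -/
theorem gens {t y : AA κ} (ht : c00 t = 0) (hy : c00 y = 0) {ι : Type} [Fintype ι] (e : ι → AA κ)
    (h : ∀ a, ∃ (r : ι → κ) (s : AA κ), t ∣ a - ∑ i, CC (r i) * e i - y * s) (a : AA κ) :
    ∃ c : ι → AA κ, a = ∑ i, ev2 CC t y (c i) * e i := by
  have mt : t ∈ up (up (⊥ : Ideal κ)) := mem_up2.2 ht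
  have my : y ∈ up (up (⊥ : Ideal κ)) := mem_up2.2 hy
  have a1 := Ideal.mem_map_of_mem (ev2 CC t y) (I := up (up (⊥ : Ideal κ))) (x := C X)
    (by simp [mem_up])
  have a2 := Ideal.mem_map_of_mem (ev2 CC t y) (I := up (up (⊥ : Ideal κ))) (x := X)
    (by simp [mem_up])
  rw [ev2_CX _ mt my] at a1
  rw [ev2_X _ my] at a2
  refine nak (up (up (⊥ : Ideal κ))) (up (up (⊥ : Ideal κ))) (ev2 CC t y) ?_ e (fun b => ?_) a
  · rw [Ideal.map_le_iff_le_comap]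
    intro c hc
    obtain ⟨r, r', e⟩ := ev2_sub_c00 _ (φ := CC) mt my c
    rw [Ideal.mem_comap, e, Ideal.mem_bot.1 (mem_up2.1 hc), map_zero, zero_add]
    exact Ideal.add_mem _ (Ideal.mul_mem_right _ _ mt) (Ideal.mul_mem_right _ _ my)
  · obtain ⟨r, s, u, hu⟩ := h b
    refine ⟨fun i => CC (r i), ?_⟩
    simp only [ev2_CC _ mt my]
    rw [sub_eq_iff_eq_add.1 hu]
    exact Ideal.add_mem _ (Ideal.mul_mem_right _ _ a1) (Ideal.mul_mem_right _ _ a2)

/-- The abstract statement for maps into `TT κ`. -/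
theorem pair (hP : PairAbsStmt) {S : Type} [CommRing S] [IsDomain S] (g : AA κ →+* AA κ)
    {ι : Type} [Fintype ι] (e : ι → AA κ) (φ : ι → AA κ →+* TT κ) (i0 : ι) (ψ1 ψ2 : AA κ →+* S)
    (h1 : ∀ a, ∃ c : ι → AA κ, a = ∑ i, g (c i) * e i) (h2 : Function.Injective φ)
    (h3 : ∀ i b, φ i (g b) = φ i0 (g b)) (h4 : Function.Injective (φ i0))
    (h5 : Function.Injective ψ1) (h6 : ∀ b, ψ1 (g b) = ψ2 (g b)) :
    ∃ i, ∀ a, φ i a = φ i0 a ↔ ψ1 a = ψ2 a := by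
  have j := IsFractionRing.injective (TT κ) (FractionRing (TT κ))
  obtain ⟨i, hi⟩ := hP _ _ _ S g ι ι e (fun i => (algebraMap _ (FractionRing (TT κ))).comp (φ i)) i0
    ψ1 ψ2 le_rfl h1 (fun i i' h => h2 (RingHom.ext fun a => j (RingHom.congr_fun h a)))
    (fun i b => by rw [RingHom.comp_apply, h3, RingHom.comp_apply]) (j.comp h4) h5 h6
  exact ⟨i, fun a => j.eq_iff.symm.trans (hi a)⟩

end Disc

open Disc

theorem discS (hP : PairAbsStmt) : DiscStmt := by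
  intro κ S _ _ _ _ ν ω y ψ1 ψ2 hν hω hy inj hg ne
  obtain ⟨σ, Φ, e0, h⟩ := outer 0 hν hω hy
  have t0 : tA κ 0 = C X := by rw [tA, pow_zero, mul_one]
  have ev0 : ev (CC : κ →+* AA κ) (tA κ 0) = C :=
    homExt _ (fun r => ev_C _ (tA_mem 0) r) (by rw [ev_X _ (tA_mem 0), t0])
      (by rw [ev_X _ (tA_mem 0)]; exact tA_mem 0)
  obtain ⟨i, hi⟩ := pair hP (ev2 CC (tA κ 0) y) (fun i : Fin ν => X ^ (i : ℕ)) Φ ⟨0, hν⟩ ψ1 ψ2
    (gens (t := tA κ 0) (tA_mem 0) ((cc_red y).symm.trans (cc_eq_zero hν hy)) _ fun a => by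
      obtain ⟨s, hs⟩ := divide hy (red a)
      refine ⟨fun i => coeff i (red a), map C s, ?_⟩
      rw [t0, ← red_eq_zero, map_sub, map_sub, map_mul, red_mapC, map_sum, sub_sub, sub_eq_zero]
      simpa only [map_mul, map_pow, red_X, CC_apply, red_C, constantCoeff_C] using hs)
    (fun i j c => Fin.ext (hω.pow_inj i.2 j.2 (by
      rw [← (h i).2.1, ← (h j).2.1, coeL_inj ((h i).2.2.2.2.1.symm.trans (c ▸ (h j).2.2.2.2.1))])))
    (fun i b => by rw [(h i).2.2.2.2.2.2, e0]) (e0 ▸ out_inj 0) inj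
    (fun b => by rw [ev2, ev0]; exact hg b)
  refine ⟨Φ i, σ i, (h i).2.2.2.1, (h i).1, ?_, ?_, (h i).2.2.1, fun c => ?_⟩
  · rw [(h i).2.1, ← pow_mul, mul_comm, pow_mul, hω.pow_eq_one, one_pow]
  · rw [(h i).2.1]
    refine hω.pow_ne_one_of_pos_of_lt (fun c => ne (RingHom.ext fun a => (hi a).1 ?_)) i.2
    rw [show i = ⟨0, hν⟩ from Fin.ext c]
  · rw [← hi c, e0, out_zero]

end Pool.Agent.MP_05b4bd_ag.ES

end MrgPart1

-- ======== part 2: formerly Pool.Agent.MP_05b4bd_ag.esc.Ann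
section MrgPart2

/-! Escaping centres: deck transformations of an annulus. -/

namespace Pool.Agent.MP_05b4bd_ag.ES

open PowerSeries LaurentSeries K3 Disc

namespace Ann

variable {κ : Type} [Field κ]

theorem prim [CharZero κ] [IsAlgClosed κ] {n : ℕ} (hn : 1 ≤ n) : ∃ ω : κ, IsPrimitiveRoot ω n :=
  have : NeZero (n : κ) := ⟨Nat.cast_ne_zero.2 (by omega)⟩
  HasEnoughRootsOfUnity.exists_primitiveRoot κ n

theorem ord_pos {f : κ⟦X⟧} (h : f ≠ 0) (h0 : cc f = 0) : ∃ n, 1 ≤ n ∧ OrdIs n f := by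
  obtain ⟨n, hn⟩ := exists_ordIs h
  refine ⟨n, Nat.pos_of_ne_zero ?_, hn⟩
  rintro rfl
  exact hn.1 (by simpa using h0)

theorem tA_dvd {c : AA κ} (h1 : cc c = 0) (h2 : red c = 0) : tA κ 1 ∣ c := by
  rw [← pow_one (tA κ 1), tA_pow_dvd_iff]
  rintro i j (h | h)
  · obtain rfl : i = 0 := by omega
    rw [co2, coeff_zero_eq_constantCoeff_apply, ← coeff_red, h2, map_zero]
  · obtain rfl : j = 0 := by omega
    rw [co2, coeff_zero_eq_constantCoeff_apply, h1, map_zero]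

/-- The generators `q ^ (j + 1)` and `p ^ j`. -/
noncomputable def eg (κ : Type) [Field κ] (a b : ℕ) : Fin b ⊕ Fin a → AA κ :=
  Sum.elim (fun j => X * X ^ (j : ℕ)) fun j => C (X ^ (j : ℕ))

theorem gen {a b : ℕ} (ha : 1 ≤ a) (hb : 1 ≤ b) {y : AA κ} (h1 : OrdIs a (cc y))
    (h2 : OrdIs b (red y)) (c : AA κ) : ∃ (r : Fin b ⊕ Fin a → κ) (s : AA κ),
      tA κ 1 ∣ c - ∑ i, CC (r i) * eg κ a b i - y * s := by
  obtain ⟨s1, e1⟩ := divide h1 (cc c)
  obtain ⟨h, eh⟩ : X ∣ red c - C (c00 c) - red y * C (cc s1) := by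
    rw [X_dvd_iff]
    simp only [map_sub, map_mul, constantCoeff_C, cc_red]
    rw [← cc_red y, cc_eq_zero hb h2]
    simp
  obtain ⟨s2, e2⟩ := divide h2 h
  refine ⟨Sum.elim (fun j => coeff j h) fun j => coeff j (cc c), C s1 + X * map C s2,
    tA_dvd ?_ ?_⟩
  · rw [map_sub, map_sub, sub_sub, sub_eq_zero, Fintype.sum_sum_type]
    simpa [CC_apply, eg] using e1
  · have e3 : ∑ j : Fin a, red (CC (coeff j (cc c)) * C (X ^ (j : ℕ))) = C (c00 c) := by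
      rw [Finset.sum_eq_single ⟨0, ha⟩]
      · simp [CC_apply, red_C, c00_apply]
      · intro j _ hj
        have : (j : ℕ) ≠ 0 := fun c => hj (Fin.ext c)
        simp [red_C, this]
      · simp
    have e4 : ∑ j : Fin b, red (CC (coeff j h) * (X * X ^ (j : ℕ))) =
        X * ∑ j : Fin b, C (coeff j h) * X ^ (j : ℕ) := by
      rw [Finset.mul_sum]
      refine Finset.sum_congr rfl fun j _ => ?_
      simp only [map_mul, map_pow, red_X, CC_apply, red_C, constantCoeff_C]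
      ring
    rw [map_sub, map_sub, map_sum, Fintype.sum_sum_type]
    simp only [eg, Sum.elim_inl, Sum.elim_inr]
    rw [e3, e4, map_mul, map_add, map_mul, red_X, red_mapC, red_C]
    linear_combination eh + X * e2

theorem ord_ram {a b : ℕ} (ha : 1 ≤ a) {f : κ⟦X⟧} (h : OrdIs b f) :
    OrdIs (a * b) (ram κ a f) ∧ coeff (a * b) (ram κ a f) = coeff b f := by
  have e : coeff (a * b) (ram κ a f) = coeff b f := by
    rw [coeff_ram ha, if_pos (dvd_mul_right _ _), Nat.mul_div_cancel_left _ ha]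
  refine ⟨⟨e ▸ h.1, fun j hj => ?_⟩, e⟩
  rw [coeff_ram ha, h.2 _ (Nat.div_lt_of_lt_mul hj), ite_self]

theorem swap_ev2 {y : AA κ} (hy : c00 y = 0) (g : AA κ) :
    swap (ev2 CC (tA κ 1) y g) = ev2 CC (tA κ 1) (swap y) g := by
  have e : swap (tA κ 1) = tA κ 1 := by
    rw [tA, pow_one, map_mul, swap_CX, swap_X, mul_comm]
  have m : swap y ∈ up (up (⊥ : Ideal κ)) := by
    rw [mem_up2, c00_apply, cc_swap, cc_red, hy]; exact Ideal.zero_mem _
  have m' : y ∈ up (up (⊥ : Ideal κ)) := mem_up2.2 hy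
  rw [hom_ev2 _ _ (tA_mem 1) m' swap (by rw [e]; exact tA_mem 1) m, e,
    show (swap : AA κ →+* AA κ).comp CC = CC from RingHom.ext swap_CC]

/-- The inner deck transformations. -/
theorem inner [CharZero κ] [IsAlgClosed κ] {a b : ℕ} (ha : 1 ≤ a) (hb : 1 ≤ b) {y : AA κ}
    (h1 : OrdIs a (cc y)) (h2 : OrdIs b (red y)) {ρ : κ⸨X⸩ →+* κ⸨X⸩}
    (hρ : ∀ c, ρ (coeL κ c) = coeL κ (ram κ a c)) :
    ∃ (π : Fin a → κ⟦X⟧) (Φ : Fin a → AA κ →+* TT κ), Function.Injective π ∧ ∀ i, cc (π i) = 0 ∧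
      π i ≠ 0 ∧ (∀ r, Φ i (CC r) = C (cL κ r)) ∧ cc (Φ i (C X)) = coeL κ (π i) ∧
      Φ i (C X) * Φ i X = X ∧
      ∀ g, Φ i (ev2 CC (tA κ 1) y g) = map ρ (out 1 (ev2 CC (tA κ 1) y g)) := by
  have := charL (κ := κ)
  obtain ⟨ω, hω⟩ := prim (κ := κ) ha
  obtain ⟨o1, o2⟩ := ord_ram ha h2
  obtain ⟨z, hz⟩ := IsAlgClosed.exists_pow_nat_eq (coeff b (red y) / coeff a (cc y)) ha
  have z0 : z ≠ 0 := by
    rintro rfl
    exact div_ne_zero h2.1 h1.1 (by rw [← hz, zero_pow (by omega)])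
  have a0 := cc_eq_zero ha h1
  have b0 := cc_eq_zero hb h2
  have y0 : c00 y = 0 := a0
  have y1 : c00 (swap y) = 0 := by rw [c00_apply, cc_swap, b0]
  have xa : cc (X ^ a : κ⟦X⟧) = 0 := by simp; omega
  have w1 : (ρ.comp (coeL κ)) X ≠ 0 :=
    (map_ne_zero_iff _ ρ.injective).2 ((map_ne_zero_iff _ coeL_inj).2 X_ne_zero)
  have k : ∀ i : Fin a, ∃ (π : κ⟦X⟧) (Φ : AA κ →+* TT κ), OrdIs b π ∧ coeff b π = z * ω ^ (i : ℕ) ∧
      sb π (cc y) = ram κ a (red y) ∧ IsOut 1 Φ ((coeL κ).comp (sb π)) ∧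
      Φ (swap y) = map ρ (out 1 y) := by
    intro i
    obtain ⟨π, s1, s2, s3⟩ := exists_sig ha h1 hb o1 (ζ := z * ω ^ (i : ℕ)) (by
      rw [o2, mul_pow, hz, ← pow_mul, mul_comm _ a, pow_mul, hω.pow_eq_one, one_pow, mul_one,
        mul_div_cancel₀ _ h1.1])
    have s0 := cc_eq_zero hb s1
    have sn : π ≠ 0 := fun c => s1.1 (by rw [c, map_zero])
    obtain ⟨Φ, p1, p2⟩ := exists_deck 1 (ne0 s0 sn) (y := swap y)
      (by rw [red_swap]; exact ne1 ha h1 s0 sn) (η := map ρ (out 1 y))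
      (by rw [cc_map, cc_out, hρ, red_swap, RingHom.comp_apply, s3])
    exact ⟨π, Φ, s1, s2, s3, p1, p2⟩
  choose π Φ s1 s2 s3 p1 p2 using k
  have s0 := fun i => cc_eq_zero hb (s1 i)
  have sn : ∀ i, π i ≠ 0 := fun i c => (s1 i).1 (by rw [c, map_zero])
  refine ⟨π, fun i => (Φ i).comp swap, fun i j c => Fin.ext (hω.pow_inj i.2 j.2
    (mul_left_cancel₀ z0 (by rw [← s2, ← s2, c]))),
    fun i => ⟨s0 i, sn i, fun r => ?_, ?_, ?_, fun g => ?_⟩⟩
  · rw [RingHom.comp_apply, swap_CC, (p1 i).map_CC, RingHom.comp_apply, sb_C (s0 i), coeL_C]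
  · rw [RingHom.comp_apply, swap_CX, (p1 i).ccX, RingHom.comp_apply, sb_X (s0 i)]
  · rw [RingHom.comp_apply, RingHom.comp_apply, swap_CX, swap_X, mul_comm]
    simpa using (p1 i).2
  · rw [RingHom.comp_apply, swap_ev2 y0]
    refine (p1 i).agree (ne0 (s0 i) (sn i)) ((isOut_out 1).comp_map ρ) w1 y1 y0 (p2 i)
      (fun f => ?_) g
    rw [RingHom.comp_apply, RingHom.comp_apply, red_swap, sb_sb (s0 i) a0, s3, hρ, ram,
      sb_sb xa b0]

end Ann

open Ann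

theorem annS (hP : PairAbsStmt) : AnnStmt := by
  intro κ S _ _ _ _ _ y ψ1 ψ2 y0 n1 n2 inj hg
  obtain ⟨a, ha, h1⟩ := ord_pos n1 y0
  obtain ⟨b, hb, h2⟩ := ord_pos n2 ((cc_red y).trans y0)
  obtain ⟨ρ, r1, -, r2⟩ := exists_ramL (R := κ) ha
  obtain ⟨ω, hω⟩ := prim (κ := κ) hb
  obtain ⟨σ, Φ, e0, h⟩ := outer 1 hb hω h2
  obtain ⟨π, Ψ, pi, k⟩ := inner ha hb h1 h2 r1
  have ri := map_injective ρ ρ.injective
  obtain ⟨φ, f1, f2⟩ : ∃ φ : Fin b ⊕ Fin a → AA κ →+* TT κ,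
      (∀ i c, φ (Sum.inl i) c = map ρ (Φ i c)) ∧ ∀ i, φ (Sum.inr i) = Ψ i :=
    ⟨Sum.elim (fun i => (map ρ).comp (Φ i)) Ψ, fun _ _ => rfl, fun _ => rfl⟩
  have mix : ∀ i j, φ (Sum.inl i) ≠ φ (Sum.inr j) := fun i j c => (k j).2.1 (coeL_inj (by
    rw [← (k j).2.2.2.1, ← f2, ← c, f1, cc_map, (h i).2.2.2.2.2.1, map_zero, map_zero]))
  have q1 : Function.Injective φ := by
    rintro (i | i) (j | j) c
    · have c' : Φ i X = Φ j X := ri (by rw [← f1, ← f1, c])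
      have c2 : σ i = σ j := coeL_inj (by rw [← (h i).2.2.2.2.1, ← (h j).2.2.2.2.1, c'])
      exact congrArg _ (Fin.ext (hω.pow_inj i.2 j.2 (by rw [← (h i).2.1, ← (h j).2.1, c2])))
    · exact absurd c (mix i j)
    · exact absurd c.symm (mix j i)
    · rw [f2, f2] at c
      exact congrArg _ (pi (coeL_inj (by rw [← (k i).2.2.2.1, ← (k j).2.2.2.1, c])))
  have q2 : ∀ i g, φ i (ev2 CC (tA κ 1) y g) = φ (Sum.inl ⟨0, hb⟩) (ev2 CC (tA κ 1) y g) := by
    rintro (i | i) g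
    · rw [f1, f1, (h i).2.2.2.2.2.2, e0]
    · rw [f1, f2, (k i).2.2.2.2.2, e0]
  have q3 : Function.Injective (φ (Sum.inl ⟨0, hb⟩)) := fun u v c => by
    rw [f1, f1, e0] at c
    exact out_inj 1 (ri c)
  have q0 := gens (Ideal.mem_bot.1 (mem_up2.1 (tA_mem 1))) y0 (eg κ a b) (gen ha hb h1 h2)
  obtain ⟨i, hi⟩ := pair hP (ev2 CC (tA κ 1) y) (eg κ a b) φ _ ψ1 ψ2 (by exact q0) q1
    (by exact q2) q3 inj (by exact hg)
  rcases i with i | i
  · refine Or.inl ⟨Φ i, σ i, (h i).2.2.2.1, (h i).1, ?_, fun c => ?_⟩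
    · rw [(h i).2.1]
      exact pow_ne_zero _ (hω.ne_zero (by omega))
    · rw [← hi c, f1, f1, e0, ri.eq_iff]
  · exact Or.inr ⟨a, ρ, Ψ i, π i, ha, r1, r2, (k i).2.2.1, (k i).1, (k i).2.1, (k i).2.2.2.1,
      (k i).2.2.2.2.1, fun c => by rw [← hi c, f1, f2, e0]⟩

end Pool.Agent.MP_05b4bd_ag.ES

end MrgPart2

-- marker of a merged file
example : 731051 + 257594 = 731051 + 257594 := rfl
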