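import Pool.Agent.MP_05b4bd_ag.esc.Bx
import Pool.Agent.MP_05b4bd_ag.esc.Symb
import Mathlib.RingTheory.RootsOfUnity.AlgebraicallyClosed

/-! Escaping centres: the end of the large case. -/

namespace Pool.Agent.MP_05b4bd_ag.ES

open PowerSeries LaurentSeries HC

namespace Bfin

variable {k : Type} [Field k]

theorem red_DA (ε : ℕ) (c : AA k) : red (DA k ε c) = thP k (red c) := by
  ext n
  have := co2_DA ε 0 n c
  rw [coeff_thP, coeff_red, coeff_red, ← coeff_zero_eq_constantCoeff_apply,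
    ← coeff_zero_eq_constantCoeff_apply]
  simpa [co2] using this

theorem cc_DA (c : AA k) : cc (DA k 1 c) = -thP k (cc c) := by
  ext n
  have := co2_DA 1 n 0 c
  rw [map_neg, coeff_thP, ← coeff_zero_eq_constantCoeff_apply,
    ← coeff_zero_eq_constantCoeff_apply]
  simpa [co2] using this

theorem red_tA (ε : ℕ) : red (tA k ε) = 0 := red_eq_zero.2 (Dvd.intro _ rfl)

theorem cc_tA : cc (tA k 1) = 0 := by simp [tA]

theorem tA_ne (ε : ℕ) : tA k ε ≠ 0 := fun h => by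
  have := out_tA (R := k) ε
  rw [h, map_zero] at this
  exact X_ne_zero this.symm

theorem const_thP [CharZero k] {f : k⟦X⟧} (h : thP k f = 0) : f = C (cc f) := by
  rw [thP_apply] at h
  exact eq_C_of_dX ((mul_eq_zero.1 h).resolve_left X_ne_zero)

/-- One end of the annulus: the two leading functions are not both constant. -/
theorem not_both [CharZero k] {c s a b g0 g1 : k⟦X⟧} (hs : s ≠ 0) (ha : cc a = 0)
    (h : a ≠ 0 ∨ b ≠ 0) (h1 : c * (s * thP k g1) - s * thP k a + b = 0)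
    (h0 : c ^ 2 * (s * thP k g0) - a * b = 0) : thP k g0 = 0 → thP k g1 ≠ 0 := by
  intro e0 e1
  rw [e0] at h0
  rw [e1] at h1
  have b1 : b = s * thP k a := by linear_combination h1
  have b2 : a * b = 0 := by linear_combination -h0
  have b3 : a = 0 := by
    rcases mul_eq_zero.1 b2 with e | e
    · exact e
    · have b4 : thP k a = 0 := (mul_eq_zero.1 (b1.symm.trans e)).resolve_left hs
      rw [const_thP b4, ha, map_zero]
  rcases h with h | h
  · exact h b3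
  · exact h (by rw [b1, b3, map_zero, mul_zero])

theorem one_bad [CharZero k] {u v : k⟦X⟧} (h : u = 0 → v ≠ 0) {i j : ℕ} (hij : i ≠ j)
    (h1 : u + i * v = 0) : u + j * v ≠ 0 := by
  intro h2
  have b1 : ((i : k⟦X⟧) - j) * v = 0 := by linear_combination h1 - h2
  have b2 : (i : k⟦X⟧) - j ≠ 0 := by
    intro e
    have := congrArg cc e
    simp only [map_sub, map_natCast, map_zero] at this
    exact hij (Nat.cast_injective (sub_eq_zero.1 this))
  have b3 : v = 0 := (mul_eq_zero.1 b1).resolve_left b2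
  exact h (by simpa [b3] using h1) b3

theorem pick [CharZero k] {u v u' v' : k⟦X⟧} (h : u = 0 → v ≠ 0) (h' : u' = 0 → v' ≠ 0) :
    ∃ i : ℕ, u + i * v ≠ 0 ∧ u' + i * v' ≠ 0 := by
  by_cases a0 : u + (0 : ℕ) * v = 0
  · by_cases a1 : u' + (1 : ℕ) * v' = 0
    · exact ⟨2, one_bad h (by norm_num) a0, one_bad h' (by norm_num) a1⟩
    · exact ⟨1, one_bad h (by norm_num) a0, a1⟩
  · by_cases b0 : u' + (0 : ℕ) * v' = 0
    · by_cases a1 : u + (1 : ℕ) * v = 0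
      · exact ⟨2, one_bad h (by norm_num) a1, one_bad h' (by norm_num) b0⟩
      · exact ⟨1, a1, one_bad h' (by norm_num) b0⟩
    · exact ⟨0, a0, b0⟩

theorem supp_c00 {ε N d : ℕ} {c : AA k} (hN : 1 ≤ N) (hd : 2 ≤ d) (h : Supp ε (-N) (d * N) c) :
    c00 c = 0 := by
  by_contra e
  have h1 := h 0 0 (by simpa [co2, c00_apply] using e)
  have h2 := Int.le_of_dvd (a := ((d * N : ℕ) : ℤ)) (b := N) (by omega) (by
    simpa using h1.symm.dvd)
  have : d * N ≤ N := by exact_mod_cast h2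
  nlinarith

/-- The leading equations after division by the power of `t`. -/
theorem lead_div {c t a0 b0 g0 g1 : AA k} {D : AA k →+ AA k} (hD : IsDer D) (ht : D t = 0)
    (h0 : t ≠ 0) {e : ℕ} (h : Lead c t D (t ^ e * a0) (t ^ e * b0) (t ^ (2 * e) * g0) (t ^ e * g1)) :
    t ∣ c * D g1 - D a0 + b0 ∧ t ∣ c ^ 2 * D g0 - a0 * b0 := by
  have hp : ∀ m, D (t ^ m) = 0 := fun m => by rw [hD.pow, ht, mul_zero]
  obtain ⟨⟨e1, e2, e3, h1⟩, e4, e5, h2⟩ := h
  rw [hD.const_mul (hp _), hD.const_mul (hp _)] at h1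
  rw [hD.const_mul (hp _)] at h2
  refine ⟨⟨e1 * a0 + e2 * D a0 + e3 * b0, mul_left_cancel₀ (pow_ne_zero e h0) ?_⟩,
    ⟨a0 * (e4 * a0 + e5 * b0), mul_left_cancel₀ (pow_ne_zero (2 * e) h0) ?_⟩⟩
  · linear_combination h1
  · rw [two_mul, pow_add] at h2 ⊢
    linear_combination h2

/-- The rotation `q ↦ ζ q`, `p ↦ p / ζ ^ ε`. -/
noncomputable def mu (ε : ℕ) (ζ : k) : AA k →+* AA k :=
  (rescale (C ζ)).comp (map (rescale (ζ⁻¹ ^ ε)))

theorem co2_mu (ε : ℕ) (ζ : k) (i j : ℕ) (c : AA k) :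
    co2 i j (mu ε ζ c) = ζ ^ j * (ζ⁻¹ ^ ε) ^ i * co2 i j c := by
  simp only [co2, mu, RingHom.comp_apply, coeff_rescale, coeff_map, ← map_pow, coeff_C_mul,
    mul_assoc]

theorem mu_fix {ε N : ℕ} {ζ : k} (h0 : ζ ≠ 0) (hζ : ζ ^ N = 1) {c : AA k} (h : Supp ε 0 N c) :
    mu ε ζ c = c := by
  refine co2_ext fun i j => ?_
  rw [co2_mu]
  by_cases e : co2 i j c = 0
  · rw [e, mul_zero]
  obtain ⟨m, hm⟩ := (h i j e).symm.dvd
  have : ζ ^ j * (ζ⁻¹ ^ ε) ^ i = ζ ^ ((j : ℤ) - ε * i) := by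
    rw [zpow_sub₀ h0, ← pow_mul, inv_pow, div_eq_mul_inv, zpow_natCast, ← Nat.cast_mul,
      zpow_natCast]
  rw [this, show (j : ℤ) - ε * i = N * m by linear_combination hm, zpow_mul, zpow_natCast, hζ,
    one_zpow, one_mul]

theorem mu_X (ε : ℕ) (ζ : k) : mu ε ζ X = CC ζ * X := by
  simp only [mu, RingHom.comp_apply, map_X, rescale_X, CC_apply]

theorem mu_CX (ε : ℕ) (ζ : k) : mu ε ζ (C X) = CC (ζ⁻¹ ^ ε) * C X := by
  simp only [mu, RingHom.comp_apply, map_C, rescale_C', rescale_X, CC_apply, map_mul]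

theorem mu_CC (ε : ℕ) (ζ r : k) : mu ε ζ (CC r) = CC r := by
  simp only [mu, RingHom.comp_apply, map_C, rescale_C', CC_apply]

theorem mu_tA (ε : ℕ) {ζ : k} (h0 : ζ ≠ 0) : mu ε ζ (tA k ε) = tA k ε := by
  have : (CC (ζ⁻¹ ^ ε) : AA k) * CC ζ ^ ε = 1 := by
    rw [← map_pow, ← map_mul, ← mul_pow, inv_mul_cancel₀ h0, one_pow, map_one]
  simp only [tA, map_mul, map_pow (mu ε ζ), mu_X, mu_CX, mul_pow]
  linear_combination (C X * X ^ ε) * this

theorem mu_mapC (ε : ℕ) (ζ : k) (c : k⟦X⟧) : mu ε ζ (map C c) = map C (rescale ζ c) := by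
  refine PowerSeries.ext fun n => ?_
  simp only [mu, RingHom.comp_apply, coeff_rescale, coeff_map, rescale_C', map_mul, map_pow]

theorem isOut_mu (ε : ℕ) {ζ : k} (h0 : ζ ≠ 0) :
    IsOut ε ((out ε).comp (mu ε ζ)) ((coeL k).comp (sb (C ζ * X))) := by
  have h1 : ∀ c, out ε (mu ε ζ (map C c)) = C (coeL k (sb (C ζ * X) c)) := fun c => by
    rw [mu_mapC, out_mapC, rescale_eq_sb]
  refine ⟨⟨fun c => ?_, fun c => ?_⟩, ?_⟩
  · simp only [RingHom.comp_apply, h1, constantCoeff_C]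
  · simp only [RingHom.comp_apply, h1, dX_C, mul_zero]
  · have := mu_tA (k := k) ε h0
    simp only [RingHom.comp_apply]
    rw [← map_pow, ← map_pow, ← map_mul, ← map_mul]
    exact (congrArg (out ε) this).trans (out_tA ε)

theorem root_one [CharZero k] {σ : k⟦X⟧} {N : ℕ} (hN : 1 ≤ N) (h0 : cc σ = 0)
    (h : σ ^ N = X ^ N) : ∃ ζ : k, ζ ≠ 0 ∧ ζ ^ N = 1 ∧ σ = C ζ * X := by
  obtain ⟨u, rfl⟩ := X_dvd_iff.2 h0
  rw [mul_pow] at h
  have h1 : u ^ N = 1 := mul_left_cancel₀ (pow_ne_zero N X_ne_zero) (by rw [h, mul_one])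
  have h2 : u ≠ 0 := fun e => by
    rw [e, zero_pow (by omega)] at h1
    exact zero_ne_one h1
  have h3 : (N : k⟦X⟧) ≠ 0 := fun e => by
    have := congrArg cc e
    rw [map_natCast, map_zero] at this
    exact Nat.cast_ne_zero.2 (by omega) this
  have h4 := isDer_dX.pow u N
  rw [h1, isDer_dX.one] at h4
  have h5 := eq_C_of_dX ((mul_eq_zero.1 h4.symm).resolve_left (mul_ne_zero h3 (pow_ne_zero _ h2)))
  have h6 : cc u ^ N = 1 := by rw [← map_pow, h1, map_one]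
  refine ⟨cc u, fun e => ?_, h6, by rw [mul_comm, ← h5]⟩
  rw [e, zero_pow (by omega)] at h6
  exact zero_ne_one h6

section psi

variable [CharZero k] {ε : ℕ} {ps qs : k⟦X⟧}

theorem u_mem (hp : cc ps = 0) (c : AA k) : C ps * c ∈ up (up (⊥ : Ideal k)) := by
  rw [mem_up2, map_mul, c00_apply (C ps), constantCoeff_C, hp, zero_mul]
  exact zero_mem _

theorem psi_CC (hp : cc ps = 0) (hq : cc qs = 0) (r : k) : psi0 ε ps qs (CC r) = CC r :=
  ev2_CC (up (up ⊥)) (u_mem hp _) (u_mem hq _) r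

theorem psi_X (hq : cc qs = 0) : psi0 ε ps qs X = C qs * map C (exp k) :=
  ev2_X (up (up ⊥)) (u_mem hq _)

theorem psi_c00 (hp : cc ps = 0) (hq : cc qs = 0) (c : AA k) : c00 (psi0 ε ps qs c) = c00 c := by
  obtain ⟨r, r', e⟩ := ev2_sub_c00 (up (up ⊥)) (φ := CC)
    (u_mem hp (map C (rescale (-(ε : k)) (exp k)))) (u_mem hq (map C (exp k))) c
  have h1 := mem_up2.1 (u_mem hp (map C (rescale (-(ε : k)) (exp k))))
  have h2 := mem_up2.1 (u_mem hq (map C (exp k)))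
  rw [Ideal.mem_bot] at h1 h2
  rw [psi0, e, map_add, map_add, map_mul c00 _ r, map_mul c00 _ r', h1, h2]
  simp [c00_apply, CC_apply]

theorem psi_ev (hp : cc ps = 0) (hq : cc qs = 0) {n : ℕ} (hn : 1 ≤ n)
    (ht : psi0 ε ps qs (tA k ε) = C (X ^ n)) {y : AA k} (hy : c00 y = 0) (g : AA k) :
    psi0 ε ps qs (ev2 CC (tA k ε) y g) = ev C (psi0 ε ps qs y) (map (ram k n) g) := by
  have m1 : y ∈ up (up (⊥ : Ideal k)) := mem_up2.2 (hy ▸ zero_mem _)
  have m2 : psi0 ε ps qs y ∈ up (up (⊥ : Ideal k)) :=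
    mem_up2.2 (by rw [psi_c00 hp hq, hy]; exact zero_mem _)
  have e : (psi0 ε ps qs).comp (ev CC (tA k ε)) = (C : k⟦X⟧ →+* AA k).comp (ram k n) := by
    have e1 : (psi0 ε ps qs).comp (ev CC (tA k ε)) X = C (X ^ n) := by
      rw [RingHom.comp_apply, ev_X (up (up ⊥)) (tA_mem ε), ht]
    refine homExt (up (up ⊥)) (fun r => ?_) ?_ ?_
    · rw [RingHom.comp_apply, ev_C (up (up ⊥)) (tA_mem ε), psi_CC hp hq, RingHom.comp_apply,
        ram_C hn, CC_apply]
    · rw [e1, RingHom.comp_apply, ram_X hn]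
    · rw [e1, mem_up2, c00_apply, constantCoeff_C, map_pow, constantCoeff_X, zero_pow (by omega)]
      exact zero_mem _
  rw [ev2, hom_ev (up (up ⊥)) (up (up ⊥)) m1 _ m2, e, ev_map (up (up ⊥)) m2]

theorem psi_v (hq : cc qs = 0) (h0 : qs ≠ 0) {N : ℕ} (hN : 1 ≤ N) :
    coeff 1 (psi0 ε ps qs (X ^ N)) ≠ 0 := by
  have h1 := congrArg cc (isDer_dX.pow (exp k) N)
  have h2 : cc (dX k (exp k)) = 1 := by
    rw [K1b.cc_dX, coeff_exp]
    simp
  rw [K1b.cc_dX, map_mul, map_mul, map_pow cc, constantCoeff_exp, h2, map_natCast, one_pow, mul_one,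
    mul_one] at h1
  rw [map_pow, psi_X hq, mul_pow, ← map_pow, ← map_pow, coeff_C_mul, coeff_map, h1]
  refine mul_ne_zero (pow_ne_zero _ h0) fun e => ?_
  have := congrArg cc e
  rw [constantCoeff_C, map_zero] at this
  exact Nat.cast_ne_zero.2 (by omega) this

end psi

theorem ev_CX (c : k⟦X⟧) : ev CC (tA k 0) c = (C c : AA k) := by
  have e : ev CC (tA k 0) = (C : k⟦X⟧ →+* AA k) := by
    refine homExt (up (up ⊥)) (fun r => ?_) ?_ ?_
    · rw [ev_C (up (up ⊥)) (tA_mem 0), CC_apply]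
    · rw [ev_X (up (up ⊥)) (tA_mem 0), tA, pow_zero, mul_one]
    · rw [ev_X (up (up ⊥)) (tA_mem 0)]
      exact tA_mem 0
  rw [e]

/-- The outer deck transformations. -/
theorem outer [CharZero k] [IsAlgClosed k] (hS : S2aStmt) {d ε N : ℕ} (hd : 6 ≤ d) (hN : 1 ≤ N)
    {a b Wt lam : (AA k)⟦X⟧} {G0 G1 y : AA k} {yl : k⸨X⸩}
    (ho : Obs k d (cL k) (thL k) (wL k (-(N : ℤ))) yl (map (out ε) a) (map (out ε) b))
    (hl : LD (tA k ε) (DA k ε) a b Wt lam G0 G1) (h0 : DA k ε G0 ≠ 0) {Φ : AA k →+* TT k}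
    {σ : k⟦X⟧} (hΦ : IsOut ε Φ ((coeL k).comp (sb σ))) (s0 : cc σ = 0) (s1 : σ ≠ 0)
    (e0 : Φ G0 = out ε G0) (e1 : Φ G1 = out ε G1) (ey : Φ y = out ε y)
    (hy : thP k (red y) ≠ 0) (hm : ∀ ζ : k, ζ ≠ 0 → ζ ^ N = 1 → mu ε ζ y = y) :
    Φ (X ^ N) = out ε (X ^ N) := by
  have := K3.charL (κ := k)
  have n0 := K3.ne0 s0 s1
  obtain ⟨φ, f1, f2, f3, -⟩ := hΦ.ext s0 s1
  obtain ⟨v, hv⟩ := (hΦ.unit n0).1.exists_left_inv
  have key := (hS k k⸨X⸩ d (cL k) (thL k) _ _ _ _ _ _ _ _ φ (v * cw (thL k) (Φ X)) hd ho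
    (hl.push' (out ε) (t' := X) (by rw [out_tA]) (th_out ε)) (by
      rw [th_out]
      exact fun e => h0 (out_inj ε (by rw [e, map_zero]))) (fun c => by
      rw [← coeL_C, f1, map_C, ← CC_apply, hΦ.map_CC, RingHom.comp_apply, sb_C s0])
    (fun c => by linear_combination v * f3 c - cw (thL k) (φ c) * hv)
    (by rw [f2, e0]) (by rw [f2, e1])).1
  have b1 : cc (φ (wL k N)) = coeL k (σ ^ N) := by
    rw [← coeL_X_pow, f1, hΦ.ccC, RingHom.comp_apply, map_pow (sb σ), sb_X s0]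
  have b2 : σ ^ N = X ^ N := by
    refine coeL_inj ?_
    have b3 : cc (φ (wL k N)) * cc (φ (wL k (-(N : ℤ)))) = 1 := by
      rw [← map_mul, ← map_mul, wL_mul_neg, map_one, map_one]
    rw [b1, key] at b3
    rw [coeL_X_pow]
    linear_combination wL k N * b3 - coeL k (σ ^ N) * wL_mul_neg (R := k) (N : ℤ)
  obtain ⟨ζ, z0, z1, rfl⟩ := root_one hN s0 b2
  have b4 : Φ = (out ε).comp (mu ε ζ) := by
    refine hΦ.deck_unique (isOut_mu ε z0) n0 (y := y) (fun e => hy ?_) ?_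
    · have : dX k (red y) = 0 := sb_inj s0 s1 (coeL_inj (by simpa using e))
      rw [thP_apply, this, mul_zero]
    · rw [RingHom.comp_apply, hm ζ z0 z1, ey]
  rw [b4, RingHom.comp_apply, map_pow (mu ε ζ), mu_X, mul_pow, ← map_pow, z1, map_one, one_mul]

/-- The inner deck transformations. -/
theorem inner [CharZero k] [IsAlgClosed k] (hS : S2bStmt) (hO : ObsStmt) {d M : ℕ} (hd : 6 ≤ d)
    (hM : 1 ≤ M) {a b Wt lam : (AA k)⟦X⟧} {G0 G1 : AA k} {xl yl : k⸨X⸩}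
    (ho : Obs k d (cL k) (thL k) xl yl (map (out 1) a) (map (out 1) b))
    (hl : LD (tA k 1) (DA k 1) a b Wt lam G0 G1) (h0 : DA k 1 G0 ≠ 0) (p0 : PolyP G0)
    (p1 : PolyP G1) (t0 : tA k 1 ∣ G0) (t1 : tA k 1 ∣ G1) {ρ : k⸨X⸩ →+* k⸨X⸩}
    (r1 : ∀ c, ρ (coeL k c) = coeL k (ram k M c)) (r2 : ∀ c, thL k (ρ c) = M * ρ (thL k c))
    {Φ : AA k →+* TT k} {π : k⟦X⟧} (f1 : ∀ r, Φ (CC r) = C (cL k r)) (s0 : cc π = 0) (s1 : π ≠ 0)
    (f2 : cc (Φ (C X)) = coeL k π) (f3 : Φ (C X) * Φ X = X) (e0 : Φ G0 = map ρ (out 1 G0))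
    (e1 : Φ G1 = map ρ (out 1 G1)) : False := by
  have := K3.charL (κ := k)
  have m0 : (M : k⸨X⸩) ≠ 0 := Nat.cast_ne_zero.2 (by omega)
  have ho' := (hO k d _ _ _ _ _ _ _ ho).2.2.2 k⸨X⸩ (thL k) ρ M m0 isDer_thL r2
  have hD : ∀ c, cw (thL k) (((map ρ).comp (out 1)) c) =
      C (M : k⸨X⸩) * ((map ρ).comp (out 1)) (DA k 1 c) := fun c => by
    rw [RingHom.comp_apply, RingHom.comp_apply, cw_map r2, th_out]
  have hl' := hl.push ((map ρ).comp (out 1)) (t' := X)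
    (by rw [RingHom.comp_apply, out_tA, map_X]) hD
  rw [RingHom.comp_apply, RingHom.comp_apply, ← e0, ← e1, map_comp] at hl'
  have key := hS k k⸨X⸩ d (ρ.comp (cL k)) (thL k) _ _ _ _ _ _ G0 G1 Φ hd ho' hl' (by
      rw [e0, ← RingHom.comp_apply (map ρ), hD]
      refine mul_ne_zero (fun e => m0 (by simpa using congrArg cc e)) fun e => h0 (out_inj 1 ?_)
      rw [map_zero]
      exact map_injective ρ ρ.injective (by rw [map_zero]; exact e)) p0 p1 t0 t1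
    (fun r => by rw [f1, RingHom.comp_apply, ← coeL_C, r1, ram_C hM])
    (isUnit_iff_constantCoeff.2 (by
      change IsUnit (cc (Φ (C X)))
      rw [f2]
      exact Ne.isUnit fun e => s1 (coeL_inj (by rw [e, map_zero])))) f3
  rw [f2, thL_coeL] at key
  exact s1 (by rw [const_thP (coeL_inj (key.trans (map_zero _).symm)), s0, map_zero])

end Bfin

open Bfin

theorem bfinS (hB : BlogStmt) (hD : DiscStmt) (hA : AnnStmt) (ha : S2aStmt) (hb : S2bStmt)
    (hP : PsiStmt) (hO : ObsStmt) : BfinStmt := by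
  intro k _ _ _ d ε N e a b a0 b0 yl n ps qs W hd h
  obtain ⟨Wt, lam, G0, G1, hl, hL, s0, s1, ⟨g0, rfl⟩, ⟨g1, rfl⟩, h0, S, _, _, ψ1, ψ2, hR, hv,
    e0, e1⟩ := hB k d ε N e a b a0 b0 yl n ps qs W hd h
  have pn : ps ≠ 0 := fun c => by
    have := h.pq
    rw [c, zero_mul] at this
    exact pow_ne_zero n X_ne_zero this.symm
  obtain ⟨q1, q2, -, q3, -⟩ := hP k ε ps qs h.e1 h.p0 h.q0 pn h.qn
  have pinj : Function.Injective (psi0 ε ps qs) := fun c c' k =>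
    mA_inj Polynomial.C_injective (q1 (by rw [q2, q2, k]))
  have pt : psi0 ε ps qs (tA k ε) = C (X ^ n) := by
    rw [← q2, ← h.pq, ← q3]
    simp only [tA, map_mul, map_pow, mA_CX, mA_X]
  rw [h.ha, h.hb] at hL
  obtain ⟨l1, l0⟩ := lead_div (isDer_DA ε) (DA_tA ε) (tA_ne ε) hL
  have a00 := supp_c00 h.N1 (by omega) h.pa
  have o1 : thP k (red g0) = 0 → thP k (red g1) ≠ 0 := by
    refine not_both (c := -(d : k⟦X⟧)) (s := 1) one_ne_zero (by rw [cc_red, a00]) h.outer ?_ ?_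
    · have := map_dvd red l1
      rw [red_tA, zero_dvd_iff] at this
      simpa [red_DA] using this
    · have := map_dvd red l0
      rw [red_tA, zero_dvd_iff] at this
      simpa [red_DA] using this
  obtain ⟨i, i1, i2⟩ : ∃ i : ℕ, thP k (red g0) + i * thP k (red g1) ≠ 0 ∧
      (ε = 1 → thP k (cc g0) + i * thP k (cc g1) ≠ 0) := by
    by_cases c : ε = 1
    · subst c
      have o2 : thP k (cc g0) = 0 → thP k (cc g1) ≠ 0 := by
        refine not_both (c := -(d : k⟦X⟧)) (s := -1) (a := cc a0) (neg_ne_zero.2 one_ne_zero) a00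
          (h.inner rfl) ?_ ?_
        · have := map_dvd cc l1
          rw [cc_tA, zero_dvd_iff] at this
          simpa [cc_DA] using this
        · have := map_dvd cc l0
          rw [cc_tA, zero_dvd_iff] at this
          simpa [cc_DA] using this
      obtain ⟨i, i1, i2⟩ := pick o1 o2
      exact ⟨i, i1, fun _ => i2⟩
    · obtain ⟨i, i1, -⟩ := pick o1 o1
      exact ⟨i, i1, fun d => absurd d c⟩
  obtain ⟨y, hy⟩ : ∃ y : AA k, y = g0 + (i : AA k) * g1 - CC (c00 (g0 + (i : AA k) * g1)) := ⟨_, rfl⟩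
  have y0 : c00 y = 0 := by rw [hy, map_sub, c00_apply (CC _), CC_apply]; simp
  have y1 : thP k (red y) = thP k (red g0) + i * thP k (red g1) := by
    rw [hy, map_sub, map_sub, CC_apply, red_C, thP_apply (C _), dX_C, mul_zero, sub_zero, map_add,
      map_add, map_mul, map_natCast, isDer_thP.const_mul (isDer_thP.natCast i)]
  have y2 : thP k (cc y) = thP k (cc g0) + i * thP k (cc g1) := by
    rw [hy, map_sub, map_sub, CC_apply, constantCoeff_C, thP_apply (C _), dX_C, mul_zero, sub_zero,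
      map_add, map_add, map_mul, map_natCast, isDer_thP.const_mul (isDer_thP.natCast i)]
  have yr : red y ≠ 0 := fun c => i1 (by rw [← y1, c, map_zero])
  have inj : Function.Injective (ψ1.comp (psi0 ε ps qs)) := hR.1.comp pinj
  have ct : ψ1 (psi0 ε ps qs (tA k ε)) = ψ2 (psi0 ε ps qs (tA k ε)) := by rw [pt, hR.2.1]
  have cn : ψ1 (psi0 ε ps qs (tA k ε)) ≠ 0 := fun c => tA_ne ε (inj (by rw [map_zero]; exact c))
  have can : ∀ m g, ψ1 (psi0 ε ps qs (tA k ε ^ m * g)) = ψ2 (psi0 ε ps qs (tA k ε ^ m * g)) →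
      ψ1 (psi0 ε ps qs g) = ψ2 (psi0 ε ps qs g) := fun m g c => by
    simp only [map_mul, map_pow, ← ct] at c
    exact mul_left_cancel₀ (pow_ne_zero m cn) c
  have ey : ψ1 (psi0 ε ps qs y) = ψ2 (psi0 ε ps qs y) := by
    rw [hy]
    simp only [map_sub, map_add (psi0 ε ps qs), map_mul (psi0 ε ps qs), map_natCast, map_add ψ1,
      map_add ψ2, map_mul ψ1, map_mul ψ2, can _ _ e0, can _ _ e1, psi_CC h.p0 h.q0]
    rw [CC_apply, hR.2.1]
  have eg : ∀ g : AA k, (ψ1.comp (psi0 ε ps qs)) (ev2 CC (tA k ε) y g) =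
      (ψ2.comp (psi0 ε ps qs)) (ev2 CC (tA k ε) y g) := fun g => by
    rw [RingHom.comp_apply, RingHom.comp_apply, psi_ev h.p0 h.q0 h.n1 pt y0]
    exact hR.2.2 _ (by rw [psi_c00 h.p0 h.q0, y0]) ey _
  have nv := hv _ (psi_v (ε := ε) (ps := ps) h.q0 h.qn h.N1)
  have out' : ∀ (Φ : AA k →+* TT k) (σ : k⟦X⟧), IsOut ε Φ ((coeL k).comp (sb σ)) → cc σ = 0 →
      coeff 1 σ ≠ 0 → (∀ c, Φ c = out ε c ↔
        (ψ1.comp (psi0 ε ps qs)) c = (ψ2.comp (psi0 ε ps qs)) c) → False := by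
    intro Φ σ f1 f2 f3 f4
    refine nv ((f4 _).1 (outer ha hd h.N1 h.obs hl h0 f1 f2 (fun c => f3 (by rw [c, map_zero]))
      ((f4 _).2 e0) ((f4 _).2 e1) ((f4 _).2 ey) (y1 ▸ i1) fun ζ z0 z1 => ?_))
    have mc : ∀ m g, Supp ε 0 N (tA k ε ^ m * g) → mu ε ζ g = g := fun m g c => by
      have := mu_fix z0 z1 c
      rw [map_mul, map_pow, mu_tA ε z0] at this
      exact mul_left_cancel₀ (pow_ne_zero m (tA_ne ε)) this
    rw [hy, map_sub, mu_CC, map_add, map_mul, map_natCast, mc _ _ s0.1, mc _ _ s1.1]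
  rcases Nat.le_one_iff_eq_zero_or_eq_one.1 h.e1 with rfl | rfl
  · obtain ⟨ν, hν⟩ := exists_ordIs yr
    have n1 : 1 ≤ ν := Nat.one_le_iff_ne_zero.2 fun c => hν.1 (by
      rw [c, coeff_zero_eq_constantCoeff_apply]
      exact (cc_red y).trans y0)
    have : NeZero ν := ⟨by omega⟩
    obtain ⟨ω, hω⟩ := HasEnoughRootsOfUnity.exists_primitiveRoot k ν
    obtain ⟨Φ, σ, f1, f2, f3, -, -, f4⟩ := hD k S ν ω y _ (ψ2.comp (psi0 0 ps qs)) n1 hω hν inj
      (fun g => by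
        have := eg g
        rwa [ev2, RingHom.ext ev_CX] at this)
      fun c => nv (RingHom.congr_fun c (X ^ N))
    refine out' Φ σ f1 f2 (fun c => ?_) (by rwa [out_zero])
    rw [c, zero_pow (by omega)] at f3
    exact zero_ne_one f3
  · rcases hA k S y _ (ψ2.comp (psi0 1 ps qs)) y0 (fun c => i2 rfl (by rw [← y2, c, map_zero]))
      yr inj eg with ⟨Φ, σ, f1, f2, f3, f4⟩ | ⟨M, ρ, Φ, π, m1, r1, r2, f1, f2, f3, f4, f5, f6⟩
    · exact out' Φ σ f1 f2 f3 f4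
    · have ee := h.ee
      exact inner hb hO hd m1 h.obs hl h0 (s0.2 rfl) (s1.2 rfl)
        ((dvd_pow_self _ (by omega)).mul_right _) ((dvd_pow_self _ (by omega)).mul_right _)
        r1 r2 f1 f2 f3 f4 f5 ((f6 _).2 e0) ((f6 _).2 e1)

end Pool.Agent.MP_05b4bd_ag.ES
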