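import Pool.Agent.MP_05b4bd_ag.esc.Bx
import Pool.Agent.MP_05b4bd_ag.esc.Symb

-- ======== part 0: formerly Pool.Agent.MP_05b4bd_ag.esc.Afin
section MrgPart0

/-! The small case: transport of the inverse integrating factor to infinity. -/

namespace Pool.Agent.MP_05b4bd_ag.ES

open PowerSeries LaurentSeries HC

namespace Afin

variable (k : Type) [Field k] (R d : ℕ)

/-- `q / p ^ R`. -/
noncomputable def sS : TT k := C (wL k (-(R : ℤ))) * X

/-- `p q`. -/
noncomputable def tS : TT k := C (wL k 1) * X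

/-- `t ↦ p q`, `U ↦ s ^ d`. -/
noncomputable def eta : AA k →+* TT k := ev2 ((C : k⸨X⸩ →+* TT k).comp (cL k)) (tS k) (sS k R ^ d)

/-- `t ↦ p q`, `U ↦ s ^ d`, `z ↦ s W`. -/
noncomputable def Th : AA k⟦X⟧ →+* AA k⸨X⸩ := (rescale (sS k R)).comp (map (eta k R d))

/-- `q d/dq - p d/dp`. -/
noncomputable def DD : TT k →+ TT k := thP k⸨X⸩ - cw (thL k)

theorem tS_mem : tS k ∈ up (⊥ : Ideal k⸨X⸩) := by simp [mem_up, tS]

variable {d}

theorem sS_mem (hd : 1 ≤ d) : sS k R ^ d ∈ up (⊥ : Ideal k⸨X⸩) :=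
  Ideal.pow_mem_of_mem _ (by simp [mem_up, sS]) _ hd

theorem eta_CC (hd : 1 ≤ d) (r : k) : eta k R d (CC r) = C (cL k r) :=
  ev2_CC _ (tS_mem k) (sS_mem k R hd) r

theorem eta_CX (hd : 1 ≤ d) : eta k R d (C X) = tS k := ev2_CX _ (tS_mem k) (sS_mem k R hd)

theorem eta_X (hd : 1 ≤ d) : eta k R d X = sS k R ^ d := ev2_X _ (sS_mem k R hd)

theorem tS_eq : tS k = C (wL k (R + 1)) * sS k R := by
  rw [tS, sS, ← mul_assoc, ← map_mul, ← wL_add]
  congr 3
  ring

theorem tS_pow : tS k ^ R * sS k R = X ^ (R + 1) := by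
  have : wL k 1 ^ R * wL k (-(R : ℤ)) = 1 := by
    rw [wL_pow, ← wL_add, ← wL_zero]; congr 1; ring
  calc tS k ^ R * sS k R = C (wL k 1 ^ R * wL k (-(R : ℤ))) * X ^ (R + 1) := by
        simp only [tS, sS, map_mul, map_pow]; ring
    _ = _ := by rw [this, map_one, one_mul]

theorem sS_ne : sS k R ≠ 0 := fun h => by
  have := tS_pow k R
  rw [h, mul_zero] at this
  exact pow_ne_zero _ X_ne_zero this.symm

theorem tS_ne : tS k ≠ 0 :=
  mul_ne_zero (fun h => (isUnit_wL 1).ne_zero (C_injective (h.trans (map_zero _).symm))) X_ne_zero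

theorem isDer_DD : IsDer (DD k) := isDer_thP.sub isDer_thL.coefw

theorem DD_mon (n : ℤ) : DD k (C (wL k n) * X) = (1 - (n : TT k)) * (C (wL k n) * X) := by
  have h1 : thP k⸨X⸩ (C (wL k n) * X) = C (wL k n) * X := by
    rw [thP_apply, isDer_dX, dX_C, dX_X]; ring
  have h2 : cw (thL k) (C (wL k n) * X) = (n : TT k) * (C (wL k n) * X) := by
    rw [isDer_thL.coefw, cw_C, cw_X isDer_thL.one, thL_wL, map_mul, map_intCast]; ring
  rw [DD, AddMonoidHom.sub_apply, h1, h2]; ring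

theorem DD_s : DD k (sS k R) = (R + 1) * sS k R := by
  rw [sS, DD_mon]; push_cast; ring

theorem DD_t : DD k (tS k) = 0 := by rw [tS, DD_mon]; simp

theorem DD_eta (hd : 1 ≤ d) (c : AA k) :
    DD k (eta k R d c) = (d * (R + 1) * sS k R ^ d) * eta k R d (dX k⟦X⟧ c) := by
  rw [hom_chain2' (up (⊥ : Ideal k⸨X⸩)) (g := eta k R d) (by rw [eta_CX k R hd]; exact tS_mem k)
    (by rw [eta_X k R hd]; exact sS_mem k R hd) (isDer_DD k) (fun r => by
      rw [eta_CC k R hd, DD, AddMonoidHom.sub_apply, thP_apply, dX_C, cw_C, thL_cL]; simp) c,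
    eta_CX k R hd, eta_X k R hd, DD_t, (isDer_DD k).pow, DD_s]
  obtain ⟨n, rfl⟩ := Nat.exists_eq_add_of_le' hd
  rw [Nat.add_sub_cancel]
  ring

theorem eta_inj (hd : 1 ≤ d) : Function.Injective (eta k R d) := by
  refine winj (τ := X) (p := C (wL k 1)) (q := C (wL k (-(R : ℤ))) ^ d) (a := 1) (b := d) le_rfl hd
    (mem_nonZeroDivisors_of_ne_zero X_ne_zero) cc (by simp)
    (by rw [eta_CX k R hd, tS]; ring) (by rw [eta_X k R hd, sS]; ring) fun w s r hw h m hm => ?_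
  have e : ∀ m : ℕ × ℕ, cc (eta k R d (CC (r m))) * cc (C (wL k 1) : TT k) ^ m.1 *
      cc ((C (wL k (-(R : ℤ))) : TT k) ^ d) ^ m.2 =
        cL k (r m) * wL k (m.1 - m.2 * (d * R)) := fun m => by
    simp only [eta_CC k R hd, map_pow, constantCoeff_C, wL_pow, mul_assoc, ← wL_add]
    congr 2
    ring
  have h1 := congrArg (fun f : k⸨X⸩ => f.coeff (m.1 - m.2 * (d * R))) h
  simp only [e, HahnSeries.coeff_sum, coeff_cL_mul, coeff_wL, HahnSeries.coeff_zero] at h1
  rw [Finset.sum_eq_single m (fun n hn hnm => ?_) fun h => absurd hm h] at h1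
  · simpa using h1
  · rw [if_neg, mul_zero]
    intro h2
    have h3 : (m.1 : ℤ) + m.2 * d = n.1 + n.2 * d := by
      have := (hw m hm).trans (hw n hn).symm
      rw [mul_one, mul_one] at this
      exact_mod_cast this
    have h4 : ((m.2 : ℤ) - n.2) * (d * (R + 1)) = 0 := by linear_combination h3 - h2
    have h5 : (m.2 : ℤ) = n.2 :=
      sub_eq_zero.1 ((mul_eq_zero.1 h4).resolve_right (by positivity))
    rw [h5] at h3
    exact hnm (Prod.ext (by omega) (by omega))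

theorem Th_inj (hd : 1 ≤ d) : Function.Injective (Th k R d) := by
  rw [injective_iff_map_eq_zero]
  intro c h
  ext1 n
  have := congrArg (coeff n) h
  simp only [Th, RingHom.comp_apply, coeff_rescale, coeff_map, map_zero] at this
  exact eta_inj k R hd (((mul_eq_zero.1 this).resolve_left
    (pow_ne_zero _ (sS_ne k R))).trans (map_zero _).symm)

theorem Th_C (c : AA k) : Th k R d (C c) = C (eta k R d c) := by
  rw [Th, RingHom.comp_apply, map_C, rescale_C']

theorem Th_X : Th k R d X = C (sS k R) * X := by rw [Th, RingHom.comp_apply, map_X, rescale_X]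

theorem Th_t (hd : 1 ≤ d) (n : ℕ) : Th k R d (CC (X ^ n)) = C (tS k) ^ n := by
  rw [map_pow, map_pow, CC_apply, Th_C, eta_CX k R hd]

theorem dX_Th (c : AA k⟦X⟧) : dX _ (Th k R d c) =
    0 * Th k R d (cw (dX k⟦X⟧) c) + C (sS k R) * Th k R d (dX _ c) := by
  simp only [Th, RingHom.comp_apply, dX_rescale, dX_map, zero_mul, zero_add]

theorem cw_Th (hd : 1 ≤ d) (c : AA k⟦X⟧) : cw (DD k) (Th k R d c) =
    C (d * (R + 1) * sS k R ^ d) * Th k R d (cw (dX k⟦X⟧) c) +
      C ((R + 1) * sS k R) * X * Th k R d (dX _ c) := by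
  simp only [Th, RingHom.comp_apply]
  rw [rescale_eq_sb, cw_sb (by simp) (isDer_DD k), ← rescale_eq_sb, ← rescale_eq_sb,
    cw_map (DD_eta k R hd), map_mul, rescale_C', dX_map, (isDer_DD k).coefw, cw_C,
    cw_X (isDer_DD k).one, DD_s]
  ring

theorem Th_scale (hd : 1 ≤ d) (c : AA k⟦X⟧) :
    Th k R d (rescale (C (X ^ R)) (map (rescale (X ^ (R * d))) c)) =
      mA (coeL k) (thA k 1 (R + 1) d c) := by
  have hx : (X : AA k) ^ (d * (R + 1)) ∈ up (up (⊥ : Ideal k)) :=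
    Ideal.pow_mem_of_mem _ (by simp [mem_up]) _ (by positivity)
  have ht : tA k 1 ∈ up (up (⊥ : Ideal k)) := by simp [mem_up, tA]
  have hc : eta k R d (C (X ^ R)) = tS k ^ R := by rw [map_pow, map_pow, eta_CX k R hd]
  have h : (eta k R d).comp (rescale (X ^ (R * d))) =
      (map (coeL k)).comp (ev2 CC (tA k 1) (X ^ (d * (R + 1)))) := by
    have h2 : eta k R d (rescale (X ^ (R * d)) X) = X ^ (d * (R + 1)) := by
      rw [rescale_X, map_mul, eta_X k R hd, pow_mul, map_pow, map_pow, hc, ← mul_pow, tS_pow,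
        ← pow_mul, mul_comm]
    refine homExt2 (up (⊥ : Ideal k⸨X⸩)) (fun r => ?_) ?_ ?_ ?_ ?_ <;>
      simp only [RingHom.comp_apply]
    · rw [ev2_CC _ ht hx, CC_apply, rescale_C', map_C, coeL_C]; exact eta_CC k R hd r
    · rw [ev2_CX _ ht hx, rescale_C', eta_CX k R hd, tA, map_mul, map_C, coeL_X, pow_one, map_X, tS]
    · rw [ev2_X _ hx, h2, map_pow, map_X]
    · rw [rescale_C', eta_CX k R hd]; exact tS_mem k
    · rw [h2]; exact Ideal.pow_mem_of_mem _ (by simp [mem_up]) _ (by positivity)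
  ext1 n
  have := RingHom.congr_fun h (coeff n c)
  simp only [RingHom.comp_apply] at this
  simp only [Th, thA, mA, RingHom.comp_apply, coeff_rescale, coeff_map, map_mul, map_pow, map_X,
    this, eta_CX k R hd]
  rw [← mul_assoc, ← mul_pow, mul_comm (sS k R), tS_pow]

end Afin

open Afin in
theorem afinS (hAmk : AmkStmt) (h12 : A12Stmt) (h3 : A3Stmt) (hAb : AbmkStmt) (hExt : ExtStmt)
    (hP : PframeStmt) (hS : S1Stmt) : AfinStmt := by
  intro k _ _ d o hd h1 h2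
  have hd1 : 1 ≤ d := by omega
  obtain ⟨o', R, b, e, β, V, -, hAD, hb, he, n1, v1, v2, v3⟩ := hAmk k d o (by omega) h1 h2
  obtain ⟨κ, Γ, U, eh, hAN, hI⟩ := h12 k d b e β V hd1 hAD
  obtain ⟨I0, hI0⟩ := h3 k d κ Γ β U eh hd1 hAN
  obtain ⟨I, hI⟩ := hI I0 hI0
  obtain ⟨a', b', ra, rb, ta, tb, -⟩ := hAb k d 1 (R + 1) o' (by omega) le_rfl (by omega) v1 v2 v3
    (fun h => absurd h one_ne_zero)
  have hb' := congrArg (Th k R d) hb
  have he' := congrArg (Th k R d) he
  rw [Th_scale k R hd1, map_mul, Th_t k R hd1] at hb' he'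
  have hq : ∀ n, mA (coeL k) (C (X ^ n)) = C (X ^ n) := fun n => by simp [mA]
  have hx : (X : AA k) ^ (d * (R + 1)) ∈ up (up (⊥ : Ideal k)) :=
    Ideal.pow_mem_of_mem _ (by simp [mem_up]) _ (by positivity)
  have tX : mA (coeL k) (thA k 1 (R + 1) d X) = C (tS k) ^ R * C (sS k R) * X := by
    rw [thA, RingHom.comp_apply, map_X, rescale_X, map_mul, hq, ← tS_pow, map_mul, map_pow]
    simp [mA]
  have tU : mA (coeL k) (thA k 1 (R + 1) d (C X)) = (C (tS k) ^ R * C (sS k R)) ^ d := by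
    rw [thA, RingHom.comp_apply, map_C, rescale_C', ev2_X _ hx, hq, mul_comm d, pow_mul,
      ← tS_pow, map_pow, map_mul, map_pow]
  have hQ : (C (X ^ ((R + 1) * (d + 1))) : AA k⸨X⸩) = (C (tS k) ^ R * C (sS k R)) ^ (d + 1) := by
    rw [pow_mul, ← tS_pow, map_pow, map_mul, map_pow]
  have hU : Th k R d (C X) = C (sS k R) ^ d := by rw [Th_C, eta_X k R hd1, map_pow]
  have ra' := congrArg (mA (coeL k)) ra
  have rb' := congrArg (mA (coeL k)) rb
  simp only [fB, map_mul, map_add, map_neg, map_sub, map_natCast, hq, tX, tU, hQ, ← hb', ← he',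
    Nat.cast_add, Nat.cast_one, map_one] at ra' rb'
  have hτ : (C (tS k) : AA k⸨X⸩) ^ (R * (d + 1)) ≠ 0 :=
    pow_ne_zero _ fun h => tS_ne k (C_injective (h.trans (map_zero _).symm))
  have hs : (C (sS k R) : AA k⸨X⸩) ≠ 0 :=
    fun h => sS_ne k R (C_injective (h.trans (map_zero _).symm))
  have eB : Th k R d (fB d e) = C (sS k R) ^ (d + 1) * mA (coeL k) a' := by
    refine mul_left_cancel₀ hτ ?_
    simp only [fB, map_mul, map_add, map_neg, map_natCast, hU, Th_X]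
    linear_combination -ra'
  have eA : C (sS k R) ^ (d + 1) * mA (coeL k) b' = ((R : AA k⸨X⸩) + 1) *
      ((d : AA k⸨X⸩) * C (sS k R) ^ d * (C (sS k R) * X - Th k R d b) + Th k R d (fB d e)) := by
    refine mul_left_cancel₀ hτ ?_
    simp only [fB, map_mul, map_add, map_neg, map_natCast, hU, Th_X]
    linear_combination rb'
  obtain ⟨I1, I2⟩ := iif_iff.1 hI
  have D1 : IsDer (cw (DD k)) := (isDer_DD k).coefw
  have key := iifE_trans (Th k R d) D1 isDer_dX (cw_Th k R hd1) (dX_Th k R)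
    (by rw [map_zero, dX_C]) (by rw [cw_C, DD_s, isDer_dX, dX_C, dX_X]; ring)
    (X * (X - b)) (fB d e) I
  rw [I2, map_zero, mul_zero] at key
  have hA : C (d * (R + 1) * sS k R ^ d) * Th k R d (X * (X - b)) +
      C ((R + 1) * sS k R) * X * Th k R d (fB d e) =
      C (sS k R) ^ (d + 2) * (X * mA (coeL k) b') := by
    simp only [map_mul, map_add, map_sub, map_pow, map_natCast, map_one, Th_X]
    linear_combination (-(C (sS k R) * X)) * eA
  have hB : 0 * Th k R d (X * (X - b)) + C (sS k R) * Th k R d (fB d e) =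
      C (sS k R) ^ (d + 2) * mA (coeL k) a' := by rw [eB]; ring
  rw [hA, hB] at key
  have ht : IsDer (dX k⸨X⸩⟦X⟧) := isDer_dX
  have c1 : cw (DD k) (C (tS k) ^ (d + 2)) = 0 := by rw [D1.pow, cw_C, DD_t]; simp
  have c2 : dX k⸨X⸩⟦X⟧ (C (tS k) ^ (d + 2)) = 0 := by rw [← map_pow, dX_C]
  have hJ : IIF (DD k) (mA (coeL k) a') (X * mA (coeL k) b')
      (C (C (wL k (R + 1))) ^ (d + 2) * Th k R d I) := by
    refine iif_iff.2 ⟨mul_ne_zero (pow_ne_zero _ ((isUnit_wL _).map CC).ne_zero)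
      fun h => I1 (Th_inj k R hd1 (h.trans (map_zero _).symm)), ?_⟩
    refine mul_left_cancel₀ (pow_ne_zero 2 (pow_ne_zero (d + 2) hs)) ?_
    rw [← iifE_scale D1 ht, ← mul_assoc _ _ (Th k R d I), ← mul_pow, ← map_mul, mul_comm (sS k R),
      ← tS_eq, mul_zero]
    rw [iifE] at key ⊢
    rw [D1.const_mul c1, ht.const_mul c2]
    linear_combination C (tS k) ^ (d + 2) * key
  obtain ⟨I', hI'⟩ := hExt k d a' b' _ hd1 ta tb hJ
  have ho : ∀ n : ℕ, map (out 1) (C (X ^ n) : (AA k)⟦X⟧) = CC (wL k n) := fun n => by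
    rw [map_C, map_pow, out_X, ← map_pow, wL_pow, mul_one, CC_apply]
  have pa := congrArg (map (out 1)) ra
  have pb := congrArg (map (out 1)) rb
  rw [map_mul, ho, out_thA 1 (by omega) hd1] at pa
  rw [map_mul, map_mul, ho, out_thA 1 (by omega) hd1, map_natCast] at pb
  obtain ⟨⟨y, hO⟩, hn⟩ := hP k d (R + 1) o' _ _ (by omega) (by omega)
    (by rw [← pa]; push_cast; rfl) (by rw [← pb]; push_cast; rfl)
  have := hI'.push (out_inj 1) (θ := 1) (D' := cw (thL k)) fun c => by rw [th_out, one_mul]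
  rw [map_one, one_mul, map_mul, map_X] at this
  refine hS k _ d _ _ _ _ _ _ _ hd hO (hn fun h => n1 ?_) this
  rw [co2, coeff_zero_eq_constantCoeff, h, map_zero]

end Pool.Agent.MP_05b4bd_ag.ES

end MrgPart0

-- ======== part 1: formerly Pool.Agent.MP_05b4bd_ag.esc.Case8
section MrgPart1

/-! A centre cannot escape to a point at infinity where the top form does not vanish. -/

namespace Pool.Agent.MP_05b4bd_ag.ES

open PowerSeries LaurentSeries HC

namespace Case8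

section Ring
variable {R S : Type} [CommRing R] [CommRing S]

theorem euler0 (φ : R →+* S) (n : ℕ) (u : R2 R) {x y : S} (h : hev φ (n + 1) u x y 0 = 1) :
    x * hev φ n (MvPolynomial.pderiv 0 u) x y 0 + y * hev φ n (MvPolynomial.pderiv 1 u) x y 0 =
      n + 1 := by
  have e := k4_euler φ n u x y 0
  rw [h, zero_mul, zero_add, mul_one] at e
  exact e

theorem c00_CC : (c00 : AA R →+* R).comp CC = RingHom.id R := by
  ext r
  simp [c00_apply, CC_apply]

theorem c00_C (c : R⟦X⟧) : c00 (C c : AA R) = cc c := by simp [c00_apply]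

theorem c00_X : c00 (X : AA R) = 0 := by simp [c00_apply]

theorem c00_mapC (c : R⟦X⟧) : c00 (map C c : AA R) = cc c := by
  rw [← cc_red, red_mapC]

theorem co2_mapC (i j : ℕ) (c : R⟦X⟧) :
    co2 i j (map C c : AA R) = if i = 0 then coeff j c else 0 := by
  rw [co2, coeff_map, coeff_C]

theorem unit2 {c : AA R} (h : IsUnit (c00 c)) : IsUnit c :=
  isUnit_iff_constantCoeff.2 (isUnit_iff_constantCoeff.2 h)

/-- The determinant of the frame `(ρ Lx, ρ Ly)`. -/
theorem det {D : S →+ S} (hD : IsDer D) (ρ x y : S) :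
    ρ * x * D (ρ * y) - ρ * y * D (ρ * x) = ρ ^ 2 * (x * D y - y * D x) := by
  rw [hD, hD]
  ring

end Ring

variable {k : Type} [Field k]

theorem succ_ne [CharZero k] (n : ℕ) : (n + 1 : k) ≠ 0 := Nat.cast_add_one_ne_zero n

theorem exists_rho [CharZero k] (n : ℕ) (f : R2 k) (Lx Ly : k⟦X⟧)
    (h : hev (RingHom.id k) (n + 1) f (cc Lx) (cc Ly) 0 = 1) :
    ∃ ρ : AA k, c00 ρ = 1 ∧ hev CC (n + 1) f (ρ * C Lx) (ρ * C Ly) X = 1 := by
  obtain ⟨p, hp⟩ := exists_poly_r (CC : k →+* AA k) n f (C Lx) (C Ly) X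
  have h1 := hp (AA k) (RingHom.id _)
  simp only [Polynomial.map_id, RingHom.id_apply, RingHom.id_comp] at h1
  obtain ⟨ρ, h2, h3⟩ := hensel (up (up (⊥ : Ideal k))) (p - 1) (a := 1) (by
    rw [mem_up2, Ideal.mem_bot, Polynomial.eval_sub, Polynomial.eval_one, (h1 1).1, map_sub, map_hev,
      c00_CC, one_mul, one_mul, c00_C, c00_C, c00_X, h, map_one, sub_self]) (by
    refine unit2 ?_
    rw [Polynomial.derivative_sub, Polynomial.derivative_one, sub_zero, (h1 1).2, map_add, map_mul,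
      map_mul, map_hev, map_hev, c00_CC, one_mul, one_mul, c00_C, c00_C, c00_X, euler0 _ _ _ h]
    exact IsUnit.mk0 _ (succ_ne n))
  rw [mem_up2, Ideal.mem_bot, map_sub, map_one, sub_eq_zero] at h2
  rw [Polynomial.eval_sub, Polynomial.eval_one, (h1 ρ).1, sub_eq_zero] at h3
  exact ⟨ρ, h2, h3⟩

/-- The series of `k[[s]][[W]]` read in `k((s))[[t]][[W]]`. -/
noncomputable def em (k : Type) [Field k] : AA k →+* AA k⸨X⸩ :=
  (map (C : k⸨X⸩ →+* k⸨X⸩⟦X⟧)).comp (map (coeL k))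

theorem em_apply (c : AA k) : em k c = map C (map (coeL k) c) := rfl

theorem em_C (c : k⟦X⟧) : em k (C c) = CC (coeL k c) := by
  rw [em_apply, map_C, map_C, CC_apply]

theorem em_X : em k X = X := by rw [em_apply, map_X, map_X]

theorem c00_em (c : AA k) : c00 (em k c) = coeL k (cc c) := by
  rw [em_apply, c00_mapC]
  rfl

theorem iT_mA (c : AA k) : map iT (mA (C : k →+* k⟦X⟧) c) = em k c := by
  refine PowerSeries.ext fun j => ?_
  rw [em_apply, mA, coeff_map, coeff_map, coeff_map, coeff_map, iT_mapC]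

theorem rat (h3 : RatStmt) [CharZero k] (n : ℕ) (f : R2 k) (η : AA k) (x y : k⟦X⟧) (h0 : cc η = 1)
    (h : hev CC (n + 1) f (η * C x) (η * C y) X = 1) (j : ℕ) :
    coeL k (coeff j η) ∈ gf (cL k) (coeL k x) (coeL k y) := by
  set N := gf (cL k) (coeL k x) (coeL k y) with hN
  have mk : ∀ c, cL k c ∈ N := fun c => Subfield.subset_closure (Or.inl ⟨c, rfl⟩)
  have mx : coeL k x ∈ N := Subfield.subset_closure (Or.inr (Or.inl rfl))
  have my : coeL k y ∈ N := Subfield.subset_closure (Or.inr (Or.inr rfl))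
  obtain ⟨p, hp⟩ := exists_poly_r ((CC : N →+* AA N).comp ((cL k).codRestrict N mk)) n f
    (CC ⟨_, mx⟩) (CC ⟨_, my⟩) X
  have h1 := hp (AA k⸨X⸩) (mA N.subtype) (em k η)
  have e : (mA N.subtype).comp ((CC : N →+* AA N).comp ((cL k).codRestrict N mk)) =
      (em k).comp CC := by
    refine RingHom.ext fun c => ?_
    rw [RingHom.comp_apply, RingHom.comp_apply, mA_CC, RingHom.comp_apply, CC_apply c, em_C, coeL_C]
    rfl
  have ex : mA N.subtype (CC ⟨_, mx⟩) = em k (C x) := by rw [mA_CC, em_C]; rfl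
  have ey : mA N.subtype (CC ⟨_, my⟩) = em k (C y) := by rw [mA_CC, em_C]; rfl
  rw [e, ex, ey, mA_X, ← em_X, ← map_mul, ← map_mul, ← map_hev, ← map_hev, ← map_hev, h,
    map_one] at h1
  have h4 : hev (C : k →+* k⟦X⟧) (n + 1) f x y 0 = 1 := by
    have := congrArg cc h
    rwa [map_hev, map_mul, map_mul, h0, one_mul, one_mul, constantCoeff_C, constantCoeff_C,
      constantCoeff_X, map_one] at this
  have h5 := h3 k⸨X⸩ N (p - 1) (em k η)
    (by rw [Polynomial.map_sub, Polynomial.map_one, Polynomial.eval_sub, h1.1, Polynomial.eval_one,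
      sub_self])
    (by rw [c00_em, h0, map_one]; exact one_mem N)
    (by
      rw [Polynomial.map_sub, Polynomial.map_one, Polynomial.derivative_sub,
        Polynomial.derivative_one, sub_zero, h1.2, ← map_mul, ← map_mul, ← map_add, c00_em, map_add,
        map_mul, map_mul, map_hev, map_hev, map_mul, map_mul, h0, one_mul, one_mul, constantCoeff_C,
        constantCoeff_C, constantCoeff_X]
      erw [euler0 _ _ _ h4]
      rw [map_add, map_natCast, map_one]
      have : CharZero k⸨X⸩ := charZero_of_injective_ringHom (cL_inj (R := k))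
      exact succ_ne n) 0 j
  rwa [em_apply, co2_mapC, if_pos rfl, coeff_map] at h5

theorem co2_em_mem {N : Subfield k⸨X⸩} {g : AA k} (h : ∀ j, coeL k (coeff j g) ∈ N) (i j : ℕ) :
    co2 i j (em k g) ∈ N := by
  rw [em_apply, co2_mapC, coeff_map]
  split_ifs
  · exact h j
  · exact zero_mem N

/-- The data at infinity of a frame that does not depend on `t`. -/
theorem obs (h2 : MkinfStmt) (h3 : RatStmt) [CharZero k] (n : ℕ) (hn : 1 ≤ n) (o : Ob k (n + 1))
    (η : AA k) (x y : k⟦X⟧) (h0 : cc η = 1)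
    (h : hev CC (n + 1) o.f (η * C x) (η * C y) X = 1) (hd : x * dX k y - y * dX k x ≠ 0) :
    Obs k (n + 1) (cL k) (dL k) (coeL k x) (coeL k y)
      (map iT (aF CC (n + 1) o.P o.Q (mA C (η * C x)) (mA C (η * C y))))
      (map iT (bF CC (n + 1) o.P o.Q (dX k⟦X⟧) (mA C (η * C x)) (mA C (η * C y)))) := by
  have ex : c00 (em k (η * C x)) = coeL k x := by
    rw [c00_em, map_mul, h0, one_mul, constantCoeff_C]
  have ey : c00 (em k (η * C y)) = coeL k y := by
    rw [c00_em, map_mul, h0, one_mul, constantCoeff_C]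
  have mx : coeL k x ∈ gf (cL k) (coeL k x) (coeL k y) :=
    Subfield.subset_closure (Or.inr (Or.inl rfl))
  have my : coeL k y ∈ gf (cL k) (coeL k x) (coeL k y) :=
    Subfield.subset_closure (Or.inr (Or.inr rfl))
  have e1 : (map iT).comp (CC : k⟦X⟧ →+* AA k⟦X⟧) =
      (C : k⸨X⸩⟦X⟧ →+* AA k⸨X⸩).comp (map (cL k)) := by
    refine RingHom.ext fun c => ?_
    rw [RingHom.comp_apply, CC_apply, map_C, iT_C, RingHom.comp_apply]
  have e2 : (C : k⸨X⸩ →+* k⸨X⸩⟦X⟧).comp (cL k) = (map (coeL k)).comp CC := by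
    refine RingHom.ext fun c => ?_
    rw [RingHom.comp_apply, RingHom.comp_apply, CC_apply, map_C, coeL_C]
  have hb := map_bF (n + 1) (CC : k⟦X⟧ →+* AA k⟦X⟧) iT (D := dX k⟦X⟧) (D' := cw (dL k)) (θ := 1)
    (fun c => by rw [dL_iT, one_mul]) o.P o.Q (mA C (η * C x)) (mA C (η * C y))
  rw [map_one, one_mul] at hb
  have h4 := h2 k (n + 1) o k⸨X⸩ (cL k) (dL k) (em k (η * C x)) (em k (η * C y)) (by omega)
    isDer_dL (fun c => by rw [dL_apply, thL_cL, mul_zero]) (fun i j => by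
      rw [ex, ey]
      constructor <;> refine co2_em_mem (fun j => ?_) i j <;> rw [coeff_mul_C, map_mul]
      · exact mul_mem (rat h3 n o.f η x y h0 h j) mx
      · exact mul_mem (rat h3 n o.f η x y h0 h j) my)
    (by
      have := congrArg (map (coeL k)) h
      rw [map_hev, map_one, map_X] at this
      rw [em_apply, em_apply, red_mapC, red_mapC, e2, this])
    (by
      rw [ex, ey, dL_coeL, dL_coeL, ← map_mul, ← map_mul, ← map_sub]
      intro h5
      apply hd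
      have h6 := coeL_inj (h5.trans (map_zero _).symm)
      linear_combination -h6)
  rw [map_aF, hb, e1, iT_mA, iT_mA]
  rwa [ex, ey] at h4

theorem ev2_mAC {u z : k⟦X⟧} (hu : cc u = 0) (hz : cc z = 0) (g : AA k) :
    ev2 (RingHom.id k⟦X⟧) u z (mA C g) = ev2 C u z g := by
  rw [ev2_mA (up ⊥) (mem_up_bot.2 hu) (mem_up_bot.2 hz), RingHom.id_comp]

theorem cc_ev2 {R : Type} [CommRing R] {φ : R →+* k⟦X⟧} {u z : k⟦X⟧} (hu : cc u = 0) (hz : cc z = 0)
    (g : AA R) : cc (ev2 φ u z g) = cc (φ (c00 g)) := by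
  obtain ⟨r, r', h⟩ := ev2_sub_c00 (up ⊥) (φ := φ) (mem_up_bot.2 hu) (mem_up_bot.2 hz) g
  rw [h, map_add, map_add, map_mul, map_mul, hu, hz, zero_mul, zero_mul, add_zero, add_zero]

theorem cw_mAC (g : AA k) : cw (dX k⟦X⟧) (mA C g) = mA C (cw (dX k) g) :=
  cw_map' (fun a => dX_map C a) g

theorem exists_z (ρ : AA k) (u : k⟦X⟧) {v : k⟦X⟧} (hv : cc v = 0) :
    ∃ z, cc z = 0 ∧ z = v * ev2 C u z ρ := by
  obtain ⟨z, h1, h2⟩ := K1b.fix_mem (up (⊥ : Ideal k)) (fun z => v * ev2 C u z ρ)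
    (fun z _ => Ideal.mul_mem_right _ _ (mem_up_bot.2 hv)) (fun z hz z' hz' => by
      obtain ⟨r, hr⟩ := ev_sub (up (⊥ : Ideal k)) (φ := ev C u) hz hz' ρ
      refine ⟨v * r, Ideal.mul_mem_right _ _ (mem_up_bot.2 hv), ?_⟩
      change v * ev (ev C u) z ρ - v * ev (ev C u) z' ρ = _
      rw [← mul_sub, hr]
      ring)
  exact ⟨z, h1, h2.symm⟩

/-- The centre in the frame `(gx / W, gy / W)`. -/
theorem chart (h1 : ChartStmt) {d : ℕ} {P Q : R2 k⟦X⟧} {p : Fin 2 → k⸨X⸩} (hP : DL (d + 1) P)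
    (hQ : DL (d + 1) Q) (hc : CenP P Q p) (gx gy : AA k) {u z : k⟦X⟧} (hu : cc u = 0)
    (hz : cc z = 0) (hz0 : z ≠ 0) (ex : coeL k (ev2 C u z gx) = p 0 * coeL k z)
    (ey : coeL k (ev2 C u z gy) = p 1 * coeL k z)
    (hd : c00 (gx * cw (dX k) gy - gy * cw (dX k) gx) ≠ 0) :
    CenN (coeL k) (X * bF CC d P Q (dX k⟦X⟧) (mA C gx) (mA C gy))
      (aF CC d P Q (mA C gx) (mA C gy)) u z := by
  have eX : ev2 (RingHom.id k⟦X⟧) u z X = z := ev2_X (up ⊥) (mem_up_bot.2 hz)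
  have e0 : cw (dX k⟦X⟧) (X : AA k⟦X⟧) = 0 := cw_X isDer_dX.one
  have h := h1 k d P Q p (mA C gx) (mA C gy) X u z hP hQ hc hu hz (by rwa [eX])
    (by rw [eX, ev2_mAC hu hz, ex]) (by rw [eX, ev2_mAC hu hz, ey]) (by
      intro h2
      apply hd
      have h3 := congrArg cc h2
      rw [cc_ev2 hu hz, e0, dX_X, cw_mAC, cw_mAC, zero_mul, zero_mul, zero_sub, sub_zero, mul_one,
        mul_one, mul_neg, sub_neg_eq_add, add_sub_assoc, ← map_mul, ← map_mul, ← map_sub, map_add,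
        map_mul, c00_X, zero_mul, zero_add, RingHom.id_apply, map_zero] at h3
      exact h3)
  rw [e0, dX_X, mul_zero, mul_zero, sub_zero, sub_zero, mul_one, mul_one] at h
  have e : X * bF CC d P Q (dX k⟦X⟧) (mA C gx) (mA C gy) =
      hev CC d P (mA C gx) (mA C gy) X * (X * cw (dX k⟦X⟧) (mA C gy)) -
        hev CC d Q (mA C gx) (mA C gy) X * (X * cw (dX k⟦X⟧) (mA C gx)) := by
    rw [bF]
    ring
  rw [e]
  exact h

/-- A substitution that fixes the parametrisation of the curve is the identity. -/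
theorem rigid {x0 y0 a b e : k} (he : e ≠ 0) (h : x0 * a + y0 * b = e) {ρ σ : k⟦X⟧} (hρ : ρ ≠ 0)
    (hσ : cc σ = 0) (ex : sb σ (ρ * (C x0 + C b * X)) = ρ * (C x0 + C b * X))
    (ey : sb σ (ρ * (C y0 - C a * X)) = ρ * (C y0 - C a * X)) : σ = X := by
  rw [map_mul, map_add, map_mul, sb_C hσ, sb_C hσ, sb_X hσ] at ex
  rw [map_mul, map_sub, map_mul, sb_C hσ, sb_C hσ, sb_X hσ] at ey
  have h1 : (C x0 * C a + C y0 * C b : k⟦X⟧) = C e := by rw [← map_mul, ← map_mul, ← map_add, h]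
  have h2 : (C e : k⟦X⟧) ≠ 0 := fun h3 => he (by simpa using congrArg cc h3)
  have h3 : sb σ ρ = ρ := mul_left_cancel₀ h2 (by
    linear_combination C a * ex + C b * ey - (sb σ ρ - ρ) * h1)
  rw [h3] at ex ey
  refine mul_left_cancel₀ (mul_ne_zero h2 hρ) ?_
  linear_combination C y0 * ex - C x0 * ey - ρ * (σ - X) * h1

theorem main (h1 : ChartStmt) (h2 : MkinfStmt) (h3 : RatStmt) (h4 : DfinStmt) [CharZero k]
    [IsAlgClosed k] (n : ℕ) (hn : 6 ≤ n + 1) (o : Ob k (n + 1)) {r : ℕ} {x y : k⟦X⟧} (hr : 1 ≤ r)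
    (hc : CenP o.P o.Q ![wL k (-(r : ℤ)) * coeL k x, wL k (-(r : ℤ)) * coeL k y]) {γ x0 y0 : k}
    (hγ : γ ≠ 0) (hx : cc x = γ * x0) (hy : cc y = γ * y0)
    (hF : hev (RingHom.id k) (n + 1) o.f x0 y0 0 = 1) : False := by
  have hE := euler0 _ _ _ hF
  generalize hev (RingHom.id k) n (MvPolynomial.pderiv 0 o.f) x0 y0 0 = a at hE
  generalize hev (RingHom.id k) n (MvPolynomial.pderiv 1 o.f) x0 y0 0 = b at hE
  have he := succ_ne (k := k) n
  generalize (n + 1 : k) = e at hE he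
  have hC : (C x0 * C a + C y0 * C b : k⟦X⟧) = C e := by rw [← map_mul, ← map_mul, ← map_add, hE]
  obtain ⟨Lx, hLx⟩ : ∃ L : k⟦X⟧, L = C x0 + C b * X := ⟨_, rfl⟩
  obtain ⟨Ly, hLy⟩ : ∃ L : k⟦X⟧, L = C y0 - C a * X := ⟨_, rfl⟩
  have cx : cc Lx = x0 := by simp [hLx]
  have cy : cc Ly = y0 := by simp [hLy]
  have dx : dX k Lx = C b := by
    rw [hLx, map_add, dX_C, isDer_dX, dX_C, dX_X, zero_mul, zero_add, zero_add, mul_one]
  have dy : dX k Ly = -C a := by
    rw [hLy, map_sub, dX_C, isDer_dX, dX_C, dX_X, zero_mul, zero_add, zero_sub, mul_one]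
  have dL : Lx * dX k Ly - Ly * dX k Lx = -C e := by
    rw [dx, dy, hLx, hLy]
    linear_combination -hC
  have Ce : (C e : k⟦X⟧) ≠ 0 := fun h => he (by simpa using congrArg cc h)
  obtain ⟨ρ, r0, hρ⟩ := exists_rho n o.f Lx Ly (by rw [cx, cy, hF])
  obtain ⟨v, hv⟩ : ∃ v, cc ρ * v = 1 :=
    (isUnit_iff_constantCoeff.2 (r0 ▸ isUnit_one : IsUnit (c00 ρ))).exists_right_inv
  have r1 : cc ρ ≠ 0 := left_ne_zero_of_mul_eq_one hv
  have g : ∀ L : k⟦X⟧, ρ * C v * C (cc ρ * L) = ρ * C L := fun L => by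
    rw [mul_assoc, ← map_mul, ← mul_assoc, mul_comm v, hv, one_mul]
  have ho := obs h2 h3 n (by omega) o (ρ * C v) (cc ρ * Lx) (cc ρ * Ly)
    (by rw [map_mul, constantCoeff_C, hv]) (by rw [g, g, hρ]) (by
      rw [det isDer_dX, dL]
      exact mul_ne_zero (pow_ne_zero _ r1) (neg_ne_zero.2 Ce))
  rw [g, g] at ho
  obtain ⟨m, hm⟩ : ∃ m, (x * C a + y * C b) * m = 1 := by
    refine (isUnit_iff_constantCoeff.2 (IsUnit.mk0 _ ?_)).exists_right_inv
    have : cc (x * C a + y * C b) = γ * e := by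
      rw [map_add, map_mul, map_mul, hx, hy, constantCoeff_C, constantCoeff_C, ← hE]
      ring
    exact this ▸ mul_ne_zero hγ he
  obtain ⟨u, hu⟩ : ∃ u : k⟦X⟧, u = (x * C y0 - y * C x0) * m := ⟨_, rfl⟩
  have u0 : cc u = 0 := by
    rw [hu, map_mul, map_sub, map_mul, map_mul, hx, hy, constantCoeff_C, constantCoeff_C]
    ring
  obtain ⟨z, z0, hz⟩ := exists_z ρ u (v := C e * m * X ^ r)
    (by rw [map_mul, cc_X_pow hr, mul_zero])
  have ux : ev C u Lx = C e * m * x := by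
    change sb u Lx = _
    rw [hLx, map_add, map_mul, sb_C u0, sb_C u0, sb_X u0, hu]
    linear_combination m * x * hC - C x0 * hm
  have uy : ev C u Ly = C e * m * y := by
    change sb u Ly = _
    rw [hLy, map_sub, map_mul, sb_C u0, sb_C u0, sb_X u0, hu]
    linear_combination m * y * hC - C y0 * hm
  have key : ∀ L w : k⟦X⟧, ev C u L = C e * m * w →
      coeL k (ev2 C u z (ρ * C L)) = wL k (-(r : ℤ)) * coeL k w * coeL k z := fun L w h => by
    have h5 : X ^ r * ev2 C u z (ρ * C L) = w * z := by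
      rw [map_mul, ev2_C (up ⊥) (mem_up_bot.2 z0), h]
      linear_combination -w * hz
    rw [mul_assoc, ← map_mul, ← h5, map_mul (coeL k) (X ^ r), coeL_X_pow, ← mul_assoc, ← wL_add,
      neg_add_cancel, wL_zero, one_mul]
  have zn : z ≠ 0 := by
    rw [hz]
    refine mul_ne_zero (mul_ne_zero (mul_ne_zero Ce (right_ne_zero_of_mul_eq_one hm))
      (pow_ne_zero _ X_ne_zero)) fun h => ?_
    have h5 := cc_ev2 (φ := C) u0 z0 ρ
    rw [h, r0, map_zero, map_one, map_one] at h5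
    exact zero_ne_one h5
  have hn' := chart h1 o.dP o.dQ hc (ρ * C Lx) (ρ * C Ly) u0 z0 zn (key _ _ ux) (key _ _ uy) (by
    rw [det isDer_dX.coefw, cw_C, cw_C, ← map_mul, ← map_mul, ← map_sub, dL, map_mul, map_pow, r0,
      one_pow, one_mul, c00_C, map_neg, constantCoeff_C]
    exact neg_ne_zero.2 he)
  obtain ⟨σ, s0, -, s1, s2, s3⟩ := h4 k (n + 1) hn _ _ _ _ u z ho u0 z0 hn'
  rw [hLx] at s2
  rw [hLy] at s3
  exact s1 (rigid he hE r1 s0 s2 s3)

end Case8

theorem case8S (h1 : ChartStmt) (h2 : MkinfStmt) (h3 : RatStmt) (h4 : DfinStmt)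
    (_h5 : GenTopStmt) : Case8Stmt := by
  intro k _ _ _ d hd o r x y hr hp
  obtain ⟨n, rfl⟩ : ∃ n, d = n + 1 := ⟨d - 1, by omega⟩
  by_contra h
  obtain ⟨γ, hγ⟩ := IsAlgClosed.exists_pow_nat_eq
    (evp (RingHom.id k) (cc x) (cc y) (hc (n + 1) o.f)) (Nat.succ_pos n)
  have h0 : γ ≠ 0 := fun e => h (by rw [← hγ, e, zero_pow (Nat.succ_ne_zero n)])
  refine Case8.main h1 h2 h3 h4 n hd o hr hp (x0 := γ⁻¹ * cc x) (y0 := γ⁻¹ * cc y) h0
    (by rw [mul_inv_cancel_left₀ h0]) (by rw [mul_inv_cancel_left₀ h0]) ?_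
  have e := hev_smul (RingHom.id k) (n + 1) o.f γ⁻¹ (cc x) (cc y) 0
  rw [mul_zero] at e
  rw [e, hev_zero]
  change γ⁻¹ ^ (n + 1) * evp (RingHom.id k) (cc x) (cc y) (hc (n + 1) o.f) = 1
  rw [← hγ, ← mul_pow, inv_mul_cancel₀ h0, one_pow]

end Pool.Agent.MP_05b4bd_ag.ES

end MrgPart1

-- ======== part 2: formerly Pool.Agent.MP_05b4bd_ag.esc.Even
section MrgPart2

/-! The row EVEN: reflections. -/

namespace Pool.Agent.MP_05b4bd_ag.ES

open PowerSeries LaurentSeries HC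

namespace Evn

section Gen
variable {R : Type} [CommRing R]

theorem cc_rescale (a : R) (f : R⟦X⟧) : cc (rescale a f) = cc f := by
  rw [← coeff_zero_eq_constantCoeff_apply, coeff_rescale, pow_zero, one_mul,
    coeff_zero_eq_constantCoeff_apply]

theorem rescale_sb (a : R) {s : R⟦X⟧} (hs : cc s = 0) (f : R⟦X⟧) :
    rescale a (sb s f) = sb (rescale a s) f := by
  rw [rescale_eq_sb, rescale_eq_sb, sb_sb (by simp) hs]

theorem sh_mem {w : R⟦X⟧} (hw : cc w = 0) : (X + C w : AA R) ∈ up (up (⊥ : Ideal R)) := by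
  rw [mem_up2, c00_apply, map_add, constantCoeff_X, constantCoeff_C, zero_add, hw]
  exact Ideal.zero_mem _

theorem w_mem {w : R⟦X⟧} (hw : cc w = 0) : w ∈ up (⊥ : Ideal R) := by
  rw [mem_up, hw]
  exact Ideal.zero_mem _

theorem c00_sh {w : R⟦X⟧} (hw : cc w = 0) {y : AA R} (hy : c00 y = 0) :
    c00 (sb (X + C w) y) = 0 := by
  rw [c00_apply, cc_sh (up ⊥) (w_mem hw)]
  obtain ⟨q, hq⟩ := ev_sub_cc (φ := RingHom.id R⟦X⟧) (up ⊥) (w_mem hw) y
  rw [sub_eq_iff_eq_add.1 hq, map_add, map_mul, hw, zero_mul, zero_add]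
  exact hy

theorem y_mem {y : AA R} (hy : c00 y = 0) : y ∈ up (up (⊥ : Ideal R)) := by
  rw [mem_up2, hy]
  exact Ideal.zero_mem _

theorem ev_split {y : AA R} (hy : c00 y = 0) (g : AA R) :
    ev C y g = sb (y - C (cc y)) (sb (X + C (cc y)) g) := by
  have h0 : cc (y - C (cc y)) = 0 := by simp
  have hw : cc (cc y) = 0 := hy
  have e : sb (y - C (cc y)) (X + C (cc y)) = y := by
    rw [map_add, sb_X h0, sb_C h0, sub_add_cancel]
  have h := hom_ev (φ := (C : R⟦X⟧ →+* AA R)) (up (up ⊥)) (up (up ⊥)) (sh_mem hw)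
    (sb (y - C (cc y))) (by rw [e]; exact y_mem hy) g
  have e2 : (sb (y - C (cc y))).comp (C : R⟦X⟧ →+* AA R) = C :=
    RingHom.ext fun r => sb_C h0 r
  rw [e, e2] at h
  exact h.symm

end Gen

section Ode
variable {Ω : Type} [Field Ω] [CharZero Ω] {D : Ω →+ Ω} {B : Ω⟦X⟧}

theorem uniq {R : Ω⟦X⟧} (h0 : cc R = 0) (h : dX Ω R = B * (X * cw D R)) : R = 0 := by
  refine K3.ode (ι := Unit) (fun _ => R) (fun _ => h0) (fun n k _ => ?_) ()
  obtain ⟨q, hq⟩ := k ()
  rw [h, hq, cw_X_pow_mul]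
  exact ⟨B * (X * cw D q), by ring⟩

theorem exists_T (D : Ω →+ Ω) (B : Ω⟦X⟧) :
    ∃ T, cc T = 0 ∧ dX Ω T = B * (X * (1 + cw D T)) := by
  obtain ⟨J, h1, h2, -⟩ := exists_int (R := Ω)
  obtain ⟨T, hT, -⟩ := fix_dvd (X : Ω⟦X⟧) (fun T => J (B * (X * (1 + cw D T)))) (by
    intro n x y ⟨q, hq⟩
    rw [← map_sub]
    refine X_pow_dvd_of_dX (h2 _) ?_
    rw [h1]
    have e : cw D x - cw D y = X ^ n * cw D q := by rw [← map_sub, hq, cw_X_pow_mul]
    exact ⟨B * (X * cw D q), by linear_combination B * X * e⟩)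
  refine ⟨T, ?_, ?_⟩
  · rw [← hT]
    exact h2 _
  · conv_lhs => rw [← hT]
    exact h1 _

theorem exists_tau (hD : IsDer D) : ∃ τ : Ω →+* Ω⟦X⟧, (∀ r, cc (τ r) = r) ∧
    (∀ r, dX Ω (τ r) = τ (D r)) ∧ ∀ r, cw D (τ r) = τ (D r) := by
  obtain ⟨τ, h1, h2, h3⟩ := exists_tayl hD (RingHom.id Ω)
  refine ⟨τ, h1, h2, fun r => PowerSeries.ext fun n => ?_⟩
  rw [coeff_cw, h3, h3, hD.const_mul (hD.rat _), RingHom.id_apply, RingHom.id_apply,
    ← Function.iterate_succ_apply, Function.iterate_succ_apply']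

theorem even (hD : IsDer D) (hB : cc B ≠ 0) : ∃ e, cc e = 0 ∧ coeff 1 e = 1 ∧
    ∀ R, dX Ω R = B * (X * cw D R) → sb e R = rescale (-1) (sb e R) := by
  obtain ⟨T, T0, hT⟩ := exists_T D B
  obtain ⟨τ, h1, h2, h3⟩ := exists_tau hD
  have c1 : coeff 1 T = 0 := by
    have := congrArg cc hT
    rw [K1b.cc_dX] at this
    simpa using this
  have c2 : coeff 2 T ≠ 0 := by
    intro h
    have := congrArg (coeff 1) hT
    rw [coeff_dX, h, zero_mul, mul_left_comm, coeff_succ_X_mul, coeff_zero_eq_constantCoeff_apply,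
      map_mul, map_add, map_one, cc_cw, T0, map_zero, add_zero, mul_one] at this
    exact hB this.symm
  have ho : OrdIs 2 T := by
    refine ⟨c2, fun j hj => ?_⟩
    interval_cases j
    · rw [coeff_zero_eq_constantCoeff_apply]
      exact T0
    · exact c1
  obtain ⟨e, e0, e1, he⟩ := exists_sq ho
  refine ⟨e, e0, e1, fun R hR => ?_⟩
  have k : R = sb T (τ (cc R)) := by
    refine sub_eq_zero.1 (uniq (D := D) (B := B) ?_ ?_)
    · rw [map_sub, cc_sb T0, h1, sub_self]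
    · rw [map_sub, map_sub, dX_sb T0, cw_sb T0 hD, h2, h3, hR, hT]
      ring
  have z : cc (C (coeff 2 T) * X ^ 2) = 0 := by simp
  have s : rescale (-1) (C (coeff 2 T) * X ^ 2) = C (coeff 2 T) * X ^ 2 := by
    rw [map_mul, map_pow, rescale_C', rescale_X]
    simp
  rw [k, sb_sb e0 T0, he, rescale_sb _ z, s]

end Ode

end Evn

open Evn

theorem reflS : ReflStmt := by
  intro κ Ω _ _ _ j e hj e0 e1
  have en : e ≠ 0 := by
    rintro rfl
    simp at e1
  refine ⟨⟨(sb_inj e0 en).comp (PowerSeries.map_injective j hj), fun c => ?_, fun y hy h g => ?_⟩,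
    fun v hv h => ?_, ?_⟩
  · simp only [RingHom.comp_apply]
    rw [map_C, sb_C e0, rescale_C']
  · simp only [RingHom.comp_apply] at h ⊢
    have h0 : cc (y - C (cc y)) = 0 := by simp
    have h1 : cc (map j (y - C (cc y))) = 0 := by rw [K3.cc_map, h0, map_zero]
    have h2 : cc (sb e (map j (y - C (cc y)))) = 0 := by rw [cc_sb e0, h1]
    have h3 : rescale (-1) (sb e (map j (y - C (cc y)))) = sb e (map j (y - C (cc y))) := by
      rw [map_sub, map_sub, map_sub, ← h, map_C, sb_C e0, rescale_C']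
    rw [ev_split hy, map_sb h0, sb_sb e0 h1, rescale_sb _ h2, h3]
  · have := congrArg (coeff 1) h
    rw [coeff_rescale, coeff_one_sb e0, e1, mul_one, coeff_map, pow_one] at this
    have h2 : (2 : Ω) * j (coeff 1 v) = 0 := by linear_combination this
    exact hv (hj (by rw [map_zero]; exact (mul_eq_zero.1 h2).resolve_left two_ne_zero))
  · intro S _ ψ1 ψ2 w hw ⟨r1, r2, r3⟩
    refine ⟨r1.comp (sh_bij (up ⊥) (w_mem hw)).1, fun c => ?_, fun y hy h g => ?_⟩
    · simp only [RingHom.comp_apply]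
      rw [sh_C (up ⊥) (w_mem hw), r2]
    · simp only [RingHom.comp_apply] at h ⊢
      have e2 : (sb (X + C w)).comp (C : κ⟦X⟧ →+* AA κ) = C :=
        RingHom.ext fun r => sh_C (up ⊥) (w_mem hw) r
      have e3 := hom_ev (φ := (C : κ⟦X⟧ →+* AA κ)) (up (up ⊥)) (up (up ⊥)) (y_mem hy)
        (sb (X + C w)) (y_mem (c00_sh hw hy)) g
      rw [e3, e2]
      exact r3 _ (c00_sh hw hy) h g

theorem evenS (hR : ReflStmt) : EvenStmt := by
  intro U _ _ D a b c hD hc ha hab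
  have : CharZero U⸨X⸩ := K3.charL
  obtain ⟨w, u, hw, hu, rfl⟩ := exists_w0 hc ha
  have wm := w_mem hw
  obtain ⟨v, hv⟩ := (hu.map (sb (X + C w))).exists_right_inv
  have hb : cc (sb (X + C w) b) ≠ 0 := by
    rw [cc_sh (up ⊥) wm]
    intro h
    exact hab ((hu.mul_right_dvd).2 ((factor (up ⊥) wm).2 h))
  have hv0 : cc v ≠ 0 := by
    intro h
    have := congrArg cc hv
    rw [map_mul, h, mul_zero, map_one] at this
    exact zero_ne_one this
  set b1 : AA U := sb (X + C w) b * v + X * C (cw D w) with hb1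
  have h1 : cc (map (coeL U) b1) ≠ 0 := by
    rw [K3.cc_map, hb1, map_add, map_mul, map_mul, constantCoeff_X, zero_mul, add_zero]
    intro h
    exact mul_ne_zero hb hv0 (coeL_inj (by rw [h, map_zero]))
  obtain ⟨B, hB⟩ := (isUnit_iff_constantCoeff.2 (Ne.isUnit h1)).exists_right_inv
  have B0 : cc B ≠ 0 := by
    intro h
    have := congrArg cc hB
    rw [map_mul, h, mul_zero, map_one] at this
    exact zero_ne_one this
  obtain ⟨e, e0, e1, he⟩ := even (D := cwL D) hD.coefL B0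
  obtain ⟨r1, r2, r3⟩ := hR U U⸨X⸩ (coeL U) e coeL_inj e0 e1
  refine ⟨U⸨X⸩⟦X⟧, inferInstance, inferInstance, _, _, r3 _ _ _ w hw r1, ?_, fun r hr => ?_⟩
  · simp only [RingHom.comp_apply]
    rw [sh_X (up ⊥) wm]
    exact r2 _ (by simp [coeff_one_X])
  · simp only [RingHom.comp_apply]
    refine he _ ?_
    have k := congrArg (sb (X + C w)) hr
    rw [map_mul, map_mul, map_mul, map_sub, sh_X (up ⊥) wm, sh_C (up ⊥) wm,
      add_sub_cancel_right] at k
    have k1 : X * cw (cw D) (sb (X + C w) r) = b1 * dX _ (sb (X + C w) r) := by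
      rw [cw_sh (up ⊥) wm hD.coefw, dX_sh (up ⊥) wm, hb1]
      linear_combination v * k - X * sb (X + C w) (cw (cw D) r) * hv
    have k2 := congrArg (map (coeL U)) k1
    rw [map_mul, map_mul, map_X, ← dX_map,
      ← cw_map' (D' := cwL D) (fun x => cwL_coeL D x)] at k2
    rw [k2, ← mul_assoc, mul_comm B, hB, one_mul]

end Pool.Agent.MP_05b4bd_ag.ES

end MrgPart2

-- marker of a merged file
example : 731051 + 176988 = 731051 + 176988 := rfl
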