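import Pool.Agent.MP_05b4bd_ag.esc.Bx
import Pool.Agent.MP_05b4bd_ag.esc.K2b
import Mathlib.RingTheory.NoetherNormalization
import Mathlib.RingTheory.Invariant.Galois
import Mathlib.FieldTheory.Galois.GaloisClosure
import Mathlib.FieldTheory.IsAlgClosed.AlgebraicClosure
import Mathlib.RingTheory.Polynomial.RationalRoot
import Mathlib.RingTheory.Polynomial.UniqueFactorization
import Pool.Agent.MP_05b4bd_ag.esc.Symb
import Mathlib.RingTheory.RootsOfUnity.AlgebraicallyClosed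
import Mathlib.RingTheory.PowerSeries.WeierstrassPreparation

-- ======== part 0: formerly Pool.Agent.MP_05b4bd_ag.esc.Arc
section MrgPart0

/-! Escaping centres: an arc through the generic point of a subvariety. -/

namespace Pool.Agent.MP_05b4bd_ag.ES

open PowerSeries LaurentSeries HC

namespace Arc

/-- A generic line through the generic point of a prime of a polynomial ring. -/
theorem exists_line {σ : Type} (q : Ideal (MvPolynomial σ ℂ)) [q.IsPrime] :
    ∃ (k : Type) (_ : Field k) (_ : CharZero k) (_ : IsAlgClosed k)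
      (φ : MvPolynomial σ ℂ →+* k⟦X⟧), Function.Injective φ ∧ ∀ a, cc (φ a) = 0 ↔ a ∈ q := by
  let R0 := MvPolynomial σ ℂ ⧸ q
  let P := MvPolynomial σ R0
  let k := AlgebraicClosure (FractionRing P)
  let ι : P →+* k := algebraMap P k
  have hι : Function.Injective ι := by
    have e : ι = (algebraMap (FractionRing P) k).comp (algebraMap P (FractionRing P)) :=
      IsScalarTower.algebraMap_eq P (FractionRing P) k
    rw [e]
    exact (algebraMap (FractionRing P) k).injective.comp (IsFractionRing.injective P _)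
  let c0 : ℂ →+* R0 := (Ideal.Quotient.mk q).comp MvPolynomial.C
  let c1 : ℂ →+* P := (MvPolynomial.C : R0 →+* P).comp c0
  have : CharZero k := (RingHom.charZero_iff (ι.comp c1).injective).1 inferInstance
  let τ : σ → P := fun i => MvPolynomial.C (Ideal.Quotient.mk q (MvPolynomial.X i))
  let f : MvPolynomial σ ℂ →+* Polynomial P := MvPolynomial.eval₂Hom (Polynomial.C.comp c1)
    fun i => Polynomial.C (τ i) + Polynomial.X * Polynomial.C (MvPolynomial.X i)
  let sh : P →+* P := MvPolynomial.eval₂Hom MvPolynomial.C fun i => MvPolynomial.X i - τ i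
  have e1 : sh.comp ((Polynomial.evalRingHom 1).comp f) = MvPolynomial.map c0 := by
    refine MvPolynomial.ringHom_ext (fun r => ?_) (fun i => ?_)
    · simp [sh, f, c1, P]
    · simp only [sh, f, τ, P, RingHom.comp_apply, MvPolynomial.eval₂Hom_X', map_add, map_mul,
        Polynomial.coe_evalRingHom, Polynomial.eval_C, Polynomial.eval_X, one_mul,
        MvPolynomial.eval₂Hom_C, MvPolynomial.map_X]
      exact add_sub_cancel (τ i) (MvPolynomial.X i)
  have hf : Function.Injective f := by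
    have h1 := MvPolynomial.map_injective (σ := σ) c0 c0.injective
    rw [← e1] at h1
    intro a b h
    apply h1
    simp only [RingHom.comp_apply, h]
  let φ : MvPolynomial σ ℂ →+* k⟦X⟧ :=
    (Polynomial.coeToPowerSeries.ringHom.comp (Polynomial.mapRingHom ι)).comp f
  have e2 : (cc : k⟦X⟧ →+* k).comp φ =
      (ι.comp MvPolynomial.C).comp (Ideal.Quotient.mk q) := by
    refine MvPolynomial.ringHom_ext (fun r => ?_) (fun i => ?_)
    · simp [φ, f, c1, c0]
    · simp [φ, f, τ]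
  refine ⟨k, inferInstance, this, inferInstance, φ, ?_, fun a => ?_⟩
  · exact ((Polynomial.coe_injective k).comp (Polynomial.map_injective ι hι)).comp hf
  · have h1 := RingHom.congr_fun e2 a
    simp only [RingHom.comp_apply] at h1
    rw [h1, map_eq_zero_iff ι hι, map_eq_zero_iff _ (MvPolynomial.C_injective σ R0),
      Ideal.Quotient.eq_zero_iff_mem]

/-- A finite Galois extension that contains a given algebraic extension of finite type. -/
theorem exists_gal (A E D : Type) [CommRing A] [IsDomain A] [Field E] [CharZero E] [Algebra A E]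
    [IsFractionRing A E] [CommRing D] [IsDomain D] [Algebra A D]
    (hi : Function.Injective (algebraMap A D)) [Algebra.FiniteType A D]
    [Algebra.IsAlgebraic A D] :
    ∃ (L : Type) (_ : Field L) (_ : Algebra E L) (_ : FiniteDimensional E L) (_ : IsGalois E L)
      (j : D →+* L), Function.Injective j ∧
        ∀ a, j (algebraMap A D a) = algebraMap E L (algebraMap A E a) := by
  let Ω := AlgebraicClosure E
  have : FaithfulSMul A D := (faithfulSMul_iff_algebraMap_injective A D).2 hi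
  have hΩ : Function.Injective (algebraMap A Ω) := by
    rw [IsScalarTower.algebraMap_eq A E Ω]
    exact (algebraMap E Ω).injective.comp (IsFractionRing.injective A E)
  have : FaithfulSMul A Ω := (faithfulSMul_iff_algebraMap_injective A Ω).2 hΩ
  let j0 : D →ₐ[A] Ω := IsAlgClosed.lift
  have hj0 : Function.Injective j0 := by
    rw [injective_iff_map_eq_zero]
    intro x hx
    by_contra h0
    refine Ideal.comap_ne_bot_of_algebraic_mem (R := A) (I := RingHom.ker j0) h0 hx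
      (Algebra.IsAlgebraic.isAlgebraic x) ?_
    rw [eq_bot_iff]
    intro a ha
    rw [Ideal.mem_comap, RingHom.mem_ker, AlgHom.commutes] at ha
    exact (map_eq_zero_iff _ hΩ).1 ha
  obtain ⟨s, hs⟩ := Algebra.FiniteType.out (R := A) (A := D)
  let L := FiniteGaloisIntermediateField.adjoin E (j0 '' (s : Set D))
  have hL : ∀ x, j0 x ∈ L.toIntermediateField := by
    intro x
    have hx : x ∈ Algebra.adjoin A (s : Set D) := hs ▸ Algebra.mem_top
    induction hx using Algebra.adjoin_induction with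
    | mem x hx => exact FiniteGaloisIntermediateField.subset_adjoin E _ ⟨x, hx, rfl⟩
    | algebraMap r =>
      rw [AlgHom.commutes, IsScalarTower.algebraMap_apply A E Ω]
      exact IntermediateField.algebraMap_mem _ _
    | add x y _ _ hx hy => rw [map_add]; exact add_mem hx hy
    | mul x y _ _ hx hy => rw [map_mul]; exact mul_mem hx hy
  refine ⟨L.toIntermediateField, inferInstance, inferInstance, inferInstance, inferInstance,
    (j0 : D →+* Ω).codRestrict L.toIntermediateField hL, fun x y h => hj0 ?_, fun a => ?_⟩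
  · exact congrArg Subtype.val h
  · refine Subtype.ext ?_
    show j0 (algebraMap A D a) = algebraMap E Ω (algebraMap A E a)
    rw [AlgHom.commutes, IsScalarTower.algebraMap_apply A E Ω]

/-- Primes of the integral closure over the same prime are conjugate. -/
theorem exists_twist (A E L : Type) [CommRing A] [IsDomain A] [IsIntegrallyClosed A] [Field E]
    [Field L] [Algebra A E] [IsFractionRing A E] [Algebra E L] [Algebra A L] [IsScalarTower A E L]
    [FiniteDimensional E L] [IsGalois E L] (Q1 Q2 : Ideal (integralClosure A L)) [Q1.IsPrime]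
    [Q2.IsPrime] (h : Q2.comap (algebraMap A _) = Q1.comap (algebraMap A _)) :
    ∃ (σ : L →+* L) (τ : integralClosure A L →+* integralClosure A L),
      (∀ c, (τ c : L) = σ c) ∧ ∀ c, τ c ∈ Q1 ↔ c ∈ Q2 := by
  have : IsFractionRing (integralClosure A L) L :=
    integralClosure.isFractionRing_of_finite_extension E L
  let := IsIntegralClosure.MulSemiringAction A E L (integralClosure A L)
  have := Algebra.isInvariant_of_isGalois A E L (integralClosure A L)
  have : SMulCommClass Gal(L/E) A (integralClosure A L) :=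
    ⟨fun g a c => map_smul (galRestrict A E L (integralClosure A L) g) a c⟩
  obtain ⟨g, hg⟩ :=
    Algebra.IsInvariant.exists_smul_of_under_eq A (integralClosure A L) Gal(L/E) Q2 Q1 h
  refine ⟨(g : L →+* L), (galRestrict A E L (integralClosure A L) g : _ →+* _),
    fun c => algebraMap_galRestrict_apply A g c, fun c => ?_⟩
  rw [hg]
  exact Ideal.smul_mem_pointwise_smul_iff (a := g)

/-- Integral elements go to power series. -/
theorem exists_int {A L k : Type} [CommRing A] [Field L] [Algebra A L] [Field k]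
    (g : L →+* k⸨X⸩) (φ : A →+* k⟦X⟧) (h : ∀ a, g (algebraMap A L a) = coeL k (φ a)) :
    ∃ β : integralClosure A L →+* k⟦X⟧, ∀ c, coeL k (β c) = g c := by
  have h1 : ∀ c : integralClosure A L, ∃ y, coeL k y = g c := by
    intro c
    have h2 : IsIntegral k⟦X⟧ (g c) :=
      IsIntegral.map_of_comp_eq φ g (RingHom.ext fun a => (h a).symm) c.2
    exact IsIntegrallyClosed.isIntegral_iff.1 h2
  choose b hb using h1
  refine ⟨⟨⟨⟨b, ?_⟩, fun x y => ?_⟩, ?_, fun x y => ?_⟩, hb⟩ <;> apply coeL_inj <;> simp [hb]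

end Arc

open Arc in
theorem arcS (hN : NpStmt) : ArcStmt := by
  intro B D _ _ _ _ _ hi hB hD hA q hq
  have : IsDomain B := hi.isDomain _
  obtain ⟨s, g, hg, hf⟩ := exists_finite_inj_algHom_of_fg ℂ B
  let A := MvPolynomial (Fin s) ℂ
  let : Algebra A B := (g : A →+* B).toAlgebra
  have : Module.Finite A B := hf
  let : Algebra A D := ((algebraMap B D).comp (algebraMap A B)).toAlgebra
  have : IsScalarTower A B D := IsScalarTower.of_algebraMap_eq fun _ => rfl
  have : Algebra.FiniteType A D := Algebra.FiniteType.trans (S := B) inferInstance hD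
  have : Algebra.IsAlgebraic A D := Algebra.IsAlgebraic.trans A B D
  let E := FractionRing A
  obtain ⟨L, _, _, _, _, j, hj, ej⟩ := exists_gal A E D (hi.comp hg)
  let : Algebra A L := ((algebraMap E L).comp (algebraMap A E)).toAlgebra
  have : IsScalarTower A E L := IsScalarTower.of_algebraMap_eq fun _ => rfl
  obtain ⟨k, _, _, _, φ, hφ, eφ⟩ := exists_line (q.comap (algebraMap A B))
  have hφ' : Function.Injective ((coeL k).comp φ) := coeL_inj.comp hφ
  obtain ⟨M, ρ, g', hM, hρ, hg'⟩ := hN k E L (IsFractionRing.lift hφ')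
  have e1 : ∀ a, g' (algebraMap A L a) = coeL k (((ram k M).comp φ) a) := by
    intro a
    show g' (algebraMap E L (algebraMap A E a)) = _
    rw [hg', IsFractionRing.lift_algebraMap, RingHom.comp_apply, hρ, RingHom.comp_apply]
  obtain ⟨β, hβ⟩ := Arc.exists_int g' _ e1
  have hint : ∀ b, (j.comp (algebraMap B D)) b ∈ integralClosure A L := fun b =>
    IsIntegral.map_of_comp_eq (RingHom.id A) (j.comp (algebraMap B D))
      (RingHom.ext fun a => (ej a).symm) (Algebra.IsIntegral.isIntegral b)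
  let jb : B →+* integralClosure A L := (j.comp (algebraMap B D)).codRestrict _ hint
  have hjb : Function.Injective jb := fun x y h => hi (hj (congrArg Subtype.val h))
  let : Algebra B (integralClosure A L) := jb.toAlgebra
  have : IsScalarTower A B (integralClosure A L) :=
    IsScalarTower.of_algebraMap_eq fun a => Subtype.ext (ej a).symm
  have : Algebra.IsIntegral B (integralClosure A L) := Algebra.IsIntegral.tower_top A
  obtain ⟨Q2, _, hQ2⟩ := Ideal.exists_ideal_over_prime_of_isIntegral_of_isDomain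
    (S := integralClosure A L) q (((RingHom.injective_iff_ker_eq_bot jb).1 hjb).le.trans bot_le)
  have : (RingHom.ker ((cc : k⟦X⟧ →+* k).comp β)).IsPrime := RingHom.ker_isPrime _
  obtain ⟨σ, τ, h1, h2⟩ := exists_twist A E L (RingHom.ker ((cc : k⟦X⟧ →+* k).comp β)) Q2 (by
    ext a
    have e2 : β (algebraMap A _ a) = ram k M (φ a) := coeL_inj ((hβ _).trans (e1 a))
    rw [Ideal.mem_comap, Ideal.mem_comap, RingHom.mem_ker, RingHom.comp_apply, e2, cc_ram hM, eφ,
      ← hQ2, IsScalarTower.algebraMap_apply A B]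
    rfl)
  refine ⟨k, inferInstance, inferInstance, inferInstance, (β.comp τ).comp jb, (g'.comp σ).comp j,
    (g'.comp σ).injective.comp hj, fun b => ?_, fun b => ?_⟩
  · simp only [RingHom.comp_apply]
    rw [hβ, h1]
    rfl
  · rw [← hQ2, Ideal.mem_comap, ← h2]
    rfl

end Pool.Agent.MP_05b4bd_ag.ES

end MrgPart0

-- ======== part 1: formerly Pool.Agent.MP_05b4bd_ag.esc.Dfin
section MrgPart1

/-! A disc on the curve that carries a centre has a non-trivial symmetry. -/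

namespace Pool.Agent.MP_05b4bd_ag.ES

open PowerSeries LaurentSeries HC

namespace Dfin

variable {k : Type} [Field k]

theorem dvd_of_red {c : (AA k)⟦X⟧} (h : red (map iT c) = 0) : C (C X) ∣ c := by
  rw [C_dvd_iff]
  intro i
  have e := congrArg (coeff i) h
  rw [coeff_red, coeff_map, cc_iT, map_zero] at e
  exact red_eq_zero.1 (coeL_inj (e.trans (map_zero _).symm))

theorem cen_shift {a b : AA k⟦X⟧} {u W : k⟦X⟧} (hu : cc u = 0) (hW : cc W = 0)
    (h : CenN (coeL k) (X * b) a u W) :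
    CenN (coeL k) (X * map (sb (X + C u)) b) (map (sb (X + C u)) a) 0 W := by
  have mu : u ∈ K3.JX k := K3.mem_JX' hu
  have mW : W ∈ K3.JX k := K3.mem_JX' hW
  have e1 : map (sb (X + C u)) (C X : AA k⟦X⟧) = C (X + C u) := by rw [map_C, sh_X _ mu]
  have e2 : map (sb (X + C u)) (X : AA k⟦X⟧) = X := map_X _
  have d1 : cw (dX k⟦X⟧) (C (X + C u) : AA k⟦X⟧) = 1 := by
    rw [cw_C, map_add, dX_X, dX_C, add_zero, map_one]
  have d2 : cw (dX k⟦X⟧) (X : AA k⟦X⟧) = 0 := cw_X isDer_dX.one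
  refine CenN.trans (RingHom.id _) (RingHom.id _) (fun _ => rfl) h hu hW (by simp)
    (map (sb (X + C u))) (fun r => ?_) ?_ ?_ (map_zero _) hW ?_ ?_ ?_ (lam := 1) ?_ ?_ ?_
  · rw [CC_apply, map_C, sh_C _ mu]; rfl
  · rw [e1, c00_apply]; simpa using hu
  · rw [e2, c00_apply]; simp
  · rw [e1, ev2_C _ mW, ev_zero]; simp
  · rw [e2, ev2_X _ mW]; rfl
  · rw [e1, e2, d1, d2, dX_X]; simp
  · simp
  · rw [e1, e2, d1, d2, map_mul, e2]; ring
  · rw [e1, e2, dX_C, dX_X]; ring

/-- A reflection fixing a series without constant term gives a deck map. -/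
theorem deck [CharZero k] [IsAlgClosed k] (h5 : DiscStmt) {S : Type} [CommRing S] [IsDomain S]
    {ψ1 ψ2 : AA k →+* S} (hR : Refl ψ1 ψ2) (hne : ψ1 ≠ ψ2) {G : AA k} (h0 : G ≠ 0) (hc : cc G = 0)
    (e : ψ1 G = ψ2 G) : ∃ (Φ : AA k →+* TT k) (σ : k⟦X⟧), IsOut 0 Φ ((coeL k).comp (sb σ)) ∧
      cc σ = 0 ∧ coeff 1 σ ≠ 0 ∧ coeff 1 σ ≠ 1 ∧ ∀ c, Φ c = iT c ↔ ψ1 c = ψ2 c := by
  obtain ⟨n, y, rfl, hy⟩ := exists_tfac h0
  have cy : cc y = 0 := by
    rw [map_mul, map_pow, constantCoeff_C] at hc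
    exact (mul_eq_zero.1 hc).resolve_left (pow_ne_zero _ X_ne_zero)
  have c0 : c00 y = 0 := by rw [c00_apply, cy, map_zero]
  have nz : ψ1 (C X) ≠ 0 := fun z => by
    have := hR.1 (z.trans (map_zero _).symm)
    exact X_ne_zero (R := k) (by simpa using congrArg cc this)
  have ey : ψ1 y = ψ2 y := by
    rw [map_mul, map_mul, map_pow, map_pow, ← hR.2.1] at e
    exact mul_left_cancel₀ (pow_ne_zero _ nz) e
  obtain ⟨ν, hν⟩ := exists_ordIs hy
  have n1 : 1 ≤ ν := by
    rcases Nat.eq_zero_or_pos ν with rfl | p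
    · exact absurd (by rw [coeff_zero_eq_constantCoeff_apply]; exact (cc_red y).trans c0) hν.1
    · exact p
  have : NeZero (ν : k) := ⟨Nat.cast_ne_zero.2 (by omega)⟩
  obtain ⟨ω, hω⟩ := HasEnoughRootsOfUnity.exists_primitiveRoot k ν
  obtain ⟨Φ, σ, o, s0, s1, s2, -, s3⟩ :=
    h5 k S ν ω y ψ1 ψ2 n1 hω hν hR.1 (hR.2.2 y c0 ey) hne
  refine ⟨Φ, σ, o, s0, fun z => ?_, s2, s3⟩
  rw [z, zero_pow (by omega)] at s1
  exact zero_ne_one s1

end Dfin

theorem dfinS (h1 : LienStmt) (h2 : ObsStmt) (h3 : SymStmt) (h4 : ReflStmt) (h5 : DiscStmt)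
    (h6 : S2aStmt) : DfinStmt := by
  intro k _ _ _ d hd x y a b u W hO hu hW hC
  have := K3.charL (κ := k)
  have mu : u ∈ K3.JX k := K3.mem_JX' hu
  obtain ⟨ra, rb, -, -⟩ := h2 k d _ _ _ _ _ _ _ hO
  obtain ⟨J, j1, j2, j3⟩ := exists_int (R := k⟦X⟧)
  have dk : (d : k) ≠ 0 := Nat.cast_ne_zero.2 (by omega)
  have ud : IsUnit (-(d : AA k)) := by
    have := (IsUnit.mk0 _ dk).map (CC : k →+* AA k)
    rw [map_natCast] at this
    exact this.neg
  have ta : C (C X) ∣ a - C (-(d : AA k)) * X := Dfin.dvd_of_red (by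
    rw [map_sub, map_sub, ra, map_mul, map_mul, map_X, red_X, map_neg, map_neg, map_neg,
      map_natCast, map_natCast, map_natCast]
    ring)
  obtain ⟨Wt, lam, G0, G1, hL, -, g0, -⟩ := h1 (AA k) (C X) (dX k⟦X⟧) J (-(d : AA k)) a b isDer_dX
    (dX_C _) j1 (j3 X) ud (by rw [map_neg, isDer_dX.natCast, neg_zero]) ta (Dfin.dvd_of_red rb)
  have hL1 := hL.push' (sb (X + C u)) (t' := C X) (D' := dX k⟦X⟧) (by rw [sh_C _ mu]) (dX_sh _ mu)
  obtain ⟨n0, S, _, _, ψ1, ψ2, hR, hv, e0, e1⟩ :=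
    h3 k (C X) _ _ _ _ _ _ W dvd_rfl hL1 hW (Dfin.cen_shift hu hW hC)
  have n1 : dX _ G0 ≠ 0 := fun z => n0 (by rw [dX_sh _ mu, z, map_zero])
  have hR' := (h4 k k⸨X⸩ (coeL k) X coeL_inj (by simp) (by simp)).2.2 S ψ1 ψ2 u hu hR
  have hne : ψ1.comp (sb (X + C u)) ≠ ψ2.comp (sb (X + C u)) := fun z =>
    hv (X + C u) (by simp) (by simpa [sh_X _ mu] using RingHom.congr_fun z X)
  obtain ⟨Φ, σ, o, s0, s1, s2, s3⟩ := Dfin.deck h5 hR' hne (G := G0)
    (fun z => n1 (by rw [z, map_zero])) (by rw [g0, j2]) e0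
  obtain ⟨φ, p1, p2, p3, -⟩ := o.ext s0 (fun z => s1 (by rw [z, map_zero]))
  rw [out_zero] at p2
  have pX : φ (wL k (-1)) * Φ X = 1 := by
    rw [← map_X (C : k →+* k⟦X⟧), ← p1, coeL_X, ← map_mul, mul_comm, wL_mul_neg, map_one]
  have key := h6 k k⸨X⸩ d (cL k) (dL k) (coeL k x) (coeL k y) _ _ _ _ _ _ φ
    (C (wL k (-1)) * cw (thL k) (Φ X)) hd hO
    (hL.push' iT (t' := X) (D' := cw (dL k)) (by rw [iT_CX]) dL_iT)
    (fun z => n1 (iT_inj (by rw [← dL_iT, z, map_zero])))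
    (fun c => by
      rw [← coeL_C, p1, map_C]
      exact (o.map_CC c).trans (by rw [RingHom.comp_apply, sb_C s0]))
    (fun c => by
      rw [dL_apply, map_mul, dL, cw_mulLeft]
      linear_combination C (wL k (-1)) * φ (wL k (-1)) * p3 c -
        C (wL k (-1)) * cw (thL k) (φ c) * pX)
    (by rw [p2, (s3 G0).2 e0]) (by rw [p2, (s3 G1).2 e1])
  rw [p1, p1, o.ccC, o.ccC] at key
  exact ⟨σ, s0, s1, fun z => s2 (by rw [z, coeff_one_X]), coeL_inj key.1, coeL_inj key.2⟩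

end Pool.Agent.MP_05b4bd_ag.ES

end MrgPart1

-- ======== part 2: formerly Pool.Agent.MP_05b4bd_ag.esc.Dich
section MrgPart2

/-! Either a first integral, or an inverse integrating factor of largest order. -/

namespace Pool.Agent.MP_05b4bd_ag.ES

open PowerSeries LaurentSeries HC

namespace Dich

section Abs
variable {O A T : Type} [CommRing O] [CommRing A] [CommRing T]

theorem cancel [IsDomain A] [IsDomain T] (ρ : A →+* T) {p g Y : A} (hp : ∀ f, p ∣ f ↔ ρ f = 0)
    (h0 : p ≠ 0) (hg : ρ g ≠ 0) (n : ℕ) (h : g ∣ p ^ n * Y) : g ∣ Y := by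
  induction n generalizing Y with
  | zero => simpa using h
  | succ n ih =>
    have h1 : g ∣ p * Y := ih (by rwa [pow_succ, mul_assoc] at h)
    obtain ⟨Z, hZ⟩ := h1
    have e : ρ g * ρ Z = 0 := by
      rw [← map_mul, ← hZ, map_mul, (hp p).1 dvd_rfl, zero_mul]
    obtain ⟨Z', rfl⟩ := (hp Z).2 ((mul_eq_zero.1 e).resolve_left hg)
    exact ⟨Z', mul_left_cancel₀ h0 (by rw [hZ]; ring)⟩

theorem exists_least {ι : Type} (c : ι → O) (tot : ∀ x y : O, x ∣ y ∨ y ∣ x) (s : Finset ι)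
    (hs : s.Nonempty) : ∃ i ∈ s, ∀ j ∈ s, c i ∣ c j := by
  classical
  induction hs using Finset.Nonempty.cons_induction with
  | singleton a => exact ⟨a, by simp, by simp⟩
  | cons a s ha _ ih =>
    obtain ⟨i, hi, h⟩ := ih
    rcases tot (c a) (c i) with k | k
    · refine ⟨a, by simp, fun j hj => ?_⟩
      rcases Finset.mem_cons.1 hj with rfl | hj
      exacts [dvd_rfl, k.trans (h j hj)]
    · refine ⟨i, Finset.mem_cons.2 (Or.inr hi), fun j hj => ?_⟩
      rcases Finset.mem_cons.1 hj with rfl | hj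
      exacts [k, h j hj]

/-- a linear relation between eigenvectors can be chosen with constant coefficients -/
theorem rel [IsDomain O] {ι : Type} [Fintype ι] (φ : O →+* A) {V : A →+ A} (hV : IsDer V)
    {E : O →+ O} (hE : IsDer E) {a κ g : A} (hφ : ∀ c, V (φ c) = a * φ (E c)) (hg : V g = κ * g)
    {J : ι → A} (hJ : ∀ i, V (J i) = κ * J i) (ca : ∀ Y, g ∣ a * Y → g ∣ Y)
    (cc' : ∀ c, c ≠ 0 → ∀ Y, g ∣ φ c * Y → g ∣ Y) (tot : ∀ x y : O, x ∣ y ∨ y ∣ x) (n : ℕ) :
    ∀ c : ι → O, {i | c i ≠ 0}.ncard ≤ n → (∃ i, c i ≠ 0) → g ∣ ∑ i, φ (c i) * J i →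
      ∃ γ : ι → O, (∀ i, E (γ i) = 0) ∧ (∃ i, γ i ≠ 0) ∧ g ∣ ∑ i, φ (γ i) * J i := by
  classical
  induction n with
  | zero =>
    rintro c h ⟨i, hi⟩ _
    have := (Set.ncard_pos (Set.toFinite {i | c i ≠ 0})).2 ⟨i, hi⟩
    omega
  | succ n ih =>
    rintro c h ⟨i1, hi1⟩ hd
    obtain ⟨i0, -, h0⟩ := exists_least c tot Finset.univ ⟨i1, Finset.mem_univ _⟩
    choose γ hγ using fun j => h0 j (Finset.mem_univ j)
    have n0 : c i0 ≠ 0 := fun e => hi1 (by rw [hγ i1, e, zero_mul])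
    have g0 : γ i0 = 1 := (mul_left_cancel₀ n0 ((mul_one _).trans (hγ i0))).symm
    have d1 : g ∣ ∑ i, φ (γ i) * J i := by
      refine cc' _ n0 _ ?_
      have e : ∑ i, φ (c i0) * (φ (γ i) * J i) = ∑ i, φ (c i) * J i :=
        Finset.sum_congr rfl fun i _ => by rw [← mul_assoc, ← map_mul, ← hγ i]
      rwa [Finset.mul_sum, e]
    by_cases k : ∀ i, E (γ i) = 0
    · exact ⟨γ, k, ⟨i0, g0 ▸ one_ne_zero⟩, d1⟩
    push Not at k
    refine ih (fun i => E (γ i)) ?_ k (ca _ ?_)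
    · have s1 : {i | E (γ i) ≠ 0} ⊆ {i | c i ≠ 0} \ {i0} := by
        intro i hi
        refine ⟨fun e => hi ?_, fun e => hi ?_⟩
        · rw [hγ i] at e
          rw [(mul_eq_zero.1 e).resolve_left n0, map_zero]
        · rw [Set.mem_singleton_iff.1 e, g0, hE.one]
      have s2 := Set.ncard_le_ncard s1 (Set.toFinite _)
      have s3 := Set.ncard_sdiff_singleton_add_one (s := {i | c i ≠ 0}) (a := i0) n0 (Set.toFinite _)
      omega
    · obtain ⟨R, hR⟩ := d1
      have e1 : V (∑ i, φ (γ i) * J i) =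
          a * ∑ i, φ (E (γ i)) * J i + κ * ∑ i, φ (γ i) * J i := by
        rw [map_sum, Finset.mul_sum, Finset.mul_sum, ← Finset.sum_add_distrib]
        refine Finset.sum_congr rfl fun i _ => ?_
        rw [hV, hφ, hJ]
        ring
      rw [hR, hV, hg] at e1
      exact ⟨V R, by linear_combination -e1⟩
end Abs

section One
variable {U : Type} [Field U]

/-- the vector field of the form -/
noncomputable def VV (D : U →+ U) (a B : AA U) : AA U →+ AA U :=
  (AddMonoidHom.mulLeft a).comp (cw (cw D)) - (AddMonoidHom.mulLeft B).comp (dX U⟦X⟧)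

theorem VV_apply (D : U →+ U) (a B s : AA U) :
    VV D a B s = a * cw (cw D) s - B * dX U⟦X⟧ s := rfl

theorem VV_der {D : U →+ U} (hD : IsDer D) (a B : AA U) : IsDer (VV D a B) :=
  (hD.coefw.coefw.mulLeft a).sub (isDer_dX.mulLeft B)

theorem iif_V {D : U →+ U} {a B I : AA U} :
    IIF (cw D) a B I ↔ I ≠ 0 ∧ VV D a B I = (cw (cw D) a - dX U⟦X⟧ B) * I := by
  rw [VV_apply]
  refine and_congr Iff.rfl ⟨fun h => ?_, fun h => ?_⟩
  · linear_combination -h
  · linear_combination -h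

theorem VV_C (D : U →+ U) (a B : AA U) (c : U⟦X⟧) : VV D a B (C c) = a * C (cw D c) := by
  rw [VV_apply, cw_C, dX_C, mul_zero, sub_zero]

theorem CX_ne : (C X : AA U) ≠ 0 := fun e => X_ne_zero (R := U) (C_injective (e.trans (map_zero _).symm))

/-- powers of `t` can be removed -/
theorem strip {D : U →+ U} (hD : IsDer D) {a B I : AA U} (h : IIF (cw D) a B I) :
    ∃ I', IIF (cw D) a B I' ∧ red I' ≠ 0 := by
  obtain ⟨h0, h1⟩ := iif_V.1 h
  obtain ⟨n, I', rfl, h2⟩ := exists_tfac h0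
  refine ⟨I', iif_V.2 ⟨right_ne_zero_of_mul h0, ?_⟩, h2⟩
  have e : VV D a B (C X ^ n) = 0 := by
    rw [(VV_der hD a B).pow, VV_C, cw_X hD.one, map_zero, mul_zero, mul_zero]
  rw [(VV_der hD a B).const_mul e] at h1
  exact mul_left_cancel₀ (pow_ne_zero n CX_ne) (by rw [h1]; ring)

theorem mem_span {w : U⟦X⟧} (hw : cc w = 0) : w ∈ Ideal.span {(X : U⟦X⟧)} :=
  Ideal.mem_span_singleton.2 (X_dvd_iff.2 hw)

/-- an inverse integrating factor does not vanish on the polar curve -/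
theorem not_dvd [CharZero U] {D : U →+ U} (hD : IsDer D) {a B I u : AA U} {w : U⟦X⟧}
    (hw : cc w = 0) (hu : IsUnit u) (ha : a = (X - C w) * u) (hB : ¬ a ∣ B)
    (h : IIF (cw D) a B I) : ev (RingHom.id _) w I ≠ 0 := by
  intro e
  have fa : ∀ f : AA U, X - C w ∣ f ↔ ev (RingHom.id _) w f = 0 :=
    fun f => factor (Ideal.span {(X : U⟦X⟧)}) (mem_span hw)
  obtain ⟨h0, h1⟩ := iif_V.1 h
  have pB : ev (RingHom.id _) w B ≠ 0 := fun c => hB (by
    rw [ha, hu.mul_right_dvd]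
    exact (fa B).2 c)
  have p0 : (X - C w : AA U) ≠ 0 := fun c => by
    have := congrArg (coeff 1) c
    simp at this
  have pa : ev (RingHom.id _) w a = 0 := (fa a).1 ⟨u, ha⟩
  have pp : ev (RingHom.id _) w (X - C w : AA U) = 0 := (fa _).1 dvd_rfl
  have dp : dX U⟦X⟧ (X - C w) = 1 := by rw [map_sub, dX_X, dX_C, sub_zero]
  have k : ∀ r, (X - C w) ^ (r + 1) ∣ I := by
    intro r
    induction r with
    | zero => simpa using (fa I).2 e
    | succ r ih =>
      obtain ⟨I', rfl⟩ := ih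
      rw [VV_der hD, (VV_der hD a B).pow, VV_apply D a B (X - C w), dp] at h1
      have e2 : ((r + 1 : ℕ) : AA U) * (a * cw (cw D) (X - C w) - B * 1) * I' +
          (X - C w) * VV D a B I' = (cw (cw D) a - dX U⟦X⟧ B) * ((X - C w) * I') := by
        refine mul_left_cancel₀ (pow_ne_zero r p0) ?_
        simp only [Nat.add_sub_cancel] at h1
        linear_combination h1
      have e3 := congrArg (ev (RingHom.id _) w) e2
      simp only [map_add, map_mul, map_sub, pa, map_natCast, map_one] at e3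
      rw [map_sub] at pp
      rw [pp] at e3
      have e4 : ((r + 1 : ℕ) : U⟦X⟧) * (ev (RingHom.id _) w B * ev (RingHom.id _) w I') = 0 := by
        linear_combination -e3
      have n1 : ((r + 1 : ℕ) : U⟦X⟧) ≠ 0 := by
        rw [← map_natCast (C : U →+* U⟦X⟧)]
        exact fun c => Nat.cast_ne_zero.2 (Nat.succ_ne_zero r)
          (C_injective (c.trans (map_zero _).symm))
      obtain ⟨I2, rfl⟩ := (fa I').2
        ((mul_eq_zero.1 ((mul_eq_zero.1 e4).resolve_left n1)).resolve_left pB)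
      exact ⟨I2, by ring⟩
  refine h0 (haus (up (up ⊥)) fun n => ?_)
  have m : (X - C w : AA U) ∈ up (up ⊥) := by
    rw [mem_up2, c00_apply]
    simp [hw]
  exact Ideal.mem_of_dvd _ ((pow_dvd_pow _ (Nat.le_succ n)).trans (k n)) (Ideal.pow_mem_pow m n)

/-- more than `n` series are dependent modulo a series whose reduction has order `n` -/
theorem dep {g : AA U} {n : ℕ} (hg : OrdIs n (red g)) (J : Fin (n + 1) → AA U) :
    ∃ c : Fin (n + 1) → U⟦X⟧, (∃ i, c i ≠ 0) ∧ g ∣ ∑ i, C (c i) * J i := by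
  have z : ∀ j, coeff j (g.map (Ideal.Quotient.mk (Ideal.span {(X : U⟦X⟧)}))) = 0 ↔
      coeff j (red g) = 0 := fun j => by
    rw [coeff_map, Ideal.Quotient.eq_zero_iff_mem, Ideal.mem_span_singleton, X_dvd_iff, coeff_red]
  have o : (g.map (Ideal.Quotient.mk (Ideal.span {(X : U⟦X⟧)}))).order = n :=
    order_eq_nat.2 ⟨fun c => hg.1 ((z n).1 c), fun j hj => (z j).2 (hg.2 j hj)⟩
  have H : g.IsWeierstrassDivisorAt (Ideal.span {(X : U⟦X⟧)}) := by
    unfold IsWeierstrassDivisorAt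
    rw [o, ENat.toNat_natCast, isUnit_iff_constantCoeff, isUnit_iff_ne_zero]
    have := hg.1
    rwa [coeff_red] at this
  have W := fun i => H.isWeierstrassDivisionAt_div_mod (J i)
  have nl : ¬ LinearIndependent U⟦X⟧ fun (i : Fin (n + 1)) (j : Fin n) => (H.mod (J i)).coeff j :=
    fun c => by
      have := c.fintype_card_le_finrank
      simp at this
  obtain ⟨c, h1, h2⟩ := Fintype.not_linearIndependent_iff.1 nl
  refine ⟨c, h2, ∑ i, C (c i) * H.div (J i), ?_⟩
  have e : ∑ i, C (c i) * ((H.mod (J i) : Polynomial U⟦X⟧) : AA U) = 0 := by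
    refine PowerSeries.ext fun j => ?_
    simp only [map_sum, coeff_C_mul, Polynomial.coeff_coe, map_zero]
    by_cases k : j < n
    · simpa using congrFun h1 ⟨j, k⟩
    · refine Finset.sum_eq_zero fun i _ => ?_
      have := (W i).degree_lt
      rw [o, ENat.toNat_natCast] at this
      rw [Polynomial.coeff_eq_zero_of_degree_lt
        (this.trans_le (Nat.cast_le.2 (not_lt.1 k))), mul_zero]
  rw [Finset.mul_sum, ← add_zero (∑ i, g * _), ← e, ← Finset.sum_add_distrib]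
  refine Finset.sum_congr rfl fun i _ => ?_
  conv_lhs => rw [(W i).eq_mul_add]
  ring

/-- many inverse integrating factors of increasing orders give a first integral -/
theorem fi [CharZero U] {D : U →+ U} (hD : IsDer D) {a B : AA U} {c : U⟦X⟧} (hc : IsUnit c)
    (ha : red a = c * X) (hB : ¬ a ∣ B) {n : ℕ} (J : ℕ → AA U) (ν : ℕ → ℕ)
    (hJ : ∀ k ≤ n + 1, IIF (cw D) a B (J k) ∧ OrdIs (ν k) (J k))
    (hν : ∀ k l, k < l → l ≤ n + 1 → ν k < ν l) (h0 : OrdIs n (red (J 0))) :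
    ∃ R : AA U, R ≠ 0 ∧ cc R = 0 ∧ FIe (cw D) a B R := by
  classical
  obtain ⟨w, u, hw, hu, ea⟩ := exists_w0 hc ha
  have fa : ∀ f : AA U, X - C w ∣ f ↔ ev (RingHom.id _) w f = 0 :=
    fun f => factor (Ideal.span {(X : U⟦X⟧)}) (mem_span hw)
  have p0 : (X - C w : AA U) ≠ 0 := fun c => by
    have := congrArg (coeff 1) c
    simp at this
  obtain ⟨i0, o0⟩ := hJ 0 (Nat.zero_le _)
  have r0 : red (J 0) ≠ 0 := fun e => h0.1 (by rw [e, map_zero])
  obtain ⟨c1, k1, k2⟩ := dep h0 fun i => J (i + 1)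
  have hV : ∀ i : Fin (n + 1), VV D a B (J (i + 1)) = (cw (cw D) a - dX U⟦X⟧ B) * J (i + 1) :=
    fun i => (iif_V.1 (hJ (i + 1) (by omega)).1).2
  obtain ⟨γ, g1, g2, R, hR⟩ := rel (C : U⟦X⟧ →+* AA U) (VV_der hD a B) hD.coefw (VV_C D a B)
    (iif_V.1 i0).2 hV
    (fun Y h => by
      rw [ea, mul_right_comm, hu.dvd_mul_right] at h
      exact cancel _ fa p0 (not_dvd hD hw hu ea hB i0) 1 (by rwa [pow_one]))
    (fun x hx Y h => by
      obtain ⟨m, v, hv, rfl⟩ := unit_fac hx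
      rw [map_mul, map_pow, mul_right_comm, (hv.map C).dvd_mul_right] at h
      exact cancel red (fun f => red_eq_zero.symm) CX_ne r0 m h)
    (fun x y => (dvd_or x y).imp id (dvd_of_mul_left_dvd)) _ c1 le_rfl k1 k2
  have low : ∀ m, (∀ i : Fin (n + 1), γ i ≠ 0 → m < ν (i + 1)) → coeff m (J 0 * R) = 0 := by
    intro m hm
    rw [← hR, map_sum]
    refine Finset.sum_eq_zero fun i _ => ?_
    rw [coeff_C_mul]
    by_cases k : γ i = 0
    · rw [k, zero_mul]
    · rw [(hJ (i + 1) (by omega)).2.2 m (hm i k), mul_zero]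
  refine ⟨R, ?_, ?_, ?_⟩
  · rintro rfl
    obtain ⟨i, hi, mi⟩ := (Finset.univ.filter fun i => γ i ≠ 0).exists_min_image id
      (g2.imp fun i h => by simpa using h)
    have e := congrArg (coeff (ν (i + 1))) hR
    rw [mul_zero, map_zero, map_sum, Finset.sum_eq_single i, coeff_C_mul] at e
    · exact (hJ (i + 1) (by omega)).2.1
        ((mul_eq_zero.1 e).resolve_left (by simpa using hi))
    · intro j _ ne
      rw [coeff_C_mul]
      by_cases k : γ j = 0
      · rw [k, zero_mul]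
      · have l : i < j := lt_of_le_of_ne (mi j (by simpa using k)) ne.symm
        rw [(hJ (j + 1) (by omega)).2.2 _ (hν _ _ (by omega) (by omega)), mul_zero]
    · simp
  · by_contra k
    have o1 : OrdIs 0 R := ⟨by simpa using k, fun j hj => by omega⟩
    exact (o0.mul o1).1.1 (low _ fun i _ => hν 0 _ (by omega) (by omega))
  · have e1 : VV D a B (J 0 * R) = (cw (cw D) a - dX U⟦X⟧ B) * (J 0 * R) := by
      rw [← hR, map_sum, Finset.mul_sum]
      refine Finset.sum_congr rfl fun i _ => ?_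
      rw [VV_der hD, VV_C, g1, hV, map_zero]
      ring
    rw [VV_der hD, (iif_V.1 i0).2] at e1
    have e2 : J 0 * VV D a B R = 0 := by linear_combination e1
    exact sub_eq_zero.1 ((mul_eq_zero.1 e2).resolve_left i0.1)

theorem ord_map {R S : Type} [CommRing R] [CommRing S] {η : R →+* S} (hη : Function.Injective η)
    {n : ℕ} {f : R⟦X⟧} (h : OrdIs n f) : OrdIs n (map η f) :=
  ⟨by
    rw [coeff_map]
    exact fun c => h.1 (hη (c.trans (map_zero η).symm)),
   fun j hj => by rw [coeff_map, h.2 j hj, map_zero]⟩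

theorem push {L Ω : Type} [Field L] [Field Ω] {D1 : U →+ U} {D' : Ω →+ Ω} {j : U →+* Ω}
    (h : DExt D1 D' j) (i : L →+* U) {a b : AA L} {I : AA U}
    (hI : IIF (cw D1) (mA i a) (X * mA i b) I) :
    IIF (cw D') (mA (j.comp i) a) (X * mA (j.comp i) b) (mA j I) := by
  have k := hI.push (D' := cw D') (η := map j) (θ := 1) (map_injective j j.injective)
    fun c => by rw [one_mul, cw_map' h.2]
  rw [map_one, one_mul, map_mul, map_X] at k
  rw [← mA_mA, ← mA_mA]
  exact k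

end One

end Dich

open Dich in
theorem dichS (hC : CommonStmt) : DichStmt := by
  intro L _ _ D a b c hc ha hb U _ D1 i I hD hI
  by_contra no
  push Not at no
  obtain ⟨I0, hI0, r0⟩ := strip hD.1 hI
  obtain ⟨n, hn⟩ := exists_ordIs r0
  have key : ∀ m, ∃ (Ω : Type) (_ : Field Ω) (D' : Ω →+ Ω) (j : L →+* Ω) (J : ℕ → AA Ω)
      (ν : ℕ → ℕ), DExt D D' j ∧
      (∀ k ≤ m, IIF (cw D') (mA j a) (X * mA j b) (J k) ∧ OrdIs (ν k) (J k)) ∧
      (∀ k l, k < l → l ≤ m → ν k < ν l) ∧ OrdIs n (red (J 0)) := by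
    intro m
    induction m with
    | zero =>
      obtain ⟨ν, hν⟩ := exists_ordIs hI0.1
      exact ⟨U, inferInstance, D1, i, fun _ => I0, fun _ => ν, hD, fun _ _ => ⟨hI0, hν⟩,
        fun _ _ _ _ => by omega, hn⟩
    | succ m ih =>
      obtain ⟨Ω, _, D', j, J, ν, h1, h2, h3, h4⟩ := ih
      obtain ⟨U', _, D2, i', I', k1, k2, k3⟩ :=
        (no Ω inferInstance D' j (J m) h1).2 (ν m) (h2 m le_rfl).1 (h2 m le_rfl).2
      obtain ⟨Ω', _, D3, j1, j2, c1, c2, c3⟩ := hC L Ω U' D D' D2 j i' h1 k1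
      have ej : j2.comp i' = j1.comp j := RingHom.ext fun e => (c3 e).symm
      obtain ⟨μ, hμ⟩ := exists_ordIs k2.1
      have lt : ν m < μ := by
        by_contra c
        exact hμ.1 (k3 μ (not_lt.1 c))
      refine ⟨Ω', inferInstance, D3, j1.comp j, fun k => if k ≤ m then mA j1 (J k) else mA j2 I',
        fun k => if k ≤ m then ν k else μ, ⟨c1.1, fun e => ?_⟩, fun k hk => ?_,
        fun k l hkl hl => ?_, ?_⟩
      · rw [RingHom.comp_apply, c1.2, h1.2, RingHom.comp_apply]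
      · by_cases c : k ≤ m
        · simp only [c, if_true]
          exact ⟨push c1 j (h2 k c).1, ord_map (map_injective j1 j1.injective) (h2 k c).2⟩
        · simp only [c, if_false]
          exact ⟨ej ▸ push c2 i' k2, ord_map (map_injective j2 j2.injective) hμ⟩
      · have c : k ≤ m := by omega
        by_cases c' : l ≤ m
        · simpa only [c, c', if_true] using h3 k l hkl c'
        · simp only [c, c', if_true, if_false]
          rcases c.lt_or_eq with d | rfl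
          exacts [(h3 k m d le_rfl).trans lt, lt]
      · simp only [Nat.zero_le, if_true]
        rw [red_mA]
        exact ord_map j1.injective h4
  obtain ⟨Ω, _, D', j, J, ν, h1, h2, h3, h4⟩ := key (n + 1)
  have : CharZero Ω := (RingHom.charZero_iff j.injective).1 inferInstance
  obtain ⟨R, s1, s2, s3⟩ := fi h1.1 (hc.map (map j)) (a := mA j a)
    (by rw [red_mA, ha, map_mul, map_X]) (fun c => hb ((nd_map j).1 c)) J ν h2 h3 h4
  exact (no Ω inferInstance D' j R h1).1 s1 s2 s3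

end Pool.Agent.MP_05b4bd_ag.ES

end MrgPart2

-- ======== part 3: formerly Pool.Agent.MP_05b4bd_ag.esc.Fra
section MrgPart3

/-! Either an obstruction, or a first integral at a singular point near a critical point. -/

namespace Pool.Agent.MP_05b4bd_ag.ES

open PowerSeries LaurentSeries HC

namespace Fra

theorem seq {α : Type} (S : ℕ → α → Prop) (R : ℕ → α → α → Prop) (h0 : ∃ a, S 0 a)
    (hs : ∀ n a, S n a → ∃ b, S (n + 1) b ∧ R n a b) :
    ∃ f : ℕ → α, ∀ n, S n (f n) ∧ R n (f n) (f (n + 1)) := by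
  choose g hg using hs
  obtain ⟨a, ha⟩ := h0
  let F : ∀ n, {x // S n x} := fun n =>
    Nat.rec ⟨a, ha⟩ (fun n x => ⟨g n x.1 x.2, (hg n x.1 x.2).1⟩) n
  exact ⟨fun n => (F n).1, fun n => ⟨(F n).2, (hg n (F n).1 (F n).2).2⟩⟩

theorem taylor {A : Type} [CommRing A] (y z : Fin 2 → A) (s : A) (u : R2 A) :
    ∃ r, MvPolynomial.eval (fun i => y i + s * z i) u = MvPolynomial.eval y u +
      s * (MvPolynomial.eval y (MvPolynomial.pderiv 0 u) * z 0 +
        MvPolynomial.eval y (MvPolynomial.pderiv 1 u) * z 1) + s ^ 2 * r := by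
  induction u using MvPolynomial.induction_on with
  | C c => exact ⟨0, by simp⟩
  | add u v hu hv =>
    obtain ⟨a, ha⟩ := hu
    obtain ⟨b, hb⟩ := hv
    exact ⟨a + b, by simp only [map_add, ha, hb]; ring⟩
  | mul_X u j hu =>
    obtain ⟨a, ha⟩ := hu
    refine ⟨a * (y j + s * z j) + (MvPolynomial.eval y (MvPolynomial.pderiv 0 u) * z 0 +
        MvPolynomial.eval y (MvPolynomial.pderiv 1 u) * z 1) * z j, ?_⟩
    rw [map_mul, ha]
    fin_cases j <;> simp [Derivation.leibniz] <;> ring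

variable {k : Type} [Field k]

theorem ker_dvd {u : R2 k⟦X⟧} (h : MvPolynomial.map cc u = 0) :
    ∃ v, u = MvPolynomial.C X * v := by
  have : (MvPolynomial.C X : R2 k⟦X⟧) ∣ u := by
    rw [MvPolynomial.C_dvd_iff_dvd_coeff]
    intro m
    rw [X_dvd_iff]
    have := congrArg (MvPolynomial.coeff m) h
    rwa [MvPolynomial.coeff_map] at this
  exact this

theorem map_lift (u : R2 k) :
    MvPolynomial.map (cc : k⟦X⟧ →+* k) (MvPolynomial.map (C : k →+* k⟦X⟧) u) = u := by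
  rw [MvPolynomial.map_map, show (cc : k⟦X⟧ →+* k).comp C = RingHom.id k by ext; simp,
    MvPolynomial.map_id]

theorem cc_eval (p : Fin 2 → k⟦X⟧) (u : R2 k⟦X⟧) : cc (MvPolynomial.eval p u) =
    MvPolynomial.eval (fun i => cc (p i)) (MvPolynomial.map cc u) :=
  MvPolynomial.map_eval cc p u

/-- Hensel lemma in two variables. -/
theorem lift (P Q : R2 k⟦X⟧) (q : Fin 2 → k)
    (hP : MvPolynomial.eval q (MvPolynomial.map cc P) = 0)
    (hQ : MvPolynomial.eval q (MvPolynomial.map cc Q) = 0)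
    (hD : MvPolynomial.eval q (MvPolynomial.map cc (br P Q)) ≠ 0) :
    ∃ p : Fin 2 → k⟦X⟧, (∀ i, cc (p i) = q i) ∧ MvPolynomial.eval p P = 0 ∧
      MvPolynomial.eval p Q = 0 := by
  obtain ⟨f, hf⟩ := seq (α := Fin 2 → k⟦X⟧)
    (fun n p => (∀ i, cc (p i) = q i) ∧ X ^ (n + 1) ∣ MvPolynomial.eval p P ∧
      X ^ (n + 1) ∣ MvPolynomial.eval p Q) (fun n p p' => ∀ i, X ^ (n + 1) ∣ p' i - p i)
    ⟨fun i => C (q i), fun i => by simp, by
      rw [zero_add, pow_one, X_dvd_iff]; exact (cc_eval _ _).trans (by simpa using hP), by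
      rw [zero_add, pow_one, X_dvd_iff]; exact (cc_eval _ _).trans (by simpa using hQ)⟩
    (by
      rintro n p ⟨h1, ⟨a, ha⟩, ⟨b, hb⟩⟩
      have hu : IsUnit (MvPolynomial.eval p (br P Q)) := by
        rw [isUnit_iff_constantCoeff, isUnit_iff_ne_zero]
        have := cc_eval p (br P Q)
        rw [funext h1] at this
        exact fun e => hD (this.symm.trans e)
      obtain ⟨w, hw⟩ := hu.exists_right_inv
      simp only [br, map_sub, map_mul] at hw
      obtain ⟨z, hz0, hz1⟩ : ∃ z : Fin 2 → k⟦X⟧,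
          z 0 = -(w * (MvPolynomial.eval p (MvPolynomial.pderiv 1 Q) * a -
            MvPolynomial.eval p (MvPolynomial.pderiv 1 P) * b)) ∧
          z 1 = -(w * (MvPolynomial.eval p (MvPolynomial.pderiv 0 P) * b -
            MvPolynomial.eval p (MvPolynomial.pderiv 0 Q) * a)) := ⟨![_, _], rfl, rfl⟩
      obtain ⟨r, hr⟩ := taylor p z (X ^ (n + 1)) P
      obtain ⟨r', hr'⟩ := taylor p z (X ^ (n + 1)) Q
      refine ⟨fun i => p i + X ^ (n + 1) * z i, ⟨fun i => by simp [h1], ⟨X ^ n * r, ?_⟩,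
        ⟨X ^ n * r', ?_⟩⟩, fun i => ⟨z i, by ring⟩⟩
      · rw [hr, ha, hz0, hz1]; linear_combination (-(X ^ (n + 1) * a)) * hw
      · rw [hr', hb, hz0, hz1]; linear_combination (-(X ^ (n + 1) * b)) * hw)
  choose l hl using fun i => lim_dvd (X : k⟦X⟧) (f := fun n => f n i) fun n =>
    (pow_dvd_pow X (Nat.le_succ n)).trans ((hf n).2 i)
  have key : ∀ u : R2 k⟦X⟧, (∀ n, X ^ (n + 1) ∣ MvPolynomial.eval (f n) u) →
      MvPolynomial.eval l u = 0 := by
    intro u hu
    refine haus_dvd (X : k⟦X⟧) fun n => ?_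
    choose z hz using fun i => hl i n
    obtain ⟨r, hr⟩ := taylor (f n) z (X ^ n) u
    have e : l = fun i => f n i + X ^ n * z i := funext fun i => by rw [← hz i]; ring
    rw [e, hr]
    exact dvd_add (dvd_add ((pow_dvd_pow X (Nat.le_succ n)).trans (hu n)) (dvd_mul_right _ _))
      (Dvd.dvd.mul_right (dvd_pow_self _ two_ne_zero) _)
  refine ⟨l, fun i => ?_, key P fun n => (hf n).1.2.1, key Q fun n => (hf n).1.2.2⟩
  have := hl i 1
  rw [pow_one, X_dvd_iff, map_sub, sub_eq_zero] at this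
  exact this.trans ((hf 1).1.1 i)

theorem co00 {A : Type} [CommRing A] (u : R2 A) : HC.co 0 0 u = MvPolynomial.coeff 0 u := by
  simp [HC.co]

theorem mm_two {A : Type} [CommRing A] {u : R2 A} (h0 : MvPolynomial.coeff 0 u = 0)
    (h1 : MvPolynomial.coeff 0 (MvPolynomial.pderiv 0 u) = 0)
    (h2 : MvPolynomial.coeff 0 (MvPolynomial.pderiv 1 u) = 0) : u ∈ mm A ^ 2 := by
  refine mm_succ (mem_mm_one.2 h0) ?_
  rw [← co00, co_x] at h1
  rw [← co00, co_y] at h2
  have e1 := co_hc 1 0 u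
  have e2 := co_hc 0 1 u
  rw [hom1_eq (hc_hom 1 u), e1, e2]
  simp only [Nat.cast_zero, zero_add, mul_one] at h1 h2
  simp [lf, h1, h2]

/-- The Hessian at a critical point of a generic polynomial. -/
theorem hess [CharZero k] {d : ℕ} (hd : 2 ≤ d) {f : R2 k} {q : Fin 2 → k}
    (H : IndC d (tr q f - MvPolynomial.C (MvPolynomial.eval q f))) :
    HC.co 2 0 (tr q f) ≠ 0 ∧
      MvPolynomial.eval q (br (MvPolynomial.pderiv 1 f) (-MvPolynomial.pderiv 0 f)) ≠ 0 := by
  have c : ∀ i j, 1 ≤ i + j →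
      HC.co i j (tr q f - MvPolynomial.C (MvPolynomial.eval q f)) = HC.co i j (tr q f) := by
    intro i j h
    rw [co_sub, co_hom (MvPolynomial.isHomogeneous_C _ _) (by omega), sub_zero]
  obtain ⟨h1, h2⟩ := H.low hd
  rw [c _ _ (by omega)] at h1
  rw [c _ _ (by omega), c _ _ (by omega), c _ _ (by omega)] at h2
  refine ⟨h1, fun e => h2 ?_⟩
  simp only [br, map_sub, map_mul, map_neg, ← coeff_zero_tr, ← tr_pderiv, ← co00, co_x, co_y]
    at e
  simp only [Nat.cast_zero, Nat.cast_one, zero_add, Nat.reduceAdd] at e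
  linear_combination -e

/-- A `t`-adically convergent sequence of approximate first integrals. -/
theorem fi_of_seq {P Q : R2 k⟦X⟧} (mP : P ∈ mm k⟦X⟧ ^ 1) (mQ : Q ∈ mm k⟦X⟧ ^ 1)
    (hD : MvPolynomial.coeff 0 (br P Q) ≠ 0) (K : ℕ → R2 k⟦X⟧)
    (h1 : ∀ n, MvPolynomial.C (X ^ n) ∣ K (n + 1) - K n)
    (h2 : ∀ n, MvPolynomial.C (X ^ n) ∣ vf P Q (K n)) (h3 : cc (HC.co 2 0 (K 1)) ≠ 0) :
    FI (MvPolynomial.map (coeL k) P) (MvPolynomial.map (coeL k) Q) := by
  have hinj : Function.Injective (coeL k) := HahnSeries.ofPowerSeries_injective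
  choose c hc using fun m => lim_dvd (X : k⟦X⟧) (f := fun n => MvPolynomial.coeff m (K n))
    fun n => by
      rw [← MvPolynomial.coeff_sub]
      exact (MvPolynomial.C_dvd_iff_dvd_coeff _ _).1 (h1 n) m
  intro N
  obtain ⟨I, hI⟩ : ∃ I : R2 k⟦X⟧, I = fA fun m : Mo0 (N + 2) => c m.1 := ⟨_, rfl⟩
  have cI : ∀ m : Fin 2 →₀ ℕ, m.degree < N + 3 → MvPolynomial.coeff m I = c m := by
    intro m hm
    rw [hI, coeff_fA, dif_pos (by omega)]
  have v1 : vf P Q I ∈ mm k⟦X⟧ ^ (N + 3) := by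
    rw [mem_mm]
    intro m hm
    refine haus_dvd (X : k⟦X⟧) fun n => ?_
    choose w hw using fun m => hc m n
    obtain ⟨W, hW⟩ : ∃ W : R2 k⟦X⟧, W = fA fun m : Mo0 (N + 2) => w m.1 := ⟨_, rfl⟩
    have r1 : I - K n - MvPolynomial.C (X ^ n) * W ∈ mm k⟦X⟧ ^ (N + 2 + 1) := by
      rw [mem_mm]
      intro m hm
      rw [MvPolynomial.coeff_sub, MvPolynomial.coeff_sub, MvPolynomial.coeff_C_mul, cI m hm, hW,
        coeff_fA, dif_pos (by omega), hw, sub_self]
    have r2 := mem_mm.1 (vf_mm mP mQ r1) m (by omega)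
    rw [vf_sub, vf_sub, vf_C_mul, MvPolynomial.coeff_sub, MvPolynomial.coeff_sub,
      MvPolynomial.coeff_C_mul, sub_sub, sub_eq_zero] at r2
    rw [r2]
    exact dvd_add ((MvPolynomial.C_dvd_iff_dvd_coeff _ _).1 (h2 n) m) (dvd_mul_right _ _)
  have p0 := mem_mm_one.1 mP
  have q0 := mem_mm_one.1 mQ
  have lin : ∀ i, MvPolynomial.constantCoeff (MvPolynomial.pderiv i P) *
        MvPolynomial.constantCoeff (MvPolynomial.pderiv 0 I) +
      MvPolynomial.constantCoeff (MvPolynomial.pderiv i Q) *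
        MvPolynomial.constantCoeff (MvPolynomial.pderiv 1 I) = 0 := by
    intro i
    have := mem_mm_one.1 (mm_pderiv i (mm_mono (show 1 + 1 ≤ N + 3 by omega) v1))
    rw [← MvPolynomial.constantCoeff_eq] at this p0 q0
    simp only [vf, map_add, Derivation.leibniz, smul_eq_mul, map_mul, p0, q0] at this
    linear_combination this
  rw [← MvPolynomial.constantCoeff_eq] at hD
  simp only [br, map_sub, map_mul] at hD
  have a0 : MvPolynomial.constantCoeff (MvPolynomial.pderiv 0 I) = 0 :=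
    (mul_eq_zero.1 (by
      linear_combination MvPolynomial.constantCoeff (MvPolynomial.pderiv 1 Q) * lin 0 -
        MvPolynomial.constantCoeff (MvPolynomial.pderiv 0 Q) * lin 1)).resolve_left hD
  have a1 : MvPolynomial.constantCoeff (MvPolynomial.pderiv 1 I) = 0 :=
    (mul_eq_zero.1 (by
      linear_combination MvPolynomial.constantCoeff (MvPolynomial.pderiv 0 P) * lin 1 -
        MvPolynomial.constantCoeff (MvPolynomial.pderiv 1 P) * lin 0)).resolve_left hD
  refine ⟨MvPolynomial.map (coeL k) (I - MvPolynomial.C (MvPolynomial.coeff 0 I)),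
    mm_map _ (mm_two (by simp) (by simpa [MvPolynomial.constantCoeff_eq] using a0)
      (by simpa [MvPolynomial.constantCoeff_eq] using a1)), fun h => h3 ?_, ?_⟩
  · have e := mem_mm.1 (mm_of_map _ hinj h) (Finsupp.single 0 2 + Finsupp.single 1 0)
      (by rw [deg2]; simp)
    change HC.co 2 0 _ = 0 at e
    rw [co_sub, co_hom (MvPolynomial.isHomogeneous_C _ _) (by omega), sub_zero, HC.co,
      cI _ (by rw [deg2]; simp)] at e
    have := hc (Finsupp.single 0 2 + Finsupp.single 1 0) 1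
    rw [e, pow_one, X_dvd_iff, zero_sub, map_neg, neg_eq_zero] at this
    exact this
  · rw [← map_vf, vf_sub, vf_C, sub_zero]
    exact mm_map _ (mm_mono (by omega) v1)

theorem rv {P Q : R2 k⟦X⟧} {f : R2 k} (rP : MvPolynomial.map cc P = MvPolynomial.pderiv 1 f)
    (rQ : MvPolynomial.map cc Q = -MvPolynomial.pderiv 0 f) (u : R2 k) :
    MvPolynomial.map cc (vf P Q (MvPolynomial.map (C : k →+* k⟦X⟧) u)) = br u f := by
  rw [map_vf, rP, rQ, map_lift, br_eq_vf]

theorem step {P Q : R2 k⟦X⟧} {f : R2 k} (rP : MvPolynomial.map cc P = MvPolynomial.pderiv 1 f)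
    (rQ : MvPolynomial.map cc Q = -MvPolynomial.pderiv 0 f) {n : ℕ} {H g : R2 k⟦X⟧} {u : R2 k}
    (r1 : MvPolynomial.map cc H = f) (hg : vf P Q H = MvPolynomial.C (X ^ (n + 1)) * g)
    (hu : MvPolynomial.map cc g = br u f) :
    ∃ H' : R2 k⟦X⟧, (MvPolynomial.map cc H' = f ∧ MvPolynomial.C (X ^ (n + 1 + 1)) ∣ vf P Q H') ∧
      MvPolynomial.C (X ^ (n + 1)) ∣ H' - H := by
  obtain ⟨w, hw⟩ : ∃ w : R2 k⟦X⟧, w = MvPolynomial.map (C : k →+* k⟦X⟧) u := ⟨_, rfl⟩
  obtain ⟨v, hv⟩ := ker_dvd (u := g - vf P Q w) (by rw [map_sub, hw, rv rP rQ, hu, sub_self])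
  refine ⟨H - MvPolynomial.C (X ^ (n + 1)) * w, ⟨?_, v, ?_⟩, -w, by ring⟩
  · rw [map_sub, map_mul, MvPolynomial.map_C, r1, map_pow, constantCoeff_X,
      zero_pow (Nat.succ_ne_zero n), map_zero, zero_mul, sub_zero]
  · rw [vf_sub, vf_C_mul, hg, ← mul_sub, hv, pow_succ X (n + 1), map_mul, mul_assoc]

theorem van {P Q H g : R2 k⟦X⟧} {n : ℕ} (hg : vf P Q H = MvPolynomial.C (X ^ n) * g)
    {p : Fin 2 → k⟦X⟧} (p2 : MvPolynomial.eval p P = 0) (p3 : MvPolynomial.eval p Q = 0) :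
    MvPolynomial.eval (fun i => cc (p i)) (MvPolynomial.map cc g) = 0 := by
  have e := congrArg (MvPolynomial.eval p) hg
  rw [vf, map_add, map_mul, map_mul, map_mul, p2, p3, zero_mul, zero_mul, add_zero,
    MvPolynomial.eval_C] at e
  have e' := (mul_eq_zero.1 e.symm).resolve_left (pow_ne_zero _ X_ne_zero)
  rw [← cc_eval, e', map_zero]

theorem tr_dvd (p : Fin 2 → k⟦X⟧) (n : ℕ) {u : R2 k⟦X⟧} (h : MvPolynomial.C (X ^ (n + 1)) ∣ u) :
    MvPolynomial.C (X ^ n) ∣ tr p u := by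
  obtain ⟨v, rfl⟩ := h
  have : tr p (MvPolynomial.C (X ^ (n + 1))) = MvPolynomial.C (X ^ (n + 1)) :=
    MvPolynomial.algHom_C _ _
  exact ⟨MvPolynomial.C X * tr p v, by rw [map_mul, this, pow_succ, map_mul, mul_assoc]⟩

theorem fin {P Q : R2 k⟦X⟧} {f : R2 k} (H : ℕ → R2 k⟦X⟧)
    (hH : ∀ n, (MvPolynomial.map cc (H n) = f ∧ MvPolynomial.C (X ^ (n + 1)) ∣ vf P Q (H n)) ∧
      MvPolynomial.C (X ^ (n + 1)) ∣ H (n + 1) - H n) {p : Fin 2 → k⟦X⟧}
    (p2 : MvPolynomial.eval p P = 0) (p3 : MvPolynomial.eval p Q = 0)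
    (g1 : HC.co 2 0 (tr (fun i => cc (p i)) f) ≠ 0)
    (g2 : MvPolynomial.eval (fun i => cc (p i)) (MvPolynomial.map cc (br P Q)) ≠ 0) :
    tr p P ∈ mm k⟦X⟧ ^ 1 ∧ tr p Q ∈ mm k⟦X⟧ ^ 1 ∧
      FI (MvPolynomial.map (coeL k) (tr p P)) (MvPolynomial.map (coeL k) (tr p Q)) := by
  have mP : tr p P ∈ mm k⟦X⟧ ^ 1 := mem_mm_one.2 (by rw [coeff_zero_tr, p2])
  have mQ : tr p Q ∈ mm k⟦X⟧ ^ 1 := mem_mm_one.2 (by rw [coeff_zero_tr, p3])
  refine ⟨mP, mQ, fi_of_seq mP mQ ?_ (fun n => tr p (H n)) (fun n => ?_) (fun n => ?_) ?_⟩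
  · have e : br (tr p P) (tr p Q) = tr p (br P Q) := by
      simp only [br, map_sub, map_mul, tr_pderiv]
    rw [e, coeff_zero_tr]
    intro z
    rw [← cc_eval, z, map_zero] at g2
    exact g2 rfl
  · rw [← map_sub]; exact tr_dvd p n (hH n).2
  · rw [← tr_vf]; exact tr_dvd p n (hH n).1.2
  · rw [← co_map, map_tr, (hH 1).1.1]
    exact g1

end Fra

theorem fraS (_h1 : GenTopStmt) (h2 : GenCritStmt) (h3 : GenJacStmt) : FraStmt := by
  intro k _ _ _ d hd P Q f hf dP dQ rP rQ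
  obtain ⟨s, ⟨q, hq⟩, hs, -, hJ, -⟩ := h3 k d f (by omega) hf
  have hb : MvPolynomial.map cc (br P Q) =
      br (MvPolynomial.pderiv 1 f) (-MvPolynomial.pderiv 0 f) := by rw [map_br, rP, rQ]
  have he := fun q (hq : q ∈ s) =>
    Fra.hess (show 2 ≤ d by omega) (h2 k d f (by omega) hf q ((hs q).1 hq))
  have lf : ∀ q ∈ s, ∃ p : Fin 2 → k⟦X⟧, (∀ i, cc (p i) = q i) ∧ MvPolynomial.eval p P = 0 ∧
      MvPolynomial.eval p Q = 0 := by
    intro q hq
    refine Fra.lift P Q q ?_ ?_ ?_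
    · rw [rP]; exact (hs q).1 hq 1
    · rw [rQ, map_neg, (hs q).1 hq 0, neg_zero]
    · rw [hb]; exact (he q hq).2
  by_cases hO : ∃ o : Ob k d, o.P = P ∧ o.Q = Q
  · exact Or.inl hO
  right
  have st : ∀ (n : ℕ) (H : R2 k⟦X⟧),
      MvPolynomial.map cc H = f ∧ MvPolynomial.C (X ^ (n + 1)) ∣ vf P Q H →
      ∃ H' : R2 k⟦X⟧, (MvPolynomial.map cc H' = f ∧ MvPolynomial.C (X ^ (n + 1 + 1)) ∣ vf P Q H') ∧
        MvPolynomial.C (X ^ (n + 1)) ∣ H' - H := by
    rintro n H ⟨r1, g, hg⟩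
    have hj : MvPolynomial.map cc g ∈ Jac f := by
      refine hJ _ fun q hq => ?_
      obtain ⟨p, p1, p2, p3⟩ := lf q hq
      have := Fra.van hg p2 p3
      rwa [funext p1] at this
    by_cases hc : ∃ u, MvPolynomial.map cc g = br u f
    · obtain ⟨u, hu⟩ := hc
      exact Fra.step rP rQ r1 hg hu
    · exact absurd ⟨⟨P, Q, H, g, f, n + 1, hf, dP, dQ, rP, rQ, r1, Nat.le_add_left 1 n, hg,
        fun u e => hc ⟨u, e⟩, hj⟩, rfl, rfl⟩ hO
  have s0 : MvPolynomial.C (X ^ (0 + 1)) ∣ vf P Q (MvPolynomial.map (C : k →+* k⟦X⟧) f) := by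
    rw [zero_add, pow_one]
    refine Fra.ker_dvd ((Fra.rv rP rQ f).trans ?_)
    rw [br, mul_comm, sub_self]
  obtain ⟨H, hH⟩ := Fra.seq _ _ ⟨_, Fra.map_lift f, s0⟩ st
  obtain ⟨p, p1, p2, p3⟩ := lf q hq
  refine ⟨p, Fra.fin H hH p2 p3 ?_ ?_⟩
  · rw [funext p1]; exact (he q hq).1
  · rw [funext p1, hb]; exact (he q hq).2

end Pool.Agent.MP_05b4bd_ag.ES

end MrgPart3

-- ======== part 4: formerly Pool.Agent.MP_05b4bd_ag.esc.Inv
section MrgPart4

/-! A deck transformation contradicts genericity. -/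

namespace Pool.Agent.MP_05b4bd_ag.ES

open PowerSeries LaurentSeries HC

namespace Inv

variable {k L : Type} [Field k] [Field L]

theorem ser [CharZero L] {D : L →+ L} (hD : IsDer D) {d : ℕ} (hd : 1 ≤ d) {s Ψ : L⟦X⟧}
    (hs : cc s = 0) (hDs : cw D s = 0) {φ : L⸨X⸩ →+* L⸨X⸩}
    (h1 : ∀ c, φ (coeL L c) = coeL L (sb s c)) (h2 : ∀ c, cwL D (φ c) = φ (cwL D c))
    {E η Ξ : L⸨X⸩} (hΞ : Ξ = wL L (-(d : ℤ)) * coeL L Ψ + cwL D E)
    (h : cwL D η = φ Ξ - dh d (φ (wL L (-(d : ℤ)))) * Ξ) (m : ℕ) :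
    ∃ z, coeff m (s * sb s Ψ - thP L s * Ψ) = D z := by
  obtain ⟨d, rfl⟩ := Nat.exists_eq_add_of_le' hd
  have hc := hD.coefL
  have e1 : φ (wL L (-((d + 1 : ℕ) : ℤ))) * coeL L s ^ (d + 1) = 1 := by
    rw [← sb_X hs, ← h1, ← map_pow, ← map_mul, ← map_pow, coeL_X_pow, mul_comm,
      wL_mul_neg, map_one]
  have e2 := isDer_thL (φ (wL L (-((d + 1 : ℕ) : ℤ)))) (coeL L s ^ (d + 1))
  rw [e1, isDer_thL.one, isDer_thL.pow, Nat.add_sub_cancel] at e2
  have e3 : cL L ((d + 1 : ℕ) : L)⁻¹ * ((d + 1 : ℕ) : L⸨X⸩) = 1 := by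
    rw [← map_natCast (cL L), ← map_mul, inv_mul_cancel₀ (Nat.cast_ne_zero.2 (by omega)), map_one]
  have e4 := wL_mul_neg (R := L) ((d + 1 : ℕ) : ℤ)
  have c1 : cwL D (coeL L s) = 0 := by rw [cwL_coeL, hDs, map_zero]
  have c2 : cwL D (coeL L s ^ (d + 2)) = 0 := by rw [hc.pow, c1, mul_zero]
  have c3 : cwL D (wL L ((d + 1 : ℕ) : ℤ) * thL L (coeL L s)) = 0 := by
    rw [cwL_wL_mul, ← thL_cwL, c1, map_zero, mul_zero]
  have e5 : coeL L (s * sb s Ψ - thP L s * Ψ) =
      cwL D (coeL L s ^ (d + 2) * (η - φ E) + wL L ((d + 1 : ℕ) : ℤ) * thL L (coeL L s) * E) := by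
    rw [map_add, hc.const_mul c2, hc.const_mul c3, map_sub (cwL D), h, h2, hΞ, map_add, map_mul, h1,
      map_sub, map_mul, map_mul, ← thL_coeL, dh]
    generalize φ (wL L (-((d + 1 : ℕ) : ℤ))) = T at *
    generalize thL L T = T' at *
    generalize thL L (coeL L s) = S' at *
    generalize coeL L s = S at *
    generalize wL L (-((d + 1 : ℕ) : ℤ)) = w' at *
    generalize wL L ((d + 1 : ℕ) : ℤ) = w at *
    generalize cL L ((d + 1 : ℕ) : L)⁻¹ = q at *
    generalize ((d + 1 : ℕ) : L⸨X⸩) = n at *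
    have e6 : S ^ (d + 2) * (w * q * T') = -(w * S') := by
      linear_combination (-(w * q * S)) * e2 - w * S' * q * n * e1 - w * S' * e3
    linear_combination (-(S * coeL L (sb s Ψ))) * e1 - (w' * coeL L Ψ + cwL D E) * e6 +
      S' * coeL L Ψ * e4
  exact ⟨_, by rw [← coeff_coeL, e5, coeff_cwL]⟩

theorem cf {s : L⟦X⟧} (hs : cc s = 0) (Ψ : L⟦X⟧) (m : ℕ) :
    coeff m (s * sb s Ψ - thP L s * Ψ) = ∑ n ∈ Finset.range (m + 1),
      (coeff m (s ^ (n + 1)) - ((m - n : ℕ) : L) * coeff (m - n) s) * coeff n Ψ := by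
  have e1 : coeff m (s * sb s Ψ) =
      ∑ n ∈ Finset.range (m + 1), coeff m (s ^ (n + 1)) * coeff n Ψ := by
    obtain ⟨g, hg⟩ := exists_trunc Ψ (m + 1)
    have h0 : coeff m (s ^ (m + 1) * (s * sb s g)) = 0 :=
      X_pow_dvd_iff.1 ((pow_dvd_pow_of_dvd (X_dvd_iff.2 hs) (m + 1)).mul_right _) m
        (Nat.lt_succ_self m)
    conv_lhs => rw [hg]
    rw [map_add, map_mul (sb s), map_pow, sb_X hs, mul_add, mul_left_comm, map_add, h0, add_zero,
      map_sum, Finset.mul_sum, map_sum]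
    refine Finset.sum_congr rfl fun n _ => ?_
    rw [map_mul (sb s), map_pow, sb_X hs, sb_C hs, mul_left_comm, ← pow_succ', coeff_C_mul,
      mul_comm]
  rw [map_sub, e1, mul_comm (thP L s), coeff_mul, Finset.Nat.sum_antidiagonal_eq_sum_range_succ_mk,
    ← Finset.sum_sub_distrib]
  refine Finset.sum_congr rfl fun n _ => ?_
  rw [coeff_thP]
  ring

theorem bt_ev {κ : k →+* L} {D : L →+ L} {F r : R2 k} {x y : L} (h : Curve κ D F x y)
    (hr : Bt F r) : ∃ η, evp κ x y r = D η := by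
  obtain ⟨u, w, rfl⟩ := hr
  obtain ⟨h1, h2, h3, h4, h5⟩ := h
  refine ⟨evp κ x y u, ?_⟩
  have e : D (evp κ x y u) = evp κ x y (MvPolynomial.pderiv 0 u) * D x +
      evp κ x y (MvPolynomial.pderiv 1 u) * D y := h1.eval₂ κ h2 x y u
  rw [e, h4, h5, br]
  simp only [map_add, map_mul, map_sub, map_one, h3]
  ring

/-- Two classes modulo `d` occur. -/
theorem two [CharZero k] [IsAlgClosed k] (h4 : NzStmt) (h5 : IlStmt) (h6 : GradeStmt) {d : ℕ}
    (I : Inf k d L) (hd : 6 ≤ d)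
    (hci : CI (MvPolynomial.pderiv 0 (hc d I.f)) (MvPolynomial.pderiv 1 (hc d I.f)))
    (hev : ∀ r η, evp I.κ (cc I.x0) (cc I.y0) r = I.D η → Bt (hc d I.f) r) (g1 : R2 k)
    (lo : ∀ m : ℤ, m < -d → ∃ z, (cc I.Xi).coeff m = I.D z)
    (hi : ∀ n : ℕ, ∃ z, (cc I.Xi).coeff (n - d) =
      I.D z + evp I.κ (cc I.x0) (cc I.y0) (psi d I.f g1 n)) :
    ∃ n n', ¬ n ≡ n' [MOD d] ∧ ¬ Bt (hc d I.f) (psi d I.f g1 n) ∧
      ¬ Bt (hc d I.f) (psi d I.f g1 n') := by
  by_contra hno
  obtain ⟨n0, h0⟩ : ∃ n0, ∀ n, ¬ n ≡ n0 [MOD d] → Bt (hc d I.f) (psi d I.f g1 n) := by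
    by_cases ha : ∀ n, Bt (hc d I.f) (psi d I.f g1 n)
    · exact ⟨0, fun n _ => ha n⟩
    · obtain ⟨n0, hn0⟩ := not_forall.1 ha
      exact ⟨n0, fun n hn => by_contra fun c => hno ⟨n, n0, hn, c, hn0⟩⟩
  let Λ : AddSubgroup L :=
    { carrier := {z | ∃ η s, (∀ m : Fin 2 →₀ ℕ, ¬ d ∣ m.degree + n0 + 2 →
        MvPolynomial.coeff m s = 0) ∧ z = I.D η + evp I.κ (cc I.x0) (cc I.y0) s}
      zero_mem' := ⟨0, 0, fun _ _ => rfl, by simp⟩
      add_mem' := by
        rintro _ _ ⟨a, s, hs, rfl⟩ ⟨b, t, ht, rfl⟩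
        refine ⟨a + b, s + t, fun m hm => ?_, by rw [map_add, map_add]; ring⟩
        rw [MvPolynomial.coeff_add, hs m hm, ht m hm, add_zero]
      neg_mem' := by
        rintro _ ⟨a, s, hs, rfl⟩
        refine ⟨-a, -s, fun m hm => ?_, by rw [map_neg, map_neg]; ring⟩
        rw [MvPolynomial.coeff_neg, hs m hm, neg_zero] }
  have hΛ := h5 k L d I Λ (by omega) ?_ ?_ ?_
  · obtain ⟨n, hn, hn'⟩ : ∃ n, n ≤ 1 ∧ ¬ d ∣ n + n0 + 2 := by
      by_cases c : d ∣ 0 + n0 + 2
      · refine ⟨1, le_rfl, fun c' => ?_⟩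
        rw [show 1 + n0 + 2 = 0 + n0 + 2 + 1 by omega, Nat.dvd_add_right c] at c'
        have := Nat.le_of_dvd one_pos c'
        omega
      · exact ⟨0, zero_le_one, c⟩
    have hr : (MvPolynomial.X 0 ^ n : R2 k).IsHomogeneous n := MvPolynomial.isHomogeneous_X_pow 0 n
    obtain ⟨η, s, hs, e⟩ := hΛ n _ hr fun c => by
      have := Nat.le_of_dvd (by omega) c
      omega
    have b1 := hev (MvPolynomial.X 0 ^ n - s) η (by rw [map_sub, e]; ring)
    obtain ⟨g1, g2, -⟩ := h6 k d (d - 2 - n)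
    have b2 := g2 _ _ (hc_hom d I.f) b1
    have h3 : d ∣ n + (d - 2 - n) + 2 := by rw [show n + (d - 2 - n) + 2 = d by omega]
    have e2 : cl d (d - 2 - n) (MvPolynomial.X 0 ^ n - s) = MvPolynomial.X 0 ^ n := by
      ext m
      rw [g1]
      split_ifs with c
      · rw [MvPolynomial.coeff_sub, hs m fun c' => hn' ?_, sub_zero]
        have := c'.add h3
        rwa [show m.degree + n0 + 2 + (n + (d - 2 - n) + 2) =
          m.degree + (d - 2 - n) + 2 + (n + n0 + 2) by omega, Nat.dvd_add_right c] at this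
      · exact (hr.coeff_eq_zero fun c' => c (by rw [c']; exact h3)).symm
    rw [e2] at b2
    exact pow_ne_zero n (MvPolynomial.X_ne_zero 0)
      ((h4 k d _ (by omega) (hc_hom d I.f) hci n _ hr b2).1 (by omega))
  · rintro c _ ⟨a, s, hs, rfl⟩
    refine ⟨I.κ c * a, MvPolynomial.C c * s, fun m hm => ?_, ?_⟩
    · rw [MvPolynomial.coeff_C_mul, hs m hm, mul_zero]
    · rw [I.cv.1.const_mul (I.cv.2.1 c), map_mul, evp, MvPolynomial.eval₂Hom_C]
      ring
  · exact fun η => ⟨η, 0, fun _ _ => rfl, by simp⟩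
  · intro m _
    rcases lt_or_ge m (-d) with c | c
    · obtain ⟨z, hz⟩ := lo m c
      exact ⟨z, 0, fun _ _ => rfl, by simp [hz]⟩
    · obtain ⟨n, rfl⟩ : ∃ n : ℕ, m = n - d := ⟨(m + d).toNat, by omega⟩
      obtain ⟨z, hz⟩ := hi n
      by_cases c' : n ≡ n0 [MOD d]
      · obtain ⟨g1', -, g3⟩ := h6 k d n0
        refine ⟨z, _, fun m hm => ?_, hz⟩
        have := g1' (psi d I.f g1 n) m
        rwa [g3 _ _ _ I.gen.1, if_pos c', if_neg hm] at this
      · obtain ⟨w, hw⟩ := bt_ev I.cv (h0 n c')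
        exact ⟨z + w, 0, fun _ _ => rfl, by rw [hz, hw, map_add, map_zero, add_zero]⟩

end Inv

theorem invS (h1 : GlcStmt) (h2 : RedAbsStmt) (h3 : EvbStmt) (h4 : NzStmt) (h5 : IlStmt)
    (h6 : GradeStmt) (h7 : BspecStmt) (h8 : BxStmt) (h9 : GenTopStmt) : InvStmt := by
  intro k L _ _ _ _ d I ν σ φ η hd hν lo s0 s1 s2 p1 p2 p3
  let : Algebra k L := I.κ.toAlgebra
  have : CharZero L := charZero_of_injective_ringHom I.κ.injective
  have hκ : algebraMap k L = I.κ := rfl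
  obtain ⟨-, hci, c1, c2, -⟩ := h9 k d I.f (by omega) I.gen
  have hev := h3 k L I.κ I.D d _ _ _ (by omega) (hc_hom d I.f) hci c1 c2 I.cv I.gb
  obtain ⟨hA, c, e, BB, hc', he, hB, hG⟩ := h1 k L I.D d I.f I.x0 I.y0 (by omega) I.cv I.fr
  rw [hκ] at hA hc' he
  have hev' : ∀ r, e r ∈ BB → Bt (hc d I.f) r := fun r hr => by
    obtain ⟨z, hz⟩ := (hB _).1 hr
    exact hev r z (by rw [← he, hz])
  obtain ⟨g1, u, dg, eg, r1, r2⟩ := h2 k L d I.f c e BB (by omega) I.gen hG hev' I.g I.jac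
    fun m hm => by
      rw [hc', ← I.rX]
      exact (hB _).2 (lo m hm)
  obtain ⟨Ψ, hΨ⟩ := exists_wL_mul_of_low (f := GLc I.κ d I.D I.x0 I.y0 (redg d I.f g1))
    (m := -(d : ℤ)) fun n hn => by rw [← hc', r1 n hn]
  have q1 : ∀ n : ℕ, coeff n Ψ - e (psi d I.f g1 n) ∈ BB := fun n => by
    have := r2 n
    rwa [hc', hΨ, coeff_wL_mul, show (n : ℤ) - d - -(d : ℤ) = n by ring, coeff_coeL] at this
  have hΞ : cc I.Xi = wL L (-(d : ℤ)) * coeL L Ψ + cwL I.D (EL I.κ I.x0 I.y0 u) := by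
    rw [I.rX, ← hΨ, ← hA]
    conv_lhs => rw [eg]
    simp only [GLc, map_add, add_mul]
  have hs : cc (map I.κ σ) = 0 := by
    rw [← coeff_zero_eq_constantCoeff_apply, coeff_map, coeff_zero_eq_constantCoeff_apply, s0,
      map_zero]
  have hDs : cw I.D (map I.κ σ) = 0 := by
    ext n
    rw [coeff_cw, coeff_map, I.cv.2.1, map_zero]
  have q2 : ∀ m, Bt (hc d I.f) (∑ n ∈ Finset.range (m + 1), MvPolynomial.C
      (coeff m (σ ^ (n + 1)) - ((m - n : ℕ) : k) * coeff (m - n) σ) * psi d I.f g1 n) := by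
    intro m
    have a1 := (hB _).2 (Inv.ser I.cv.1 (by omega) hs hDs p1 p2 hΞ p3 m)
    rw [Inv.cf hs] at a1
    have a2 := BB.sub_mem a1 (BB.sum_mem fun n (_ : n ∈ Finset.range (m + 1)) => BB.smul_mem
      (coeff m (σ ^ (n + 1)) - ((m - n : ℕ) : k) * coeff (m - n) σ) (q1 n))
    refine hev' _ ?_
    convert a2 using 1
    rw [map_sum, ← Finset.sum_sub_distrib]
    refine Finset.sum_congr rfl fun n _ => ?_
    rw [MvPolynomial.C_mul', map_smul, Algebra.smul_def, Algebra.smul_def, hκ, ← map_pow,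
      coeff_map, coeff_map, map_sub, map_mul, map_natCast]
    ring
  have q3 := Inv.two h4 h5 h6 I hd hci hev g1 lo fun n => by
    obtain ⟨z, hz⟩ := (hB _).1 (q1 n)
    refine ⟨z + (EL I.κ I.x0 I.y0 u).coeff (n - d), ?_⟩
    rw [hΞ, HahnSeries.coeff_add, coeff_wL_mul, show (n : ℤ) - d - -(d : ℤ) = n by ring, coeff_coeL,
      coeff_cwL, map_add, ← hz, he]
    ring
  obtain ⟨p, hp, hq⟩ := Nat.exists_prime_and_dvd (mt orderOf_eq_one_iff.1 s2)
  obtain ⟨k1, _, _, F1, t1, a1, a2, a3, a4⟩ :=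
    h7 k d I.f g1 σ ν hd I.gen dg s0 hν s1 q2 q3 1 0 (by omega) (by omega)
  obtain ⟨k2, _, _, F2, t2, b1, b2, b3, b4⟩ :=
    h7 k d I.f g1 σ ν hd I.gen dg s0 hν s1 q2 q3 1 1 (by omega) (by omega)
  exact (h8 k2 d p F2 t2 hd hp b1 b2 b3).2 (fun n x y => hq.trans (b4 n x y))
    ((h8 k1 d p F1 t1 hd hp a1 a2 a3).1 fun n x y => hq.trans (a4 n x y))

end Pool.Agent.MP_05b4bd_ag.ES

end MrgPart4

-- ======== part 5: formerly Pool.Agent.MP_05b4bd_ag.esc.Log1
section MrgPart5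

/-! Escaping centres: a derivation that moves the logarithm and fixes a symmetry. -/

namespace Pool.Agent.MP_05b4bd_ag.ES

open PowerSeries LaurentSeries HC

namespace Log1

variable {k : Type} [Field k] [CharZero k]

theorem charK : CharZero k⸨X⸩ := charZero_of_injective_ringHom (cL_inj (R := k))

theorem dX_exp : dX k (exp k) = exp k := derivative_exp k

theorem dX_e (a : k) : dX k (rescale a (exp k)) = C a * rescale a (exp k) := by
  rw [dX_rescale, dX_exp]

theorem e_succ (a : k) : rescale (a + 1) (exp k) = rescale a (exp k) * exp k := by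
  rw [← exp_mul_exp_eq_exp_add, rescale_one, RingHom.id_apply]

theorem e_zero : rescale (0 : k) (exp k) = 1 := by
  rw [rescale_zero_apply, constantCoeff_exp, map_one]

theorem exp_ne {K : Type} [Field K] (φ : k⟦X⟧ →+* K) : φ (exp k) ≠ 0 := by
  have h := e_succ (k := k) (-1)
  rw [neg_add_cancel, e_zero] at h
  intro c
  have h2 := congrArg φ h
  rw [map_mul, c, mul_zero, map_one] at h2
  exact one_ne_zero h2

theorem logder {K : Type} [Field K] (φ : k⟦X⟧ →+* K) {δ : K →+ K} (hδ : IsDer δ) (i : ℤ) :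
    δ (φ (rescale (i : k) (exp k))) * φ (exp k) =
      i * φ (rescale (i : k) (exp k)) * δ (φ (exp k)) := by
  induction i using Int.induction_on with
  | zero => rw [Int.cast_zero, Int.cast_zero, e_zero, map_one, hδ.one]; ring
  | succ n ih =>
    rw [Int.cast_add, Int.cast_one, e_succ, map_mul, hδ, Int.cast_add, Int.cast_one]
    linear_combination φ (exp k) * ih
  | pred n ih =>
    have e : rescale (((-(n : ℤ) : ℤ)) : k) (exp k) =
        rescale (((-(n : ℤ) - 1 : ℤ)) : k) (exp k) * exp k := by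
      rw [← e_succ, Int.cast_sub, Int.cast_one, sub_add_cancel]
    rw [e, map_mul, hδ] at ih
    refine mul_right_cancel₀ (exp_ne φ) ?_
    rw [Int.cast_sub (R := K), Int.cast_one]
    linear_combination ih

/-- Antiderivatives inside the class, with their behaviour under all derivations. -/
theorem anti {m : ℤ} {M : ℕ} (hm : ¬ (M : ℤ) ∣ m) {g : k⟦X⟧} (hg : g ∈ ExpCl k m M) :
    ∃ b, dX k b = g ∧ ∀ (φ : k⟦X⟧ →+* k⸨X⸩) (δ : k⸨X⸩ →+ k⸨X⸩), IsDer δ →
      (∀ r, δ (φ (C r)) = 0) → δ (φ b) * φ (exp k) = φ g * δ (φ (exp k)) := by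
  induction hg using Submodule.span_induction with
  | mem c hc =>
    obtain ⟨i, hi, rfl⟩ := hc
    have i0 : (i : k) ≠ 0 := by
      rw [Int.cast_ne_zero]
      rintro rfl
      exact hm (by simpa using hi.dvd)
    refine ⟨C (i : k)⁻¹ * rescale (i : k) (exp k), ?_, fun φ δ hδ h0 => ?_⟩
    · rw [isDer_dX.const_mul (dX_C _), dX_e, ← mul_assoc, ← map_mul, inv_mul_cancel₀ i0, map_one,
        one_mul]
    · have e : φ (C (i : k)⁻¹) * (i : k⸨X⸩) = 1 := by
        rw [← map_intCast φ, ← map_intCast (C : k →+* k⟦X⟧), ← map_mul, ← map_mul,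
          inv_mul_cancel₀ i0, map_one, map_one]
      rw [map_mul, hδ.const_mul (h0 _), mul_assoc, logder φ hδ]
      linear_combination φ (rescale (i : k) (exp k)) * δ (φ (exp k)) * e
  | zero => exact ⟨0, map_zero _, fun φ δ _ _ => by simp⟩
  | add g g' _ _ h h' =>
    obtain ⟨b, h1, h2⟩ := h
    obtain ⟨b', h1', h2'⟩ := h'
    refine ⟨b + b', by rw [map_add, h1, h1'], fun φ δ hδ h0 => ?_⟩
    rw [map_add, map_add, map_add]
    linear_combination h2 φ δ hδ h0 + h2' φ δ hδ h0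
  | smul c g _ h =>
    obtain ⟨b, h1, h2⟩ := h
    refine ⟨C c * b, by rw [isDer_dX.const_mul (dX_C _), h1, smul_eq_C_mul],
      fun φ δ hδ h0 => ?_⟩
    rw [smul_eq_C_mul, map_mul φ, map_mul φ, hδ.const_mul (h0 _), mul_assoc, h2 φ δ hδ h0,
      mul_assoc]

/-- A derivation that kills the constants and the exponential kills its transform. -/
theorem kill {m : ℤ} {M : ℕ} (hm : ¬ (M : ℤ) ∣ m) {β j : k⟦X⟧} (hj : cc j = 0) (hs : sb j β = β)
    (h0 : dX k β ≠ 0) (hβ : dX k β ∈ ExpCl k m M) {δ : k⸨X⸩ →+ k⸨X⸩} (hδ : IsDer δ)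
    (hκ : ∀ r, δ (cL k r) = 0) (hE : δ (coeL k (exp k)) = 0) :
    δ (coeL k (sb j (exp k))) = 0 := by
  obtain ⟨b, h1, h2⟩ := anti hm hβ
  have e : β - b = C (cc (β - b)) := eq_C_of_dX (by rw [map_sub, h1, sub_self])
  have e' : sb j b = b := by
    have := congrArg (sb j) e
    rw [map_sub, hs, sb_C hj, ← e] at this
    exact sub_right_injective this
  have a1 := h2 (coeL k) δ hδ (fun r => by rw [coeL_C, hκ])
  rw [hE, mul_zero] at a1
  have a2 := (mul_eq_zero.1 a1).resolve_right (exp_ne _)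
  have a3 := h2 ((coeL k).comp (sb j)) δ hδ
    (fun r => by rw [RingHom.comp_apply, sb_C hj, coeL_C, hκ])
  simp only [RingHom.comp_apply] at a3
  rw [e', a2, zero_mul] at a3
  refine (mul_eq_zero.1 a3.symm).resolve_left fun c => h0 ?_
  have c' : sb j (dX k β) = 0 := coeL_inj (by rw [c, map_zero])
  rw [← hs, dX_sb hj, c', zero_mul]

omit [CharZero k] in
theorem dL_cL (r : k) : dL k (cL k r) = 0 := by rw [dL_apply, thL_cL, mul_zero]

theorem dL_E : dL k (coeL k (exp k)) = coeL k (exp k) := by rw [dL_coeL, dX_exp]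

theorem ci3 : CI (MvPolynomial.pderiv 0 (MvPolynomial.X 0 ^ 3 + MvPolynomial.X 1 ^ 3 : R2 k))
    (MvPolynomial.pderiv 1 (MvPolynomial.X 0 ^ 3 + MvPolynomial.X 1 ^ 3 : R2 k)) := by
  have h3 : (MvPolynomial.C (3 : k)⁻¹ : R2 k) * 3 = 1 := by
    rw [← map_ofNat (MvPolynomial.C : k →+* R2 k), ← map_mul, inv_mul_cancel₀ three_ne_zero,
      map_one]
  have p0 : MvPolynomial.pderiv 0 (MvPolynomial.X 0 ^ 3 + MvPolynomial.X 1 ^ 3 : R2 k) =
      3 * MvPolynomial.X 0 ^ 2 := by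
    simp [Derivation.leibniz_pow, MvPolynomial.pderiv_X]
  have p1 : MvPolynomial.pderiv 1 (MvPolynomial.X 0 ^ 3 + MvPolynomial.X 1 ^ 3 : R2 k) =
      3 * MvPolynomial.X 1 ^ 2 := by
    simp [Derivation.leibniz_pow, MvPolynomial.pderiv_X]
  rw [p0, p1]
  refine ⟨2, Ideal.mem_span_pair.2 ⟨MvPolynomial.C (3 : k)⁻¹, 0, ?_⟩,
    Ideal.mem_span_pair.2 ⟨0, MvPolynomial.C (3 : k)⁻¹, ?_⟩⟩
  · linear_combination MvPolynomial.X 0 ^ 2 * h3
  · linear_combination MvPolynomial.X 1 ^ 2 * h3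

/-- Two logarithmic terms over the algebraic closure of a field with one generator. -/
theorem hol2 [IsAlgClosed k] (hH : HolStmt) {K : Type} [Field K] (κ : k →+* K) {D : K →+ K}
    (hD : IsDer D) (hκ : ∀ r, D (κ r) = 0) (x : K) (N : Subfield K)
    (hN : ∀ z, z ∈ N ↔ IsAlgebraic (Subfield.closure (Set.range κ ∪ {x})) z)
    (hs : ∀ z ∈ N, D z ∈ N) {η e1 e2 : K} (hη : η ∈ N) (h1 : e1 ∈ N) (h2 : e2 ∈ N) (n1 : e1 ≠ 0)
    (n2 : e2 ≠ 0) (c1 c2 : k) (h : D η = κ c1 * (D e1 / e1) + κ c2 * (D e2 / e2)) : D η = 0 := by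
  have le : ∀ z ∈ Subfield.closure (Set.range κ ∪ {x}), z ∈ N := fun z hz =>
    (hN z).2 (isAlgebraic_algebraMap (⟨z, hz⟩ : Subfield.closure (Set.range κ ∪ {x})))
  have mκ : ∀ r, κ r ∈ N := fun r => le _ (Subfield.subset_closure (Or.inl ⟨r, rfl⟩))
  have mx : x ∈ N := le _ (Subfield.subset_closure (Or.inr rfl))
  let κ0 : k →+* N := κ.codRestrict N mκ
  let D0 : N →+ N := AddMonoidHom.mk' (fun z => ⟨D z, hs z z.2⟩)
    fun a b => Subtype.ext (map_add D (a : K) b)
  have hD0 : IsDer D0 := fun a b => Subtype.ext (hD (a : K) b)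
  have em : (Subfield.closure (Set.range κ0 ∪ {(⟨x, mx⟩ : N)})).map N.subtype =
      Subfield.closure (Set.range κ ∪ {x}) := by
    rw [RingHom.map_field_closure, Set.image_union, Set.image_singleton, ← Set.range_comp]
    rfl
  have alg : ∀ e : N, IsAlgebraic (Subfield.closure (Set.range κ0 ∪ {(⟨x, mx⟩ : N)})) e := by
    intro e
    let f : Subfield.closure (Set.range κ0 ∪ {(⟨x, mx⟩ : N)}) →+*
        Subfield.closure (Set.range κ ∪ {x}) :=
      (N.subtype.comp (Subfield.subtype _)).codRestrict _ fun z => by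
        rw [← em]
        exact ⟨z, z.2, rfl⟩
    refine IsAlgebraic.of_ringHom_of_comp_eq f N.subtype ((hN e).1 e.2) ?_ N.subtype.injective rfl
    rintro ⟨z, hz⟩
    rw [← em] at hz
    obtain ⟨w, hw, rfl⟩ := hz
    exact ⟨⟨w, hw⟩, rfl⟩
  have key := hH k N κ0 D0 hD0 (fun c => Subtype.ext (hκ c)) ⟨⟨x, mx⟩, alg⟩ 3
    (MvPolynomial.X 0 ^ 3 + MvPolynomial.X 1 ^ 3) le_rfl
    ((MvPolynomial.isHomogeneous_X_pow _ _).add (MvPolynomial.isHomogeneous_X_pow _ _)) ci3
    0 2 Fin.elim0 Fin.elim0 Fin.elim0 Fin.elim0 ![c1, c2] ![⟨e1, h1⟩, ⟨e2, h2⟩] ⟨η, hη⟩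
    (fun i => i.elim0) (fun i => by
      fin_cases i
      · exact fun c => n1 (congrArg Subtype.val c)
      · exact fun c => n2 (congrArg Subtype.val c))
    (by
      rw [Fin.sum_univ_zero, zero_add, Fin.sum_univ_two]
      exact Subtype.ext h)
  exact congrArg Subtype.val key

/-- A linear symmetry permutes the exponents. -/
theorem lin (hX : ExpStmt) {m : ℤ} {M : ℕ} (hm : ¬ (M : ℤ) ∣ 2 * m) {g : k⟦X⟧} {c : k}
    (hc : c ≠ 1) (h0 : g ≠ 0) (hg : g ∈ ExpCl k m M) (e : g = C c * rescale c g) : False := by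
  classical
  have c0 : c ≠ 0 := by
    rintro rfl
    exact h0 (by rw [e, map_zero, zero_mul])
  have li : LinearIndependent k fun a : k => rescale a (exp k) := by
    refine linearIndependent_iff'.2 fun s u hu a ha => ?_
    refine Polynomial.C_eq_zero.1 ((hX k).1 s (fun a => Polynomial.C (u a)) ?_ a ha)
    rw [← hu]
    exact Finset.sum_congr rfl fun a _ => by rw [Polynomial.coe_C, smul_eq_C_mul]
  have es : {c | ∃ i : ℤ, i ≡ m [ZMOD M] ∧ c = rescale (i : k) (exp k)} =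
      (fun a : k => rescale a (exp k)) '' {a | ∃ i : ℤ, i ≡ m [ZMOD M] ∧ a = i} := by
    ext c
    constructor
    · rintro ⟨i, hi, rfl⟩
      exact ⟨i, ⟨i, hi, rfl⟩, rfl⟩
    · rintro ⟨_, ⟨i, hi, rfl⟩, rfl⟩
      exact ⟨i, hi, rfl⟩
  unfold ExpCl at hg
  rw [es] at hg
  obtain ⟨γ, hγ, rfl⟩ := (Finsupp.mem_span_image_iff_linearCombination k).1 hg
  have eγ : γ = c • Finsupp.mapDomain (· * c) γ := by
    refine li ?_
    rw [map_smul, Finsupp.linearCombination_mapDomain, smul_eq_C_mul]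
    refine e.trans ?_
    congr 1
    rw [Finsupp.linearCombination_apply, Finsupp.linearCombination_apply, Finsupp.sum,
      Finsupp.sum, map_sum]
    refine Finset.sum_congr rfl fun a _ => ?_
    rw [smul_eq_C_mul, smul_eq_C_mul, map_mul, rescale_rescale, rescale_eq_sb,
      sb_C (by simp)]
    rfl
  have st : ∀ a, γ (a * c) = c * γ a := fun a => by
    conv_lhs => rw [eγ]
    rw [Finsupp.smul_apply, Finsupp.mapDomain_apply (mul_left_injective₀ c0), smul_eq_mul]
  have hz : ∀ a : k, ∃ i : ℤ, γ a ≠ 0 → i ≡ m [ZMOD M] ∧ a = i := fun a => by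
    by_cases h : γ a = 0
    · exact ⟨0, fun c => (c h).elim⟩
    · obtain ⟨i, hi⟩ := hγ (Finsupp.mem_support_iff.2 h)
      exact ⟨i, fun _ => hi⟩
  choose z hz using hz
  have ne : γ.support.Nonempty := Finsupp.support_nonempty_iff.2 fun c => h0 (by rw [c, map_zero])
  obtain ⟨a, ha, mx⟩ := γ.support.exists_max_image (fun a => |z a|) ne
  have n0 := Finsupp.mem_support_iff.1 ha
  have n1 : γ (a * c) ≠ 0 := by
    rw [st]
    exact mul_ne_zero c0 n0
  have n2 : γ (a / c) ≠ 0 := fun h => n0 (by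
    rw [← div_mul_cancel₀ a c0, st, h, mul_zero])
  have b1 := mx _ (Finsupp.mem_support_iff.2 n1)
  have b2 := mx _ (Finsupp.mem_support_iff.2 n2)
  obtain ⟨m0, z0⟩ := hz _ n0
  obtain ⟨m1, z1⟩ := hz _ n1
  obtain ⟨-, z2⟩ := hz _ n2
  have pr : z (a * c) * z (a / c) = z a * z a := by
    refine Int.cast_injective (α := k) ?_
    rw [Int.cast_mul, Int.cast_mul, ← z0, ← z1, ← z2]
    field_simp
  have a0 : z a ≠ 0 := fun h => hm (Dvd.dvd.mul_left (by simpa [h] using m0.dvd) 2)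
  have ab : |z (a * c)| = |z a| := by
    have p := congrArg abs pr
    rw [abs_mul, abs_mul] at p
    have q := abs_pos.2 a0
    have q1 := abs_nonneg (z (a * c))
    refine le_antisymm b1 (not_lt.1 fun lt => ?_)
    nlinarith [mul_le_mul_of_nonneg_left b2 q1, mul_lt_mul_of_pos_right lt q]
  rcases abs_eq_abs.1 ab with h | h
  · rw [h, ← z0] at z1
    refine hc (mul_left_cancel₀ (a := a) (fun c => a0 ?_) (by rw [z1, mul_one]))
    exact Int.cast_injective (α := k) (by rw [← z0, c, Int.cast_zero])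
  · rw [h] at m1
    have := (m0.add m1).dvd
    exact hm (by simpa [two_mul] using this)

end Log1

open Log1 in
theorem log1S (hH : HolStmt) (_hE : DerExtStmt) (hA : DerAlgStmt) (hX : ExpStmt) : Log1Stmt := by
  intro k _ _ _ m M β j hm hj h1 hs h0 hβ
  have : CharZero k⸨X⸩ := charK
  have hm' : ¬ (M : ℤ) ∣ m := fun c => hm (c.mul_left 2)
  have kl := fun δ => kill hm' hj hs h0 hβ (δ := δ)
  obtain ⟨-, A2, A3, ⟨N, hN⟩, -, A6⟩ :=
    hA k⸨X⸩ (Subfield.closure (Set.range (cL k) ∪ {coeL k (exp k)}))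
  have mκ : ∀ r, cL k r ∈ Subfield.closure (Set.range (cL k) ∪ {coeL k (exp k)}) := fun r =>
    Subfield.subset_closure (Or.inl ⟨r, rfl⟩)
  have mE : coeL k (exp k) ∈ Subfield.closure (Set.range (cL k) ∪ {coeL k (exp k)}) :=
    Subfield.subset_closure (Or.inr rfl)
  have le : Subfield.closure (Set.range (cL k) ∪ {coeL k (exp k)}) ≤ N := fun z hz =>
    (hN z).2 (isAlgebraic_algebraMap
      (⟨z, hz⟩ : Subfield.closure (Set.range (cL k) ∪ {coeL k (exp k)})))
  have st : ∀ z ∈ N, dL k z ∈ N := fun z hz =>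
    A2 _ isDer_dL N le (fun w hw => le (A6 _ isDer_dL _ (by
      rintro _ (⟨r, rfl⟩ | rfl)
      · exact ⟨mκ r, by rw [dL_cL]; exact zero_mem _⟩
      · exact ⟨mE, by rw [dL_E]; exact mE⟩) w hw)) z hz ((hN z).1 hz)
  have inN : ∀ z, (∀ δ : k⸨X⸩ →+ k⸨X⸩, IsDer δ → (∀ r, δ (cL k r) = 0) →
      δ (coeL k (exp k)) = 0 → δ z = 0) → z ∈ N := fun z hz =>
    (hN z).2 (A3 z fun δ hδ h => hz δ hδ (fun r => h _ (mκ r)) (h _ mE))
  have hol := fun η e1 e2 => hol2 hH (cL k) isDer_dL dL_cL _ N hN st (η := η) (e1 := e1) (e2 := e2)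
  have En : coeL k (exp k) ≠ 0 := exp_ne _
  have dx : dL k (coeL k X) = 1 := by rw [dL_coeL, dX_X, map_one]
  obtain ⟨δ0, d0, k0, e0, x0⟩ : ∃ δ : k⸨X⸩ →+ k⸨X⸩, IsDer δ ∧ (∀ r, δ (cL k r) = 0) ∧
      δ (coeL k (exp k)) = 0 ∧ δ (coeL k X) = 1 := by
    have : coeL k X ∉ N := fun c => by
      have := hol _ _ _ c (le mE) (le mE) En En 1 0 (by
        rw [dx, dL_E, div_self En, map_one, map_zero]; ring)
      rw [dx] at this
      exact one_ne_zero this
    have h := mt (inN _) this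
    push Not at h
    obtain ⟨δ, a, b, c, d⟩ := h
    refine ⟨(AddMonoidHom.mulLeft (δ (coeL k X))⁻¹).comp δ, a.mulLeft _, fun r => ?_, ?_, ?_⟩
    · change _ * δ _ = 0
      rw [b, mul_zero]
    · change _ * δ _ = 0
      rw [c, mul_zero]
    · exact inv_mul_cancel₀ d
  by_cases P : ∀ δ : k⸨X⸩ →+ k⸨X⸩, IsDer δ → (∀ r, δ (cL k r) = 0) →
      δ (coeL k (exp k)) = 0 → δ (coeL k X) = 0 → δ (coeL k j) = 0
  · exfalso
    have E'n : coeL k (sb j (exp k)) ≠ 0 := exp_ne ((coeL k).comp (sb j))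
    have dE' : dL k (coeL k (sb j (exp k))) = coeL k (sb j (exp k)) * dL k (coeL k j) := by
      rw [dL_coeL, dL_coeL, dX_sb hj, dX_exp, map_mul]
    have cm : ∀ z, (δ0.comp (dL k) - (dL k).comp δ0) z = δ0 (dL k z) - dL k (δ0 z) := fun _ => rfl
    have dΔ := d0.comm (isDer_dL (R := k))
    have Δκ : ∀ r, (δ0.comp (dL k) - (dL k).comp δ0) (cL k r) = 0 := fun r => by
      rw [cm, dL_cL, k0, map_zero, map_zero, sub_zero]
    have ΔE : (δ0.comp (dL k) - (dL k).comp δ0) (coeL k (exp k)) = 0 := by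
      rw [cm, dL_E, e0, map_zero, sub_zero]
    have Δx : (δ0.comp (dL k) - (dL k).comp δ0) (coeL k X) = 0 := by
      rw [cm, dx, x0, d0.one, isDer_dL.one, sub_zero]
    have q1 := P _ dΔ Δκ ΔE Δx
    have q2 := kl _ dΔ Δκ ΔE
    rw [cm, dE', d0, kl _ d0 k0 e0, map_zero, sub_zero, zero_mul, zero_add] at q2
    rw [cm, (mul_eq_zero.1 q2).resolve_left E'n, zero_sub, neg_eq_zero] at q1
    obtain ⟨c, hc⟩ := const_dL q1
    have mη : coeL k j - cL k c * coeL k X ∈ N := inN _ fun δ a b e => by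
      have cm' : ∀ z, (δ - (AddMonoidHom.mulLeft (δ (coeL k X))).comp δ0) z =
          δ z - δ (coeL k X) * δ0 z := fun _ => rfl
      have := P _ (a.sub (d0.mulLeft (δ (coeL k X)))) (fun r => by rw [cm', b, k0]; ring)
        (by rw [cm', e, e0]; ring) (by rw [cm', x0]; ring)
      rw [cm', hc] at this
      rw [map_sub, a.const_mul (b c)]
      linear_combination this
    have dη : dL k (coeL k j - cL k c * coeL k X) = dL k (coeL k j) - cL k c := by
      rw [map_sub, isDer_dL.const_mul (dL_cL c), dx, mul_one]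
    have q3 := hol _ _ _ mη (inN _ kl) (le mE) E'n En 1 (-c) (by
      rw [dη, dE', dL_E, div_self En, map_one, map_neg, mul_div_cancel_left₀ _ E'n]; ring)
    rw [dη, dL_coeL, ← coeL_C, ← map_sub] at q3
    have q4 : dX k j - C c = 0 := coeL_inj (by rw [q3, map_zero])
    have q5 : j - C c * X = C (cc (j - C c * X)) := eq_C_of_dX (by
      rw [map_sub, isDer_dX.const_mul (dX_C c), dX_X, mul_one, q4])
    have q6 : j = C c * X := by
      rw [map_sub, hj, map_mul, constantCoeff_X, mul_zero, sub_zero, map_zero] at q5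
      exact sub_eq_zero.1 q5
    refine lin hX hm (c := c) (fun e => h1 (by rw [q6, e]; simp)) h0 hβ ?_
    rw [← dX_rescale, rescale_eq_sb, ← q6, hs]
  · push Not at P
    obtain ⟨δ, a, b, e, x, d⟩ := P
    have cm : ∀ z, (δ0 - (AddMonoidHom.mulLeft (δ0 (coeL k j) / δ (coeL k j))).comp δ) z =
        δ0 z - δ0 (coeL k j) / δ (coeL k j) * δ z := fun _ => rfl
    have dd := d0.sub (a.mulLeft (δ0 (coeL k j) / δ (coeL k j)))
    have hk : ∀ r, (δ0 - (AddMonoidHom.mulLeft (δ0 (coeL k j) / δ (coeL k j))).comp δ)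
        (cL k r) = 0 := fun r => by rw [cm, k0, b]; ring
    have he : (δ0 - (AddMonoidHom.mulLeft (δ0 (coeL k j) / δ (coeL k j))).comp δ)
        (coeL k (exp k)) = 0 := by rw [cm, e0, e]; ring
    exact ⟨_, dd, hk, he, kl _ dd hk he, by rw [cm, x0, x]; ring,
      by rw [cm, div_mul_cancel₀ _ d, sub_self]⟩

end Pool.Agent.MP_05b4bd_ag.ES

end MrgPart5

-- marker of a merged file
example : 731051 + 300043 = 731051 + 300043 := rfl
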