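import Pool.Agent.MP_05b4bd_ag.esc.Bx
import Pool.Agent.MP_05b4bd_ag.esc.Symb
import Pool.Agent.MP_05b4bd_ag.esc.K2b
import Mathlib.RingTheory.Algebraic.Integral

-- ======== part 0: formerly Pool.Agent.MP_05b4bd_ag.esc.Blog
section MrgPart0

/-! Escaping centres: the Lienard form of the large case has no logarithm. -/

namespace Pool.Agent.MP_05b4bd_ag.ES

open PowerSeries LaurentSeries HC

namespace Blog

variable {A B : Type} [CommRing A] [CommRing B]

theorem mA_tA (τ : A →+* B) (ε : ℕ) : mA τ (tA A ε) = tA B ε := by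
  rw [tA, tA, map_mul, map_pow, mA_CX, mA_X]

theorem mA_DA (τ : A →+* B) (ε : ℕ) (c : AA A) : DA B ε (mA τ c) = mA τ (DA A ε c) :=
  co2_ext fun i j => by simp [co2_DA, co2_mA]

theorem SS_mA (τ : A →+* B) {ε N : ℕ} {c : AA A} (h : SS ε N c) : SS ε N (mA τ c) := by
  refine ⟨fun i j hn => h.1 i j fun e => hn (by rw [co2_mA, e, map_zero]), fun he j => ?_⟩
  obtain ⟨n, hn⟩ := h.2 he j
  exact ⟨n, fun i hi => by rw [co2_mA, hn i hi, map_zero]⟩

theorem supp_tA {ε M : ℕ} {m : ℤ} {c : AA A} (h : Supp ε m M c) : Supp ε m M (tA A ε * c) := by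
  intro i j hn
  have e : tA A ε * c = X ^ ε * (C X * c) := by rw [tA]; ring
  rw [co2, e, coeff_X_pow_mul'] at hn
  split_ifs at hn with hj
  · rw [coeff_C_mul] at hn
    rcases i with _ | i
    · simp at hn
    · rw [coeff_succ_X_mul] at hn
      have := h i (j - ε) hn
      rw [Nat.cast_sub hj] at this
      have e2 : (j : ℤ) - ε * ((i + 1 : ℕ) : ℤ) = j - ε - ε * i := by push_cast; ring
      rwa [e2]
  · simp at hn

theorem supp_pow {ε M : ℕ} {m : ℤ} {c : AA A} (h : Supp ε m M c) :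
    ∀ e : ℕ, Supp ε m M (tA A ε ^ e * c)
  | 0 => by simpa using h
  | e + 1 => by rw [pow_succ', mul_assoc]; exact supp_tA (supp_pow h e)

theorem tA_ne [IsDomain A] (ε : ℕ) : tA A ε ≠ 0 := fun h => by
  have := congrArg (out ε) h
  rw [out_tA, map_zero] at this
  exact X_ne_zero this

theorem dl2_mA (c : AA A) : dl2 A (mA Polynomial.C c) = 0 :=
  co2_ext fun i j => by rw [dl2, co2_cw_cw, co2_mA, co2_zero]; simp

theorem isDer_DG (ε : ℕ) : IsDer (DG A ε) := (isDer_DA ε).add k4_isDer.coefw.coefw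

theorem DG_apply (ε : ℕ) (c : AA (Polynomial A)) : DG A ε c = DA _ ε c + dl2 A c := rfl

theorem DG_tA (ε : ℕ) : DG A ε (tA _ ε) = 0 := by
  rw [DG_apply, DA_tA, ← mA_tA Polynomial.C, dl2_mA, add_zero]

theorem ev0_mA (c : AA A) : mA (Polynomial.evalRingHom 0) (mA Polynomial.C c) = c :=
  co2_ext fun i j => by simp [co2_mA]

theorem const_of {k : Type} [Field k] [CharZero k] {c : AA (Polynomial k)} (h : dl2 k c = 0) :
    c = mA Polynomial.C (mA (Polynomial.evalRingHom 0) c) :=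
  co2_ext fun i j => by
    have h1 := congrArg (co2 i j) h
    rw [dl2, co2_cw_cw, co2_zero] at h1
    rw [co2_mA, co2_mA, Polynomial.eq_C_of_derivative_eq_zero h1]
    simp

theorem map_map {T : Type} [CommRing T] (f : A →+* B) (g : B →+* T) (g' : A →+* T)
    (h : ∀ c, g (f c) = g' c) (a : A⟦X⟧) : map g (map f a) = map g' a := by
  ext n; simp [h]

theorem frac_gen {P K : Type} [CommRing P] [IsDomain P] [Field K] [Algebra P K]
    [IsFractionRing P K] {D : P →+ P} (h : IsDer D) : ∃ (τ : P →+* K) (dK : K →+ K),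
      Function.Injective τ ∧ IsDer dK ∧ ∀ s, dK (τ s) = τ (D s) := by
  obtain ⟨dK, h1, h2⟩ := exists_der_loc (T := K) (nonZeroDivisors P) h
  exact ⟨algebraMap P K, dK, IsFractionRing.injective P K, h1, h2⟩

theorem frac {P : Type} [CommRing P] [IsDomain P] {D : P →+ P} (h : IsDer D) :
    ∃ (K : Type) (_ : Field K) (τ : P →+* K) (dK : K →+ K),
      Function.Injective τ ∧ IsDer dK ∧ ∀ s, dK (τ s) = τ (D s) :=
  ⟨FractionRing P, inferInstance, frac_gen h⟩

/-- The logarithm is killed over the field of rational functions. -/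
theorem kill (hK : KillStmt) (hO : ObsStmt) {k K : Type} [Field k] [CharZero k] [Field K]
    (τ : Polynomial k →+* K) (hτ : Function.Injective τ) {dK : K →+ K} (hdK : IsDer dK)
    (dτ : ∀ s, dK (τ s) = τ ((Polynomial.derivative (R := k)).toAddMonoidHom s)) {d ε : ℕ}
    (hd : 6 ≤ d) {x y : k⸨X⸩} {a b : (AA k)⟦X⟧} {Wt lam : (AA (Polynomial k))⟦X⟧}
    {G0 G1 : AA (Polynomial k)}
    (ho : Obs k d (cL k) (thL k) x y (map (out ε) a) (map (out ε) b))
    (ld : LD (tA _ ε) (DG k ε) (map (mA Polynomial.C) a) (map (mA Polynomial.C) b) Wt lam G0 G1)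
    (g0 : DG k ε G0 ≠ 0) (cr : dl2 k G0 * DG k ε G1 = dl2 k G1 * DG k ε G0) :
    dl2 k G0 = 0 ∧ dl2 k G1 = 0 ∧ cw (DG k ε) Wt = cw (DA _ ε) Wt := by
  obtain ⟨η, hη⟩ : ∃ η : AA (Polynomial k) →+* TT K, ∀ c, η c = out ε (mA τ c) :=
    ⟨(out ε).comp (mA τ), fun _ => rfl⟩
  have ηi : Function.Injective η := fun c c' e =>
    mA_inj hτ (out_inj ε (by rw [← hη, ← hη, e]))
  have ηδ : ∀ c, cw (cwL dK) (η c) = η (dl2 k c) := fun c => by
    rw [hη, hη, cw_out]
    exact congrArg (out ε) (cw_map' (fun f => cw_map' dτ f) c)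
  have ηD : ∀ c, cw (thL K + cwL dK) (η c) = η (DG k ε c) := fun c => by
    rw [cw_add, AddMonoidHom.add_apply, ηδ, DG_apply, map_add, hη c, th_out, mA_DA, ← hη]
  have ld2 := ld.push' η (t' := X) (by rw [hη, mA_tA, out_tA]) ηD
  have ob := (hO k d _ _ _ _ _ _ _ ho).2.2.2 K⸨X⸩ (thL K + cwL dK)
    (mapL (τ.comp Polynomial.C)) 1 one_ne_zero (isDer_thL.add hdK.coefL) fun c => by
      have h0 : cwL dK (mapL (τ.comp Polynomial.C) c) = 0 := by
        ext i
        rw [coeff_cwL, coeff_mapL]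
        simpa using dτ (Polynomial.C (c.coeff i))
      rw [AddMonoidHom.add_apply, thL_mapL, h0, add_zero, one_mul]
  have tr : ∀ c : (AA k)⟦X⟧, mA (mapL (τ.comp Polynomial.C)) (map (out ε) c) =
      map η (map (mA Polynomial.C) c) := fun c => by
    rw [map_map _ η ((out ε).comp (mA (τ.comp Polynomial.C))) fun c => by
      rw [hη, mA_mA]; rfl]
    exact map_map _ _ _ (fun c => mT_out ε _ c) c
  rw [map_one, one_mul, tr, tr] at ob
  have z : ∀ c : (AA k)⟦X⟧, cw (cw (cwL dK)) (map η (map (mA Polynomial.C) c)) = 0 := fun c => by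
    ext1 i
    rw [coeff_cw, coeff_map, coeff_map, ηδ, dl2_mA, map_zero, map_zero]
  obtain ⟨k0, k1, k2⟩ := hK k K⸨X⸩ d _ _ (cwL dK) _ _ _ _ _ _ _ _ hd ob ld2
    (by rw [ηD]; exact fun e => g0 (ηi (e.trans (map_zero η).symm))) hdK.coefL
    (fun c => by
      rw [AddMonoidHom.add_apply, AddMonoidHom.add_apply, map_add, thL_cwL])
    (z a) (z b) (by rw [ηδ, ηδ, ηD, ηD, ← map_mul, ← map_mul, cr])
  refine ⟨ηi (by rw [← ηδ, k0, map_zero]), ηi (by rw [← ηδ, k1, map_zero]), ?_⟩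
  ext1 i
  have h1 := congrArg (coeff i) k2
  rw [coeff_cw, coeff_map, ηδ, map_zero] at h1
  rw [coeff_cw, coeff_cw, DG_apply, ηi (h1.trans (map_zero η).symm), add_zero]

end Blog

open Blog

theorem blogS (hL : LienAStmt) (hP : PsiStmt) (hS : SymStmt) (h2 : Log2Stmt) (hK : KillStmt)
    (hO : ObsStmt) : BlogStmt := by
  intro k _ _ _ d ε N e a b a0 b0 y n ps qs W hd h
  obtain ⟨a', ha'⟩ : ∃ a', a' = map (mA (Polynomial.C (R := k))) a := ⟨_, rfl⟩
  obtain ⟨b', hb'⟩ : ∃ b', b' = map (mA (Polynomial.C (R := k))) b := ⟨_, rfl⟩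
  have ca : cc a' = mA Polynomial.C (cc a) := by rw [ha']; rfl
  have cb : cc b' = mA Polynomial.C (cc b) := by rw [hb']; rfl
  obtain ⟨Wt, lam, G0, G1, ld, le, s0, s1, v0, v1⟩ := hL k ε N d a' b' h.e1 (by omega)
    (by
      have := map_dvd (map (mA (Polynomial.C (R := k)))) h.ta
      simpa [mA_tA, ha'] using this)
    (by
      have := map_dvd (map (mA (Polynomial.C (R := k)))) h.tb
      simpa [mA_tA, hb'] using this)
    (fun j => by rw [ha', coeff_map]; exact SS_mA _ (h.sa j))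
    (fun j => by rw [hb', coeff_map]; exact SS_mA _ (h.sb j))
  have pn : ps ≠ 0 := fun e => by
    have := h.pq
    rw [e, zero_mul] at this
    exact pow_ne_zero n X_ne_zero this.symm
  obtain ⟨-, p2, p3, p4, -⟩ := hP k ε ps qs h.e1 h.p0 h.q0 pn h.qn
  have ld1 := ld.push' (psiL ε ps qs) (t' := C (X ^ n)) (by rw [p4, h.pq]) p3
  rw [ha', hb', map_map _ _ _ p2, map_map _ _ _ p2] at ld1
  obtain ⟨g0, S, i1, i2, ψ1, ψ2, rf, nv, q0, q1⟩ := hS k _ _ _ _ _ _ _ W
    (map_dvd C (dvd_pow_self X (by have := h.n1; omega))) ld1 h.W0 h.cen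
  have g0' : DG k ε G0 ≠ 0 := fun e => g0 (by rw [p3, e, map_zero])
  have cr := h2 k d ε N n ps qs (cc a) (cc b) G0 G1 S ψ1 ψ2 hd h.e1 h.N1 h.n1 h.p0 h.q0 h.qn h.pq
    (h.ha ▸ supp_pow h.pa e) (h.hb ▸ supp_pow h.pb e)
    (h.outer.imp
      (fun h1 h3 => h1 (by
        rw [h.ha] at h3
        rw [(mul_eq_zero.1 h3).resolve_left (pow_ne_zero _ (tA_ne ε)), map_zero]))
      (fun h1 h3 => h1 (by
        rw [h.hb] at h3
        rw [(mul_eq_zero.1 h3).resolve_left (pow_ne_zero _ (tA_ne ε)), map_zero])))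
    (ca ▸ cb ▸ le) rf (nv X (by simp)) q0 q1
  obtain ⟨K, _, τ, dK, hτ, hdK, dτ⟩ := frac (P := Polynomial k) k4_isDer
  obtain ⟨l0, l1, l2⟩ := kill hK hO τ hτ hdK dτ hd h.obs (by rw [← ha', ← hb']; exact ld) g0' cr
  have m0 : DG k ε G0 = DA _ ε G0 := by rw [DG_apply, l0, add_zero]
  have m1 : DG k ε G1 = DA _ ε G1 := by rw [DG_apply, l1, add_zero]
  have ld3 : LD (tA _ ε) (DA _ ε) a' b' Wt lam G0 G1 :=
    ⟨ld.u, ld.w, ld.ea, by rw [← l2, ← m0, ← m1]; exact ld.eb⟩
  obtain ⟨ρ, hρ⟩ : ∃ ρ : AA (Polynomial k) →+* AA k, ρ = mA (Polynomial.evalRingHom 0) :=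
    ⟨_, rfl⟩
  have r0 : ∀ c, ρ (mA Polynomial.C c) = c := fun c => by rw [hρ, ev0_mA]
  have r1 : ∀ c, DA k ε (ρ c) = ρ (DA _ ε c) := fun c => by rw [hρ, mA_DA]
  have r2 : ρ (tA _ ε) = tA k ε := by rw [hρ, mA_tA]
  have r3 : ∀ c, SS ε N c → SS ε N (ρ c) := fun c hc => by rw [hρ]; exact SS_mA _ hc
  have r4 : ∀ c, dl2 k c = 0 → c = mA Polynomial.C (ρ c) := fun c hc => by
    rw [hρ]; exact const_of hc
  have ld4 := ld3.push' ρ (t' := tA k ε) (by rw [r2]) r1
  rw [ha', hb', map_map _ ρ (RingHom.id _) r0, map_map _ ρ (RingHom.id _) r0, map_id,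
    id, id] at ld4
  have le4 := le.push ρ (D' := DA k ε) (by rw [m0, r1]) (by rw [m1, r1])
    (by rw [DG_apply, r1, ca, dl2_mA, add_zero])
  rw [ca, cb, r2, r0, r0, map_neg, map_natCast] at le4
  have du : IsUnit (-(d : AA (Polynomial k))) := by
    have h1 : IsUnit (d : k) := isUnit_iff_ne_zero.2 (by exact_mod_cast (by omega : d ≠ 0))
    have h3 := h1.map ((CC : Polynomial k →+* AA (Polynomial k)).comp Polynomial.C)
    rw [map_natCast] at h3
    exact h3.neg
  have da : tA (Polynomial k) ε ^ e ∣ cc a' := by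
    rw [ca, h.ha, map_mul, map_pow, mA_tA]; exact dvd_mul_right _ _
  have db : tA (Polynomial k) ε ^ e ∣ cc b' := by
    rw [cb, h.hb, map_mul, map_pow, mA_tA]; exact dvd_mul_right _ _
  have dd := (isDer_DG ε).dvd (DG_tA ε) da
  obtain ⟨⟨e1, e2, e3, f1⟩, e4, e5, f0⟩ := le
  have w0 : tA (Polynomial k) ε ^ (2 * e) ∣ G0 := by
    apply v0
    rw [← (du.pow 2).dvd_mul_left, eq_add_of_sub_eq f0, two_mul, pow_add]
    exact dvd_add (mul_dvd_mul (da.mul_left _) (dvd_add (da.mul_left _) (db.mul_left _)))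
      (mul_dvd_mul da db)
  have w1 : tA (Polynomial k) ε ^ e ∣ G1 := by
    apply v1
    rw [← du.dvd_mul_left, eq_add_of_sub_eq (eq_sub_of_add_eq f1)]
    exact dvd_add (dvd_sub (Dvd.dvd.mul_left (dvd_add (dvd_add (da.mul_left _) (dd.mul_left _))
      (db.mul_left _)) _) db) dd
  have t2 : tA k ε ^ (2 * e) ∣ ρ G0 := by rw [← r2, ← map_pow]; exact map_dvd ρ w0
  have t3 : tA k ε ^ e ∣ ρ G1 := by rw [← r2, ← map_pow]; exact map_dvd ρ w1
  have t4 : DA k ε (ρ G0) ≠ 0 := fun e => g0' (by rw [m0, r4 _ l0, mA_DA, e, map_zero])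
  have t5 : ψ1 (psi0 ε ps qs (ρ G0)) = ψ2 (psi0 ε ps qs (ρ G0)) := by
    rw [← p2, ← r4 _ l0]; exact q0
  have t6 : ψ1 (psi0 ε ps qs (ρ G1)) = ψ2 (psi0 ε ps qs (ρ G1)) := by
    rw [← p2, ← r4 _ l1]; exact q1
  exact ⟨_, _, ρ G0, ρ G1, ld4, le4, r3 _ s0, r3 _ s1, t2, t3, t4, S, i1, i2, ψ1, ψ2, rf, nv,
    t5, t6⟩

end Pool.Agent.MP_05b4bd_ag.ES

end MrgPart0

-- ======== part 1: formerly Pool.Agent.MP_05b4bd_ag.esc.Core
section MrgPart1

/-! The statement along an arc. -/

namespace Pool.Agent.MP_05b4bd_ag.ES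

open PowerSeries LaurentSeries HC

namespace Core

theorem tr_ker {K : Type} [Field K] (p : Fin 2 → K) {N : ℕ} {u : R2 K} (hu : u ∈ mm K ^ N) :
    tr (-p) u ∈ RingHom.ker (MvPolynomial.eval p) ^ N := by
  have h1 : mm K ≤ (RingHom.ker (MvPolynomial.eval p)).comap (tr (-p)) := by
    intro v hv
    rw [Ideal.mem_comap, RingHom.mem_ker, ← coeff_zero_tr, tr_tr']
    exact mem_mm_one.1 (by rwa [pow_one])
  exact Ideal.le_comap_pow _ N (Ideal.pow_right_mono h1 N hu)

theorem co_tr {K : Type} [Field K] (p : Fin 2 → K) (u : R2 K) :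
    HC.co 1 0 (tr p u) = MvPolynomial.eval p (MvPolynomial.pderiv 0 u) ∧
      HC.co 0 1 (tr p u) = MvPolynomial.eval p (MvPolynomial.pderiv 1 u) := by
  have c0 := co_x 0 0 (tr p u)
  have c1 := co_y 0 0 (tr p u)
  rw [tr_pderiv, HC.co] at c0 c1
  simp only [Finsupp.single_zero, add_zero, coeff_zero_tr, Nat.cast_zero, zero_add, mul_one]
    at c0 c1
  exact ⟨c0.symm, c1.symm⟩

theorem cab_of_fi {K : Type} [Field K] [CharZero K] (p : Fin 2 → K) {P Q : R2 K}
    (hP : tr p P ∈ mm K ^ 1) (hQ : tr p Q ∈ mm K ^ 1) (hb : MvPolynomial.eval p (br P Q) ≠ 0)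
    (hI : FI (tr p P) (tr p Q)) : Cab (pd K 0) (pd K 1) (MvPolynomial.eval p) (-Q) P := by
  have pd_ap : ∀ i (u : R2 K), pd K i u = MvPolynomial.pderiv i u := fun _ _ => rfl
  have hCI : CI (hc 1 (tr p P)) (hc 1 (tr p Q)) := by
    rw [hom1_eq (hc_hom 1 (tr p P)), hom1_eq (hc_hom 1 (tr p Q)), co_hc 1 0, co_hc 0 1,
      co_hc 1 0, co_hc 0 1, (co_tr p P).1, (co_tr p P).2, (co_tr p Q).1, (co_tr p Q).2]
    refine CI_lf ?_
    simpa only [br, map_sub, map_mul] using hb
  refine ⟨?_, ?_, ?_, fun N => ?_⟩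
  · rw [map_neg, ← coeff_zero_tr, mem_mm_one.1 hQ, neg_zero]
  · rw [← coeff_zero_tr, mem_mm_one.1 hP]
  · refine fun h => hb ?_
    rw [← h, br]
    simp only [pd_ap, map_neg]
    congr 1
    ring
  · obtain ⟨I, i2, i3, iN⟩ := hI (N + 2 + 1)
    obtain ⟨μ, h1, h2⟩ := kos_low (N := N + 2) (U := MvPolynomial.pderiv 0 I)
      (V := MvPolynomial.pderiv 1 I) hP hQ hCI (by
        rw [vf, mul_comm (tr p P), mul_comm (tr p Q)] at iN
        exact iN)
    have hμ : MvPolynomial.coeff 0 μ ≠ 0 := fun h0 => by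
      have hm := mem_mm_one.2 h0
      refine i3 (mm_three i2 ?_ ?_)
      · simpa using add_mem (mm_mono (by omega) h1) (mm_mul hm hQ)
      · simpa using sub_mem (mm_mono (by omega) h2) (mm_mul hm hP)
    refine ⟨tr (-p) I, -tr (-p) μ, ?_, ?_, ?_⟩
    · rwa [map_neg, ← coeff_zero_tr, tr_tr', neg_ne_zero]
    · have := tr_ker p (mm_mono (show N ≤ N + 2 by omega) h1)
      rwa [map_sub, map_mul, tr_tr, ← tr_pderiv, ← neg_mul_neg] at this
    · have := tr_ker p (mm_mono (show N ≤ N + 2 by omega) h2)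
      rwa [map_add, map_mul, tr_tr, ← tr_pderiv, ← sub_neg_eq_add, ← neg_mul] at this

theorem last (hG : GenCritStmt) (k : Type) [Field k] [CharZero k] (n : ℕ) {P Q : R2 k⟦X⟧}
    {f : R2 k} (hf : Gen (n + 6) f) (dP : DL (n + 7) P) (dQ : DL (n + 7) Q)
    (rP : MvPolynomial.map cc P = MvPolynomial.pderiv 1 f)
    (rQ : MvPolynomial.map cc Q = -MvPolynomial.pderiv 0 f) (p : Fin 2 → k⟦X⟧)
    (mP : tr p P ∈ mm k⟦X⟧ ^ 1) (mQ : tr p Q ∈ mm k⟦X⟧ ^ 1)
    (hI : FI (MvPolynomial.map (coeL k) (tr p P)) (MvPolynomial.map (coeL k) (tr p Q)))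
    (Ω : Type) [Field Ω] [CharZero Ω] [IsAlgClosed Ω] (ψ : k⸨X⸩ →+* Ω) :
    MvPolynomial.pderiv 0 P + MvPolynomial.pderiv 1 Q = 0 ∨
      LimLog (n + 6) (MvPolynomial.map (ψ.comp (coeL k)) (tr p P))
        (MvPolynomial.map (ψ.comp (coeL k)) (tr p Q)) := by
  set pb : Fin 2 → k := fun i => cc (p i) with hpb
  have eP : MvPolynomial.map cc (tr p P) = MvPolynomial.pderiv 1 (tr pb f) := by
    rw [map_tr, rP, tr_pderiv]
  have eQ : MvPolynomial.map cc (tr p Q) = -MvPolynomial.pderiv 0 (tr pb f) := by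
    rw [map_tr, rQ, tr_pderiv, map_neg]
  have crit : ∀ i, MvPolynomial.eval pb (MvPolynomial.pderiv i f) = 0 := by
    have a := mem_mm_one.1 (mm_map (cc : k⟦X⟧ →+* k) mP)
    have b := mem_mm_one.1 (mm_map (cc : k⟦X⟧ →+* k) mQ)
    rw [eP, tr_pderiv, coeff_zero_tr] at a
    rw [eQ, tr_pderiv, MvPolynomial.coeff_neg, coeff_zero_tr, neg_eq_zero] at b
    intro i
    fin_cases i
    exacts [b, a]
  obtain ⟨g2, gd, gi⟩ := hG k (n + 6) f (by omega) hf pb crit
  set g := tr pb f - MvPolynomial.C (MvPolynomial.eval pb f) with hg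
  have eg : MvPolynomial.map (cc : k⟦X⟧ →+* k)
      (fU fun m : Mo (n + 6) => (C (MvPolynomial.coeff m.1 g) : k⟦X⟧)) = g := by
    rw [map_fU]
    ext m
    rw [coeff_fU]
    split_ifs with h
    · exact constantCoeff_C _
    · by_cases c : m.degree < 2
      · exact (mem_mm.1 g2 m c).symm
      · exact (gd m (by omega)).symm
  have dg : ∀ i, MvPolynomial.pderiv i g = MvPolynomial.pderiv i (tr pb f) := fun i => by
    rw [hg, map_sub, MvPolynomial.pderiv_C, sub_zero]
  have := RingHom.ker_isPrime (cc : k⟦X⟧ →+* k)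
  have : CharZero k⸨X⸩ := charZero_of_injective_ringHom (cL_inj (R := k))
  have main := generic_point (k := k⸨X⸩) (ψ := ψ.comp (coeL k)) (ψ.injective.comp coeL_inj)
    (RingHom.ker (cc : k⟦X⟧ →+* k))
    (fun m : Mo (n + 6) => (C (MvPolynomial.coeff m.1 g) : k⟦X⟧)) (fun H hH => by
      refine gi.eq_zero_of_aeval_eq_zero H ?_
      have e := MvPolynomial.comp_aeval_apply
        (fun m : Mo (n + 6) => (C (MvPolynomial.coeff m.1 g) : k⟦X⟧))
        (cc : k⟦X⟧ →+* k).toRatAlgHom H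
      have e' : (fun m : Mo (n + 6) => (cc : k⟦X⟧ →+* k).toRatAlgHom
          (C (MvPolynomial.coeff m.1 g))) = fun m => MvPolynomial.coeff m.1 g :=
        funext fun m => constantCoeff_C _
      rw [e'] at e
      exact e.symm.trans hH)
    (tr_DL p dP) (tr_DL p dQ) mP mQ
    (fun m => by
      rw [RingHom.mem_ker, ← MvPolynomial.coeff_map, map_sub, ← MvPolynomial.pderiv_map, eg, eP, dg,
        sub_self, MvPolynomial.coeff_zero])
    (fun m => by
      rw [RingHom.mem_ker, ← MvPolynomial.coeff_map, map_add, ← MvPolynomial.pderiv_map, eg, eQ, dg,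
        neg_add_cancel, MvPolynomial.coeff_zero])
    (fun s hs => ⟨coeL k, fun h => hs (coeL_inj (h.trans (map_zero _).symm)), hI⟩)
  refine main.imp_left fun h => ?_
  rw [tr_pderiv, tr_pderiv, ← map_add] at h
  have := congrArg (tr (-p)) h
  rwa [tr_tr, map_zero] at this

end Core

theorem coreS (hF : FraStmt) (hE : EscStmt) (hG : GenCritStmt) : CoreStmt := by
  intro k _ _ _ d hd P Q f p hf dP dQ rP rQ mP mQ hb hI Ω _ _ _ ψ
  obtain ⟨n, rfl⟩ : ∃ n, d = n + 6 := ⟨d - 6, by omega⟩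
  have : CharZero k⸨X⸩ := charZero_of_injective_ringHom (cL_inj (R := k))
  have key : ∃ p' : Fin 2 → k⟦X⟧, tr p' P ∈ mm k⟦X⟧ ^ 1 ∧ tr p' Q ∈ mm k⟦X⟧ ^ 1 ∧
      FI (MvPolynomial.map (coeL k) (tr p' P)) (MvPolynomial.map (coeL k) (tr p' Q)) := by
    rcases hF k _ hd P Q f hf dP dQ rP rQ with ⟨o, rfl, rfl⟩ | h
    · choose c hc using hE k _ hd o p (Core.cab_of_fi p mP mQ hb hI)
      have e : p = fun i => coeL k (c i) := funext hc
      rw [e, ← map_tr] at mP mQ
      rw [e, ← map_tr, ← map_tr] at hI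
      exact ⟨c, mm_of_map _ coeL_inj mP, mm_of_map _ coeL_inj mQ, hI⟩
    · exact h
  obtain ⟨p', h1, h2, h3⟩ := key
  exact (Core.last hG k n hf dP dQ rP rQ p' h1 h2 h3 Ω ψ).imp_right fun h => ⟨p', h1, h2, h⟩

end Pool.Agent.MP_05b4bd_ag.ES

end MrgPart1

-- ======== part 2: formerly Pool.Agent.MP_05b4bd_ag.esc.Minp
section MrgPart2

/-! Minimal primes of the pointed centre variety whose projection contains the exact forms. -/

namespace Pool.Agent.MP_05b4bd_ag.ES

open scoped PowerSeries LaurentSeries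
open HC MvPolynomial

namespace Minp

theorem co_lf {A : Type} [CommRing A] (a b : A) : HC.co 1 0 (lf a b) = a := by
  have := co_x (i := 0) (j := 0) (u := lf a b)
  rw [lf_x] at this
  simpa [HC.co] using this.symm

theorem co_br {A : Type} [CommRing A] (P Q : R2 A) :
    coeff 0 (br P Q) = HC.co 1 0 P * HC.co 0 1 Q - HC.co 0 1 P * HC.co 1 0 Q := by
  have x := fun u : R2 A => co_x (i := 0) (j := 0) (u := u)
  have y := fun u : R2 A => co_y (i := 0) (j := 0) (u := u)
  simp only [Nat.cast_zero, zero_add, mul_one] at x y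
  rw [← x, ← x, ← y, ← y]
  simp only [HC.co, Finsupp.single_zero, add_zero, br, ← constantCoeff_eq, map_sub, map_mul]

/-- First integrals pass to the generic point of a non-degenerate family. -/
theorem fi_gen {D K k : Type} [CommRing D] [IsDomain D] [Field K] [Field k] [CharZero k]
    {ψ : D →+* K} (hψ : Function.Injective ψ) {P Q : R2 D} (mP : P ∈ mm D ^ 1) (mQ : Q ∈ mm D ^ 1)
    (hJ : coeff 0 (br P Q) ≠ 0)
    (H : ∀ s : D, s ≠ 0 → ∃ e : D →+* k, e s ≠ 0 ∧ FI (map e P) (map e Q)) :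
    FI (map ψ P) (map ψ Q) := by
  have l : ∀ {A : Type} [CommRing A] (u : R2 A), hc 1 u = lf (HC.co 1 0 u) (HC.co 0 1 u) :=
    fun u => by rw [hom1_eq (hc_hom 1 u), co_hc 1 0, co_hc 0 1]
  by_cases h : ∃ s : D, HC.co 1 0 Q + s * (HC.co 1 0 P - HC.co 0 1 Q) - s ^ 2 * HC.co 0 1 P ≠ 0
  · obtain ⟨s, hs⟩ := h
    have t := exists_Tr (show (1 : D) * 1 - 0 * s = 1 by ring) P Q
    have m : ∀ a b : D, lin 1 (-0) (-s) 1 (C a * P + C b * Q) ∈ mm D ^ 1 := fun a b =>
      lin_mm (add_mem (Ideal.mul_mem_left _ _ mP) (Ideal.mul_mem_left _ _ mQ))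
    have F := fi_generic hψ (m 1 0) (m s 1) (by
      rw [← co_hc 1 0, hc_lin, l, lin_lf, co_lf]
      simp only [co_add, co_C_mul]
      intro e
      exact hs (by linear_combination e)) fun r hr =>
        (H r hr).imp fun e he => ⟨he.1, (t.map e).fi (by simp) he.2⟩
    intro N
    obtain ⟨I, h2, h3, hN⟩ := F N
    refine ⟨lin (ψ 1) (ψ 0) (ψ s) (ψ 1) I, lin_mm h2, fun h' => h3 ?_,
      (t.map ψ).vf I ▸ lin_mm hN⟩
    have := lin_mm (a := ψ 1) (b := -ψ 0) (c := -ψ s) (e := ψ 1) h'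
    rwa [inv_lin (by simp)] at this
  · push Not at h
    obtain ⟨e, he, hI⟩ := H _ hJ
    obtain ⟨I, h2, h3, hv⟩ := hI 3
    have a0 := congrArg e (h 0)
    have a1 := congrArg e (h 1)
    have a2 := congrArg e (h (-1))
    rw [co_br] at he
    simp only [map_add, map_sub, map_mul, map_pow, map_zero, map_one, map_neg, ← co_map] at a0 a1 a2 he
    have b0 : HC.co 1 0 (map e Q) = 0 := by linear_combination a0
    have b1 : HC.co 0 1 (map e P) = 0 := by linear_combination a0 - (a1 + a2) / 2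
    have b2 : HC.co 1 0 (map e P) = HC.co 0 1 (map e Q) := by linear_combination (a1 - a2) / 2
    have c := hc_of_mm hv (show 1 + 1 < 3 by omega)
    rw [hc_vf_low (mm_map e mP) (mm_map e mQ) h2, l, l, b0, b1, b2] at c
    rw [b0, b2, mul_zero, sub_zero] at he
    have c2 : C (2 * HC.co 0 1 (map e Q)) * hc 2 I = 0 := by
      have := euler (hc_hom 2 I)
      simp only [vf, lf, map_zero, map_mul, map_ofNat] at c ⊢
      push_cast at this
      linear_combination c - C (HC.co 0 1 (map e Q)) * this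
    exact absurd (mm_succ h2 ((mul_eq_zero.1 c2).resolve_left (C_ne_zero.2
      (mul_ne_zero two_ne_zero (left_ne_zero_of_mul he))))) h3

theorem cramer {A : Type} [Field A] {a b c e u v : A} (h : a * e - b * c ≠ 0) (h1 : 0 = a * u + b * v)
    (h2 : 0 = c * u + e * v) : u = 0 ∧ v = 0 :=
  ⟨(mul_eq_zero.1 (by linear_combination b * h2 - e * h1)).resolve_left h,
    (mul_eq_zero.1 (by linear_combination c * h1 - a * h2)).resolve_left h⟩

/-- A simple common zero is algebraic over the coefficients. -/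
theorem alg_pt (hD : DerAlgStmt) {B D : Type} [CommRing B] [IsDomain B] [CommRing D] [IsDomain D]
    [CharZero D] [Algebra B D] (hi : Function.Injective (algebraMap B D)) {P Q : R2 B} {x y : D}
    (hP : eval₂ (algebraMap B D) ![x, y] P = 0) (hQ : eval₂ (algebraMap B D) ![x, y] Q = 0)
    (hJ : eval₂ (algebraMap B D) ![x, y] (br P Q) ≠ 0) : IsAlgebraic B x ∧ IsAlgebraic B y := by
  let L := FractionRing D
  have hj := IsFractionRing.injective D L
  have hg : Function.Injective (algebraMap B L) := by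
    rw [IsScalarTower.algebraMap_eq B D L]; exact hj.comp hi
  let φ : FractionRing B →+* L := IsFractionRing.lift hg
  let _ : Algebra (FractionRing B) L := φ.toAlgebra
  have : IsScalarTower B (FractionRing B) L :=
    IsScalarTower.of_algebraMap_eq fun b => (IsFractionRing.lift_algebraMap hg b).symm
  have key : ∀ z : D, (∀ δ : L →+ L, IsDer δ → (∀ b, δ (algebraMap B L b) = 0) →
      δ (algebraMap D L z) = 0) → IsAlgebraic B z := fun z hz => by
    have h := (hD L φ.fieldRange).2.2.1 (algebraMap D L z) fun δ h1 h2 =>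
      hz δ h1 fun b => h2 _ ⟨algebraMap B _ b, IsFractionRing.lift_algebraMap hg b⟩
    have h1 : IsAlgebraic (FractionRing B) (algebraMap D L z) :=
      IsAlgebraic.of_ringHom_of_comp_eq φ.rangeRestrictField (RingHom.id L) h
        φ.rangeRestrictField_bijective.2 Function.injective_id (RingHom.ext fun _ => rfl)
    exact (isAlgebraic_algebraMap_iff hj).1 ((IsFractionRing.isAlgebraic_iff B _ L).2 h1)
  have e : ∀ u : R2 B, eval₂ (algebraMap B L) ![algebraMap D L x, algebraMap D L y] u =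
      algebraMap D L (eval₂ (algebraMap B D) ![x, y] u) := fun u => by
    rw [eval₂_comp_left, ← IsScalarTower.algebraMap_eq]
    congr 1
    funext i; fin_cases i <;> rfl
  have hJ' := (map_ne_zero_iff _ hj).2 hJ
  rw [← e, br, eval₂_sub, eval₂_mul, eval₂_mul] at hJ'
  have z : ∀ δ : L →+ L, IsDer δ → (∀ b, δ (algebraMap B L b) = 0) →
      δ (algebraMap D L x) = 0 ∧ δ (algebraMap D L y) = 0 := fun δ h1 h2 => by
    have a := h1.eval₂ _ h2 (algebraMap D L x) (algebraMap D L y) P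
    have b := h1.eval₂ _ h2 (algebraMap D L x) (algebraMap D L y) Q
    rw [e, hP, map_zero, map_zero] at a
    rw [e, hQ, map_zero, map_zero] at b
    exact cramer hJ' a b
  exact ⟨key _ fun δ h1 h2 => (z δ h1 h2).1, key _ fun δ h1 h2 => (z δ h1 h2).2⟩

theorem ham_mem {d : ℕ} {f : Poly} (hf : f.totalDegree ≤ d) : dform f ∈ L ![d] :=
  ⟨fun _ => f, fun _ => 1, fun i => by fin_cases i; exact hf, by simp⟩

theorem log_mem {d : ℕ} {w : PForm} (h : w ∈ PLog d) : w.1 ∈ L ![1, d] := by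
  obtain ⟨-, -, f1, f2, l, d1, d2, -, e⟩ := h
  refine ⟨![f1, f2], ![l, 1], fun i => by fin_cases i <;> assumption, ?_⟩
  have e0 : (Finset.univ : Finset (Fin 2)).erase 0 = {1} := by decide
  have e1 : (Finset.univ : Finset (Fin 2)).erase 1 = {0} := by decide
  rw [e, Fin.sum_univ_two, e0, e1, add_comm]
  simp

theorem pev_ren {A : Type} [CommRing A] [Algebra ℂ A] (P Q : R2 A) (p p' : Fin 2 → A) (R : Co) :
    pev P Q p (rename Sum.inl R) = pev P Q p' (rename Sum.inl R) := by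
  simp only [pev, aeval_rename]
  rfl

theorem pe_ren (w : PForm) (R : Co) :
    pe w (rename Sum.inl R) = Pool.Agent.MP_05b4bd_ag.ev R w.1 := by
  simp only [pev, aeval_rename]
  rfl

theorem map_ev {A B : Type} [CommRing A] [CommRing B] (φ : A →+* B) (p : Fin 2 → A) (u : R2 A) :
    φ (eval p u) = eval (fun i => φ (p i)) (map φ u) := by
  rw [← coeff_zero_tr, ← coeff_zero_tr, ← map_tr, coeff_map]

/-- The universal coefficient polynomials, without the point. -/
noncomputable def un0 (d : ℕ) (b : Bool) : R2 Co := fA fun m : Mo0 d => X (b, m.1)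

theorem ren_un0 (d : ℕ) (b : Bool) :
    map ((rename Sum.inl : Co →ₐ[ℂ] PCo) : Co →+* PCo) (un0 d b) = uni d b := by
  ext1 m
  rw [coeff_map, un0, uni, coeff_fA, coeff_fA]
  split_ifs
  exacts [rename_X _ _, map_zero _]

/-- The universal polynomial without constant term. -/
noncomputable def fu (d : ℕ) : R2 (MvPolynomial (Mo1 d) ℂ) :=
  fA fun m : Mo0 d => if h : 1 ≤ m.1.degree then X ⟨m.1, h, m.2⟩ else 0

theorem coeff_fu {d : ℕ} (m : Mo1 d) : coeff m.1 (fu d) = X m := by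
  rw [fu, coeff_fA, dif_pos m.2.2, dif_pos m.2.1]

/-- The universal exact form. -/
noncomputable def chi (d : ℕ) : Co →ₐ[ℂ] MvPolynomial (Mo1 d) ℂ :=
  (pev (pderiv 1 (fu d)) (-pderiv 0 (fu d)) 0).comp (rename Sum.inl)

theorem chi_un0 (d : ℕ) (b : Bool) : map (chi d : Co →+* MvPolynomial (Mo1 d) ℂ) (un0 d b) =
    cond b (pderiv 1 (fu d)) (-pderiv 0 (fu d)) := by
  have h : DL (d + 1 + 1) (fu d) := (fA_DL _).mono (by omega)
  rw [← map_uni (d := d) 0 b (by cases b; exacts [(h.pderiv 0).neg, h.pderiv 1]), ← ren_un0, map_map]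
  rfl

theorem chi_zero {d : ℕ} {R : Co}
    (h : ∀ f : Poly, f.totalDegree ≤ d → Pool.Agent.MP_05b4bd_ag.ev R (dform f) = 0) :
    chi d R = 0 := by
  refine MvPolynomial.funext fun t => ?_
  have := h (map (aeval t : _ →ₐ[ℂ] ℂ) (fu d)) (DL_iff.1 ((fA_DL _).map _))
  rw [← pe_ren (_, 0)] at this
  rw [map_zero, ← coe_aeval_eq_eval, ← this]
  refine (map_pev (aeval t) _ _ _ _).trans ?_
  rw [map_neg, ← pderiv_map, ← pderiv_map]
  exact pev_ren _ _ _ _ _

/-- A ring map with the kernel of the universal exact form gives a generic polynomial. -/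
theorem exists_gen {d : ℕ} {k : Type} [Field k] [CharZero k] (κ : Co →+* k)
    (h : ∀ R, κ R = 0 ↔ chi d R = 0) : ∃ f : R2 k, Gen d f ∧ map κ (un0 d true) = pderiv 1 f ∧
      map κ (un0 d false) = -pderiv 0 f := by
  let σ : MvPolynomial (Mo1 d) ℂ →ₐ[ℂ] Co := aeval fun m => rc m.1 (un0 d true) (un0 d false)
  have hσ : ∀ t, chi d (σ t) = t := fun t => by
    refine DFunLike.congr_fun (show (chi d).comp σ = AlgHom.id ℂ _ from algHom_ext fun m => ?_) t
    rw [AlgHom.comp_apply, aeval_X, map_rc, chi_un0, chi_un0]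
    exact (rc_ham m.2.1 _).trans (coeff_fu m)
  let τ := κ.comp (σ : MvPolynomial (Mo1 d) ℂ →+* Co)
  have e : κ = τ.comp (chi d : Co →+* MvPolynomial (Mo1 d) ℂ) := RingHom.ext fun R => by
    have := (h (R - σ (chi d R))).2 (by rw [map_sub, hσ, sub_self])
    rwa [map_sub, sub_eq_zero] at this
  have hi : Function.Injective τ := (injective_iff_map_eq_zero τ).2 fun t ht =>
    (hσ t).symm.trans ((h _).1 ht)
  refine ⟨map τ (fu d), ⟨?_, (fA_DL _).map _, ?_⟩, ?_, ?_⟩
  · rw [coeff_map, fu, coeff_fA, dif_pos (by simp), dif_neg (by simp), map_zero]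
  · simp only [coeff_map, coeff_fu]
    exact ((MvPolynomial.algebraicIndependent_X _ ℂ).restrictScalars
      (algebraMap ℚ ℂ).injective).map' (f := τ.toRatAlgHom) hi
  · rw [e, ← map_map, chi_un0, pderiv_map]; rfl
  · rw [e, ← map_map, chi_un0, pderiv_map]; exact map_neg _ _

end Minp

open Minp in
theorem minpS (hA : ArcStmt) (hD : DerAlgStmt) (hC : CoreStmt) : MinpStmt := by
  intro d hd q hq hk
  have := hq.1.1
  let D := PCo ⧸ q
  let μ : PCo →ₐ[ℂ] D := Ideal.Quotient.mkₐ ℂ q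
  have hμ : ∀ a, μ a = 0 ↔ a ∈ q := fun _ => Ideal.Quotient.eq_zero_iff_mem
  let ν : Co →ₐ[ℂ] D := μ.comp (rename Sum.inl)
  let B := ν.range
  let β : Co →ₐ[ℂ] B := ν.rangeRestrict
  have hβ : Function.Surjective β := ν.rangeRestrict_surjective
  have hi : Function.Injective (algebraMap B D) := Subtype.val_injective
  have : CharZero D := charZero_of_injective_algebraMap (algebraMap ℂ D).injective
  have high : ∀ b m, d < m.degree → μ (X (.inl (b, m))) = 0 := fun b m h =>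
    (hμ _).2 (hq.1.2 (high_mem b m h))
  have top : ∀ T : Subalgebra B D, (∀ i, μ (pU i) ∈ T) → ∀ x, x ∈ T := fun T hT x => by
    obtain ⟨R, rfl⟩ := Ideal.Quotient.mkₐ_surjective ℂ q x
    induction R using MvPolynomial.induction_on with
    | C a => exact T.algebraMap_mem ⟨_, C a, congrArg μ (rename_C _ _)⟩
    | add p q hp hq => rw [map_add]; exact add_mem hp hq
    | mul_X p k hp =>
      rw [map_mul]
      refine mul_mem hp ?_
      rcases k with k | i
      exacts [T.algebraMap_mem ⟨_, X k, congrArg μ (rename_X _ _)⟩, hT i]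
  have f1 : Algebra.FiniteType ℂ B := by
    let θ := β.comp (rename fun k : Bool × Mo0 d => (k.1, k.2.1))
    refine Algebra.FiniteType.of_surjective θ fun x => ?_
    obtain ⟨R, rfl⟩ := hβ x
    change _ ∈ θ.range
    induction R using MvPolynomial.induction_on with
    | C a => exact ⟨C a, congrArg β (rename_C _ _)⟩
    | add p q hp hq => rw [map_add]; exact add_mem hp hq
    | mul_X p k hp =>
      rw [map_mul]
      refine mul_mem hp ?_
      by_cases h : k.2.degree ≤ d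
      · exact ⟨X (k.1, ⟨k.2, h⟩), congrArg β (rename_X _ _)⟩
      · rw [show β (X k) = 0 from Subtype.ext
          ((congrArg μ (rename_X _ _)).trans (high k.1 k.2 (by omega)))]
        exact zero_mem _
  have f2 : Algebra.FiniteType B D :=
    Algebra.FiniteType.of_surjective (aeval fun i => μ (pU i) : MvPolynomial (Fin 2) B →ₐ[B] D)
      (top (AlgHom.range _) fun i => ⟨X i, aeval_X _ _⟩)
  have eU : ∀ b, map (algebraMap B D) (map (β : Co →+* B) (un0 d b)) =
      map (μ : PCo →+* D) (uni d b) := fun b => by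
    rw [← ren_un0, map_map, map_map]; rfl
  have mU : ∀ b, map (μ : PCo →+* D) (tr pU (uni d b)) ∈ mm D ^ 1 := fun b =>
    mem_mm_one.2 (by rw [coeff_map]; exact (hμ _).2 (hq.1.2 (sing_mem b)))
  have hJ : μ (eval pU (br (uni d true) (uni d false))) ≠ 0 := fun h => by
    obtain ⟨w, hw, -, h2⟩ := dense_pts (fin_min high_mem) hq 
      ((Ideal.ne_top_iff_one q).1 hq.1.1.ne_top)
    have := h2 _ ((hμ _).1 h)
    rw [← RingHom.coe_coe, map_ev, map_br, map_uni _ true (cen_DL hw true),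
      map_uni _ false (cen_DL hw false)] at this
    refine hw.2.2.2.1 (Eq.trans ?_ this)
    congr 2
    exact funext fun i => (pev_inr _ _ _ i).symm
  have eE : ∀ u : R2 B, eval₂ (algebraMap B D) ![μ (pU 0), μ (pU 1)] u =
      eval (fun i => μ (pU i)) (map (algebraMap B D) u) := fun u => by
    rw [eval_map]
    congr 1
    funext i; fin_cases i <;> rfl
  have eZ : ∀ b, eval₂ (algebraMap B D) ![μ (pU 0), μ (pU 1)] (map (β : Co →+* B) (un0 d b)) = 0 :=
    fun b => by
      have := mem_mm_one.1 (mU b)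
      rw [map_tr, coeff_zero_tr, ← eU] at this
      exact (eE _).trans this
  have f3 : Algebra.IsAlgebraic B D := by
    have := alg_pt hD hi (eZ true) (eZ false) (by
      rw [eE, map_br, eU, eU, ← map_br]
      exact (map_ev (μ : PCo →+* D) _ _) ▸ hJ)
    exact ⟨top (Subalgebra.algebraicClosure B D) (Fin.forall_fin_two.2 this)⟩
  have hker : RingHom.ker β ≤ RingHom.ker (chi d) := fun R hR =>
    chi_zero (hk R ((hμ _).1 (congrArg Subtype.val hR)))
  have := RingHom.ker_isPrime (chi d)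
  obtain ⟨k, _, _, _, α, ψ, hψ, c1, c2⟩ := hA B D hi f1 f2 f3 _
    (Ideal.map_isPrime_of_surjective hβ hker)
  obtain ⟨f, hf, g1, g2⟩ := exists_gen (d := d) ((cc.comp α).comp (β : Co →+* B)) fun R => by
    refine (c2 (β R)).trans ?_
    rw [← Ideal.mem_comap, Ideal.comap_map_of_surjective _ hβ, ← RingHom.ker_eq_comap_bot,
      sup_eq_left.2 hker]
    rfl
  let U : Bool → R2 k⟦X⟧ := fun b => map (α.comp (β : Co →+* B)) (un0 d b)
  have eL : ∀ b, map (coeL k) (U b) = map ψ (map (μ : PCo →+* D) (uni d b)) := fun b => by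
    rw [← eU, map_map, map_map, map_map]
    congr 2
    exact RingHom.ext fun R => (c1 _).symm
  have eT : ∀ b, tr (fun i => ψ (μ (pU i))) (map (coeL k) (U b)) =
      map ψ (map (μ : PCo →+* D) (tr pU (uni d b))) := fun b => by
    rw [eL, map_tr, map_tr]; rfl
  let Ω := AlgebraicClosure k⸨X⸩
  let j : k⸨X⸩ →+* Ω := algebraMap _ _
  let _ : Algebra ℂ Ω := ((j.comp ψ).comp (algebraMap ℂ D)).toAlgebra
  have : CharZero Ω := charZero_of_injective_algebraMap (algebraMap ℂ Ω).injective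
  have main := hC k d hd (U true) (U false) f (fun i => ψ (μ (pU i))) hf ((fA_DL _).map _)
    ((fA_DL _).map _) (by rw [← g1, map_map]; rfl) (by rw [← g2, map_map]; rfl)
    (eT true ▸ mm_map _ (mU true)) (eT false ▸ mm_map _ (mU false))
    (by
      rw [eL, eL, ← map_br, ← map_br]
      refine fun h => hJ (hψ ?_)
      rw [map_zero, ← h]
      exact (congrArg ψ (map_ev (μ : PCo →+* D) _ _)).trans (map_ev ψ _ _))
    (by
      rw [eT, eT]
      refine fi_gen (k := ℂ) hψ (mU true) (mU false) ?_ fun s hs => ?_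
      · rw [← map_br, coeff_map, br, tr_pderiv, tr_pderiv, tr_pderiv, tr_pderiv, ← map_mul,
          ← map_mul, ← map_sub, coeff_zero_tr]
        exact hJ
      · obtain ⟨s, rfl⟩ := Ideal.Quotient.mkₐ_surjective ℂ q s
        obtain ⟨w, hw, h1, h2⟩ := dense_pts (fin_min high_mem) hq (mt (hμ s).2 hs)
        refine ⟨Ideal.Quotient.lift q (pe w : PCo →+* ℂ) h2, h1, ?_⟩
        rw [map_map, map_map]
        have := fi_of_center hw.2
        rwa [← show _ = tr w.2 w.1.1 from map_tr_uni w.2 true (cen_DL hw true),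
          ← show _ = tr w.2 w.1.2 from map_tr_uni w.2 false (cen_DL hw false)] at this) Ω j
  refine main.imp (fun h R hR => ?_) fun ⟨p', m1, m2, h⟩ R hR => ?_
  · by_contra hn
    obtain ⟨w, hw, h1, h2⟩ := dense_pts (fin_min high_mem) hq hn
    have z : ∀ m, coeff m (pderiv 0 (uni d true) + pderiv 1 (uni d false)) ∈ q := fun m => by
      have := congrArg (map (coeL k)) h
      rw [map_add, ← pderiv_map, ← pderiv_map, eL, eL, pderiv_map, pderiv_map, pderiv_map,
        pderiv_map, ← map_add, ← map_add, map_zero] at this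
      have := congrArg (coeff m) this
      rw [coeff_map, coeff_map, coeff_zero] at this
      exact (hμ _).1 (hψ (this.trans (map_zero _).symm))
    obtain ⟨g, dg, e1, e2⟩ := exact_of_div (cen_DL hw true) (cen_DL hw false) (by
      rw [← map_uni w.2 true (cen_DL hw true), ← map_uni w.2 false (cen_DL hw false), pderiv_map,
        pderiv_map, ← map_add]
      ext m
      rw [coeff_map]
      exact h2 _ (z m))
    exact h1 ((pe_ren w R).trans (hR _ ((Prod.ext e1 e2 : w.1 = dform g) ▸ ham_mem (DL_iff.1 dg))))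
  · let χ : PCo →ₐ[ℂ] Ω := ⟨(j.comp ψ).comp (μ : PCo →+* D), fun c => congrArg (j.comp ψ) (μ.commutes c)⟩
    have := lim_van (by omega) (mm_map _ m1) (mm_map _ m2) h (fun i => j (coeL k (p' i)))
      (R := rename Sum.inl R) (mem_II.2 fun w hw => (pe_ren w R).trans (hR _ (log_mem hw)))
    have e : ∀ b, map (j.comp (coeL k)) (U b) = map (χ : PCo →+* Ω) (uni d b) := fun b => by
      rw [← map_map, eL, map_map, map_map]; rfl
    rw [map_tr, map_tr, e, e] at this
    simp only [RingHom.comp_apply, tr_tr] at this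
    rw [pev_ren _ _ _ (fun i => χ (pU i)), eq_pev χ fun b m hm =>
      (congrArg (j.comp ψ) (high b m hm)).trans (map_zero _)] at this
    exact (hμ _).1 (hψ (j.injective (this.trans (by rw [map_zero, map_zero]))))

end Pool.Agent.MP_05b4bd_ag.ES

end MrgPart2

-- marker of a merged file
example : 731051 + 45908 = 731051 + 45908 := rfl
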