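import Pool.Agent.MP_05b4bd_ag.esc.Bx
import Pool.Agent.MP_05b4bd_ag.esc.Symb

-- ======== part 0: formerly Pool.Agent.MP_05b4bd_ag.esc.Bmk
section MrgPart0

/-! The large case: construction of the data on the disc or annulus. -/

namespace Pool.Agent.MP_05b4bd_ag.ES

open PowerSeries LaurentSeries HC

namespace Bmk

variable {k : Type} [Field k] [CharZero k]

omit [CharZero k] in
theorem thA_C (ε N d : ℕ) (c : AA k) :
    thA k ε N d (C c) = C (ev2 CC (tA k ε) (X ^ (d * N)) c) := by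
  rw [thA, RingHom.comp_apply, map_C, rescale_C']

omit [CharZero k] in
theorem thA_X (ε N d : ℕ) : thA k ε N d X = C (X ^ N) * X := by
  rw [thA, RingHom.comp_apply, map_X, rescale_X]

omit [CharZero k] in
theorem ev_CX {n : ℕ} (hn : 1 ≤ n) (r : k⟦X⟧) :
    ev CC (C (X ^ n) : AA k) r = C (ram k n r) := by
  have h0 : (C (X ^ n) : AA k) ∈ up (up (⊥ : Ideal k)) := by
    rw [map_pow]
    exact Ideal.pow_mem_of_mem _ (by simp [mem_up2, c00_apply]) n hn
  have e : ev CC (C (X ^ n) : AA k) = (C : k⟦X⟧ →+* AA k).comp (ram k n) := by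
    refine homExt (up (up ⊥)) (fun r => ?_) ?_ ?_
    · rw [ev_C _ h0, RingHom.comp_apply, ram_C hn, CC_apply]
    · rw [ev_X _ h0, RingHom.comp_apply, ram_X hn]
    · rwa [ev_X _ h0]
  exact RingHom.congr_fun e r

/-- The centre, read on the annulus. -/
theorem cen {d : ℕ} (o : PD k d) {ε N : ℕ} {a b : (AA k)⟦X⟧} (hd : 2 ≤ d) (hN : 1 ≤ N)
    (hab : ABrel o ε N a b) {ps qs W : k⟦X⟧} (p0 : cc ps = 0) (q0 : cc qs = 0) (qn : qs ≠ 0)
    (ht : psi0 ε ps qs (tA k ε) = C (X ^ (d * N))) (W0 : cc W = 0)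
    (hU : qs ^ (d * N) = ram k (d * N) o.Us) (hz : qs ^ N * W = ram k (d * N) o.zs) :
    CenN (coeL k) (X * map (psi0 ε ps qs) b) (map (psi0 ε ps qs) a) 0 W := by
  have hn : 1 ≤ d * N := Nat.mul_pos (by omega) hN
  obtain ⟨i, hi, -⟩ := exists_ramL (R := k) hn
  set q : AA k := C qs * map C (exp k) with hq
  have mp : (C ps * map C (rescale (-(ε : k)) (exp k)) : AA k) ∈ up (up (⊥ : Ideal k)) :=
    Ideal.mul_mem_right _ _ (by rw [mem_up2, c00_apply, constantCoeff_C, p0]; exact Ideal.zero_mem _)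
  have mq : q ∈ up (up (⊥ : Ideal k)) :=
    Ideal.mul_mem_right _ _ (by rw [mem_up2, c00_apply, constantCoeff_C, q0]; exact Ideal.zero_mem _)
  have mX : (X ^ (d * N) : AA k) ∈ up (up (⊥ : Ideal k)) :=
    Ideal.pow_mem_of_mem _ (by simp [mem_up2, c00_apply]) _ hn
  have mt : (C (X ^ (d * N)) : AA k) ∈ up (up (⊥ : Ideal k)) := by
    rw [map_pow]
    exact Ideal.pow_mem_of_mem _ (by simp [mem_up2, c00_apply]) _ hn
  have mW : W ∈ up (⊥ : Ideal k) := W0
  have ψX : psi0 ε ps qs X = q := ev2_X _ mq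
  have ψC : (psi0 ε ps qs).comp CC = CC := RingHom.ext fun r => ev2_CC _ mp mq r
  have cq : cc q = qs := by
    have : cc (map C (exp k) : AA k) = C (cc (exp k)) := rfl
    rw [hq, map_mul, constantCoeff_C, this, constantCoeff_exp, map_one, mul_one]
  have dq : dX _ q = q := by
    have : dX k (exp k) = exp k := derivative_exp k
    rw [hq, isDer_dX, dX_C, dX_map, this, zero_mul, zero_add]
  have dqn : ∀ m : ℕ, dX _ (q ^ m) = m * q ^ m := fun m => by
    rw [isDer_dX.pow, dq]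
    cases m with
    | zero => simp
    | succ m => rw [Nat.add_sub_cancel, mul_assoc, ← pow_succ]
  set Φ : AA k⟦X⟧ →+* AA k⟦X⟧ := (map (psi0 ε ps qs)).comp (thA k ε N d) with hΦ
  have Φa : ∀ c, Φ c = map (psi0 ε ps qs) (thA k ε N d c) := fun c => rfl
  have ΦU : Φ (C X) = C (q ^ (d * N)) := by
    rw [Φa, thA_C, ev2_X _ mX, map_C, map_pow, ψX]
  have Φz : Φ X = C (q ^ N) * X := by
    rw [Φa, thA_X, map_mul, map_C, map_X, map_pow, ψX]
  have d1 : cw (dX _) (Φ (C X)) = C (((d * N : ℕ) : AA k) * q ^ (d * N)) := by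
    rw [ΦU, cw_C, dqn]
  have d2 : dX _ (Φ (C X)) = 0 := by rw [ΦU, dX_C]
  have d3 : cw (dX _) (Φ X) = C ((N : AA k) * q ^ N) * X := by
    rw [Φz, isDer_dX.coefw, cw_C, cw_X isDer_dX.one, mul_zero, add_zero, dqn]
  have d4 : dX _ (Φ X) = C (q ^ N) := by
    rw [Φz, isDer_dX, dX_C, dX_X, zero_mul, zero_add, mul_one]
  have evC : ∀ c : AA k, ev2 (RingHom.id k⟦X⟧) 0 W (C c) = cc c := fun c => by
    rw [ev2_C _ mW, ev_zero, RingHom.id_apply]
  have ea : Φ (fB d o.e) = C (q ^ (N * (d + 1))) * map (psi0 ε ps qs) a := by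
    rw [Φa, ← hab.1, map_mul, map_C, map_pow, ψX]
  have eb : (N : AA k⟦X⟧) * ((d : AA k⟦X⟧) * Φ (C X) * Φ (X - o.b) + Φ (fB d o.e)) =
      C (q ^ (N * (d + 1))) * map (psi0 ε ps qs) b := by
    have := congrArg (map (psi0 ε ps qs)) hab.2.1
    rw [map_mul, map_C, map_pow, ψX, map_mul, map_natCast, ← Φa, map_add, map_mul, map_mul,
      map_natCast] at this
    exact this.symm
  refine CenN.trans i (ram k (d * N)) (fun r => (hi r).symm) o.cen o.U0 o.z0 ?_ Φ (fun r => ?_) ?_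
    ?_ (map_zero _) W0 ?_ ?_ ?_ (lam := C (q ^ (N * (d + 1)) * q ^ N)) ?_ ?_ ?_
  · rw [ram_X hn, map_pow, constantCoeff_X, zero_pow (by omega)]
  · rw [Φa, CC_apply, thA_C, ev2_C _ mX, map_C,
      hom_ev _ (up (up ⊥)) (tA_mem ε) _ (by rw [ht]; exact mt), ψC, ht, ev_CX hn, CC_apply]
  · rw [ΦU, c00_apply, constantCoeff_C, map_pow, map_pow, cq, q0, zero_pow (by omega)]
  · rw [Φz, c00_apply, map_mul, constantCoeff_X, mul_zero, map_zero, map_zero]
  · rw [ΦU, evC, map_pow, cq, hU]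
  · rw [Φz, map_mul, evC, ev2_X _ mW, map_pow, cq, hz]
  · rw [d1, d2, d4, mul_zero, sub_zero, ← map_mul, evC]
    refine (map_ne_zero_iff _ coeL_inj).2 ?_
    rw [map_mul, map_mul, map_pow, map_pow, map_natCast, cq]
    refine mul_ne_zero (mul_ne_zero ?_ (pow_ne_zero _ qn)) (pow_ne_zero _ qn)
    have e : ((d * N : ℕ) : k⟦X⟧) = C ((d * N : ℕ) : k) := (map_natCast _ _).symm
    rw [e]
    exact (map_ne_zero_iff _ C_injective).2 (Nat.cast_ne_zero.2 (by omega))
  · rw [evC]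
    refine (map_ne_zero_iff _ coeL_inj).2 ?_
    rw [map_mul, map_pow, map_pow, cq]
    exact mul_ne_zero (pow_ne_zero _ qn) (pow_ne_zero _ qn)
  · rw [d1, d3, map_mul Φ, Φz, map_mul, map_mul, map_mul, map_natCast, map_natCast, ← ΦU]
    push_cast
    linear_combination (-(C (q ^ N) * X)) * eb
  · rw [d2, d4, ea, map_mul]
    ring

end Bmk

theorem bmkS (h1 : BnumStmt) (h2 : BendStmt) (h3 : AbmkStmt) (h4 : PframeStmt) (h5 : PsiStmt) :
    BmkStmt := by
  intro k _ _ _ d o0 hd h0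
  obtain ⟨o, ε, N, e, ω, v, e1, N1, ee, ω1, hω, hv, hU, ⟨z1, hz⟩, b1, b2, b3, b4, b5, b6, b7, b8⟩ :=
    h1 k d o0 hd h0
  obtain ⟨a, b, hab⟩ := h3 k d ε N o hd e1 N1 ((pow_dvd_pow _ (by omega)).trans b1)
    ((pow_dvd_pow _ (by omega)).trans b2) ((pow_dvd_pow _ (by omega)).trans b3) b4
  obtain ⟨a0, b0, c1, c2, c3, c4, c5, c6⟩ :=
    h2 k d ε N e o a b hd e1 N1 hab b1 b2 b3 b4 b5 b6 b7 b8
  have eo : map (out ε) (C (X ^ (N * (d + 1))) : (AA k)⟦X⟧) = CC (wL k (N * (d + 1))) := by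
    rw [map_C, map_pow, out_X, ← map_pow, wL_pow, mul_one, CC_apply]
    push_cast
    rfl
  obtain ⟨⟨y, hy⟩, -⟩ := h4 k d N o (map (out ε) a) (map (out ε) b) hd N1
    (by rw [← eo, ← map_mul, hab.1, out_thA ε N1 (by omega)])
    (by rw [← eo, ← map_mul, hab.2.1, map_mul, map_natCast, out_thA ε N1 (by omega)])
  have hn : 1 ≤ d * N := Nat.mul_pos (by omega) N1
  obtain ⟨r, hr⟩ := unit_root (hv.map (ram k (d * N))) hn
  have ur : IsUnit r := (isUnit_pow_iff (by omega)).1 (hr ▸ hv.map (ram k (d * N)))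
  obtain ⟨s, hs⟩ := ur.exists_right_inv
  have cX : ∀ m, 1 ≤ m → ∀ f : k⟦X⟧, cc (X ^ m * f) = 0 := fun m hm f => by
    rw [map_mul, map_pow, constantCoeff_X, zero_pow (by omega), zero_mul]
  have qn : (X ^ ω * r : k⟦X⟧) ≠ 0 := mul_ne_zero (pow_ne_zero _ X_ne_zero) ur.ne_zero
  obtain ⟨ps, p0, pq⟩ : ∃ ps : k⟦X⟧, cc ps = 0 ∧ ps * (X ^ ω * r) ^ ε = X ^ (d * N) := by
    obtain rfl | rfl : ε = 0 ∨ ε = 1 := by omega
    · exact ⟨X ^ (d * N) * 1, cX _ hn _, by rw [pow_zero, mul_one, mul_one]⟩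
    · obtain ⟨m, hm⟩ := Nat.exists_eq_add_of_lt (hω rfl)
      refine ⟨X ^ (m + 1) * s, cX _ (by omega) _, ?_⟩
      rw [hm, pow_one]
      linear_combination (X ^ (ω + m + 1)) * hs
  have pn : ps ≠ 0 := by
    rintro rfl
    rw [zero_mul] at pq
    exact pow_ne_zero _ X_ne_zero pq.symm
  obtain ⟨m, hm⟩ : ∃ m, d * N * (e + ω) = ω * N + m + 1 := by
    apply Nat.exists_eq_add_of_lt
    calc ω * N < (e + ω) * N := Nat.mul_lt_mul_of_pos_right (by omega) N1
      _ ≤ d * N * (e + ω) := by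
        rw [mul_comm (e + ω), mul_assoc]
        exact Nat.le_mul_of_pos_left _ (by omega)
  obtain ⟨-, s2, -, s4, -⟩ := h5 k ε ps (X ^ ω * r) e1 p0 (cX _ ω1 _) pn qn
  have ht : psi0 ε ps (X ^ ω * r) (tA k ε) = C (X ^ (d * N)) := by
    have : mA Polynomial.C (tA k ε) = tA (Polynomial k) ε := by
      rw [tA, tA, map_mul, map_pow, mA_CX, mA_X]
    rw [← s2, this, s4, pq]
  refine ⟨ε, N, e, a, b, a0, b0, y, d * N, ps, X ^ ω * r,
    X ^ (m + 1) * (s ^ N * ram k (d * N) z1), e1, N1, ee, hy, hab.2.2.1, hab.2.2.2.1,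
    hab.2.2.2.2.1, hab.2.2.2.2.2.1, c1, c2, c3, c4, c5, c6, hn, p0, cX _ ω1 _, qn, pq,
    cX _ (by omega) _, Bmk.cen o hd N1 hab p0 (cX _ ω1 _) qn ht (cX _ (by omega) _) ?_ ?_⟩
  · rw [hU, map_mul, map_pow, ram_X hn, mul_pow, hr, ← pow_mul, ← pow_mul, mul_comm ω]
  · have hsN : r ^ N * s ^ N = 1 := by rw [← mul_pow, hs, one_pow]
    rw [hz, map_mul, map_pow, ram_X hn, ← pow_mul, hm, mul_pow, ← pow_mul]
    linear_combination (X ^ (ω * N + m + 1) * ram k (d * N) z1) * hsN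

end Pool.Agent.MP_05b4bd_ag.ES

end MrgPart0

-- ======== part 1: formerly Pool.Agent.MP_05b4bd_ag.esc.Pmk
section MrgPart1

/-! The chart at a point at infinity of the level curves. -/

namespace Pool.Agent.MP_05b4bd_ag.ES

open PowerSeries LaurentSeries HC

namespace Pmk

variable {k : Type} [Field k]

theorem unit3 {z : AA k⟦X⟧} (h : cc (c00 z) ≠ 0) : IsUnit z := by
  rw [isUnit_iff_constantCoeff, isUnit_iff_constantCoeff, isUnit_iff_constantCoeff]
  exact Ne.isUnit h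

theorem mem3 {z : AA k⟦X⟧} : z ∈ up (up (up (⊥ : Ideal k))) ↔ cc (c00 z) = 0 := by
  simp only [mem_up, Ideal.mem_bot]; rfl

theorem split {w : R2 k⟦X⟧} {v : R2 k} (h : MvPolynomial.map cc w = v) :
    ∃ w', w = MvPolynomial.map C v + MvPolynomial.C X * w' := by
  have : (MvPolynomial.C X : R2 k⟦X⟧) ∣ w - MvPolynomial.map C v := by
    rw [MvPolynomial.C_dvd_iff_dvd_coeff]
    intro m
    rw [X_dvd_iff, MvPolynomial.coeff_sub, MvPolynomial.coeff_map, ← h, MvPolynomial.coeff_map]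
    simp
  obtain ⟨w', hw⟩ := this
  exact ⟨w', by rw [← hw]; ring⟩

theorem eval01 {d : ℕ} {F : R2 k} (hF : F.IsHomogeneous d) :
    MvPolynomial.eval₂ (RingHom.id k) ![0, 1] F = HC.co 0 d F := by
  conv_lhs => rw [hom_eq_sum hF]
  rw [MvPolynomial.eval₂_sum, Finset.sum_eq_single d]
  · simp
  · intro j hj hne
    have : d - j ≠ 0 := by have := Finset.mem_range.1 hj; omega
    simp [this]
  · simp

theorem scale (d : ℕ) (f : R2 k) (l x y : k) :
    MvPolynomial.eval₂ (RingHom.id k) ![l * x, l * y] (hc d f) =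
      l ^ d * MvPolynomial.eval₂ (RingHom.id k) ![x, y] (hc d f) := by
  rw [← hev_zero, ← hev_zero, ← hev_smul, mul_zero]

theorem simple {d : ℕ} {F : R2 k} (hF : F.IsHomogeneous d)
    (h : CI (MvPolynomial.pderiv 0 F) (MvPolynomial.pderiv 1 F)) {u : k}
    (h0 : MvPolynomial.eval₂ (RingHom.id k) ![1, u] F = 0) :
    MvPolynomial.eval₂ (RingHom.id k) ![1, u] (MvPolynomial.pderiv 1 F) ≠ 0 := by
  intro h1
  have e := congrArg (MvPolynomial.eval₂Hom (RingHom.id k) ![1, u]) (euler hF)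
  simp only [map_add, map_mul, MvPolynomial.coe_eval₂Hom, h0, h1, MvPolynomial.eval₂_X,
    mul_zero, add_zero, Matrix.cons_val_zero, one_mul] at e
  obtain ⟨M, hM, -⟩ := h
  obtain ⟨s, t, e'⟩ := Ideal.mem_span_pair.1 hM
  have := congrArg (MvPolynomial.eval₂Hom (RingHom.id k) ![1, u]) e'
  simp only [map_add, map_mul, map_pow, MvPolynomial.coe_eval₂Hom, e, h1, MvPolynomial.eval₂_X,
    mul_zero, add_zero, Matrix.cons_val_zero, one_pow] at this
  exact zero_ne_one this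

theorem hev_congr {R S : Type} [CommRing R] [CommRing S] (φ : R →+* S) (d : ℕ) (w : R2 R)
    {τ u u' : S} (x z : S) (h : τ ∣ u - u') : τ ∣ hev φ d w x u z - hev φ d w x u' z := by
  rw [← Ideal.mem_span_singleton, ← Ideal.Quotient.eq] at h ⊢
  rw [map_hev, map_hev, h]

/-- The root as a function of the right-hand side. -/
theorem roots {d : ℕ} {f : R2 k} {u0 : k}
    (h0 : MvPolynomial.eval₂ (RingHom.id k) ![1, u0] (hc (d + 1) f) = 0)
    (h1 : MvPolynomial.eval₂ (RingHom.id k) ![1, u0] (MvPolynomial.pderiv 1 (hc (d + 1) f)) ≠ 0) :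
    ∃ u : AA k → AA k⟦X⟧, (∀ γ, cc (c00 (u γ)) = u0 ∧
      hev (CC.comp C) (d + 1) f 1 (u γ) X + map C (C X * γ) = C X) ∧
      ∀ (n : ℕ) γ γ', C X ^ n ∣ γ - γ' → CC X ^ (n + 1) ∣ u γ - u γ' := by
  obtain ⟨p, hp⟩ := exists_poly_y (S := AA k⟦X⟧) (CC.comp C) d f 1 X
  have p0 : ∀ y, p.eval y = hev (CC.comp C) (d + 1) f 1 y X := fun y => by
    simpa using (hp _ (RingHom.id _) y).1
  have p1 : ∀ y, p.derivative.eval y = hev (CC.comp C) d (MvPolynomial.pderiv 1 f) 1 y X := fun y => by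
    simpa using (hp _ (RingHom.id _) y).2
  let g : AA k⟦X⟧ →+* k := (cc : k⟦X⟧ →+* k).comp c00
  have gφ : g.comp (CC.comp C) = RingHom.id k := by ext; simp [g, c00, CC]
  have gX : g X = 0 := by simp [g, c00]
  have gapp : ∀ z, cc (c00 z) = g z := fun _ => rfl
  have un : ∀ y, g y = u0 → IsUnit (p.derivative.eval y) := fun y hy => unit3 (by
    rw [gapp, p1, map_hev, gφ, gX, map_one, hy, hev_zero, hc_pderiv]; exact h1)
  have ex : ∀ γ : AA k, ∃ u : AA k⟦X⟧, cc (c00 u) = u0 ∧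
      hev (CC.comp C) (d + 1) f 1 u X + map C (C X * γ) = C X := fun γ => by
    have ga : g (CC (C u0)) = u0 := by simp [g, c00, CC]
    obtain ⟨z, hz, e⟩ := hensel (up (up (up (⊥ : Ideal k))))
      (p - Polynomial.C (C X - map C (C X * γ))) (a := CC (C u0)) (by
        rw [mem3, gapp, Polynomial.eval_sub, Polynomial.eval_C, p0, map_sub, map_hev, gφ, gX, map_one, ga,
          hev_zero, h0]
        simp [g, c00]) (by simpa using un _ ga)
    refine ⟨z, ?_, ?_⟩
    · have := mem3.1 hz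
      rwa [gapp, map_sub, ga, sub_eq_zero] at this
    · rw [Polynomial.eval_sub, Polynomial.eval_C, p0] at e
      linear_combination e
  choose u hu using ex
  refine ⟨u, hu, fun n γ γ' ⟨s, hs⟩ => ?_⟩
  obtain ⟨r, hr⟩ := p.binomExpansion (u γ') (u γ - u γ')
  have hw : IsUnit (p.derivative.eval (u γ') + r * (u γ - u γ')) :=
    unit_of_sub_mem (up (up (up (⊥ : Ideal k)))) (un _ (hu γ').1) (by
      rw [add_sub_cancel_left]
      refine Ideal.mul_mem_left _ _ (mem3.2 ?_)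
      rw [map_sub, map_sub, (hu γ).1, (hu γ').1, sub_self])
  rw [← hw.dvd_mul_right]
  refine ⟨-map C s, ?_⟩
  rw [add_sub_cancel, p0, p0] at hr
  have e1 := (hu γ).2
  have e2 := (hu γ').2
  have e3 := congrArg (map (C : k⟦X⟧ →+* k⟦X⟧⟦X⟧)) hs
  simp only [map_mul, map_sub, map_pow, map_C] at e1 e2 e3
  rw [CC_apply]
  linear_combination e1 - e2 - hr - C (C X) * e3

end Pmk

open Pmk in
theorem pmkS (hC : ChartStmt) (hG : GenTopStmt) : PmkStmt := by
  intro k _ _ _ d hd o r x y hr hxy hcen hF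
  obtain ⟨d, rfl⟩ : ∃ d', d = d' + 1 := ⟨d - 1, by omega⟩
  obtain ⟨-, hci, -, h0d, -⟩ := hG k (d + 1) o.f (by omega) o.gen
  change MvPolynomial.eval₂ _ _ _ = 0 at hF
  have hx : cc x ≠ 0 := fun h => by
    have := scale (d + 1) o.f (cc y) 0 1
    rw [mul_zero, mul_one, ← h, hF, h, eval01 (hc_hom _ _)] at this
    exact mul_ne_zero (pow_ne_zero _ (hxy.resolve_left (not_not.2 h))) h0d this.symm
  have h0 : MvPolynomial.eval₂ (RingHom.id k) ![1, cc y / cc x] (hc (d + 1) o.f) = 0 := by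
    have := scale (d + 1) o.f (cc x) 1 (cc y / cc x)
    rw [mul_one, mul_div_cancel₀ _ hx, hF] at this
    exact (mul_eq_zero.1 this.symm).resolve_left (pow_ne_zero _ hx)
  have h1 := simple (hc_hom _ _) hci h0
  obtain ⟨u, hu, hl⟩ := roots h0 h1
  obtain ⟨P1, hP⟩ := split o.rP
  obtain ⟨Q1, hQ⟩ := split o.rQ
  let M : AA k⟦X⟧ → AA k⟦X⟧ := fun v =>
    hev CC (d + 1) P1 1 v X * (X * dX _ v - v) + hev CC (d + 1) Q1 1 v X
  have dC : dX k⟦X⟧⟦X⟧ (CC X) = 0 := dX_C _
  have hM : ∀ (n : ℕ) v v', CC X ^ n ∣ v - v' → CC X ^ n ∣ M v - M v' := fun n v v' h => by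
    have a1 := hev_congr CC (d + 1) P1 1 X h
    have a2 := hev_congr CC (d + 1) Q1 1 X h
    have a3 := isDer_dX.dvd dC h
    rw [map_sub] at a3
    have := dvd_add (dvd_add (a1.mul_right (X * dX _ v - v))
      ((dvd_sub (a3.mul_left X) h).mul_left (hev CC (d + 1) P1 1 v' X))) a2
    convert this using 1
    simp only [M]; ring
  obtain ⟨γ, hγ, -⟩ := fix_dvd (C X : AA k) (fun γ => mk fun j =>
    if j < d + 1 then -(C ((d + 1 : k) - j)⁻¹ * coeff (j + 1) (red (M (u γ)))) else 0)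
    fun n γ γ' h => by
      obtain ⟨s, hs⟩ := hM _ _ _ (hl n γ γ' h)
      have e := congrArg red hs
      rw [map_sub, map_mul, map_pow, CC_apply, red_C, cc, constantCoeff_C] at e
      have e' := (C_pow_dvd_iff X (n + 1) _).1 ⟨_, e⟩
      rw [C_pow_dvd_iff]
      intro j
      rw [map_sub, coeff_mk, coeff_mk]
      split_ifs
      · have := (e' (j + 1)).mul_left (-C ((d + 1 : k) - j)⁻¹)
        convert this using 1
        rw [map_sub]; ring
      · simp
  obtain ⟨u0, ue⟩ := hu γ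
  set v := u γ with hv
  have dy : DL (d + 1) (MvPolynomial.pderiv 1 o.f) := o.gen.2.1.pderiv 1
  have dx : DL (d + 1) (MvPolynomial.pderiv 0 o.f) := o.gen.2.1.pderiv 0
  have eP : hev CC (d + 1) o.P 1 v X = X * hev (CC.comp C) d (MvPolynomial.pderiv 1 o.f) 1 v X +
      CC X * hev CC (d + 1) P1 1 v X := by
    rw [hP, hev_add, hev_map, hev_C_mul, hev_succ _ _ dy]
  have eQ : hev CC (d + 1) o.Q 1 v X = -(X * hev (CC.comp C) d (MvPolynomial.pderiv 0 o.f) 1 v X) +
      CC X * hev CC (d + 1) Q1 1 v X := by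
    rw [hQ, hev_add, hev_map, hev_C_mul, hev_neg, hev_succ _ _ dx]
  have eH : hev (CC.comp C) (d + 1) o.f 1 v X = C X - CC X * map C γ := by
    rw [← ue, map_mul, map_C, CC_apply]; ring
  have cU : IsDer (cw (dX k⟦X⟧)) := isDer_dX.coefw
  have cm0 : ∀ s : AA k, cw (dX k⟦X⟧) (map C s) = 0 := fun s => by
    ext1 n; rw [coeff_cw, coeff_map, dX_C, map_zero]
  have cC0 : ∀ s : k⟦X⟧, cw (dX k⟦X⟧) (CC s) = 0 := fun s => by rw [CC_apply, cw_C, dX_C, map_zero]
  have eU : hev (CC.comp C) d (MvPolynomial.pderiv 1 o.f) 1 v X * cw (dX k⟦X⟧) v = 1 := by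
    have := der_hev' (CC.comp C) d cU (fun s => by rw [RingHom.comp_apply]; exact cC0 _) o.f 1 v (cw_X isDer_dX.one)
    rw [eH, map_sub, cU, cm0, cC0, cw_C, dX_X, cU.one] at this
    rw [map_one] at this
    linear_combination -this
  have eZ := der_hev (CC.comp C) d isDer_dX
    (fun s => by rw [RingHom.comp_apply, CC_apply]; exact dX_C _) o.f 1 v X
  rw [eH, map_sub, isDer_dX, dC, dX_C, dX_map, dX_X, isDer_dX.one] at eZ
  have ee : -(hev CC (d + 1) o.P 1 v X * (X * dX _ v - v) + hev CC (d + 1) o.Q 1 v X) -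
      ((d + 1 : ℕ) : AA k⟦X⟧) * C X * X =
      CC X * -(X * map C (((d + 1 : ℕ) : AA k) * γ - thP _ γ) + M v) := by
    rw [eP, eQ, map_sub, map_mul, map_natCast, thP_apply, map_mul, map_X]
    simp only [M]
    push_cast
    linear_combination X * eZ
  obtain ⟨xi, hxi⟩ := (isUnit_iff_constantCoeff.2 (Ne.isUnit hx) : IsUnit x).exists_right_inv
  have cxi : cc xi = (cc x)⁻¹ := by
    have := congrArg cc hxi
    rw [map_mul, map_one] at this
    exact eq_inv_of_mul_eq_one_right this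
  have z0 : cc (X ^ r * xi) = 0 := by
    rw [map_mul, map_pow, cc, constantCoeff_X, zero_pow (by omega), zero_mul]
  have zJ : X ^ r * xi ∈ up (⊥ : Ideal k) := z0
  have zn : X ^ r * xi ≠ 0 := mul_ne_zero (pow_ne_zero _ X_ne_zero) (right_ne_zero_of_mul_eq_one hxi)
  have cus : cc (y * xi) = cc y / cc x := by rw [map_mul, cxi, div_eq_mul_inv]
  have cid : (cc : k⟦X⟧ →+* k).comp C = RingHom.id k := by ext; simp
  set Us := hev C (d + 1) o.f 1 (y * xi) (X ^ r * xi) + ev (RingHom.id _) (X ^ r * xi) (C X * γ)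
    with hUs
  have U0 : cc Us = 0 := by
    rw [hUs, map_add, map_hev, cid, map_one, cus, z0, hev_zero, h0, map_mul, ev_C _ zJ]
    simp
  have UJ : Us ∈ up (⊥ : Ideal k) := U0
  let E := ev2 (RingHom.id k⟦X⟧) Us (X ^ r * xi)
  have EX : E X = X ^ r * xi := ev2_X _ zJ
  have Eφ : E.comp (CC.comp C) = C := RingHom.ext fun s => ev2_CC _ UJ zJ _
  have Ev : E v = y * xi := by
    obtain ⟨p, hp⟩ := exists_poly_y (S := k⟦X⟧) C d o.f 1 (X ^ r * xi)
    have p0 : ∀ s, p.eval s = hev C (d + 1) o.f 1 s (X ^ r * xi) := fun s => by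
      simpa using (hp _ (RingHom.id _) s).1
    have p1 : ∀ s, p.derivative.eval s = hev C d (MvPolynomial.pderiv 1 o.f) 1 s (X ^ r * xi) :=
      fun s => by simpa using (hp _ (RingHom.id _) s).2
    refine (hensel_unique (up (⊥ : Ideal k)) p ?_ ?_ ?_).symm
    · rw [isUnit_iff_constantCoeff, p1]
      refine Ne.isUnit ?_
      change cc _ ≠ 0
      rw [map_hev, cid, map_one, cus, z0, hev_zero, hc_pderiv]; exact h1
    · obtain ⟨s, s', e⟩ := ev2_sub_c00 (up (⊥ : Ideal k)) (φ := RingHom.id k⟦X⟧) UJ zJ v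
      change cc (E v - y * xi) = 0
      rw [map_sub, cus, show E v = _ from e, map_add, map_add, map_mul, map_mul _ (X ^ r * xi), U0, z0]
      simpa using sub_eq_zero.2 u0
    · have := congrArg E ue
      rw [map_add, map_hev, Eφ, map_one, EX, show E (map C (C X * γ)) = _ from ev2_mapC _ UJ zJ _,
        show E (C X) = _ from ev2_CX _ UJ zJ] at this
      rw [p0, p0]
      linear_combination hUs - this
  have cz : coeL k (X ^ r * xi) = wL k r * coeL k xi := by
    rw [map_mul, map_pow, coeL_X, wL_pow, mul_one]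
  have ww : wL k (-(r : ℤ)) * wL k r = 1 := by rw [← wL_add, neg_add_cancel, wL_zero]
  have cx : coeL k x * coeL k xi = 1 := by rw [← map_mul, hxi, map_one]
  have cX0 : cw (dX k⟦X⟧) (X : AA k⟦X⟧) = 0 := cw_X isDer_dX.one
  have key := hC k (d + 1) o.P o.Q _ 1 v X Us (X ^ r * xi) o.dP o.dQ hcen U0 z0
    (by rw [show ev2 _ _ _ X = _ from EX]; exact zn)
    (by
      rw [show ev2 _ _ _ X = _ from EX, cz, map_one, map_one]
      change 1 = wL k (-(r : ℤ)) * coeL k x * _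
      linear_combination (-(coeL k x * coeL k xi)) * ww - cx)
    (by
      rw [show ev2 _ _ _ X = _ from EX, cz, show ev2 _ _ _ v = _ from Ev, map_mul]
      change _ = wL k (-(r : ℤ)) * coeL k y * _
      linear_combination (-(coeL k y * coeL k xi)) * ww)
    (by
      rw [cU.one, isDer_dX.one, cX0, dX_X]
      intro h
      have := congrArg E eU
      simp only [zero_mul, mul_zero, sub_zero, zero_sub, mul_one, one_mul, neg_neg, sub_self] at h
      rw [map_mul, show E (cw _ v) = 0 from h, mul_zero, map_one] at this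
      exact zero_ne_one this)
  rw [cU.one, isDer_dX.one, cX0, dX_X] at key
  refine ⟨{ o with
    u := v
    b := X - hev CC (d + 1) o.P 1 v X * cw (dX k⟦X⟧) v
    e := -(hev CC (d + 1) o.P 1 v X * (X * dX _ v - v) + hev CC (d + 1) o.Q 1 v X) -
      ((d + 1 : ℕ) : AA k⟦X⟧) * C X * X
    c := C X * γ
    Us := Us
    zs := X ^ r * xi
    tc := dvd_mul_right _ _
    eu := ue
    su := by rw [u0]; exact h1
    eb := by ring
    ee := by rw [fB]; ring
    tb := ⟨-(hev CC (d + 1) P1 1 v X * cw (dX k⟦X⟧) v), by rw [eP]; linear_combination (-X) * eU⟩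
    te := ⟨_, ee⟩
    ne := fun j j1 jd => ?_
    U0 := U0
    z0 := z0
    zn := zn
    cen := ?_ }⟩
  · obtain ⟨j, rfl⟩ : ∃ j', j = j' + 1 := ⟨j - 1, by omega⟩
    have e := congrArg (coeff j) hγ
    rw [coeff_mk, if_pos (by omega)] at e
    rw [co2, coeff_zero_eq_constantCoeff_apply, ← coeff_red, ee, map_mul red, map_neg red,
      map_add red, map_mul red,
      red_mapC, red_X, CC_apply, red_C, cc, constantCoeff_C, coeff_C_mul, map_neg, map_add,
      coeff_succ_X_mul, map_sub, coeff_thP, ← map_natCast (C : k⟦X⟧ →+* AA k), coeff_C_mul, ← e]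
    have hne : ((d + 1 : k) - j) ≠ 0 := by
      rw [sub_ne_zero]; exact_mod_cast (by omega : d + 1 ≠ j)
    have : (C ((d + 1 : k) - j) : k⟦X⟧) * C ((d + 1 : k) - j)⁻¹ = 1 := by
      rw [← map_mul, mul_inv_cancel₀ hne, map_one]
    simp only [map_sub, map_add, map_natCast, map_one] at this
    push_cast
    linear_combination X * coeff (j + 1) (red (M v)) * this
  · convert key using 1
    · ring
    · rw [fB]; ring

end Pool.Agent.MP_05b4bd_ag.ES

end MrgPart1

-- marker of a merged file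
example : 731051 + 82365 = 731051 + 82365 := rfl
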