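import Pool.Agent.MP_05b4bd_ag.esc.Bx
import Pool.Agent.MP_05b4bd_ag.esc.Symb
import Pool.Agent.MP_05b4bd_ag.esc.K2b

-- ======== part 0: formerly Pool.Agent.MP_05b4bd_ag.esc.A2
section MrgPart0

/-! Escaping centres, small case: the normal form. -/

namespace Pool.Agent.MP_05b4bd_ag.ES

open PowerSeries LaurentSeries HC

namespace A2

section Gen
variable {R : Type} [CommRing R]

theorem pow_dvd_map {S : Type} [CommRing S] {t : S} {L : S →+ S} (h : ∀ c, L (t * c) = t * L c)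
    {n : ℕ} {x : S} (hx : t ^ n ∣ x) : t ^ n ∣ L x := by
  obtain ⟨y, rfl⟩ := hx
  refine ⟨L y, ?_⟩
  induction n with
  | zero => simp
  | succ n ih => rw [pow_succ', mul_assoc, h, ih, mul_assoc]

theorem co2_CC_mul (i j : ℕ) (r : R) (c : AA R) : co2 i j (CC r * c) = r * co2 i j c := by
  simp [co2, CC_apply]

theorem co2_X_mul (i j : ℕ) (c : AA R) : co2 i (j + 1) (X * c) = co2 i j c := by
  simp [co2, coeff_succ_X_mul]

theorem co2_X_mul_zero (i : ℕ) (c : AA R) : co2 i 0 (X * c) = 0 := by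
  simp [co2]

theorem co2_C_succ (i j : ℕ) (c : R⟦X⟧) : co2 i (j + 1) (C c : AA R) = 0 := by
  simp [co2]

theorem co2_C_zero (i : ℕ) (c : R⟦X⟧) : co2 i 0 (C c : AA R) = coeff i c := by
  simp [co2]

theorem dU_CC (r : R) : cw (dX R) (CC r) = 0 := by rw [CC_apply, cw_C, dX_C, map_zero]

theorem dZ_CC (r : R) : dX R⟦X⟧ (CC r) = 0 := by rw [CC_apply, dX_C]

theorem dU_CX : cw (dX R) (C X) = 1 := by rw [cw_C, dX_X, map_one]

theorem dU_X : cw (dX R) X = 0 := cw_X isDer_dX.one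

/-- The operator `d U d/dU + Z d/dZ - d`. -/
noncomputable def EE (d : ℕ) (h : AA R) : AA R :=
  (d : AA R) * C X * cw (dX R) h + X * dX _ h - (d : AA R) * h

theorem co2_EE (d i j : ℕ) (h : AA R) :
    co2 i j (EE d h) = ((d : R) * i + j - d) * co2 i j h := by
  have e1 : (C X * cw (dX R) h : AA R) = cw (thP R) h := (cw_mulLeft X (dX R) h).symm
  have e2 : (d : AA R) = CC (d : R) := (map_natCast CC d).symm
  rw [EE, mul_assoc, e1, ← thP_apply, co2_sub, co2_add, e2, co2_CC_mul, co2_CC_mul]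
  simp only [co2, coeff_cw, coeff_thP]
  rw [← nsmul_eq_mul (j) (coeff j h), map_nsmul, nsmul_eq_mul]
  ring

variable [Algebra ℚ R]

/-- Solution operator of the homological equation. -/
noncomputable def HH (d : ℕ) : AA R →+ AA R where
  toFun r := mk fun j => mk fun i => algebraMap ℚ R ((d : ℚ) * i + j - d)⁻¹ * co2 i (j + 1) r
  map_zero' := by ext; simp [co2]
  map_add' a b := by ext; simp [co2, mul_add]

theorem co2_HH (d i j : ℕ) (r : AA R) :
    co2 i j (HH d r) = algebraMap ℚ R ((d : ℚ) * i + j - d)⁻¹ * co2 i (j + 1) r := by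
  simp [HH, co2]

theorem HH_CC (d : ℕ) (c : R) (r : AA R) : HH d (CC c * r) = CC c * HH d r :=
  co2_ext fun i j => by rw [co2_HH, co2_CC_mul, co2_CC_mul, co2_HH]; ring

theorem split {d : ℕ} (hd : 1 ≤ d) (r : AA R) :
    r = CC (co2 1 1 r) * C X * X + C (cc r) + CC (co2 0 (d + 1) r) * X ^ (d + 1) +
      X * EE d (HH d r) := by
  refine co2_ext fun i j => ?_
  have m1 := co2_mono i j 1 1 (co2 1 1 r)
  have m2 := co2_mono i j 0 (d + 1) (co2 0 (d + 1) r)
  rw [pow_one, pow_one] at m1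
  rw [pow_zero, mul_one] at m2
  rw [co2_add, co2_add, co2_add, m1, m2]
  cases j with
  | zero =>
    rw [co2_X_mul_zero, co2_C_zero, if_neg (by omega), if_neg (by omega)]
    simp [co2]
  | succ j =>
    rw [co2_X_mul, co2_C_succ, co2_EE, co2_HH, ← mul_assoc]
    have e : ((d : R) * i + j - d) = algebraMap ℚ R ((d : ℚ) * i + j - d) := by simp
    rw [e, ← map_mul]
    by_cases h1 : i = 1 ∧ j + 1 = 1
    · obtain ⟨rfl, h⟩ := h1
      obtain rfl : j = 0 := by omega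
      rw [if_pos ⟨rfl, rfl⟩, if_neg (by omega)]
      simp
    · by_cases h2 : i = 0 ∧ j + 1 = d + 1
      · obtain ⟨rfl, h⟩ := h2
        obtain rfl : j = d := by omega
        rw [if_neg h1, if_pos ⟨rfl, rfl⟩]
        simp
      · have h3 : (d : ℚ) * i + j - d ≠ 0 := fun h => by
          have h4 : d * i + j = d := by exact_mod_cast sub_eq_zero.1 h
          rcases i with _ | _ | i
          · omega
          · omega
          · rw [mul_add, mul_add] at h4; omega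
        rw [if_neg h1, if_neg h2, mul_inv_cancel₀ h3]
        simp

variable (t : R) [IsAdicComplete (Ideal.span {t}) R]

omit [Algebra ℚ R] [IsAdicComplete (Ideal.span {t}) R] in
theorem memU {h : AA R} (hh : CC t ∣ h) : C X + h ∈ up (up (Ideal.span {t})) := by
  obtain ⟨g, rfl⟩ := hh
  rw [mem_up2, Ideal.mem_span_singleton]
  exact ⟨c00 g, by simp [c00_apply, CC_apply]⟩

omit [Algebra ℚ R] in
theorem ev2_dvd {h h' : AA R} (hh : CC t ∣ h) (hh' : CC t ∣ h') (c : AA R) :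
    h - h' ∣ ev2 CC (C X + h) X c - ev2 CC (C X + h') X c := by
  obtain ⟨r, r', e⟩ := ev2_sub (up (up (Ideal.span {t}))) (φ := CC) (memU t hh) (memU t hh')
    (X_mem_up _) (X_mem_up _) c
  exact ⟨r, by rw [e]; ring⟩

omit [Algebra ℚ R] in
theorem bij {h : AA R} (hh : CC t ∣ h) : Function.Bijective (ev2 CC (C X + h) X : AA R →+* AA R) := by
  have : IsAdicComplete (Ideal.span {(CC t : AA R)}) (AA R) := C_complete (C t)
  refine bij_of_dvd (CC t) (ev2 CC (C X + h) X : AA R →+* AA R).toAddMonoidHom (fun c => ?_)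
    fun c => ?_
  · change ev2 CC (C X + h) X (CC t * c) = CC t * ev2 CC (C X + h) X c
    rw [map_mul, ev2_CC _ (memU t hh) (X_mem_up _)]
  · have e := ev2_dvd t hh (dvd_zero _) c
    rw [add_zero, sub_zero, ev2_id] at e
    exact hh.trans e

/-- The conjugating series. -/
theorem exists_nf {d : ℕ} (hd : 1 ≤ d) {β : R} (hβ : t ∣ β) {e : AA R} (he : CC t ∣ e) :
    ∃ (h : AA R) (κ Γ : R) (eh : R⟦X⟧), CC t ∣ h ∧ t ∣ κ ∧ t ∣ Γ ∧
      (1 + cw (dX R) h) * -(CC (d + κ) * C X * X + C eh + CC Γ * X ^ (d + 1)) =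
        dX _ h * (X * (X - CC β)) + ev2 CC (C X + h) X (fB d e) := by
  have : IsAdicComplete (Ideal.span {(CC t : AA R)}) (AA R) := C_complete (C t)
  obtain ⟨e, rfl⟩ := he
  obtain ⟨b, rfl⟩ := hβ
  have dU : IsDer (cw (dX R)) := isDer_dX.coefw
  have dZ : IsDer (dX R⟦X⟧) := isDer_dX
  have kU : ∀ c, cw (dX R) (CC t * c) = CC t * cw (dX R) c := dU.const_mul (dU_CC t)
  have kZ : ∀ c, dX R⟦X⟧ (CC t * c) = CC t * dX R⟦X⟧ c := dZ.const_mul (dZ_CC t)
  obtain ⟨r, hr, -⟩ := fix_dvd (CC t : AA R) (fun r => ev2 CC (C X + CC t * HH d r) X e +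
    CC t * (CC b * X * dX _ (HH d r) - cw (dX R) (HH d r) * (r - X * EE d (HH d r))))
    fun n x y hxy => by
      have h1 : CC t ^ n ∣ HH d x - HH d y := by
        rw [← map_sub]; exact pow_dvd_map (HH_CC d t) hxy
      have h2 : CC t ^ n ∣ cw (dX R) (HH d x) - cw (dX R) (HH d y) := by
        rw [← map_sub]; exact pow_dvd_map kU h1
      have h3 : CC t ^ n ∣ dX _ (HH d x) - dX _ (HH d y) := by
        rw [← map_sub]; exact pow_dvd_map kZ h1
      obtain ⟨q, hq⟩ := ev2_dvd t (dvd_mul_right (CC t) (HH d x)) (dvd_mul_right (CC t) (HH d y)) e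
      obtain ⟨a0, e0⟩ := hxy
      obtain ⟨a1, e1⟩ := h1
      obtain ⟨a2, e2⟩ := h2
      obtain ⟨a3, e3⟩ := h3
      refine ⟨a1 * q + CC b * X * a3 - a2 * (x - X * EE d (HH d x)) - cw (dX R) (HH d y) *
        (a0 - X * ((d : AA R) * C X * a2 + X * a3 - (d : AA R) * a1)), ?_⟩
      simp only [EE]
      linear_combination hq + CC t * q * e1 + CC t * CC b * X * e3 -
        CC t * (x - X * ((d : AA R) * C X * cw (dX R) (HH d x) + X * dX _ (HH d x) -
          (d : AA R) * HH d x)) * e2 - CC t * cw (dX R) (HH d y) *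
          (e0 - X * ((d : AA R) * C X * e2 + X * e3 - (d : AA R) * e1))
  have sp := split hd r
  have mu := memU t (dvd_mul_right (CC t) (HH d r))
  refine ⟨CC t * HH d r, t * co2 1 1 r, t * co2 0 (d + 1) r, C t * cc r, dvd_mul_right _ _,
    dvd_mul_right _ _, dvd_mul_right _ _, ?_⟩
  rw [kU, kZ, fB]
  simp only [map_neg, map_add, map_mul, map_natCast, ← CC_apply, ev2_CX _ mu (X_mem_up _),
    ev2_X _ (X_mem_up (up (Ideal.span {t}))), ev2_CC _ mu (X_mem_up _)]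
  simp only [EE] at hr sp
  linear_combination (CC t * (1 + CC t * cw (dX R) (HH d r))) * sp + CC t * hr

omit [Algebra ℚ R] in
theorem unit_lam {h : AA R} (hh : CC t ∣ h) : IsUnit (1 + cw (dX R) h) := by
  obtain ⟨g, rfl⟩ := hh
  refine unit_of_sub_mem (up (up (Ideal.span {t}))) isUnit_one ?_
  rw [add_sub_cancel_left, (isDer_dX (R := R)).coefw.const_mul (dU_CC t), mem_up2,
    Ideal.mem_span_singleton, map_mul]
  exact ⟨c00 (cw (dX R) g), by simp [c00_apply, CC_apply]⟩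

omit [Algebra ℚ R] in
theorem cc_ev2 {h : AA R} (hh : CC t ∣ h) (c : AA R) :
    cc (ev2 CC (C X + h) X c) = ev C (X + cc h) (cc c) := by
  have mu := memU t hh
  have m1 : cc (C X + h : AA R) ∈ up (Ideal.span {t}) := mu
  have e := hom_ev2 (up (up (Ideal.span {t}))) (φ := CC) (up (Ideal.span {t})) mu (X_mem_up _) cc m1
    (X_mem_up (up (Ideal.span {t}))) c
  have e1 : (cc : AA R →+* R⟦X⟧).comp CC = C := RingHom.ext fun r => by simp [CC_apply]
  rw [e, e1, constantCoeff_X, ev2, ev_zero, map_add, constantCoeff_C]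

omit [Algebra ℚ R] in
/-- The restriction of the normal form to `Z = 0`. -/
theorem eh_dvd {d : ℕ} {β κ Γ : R} {e h : AA R} {eh : R⟦X⟧} (hh : CC t ∣ h)
    (he : C (β * t) ∣ cc e + C (β * (d + 1)) * X)
    (eB : (1 + cw (dX R) h) * -(CC (d + κ) * C X * X + C eh + CC Γ * X ^ (d + 1)) =
      dX _ h * (X * (X - CC β)) + ev2 CC (C X + h) X (fB d e)) :
    C (β * t) ∣ eh + C (β * (d + 1)) * X := by
  have m1 : X + cc h ∈ up (Ideal.span {t}) := by
    have := memU t hh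
    rwa [mem_up, map_add, constantCoeff_C] at this
  have un := (unit_lam t hh).map (cc : AA R →+* R⟦X⟧)
  have e0 := congrArg (cc : AA R →+* R⟦X⟧) eB
  rw [map_add cc, cc_ev2 t hh] at e0
  obtain ⟨g, hg⟩ := he
  have e1 := congrArg (ev C (X + cc h)) hg
  obtain ⟨h0, rfl⟩ := hh
  rw [(isDer_dX (R := R)).coefw.const_mul (dU_CC t)] at e0 un
  simp only [fB, map_add, map_mul, map_neg, map_one, map_pow, map_natCast, CC_apply,
    constantCoeff_C, constantCoeff_X, mul_zero, zero_mul, zero_add, add_zero,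
    zero_pow (Nat.succ_ne_zero d)] at e0 e1 un m1 ⊢
  simp only [ev_C _ m1, ev_X _ m1] at e1
  have e2 : C β ∣ eh := (un.dvd_mul_left).1 ⟨C t * ev C (X + C t * cc h0) g -
    ((d : R⟦X⟧) + 1) * (X + C t * cc h0), by linear_combination e1 - e0⟩
  obtain ⟨w, rfl⟩ := e2
  exact ⟨ev C (X + C t * cc h0) g - ((d : R⟦X⟧) + 1) * cc h0 - cc (cw (dX R) h0) * w, by
    linear_combination e1 - e0⟩

omit [Algebra ℚ R] in
theorem exists_U {h : AA R} (hh : CC t ∣ h) {β V : R} (hβ : β ∈ Ideal.span {t})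
    (hV : V ∈ Ideal.span {t}) :
    ∃ U ∈ Ideal.span {t}, ev2 (RingHom.id R) U β (C X + h) = V := by
  obtain ⟨g, rfl⟩ := hh
  have mt : t ∈ Ideal.span {t} := Ideal.mem_span_singleton_self t
  obtain ⟨U, hU, e⟩ := K1b.fix_mem (Ideal.span {t}) (fun x => V - t * ev2 (RingHom.id R) x β g)
    (fun x _ => sub_mem hV (Ideal.mul_mem_right _ _ mt)) fun x hx y hy => by
      obtain ⟨r, r', e⟩ := ev2_sub (Ideal.span {t}) (φ := RingHom.id R) hx hy hβ hβ g
      exact ⟨-(t * r), neg_mem (Ideal.mul_mem_right _ _ mt), by linear_combination (-t) * e⟩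
  refine ⟨U, hU, ?_⟩
  rw [map_add, map_mul, ev2_CX _ hU hβ, ev2_CC _ hU hβ, RingHom.id_apply]
  linear_combination -e

omit [Algebra ℚ R] in
theorem iif_back [IsDomain R] {h A B B' I : AA R} (hh : CC t ∣ h)
    (hA : ev2 CC (C X + h) X A = A)
    (eB : (1 + cw (dX R) h) * B' = dX _ h * A + ev2 CC (C X + h) X B)
    (hI : IIF (dX R) B' A I) : ∃ I', IIF (dX R) B A I' := by
  have mu := memU t hh
  have mz := X_mem_up (up (Ideal.span {t}))
  have un := unit_lam t hh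
  have dU : IsDer (cw (dX R)) := isDer_dX.coefw
  have dZ : IsDer (dX R⟦X⟧) := isDer_dX
  obtain ⟨i0, i1⟩ := iif_iff.1 hI
  obtain ⟨I', e⟩ := (bij t hh).2 ((1 + cw (dX R) h) * I)
  have pu := ev2_CX (up (up (Ideal.span {t}))) (φ := (CC : R →+* AA R)) mu mz
  have pz := ev2_X (up (up (Ideal.span {t}))) (φ := (CC : R →+* AA R)) (u := C X + h) mz
  have pc := ev2_CC (up (up (Ideal.span {t}))) (φ := (CC : R →+* AA R)) mu mz
  have tr := iifE_trans (d1 := cw (dX R)) (d2 := dX R⟦X⟧) (ev2 CC (C X + h) X) dU dZ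
    (J11 := 1 + cw (dX R) h) (J12 := 0) (J21 := dX _ h) (J22 := 1)
    (fun s => by
      rw [hom_chain2' _ (by rw [pu]; exact mu) (by rw [pz]; exact mz) dU
        (fun r => by rw [pc, dU_CC]) s, pu, pz, map_add, dU_CX, dU_X]
      ring)
    (fun s => by
      rw [hom_chain2' _ (by rw [pu]; exact mu) (by rw [pz]; exact mz) dZ
        (fun r => by rw [pc, dZ_CC]) s, pu, pz, map_add, dX_C, dX_X]
      ring)
    (by rw [map_add, dZ.one, zero_add, dX_cw]) (by rw [dU.one, map_zero]) A B I'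
  rw [zero_mul, add_zero, one_mul, hA, ← eB, e, iifE_scale dU dZ, i1, mul_zero, mul_one, zero_mul,
    sub_zero] at tr
  refine ⟨I', iif_iff.2 ⟨fun h0 => ?_, (bij t hh).1 ?_⟩⟩
  · rw [h0, map_zero] at e
    exact i0 (un.mul_right_eq_zero.1 e.symm)
  · rw [map_zero]
    exact un.mul_right_eq_zero.1 tr.symm

end Gen

end A2

open A2 in
theorem a12S (h1 : A1Stmt) : A12Stmt := by
  intro k _ _ d b e β V hd hAD
  obtain ⟨e', ⟨b0, bn, v0, -, te, -, he, cen⟩, back⟩ := h1 k d b e β V hAD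
  have mβ : β ∈ Ideal.span {(X : k⟦X⟧)} := Ideal.mem_span_singleton.2 (X_dvd_iff.2 b0)
  have mV : V ∈ Ideal.span {(X : k⟦X⟧)} := Ideal.mem_span_singleton.2 (X_dvd_iff.2 v0)
  obtain ⟨h, κ, Γ, eh, hh, hκ, hΓ, eB⟩ := exists_nf X hd (X_dvd_iff.2 b0) te
  obtain ⟨U, mU, eU⟩ := exists_U X hh mβ mV
  have U0 : cc U = 0 := X_dvd_iff.1 (Ideal.mem_span_singleton.1 mU)
  have mu := memU X hh
  have mz := X_mem_up (up (Ideal.span {(X : k⟦X⟧)}))
  have pu := ev2_CX _ (φ := (CC : k⟦X⟧ →+* AA k⟦X⟧)) mu mz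
  have pz := ev2_X _ (φ := (CC : k⟦X⟧ →+* AA k⟦X⟧)) (u := C X + h) mz
  have pc := ev2_CC _ (φ := (CC : k⟦X⟧ →+* AA k⟦X⟧)) mu mz
  have hA : ev2 CC (C X + h) X (X * (X - CC β)) = X * (X - CC β) := by
    rw [map_mul, map_sub, pz, pc]
  have hl : coeL k (ev2 (RingHom.id _) U β (1 + cw (dX k⟦X⟧) h)) ≠ 0 :=
    (((unit_lam X hh).map _).map _).ne_zero
  refine ⟨κ, Γ, U, eh, ⟨b0, bn, U0, X_dvd_iff.1 hκ, X_dvd_iff.1 hΓ, eh_dvd X hh he eB, ?_⟩,
    fun I hI => ?_⟩
  · refine CenN.trans (RingHom.id _) (RingHom.id _) (fun _ => rfl) cen v0 b0 constantCoeff_X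
      (ev2 CC (C X + h) X) pc ?_ ?_ U0 b0 ?_ ?_ ?_ hl ?_ ?_
    · rw [pu]
      exact X_dvd_iff.1 (Ideal.mem_span_singleton.1 (mem_up2.1 mu))
    · rw [pz]
      exact X_dvd_iff.1 (Ideal.mem_span_singleton.1 (mem_up2.1 mz))
    · rw [pu, eU, RingHom.id_apply]
    · rw [pz, ev2_X _ mβ, RingHom.id_apply]
    · rw [pu, pz, dX_X, dU_X, mul_one, zero_mul, sub_zero, map_add (cw _), dU_CX]
      exact hl
    · rw [pu, pz, hA, dU_X, zero_mul, add_zero, map_add (cw _), dU_CX]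
    · rw [pu, pz, hA, dX_X, one_mul, map_add (dX _), dX_C, zero_add, eB]
  · obtain ⟨I', hI'⟩ := iif_back X hh hA eB hI
    exact back I' hI'

end Pool.Agent.MP_05b4bd_ag.ES

end MrgPart0

-- ======== part 1: formerly Pool.Agent.MP_05b4bd_ag.esc.Abmk
section MrgPart1

/-! Escaping centres: the form of the chart read on the disc or annulus, and its two ends. -/

namespace Pool.Agent.MP_05b4bd_ag.ES

open PowerSeries LaurentSeries HC

namespace Abmk

variable {R : Type} [CommRing R]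

theorem co2_Xpow (n i l : ℕ) (c : AA R) : co2 i (l + n) (X ^ n * c) = co2 i l c := by
  rw [co2, coeff_X_pow_mul, co2]

theorem co2_Xpow_ne {n i l : ℕ} {c : AA R} (h : co2 i l (X ^ n * c) ≠ 0) :
    ∃ l', l = l' + n ∧ co2 i l' c ≠ 0 := by
  by_cases hl : n ≤ l
  · obtain ⟨l', rfl⟩ := Nat.exists_eq_add_of_le' hl
    exact ⟨l', rfl, by rwa [co2_Xpow] at h⟩
  · exact absurd (by rw [co2, coeff_X_pow_mul', if_neg hl, map_zero]) h

theorem co2_tA (ε e i l : ℕ) (x : AA R) :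
    co2 (i + e) (l + ε * e) (tA R ε ^ e * x) = co2 i l x := by
  rw [tA, mul_pow, ← map_pow, ← pow_mul, mul_assoc, co2, coeff_C_mul, coeff_X_pow_mul,
    coeff_X_pow_mul, co2]

theorem co2_th (ε : ℕ) {M : ℕ} (hM : 1 ≤ M) (g : AA R) (i l : ℕ) :
    co2 i l (ev2 CC (tA R ε) (X ^ M) g) =
      if ε * i ≤ l ∧ M ∣ l - ε * i then co2 i ((l - ε * i) / M) g else 0 := by
  have h : (coeff i (out ε (ev2 CC (tA R ε) (X ^ M) g))).coeff ((l : ℤ) - ε * i) =
      (coeff i (iT (ram R⟦X⟧ M g))).coeff ((l : ℤ) - ε * i) :=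
    congrArg (fun φ : AA R →+* TT R => (coeff i (φ g)).coeff ((l : ℤ) - ε * i)) (out_ev2 ε hM)
  rw [coeff_out, coeff_wL_mul, coeff_iT,
    show (l : ℤ) - ε * i - i * -(ε : ℤ) = l by ring, coeff_coeL] at h
  rw [← co2_swap l i, co2, h]
  by_cases hl : ε * i ≤ l
  · have e : (l : ℤ) - ε * i = ((l - ε * i : ℕ) : ℤ) := by push_cast [Nat.cast_sub hl]; ring
    rw [e, coeff_coeL, ← co2, co2_swap, co2, coeff_ram hM]
    by_cases hd : M ∣ l - ε * i
    · rw [if_pos hd, if_pos ⟨hl, hd⟩, co2]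
    · rw [if_neg hd, if_neg fun h => hd h.2, map_zero]
  · rw [if_neg fun h => hl h.1]
    refine coeff_coeL_neg _ ?_
    have : (l : ℤ) < ((ε * i : ℕ) : ℤ) := by exact_mod_cast Nat.lt_of_not_le hl
    push_cast at this
    omega

theorem th_at (ε : ℕ) {M : ℕ} (hM : 1 ≤ M) (g : AA R) (i m : ℕ) :
    co2 i (ε * i + M * m) (ev2 CC (tA R ε) (X ^ M) g) = co2 i m g := by
  rw [co2_th ε hM, Nat.add_sub_cancel_left, if_pos ⟨Nat.le_add_right _ _, Dvd.intro _ rfl⟩,
    Nat.mul_div_cancel_left _ hM]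

theorem th_ne {ε M : ℕ} (hM : 1 ≤ M) {g : AA R} {i l : ℕ}
    (h : co2 i l (ev2 CC (tA R ε) (X ^ M) g) ≠ 0) : ∃ m, l = ε * i + M * m ∧ co2 i m g ≠ 0 := by
  by_cases hc : ε * i ≤ l ∧ M ∣ l - ε * i
  · obtain ⟨h1, m, hm⟩ := hc
    have e : l = ε * i + M * m := by omega
    exact ⟨m, e, by rwa [e, th_at ε hM] at h⟩
  · exact absurd (by rw [co2_th ε hM, if_neg hc]) h

theorem coeff_thA (ε N d j : ℕ) (c : AA R⟦X⟧) : coeff j (thA R ε N d c) =
    X ^ (N * j) * ev2 CC (tA R ε) (X ^ (d * N)) (coeff j c) := by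
  rw [thA, RingHom.comp_apply, coeff_rescale, coeff_map, ← pow_mul]

theorem fac (ε e n : ℕ) {y : AA R} (h : ∀ i l, co2 i l y ≠ 0 → e ≤ i ∧ n + ε * e ≤ l) :
    ∃ x, y = X ^ n * (tA R ε ^ e * x) := by
  have h1 : X ^ n ∣ y := by
    refine X_pow_dvd_iff.2 fun l hl => PowerSeries.ext fun i => ?_
    by_contra hne
    have := (h i l (by simpa [co2] using hne)).2
    omega
  obtain ⟨y', rfl⟩ := h1
  have h2 : tA R ε ^ e ∣ y' := by
    refine (tA_pow_dvd_iff ε e y').2 fun i l hl => ?_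
    by_contra hne
    have := h i (l + n) (by rwa [co2_Xpow])
    omega
  obtain ⟨x, rfl⟩ := h2
  exact ⟨x, rfl⟩

theorem le_of_dvd {n i : ℕ} {c : R⟦X⟧} (h : X ^ n ∣ c) (hi : coeff i c ≠ 0) : n ≤ i := by
  by_contra hlt
  exact hi (X_pow_dvd_iff.1 h i (by omega))

theorem dvd_succ {n : ℕ} {c : R⟦X⟧} (h : X ^ n ∣ c) (hi : coeff n c = 0) : X ^ (n + 1) ∣ c := by
  refine X_pow_dvd_iff.2 fun i hlt => ?_
  rcases Nat.lt_succ_iff_lt_or_eq.1 hlt with h1 | rfl
  · exact X_pow_dvd_iff.1 h i h1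
  · exact hi

theorem dvd_co2 {t : R} {c : AA R} (h : CC t ∣ c) (i j : ℕ) : t ∣ co2 i j c :=
  (C_dvd_iff t _).1 ((C_dvd_iff (C t) c).1 h j) i

theorem co2_U_zero (n j : ℕ) (b : AA R) : co2 0 j ((n : AA R) * C X * b) = 0 := by
  rw [mul_comm (n : AA R), mul_assoc, co2, coeff_C_mul, coeff_zero_X_mul]

theorem co2_U_succ (n m j : ℕ) (b : AA R) :
    co2 (m + 1) j ((n : AA R) * C X * b) = n * co2 m j b := by
  rw [mul_comm (n : AA R), mul_assoc, co2, coeff_C_mul, coeff_succ_X_mul, ← nsmul_eq_mul,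
    map_nsmul, map_nsmul, nsmul_eq_mul, co2]

/-- The order condition on the coefficients of `z ^ 0`. -/
theorem low {d ε N e : ℕ} (hd : 2 ≤ d) (hε : ε ≤ 1) {c : AA R⟦X⟧}
    (h1 : X ^ (e + N) ∣ co2 1 0 c) (h0 : X ^ (e + (d + 1) * N) ∣ co2 0 0 c)
    (hz : ε = 0 → co2 1 0 c = 0 ∧ co2 0 0 c = 0) (h2 : ∀ m, 2 ≤ m → X ^ e ∣ co2 m 0 c)
    {i m : ℕ} (h : coeff i (co2 m 0 c) ≠ 0) :
    e ≤ i ∧ N * (d + 1) + ε * e ≤ ε * i + d * N * m := by
  have hN : N * (d + 1) = d * N + N := by ring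
  have hN' : (d + 1) * N = d * N + N := by ring
  have hdN : N ≤ d * N := Nat.le_mul_of_pos_left N (by omega)
  rcases m with _ | _ | m
  · have := le_of_dvd h0 h
    obtain rfl | rfl : ε = 0 ∨ ε = 1 := by omega
    · exact absurd (by rw [(hz rfl).2, map_zero]) h
    · omega
  · have := le_of_dvd h1 h
    obtain rfl | rfl : ε = 0 ∨ ε = 1 := by omega
    · exact absurd (by rw [zero_add, (hz rfl).1, map_zero]) h
    · omega
  · have h3 := le_of_dvd (h2 _ (by omega)) h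
    have h4 : ε * e ≤ ε * i := Nat.mul_le_mul_left _ h3
    have h5 : d * N * (m + 1 + 1) = d * N * m + d * N + d * N := by ring
    omega

theorem divA {d ε N : ℕ} (hd : 2 ≤ d) (hε : ε ≤ 1) (hN : 1 ≤ N) {c : AA R⟦X⟧} (ht : CC X ∣ c)
    (hn : ∀ j, 1 ≤ j → j ≤ d → co2 0 j c = 0) (h1 : X ^ (N + 1) ∣ co2 1 0 c)
    (h0 : X ^ ((d + 1) * N + 1) ∣ co2 0 0 c) (hz : ε = 0 → co2 1 0 c = 0 ∧ co2 0 0 c = 0) :
    ∃ a, C (X ^ (N * (d + 1))) * a = thA R ε N d c ∧ C (tA R ε) ∣ a := by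
  have hM : 1 ≤ d * N := Nat.mul_pos (by omega) hN
  have H : ∀ j, ∃ x, coeff j (thA R ε N d c) = X ^ (N * (d + 1)) * (tA R ε ^ 1 * x) := by
    intro j
    refine fac ε 1 _ fun i l h => ?_
    rw [coeff_thA] at h
    obtain ⟨l', rfl, h2⟩ := co2_Xpow_ne h
    obtain ⟨m, rfl, h3⟩ := th_ne hM h2
    have h' : coeff i (co2 m j c) ≠ 0 := h3
    have hi : 1 ≤ i := le_of_dvd (by simpa using dvd_co2 ht m j) h'
    refine ⟨hi, ?_⟩
    have h4 : ε * 1 ≤ ε * i := Nat.mul_le_mul_left _ hi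
    rcases Nat.eq_zero_or_pos j with rfl | hj
    · have := (low (e := 1) hd hε (by rwa [add_comm]) (by rwa [add_comm]) hz
        (fun m _ => by simpa using dvd_co2 ht m 0) h').2
      omega
    · by_cases hjd : j ≤ d
      · have hm : 1 ≤ m := by
          by_contra hm
          obtain rfl : m = 0 := by omega
          exact h' (by rw [hn j hj hjd, map_zero])
        have h5 : d * N * 1 ≤ d * N * m := Nat.mul_le_mul_left _ hm
        have h6 : N * 1 ≤ N * j := Nat.mul_le_mul_left _ hj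
        have h7 : N * (d + 1) = d * N + N := by ring
        omega
      · have h6 : N * (d + 1) ≤ N * j := Nat.mul_le_mul_left _ (by omega)
        omega
  choose x hx using H
  refine ⟨mk fun j => tA R ε * x j, PowerSeries.ext fun j => ?_, (C_dvd_iff _ _).2 fun j => ?_⟩
  · rw [coeff_C_mul, coeff_mk, hx, pow_one]
  · rw [coeff_mk]; exact dvd_mul_right _ _

theorem supp {d ε N : ℕ} (hd : 2 ≤ d) (hN : 1 ≤ N) {c : AA R⟦X⟧} {a : (AA R)⟦X⟧}
    (h : C (X ^ (N * (d + 1))) * a = thA R ε N d c) :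
    (∀ j, SS ε N (coeff j a)) ∧ Supp ε (-N) (d * N) (cc a) := by
  have hM : 1 ≤ d * N := Nat.mul_pos (by omega) hN
  have H : ∀ j i l, co2 i l (coeff j a) ≠ 0 →
      ∃ m, l + N * (d + 1) = ε * i + d * N * m + N * j := by
    intro j i l hne
    rw [← co2_Xpow (N * (d + 1)), ← coeff_C_mul, h, coeff_thA] at hne
    obtain ⟨l', e, hne⟩ := co2_Xpow_ne hne
    obtain ⟨m, rfl, -⟩ := th_ne hM hne
    exact ⟨m, e⟩
  refine ⟨fun j => ⟨fun i l hne => ?_, fun h1 l => ⟨l + N * (d + 1) + 1, fun i hi => ?_⟩⟩,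
    fun i l hne => ?_⟩
  · obtain ⟨m, e⟩ := H j i l hne
    have e' : (l : ℤ) + N * (d + 1) = ε * i + d * N * m + N * j := by exact_mod_cast e
    refine (Int.modEq_iff_dvd.2 ⟨d + 1 - d * m - j, ?_⟩)
    linear_combination -e'
  · by_contra hne
    obtain ⟨m, e⟩ := H j i l hne
    subst h1
    omega
  · obtain ⟨m, e⟩ := H 0 i l (by rwa [coeff_zero_eq_constantCoeff_apply])
    have e' : (l : ℤ) + N * (d + 1) = ε * i + d * N * m + N * 0 := by exact_mod_cast e
    refine (Int.modEq_iff_dvd.2 ⟨1 - m, ?_⟩)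
    push_cast
    linear_combination -e'

theorem thA_UX (ε : ℕ) {N d : ℕ} (hd : 2 ≤ d) (hN : 1 ≤ N) :
    thA R ε N d (C X * X) = C (X ^ (N * (d + 1))) * X := by
  have hM : 1 ≤ d * N := Nat.mul_pos (by omega) hN
  have hq : (X ^ (d * N) : AA R) ∈ up (up (⊥ : Ideal R)) :=
    Ideal.pow_mem_of_mem _ (X_mem_up _) _ hM
  refine PowerSeries.ext fun j => ?_
  rw [coeff_thA, coeff_C_mul, coeff_C_mul, coeff_X]
  split_ifs with hj
  · subst hj
    rw [mul_one, mul_one, mul_one, ev2_X _ hq, ← pow_add]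
    congr 1; ring
  · rw [mul_zero, map_zero, mul_zero, mul_zero]

/-- One end of the annulus. -/
theorem ends {d ε N e : ℕ} (hd : 2 ≤ d) (hε : ε ≤ 1) (hN : 1 ≤ N) {c : AA R⟦X⟧}
    {a : (AA R)⟦X⟧} (h : C (X ^ (N * (d + 1))) * a = thA R ε N d c)
    (h1 : X ^ (e + N) ∣ co2 1 0 c) (h0 : X ^ (e + (d + 1) * N) ∣ co2 0 0 c)
    (hz : ε = 0 → co2 1 0 c = 0 ∧ co2 0 0 c = 0) (h2 : ∀ m, 2 ≤ m → X ^ e ∣ co2 m 0 c) :
    ∃ a0, cc a = tA R ε ^ e * a0 ∧ Supp ε (-N) (d * N) a0 ∧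
      (red a0 = 0 → ∀ m, 2 ≤ m → coeff e (co2 m 0 c) = 0) ∧
      (ε = 1 → cc a0 = 0 → coeff (e + N) (co2 1 0 c) = 0 ∧
        coeff (e + (d + 1) * N) (co2 0 0 c) = 0) := by
  have hM : 1 ≤ d * N := Nat.mul_pos (by omega) hN
  have hN1 : N * (d + 1) = d * N + N := by ring
  have hdN : N ≤ d * N := Nat.le_mul_of_pos_left N (by omega)
  have E : X ^ (N * (d + 1)) * cc a = ev2 CC (tA R ε) (X ^ (d * N)) (coeff 0 c) := by
    have := congrArg (coeff 0) h
    rwa [coeff_C_mul, coeff_thA, mul_zero, pow_zero, one_mul,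
      coeff_zero_eq_constantCoeff_apply] at this
  obtain ⟨x, hx⟩ : ∃ x, ev2 CC (tA R ε) (X ^ (d * N)) (coeff 0 c) =
      X ^ (N * (d + 1)) * (tA R ε ^ e * x) := by
    refine fac ε e _ fun i l hne => ?_
    obtain ⟨m, rfl, hne'⟩ := th_ne hM hne
    exact low hd hε h1 h0 hz h2 hne'
  have ha : cc a = tA R ε ^ e * x := X_pow_mul_cancel (E.trans hx)
  have K : ∀ i l, co2 i l x = co2 (i + e) (l + ε * e + N * (d + 1))
      (ev2 CC (tA R ε) (X ^ (d * N)) (coeff 0 c)) := fun i l => by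
    rw [hx, co2_Xpow, co2_tA]
  have K' : ∀ i l m, l + N * (d + 1) = ε * i + d * N * m →
      co2 i l x = coeff (e + i) (co2 m 0 c) := fun i l m hm => by
    rw [K, show l + ε * e + N * (d + 1) = ε * (i + e) + d * N * m by rw [mul_add ε]; omega,
      th_at ε hM, add_comm]
    rfl
  refine ⟨x, ha, fun i l hne => ?_, fun hr m hm => ?_, fun h1 hc => ?_⟩
  · rw [K] at hne
    obtain ⟨m, e1, -⟩ := th_ne hM hne
    have e' : (l : ℤ) + ε * e + N * (d + 1) = ε * (i + e) + d * N * m := by exact_mod_cast e1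
    refine (Int.modEq_iff_dvd.2 ⟨1 - m, ?_⟩)
    push_cast
    linear_combination -e'
  · have h5 : d * N * 2 ≤ d * N * m := Nat.mul_le_mul_left _ hm
    have := K' 0 (d * N * m - N * (d + 1)) m (by omega)
    rw [add_zero] at this
    rw [← this, co2, coeff_zero_eq_constantCoeff_apply, ← coeff_red, hr, map_zero]
  · subst h1
    have z : ∀ i, co2 i 0 x = 0 := fun i => by
      rw [co2, coeff_zero_eq_constantCoeff_apply, hc, map_zero]
    exact ⟨by rw [← K' N 0 1 (by omega), z], by rw [← K' ((d + 1) * N) 0 0 (by ring), z]⟩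

theorem co2_neg (i j : ℕ) (c : AA R) : co2 i j (-c) = -co2 i j c := by
  rw [co2, map_neg, map_neg, co2]

theorem co2_nat (n i j : ℕ) (c : AA R) : co2 i j ((n : AA R) * c) = n * co2 i j c := by
  rw [co2, ← nsmul_eq_mul, map_nsmul, map_nsmul, nsmul_eq_mul, co2]

theorem co2_fB (d i : ℕ) (e : AA R) : co2 i 0 (fB d e) = -co2 i 0 e := by
  rw [fB, co2_neg, co2_add, co2, coeff_zero_mul_X, map_zero, zero_add]

theorem coeff_nat (n i : ℕ) (c : R⟦X⟧) : coeff i ((n : R⟦X⟧) * c) = n * coeff i c := by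
  rw [← nsmul_eq_mul, map_nsmul, nsmul_eq_mul]

end Abmk

open Abmk

theorem abmkS : AbmkStmt := by
  intro k _ _ d ε N o hd hε hN hb h1 h0 hz
  obtain ⟨a, ha, ta⟩ := divA hd hε hN o.te o.ne h1 h0 fun h => (hz h).2
  obtain ⟨b, hb', tb⟩ := divA (c := (d : AA k⟦X⟧) * C X * o.b + o.e) hd hε hN
    (dvd_add (o.tb.mul_left _) o.te)
    (fun j hj hj' => by rw [co2_add, co2_U_zero, o.ne j hj hj', add_zero])
    (by rw [co2_add, co2_U_succ d 0]; exact dvd_add (hb.mul_left _) h1)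
    (by rwa [co2_add, co2_U_zero, zero_add])
    (fun h => by
      rw [co2_add, co2_add, co2_U_zero, co2_U_succ d 0, (hz h).1, (hz h).2.1, (hz h).2.2]
      simp)
  have e1 : C (X ^ (N * (d + 1))) * (-((d : (AA k)⟦X⟧) * X + a)) = thA k ε N d (fB d o.e) := by
    rw [fB, map_neg, map_add, mul_assoc, map_mul, map_natCast, thA_UX ε hd hN, ← ha]
    ring
  have e2 : C (X ^ (N * (d + 1))) * (-((N : (AA k)⟦X⟧) * b)) =
      (N : (AA k)⟦X⟧) * thA k ε N d ((d : AA k⟦X⟧) * C X * (X - o.b) + fB d o.e) := by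
    rw [show (d : AA k⟦X⟧) * C X * (X - o.b) + fB d o.e = -((d : AA k⟦X⟧) * C X * o.b + o.e) by
      rw [fB]; ring, map_neg, ← hb']
    ring
  have s1 := supp hd hN e1
  have s2 := supp hd hN (e2.trans (by rw [← map_natCast (thA k ε N d), ← map_mul]))
  refine ⟨_, _, e1, e2, ?_, (tb.mul_left _).neg_right, s1.1, s2.1, s1.2, s2.2⟩
  rw [show -((d : (AA k)⟦X⟧) * X + a) + (d : (AA k)⟦X⟧) * X = -a by ring]
  exact ta.neg_right

theorem bendS : BendStmt := by
  intro k _ _ d ε N e o a b hd hε hN h hb h1 h0 hz hin hb' he' hout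
  have hd0 : (d : k) ≠ 0 := Nat.cast_ne_zero.2 (by omega)
  have hN0 : (N : k) ≠ 0 := Nat.cast_ne_zero.2 (by omega)
  have e2 : C (X ^ (N * (d + 1))) * b =
      thA k ε N d (-((N : AA k⟦X⟧) * ((d : AA k⟦X⟧) * C X * o.b + o.e))) := by
    rw [h.2.1, map_neg, map_mul _ (N : AA k⟦X⟧), map_natCast, ← mul_neg, ← map_neg, fB]
    exact congrArg (fun s => (N : (AA k)⟦X⟧) * thA k ε N d s) (by ring)
  have c0 : co2 0 0 (-((N : AA k⟦X⟧) * ((d : AA k⟦X⟧) * C X * o.b + o.e))) =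
      -(N * co2 0 0 o.e) := by
    rw [co2_neg, co2_nat, co2_add, co2_U_zero, zero_add]
  have cs : ∀ m, co2 (m + 1) 0 (-((N : AA k⟦X⟧) * ((d : AA k⟦X⟧) * C X * o.b + o.e))) =
      -(N * (d * co2 m 0 o.b + co2 (m + 1) 0 o.e)) := fun m => by
    rw [co2_neg, co2_nat, co2_add, co2_U_succ]
  obtain ⟨a0, ha, sa, ra, ia⟩ := ends (e := e) hd hε hN h.1 (by rw [co2_fB]; exact h1.neg_right)
    (by rw [co2_fB]; exact h0.neg_right)
    (fun h => by rw [co2_fB, co2_fB, (hz h).2.1, (hz h).2.2, neg_zero]; exact ⟨rfl, rfl⟩)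
    (fun m hm => by rw [co2_fB]; exact (he' m hm).neg_right)
  obtain ⟨b0, hb0, sb, rb, ib⟩ := ends (e := e) hd hε hN e2
    (by rw [cs 0]; exact ((dvd_add (hb.mul_left _) h1).mul_left _).neg_right)
    (by rw [c0]; exact (h0.mul_left _).neg_right)
    (fun h => by rw [cs 0, c0, (hz h).1, (hz h).2.1, (hz h).2.2]; simp)
    (fun m hm => by
      obtain ⟨m, rfl⟩ : ∃ m', m = m' + 1 := ⟨m - 1, by omega⟩
      rw [cs]
      exact ((dvd_add ((hb' m (by omega)).mul_left _) (he' _ hm)).mul_left _).neg_right)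
  have canc : ∀ n m, coeff n (co2 (m + 1) 0 o.e) = 0 →
      coeff n (co2 (m + 1) 0 (-((N : AA k⟦X⟧) * ((d : AA k⟦X⟧) * C X * o.b + o.e)))) = 0 →
      coeff n (co2 m 0 o.b) = 0 := fun n m u v => by
    rw [cs, map_neg, coeff_nat, map_add, coeff_nat, u, add_zero, neg_eq_zero] at v
    exact (mul_eq_zero.1 ((mul_eq_zero.1 v).resolve_left hN0)).resolve_left hd0
  refine ⟨a0, b0, ha, hb0, sa, sb, ?_, fun h1' => ?_⟩
  · by_contra hc
    rw [not_or, not_not, not_not] at hc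
    have ze : ∀ m, 2 ≤ m → coeff e (co2 m 0 o.e) = 0 := fun m hm => by
      have := ra hc.1 m hm
      rwa [co2_fB, map_neg, neg_eq_zero] at this
    exact hout ⟨fun i hi => dvd_succ (hb' i hi)
      (canc e i (ze _ (by omega)) (rb hc.2 _ (by omega))),
      fun i hi => dvd_succ (he' i hi) (ze i hi)⟩
  · by_contra hc
    rw [not_or, not_not, not_not] at hc
    obtain ⟨u1, u0⟩ := ia h1' hc.1
    rw [co2_fB, map_neg, neg_eq_zero] at u1 u0
    exact hin h1' ⟨dvd_succ hb (canc _ 0 u1 (ib h1' hc.2).1), dvd_succ h1 u1, dvd_succ h0 u0⟩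

end Pool.Agent.MP_05b4bd_ag.ES

end MrgPart1

-- ======== part 2: formerly Pool.Agent.MP_05b4bd_ag.esc.Lien
section MrgPart2

/-! The Lienard form: rows LIEN and LIENA. -/

namespace Pool.Agent.MP_05b4bd_ag.ES

open PowerSeries

namespace Lien

variable {S : Type} [CommRing S]

theorem fix_on (t : S) [IsAdicComplete (Ideal.span {t}) S] (T : S → S)
    (hS : ∀ x, t ∣ x → t ∣ T x)
    (hT : ∀ k x y, t ∣ x → t ∣ y → t ^ k ∣ x - y → t ^ (k + 1) ∣ T x - T y) :
    ∃ x, t ∣ x ∧ T x = x ∧ ∀ n, t ^ n ∣ x - T^[n] 0 := by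
  have h1 : ∀ n, t ∣ T^[n] 0 := fun n => by
    induction n with
    | zero => simp
    | succ n ih => rw [Function.iterate_succ_apply']; exact hS _ ih
  have h2 : ∀ n, t ^ n ∣ T^[n + 1] 0 - T^[n] 0 := fun n => by
    induction n with
    | zero => simp
    | succ n ih =>
      have := hT n _ _ (h1 _) (h1 _) ih
      rwa [← Function.iterate_succ_apply' T, ← Function.iterate_succ_apply' T] at this
  obtain ⟨x, hx⟩ := lim_dvd t (f := fun n => T^[n] 0) h2
  have h3 : t ∣ x := by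
    have := dvd_add (by simpa using hx 1 : t ∣ x - T^[1] 0) (h1 1)
    rwa [sub_add_cancel] at this
  refine ⟨x, h3, sub_eq_zero.1 (haus_dvd t fun n => ?_), hx⟩
  have a := hT n _ _ h3 (h1 n) (hx n)
  rw [← Function.iterate_succ_apply' T] at a
  have := dvd_sub a (hx (n + 1))
  rw [sub_sub_sub_cancel_right] at this
  exact (pow_dvd_pow t n.le_succ).trans this

theorem dvd_mul_small {t u v b : S} {k : ℕ} (h : t ^ k ∣ u - v) (hb : t ∣ b) :
    t ^ (k + 1) ∣ u * b - v * b := by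
  rw [← sub_mul, pow_succ]; exact mul_dvd_mul h hb

theorem dvd_mul_cg {s u v u' v' : S} (h : s ∣ u - u') (h' : s ∣ v - v') :
    s ∣ u * v - u' * v' := by
  have : u * v - u' * v' = u * (v - v') + (u - u') * v' := by ring
  rw [this]; exact dvd_add (h'.mul_left _) (h.mul_right _)

theorem dvd_mul_both {t u v u' v' : S} {k : ℕ} (hu : t ∣ u) (hv : t ∣ v')
    (h : t ^ k ∣ u - u') (h' : t ^ k ∣ v - v') : t ^ (k + 1) ∣ u * v - u' * v' := by
  have : u * v - u' * v' = (v - v') * u + (u - u') * v' := by ring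
  rw [this, pow_succ]; exact dvd_add (mul_dvd_mul h' hu) (mul_dvd_mul h hv)

theorem unit_of_dvd (t : S) [IsAdicComplete (Ideal.span {t}) S] {u : S} (h : t ∣ u - 1) :
    IsUnit u :=
  unit_of_sub_mem (Ideal.span {t}) isUnit_one (Ideal.mem_span_singleton.2 h)

theorem dvd_int {t : S} {J : S →+ S} (hJ : ∀ x, J (t * x) = t * J x) {n : ℕ} {x : S}
    (h : t ^ n ∣ x) : t ^ n ∣ J x := by
  obtain ⟨y, rfl⟩ := h
  induction n generalizing y with
  | zero => simp
  | succ n ih =>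
    rw [pow_succ', mul_assoc, hJ]
    exact mul_dvd_mul_left _ (ih y)

/-- Division by `X ^ 2`. -/
noncomputable def sh2 (x : S⟦X⟧) : S⟦X⟧ := mk fun n => coeff (n + 2) x

theorem sh2_eq (x : S⟦X⟧) : x = X ^ 2 * sh2 x + C (coeff 0 x) + X * C (coeff 1 x) := by
  ext n
  rcases n with _ | _ | n
  · simp
  · simp [coeff_X_pow_mul']
  · rw [map_add, map_add, show n + 1 + 1 = n + 2 from rfl, coeff_X_pow_mul, coeff_succ_X_mul]
    simp [sh2]

/-- The contraction. -/
noncomputable def lienT (D J : S →+ S) (a b x : S⟦X⟧) : S⟦X⟧ :=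
  (X ^ 2 - (1 + cw J (sh2 x)) * a ^ 2) * sh2 x + (X - (1 + cw J (sh2 x)) * a) * C (coeff 1 x) +
    (1 + cw J (sh2 x)) * dX S ((1 + cw J (sh2 x)) * a) * b -
    (1 + cw J (sh2 x)) ^ 2 * a * cw D a

theorem lienT_fix {t : S} [IsAdicComplete (Ideal.span {t}) S] {D J : S →+ S} (hD : IsDer D)
    (hDt : D t = 0) (hJt : ∀ x, J (t * x) = t * J x) {a b : S⟦X⟧} (ha : C t ∣ a - X)
    (hb : C t ∣ b) :
    ∃ x, C t ∣ x ∧ lienT D J a b x = x ∧ ∀ n, C t ^ n ∣ x - (lienT D J a b)^[n] 0 := by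
  have hDa : C t ∣ cw D a := by
    have := hD.coefw.dvd (t := C t) (n := 1) (a := a - X) (by rw [cw_C, hDt, map_zero])
      (by simpa using ha)
    rwa [map_sub, cw_X hD.one, sub_zero, pow_one] at this
  have hm : ∀ {n : ℕ} {x y : S⟦X⟧}, C t ^ n ∣ x - y → C t ^ n ∣ sh2 x - sh2 y := fun h =>
    (C_pow_dvd_iff _ _ _).2 fun i => by simpa [sh2] using (C_pow_dvd_iff _ _ _).1 h (i + 2)
  have hn : ∀ {n : ℕ} {x y : S⟦X⟧}, C t ^ n ∣ x - y →
      C t ^ n ∣ (1 + cw J (sh2 x)) - (1 + cw J (sh2 y)) := fun h => by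
    rw [add_sub_add_left_eq_sub, ← map_sub]
    exact (C_pow_dvd_iff _ _ _).2 fun i => by
      rw [coeff_cw]; exact dvd_int hJt ((C_pow_dvd_iff _ _ _).1 (hm h) i)
  have hc : ∀ {n : ℕ} {x y : S⟦X⟧}, C t ^ n ∣ x - y →
      C t ^ n ∣ C (coeff 1 x) - C (coeff 1 y) := fun h => by
    rw [← map_sub, ← map_sub, ← map_pow]
    exact map_dvd _ ((C_pow_dvd_iff _ _ _).1 h 1)
  have s0 : sh2 (0 : S⟦X⟧) = 0 := by ext n; simp [sh2]
  have hm1 : ∀ {x : S⟦X⟧}, C t ∣ x → C t ∣ sh2 x := fun {x} h => by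
    simpa [s0] using hm (n := 1) (x := x) (y := 0) (by simpa using h)
  have hc1 : ∀ {x : S⟦X⟧}, C t ∣ x → C t ∣ C (coeff 1 x) := fun {x} h => by
    simpa using hc (n := 1) (x := x) (y := 0) (by simpa using h)
  have hn1 : ∀ {x : S⟦X⟧}, C t ∣ x → C t ∣ (1 + cw J (sh2 x)) - 1 := fun {x} h => by
    simpa [s0] using hn (n := 1) (x := x) (y := 0) (by simpa using h)
  have hp : ∀ {x : S⟦X⟧}, C t ∣ x → C t ∣ X - (1 + cw J (sh2 x)) * a := fun h => by
    simpa using dvd_sub_comm.1 (dvd_mul_cg (hn1 h) ha)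
  have hq : ∀ {x : S⟦X⟧}, C t ∣ x → C t ∣ X ^ 2 - (1 + cw J (sh2 x)) * a ^ 2 :=
    fun {x} h => by
      have := dvd_mul_cg (hp h) (dvd_sub_comm.1 ha)
      rwa [mul_assoc, ← sq, ← sq] at this
  refine fix_on (C t) _ (fun x hx => ?_) fun n x y hx hy h => ?_
  · exact dvd_sub (dvd_add (dvd_add ((hm1 hx).mul_left _) ((hc1 hx).mul_left _)) (hb.mul_left _))
      (hDa.mul_left _)
  · have e1 := dvd_mul_both (hq hx) (hm1 hy) (u' := X ^ 2 - (1 + cw J (sh2 y)) * a ^ 2)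
      (by rw [sub_sub_sub_cancel_left, ← sub_mul]; exact (dvd_sub_comm.1 (hn h)).mul_right _)
      (hm h)
    have e2 := dvd_mul_both (hp hx) (hc1 hy) (u' := X - (1 + cw J (sh2 y)) * a)
      (by rw [sub_sub_sub_cancel_left, ← sub_mul]; exact (dvd_sub_comm.1 (hn h)).mul_right _)
      (hc h)
    have e3 := dvd_mul_small (dvd_mul_cg (hn h)
      (v := dX S ((1 + cw J (sh2 x)) * a)) (v' := dX S ((1 + cw J (sh2 y)) * a))
      (by rw [← map_sub, ← sub_mul]; exact isDer_dX.dvd (dX_C t) ((hn h).mul_right _))) hb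
    have e4 := dvd_mul_small (dvd_mul_cg (dvd_mul_cg (hn h) (hn h)) (v := a) (v' := a)
      (by simp)) hDa
    have := dvd_sub (dvd_add (dvd_add e1 e2) e3) e4
    convert this using 1
    simp only [lienT]; ring

/-- Power series with coefficients in a subring. -/
def psub (T : Subring S) : Subring S⟦X⟧ where
  carrier := {f | ∀ j, coeff j f ∈ T}
  mul_mem' hf hg j := by
    rw [coeff_mul]; exact sum_mem fun p _ => mul_mem (hf _) (hg _)
  one_mem' j := by rw [coeff_one]; split_ifs; exacts [one_mem _, zero_mem _]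
  add_mem' hf hg j := by rw [map_add]; exact add_mem (hf _) (hg _)
  zero_mem' j := by rw [map_zero]; exact zero_mem _
  neg_mem' hf j := by rw [map_neg]; exact neg_mem (hf _)

theorem C_mem {T : Subring S} {c : S} (h : c ∈ T) : C c ∈ psub T := fun j => by
  rw [coeff_C]; split_ifs; exacts [h, zero_mem _]

theorem X_mem (T : Subring S) : X ∈ psub T := fun j => by
  rw [coeff_X]; split_ifs; exacts [one_mem _, zero_mem _]

theorem lienT_mem {T : Subring S} {D J : S →+ S} (hD : ∀ c ∈ T, D c ∈ T) (hJ : ∀ c ∈ T, J c ∈ T)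
    {a b x : S⟦X⟧} (ha : a ∈ psub T) (hb : b ∈ psub T) (hx : x ∈ psub T) :
    lienT D J a b x ∈ psub T := by
  have h1 : sh2 x ∈ psub T := fun j => by simpa [sh2] using hx (j + 2)
  have h2 : 1 + cw J (sh2 x) ∈ psub T :=
    add_mem (one_mem _) fun j => by rw [coeff_cw]; exact hJ _ (h1 j)
  have h3 : cw D a ∈ psub T := fun j => by rw [coeff_cw]; exact hD _ (ha j)
  have h4 : dX S ((1 + cw J (sh2 x)) * a) ∈ psub T := fun j => by
    rw [coeff_dX]
    exact mul_mem (mul_mem h2 ha (j + 1)) (add_mem (natCast_mem _ _) (one_mem _))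
  exact sub_mem (add_mem (add_mem
    (mul_mem (sub_mem (pow_mem (X_mem T) _) (mul_mem h2 (pow_mem ha _))) h1)
    (mul_mem (sub_mem (X_mem T) (mul_mem h2 ha)) (C_mem (hx 1)))) (mul_mem (mul_mem h2 h4) hb))
    (mul_mem (mul_mem (pow_mem h2 _) ha) h3)

theorem lien_gen {t : S} [IsAdicComplete (Ideal.span {t}) S] {D J : S →+ S} (hD : IsDer D)
    (hDt : D t = 0) (hJ : ∀ x, D (J x) = x) (hJt : ∀ x, J (t * x) = t * J x) {a b : S⟦X⟧}
    {c c' : S} (hc' : c * c' = 1) (ha : C t ∣ a - C c * X) (hb : C t ∣ b) :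
    ∃ Wt lam g0 g1, LD t D a b Wt lam (J g0) (J g1) ∧
      ∀ T : Subring S, (∀ s ∈ T, D s ∈ T) → (∀ s ∈ T, J s ∈ T) →
        (∀ s, (∀ n, ∃ r ∈ T, t ^ n ∣ s - r) → s ∈ T) → c' ∈ T → (∀ j, coeff j a ∈ T) →
        (∀ j, coeff j b ∈ T) → g0 ∈ T ∧ g1 ∈ T := by
  have hC : (C c : S⟦X⟧) * C c' = 1 := by rw [← map_mul, hc', map_one]
  have ha' : C t ∣ C c' * a - X := by
    have := ha.mul_left (C c')
    convert this using 1
    linear_combination X * hC
  obtain ⟨x, hx, hT, hu⟩ := lienT_fix hD hDt hJt ha' ((hb.mul_left X).mul_left (C c'))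
  set a1 := C c' * a with ha1
  set μ := 1 + cw J (sh2 x) with hμ
  have hμ1 : C t ∣ μ - 1 := by
    rw [hμ, add_sub_cancel_left]
    refine (C_dvd_iff _ _).2 fun i => ?_
    have := dvd_int hJt (n := 1) (x := coeff (i + 2) x) (by simpa using (C_dvd_iff _ _).1 hx _)
    simpa [sh2, coeff_cw] using this
  have hφ : C t ∣ μ * a1 - X := by simpa using dvd_mul_cg hμ1 ha'
  have hφ' : C t ∣ dX S (μ * a1) - 1 := by
    have := isDer_dX.dvd (dX_C t) (n := 1) (a := μ * a1 - X) (by simpa using hφ)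
    rwa [map_sub, dX_X, pow_one] at this
  have hDμ : cw D μ = sh2 x := by
    rw [hμ, map_add, hD.coefw.one, zero_add]
    ext n; simp [hJ, coeff_cw]
  refine ⟨μ * a1, μ * dX S (μ * a1) * C c', -coeff 0 x, -coeff 1 x,
    ⟨((unit_of_dvd _ hμ1).mul (unit_of_dvd _ hφ')).mul (IsUnit.of_mul_eq_one_right _ hC), hφ,
      by rw [ha1]; ring, ?_⟩, fun T h1 h2 h3 h4 h5 h6 => ?_⟩
  · rw [hJ, hJ, hD.coefw, hDμ, map_neg, map_neg]
    have e := sh2_eq x
    rw [lienT, ← hμ] at hT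
    linear_combination -hT - e
  · have k1 : ∀ n, (lienT D J a1 (C c' * (X * b)))^[n] 0 ∈ psub T := fun n => by
      induction n with
      | zero => exact zero_mem _
      | succ n ih =>
        rw [Function.iterate_succ_apply']
        exact lienT_mem h1 h2 (mul_mem (C_mem h4) h5)
          (mul_mem (C_mem h4) (mul_mem (X_mem T) h6)) ih
    have k2 : ∀ j, coeff j x ∈ T := fun j => h3 _ fun n =>
      ⟨_, k1 n j, by simpa using (C_pow_dvd_iff _ _ _).1 (hu n) j⟩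
    exact ⟨neg_mem (k2 0), neg_mem (k2 1)⟩

theorem coeff_zero_mul (f g : S⟦X⟧) : coeff 0 (f * g) = coeff 0 f * coeff 0 g := by simp

theorem coeff_one_mul' (f g : S⟦X⟧) :
    coeff 1 (f * g) = coeff 0 f * coeff 1 g + coeff 1 f * coeff 0 g := by
  simp [coeff_mul, Finset.Nat.antidiagonal_succ]

theorem lead {t : S} [IsAdicComplete (Ideal.span {t}) S] {D : S →+ S} (hD : IsDer D)
    (hDt : D t = 0) {a b Wt lam : S⟦X⟧} {G0 G1 c : S} (hc : D c = 0)
    (ha : C t ∣ a - C c * X) (h : LD t D a b Wt lam G0 G1) :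
    Lead c t D (cc a) (cc b) G0 G1 := by
  obtain ⟨r0, hr0⟩ := (C_dvd_iff _ _).1 h.w 0
  obtain ⟨r1, hr1⟩ := (C_dvd_iff _ _).1 h.w 1
  obtain ⟨s0, hs0⟩ := (C_dvd_iff _ _).1 ha 0
  obtain ⟨s1, hs1⟩ := (C_dvd_iff _ _).1 ha 1
  have e10 := congrArg (coeff 0) h.ea
  have e11 := congrArg (coeff 1) h.ea
  have e20 := congrArg (coeff 0) h.eb
  have e21 := congrArg (coeff 1) h.eb
  rw [mul_left_comm, coeff_succ_X_mul] at e21
  rw [mul_left_comm, map_sub, map_sub, coeff_zero_X_mul] at e20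
  simp only [map_sub, coeff_zero_mul, coeff_one_mul', coeff_dX, coeff_cw, coeff_C,
    coeff_X] at e10 e11 e20 e21 hr0 hr1 hs0 hs1
  norm_num at e10 e11 e20 e21 hr0 hr1 hs0 hs1
  obtain ⟨q, hq⟩ := (unit_of_dvd t ⟨r1, hr1⟩).exists_right_inv
  change Lead c t D (constantCoeff a) (constantCoeff b) G0 G1
  generalize constantCoeff a = a0 at *
  generalize constantCoeff b = b0 at *
  generalize constantCoeff Wt = p0 at *
  generalize constantCoeff lam = l0 at *
  generalize coeff 1 Wt = p1 at *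
  generalize coeff 2 Wt = p2 at *
  generalize coeff 1 lam = l1 at *
  generalize coeff 1 a = a1 at *
  obtain ⟨v, hv⟩ : ∃ v, c * l0 * q = 1 + t * v :=
    ⟨q * (r1 + r1 * (t * r1) + 2 * r0 * p2 - l0 * s1 - l1 * s0), by
      linear_combination (-q) * e11 + hq + q * (p1 + t * r1) * hr1 + 2 * q * p2 * hr0 -
        q * l0 * hs1 - q * l1 * hs0⟩
  have f0 : c * p0 = a0 * (1 + t * v) := by
    linear_combination c * q * e10 - c * p0 * hq + a0 * hv
  have f1 : D p1 = t * D r1 := by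
    have := congrArg D hr1
    rw [map_sub, hD.one, hD, hDt] at this
    linear_combination this
  have f2 : c * D p0 = D a0 * (1 + t * v) + a0 * (t * D v) := by
    have := congrArg D f0
    rw [hD, hc, hD, map_add, hD.one, hD, hDt] at this
    linear_combination this
  have f3 : D G1 = D p0 + q * (p0 * (t * D r1) - l0 * b0) := by
    rw [← f1]
    linear_combination (-q) * e21 + (D p0 - D G1) * hq
  refine ⟨⟨D v + q * (1 + t * v) * D r1, v, -v, ?_⟩,
    -(q * (1 + t * v) ^ 2 * D r1), 2 * v + t * v ^ 2, ?_⟩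
  · rw [f3]
    linear_combination f2 + q * t * D r1 * f0 - b0 * hv
  · have f4 : D G0 = p0 * (D p0 - D G1) := by linear_combination -e20
    rw [f4, f3]
    linear_combination (c * l0 * q * b0 - q * t * D r1 * (c * p0 + a0 * (1 + t * v))) * f0 +
      a0 * (1 + t * v) * b0 * hv

/-- Power series with finitely many terms. -/
def fin (S : Type) [CommRing S] : Subring S⟦X⟧ where
  carrier := {f | ∃ n, ∀ i, n ≤ i → coeff i f = 0}
  mul_mem' := by
    rintro f g ⟨m, hm⟩ ⟨n, hn⟩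
    refine ⟨m + n, fun i hi => ?_⟩
    rw [coeff_mul]
    refine Finset.sum_eq_zero fun p hp => ?_
    have := Finset.HasAntidiagonal.mem_antidiagonal.1 hp
    by_cases h : m ≤ p.1
    · rw [hm _ h, zero_mul]
    · rw [hn _ (by omega), mul_zero]
  one_mem' := ⟨1, fun i hi => by rw [coeff_one, if_neg (by omega)]⟩
  add_mem' := by
    rintro f g ⟨m, hm⟩ ⟨n, hn⟩
    exact ⟨m + n, fun i hi => by rw [map_add, hm _ (by omega), hn _ (by omega), add_zero]⟩
  zero_mem' := ⟨0, fun _ _ => map_zero _⟩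
  neg_mem' := by
    rintro f ⟨m, hm⟩
    exact ⟨m, fun i hi => by rw [map_neg, hm _ hi, neg_zero]⟩

theorem supp_CC (ε N : ℕ) (r : S) : Supp ε 0 N (CC r) := by
  intro i j h
  have : i = 0 ∧ j = 0 := by
    by_contra hn
    apply h
    simp only [co2, CC_apply, coeff_C]
    split_ifs with h1
    · rw [coeff_C, if_neg fun h2 => hn ⟨h2, h1⟩]
    · exact map_zero _
  simp [this.1, this.2]

/-- The subring of the series with property `SS`. -/
def ssub (S : Type) [CommRing S] (ε N : ℕ) : Subring (AA S) where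
  carrier := {c | SS ε N c}
  mul_mem' := by
    rintro a b ⟨ha, ha'⟩ ⟨hb, hb'⟩
    refine ⟨fun i j h => ?_, fun h => (psub (fin S)).mul_mem (ha' h) (hb' h)⟩
    simp only [co2, coeff_mul, map_sum] at h
    obtain ⟨p, hp, h⟩ := Finset.exists_ne_zero_of_sum_ne_zero h
    obtain ⟨q, hq, h⟩ := Finset.exists_ne_zero_of_sum_ne_zero h
    have := (ha _ _ (left_ne_zero_of_mul h)).add (hb _ _ (right_ne_zero_of_mul h))
    rw [← Finset.HasAntidiagonal.mem_antidiagonal.1 hp, ← Finset.HasAntidiagonal.mem_antidiagonal.1 hq]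
    convert this using 1
    · push_cast; ring
    · simp
  one_mem' := ⟨by simpa using supp_CC ε N (1 : S), fun _ => (psub (fin S)).one_mem⟩
  add_mem' := by
    rintro a b ⟨ha, ha'⟩ ⟨hb, hb'⟩
    refine ⟨fun i j h => ?_, fun h => (psub (fin S)).add_mem (ha' h) (hb' h)⟩
    by_cases h1 : co2 i j a = 0
    · refine hb i j fun h2 => h ?_
      simp only [co2, map_add] at h1 h2 ⊢
      rw [h1, h2, add_zero]
    · exact ha i j h1
  zero_mem' := ⟨fun i j h => absurd (by simp [co2]) h, fun _ => (psub (fin S)).zero_mem⟩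
  neg_mem' := by
    rintro a ⟨ha, ha'⟩
    exact ⟨fun i j h => ha i j (by simpa [co2] using h), fun h => (psub (fin S)).neg_mem (ha' h)⟩

theorem ss_of_supp {ε N : ℕ} {a b : AA S} (h : ∀ i j, co2 i j a = 0 → co2 i j b = 0)
    (ha : SS ε N a) : SS ε N b :=
  ⟨fun i j h1 => ha.1 i j fun h2 => h1 (h i j h2), fun he j =>
    let ⟨n, hn⟩ := ha.2 he j
    ⟨n, fun i hi => h i j (hn i hi)⟩⟩

theorem ss_closed {ε N : ℕ} (s : AA S) (h : ∀ n, ∃ r ∈ ssub S ε N, tA S ε ^ n ∣ s - r) :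
    s ∈ ssub S ε N := by
  have key : ∀ n, ∃ r, SS ε N r ∧ ∀ i j, i < n ∨ j < ε * n → co2 i j s = co2 i j r := fun n => by
    obtain ⟨r, hr, hd⟩ := h n
    refine ⟨r, hr, fun i j hij => ?_⟩
    have := (tA_pow_dvd_iff ε n _).1 hd i j hij
    simp only [co2, map_sub] at this ⊢
    exact sub_eq_zero.1 this
  refine ⟨fun i j h1 => ?_, fun he j => ?_⟩
  · obtain ⟨r, hr, e⟩ := key (i + 1)
    exact hr.1 i j (by rwa [← e i j (Or.inl i.lt_succ_self)])
  · obtain ⟨r, hr, e⟩ := key (j + 1)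
    obtain ⟨n, hn⟩ := hr.2 he j
    exact ⟨n, fun i hi => by rw [e i j (Or.inr (by rw [he]; omega)), hn i hi]⟩

theorem co2_tA_mul (ε i j : ℕ) (s : AA S) :
    co2 i j (tA S ε * s) = if 1 ≤ i ∧ ε ≤ j then co2 (i - 1) (j - ε) s else 0 := by
  rw [co2, tA, mul_assoc, coeff_C_mul, coeff_X_pow_mul']
  cases i with
  | zero => rw [coeff_zero_X_mul, if_neg (by omega)]
  | succ i =>
    rw [coeff_succ_X_mul]
    split_ifs with h1 h2 h2
    · rfl
    · exact absurd ⟨by omega, h1⟩ h2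
    · exact absurd h2.2 h1
    · exact map_zero _

variable {k : Type} [Field k] [CharZero k]

theorem exists_inv_der (m : ℤ) : ∃ L : Polynomial k →ₗ[k] Polynomial k,
    ∀ p, (m : Polynomial k) * L p + Polynomial.derivative (L p) = p := by
  let E : Polynomial k →ₗ[k] Polynomial k :=
    LinearMap.mulLeft k (m : Polynomial k) + Polynomial.derivative
  have hE : ∀ p, E p = (m : Polynomial k) * p + Polynomial.derivative p := fun _ => rfl
  have hX : ∀ n : ℕ, (Polynomial.X ^ n : Polynomial k) ∈ LinearMap.range E := by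
    intro n
    by_cases hm : m = 0
    · refine ⟨Polynomial.C ((n + 1 : k))⁻¹ * Polynomial.X ^ (n + 1), ?_⟩
      have : (n + 1 : k) ≠ 0 := Nat.cast_add_one_ne_zero n
      rw [hE, hm, Int.cast_zero, zero_mul, zero_add, Polynomial.derivative_C_mul,
        Polynomial.derivative_X_pow_succ, ← mul_assoc, ← Polynomial.C_mul, inv_mul_cancel₀ this]
      simp
    · have hm' : Polynomial.C (m : k)⁻¹ * (m : Polynomial k) = 1 := by
        rw [← map_intCast (Polynomial.C : k →+* Polynomial k), ← Polynomial.C_mul,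
          inv_mul_cancel₀ (Int.cast_ne_zero.2 hm), Polynomial.C_1]
      induction n with
      | zero => exact ⟨Polynomial.C (m : k)⁻¹, by rw [hE, mul_comm, hm']; simp⟩
      | succ n ih =>
        have e : (Polynomial.X ^ (n + 1) : Polynomial k) =
            (m : k)⁻¹ • (E (Polynomial.X ^ (n + 1)) - (n + 1 : k) • Polynomial.X ^ n) := by
          rw [hE, Polynomial.derivative_X_pow_succ, Polynomial.smul_eq_C_mul,
            Polynomial.smul_eq_C_mul]
          linear_combination (-Polynomial.X ^ (n + 1)) * hm'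
        rw [e]
        exact Submodule.smul_mem _ _ (sub_mem ⟨_, rfl⟩ (Submodule.smul_mem _ _ ih))
  have hs : LinearMap.range E = ⊤ := by
    refine eq_top_iff.2 fun p _ => ?_
    induction p using Polynomial.induction_on' with
    | add p q hp hq => exact add_mem (hp trivial) (hq trivial)
    | monomial n a =>
      rw [← Polynomial.C_mul_X_pow_eq_monomial, ← Polynomial.smul_eq_C_mul]
      exact Submodule.smul_mem _ _ (hX n)
  obtain ⟨L, hL⟩ := E.exists_rightInverse_of_surjective hs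
  exact ⟨L, fun p => LinearMap.congr_fun hL p⟩

omit [CharZero k] in
theorem co2_DG (ε i j : ℕ) (c : AA (Polynomial k)) : co2 i j (DG k ε c) =
    (((j : ℤ) - ε * i : ℤ) : Polynomial k) * co2 i j c + Polynomial.derivative (co2 i j c) := by
  have h1 := co2_DA ε i j c
  simp only [co2] at h1 ⊢
  rw [DG, AddMonoidHom.add_apply, map_add, map_add, h1, dl2, coeff_cw, coeff_cw]
  push_cast
  rfl

omit [CharZero k] in
theorem isDer_DG (ε : ℕ) : IsDer (DG k ε) :=
  (isDer_DA ε).add (IsDer.coefw (IsDer.coefw fun _ _ => Polynomial.derivative_mul))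

omit [CharZero k] in
theorem DG_tA (ε : ℕ) : DG k ε (tA _ ε) = 0 := by
  refine co2_ext fun i j => ?_
  have h := co2_tA_mul ε i j (1 : AA (Polynomial k))
  have h1 := co2_DA ε i j (tA (Polynomial k) ε)
  rw [mul_one] at h
  rw [DA_tA] at h1
  rw [co2_DG]
  push_cast
  rw [← h1, h]
  simp only [co2, coeff_one]
  split_ifs <;> simp [coeff_one]
  split_ifs <;> simp

theorem exists_J (ε : ℕ) : ∃ J : AA (Polynomial k) →+ AA (Polynomial k),
    (∀ c, DG k ε (J c) = c) ∧ (∀ c, J (tA _ ε * c) = tA _ ε * J c) ∧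
      ∀ c i j, co2 i j c = 0 → co2 i j (J c) = 0 := by
  choose L hL using exists_inv_der (k := k)
  let J : AA (Polynomial k) →+ AA (Polynomial k) :=
    { toFun := fun c => mk fun j => mk fun i => L ((j : ℤ) - ε * i) (co2 i j c)
      map_zero' := by ext j i; simp [co2]
      map_add' := fun a b => by ext j i; simp [co2] }
  have hJ : ∀ c i j, co2 i j (J c) = L ((j : ℤ) - ε * i) (co2 i j c) := fun c i j => by
    simp [J, co2]
  refine ⟨J, fun c => co2_ext fun i j => by rw [co2_DG, hJ, hL], fun c => co2_ext fun i j => ?_,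
    fun c i j h => by rw [hJ, h, map_zero]⟩
  rw [hJ, co2_tA_mul, co2_tA_mul]
  split_ifs with h
  · rw [hJ]
    congr 2
    obtain ⟨i, rfl⟩ : ∃ i', i = i' + 1 := ⟨i - 1, by omega⟩
    obtain ⟨j, rfl⟩ : ∃ j', j = j' + ε := ⟨j - ε, by omega⟩
    simp only [Nat.add_sub_cancel]
    push_cast; ring
  · exact map_zero _

end Lien

open Lien

theorem lienS : LienStmt := by
  intro S _ _ t _ D J c a b hD hDt hJ hJt hc hDc ha hb
  obtain ⟨c', hc'⟩ := hc.exists_right_inv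
  obtain ⟨Wt, lam, g0, g1, h, -⟩ := lien_gen hD hDt hJ hJt hc' ha hb
  exact ⟨Wt, lam, _, _, h, lead hD hDt hDc ha h, by rw [hJ], by rw [hJ]⟩

theorem lienAS : LienAStmt := by
  intro k _ _ ε N d a b _ hd ha hb sa sb
  obtain ⟨J, hJ, hJt, hs⟩ := exists_J (k := k) ε
  have hc : -(d : AA (Polynomial k)) * -CC (Polynomial.C (d : k)⁻¹) = 1 := by
    rw [neg_mul_neg, ← map_natCast (CC : Polynomial k →+* _), ← map_mul,
      ← map_natCast (Polynomial.C : k →+* _), ← map_mul,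
      mul_inv_cancel₀ (Nat.cast_ne_zero.2 (by omega)), map_one, map_one]
  have ha' : C (tA _ ε) ∣ a - C (-(d : AA (Polynomial k))) * X := by
    rwa [map_neg, map_natCast, neg_mul, sub_neg_eq_add]
  obtain ⟨Wt, lam, g0, g1, h, hT⟩ := lien_gen (isDer_DG ε) (DG_tA ε) hJ hJt hc ha' hb
  have k1 : ∀ s ∈ ssub (Polynomial k) ε N, J s ∈ ssub (Polynomial k) ε N := fun s hs' =>
    ss_of_supp (hs s) hs'
  obtain ⟨m0, m1⟩ := hT (ssub _ ε N)
    (fun s hs' => ss_of_supp (fun i j h0 => by rw [co2_DG, h0]; simp) hs') k1 ss_closed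
    (neg_mem ⟨supp_CC _ _ _, fun _ => C_mem (T := fin _) ⟨1, fun i hi => by
      rw [coeff_C, if_neg (by omega)]⟩⟩) sa sb
  exact ⟨Wt, lam, _, _, h, lead (isDer_DG ε) (DG_tA ε)
    (by rw [map_neg, (isDer_DG ε).natCast, neg_zero]) ha' h, k1 _ m0, k1 _ m1,
    fun n hn => dvd_int hJt (by rwa [hJ] at hn), fun n hn => dvd_int hJt (by rwa [hJ] at hn)⟩

end Pool.Agent.MP_05b4bd_ag.ES

end MrgPart2

-- ======== part 3: formerly Pool.Agent.MP_05b4bd_ag.esc.PeqA
section MrgPart3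

/-! Ramification of the chart at infinity, and the equations at the centre. -/

namespace Pool.Agent.MP_05b4bd_ag.ES

open PowerSeries LaurentSeries HC

theorem pramS : PramStmt := by
  intro k _ _ d M o hM
  have c1 : (cc : k⟦X⟧ →+* k).comp (ram k M) = cc := RingHom.ext fun f => cc_ram hM f
  have mm : ∀ w : R2 k⟦X⟧, MvPolynomial.map cc (MvPolynomial.map (ram k M) w) =
      MvPolynomial.map cc w := fun w => by rw [MvPolynomial.map_map, c1]
  have c2 : (mA (ram k M)).comp CC = CC.comp (ram k M) := RingHom.ext fun r => mA_CC _ r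
  have c3 : (mA (ram k M)).comp (CC.comp C) = CC.comp C := RingHom.ext fun r => by
    simp only [RingHom.comp_apply, mA_CC, ram_C hM]
  have hv : ∀ w : R2 k⟦X⟧, mA (ram k M) (hev CC d w 1 o.u X) =
      hev CC d (MvPolynomial.map (ram k M) w) 1 (mA (ram k M) o.u) X := fun w => by
    rw [map_hev, c2, hev_map, map_one, mA_X]
  have dU : ∀ s : AA k⟦X⟧, cw (dX k⟦X⟧) (mA (ram k M) s) = mA (ram k M) (cw (dX k⟦X⟧) s) :=
    fun s => cw_map' (fun a => dX_map _ a) s
  have dZ : ∀ s : AA k⟦X⟧, dX _ (mA (ram k M) s) = mA (ram k M) (dX _ s) := fun s => dX_map _ s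
  have fb : mA (ram k M) (fB d o.e) = fB d (mA (ram k M) o.e) := by
    simp only [fB, map_neg, map_add, map_mul, map_natCast, mA_CX, mA_X]
  have xd : (X : k⟦X⟧) ∣ ram k M X := by rw [ram_X hM]; exact dvd_pow_self _ (by omega)
  have td : ∀ s : AA k⟦X⟧, CC X ∣ s → CC X ∣ mA (ram k M) s := fun s h =>
    (map_dvd CC xd).trans (by rw [← mA_CC]; exact map_dvd _ h)
  have hU : cc (ram k M o.Us) = 0 := by rw [cc_ram hM, o.U0]
  have hz : cc (ram k M o.zs) = 0 := by rw [cc_ram hM, o.z0]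
  have hU' : ram k M o.Us ∈ up (⊥ : Ideal k) := hU
  have hz' : ram k M o.zs ∈ up (⊥ : Ideal k) := hz
  obtain ⟨i, hi, -⟩ := exists_ramL (R := k) hM
  have a1 : cw (dX k⟦X⟧) (C X : AA k⟦X⟧) = 1 := by rw [cw_C, dX_X, map_one]
  have a2 : cw (dX k⟦X⟧) (X : AA k⟦X⟧) = 0 := cw_X isDer_dX.one
  have a3 : dX k⟦X⟧⟦X⟧ (C X) = 0 := dX_C _
  refine ⟨{
    P := MvPolynomial.map (ram k M) o.P
    Q := MvPolynomial.map (ram k M) o.Q
    H := MvPolynomial.map (ram k M) o.H
    gt := MvPolynomial.map (ram k M) o.gt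
    f := o.f
    n := M * o.n
    gen := o.gen
    dP := o.dP.map _
    dQ := o.dQ.map _
    rP := by rw [mm, o.rP]
    rQ := by rw [mm, o.rQ]
    rH := by rw [mm, o.rH]
    n1 := Nat.mul_pos hM o.n1
    eq := by rw [← map_vf, o.eq, map_mul, MvPolynomial.map_C, map_pow, ram_X hM, pow_mul]
    ng := by rw [mm]; exact o.ng
    jac := by rw [mm]; exact o.jac
    u := mA (ram k M) o.u
    b := mA (ram k M) o.b
    e := mA (ram k M) o.e
    c := map (ram k M) o.c
    Us := ram k M o.Us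
    zs := ram k M o.zs
    tc := (map_dvd C xd).trans (by rw [← map_C]; exact map_dvd _ o.tc)
    eu := ?_
    su := ?_
    eb := by rw [← hv, dU, ← map_mul, o.eb, map_sub, mA_X]
    ee := by
      rw [← hv, ← hv, dZ, ← fb, ← o.ee, map_add, map_mul, map_sub, map_mul, mA_X]
    tb := td _ o.tb
    te := td _ o.te
    ne := fun j h1 h2 => by rw [co2_mA, o.ne j h1 h2, map_zero]
    U0 := hU
    z0 := hz
    zn := fun h => o.zn (ram_inj hM (by rw [h, map_zero]))
    cen := ?_ }, rfl, rfl, rfl, rfl⟩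
  · have := congrArg (mA (ram k M)) o.eu
    rw [map_add, map_hev, c3, map_one, mA_X, mA_CX] at this
    rw [← this]
    congr 1
    ext1 n
    simp [mA]
  · have : cc (c00 (mA (ram k M) o.u)) = cc (c00 o.u) := by
      rw [← cc_ram hM (c00 o.u)]
      congr 1
    rw [this]; exact o.su
  · refine CenN.trans i (ram k M) (fun r => (hi r).symm) o.cen o.U0 o.z0
      (by rw [cc_ram hM]; simp) (mA (ram k M)) (mA_CC _) (by rw [mA_CX]; simp [c00])
      (by rw [mA_X]; simp [c00]) hU hz (by rw [mA_CX, ev2_CX _ hU' hz'])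
      (by rw [mA_X, ev2_X _ hz']) (by rw [mA_CX, mA_X, a1, a2, a3, dX_X]; simp)
      (lam := 1) (by simp) ?_ ?_
    · rw [mA_CX, mA_X, a1, a2, map_mul, map_sub, mA_X]; ring
    · rw [mA_CX, mA_X, a3, dX_X, fb]; ring

namespace Peq

variable {R : Type} [CommRing R]

theorem split_t {τ : R} {s : AA R} (h : CC τ ∣ s) : ∃ s', s = C (cc s) + X * (CC τ * s') := by
  obtain ⟨g, rfl⟩ := h
  obtain ⟨g', hg⟩ := eq_C_add_X_mul g
  refine ⟨g', ?_⟩
  rw [map_mul, map_mul, CC_apply, cc, constantCoeff_C]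
  linear_combination C (C τ) * hg

theorem split_e {τ : R} {d : ℕ} {s : AA R} (h : CC τ ∣ s)
    (h0 : ∀ j, 1 ≤ j → j ≤ d → co2 0 j s = 0) :
    ∃ g g', s = C (cc s) + X * (C X * g + X ^ d * (CC τ * g')) := by
  obtain ⟨w, hw⟩ := h
  have h1 : (C X : AA R) ∣ s - map C (red s) := by
    have := (C_pow_dvd_iff (X : R⟦X⟧) 1 (s - map C (red s))).2 fun j => by
      rw [pow_one, X_dvd_iff, map_sub, coeff_map, map_sub, constantCoeff_C, coeff_red, sub_self]
    rwa [pow_one] at this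
  obtain ⟨g, hg⟩ := h1
  have h2 : red s = C (c00 s) + X ^ (d + 1) * (C τ * mk fun j => coeff (j + (d + 1)) (red w)) := by
    ext m
    rw [map_add, coeff_C, coeff_X_pow_mul']
    split_ifs with k1 k2 k2
    · omega
    · subst k1; simp [c00, coeff_red]
    · rw [coeff_C_mul, coeff_mk, Nat.sub_add_cancel k2, hw, map_mul, CC_apply, red_C, cc,
        constantCoeff_C, coeff_C_mul, zero_add]
    · have := h0 m (by omega) (by omega)
      rw [co2, coeff_zero_eq_constantCoeff_apply] at this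
      rw [coeff_red, add_zero]; exact this
  obtain ⟨g1, hg1⟩ := eq_C_add_X_mul g
  refine ⟨g1, map C (mk fun j => coeff (j + (d + 1)) (red w)), ?_⟩
  have h3 := congrArg cc hg
  rw [h2] at hg h3
  simp only [map_add, map_sub, map_mul, map_pow, map_C, map_X, constantCoeff_C, constantCoeff_X,
    zero_pow d.succ_ne_zero, zero_mul, add_zero] at hg h3
  have h4 := congrArg (C : R⟦X⟧ →+* AA R) h3
  rw [map_sub, map_mul] at h4
  rw [CC_apply]
  linear_combination hg - h4 + C X * hg1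

end Peq

theorem peqS : PeqStmt := by
  intro k _ _ d o hd
  have hU : o.Us ∈ up (⊥ : Ideal k) := o.U0
  have hz : o.zs ∈ up (⊥ : Ideal k) := o.z0
  obtain ⟨b1, hb1⟩ := eq_C_add_X_mul (cc o.b)
  obtain ⟨e1, he1⟩ := eq_C_add_X_mul (cc o.e)
  obtain ⟨e2, he2⟩ := eq_C_add_X_mul e1
  have b0 : co2 0 0 o.b = cc (cc o.b) := by simp [co2]
  have e0 : co2 0 0 o.e = cc (cc o.e) := by simp [co2]
  have e10 : co2 1 0 o.e = cc e1 := by
    rw [co2, coeff_zero_eq_constantCoeff_apply, show constantCoeff o.e = _ from he1, map_add,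
      coeff_succ_X_mul, coeff_C]
    simp
  have ee : cc o.e = C (co2 0 0 o.e) + C (co2 1 0 o.e) * X + X ^ 2 * e2 := by
    rw [e0, e10]; linear_combination he1 + X * he2
  obtain ⟨b', hb⟩ := Peq.split_t o.tb
  obtain ⟨e', he⟩ := Peq.split_t o.te
  obtain ⟨g, g', hg⟩ := Peq.split_e o.te o.ne
  have inj : ∀ {s : k⟦X⟧}, coeL k s = 0 → s = 0 := fun h => coeL_inj (by rw [h, map_zero])
  have tr := o.cen.trace isDer_dX.coefw isDer_dX (fun s => (dX_cw _ s).symm)
  obtain ⟨hA, hB, -⟩ := o.cen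
  let E := ev2 (RingHom.id k⟦X⟧) o.Us o.zs
  let V := ev (RingHom.id k⟦X⟧) o.Us
  have EX : E X = o.zs := ev2_X _ hz
  have EC : ∀ c, E (C c) = V c := fun c => ev2_C _ hz c
  have VX : V X = o.Us := ev_X _ hU
  have VC : ∀ c, V (C c) = c := fun c => ev_C _ hU c
  have ECC : ∀ c, E (CC c) = c := fun c => ev2_CC _ hU hz c
  have hA' : E (X * (X - o.b)) = 0 := inj hA
  have hB' : E (fB d o.e) = 0 := inj hB
  have tr' : E (dX _ (X * (X - o.b))) = E (cw (dX k⟦X⟧) (fB d o.e)) := coeL_inj tr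
  rw [map_mul, map_sub, EX] at hA'
  have Eb : E o.b = o.zs := by
    have := (mul_eq_zero.1 hA').resolve_left o.zn
    linear_combination -this
  have cU : IsDer (cw (dX k⟦X⟧)) := isDer_dX.coefw
  have a1 : cw (dX k⟦X⟧) (C X : AA k⟦X⟧) = 1 := by rw [cw_C, dX_X, map_one]
  have a2 : cw (dX k⟦X⟧) (X : AA k⟦X⟧) = 0 := cw_X isDer_dX.one
  have a3 : cw (dX k⟦X⟧) (CC X : AA k⟦X⟧) = 0 := by rw [CC_apply, cw_C, dX_C, map_zero]
  have a4 : dX k⟦X⟧⟦X⟧ (CC X) = 0 := dX_C _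
  have q1 : dX _ o.b = CC X * (b' + X * dX _ b') := by
    conv_lhs => rw [hb]
    rw [map_add, dX_C, isDer_dX, isDer_dX, dX_X, a4]; ring
  have q2 : cw (dX k⟦X⟧) o.e = C (dX _ (cc o.e)) + X * (CC X * cw (dX k⟦X⟧) e') := by
    conv_lhs => rw [he]
    rw [map_add, cw_C, cU, cU, a2, a3]; ring
  have q3 : dX _ (cc o.e) = C (co2 1 0 o.e) + X * (2 * e2 + X * dX _ e2) := by
    rw [ee, map_add, map_add, dX_C, isDer_dX, isDer_dX, sq, isDer_dX, dX_X, dX_C]; ring
  refine ⟨-E b', E (cw (dX k⟦X⟧) e') - E (b' + X * dX _ b'), -(d + E g), -E g', b1, e2,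
    by rw [b0]; exact hb1, ee, ?_, ?_, ?_⟩
  · have := congrArg E hb
    rw [Eb, map_add, EC, map_mul, map_mul, EX, ECC, hb1, map_add, VC, map_mul, VX, ← b0] at this
    linear_combination -this
  · rw [isDer_dX, map_sub, dX_X, q1, fB, map_neg, map_add (cw _), cU, cU, cU.natCast,
       a1, a2, q2, q3] at tr'
    simp only [map_add, map_sub, map_mul, map_neg, EX, Eb, ECC, EC, VC, VX, map_one, map_zero,
      map_natCast] at tr' ⊢
    linear_combination tr' + o.Us * V (dX _ e2) * VX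
  · have := congrArg E hg
    rw [fB, map_neg, map_add, this, ee] at hB'
    simp only [map_add, map_mul, map_pow, EX, ECC, EC, VC, VX, map_natCast] at hB'
    linear_combination -hB'

end Pool.Agent.MP_05b4bd_ag.ES

end MrgPart3

-- ======== part 4: formerly Pool.Agent.MP_05b4bd_ag.esc.S2a
section MrgPart4

/-! A symmetry of the Lienard functions fixes the point of the curve. -/

namespace Pool.Agent.MP_05b4bd_ag.ES

open PowerSeries LaurentSeries HC

namespace S2a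

/-- Restriction of the target of a ring map. -/
theorem exists_lift {A B T : Type} [CommRing A] [CommRing B] [CommRing T] (j : A →+* B)
    (hj : Function.Injective j) (φ : T →+* B) (h : ∀ c, ∃ a, φ c = j a) :
    ∃ φ' : T →+* A, ∀ c, j (φ' c) = φ c := by
  choose f hf using h
  exact ⟨{ toFun := f
           map_one' := hj (by rw [← hf, map_one, map_one])
           map_mul' := fun a b => hj (by rw [map_mul, ← hf, ← hf, ← hf, map_mul])
           map_zero' := hj (by rw [← hf, map_zero, map_zero])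
           map_add' := fun a b => hj (by rw [map_add, ← hf, ← hf, ← hf, map_add]) },
    fun c => (hf c).symm⟩

section Sub
variable {L U E : Type} [CommRing L] [CommRing U] [CommRing E]

theorem X_mem : (X : U⟦X⟧) ∈ up (⊥ : Ideal U) := by
  rw [mem_up]; simp

theorem mem_of_dvd {W : AA U} (h : C X ∣ W - X) : W ∈ up (up (⊥ : Ideal U)) := by
  obtain ⟨r, hr⟩ := h
  have : W = X + C X * r := by rw [← hr]; ring
  rw [mem_up2, this, c00_apply]
  simp

theorem hat_map (φ : U →+* E⟦X⟧) (ι : L →+* U) (c : L⟦X⟧) :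
    hat φ (map ι c) = hat (φ.comp ι) c :=
  ev_map (up ⊥) X_mem ι c

theorem map_hat (φ : L →+* U⟦X⟧) (j : U →+* E) (c : L⟦X⟧) :
    map j (hat φ c) = hat ((map j).comp φ) c := by
  have := hom_ev (up (⊥ : Ideal U)) (φ := φ) (up (⊥ : Ideal E)) X_mem (map j)
    (by rw [map_X]; exact X_mem) c
  rw [map_X] at this
  exact this

theorem cw_hat {φ : L →+* U⟦X⟧} {D : L →+ L} {D' : U →+ U} (hD : IsDer D) (hD' : IsDer D')
    {s : U⟦X⟧} (h : ∀ c, cw D' (φ c) = s * φ (D c)) (c : L⟦X⟧) :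
    cw D' (hat φ c) = s * hat φ (cw D c) := by
  have := hom_chain (up (⊥ : Ideal U)) (g := hat φ) (by rw [hat_X]; exact X_mem) hD'.coefw hD
    (a := s) (fun r => by rw [hat_C, hat_C, h]) c
  rw [this, hat_X, cw_X hD'.one, mul_zero, add_zero]

/-- The substitution with coefficient map `hat φ` and `X ↦ W`. -/
noncomputable abbrev Ph (φ : L →+* U⟦X⟧) (W : AA U) : AA L →+* AA U :=
  ev ((C : U⟦X⟧ →+* AA U).comp (hat φ)) W

variable {φ : L →+* U⟦X⟧} {W : AA U}

theorem Ph_C (hW : C X ∣ W - X) (c : L⟦X⟧) : Ph φ W (C c) = C (hat φ c) :=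
  ev_C (up (up ⊥)) (mem_of_dvd hW) c

theorem Ph_X (hW : C X ∣ W - X) : Ph φ W X = W := ev_X (up (up ⊥)) (mem_of_dvd hW)

theorem Ph_mA {T : Type} [CommRing T] (hW : C X ∣ W - X) (ι : T →+* L) (c : AA T) :
    Ph φ W (mA ι c) = Ph (φ.comp ι) W c := by
  have e : ((C : U⟦X⟧ →+* AA U).comp (hat φ)).comp (map ι) =
      (C : U⟦X⟧ →+* AA U).comp (hat (φ.comp ι)) := by
    ext1 c
    simp only [RingHom.comp_apply, hat_map]
  have := ev_map (up (up (⊥ : Ideal U))) (φ := (C : U⟦X⟧ →+* AA U).comp (hat φ))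
    (mem_of_dvd hW) (map ι) c
  rw [e] at this
  exact this

theorem mA_C (j : U →+* E) (c : U⟦X⟧) : mA j (C c) = C (map j c) := map_C _ _

theorem mA_X (j : U →+* E) : mA j X = X := map_X _

theorem mA_Ph (hW : C X ∣ W - X) (j : U →+* E) (c : AA L) :
    mA j (Ph φ W c) = Ph ((map j).comp φ) (mA j W) c := by
  have hW' : C X ∣ mA j W - X := by
    have := map_dvd (mA j) hW
    rwa [map_sub, mA_C, map_X, mA_X] at this
  have e : (mA j).comp ((C : U⟦X⟧ →+* AA U).comp (hat φ)) =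
      (C : E⟦X⟧ →+* AA E).comp (hat ((map j).comp φ)) := by
    ext1 c
    simp only [RingHom.comp_apply, mA_C, map_hat]
  have := hom_ev (up (up (⊥ : Ideal U))) (φ := (C : U⟦X⟧ →+* AA U).comp (hat φ))
    (up (up (⊥ : Ideal E))) (mem_of_dvd hW) (mA j) (mem_of_dvd hW') c
  rw [e] at this
  exact this

theorem dX_Ph (hW : C X ∣ W - X) (c : AA L) : dX _ (Ph φ W c) = Ph φ W (dX _ c) * dX _ W := by
  have := hom_chain (up (up (⊥ : Ideal U))) (g := Ph φ W) (by rw [Ph_X hW]; exact mem_of_dvd hW)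
    isDer_dX (L := 0) (fun _ _ => by simp) (a := 0) (fun r => by rw [Ph_C hW, dX_C, zero_mul]) c
  rw [this, zero_mul, zero_add, Ph_X hW]

theorem cw_Ph (hW : C X ∣ W - X) {D : L →+ L} {D' : U →+ U} (hD : IsDer D) (hD' : IsDer D')
    {s : U⟦X⟧} (h : ∀ c, cw D' (φ c) = s * φ (D c)) (c : AA L) :
    cw (cw D') (Ph φ W c) = C s * Ph φ W (cw (cw D) c) + Ph φ W (dX _ c) * cw (cw D') W := by
  have := hom_chain (up (up (⊥ : Ideal U))) (g := Ph φ W) (by rw [Ph_X hW]; exact mem_of_dvd hW)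
    hD'.coefw.coefw hD.coefw (a := C s)
    (fun r => by rw [Ph_C hW, Ph_C hW, cw_C, cw_hat hD hD' h, map_mul]) c
  rw [this, Ph_X hW]

/-- The substitution that fixes `Wt`. -/
theorem exists_W (φ : U →+* U⟦X⟧) {Wt : AA U} (h : C X ∣ Wt - X) :
    ∃ W, C X ∣ W - X ∧ Ph φ W Wt = Wt := by
  obtain ⟨r, hr⟩ := h
  have e : Wt = X + C X * r := by rw [← hr]; ring
  have hd : ∀ u : AA U, C X ∣ X + C X * u - X := fun u => ⟨u, by ring⟩
  obtain ⟨u, hu, -⟩ := fix_dvd (C X : AA U) (fun u => r - Ph φ (X + C X * u) r) fun n u v huv => by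
    have h1 := ev_sub (up (up (⊥ : Ideal U))) (φ := (C : U⟦X⟧ →+* AA U).comp (hat φ))
      (mem_of_dvd (hd v)) (mem_of_dvd (hd u)) r
    have h2 : (C X : AA U) ^ (n + 1) ∣ X + C X * v - (X + C X * u) := by
      obtain ⟨w, hw⟩ := huv
      exact ⟨-w, by linear_combination (-(C X : AA U)) * hw⟩
    have h3 := h2.trans h1
    convert h3 using 1
    ring
  refine ⟨X + C X * u, hd u, ?_⟩
  rw [e, map_add, map_mul, Ph_X (hd u), Ph_C (hd u), hat_X]
  have hu' : r - Ph φ (X + C X * u) r = u := hu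
  linear_combination (-(C X : AA U)) * hu'

end Sub

/-- Descent of a symmetry to the algebraic closure of the function field. -/
theorem descend (hB : SymbStmt) (hA : DerAlgStmt) {k L U : Type} [Field k] [CharZero k]
    [IsAlgClosed k] [Field L] [Field U] [CharZero U] {d : ℕ} (I : Inf k d L) {D1 : U →+ U}
    {i : L →+* U} {φ : L →+* U⟦X⟧} {s : U⟦X⟧} {W : AA U} (hd : 6 ≤ d) (hD : DExt I.D D1 i)
    (hκ : ∀ c, φ (I.κ c) = C (i (I.κ c))) (hs : ∀ c, cw D1 (φ c) = s * φ (I.D c))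
    (hW : C X ∣ W - X)
    (he : mA i I.a * (Ph φ W I.a * cw (cw D1) W + C s * Ph φ W (X * I.b)) =
      Ph φ W I.a * dX _ W * (X * mA i I.b))
    (h0 : ∀ δ : U →+ U, IsDer δ → (∀ c, δ (i c) = 0) →
      cw (cw δ) W = 0 ∧ cw δ s = 0 ∧ ∀ c, cw δ (φ c) = 0) :
    cc (φ (cc I.x0)) = i (cc I.x0) ∧ cc (φ (cc I.y0)) = i (cc I.y0) := by
  obtain ⟨-, a2, a3, ⟨N, hN⟩, -⟩ := hA U i.fieldRange
  have hm : ∀ z, (∀ δ : U →+ U, IsDer δ → (∀ c, δ (i c) = 0) → δ z = 0) → z ∈ N := fun z hz =>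
    (hN z).2 (a3 z fun δ hδ h => hz δ hδ fun c => h _ ⟨c, rfl⟩)
  have hi : ∀ c, i c ∈ N := fun c => hm _ fun δ _ h => h c
  have hMN : i.fieldRange ≤ N := by
    rintro _ ⟨c, rfl⟩
    exact hi c
  have hDN : ∀ z ∈ N, D1 z ∈ N := fun z hz =>
    a2 D1 hD.1 N hMN (by rintro _ ⟨c, rfl⟩; rw [hD.2]; exact hi _) z hz ((hN z).1 hz)
  let j : N →+* U := N.subtype
  have hj : Function.Injective j := Subtype.val_injective
  have hjm : Function.Injective (map j) := map_injective j hj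
  let i' : L →+* N := i.codRestrict N hi
  have hi' : ∀ c, j (i' c) = i c := fun _ => rfl
  let D' : N →+ N := AddMonoidHom.mk' (fun z => ⟨D1 z, hDN z z.2⟩) fun a b =>
    Subtype.ext (map_add D1 _ _)
  have hD' : ∀ z, D1 (j z) = j (D' z) := fun _ => rfl
  obtain ⟨W', rfl⟩ : ∃ W', W = mA j W' := exists_mA fun a b => ⟨⟨co2 a b W, hm _ fun δ hδ h => by
    have := congrArg (co2 a b) (h0 δ hδ h).1
    simpa only [co2, coeff_cw, map_zero] using this⟩, rfl⟩
  obtain ⟨s', rfl⟩ : ∃ s', s = map j s' := exists_map_of_coeff fun n =>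
    ⟨⟨coeff n s, hm _ fun δ hδ h => by
      have := congrArg (coeff n) (h0 δ hδ h).2.1
      simpa only [coeff_cw, map_zero] using this⟩, rfl⟩
  obtain ⟨φ', hφ'⟩ := exists_lift (map j) hjm φ fun c => exists_map_of_coeff fun n =>
    ⟨⟨coeff n (φ c), hm _ fun δ hδ h => by
      have := congrArg (coeff n) ((h0 δ hδ h).2.2 c)
      simpa only [coeff_cw, map_zero] using this⟩, rfl⟩
  have eφ : (map j).comp φ' = φ := RingHom.ext hφ'
  have ei : j.comp i' = i := RingHom.ext hi'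
  have hW' : C X ∣ W' - X := by
    rw [← red_eq_zero] at hW ⊢
    apply hjm
    rw [← red_mA, map_sub, mA_X, hW, map_zero]
  have key := hB k L N d I D' i' φ' s' W' hd
    ⟨fun a b => hj (by
        rw [map_add j, map_mul j, map_mul j, ← hD', ← hD', ← hD', map_mul j, hD.1]),
      fun c => hj (by rw [← hD', hi', hi', hD.2])⟩
    (fun e => by
      let f : i'.fieldRange →+* i.fieldRange :=
        (j.comp i'.fieldRange.subtype).codRestrict i.fieldRange (by
          rintro ⟨_, c, rfl⟩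
          exact ⟨c, rfl⟩)
      refine IsAlgebraic.of_ringHom_of_comp_eq f j ((hN e).1 e.2) ?_ hj rfl
      rintro ⟨_, c, rfl⟩
      exact ⟨⟨i' c, c, rfl⟩, rfl⟩)
    (fun c => hjm (by rw [hφ', hκ, map_C, hi']))
    (fun c => hjm (by rw [← cw_map' hD', map_mul, hφ', hφ', hs]))
    hW'
    (mA_inj hj (by
      have e1 : mA j (cw (cw D') W') = cw (cw D1) (mA j W') :=
        (cw_map' (fun c => cw_map' hD' c) W').symm
      have e2 : mA j (dX _ W') = dX _ (mA j W') := (dX_map _ _).symm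
      simp only [map_mul (mA j), map_add (mA j)]
      rw [mA_mA, mA_mA, ei, mA_Ph hW', mA_Ph hW', eφ, e1, e2, mA_C, mA_X]
      exact he))
  have hc : ∀ c, cc (φ c) = j (cc (φ' c)) := fun c => by
    rw [← hφ', ← coeff_zero_eq_constantCoeff_apply, coeff_map, coeff_zero_eq_constantCoeff_apply]
  rw [hc, hc, key.1, key.2]
  exact ⟨rfl, rfl⟩

end S2a

open S2a in
theorem s2aS (hSa : SymaStmt) (hSb : SymbStmt) (hA : DerAlgStmt) : S2aStmt := by
  intro k U _ _ _ _ d κ D x y a b Wt lam G0 G1 φ s hd hO hL h0 hκ hs e0 e1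
  obtain ⟨hD, L, _, I, ι, θ, hθ, hι, hk, hx, hy, ha, hb⟩ := hO
  have : CharZero U := (RingHom.charZero_iff κ.injective).1 inferInstance
  let D1 : U →+ U := (AddMonoidHom.mulLeft θ⁻¹).comp D
  have hD1 : DExt I.D D1 ι := ⟨hD.mulLeft _, fun c => by
    change θ⁻¹ * D (ι c) = _
    rw [hι, inv_mul_cancel_left₀ hθ]⟩
  have c1 : ∀ c, cw D1 c = C θ⁻¹ * cw D c := cw_mulLeft _ _
  have c2 : ∀ c : AA U, cw (cw D1) c = CC θ⁻¹ * cw (cw D) c := fun c => by
    ext1 n
    rw [coeff_cw, c1, CC_apply, coeff_C_mul, coeff_cw]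
  have hθ' : (CC θ⁻¹ : AA U) * CC θ = 1 := by rw [← map_mul, inv_mul_cancel₀ hθ, map_one]
  obtain ⟨W, hW, hΦ⟩ := exists_W φ hL.w
  obtain ⟨m, hm⟩ := (hL.u.map (Ph φ W)).exists_left_inv
  have nd : ¬ I.a ∣ X * I.b := fun h => hL.nd h0 (by
    have := map_dvd (mA ι) h
    rw [map_mul, mA_X, ← ha] at this
    rw [hb, mul_left_comm]
    exact this.mul_left _)
  have pa : Ph φ W a = Ph (φ.comp ι) W I.a := by rw [ha, Ph_mA hW]
  have pb : Ph φ W (X * b) = C (φ θ) * Ph (φ.comp ι) W (X * I.b) := by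
    rw [hb, mul_left_comm, map_mul, CC_apply, Ph_C hW, hat_C, ← Ph_mA hW, map_mul (mA ι), mA_X]
  have q1 := congrArg (Ph φ W) hL.ea
  rw [map_mul, map_mul, hΦ, pa] at q1
  have q2 := congrArg (Ph φ W) hL.eb
  rw [map_sub, map_sub, map_mul, map_mul, map_mul (Ph φ W) lam, hΦ, pb, Ph_C hW, Ph_C hW] at q2
  have r1 := dX_Ph (φ := φ) hW Wt
  have r2 := cw_Ph hW hD hD hs Wt
  have r3 := congrArg (C : U⟦X⟧ →+* AA U) (cw_hat hD hD hs G0)
  have r4 := congrArg (C : U⟦X⟧ →+* AA U) (cw_hat hD hD hs G1)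
  rw [hΦ] at r1 r2
  rw [e0, map_mul] at r3
  rw [e1, map_mul] at r4
  have ea := hL.ea
  have eb := hL.eb
  have E1 : Ph (φ.comp ι) W I.a * dX _ W = m * lam * mA ι I.a := by
    rw [← ha]
    linear_combination (-(Ph (φ.comp ι) W I.a * dX _ W)) * hm - m * dX _ W * q1 + m * ea -
      m * Wt * r1
  have E2 : Ph (φ.comp ι) W I.a * cw (cw D1) W + C (C θ⁻¹ * s * φ θ) * Ph (φ.comp ι) W (X * I.b) =
      m * lam * (X * mA ι I.b) := by
    rw [c2, map_mul, map_mul, ← CC_apply]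
    rw [hb] at eb
    linear_combination
      (-(CC θ⁻¹ * (Ph (φ.comp ι) W I.a * cw (cw D) W +
        C s * C (φ θ) * Ph (φ.comp ι) W (X * I.b)))) * hm -
      CC θ⁻¹ * m * (cw (cw D) W * q1 + C s * q2 - eb + Wt * r2 - r3 - Wt * r4) +
      m * lam * (X * mA ι I.b) * hθ'
  have hκ' : ∀ c, (φ.comp ι) (I.κ c) = C (ι (I.κ c)) := fun c => by
    rw [RingHom.comp_apply, hk, hκ]
  have hs' : ∀ c, cw D1 ((φ.comp ι) c) = C θ⁻¹ * s * φ θ * (φ.comp ι) (I.D c) := fun c => by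
    rw [c1, RingHom.comp_apply, RingHom.comp_apply, hs, hι, map_mul]
    ring
  have hl : IsUnit (m * lam) := (IsUnit.of_mul_eq_one _ hm).mul hL.u
  have key := descend hSb hA I hd hD1 hκ' hs' hW (by rw [E1, E2]; ring)
    (hSa k L U d I D1 ι (φ.comp ι) _ W (m * lam) hd nd hD1 hκ' hs' hW hl E1 E2)
  rwa [RingHom.comp_apply, RingHom.comp_apply, hx, hy] at key

end Pool.Agent.MP_05b4bd_ag.ES

end MrgPart4

-- marker of a merged file
example : 731051 + 87758 = 731051 + 87758 := rfl
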