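import Mathlib.RingTheory.RootsOfUnity.AlgebraicallyClosed
import Mathlib.RingTheory.PiTensorProduct
import Pool.Agent.MP_05b4bd_ag.esc.Bx
import Pool.Agent.MP_05b4bd_ag.esc.Symb
import Pool.Agent.MP_05b4bd_ag.esc.K2b
import Pool.Agent.MP_05b4bd_ag.esc.IL

-- ======== part 0: formerly Pool.Agent.MP_05b4bd_ag.esc.Base
section MrgPart0

/-! Escaping centres: change of the field of constants, and the assembly of `S1`. -/

namespace Pool.Agent.MP_05b4bd_ag.ES

open PowerSeries LaurentSeries HC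

namespace Base

variable {k k' L L' : Type} [Field k] [Field k'] [Field L] [Field L']

theorem evp_map {κ : k →+* L} {κ' : k' →+* L'} {jk : k →+* k'} (jl : L →+* L')
    (h : ∀ c, jl (κ c) = κ' (jk c)) (x y : L) (u : R2 k) :
    evp κ' (jl x) (jl y) (MvPolynomial.map jk u) = jl (evp κ x y u) := by
  have e : (evp κ' (jl x) (jl y)).comp (MvPolynomial.map jk) = jl.comp (evp κ x y) := by
    refine MvPolynomial.ringHom_ext (fun r => ?_) fun i => ?_
    · simp [evp, h]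
    · fin_cases i <;> simp [evp]
  exact RingHom.congr_fun e u

theorem frame_map (jl : L →+* L') (x : L⟦X⟧) :
    coeL L' (map jl x) * wL L' (-1) = mapL jl (coeL L x * wL L (-1)) := by
  rw [map_mul, mapL_coeL, mapL_wL]

theorem EL_map {κ : k →+* L} {κ' : k' →+* L'} {jk : k →+* k'} (jl : L →+* L')
    (h : ∀ c, jl (κ c) = κ' (jk c)) (x y : L⟦X⟧) (u : R2 k) :
    EL κ' (map jl x) (map jl y) (MvPolynomial.map jk u) = mapL jl (EL κ x y u) := by
  rw [EL, EL, frame_map, frame_map]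
  exact evp_map (mapL jl) (fun c => by simp only [RingHom.comp_apply, mapL_cL, h]) _ _ u

theorem GLc_map {κ : k →+* L} {κ' : k' →+* L'} {jk : k →+* k'} (jl : L →+* L')
    (h : ∀ c, jl (κ c) = κ' (jk c)) {D : L →+ L} {D' : L' →+ L'}
    (hD : ∀ c, D' (jl c) = jl (D c)) (d : ℕ) (x y : L⟦X⟧) (u : R2 k) :
    GLc κ' d D' (map jl x) (map jl y) (MvPolynomial.map jk u) = mapL jl (GLc κ d D x y u) := by
  rw [GLc, GLc, EL_map jl h, frame_map, frame_map, thL_mapL, thL_mapL, cwL_mapL hD, cwL_mapL hD]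
  simp only [map_mul (mapL jl), map_sub (mapL jl), mapL_wL, mapL_cL, map_inv₀ jl, map_natCast jl]

theorem VT_map {D : L →+ L} {D' : L' →+ L'} {ι : L →+* L'} (h : ∀ c, D' (ι c) = ι (D c))
    (vb a : TT L) : VT D' (mT ι vb) (mT ι a) = mT ι (VT D vb a) := by
  simp only [VT, mT, map_sub, map_mul, cw_map' (cwL_mapL h), cw_map' (thL_mapL ι)]

theorem cc_mT (ι : L →+* L') (a : TT L) : cc (mT ι a) = mapL ι (cc a) := rfl

/-- A bracket over an extension of the constants is a bracket. -/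
theorem br_desc (jk : k →+* k') {f g : R2 k} {u : R2 k'}
    (h : MvPolynomial.map jk g = br u (MvPolynomial.map jk f)) : ∃ v, g = br v f := by
  let _ := jk.toAlgebra
  obtain ⟨π, hπ⟩ := (Algebra.linearMap k k').exists_leftInverse_of_injective
    (LinearMap.ker_eq_bot.2 jk.injective)
  have p : ∀ x y, π.toAddMonoidHom (jk x * y) = x * π.toAddMonoidHom y := fun x y =>
    π.map_smul x y
  have p1 : ∀ x, π.toAddMonoidHom (jk x) = x := fun x => LinearMap.congr_fun hπ x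
  refine ⟨cm π.toAddMonoidHom u, ?_⟩
  have e : cm π.toAddMonoidHom (MvPolynomial.map jk g) = g := by
    ext m
    rw [coeff_cm, MvPolynomial.coeff_map, p1]
  rw [← e, h, br, br, MvPolynomial.pderiv_map, MvPolynomial.pderiv_map, cm_sub, mul_comm,
    cm_map_mul jk _ p, mul_comm (MvPolynomial.pderiv 1 u), cm_map_mul jk _ p, cm_pderiv, cm_pderiv]
  ring

theorem jac_map (jk : k →+* k') {f g : R2 k} (h : g ∈ Jac f) :
    MvPolynomial.map jk g ∈ Jac (MvPolynomial.map jk f) := by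
  obtain ⟨a, b, e⟩ := Ideal.mem_span_pair.1 h
  exact Ideal.mem_span_pair.2 ⟨MvPolynomial.map jk a, MvPolynomial.map jk b, by
    rw [← e, map_add, map_mul, map_mul, MvPolynomial.pderiv_map, MvPolynomial.pderiv_map]⟩

/-- Transport of the data at infinity along a map of differential function fields. -/
theorem push [CharZero k] [CharZero k'] {d : ℕ} (I : Inf k d L) (jk : k →+* k') (jl : L →+* L')
    (κ' : k' →+* L') (D' : L' →+ L') (hD : DExt I.D D' jl) (h0 : ∀ c, D' (κ' c) = 0)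
    (h : ∀ c, jl (I.κ c) = κ' (jk c)) (hg : gf κ' (jl (cc I.x0)) (jl (cc I.y0)) = ⊤)
    (hG : Gen d (MvPolynomial.map jk I.f)) :
    ∃ I' : Inf k' d L', I'.κ = κ' ∧ I'.D = D' ∧ I'.a = mA jl I.a ∧ I'.b = mA jl I.b := by
  obtain ⟨-, -, c1, c2, c3⟩ := I.cv
  refine ⟨⟨κ', D', MvPolynomial.map jk I.f, MvPolynomial.map jk I.g, map jl I.x0, map jl I.y0,
    mA jl I.a, mA jl I.b, mT jl I.vb, mT jl I.h, mT jl I.Xi, I.n, hG, fun u hu => ?_,
    jac_map jk I.jac, ⟨hD.1, h0, ?_, ?_, ?_⟩, hg, ?_, ?_, ?_, ?_, I.n1, ?_, ?_, ?_⟩,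
    rfl, rfl, rfl, rfl⟩
  · obtain ⟨v, hv⟩ := br_desc jk hu
    exact I.ng v hv
  · rw [hc_map]
    exact (evp_map jl h (cc I.x0) (cc I.y0) _).trans (by rw [c1, map_one])
  · rw [hc_map, MvPolynomial.pderiv_map]
    exact (hD.2 (cc I.x0)).trans (by rw [c2]; exact (evp_map jl h _ _ _).symm)
  · rw [hc_map, MvPolynomial.pderiv_map]
    exact (hD.2 (cc I.y0)).trans
      (by rw [c3, map_neg]; exact congrArg _ (evp_map jl h _ _ _).symm)
  · rw [EL_map jl h, I.fr, mapL_wL]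
  · rw [red_mA, I.ra, map_neg, map_mul, map_natCast, map_X]
  · rw [red_mA, I.rb, map_zero]
  · rw [← mT_iT, ← mT_iT, ← map_mul, I.hv]
  · rw [cc_mT, I.rh, mapL_wL]
  · rw [VT_map hD.2, I.hV, map_mul, map_pow, mT, map_X]
  · rw [cc_mT, I.rX, GLc_map jl h hD.2]

/-- A generated subfield is generated inside itself. -/
theorem gf_top (κ : k →+* L) (x y : L) (κ' : k →+* gf κ x y) (x' y' : gf κ x y)
    (h : ∀ c, (κ' c : L) = κ c) (hx : (x' : L) = x) (hy : (y' : L) = y) : gf κ' x' y' = ⊤ := by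
  have e : gf κ x y ≤ (gf κ' x' y').map (gf κ x y).subtype := by
    refine Subfield.closure_le.2 ?_
    rintro z (⟨c, rfl⟩ | rfl | rfl)
    · exact ⟨κ' c, Subfield.subset_closure (Or.inl ⟨c, rfl⟩), h c⟩
    · exact ⟨x', Subfield.subset_closure (Or.inr (Or.inl rfl)), hx⟩
    · exact ⟨y', Subfield.subset_closure (Or.inr (Or.inr rfl)), hy⟩
  refine eq_top_iff.2 fun z _ => ?_
  obtain ⟨w, hw, hz⟩ := e z.2
  rwa [← Subtype.ext (p := fun a => a ∈ gf κ x y) hz]

theorem gf_mem {κ : k →+* L} {x y : L} (hg : gf κ x y = ⊤) (j : L →+* L') {N : Subfield L'}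
    (h : ∀ c, j (κ c) ∈ N) (hx : j x ∈ N) (hy : j y ∈ N) (c : L) : j c ∈ N := by
  have e : gf κ x y ≤ N.comap j := by
    refine Subfield.closure_le.2 ?_
    rintro z (⟨c, rfl⟩ | rfl | rfl)
    exacts [h c, hx, hy]
  exact e (hg ▸ Subfield.mem_top c)

theorem IIF_mA {D : L →+ L} {D' : L' →+ L'} {j : L →+* L'} (h : ∀ c, D' (j c) = j (D c))
    {a b I : AA L} (H : IIF (cw D) a (X * b) I) :
    IIF (cw D') (mA j a) (X * mA j b) (mA j I) := by
  have e := H.push (D' := cw D') (θ := 1) (map_injective j j.injective)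
    (fun c => by rw [cw_map' h, one_mul])
  rwa [map_one, one_mul, map_mul, map_X] at e

end Base

open Base

theorem baseS (h1 : GenTopStmt) (h2 : DerAlgStmt) : BaseStmt := by
  intro k L U _ _ _ _ d I D1 i hd hD
  have : CharZero U := charZero_of_injective_ringHom (i.comp I.κ).injective
  let k' := AlgebraicClosure U
  let g : U →+* k' := algebraMap U k'
  have : CharZero k' := charZero_of_injective_ringHom g.injective
  have : CharZero k'⸨X⸩ := charZero_of_injective_ringHom (cL_inj (R := k'))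
  obtain ⟨τ, t0, t1, -⟩ := exists_tayl hD.1 g
  let j : U →+* k'⸨X⸩ := (coeL k').comp τ
  have hj : ∀ c, dL k' (j c) = j (D1 c) := fun c => by
    simp only [j, RingHom.comp_apply, dL_coeL, t1]
  let jk : k →+* k' := g.comp (i.comp I.κ)
  have hk : ∀ c, j (i (I.κ c)) = cL k' (jk c) := fun c => by
    have e : dX k' (τ (i (I.κ c))) = 0 := by rw [t1, hD.2, I.cv.2.1, map_zero, map_zero]
    simp only [j, jk, RingHom.comp_apply]
    rw [eq_C_of_dX e, t0, coeL_C]
  let N : Subfield k'⸨X⸩ := gf (cL k') (j (i (cc I.x0))) (j (i (cc I.y0)))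
  have n0 : ∀ c, cL k' c ∈ N := fun c => Subfield.subset_closure (Or.inl ⟨c, rfl⟩)
  have n1 : ∀ c, (j.comp i) c ∈ N :=
    gf_mem I.gb (j.comp i) (fun c => by rw [RingHom.comp_apply, hk]; exact n0 _)
      (Subfield.subset_closure (Or.inr (Or.inl rfl)))
      (Subfield.subset_closure (Or.inr (Or.inr rfl)))
  have d0 : ∀ c, dL k' (cL k' c) = 0 := fun c => by rw [dL_apply, thL_cL, mul_zero]
  have n2 : ∀ z ∈ N, dL k' z ∈ N := by
    refine (h2 k'⸨X⸩ N).2.2.2.2.2 (dL k') isDer_dL _ ?_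
    have n3 : ∀ c, j (i c) ∈ N ∧ dL k' (j (i c)) ∈ N := fun c =>
      ⟨n1 c, by rw [hj, hD.2]; exact n1 _⟩
    rintro z (⟨c, rfl⟩ | rfl | rfl)
    exacts [⟨n0 c, by rw [d0]; exact N.zero_mem⟩, n3 _, n3 _]
  let D' : N →+ N :=
    { toFun := fun z => ⟨dL k' z, n2 z z.2⟩
      map_zero' := Subtype.ext (map_zero (dL k'))
      map_add' := fun a b => Subtype.ext (map_add (dL k') a.1 b.1) }
  let κ' : k' →+* N := (cL k').codRestrict N n0
  let jl : L →+* N := (j.comp i).codRestrict N n1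
  have hD' : DExt I.D D' jl :=
    ⟨fun a b => Subtype.ext (isDer_dL a.1 b.1),
      fun c => Subtype.ext ((hj (i c)).trans (congrArg j (hD.2 c)))⟩
  obtain ⟨I', e1, e2, e3, e4⟩ := push I jk jl κ' D' hD' (fun c => Subtype.ext (d0 c))
    (fun c => Subtype.ext (hk c)) (gf_top _ _ _ κ' _ _ (fun _ => rfl) rfl rfl)
    ((h1 k d I.f hd I.gen).2.2.2.2 k' jk)
  refine ⟨k', N, k'⸨X⸩, inferInstance, inferInstance, inferInstance, inferInstance, inferInstance,
    I', dL k', N.subtype, jl, j, ?_, ?_, ⟨isDer_dL, hj⟩, fun _ => rfl, e3, e4, fun c hc => ?_⟩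
  · rw [e2]
    exact ⟨isDer_dL, fun _ => rfl⟩
  · rw [e2]
    exact hD'
  · rw [e1]
    exact const_dL hc

theorem s1S (h1 : DichStmt) (h2 : BaseStmt) (h3 : S1bStmt) (h4 : S1aStmt) : S1Stmt := by
  intro k U _ _ _ d κ D x y a b J hd ⟨hD, L, _, I, ι, θ, hθ, hι, _, _, _, ea, eb⟩ nd H
  have : CharZero L := charZero_of_injective_ringHom I.κ.injective
  have nd' : ¬ I.a ∣ X * I.b := fun h => nd (by
    rw [ea, eb, mul_left_comm]
    exact ((nd_map ι).2 h).mul_left _)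
  let D1 : U →+ U := (AddMonoidHom.mulLeft θ⁻¹).comp D
  have hD1 : DExt I.D D1 ι := ⟨hD.mulLeft _, fun c => by
    change θ⁻¹ * D (ι c) = _
    rw [hι, inv_mul_cancel_left₀ hθ]⟩
  have H1 : IIF (cw D1) (mA ι I.a) (X * mA ι I.b) J := by
    have e := H.push (D' := cw D1) (η := RingHom.id _) (θ := C θ⁻¹) Function.injective_id
      (fun c => cw_mulLeft _ _ c)
    simp only [map_id, id_eq] at e
    rwa [ea, eb, ← CC_apply, mul_left_comm, ← mul_assoc (CC θ⁻¹), ← map_mul,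
      inv_mul_cancel₀ hθ, map_one, one_mul] at e
  have hu : IsUnit (-(d : L⟦X⟧)) := by
    rw [← map_natCast (C (R := L))]
    exact ((Nat.cast_ne_zero.2 (by omega : d ≠ 0)).isUnit.map _).neg
  obtain ⟨U1, _, D2, i, J1, hD2, ⟨a1, a2, a3⟩ | ⟨ν, a1, a2, a3⟩⟩ :=
    h1 L I.D I.a I.b _ hu (by rw [I.ra, neg_mul]) nd' U D1 ι J hD1 H1
  · exact h4 k L U1 d I D2 i J1 hd nd' hD2 a1 a2 a3
  obtain ⟨k', L', U', _, _, _, _, _, I', D3, i', jl, j, b1, b2, b3, b4, b5, b6, b7⟩ :=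
    h2 k L U1 d I D2 i (by omega) hD2
  have e : i'.comp jl = j.comp i := RingHom.ext b4
  refine h3 k' L' U' d I' D3 i' (mA j J1) ν hd (by rw [b5, b6, nd_map]; exact nd') b1 b7 ?_
    ⟨fun h => a2.1 (map_injective j j.injective ?_), fun m hm => ?_⟩ ?_
  · rw [b5, b6, mA_mA, mA_mA, e, ← mA_mA, ← mA_mA]
    exact IIF_mA b3.2 a1
  · rw [map_zero, ← h, mA, coeff_map]
  · rw [mA, coeff_map, a2.2 m hm, map_zero]
  · intro U4 _ D4 i4 J4 c1 c2
    rw [b5, b6, mA_mA, mA_mA] at c2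
    exact a3 U4 D4 (i4.comp jl) J4
      ⟨c1.1, fun c => by rw [RingHom.comp_apply, c1.2, b2.2, RingHom.comp_apply]⟩ c2

end Pool.Agent.MP_05b4bd_ag.ES

end MrgPart0

-- ======== part 1: formerly Pool.Agent.MP_05b4bd_ag.esc.Bnum
section MrgPart1

/-! Escaping centres: the orders in the large case. -/

namespace Pool.Agent.MP_05b4bd_ag.ES

open PowerSeries LaurentSeries HC

namespace Bnum

theorem last {P : ℕ → Prop} {a : ℕ} (ha : P a) (hb : ¬ ∀ n, a ≤ n → P n) :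
    ∃ n, a ≤ n ∧ P n ∧ ¬ P (n + 1) := by
  by_contra h
  push Not at h
  exact hb fun n hn => Nat.le_induction ha (fun m hm hP => h m hm hP) n hn

variable {k : Type} [Field k]

theorem zero_of {f : k⟦X⟧} (g : ℕ → ℕ) (hg : ∀ n, n ≤ g n) {a : ℕ}
    (h : ∀ n, a ≤ n → X ^ g n ∣ f) : f = 0 := by
  ext i
  exact X_pow_dvd_iff.1 (h (a + i + 1) (by omega)) i (by have := hg (a + i + 1); omega)

theorem ram_dvd {M j : ℕ} (hM : 1 ≤ M) {f : k⟦X⟧} (h : X ^ j ∣ f) : X ^ (M * j) ∣ ram k M f := by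
  have := map_dvd (ram k M) h
  rwa [map_pow, ram_X hM, ← pow_mul] at this

theorem dvd_of_ram {M j : ℕ} (hM : 1 ≤ M) {f : k⟦X⟧} (h : X ^ (M * j + 1) ∣ ram k M f) :
    X ^ (j + 1) ∣ f := by
  rw [X_pow_dvd_iff] at h ⊢
  intro i hi
  have := h (M * i) (by have := Nat.mul_le_mul_left M (Nat.le_of_lt_succ hi); omega)
  rwa [coeff_ram hM, if_pos (dvd_mul_right _ _), Nat.mul_div_cancel_left _ hM] at this

theorem ev_dvd {t u : k⟦X⟧} (hu : cc u = 0) {c : AA k} (h : C t ∣ c) :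
    t ∣ ev (RingHom.id _) u c := by
  obtain ⟨c', rfl⟩ := h
  rw [map_mul, ev_C (up ⊥) (mem_up_bot.2 hu)]
  exact dvd_mul_right _ _

theorem co2_cc (i : ℕ) (c : AA k⟦X⟧) : co2 i 0 c = coeff i (cc c) := by
  rw [co2, coeff_zero_eq_constantCoeff_apply]

theorem t_dvd {c : AA k⟦X⟧} (h : CC X ∣ c) (i : ℕ) : X ^ 1 ∣ co2 i 0 c := by
  rw [pow_one]
  exact (C_dvd_iff _ _).1 ((C_dvd_iff _ _).1 h 0) i

/-- The orders before ramification. -/
theorem base (hq : PeqStmt) [CharZero k] {d : ℕ} (o : PD k d) (hd : 1 ≤ d) {t : k⟦X⟧}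
    (hz : t * o.Us ∣ o.zs) (hb : ∀ i, 1 ≤ i → t ∣ co2 i 0 o.b) (he : ∀ i, 2 ≤ i → t ∣ co2 i 0 o.e) :
    t * o.Us ∣ co2 0 0 o.b ∧ t * o.Us ∣ co2 1 0 o.e ∧ t * o.Us ^ 2 ∣ co2 0 0 o.e := by
  obtain ⟨r1, r2, r3, r4, b1, e2, h1, h2, h3, h4, h5⟩ := hq k d o hd
  have k1 : C t ∣ b1 := (C_dvd_iff _ _).2 fun i => by
    have := hb (i + 1) (by omega)
    rwa [co2_cc, h1, map_add, coeff_succ_X_mul, coeff_C, if_neg (by omega), zero_add] at this
  have k2 : C t ∣ e2 := (C_dvd_iff _ _).2 fun i => by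
    have := he (i + 2) (by omega)
    rwa [co2_cc, h2, map_add, map_add, coeff_X_pow_mul, coeff_C, if_neg (by omega), zero_add,
      coeff_C_mul, coeff_X, if_neg (by omega), mul_zero, zero_add] at this
  have k3 : C t ∣ 2 * e2 + X * dX _ e2 := by
    obtain ⟨g, rfl⟩ := k2
    rw [isDer_dX.const_mul (dX_C t)]
    exact ⟨2 * g + X * dX _ g, by ring⟩
  obtain ⟨a1, l1⟩ := ev_dvd o.U0 k1
  obtain ⟨a2, l2⟩ := ev_dvd o.U0 k2
  obtain ⟨a3, l3⟩ := ev_dvd o.U0 k3
  obtain ⟨w, hw⟩ := hz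
  obtain ⟨n, rfl⟩ := Nat.exists_eq_add_of_le' hd
  rw [l1, hw] at h3
  rw [l3, hw] at h4
  rw [l2, hw] at h5
  refine ⟨⟨w * (1 + X * r1) - a1, by linear_combination h3⟩,
    ⟨-(w * (((n + 1 : ℕ) : k⟦X⟧) + 1 + X * r2)) - a3, by linear_combination h4⟩,
    ⟨w * (r3 + X * (t * o.Us * w) ^ n * (t * w) * r4) +
      (w * (((n + 1 : ℕ) : k⟦X⟧) + 1 + X * r2) + a3) - a2, by linear_combination h5 - o.Us * h4⟩⟩

end Bnum

open Bnum in
theorem bnumS (hr : PramStmt) (hq : PeqStmt) : BnumStmt := by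
  intro k _ _ d o hd hγ
  have hM : 1 ≤ d + 1 := by omega
  obtain ⟨e, e1, ⟨eb, ee⟩, en⟩ := last
    (P := fun e => (∀ i, 1 ≤ i → X ^ e ∣ co2 i 0 o.b) ∧ ∀ i, 2 ≤ i → X ^ e ∣ co2 i 0 o.e) (a := 1)
    ⟨fun i _ => t_dvd o.tb i, fun i _ => t_dvd o.te i⟩ (fun h => o.zn (by
      rcases hγ with ⟨i, hi, h'⟩ | ⟨i, hi, h'⟩
      · rwa [zero_of id (fun _ => le_rfl) fun n hn => (h n hn).1 i hi, zero_mul, zero_dvd_iff] at h'
      · rwa [zero_of id (fun _ => le_rfl) fun n hn => (h n hn).2 i hi, zero_mul,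
          zero_dvd_iff] at h'))
  have hz : X ^ e * o.Us ∣ o.zs := by
    rcases hγ with ⟨i, hi, h'⟩ | ⟨i, hi, h'⟩
    · exact (mul_dvd_mul_right (eb i hi) _).trans h'
    · exact (mul_dvd_mul_right (ee i hi) _).trans h'
  have hU : o.Us ≠ 0 := fun h => o.zn (by rwa [h, mul_zero, zero_dvd_iff] at hz)
  obtain ⟨ω, v, hv, hω⟩ := unit_fac hU
  have ω1 : 1 ≤ ω := by
    rcases Nat.eq_zero_or_pos ω with rfl | h
    · have := o.U0
      rw [hω, pow_zero, one_mul] at this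
      exact absurd this (isUnit_iff_constantCoeff.1 hv).ne_zero
    · exact h
  obtain ⟨g1, g2, g3⟩ := base hq o (by omega) hz eb ee
  have x1 : (X : k⟦X⟧) ^ (e + ω) ∣ X ^ e * o.Us := ⟨v, by rw [hω]; ring⟩
  have x2 : (X : k⟦X⟧) ^ (e + 2 * ω) ∣ X ^ e * o.Us ^ 2 := ⟨v ^ 2, by rw [hω]; ring⟩
  obtain ⟨o', pb, pe, pU, pz⟩ := hr k d (d + 1) o hM
  have cb : ∀ i, co2 i 0 o'.b = ram k (d + 1) (co2 i 0 o.b) := fun i => by rw [pb, co2_mA]
  have ce : ∀ i, co2 i 0 o'.e = ram k (d + 1) (co2 i 0 o.e) := fun i => by rw [pe, co2_mA]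
  have e2 : 1 ≤ (d + 1) * e := Nat.mul_pos hM e1
  have ω2 : 1 ≤ (d + 1) * ω := Nat.mul_pos hM ω1
  have fU : o'.Us = X ^ ((d + 1) * ω) * ram k (d + 1) v := by
    rw [pU, hω, map_mul, map_pow, ram_X hM, ← pow_mul]
  have fz : X ^ ((d + 1) * e + (d + 1) * ω) ∣ o'.zs := by
    rw [pz, ← mul_add]
    exact ram_dvd hM (x1.trans hz)
  have fb : ∀ i, 1 ≤ i → X ^ ((d + 1) * e) ∣ co2 i 0 o'.b := fun i hi => by
    rw [cb]
    exact ram_dvd hM (eb i hi)
  have fe : ∀ i, 2 ≤ i → X ^ ((d + 1) * e) ∣ co2 i 0 o'.e := fun i hi => by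
    rw [ce]
    exact ram_dvd hM (ee i hi)
  have fn : ¬ ((∀ i, 1 ≤ i → X ^ ((d + 1) * e + 1) ∣ co2 i 0 o'.b) ∧
      ∀ i, 2 ≤ i → X ^ ((d + 1) * e + 1) ∣ co2 i 0 o'.e) := fun h =>
    en ⟨fun i hi => dvd_of_ram hM (cb i ▸ h.1 i hi), fun i hi => dvd_of_ram hM (ce i ▸ h.2 i hi)⟩
  by_cases h0 : co2 0 0 o'.b = 0 ∧ co2 1 0 o'.e = 0 ∧ co2 0 0 o'.e = 0
  · refine ⟨o', 0, 1, _, _, _, by omega, le_rfl, e2, ω2, by omega, hv.map _, fU, fz, ?_, ?_, ?_,
      fun _ => h0, by omega, fb, fe, fn⟩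
    · rw [h0.1]; exact dvd_zero _
    · rw [h0.2.1]; exact dvd_zero _
    · rw [h0.2.2]; exact dvd_zero _
  · have y1 : (d + 1) * e + 2 * ω ≤ (d + 1) * (e + ω) := by nlinarith
    obtain ⟨N, N1, ⟨n1, n2, n3⟩, nn⟩ := last
      (P := fun N => X ^ ((d + 1) * e + N) ∣ co2 0 0 o'.b ∧ X ^ ((d + 1) * e + N) ∣ co2 1 0 o'.e ∧
        X ^ ((d + 1) * e + (d + 1) * N) ∣ co2 0 0 o'.e) (a := 2 * ω)
      ⟨by rw [cb]; exact (pow_dvd_pow _ y1).trans (ram_dvd hM (x1.trans g1)),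
        by rw [ce]; exact (pow_dvd_pow _ y1).trans (ram_dvd hM (x1.trans g2)),
        by rw [ce, ← mul_add]; exact ram_dvd hM (x2.trans g3)⟩
      (fun h => h0 ⟨zero_of (fun n => (d + 1) * e + n) (fun n => by omega) fun n hn => (h n hn).1,
        zero_of (fun n => (d + 1) * e + n) (fun n => by omega) fun n hn => (h n hn).2.1,
        zero_of (fun n => (d + 1) * e + (d + 1) * n) (fun n => by nlinarith)
          fun n hn => (h n hn).2.2⟩)
    refine ⟨o', 1, N, _, _, _, le_rfl, by omega, e2, ω2, fun _ => by nlinarith, hv.map _, fU, fz,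
      n1, n2, n3, by omega, fun _ h => nn ⟨h.1, h.2.1, ?_⟩, fb, fe, fn⟩
    have h3 := h.2.2
    rw [ce, ← mul_add] at h3 ⊢
    exact ram_dvd hM (dvd_of_ram hM h3)

end Pool.Agent.MP_05b4bd_ag.ES

end MrgPart1

-- ======== part 2: formerly Pool.Agent.MP_05b4bd_ag.esc.Cmp
section MrgPart2

/-! Escaping centres: comparison of approximate first integrals. -/

namespace Pool.Agent.MP_05b4bd_ag.ES

open PowerSeries LaurentSeries HC

namespace Cmp

variable {L E : Type} [Field L] [Field E] {D : L →+ L} {vb : TT L}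

theorem VT_add (a b : TT L) : VT D vb (a + b) = VT D vb a + VT D vb b := by
  simp only [VT, map_add]
  ring

theorem VT_sub (a b : TT L) : VT D vb (a - b) = VT D vb a - VT D vb b := by
  simp only [VT, map_sub]
  ring

theorem VT_X_pow_mul (n : ℕ) (a : TT L) : VT D vb (X ^ n * a) = X ^ n * VT D vb a := by
  simp only [VT, cw_X_pow_mul]
  ring

theorem VT_mul (hD : IsDer D) (a b : TT L) :
    VT D vb (a * b) = VT D vb a * b + a * VT D vb b := by
  simp only [VT, hD.coefL.coefw a b, isDer_thL.coefw a b]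
  ring

theorem VT_pow (hD : IsDer D) (a : TT L) (n : ℕ) :
    VT D vb (a ^ (n + 1)) = (n + 1 : ℕ) * a ^ n * VT D vb a := by
  simp only [VT, hD.coefL.coefw.pow a, isDer_thL.coefw.pow a, Nat.add_sub_cancel]
  ring

theorem cc_VT (h : cc vb = 0) (a : TT L) : cc (VT D vb a) = cwL D (cc a) := by
  simp only [VT, map_sub, map_mul, h, zero_mul, sub_zero, cc_cw]

theorem VT_mT {D' : E →+ E} {ι : L →+* E} (h : ∀ c, D' (ι c) = ι (D c)) (a : TT L) :
    VT D' (mT ι vb) (mT ι a) = mT ι (VT D vb a) := by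
  simp only [VT, mT, map_sub, map_mul, cw_map' (cwL_mapL h), cw_map' (thL_mapL ι)]

theorem dh_add (d : ℕ) (a b : L⸨X⸩) : dh d (a + b) = dh d a + dh d b := by
  simp only [dh, map_add]
  ring

theorem dh_zero (d : ℕ) : dh d (0 : L⸨X⸩) = 0 := by
  simp only [dh, map_zero, mul_zero, neg_zero]

theorem dh_mapL (ι : L →+* E) (d : ℕ) (c : L⸨X⸩) : dh d (mapL ι c) = mapL ι (dh d c) := by
  simp only [dh, map_neg, map_mul, mapL_wL, thL_mapL, map_inv₀, map_natCast]

theorem D_inv (hD : IsDer D) (n : ℕ) : D (n : L)⁻¹ = 0 := by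
  by_cases h : (n : L) = 0
  · rw [h, inv_zero, map_zero]
  · rw [hD.inv (mul_inv_cancel₀ h), hD.natCast, mul_zero, neg_zero]

theorem D_mul (hD : IsDer D) (n : ℕ) {c : L⸨X⸩} (hc : cwL D c = 0) :
    cwL D (cL L (n : L)⁻¹ * c) = 0 := by
  rw [hD.coefL, hc, cwL_cL, D_inv hD, map_zero, zero_mul, mul_zero, add_zero]

theorem D_dh (hD : IsDer D) (d : ℕ) {c : L⸨X⸩} (hc : cwL D c = 0) : cwL D (dh d c) = 0 := by
  rw [dh, map_neg, mul_assoc, cwL_wL_mul, D_mul hD, mul_zero, neg_zero]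
  rw [← thL_cwL, hc, map_zero]

theorem VT_C [CharZero L] (hD : IsDer D) {d : ℕ} (hd : 1 ≤ d) {c : L⸨X⸩} (hc : cwL D c = 0) :
    VT D vb (C c) = C (dh d c) * VT D vb (C (wL L (-(d : ℤ)))) := by
  have h1 : (d : L) ≠ 0 := Nat.cast_ne_zero.2 (by omega)
  have h2 : wL L d * wL L (-(d : ℤ)) = 1 := by rw [← wL_add, add_neg_cancel, wL_zero]
  have h3 : cL L (d : L)⁻¹ * (d : L⸨X⸩) = 1 := by
    rw [← map_natCast (cL L), ← map_mul, inv_mul_cancel₀ h1, map_one]
  have h4 : dh d c * thL L (wL L (-(d : ℤ))) = thL L c := by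
    rw [dh, thL_wL, Int.cast_neg, Int.cast_natCast]
    linear_combination (cL L (d : L)⁻¹ * (d : L⸨X⸩) * thL L c) * h2 + thL L c * h3
  simp only [VT, cw_C, hc, cwL_wL hD.one, map_zero]
  rw [← h4, map_mul]
  ring

/-- the Taylor polynomial of a constant series -/
theorem tay [CharZero L] (hD : IsDer D) {d : ℕ} (hd : 1 ≤ d) {h : TT L}
    (hh : cc h = wL L (-(d : ℤ))) {c : L⸨X⸩} (hc : cwL D c = 0) (N : ℕ) :
    ∃ (T A : TT L) (e : L⸨X⸩), cwL D e = 0 ∧ cc T = c ∧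
      VT D vb T = A * VT D vb h +
        C e * (h - C (wL L (-(d : ℤ)))) ^ N * VT D vb (C (wL L (-(d : ℤ)))) ∧
      cc (A + C e * (h - C (wL L (-(d : ℤ)))) ^ N) = dh d c := by
  have hu : cc (h - C (wL L (-(d : ℤ)))) = 0 := by rw [map_sub, hh, constantCoeff_C, sub_self]
  have hV := VT_sub (D := D) (vb := vb) h (C (wL L (-(d : ℤ))))
  generalize h - C (wL L (-(d : ℤ))) = u at hu hV
  induction N with
  | zero => exact ⟨C c, 0, dh d c, D_dh hD d hc, constantCoeff_C c, by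
      rw [VT_C hD hd hc]; ring, by simp⟩
  | succ N ih =>
    obtain ⟨T, A, e, h1, h2, h3, h4⟩ := ih
    have h5 := D_mul hD (N + 1) h1
    have h6 : (C (cL L ((N + 1 : ℕ) : L)⁻¹ * e) : TT L) * (N + 1 : ℕ) = C e := by
      rw [← map_natCast (C : L⸨X⸩ →+* TT L), ← map_mul, ← map_natCast (cL L), mul_right_comm,
        ← map_mul, inv_mul_cancel₀ (Nat.cast_ne_zero.2 (Nat.succ_ne_zero N)), map_one, one_mul]
    refine ⟨T + C (cL L ((N + 1 : ℕ) : L)⁻¹ * e) * u ^ (N + 1), A + C e * u ^ N,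
      dh d (cL L ((N + 1 : ℕ) : L)⁻¹ * e), D_dh hD d h5, ?_, ?_, ?_⟩
    · rw [map_add, map_mul, map_pow, hu, h2, zero_pow (Nat.succ_ne_zero N), mul_zero, add_zero]
    · rw [VT_add, VT_mul hD, VT_pow hD, VT_C hD hd h5, h3, hV]
      linear_combination (u ^ N * (VT D vb h - VT D vb (C (wL L (-(d : ℤ)))))) * h6
    · rw [map_add, h4, map_mul, map_pow, hu, zero_pow (Nat.succ_ne_zero N), mul_zero, add_zero]

theorem lift [CharZero L] (hD : IsDer D) {d n : ℕ} (hd : 1 ≤ d) (hn : 1 ≤ n) {h Xi : TT L}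
    (hv : cc vb = 0) (hh : cc h = wL L (-(d : ℤ))) (hV : VT D vb h = X ^ n * Xi) {c : L⸨X⸩}
    (hc : cwL D c = 0) :
    ∃ T Y : TT L, cc T = c ∧ VT D vb T = X ^ n * Y ∧ cc Y = dh d c * cc Xi := by
  obtain ⟨T, A, e, -, h2, h3, h4⟩ := tay (vb := vb) hD hd hh hc n
  have hu : cc (h - C (wL L (-(d : ℤ)))) = 0 := by rw [map_sub, hh, constantCoeff_C, sub_self]
  have hw : cc (VT D vb (C (wL L (-(d : ℤ))))) = 0 := by
    rw [cc_VT hv, constantCoeff_C, cwL_wL hD.one]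
  rw [map_add, map_mul, map_pow, hu, zero_pow (by omega), mul_zero, add_zero] at h4
  obtain ⟨u, hu'⟩ := X_dvd_iff.2 hu
  refine ⟨T, A * Xi + C e * u ^ n * VT D vb (C (wL L (-(d : ℤ)))), h2, ?_, ?_⟩
  · rw [h3, hV, hu']
    ring
  · rw [map_add, map_mul, map_mul, hw, h4, mul_zero, add_zero]

end Cmp

open Cmp in
theorem cmpS : CmpStmt := by
  intro L E _ _ _ D D' ι d n vb h Xi S Uu hd hn hE hc hv hh hV hS
  have hD : IsDer D := fun a b => ι.injective (by
    rw [← hE.2, map_mul, hE.1, hE.2, hE.2, map_add, map_mul, map_mul])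
  have hm : ∀ a : TT L, cc (mT ι a) = mapL ι (cc a) := fun a => rfl
  have hX : mT ι (X : TT L) = X := map_X _
  have hv' : cc (mT ι vb) = 0 := by rw [hm, hv, map_zero]
  have key : ∀ j ≤ n, ∃ (S0 Y : TT L) (S' : TT E), S = mT ι S0 + X ^ j * S' ∧
      VT D vb S0 = X ^ n * Y ∧ cc Y = dh d (cc S0) * cc Xi := by
    intro j hj
    induction j with
    | zero => exact ⟨0, 0, S, by simp, by simp [VT], by simp [dh_zero]⟩
    | succ j ih =>
      obtain ⟨S0, Y, S', h1, h2, h3⟩ := ih (by omega)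
      obtain ⟨m, rfl⟩ : ∃ m, n = j + (m + 1) := ⟨n - j - 1, by omega⟩
      have h4 : VT D' (mT ι vb) S' = X ^ (m + 1) * (Uu - mT ι Y) := by
        rw [h1, VT_add, VT_mT hE.2, h2, VT_X_pow_mul, map_mul, map_pow, hX] at hS
        refine mul_left_cancel₀ (pow_ne_zero j (X_ne_zero (R := E⸨X⸩))) ?_
        linear_combination hS
      have h5 : cwL D' (cc S') = 0 := by
        rw [← cc_VT hv', h4, map_mul, map_pow, constantCoeff_X, zero_pow (Nat.succ_ne_zero m),
          zero_mul]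
      obtain ⟨c, h6⟩ := exists_mapL ι.injective (f := cc S') fun i => hc _ (by
        rw [← coeff_cwL, h5]; rfl)
      have h7 : cwL D c = 0 := mapL_inj ι.injective (by rw [← cwL_mapL hE.2, ← h6, h5, map_zero])
      obtain ⟨T, Z, h8, h9, h10⟩ := lift hD hd hn hv hh hV h7
      obtain ⟨S1, h11⟩ := X_dvd_iff.2
        (show cc (S' - mT ι T) = 0 by rw [map_sub, hm, h8, h6, sub_self])
      refine ⟨S0 + X ^ j * T, Y + X ^ j * Z, S1, ?_, ?_, ?_⟩
      · rw [h1, map_add, map_mul, map_pow, hX]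
        linear_combination X ^ j * h11
      · rw [VT_add, VT_X_pow_mul, h2, h9]
        ring
      · rw [map_add, map_add, map_mul, map_mul, map_pow, constantCoeff_X, h3, h10, h8, dh_add]
        cases j with
        | zero => rw [pow_zero, one_mul, one_mul, add_mul]
        | succ j => rw [zero_pow (Nat.succ_ne_zero j), zero_mul, zero_mul, dh_zero, add_zero,
            add_zero]
  obtain ⟨S0, Y, S', h1, h2, h3⟩ := key n le_rfl
  have h0 : (0 : E⸨X⸩) ^ n = 0 := zero_pow (by omega)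
  refine ⟨S0, S', h1, ?_, ?_⟩
  · rw [← cc_VT hv', hS, map_mul, map_pow, constantCoeff_X, h0, zero_mul]
  · have h4 : VT D' (mT ι vb) S' = Uu - mT ι Y := by
      rw [h1, VT_add, VT_mT hE.2, h2, VT_X_pow_mul, map_mul, map_pow, hX] at hS
      refine mul_left_cancel₀ (pow_ne_zero n (X_ne_zero (R := E⸨X⸩))) ?_
      linear_combination hS
    rw [← cc_VT hv', h4, map_sub, hm, h3, h1, map_add, map_mul (cc : TT E →+* _), map_pow,
      constantCoeff_X, h0, zero_mul, add_zero, hm, dh_mapL, map_mul]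

end Pool.Agent.MP_05b4bd_ag.ES

end MrgPart2

-- ======== part 3: formerly Pool.Agent.MP_05b4bd_ag.esc.Deck
section MrgPart3

/-! A first integral gives a deck transformation over the function field. -/

namespace Pool.Agent.MP_05b4bd_ag.ES

open PowerSeries LaurentSeries HC

namespace Deck

section
variable {κ κ' : Type} [Field κ] [Field κ']

/-- The reduction of a deck transformation. -/
noncomputable abbrev p0 (σ : κ⟦X⟧) : κ⟦X⟧ →+* κ⸨X⸩ := (coeL κ).comp (sb σ)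

theorem charL [CharZero κ] : CharZero κ⸨X⸩ := charZero_of_injective_ringHom (cL_inj (R := κ))

theorem p0_X {σ : κ⟦X⟧} (h : cc σ = 0) : p0 σ X = coeL κ σ := by
  show coeL κ (sb σ X) = _
  rw [sb_X h]

theorem p0_ne {σ f : κ⟦X⟧} (h : cc σ = 0) (h' : σ ≠ 0) (hf : f ≠ 0) : p0 σ f ≠ 0 := fun e =>
  hf ((coeL_inj.comp (sb_inj h h')) (e.trans (map_zero (p0 σ)).symm))

theorem dX_ne [CharZero κ] {ν : ℕ} {f : κ⟦X⟧} (hν : 1 ≤ ν) (h : OrdIs ν f) : dX κ f ≠ 0 := by
  intro e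
  obtain ⟨m, rfl⟩ : ∃ m, ν = m + 1 := ⟨ν - 1, by omega⟩
  have := coeff_dX f m
  rw [e, map_zero] at this
  exact mul_ne_zero h.1 (Nat.cast_add_one_ne_zero m) this.symm

theorem ord_map (τ : κ →+* κ') {ν : ℕ} {f : κ⟦X⟧} (h : OrdIs ν f) : OrdIs ν (map τ f) :=
  ⟨by rw [coeff_map]; exact (map_ne_zero τ).2 h.1, fun j hj => by
    rw [coeff_map, h.2 j hj, map_zero]⟩

theorem cc_map (τ : κ →+* κ') {f : κ⟦X⟧} (h : cc f = 0) : cc (map τ f) = 0 := by
  rw [← coeff_zero_eq_constantCoeff_apply, coeff_map, coeff_zero_eq_constantCoeff_apply, h,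
    map_zero]

theorem map_ne (τ : κ →+* κ') {f : κ⟦X⟧} (h : f ≠ 0) : map τ f ≠ 0 := fun e =>
  h (map_injective τ τ.injective (e.trans (map_zero _).symm))

theorem map_map' {A B T : Type} [CommRing A] [CommRing B] [CommRing T] (f : A →+* B)
    (g : B →+* T) (c : A⟦X⟧) : map g (map f c) = map (g.comp f) c := by
  ext n
  simp only [coeff_map, RingHom.comp_apply]

theorem cc_mT (τ : κ →+* κ') (s : TT κ) : cc (mT τ s) = mapL τ (cc s) := by
  rw [← coeff_zero_eq_constantCoeff_apply, ← coeff_zero_eq_constantCoeff_apply]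
  exact coeff_map _ _ _

theorem cc_out_X [CharZero κ] {σ : κ⟦X⟧} (h : cc σ = 0) (h' : σ ≠ 0) {Φ : AA κ →+* TT κ}
    (hΦ : IsOut 0 Φ (p0 σ)) : cc (Φ X) = coeL κ σ := by
  have := charL (κ := κ)
  rw [hΦ.cc_eq (p0_ne h h' X_ne_zero), red_X, p0_X h]

/-- The lift of a deck transformation is compatible with a change of the coefficient field. -/
theorem nat_deck [CharZero κ] [CharZero κ'] (τ : κ →+* κ') {σ : κ⟦X⟧} (h : cc σ = 0) (h' : σ ≠ 0)
    {ν : ℕ} (hν : 1 ≤ ν) {r : AA κ} (hr : OrdIs ν (red r)) {Φ : AA κ →+* TT κ}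
    {Φ' : AA κ' →+* TT κ'} (hΦ : IsOut 0 Φ (p0 σ)) (hΦ' : IsOut 0 Φ' (p0 (map τ σ)))
    (e : Φ r = iT r) (e' : Φ' (mA τ r) = iT (mA τ r)) : Φ' X = mT τ (Φ X) := by
  have := charL (κ := κ')
  have h0 : p0 (map τ σ) X ≠ 0 := p0_ne (cc_map τ h) (map_ne τ h') X_ne_zero
  obtain ⟨Ψ, hΨ, eΨ⟩ := exists_isOut 0 h0 (σ := mT τ (Φ X)) (by
    rw [cc_mT, cc_out_X h h' hΦ, mapL_coeL, p0_X (cc_map τ h)])
  have e2 : Ψ (mA τ r) = Φ' (mA τ r) := by
    rw [IsOut.nat τ h h' hΦ hΨ eΨ, e, mT_iT, e']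
  rw [← hΨ.deck_unique hΦ' h0 (p0_ne (cc_map τ h) (map_ne τ h')
    (dX_ne hν (by rw [red_mA]; exact ord_map τ hr))) e2, eΨ]

theorem vt_mT (τ : κ →+* κ') {D : κ →+ κ} {D' : κ' →+ κ'} (h : ∀ c, D' (τ c) = τ (D c))
    (vb s : TT κ) : VT D' (mT τ vb) (mT τ s) = mT τ (VT D vb s) := by
  unfold VT
  rw [map_sub, map_mul]
  unfold mT
  rw [cw_map' (cwL_mapL h), cw_map' (thL_mapL τ)]

theorem isDer_zero {R : Type} [CommRing R] : IsDer (0 : R →+ R) := fun _ _ => by simp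

theorem cw_zero {R S : Type} [CommRing R] [CommRing S] (c : R⟦X⟧) : cw (0 : R →+ S) c = 0 := by
  ext n
  rw [coeff_cw]
  simp

theorem cw0 {R S : Type} [CommRing R] [CommRing S] : cw (0 : R →+ S) = 0 :=
  AddMonoidHom.ext cw_zero

theorem DA_zero (c : AA κ) : DA κ 0 c = X * dX _ c := by
  unfold DA
  rw [zero_nsmul, sub_zero, thP_apply]

theorem iT_ne {a : AA κ} (h : red a ≠ 0) : cc (iT a) ≠ 0 := by
  rw [cc_iT]
  exact fun e => h (coeL_inj (e.trans (map_zero _).symm))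

/-- A first integral is killed by `V`. -/
theorem vt_fi {D : κ →+ κ} {a b r : AA κ} {vb : TT κ} (ha : red a ≠ 0) (hv : iT a * vb = iT b)
    (h : FIe (cw D) a (X * b) r) : VT D vb (iT r) = 0 := by
  have ha' : iT a ≠ 0 := fun e => iT_ne ha (by rw [e, map_zero])
  refine (mul_eq_zero.1 ?_).resolve_left ha'
  unfold VT
  rw [cw_iT, th_iT, mul_sub, ← mul_assoc, hv, ← map_mul, ← map_mul, thP_apply]
  unfold FIe at h
  rw [h, mul_comm X b, mul_assoc, sub_self]

/-- The velocity of the deck transformation. -/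
theorem vt_sigma [CharZero κ] {D : κ →+ κ} (hD : IsDer D) {a b r : AA κ} {vb : TT κ}
    (ha : red a ≠ 0) (hv : iT a * vb = iT b) (h : FIe (cw D) a (X * b) r) {ν : ℕ} (hν : 1 ≤ ν)
    (hr : OrdIs ν (red r)) {σ : κ⟦X⟧} (h1 : cc σ = 0) (h2 : σ ≠ 0) {Φ : AA κ →+* TT κ}
    (hΦ : IsOut 0 Φ (p0 σ)) (e : Φ r = iT r) : Φ a * VT D vb (Φ X) = -(Φ X * Φ b) := by
  have := charL (κ := κ)
  have h0 : p0 σ X ≠ 0 := p0_ne h1 h2 X_ne_zero
  have c1 := hΦ.chain h0 hD.coefL hD (fun c => by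
    rw [p0_X h1]
    show cwL D (coeL κ (sb σ c)) = coeL κ (sb σ (cw D c)) + coeL κ (sb σ (dX κ c)) * _
    rw [cwL_coeL, cwL_coeL, cw_sb h1 hD, map_add, map_mul]) r
  have c2 := hΦ.chain h0 isDer_thL isDer_zero (fun c => by
    rw [p0_X h1, cw_zero, map_zero, zero_add]
    show thL κ (coeL κ (sb σ c)) = coeL κ (sb σ (dX κ c)) * _
    rw [thL_coeL, thL_coeL, thP_apply, thP_apply, dX_sb h1, ← map_mul]
    congr 1
    ring) r
  rw [cw0, cw_zero, map_zero, mul_zero, zero_add] at c2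
  rw [DA_zero] at c1 c2
  have v := vt_fi ha hv h
  rw [← e] at v
  have hn : Φ (X * dX _ r) ≠ 0 := by
    intro z
    have := hΦ.cc_eq h0 (X * dX _ r)
    rw [z, map_zero, map_mul, red_X] at this
    refine p0_ne h1 h2 (mul_ne_zero X_ne_zero ?_) this.symm
    show map cc (dX _ r) ≠ 0
    rw [← dX_map]
    exact dX_ne hν hr
  have f : Φ a * Φ (cw (cw D) r) = Φ b * Φ (X * dX _ r) := by
    unfold FIe at h
    rw [← map_mul, ← map_mul, h, mul_comm X b, mul_assoc]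
  refine mul_left_cancel₀ hn ?_
  unfold VT at v ⊢
  linear_combination Φ a * Φ X * v - Φ a * c1 + Φ a * vb * c2 - Φ X * f

/-- Chain rule for the extension fixing the variable. -/
theorem hat_chain {R S : Type} [CommRing R] [CommRing S] {φ : R →+* S⟦X⟧} {δ : S →+ S}
    (hδ : IsDer δ) {L1 L2 : R →+ R} (h1 : IsDer L1) (h2 : IsDer L2) {a : S⟦X⟧}
    (h : ∀ c, cw δ (φ c) = φ (L1 c) + a * φ (L2 c)) (z : R⟦X⟧) :
    cw δ (hat φ z) = hat φ (cw L1 z) + a * hat φ (cw L2 z) := by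
  have k := derExt (Ideal.span {(X : S⟦X⟧)})
    (((hδ.coefw.comp_hom (hat φ)).sub (h1.coefw.hom_comp (hat φ))).sub
      ((h2.coefw.hom_comp (hat φ)).mulLeft a)) (fun r => ?_) ?_
      (by rw [hat_X]; exact Ideal.mem_span_singleton_self _) z
  · have k' : cw δ (hat φ z) - hat φ (cw L1 z) - a * hat φ (cw L2 z) = 0 := k
    linear_combination k'
  · show cw δ (hat φ (C r)) - hat φ (cw L1 (C r)) - a * hat φ (cw L2 (C r)) = 0
    rw [cw_C, cw_C, hat_C, hat_C, hat_C, h]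
    ring
  · show cw δ (hat φ X) - hat φ (cw L1 X) - a * hat φ (cw L2 X) = 0
    rw [hat_X, cw_X hδ.one, cw_X h1.one, cw_X h2.one, map_zero]
    ring

/-- The extension of the deck transformation commutes with `V`. -/
theorem exists_comm [CharZero κ] {D : κ →+ κ} (hD : IsDer D) {a b : AA κ} {vb : TT κ}
    (ha : red a ≠ 0) (hv : iT a * vb = iT b) {σ : κ⟦X⟧} (h1 : cc σ = 0) (h2 : σ ≠ 0)
    (h3 : cw D σ = 0) {Φ : AA κ →+* TT κ} (hΦ : IsOut 0 Φ (p0 σ))
    (e : Φ a * VT D vb (Φ X) = -(Φ X * Φ b)) : ∃ φ : κ⸨X⸩ →+* TT κ,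
      (∀ c, cc (φ (coeL κ c)) = coeL κ (sb σ c)) ∧
      (∀ c, cwL D (cc (φ c)) = cc (φ (cwL D c))) ∧
      ∀ z, VT D vb (hat φ z) = hat φ (VT D vb z) := by
  have := charL (κ := κ)
  have h0 : p0 σ X ≠ 0 := p0_ne h1 h2 X_ne_zero
  obtain ⟨φ, e1, e2, e3, e4⟩ := IsOut.ext h1 h2 hΦ
  obtain ⟨u, hu⟩ := (hΦ.unit h0).1.exists_right_inv
  have hX := cc_out_X h1 h2 hΦ
  refine ⟨φ, fun c => ?_, fun c => ?_, fun z => ?_⟩
  · rw [e1, hΦ.cc_eq h0, red_mapC]
    rfl
  · have k := congrArg cc (e4 D hD c)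
    rw [map_add, map_mul, map_mul, map_mul, cc_cw, cc_cw, hX, cwL_coeL, h3, map_zero, mul_zero,
      add_zero] at k
    exact mul_left_cancel₀ (fun z => h2 (coeL_inj (z.trans (map_zero _).symm))) k
  · have k3 := hat_chain (φ := φ) isDer_thL isDer_zero isDer_thL
      (a := u * cw (thL κ) (Φ X)) (fun c => by
        have := e3 c
        rw [AddMonoidHom.zero_apply, map_zero]
        linear_combination u * this - cw (thL κ) (φ c) * hu) z
    have k4 := hat_chain (φ := φ) hD.coefL hD.coefL isDer_thL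
      (a := u * cw (cwL D) (Φ X)) (fun c => by
        have := e4 D hD c
        linear_combination u * this + (φ (cwL D c) - cw (cwL D) (φ c)) * hu) z
    rw [cw_zero, map_zero, zero_add] at k3
    have ha' : Φ a ≠ 0 := fun z => p0_ne h1 h2 ha (by rw [← hΦ.cc_eq h0, z, map_zero])
    have kv : Φ a * hat φ vb = Φ b := by
      rw [← e2, ← e2, out_zero, ← map_mul, hv]
    have ks : VT D vb (Φ X) = -(Φ X * hat φ vb) := by
      refine mul_left_cancel₀ ha' ?_
      rw [e, ← kv]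
      ring
    unfold VT at ks ⊢
    rw [k3, k4, map_sub, map_mul]
    linear_combination u * hat φ (cw (thL κ) z) * ks - hat φ vb * hat φ (cw (thL κ) z) * hu

theorem mT_id (s : TT κ) : mT (RingHom.id κ) s = s := by
  ext n m
  unfold mT
  rw [coeff_map, coeff_mapL, RingHom.id_apply]

theorem mapL_id (s : κ⸨X⸩) : mapL (RingHom.id κ) s = s := by
  ext m
  rw [coeff_mapL, RingHom.id_apply]

theorem red_ne [CharZero κ] {d : ℕ} (hd : 1 ≤ d) : (-((d : κ⟦X⟧) * X)) ≠ 0 := by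
  refine neg_ne_zero.2 (mul_ne_zero ?_ X_ne_zero)
  rw [← map_natCast (C : κ →+* κ⟦X⟧)]
  exact fun e => (Nat.cast_ne_zero.2 (by omega) : (d : κ) ≠ 0)
    (C_injective (e.trans (map_zero _).symm))

theorem red_a (τ : κ →+* κ') {d : ℕ} {a : AA κ} (h : red a = -((d : κ⟦X⟧) * X)) :
    red (mA τ a) = -((d : κ'⟦X⟧) * X) := by
  rw [red_mA, h, map_neg, map_mul, map_natCast, map_X]

theorem fi_push (τ : κ →+* κ') {D : κ →+ κ} {D' : κ' →+ κ'} (h : ∀ c, D' (τ c) = τ (D c))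
    {a b r : AA κ} (hr : FIe (cw D) a (X * b) r) :
    FIe (cw D') (mA τ a) (X * mA τ b) (mA τ r) := by
  have k := hr.push (D' := cw D') (η := map τ) (cw_map' h)
  rw [map_mul, map_X] at k
  exact k

end

end Deck

open Deck

theorem deckS (hE : EvenStmt) (hDi : DiscStmt) (hA : AmalgStmt) (hC : CmpStmt) : DeckStmt := by
  intro k L U _ _ _ _ _ d I D1 i r r0 ν hd hnd hD hr hred hν hord
  have cL' : CharZero L := charZero_of_injective_ringHom I.κ.injective
  have cU : CharZero U := charZero_of_injective_ringHom i.injective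
  have cUL := charL (κ := U)
  have cLL := charL (κ := L)
  have : NeZero (ν : k) := ⟨Nat.cast_ne_zero.2 (by omega)⟩
  have : NeZero ν := ⟨by omega⟩
  obtain ⟨ω, hω⟩ := HasEnoughRootsOfUnity.exists_primitiveRoot k ν
  have hω1 : ∀ j : ℕ, (ω ^ j) ^ ν = 1 := fun j => by
    rw [← pow_mul, mul_comm, pow_mul, hω.pow_eq_one, one_pow]
  -- the deck transformations of the reduction and their lifts over `U`
  have hs : ∀ j : ℕ, ∃ σ, OrdIs 1 σ ∧ coeff 1 σ = ω ^ j ∧ sb σ r0 = r0 := fun j =>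
    exists_sig hν hord le_rfl (by rwa [mul_one]) (by rw [hω1, mul_one, mul_one])
  choose σ s1 s2 s3 using hs
  have s0 : ∀ j, cc (σ j) = 0 := fun j => by
    rw [← coeff_zero_eq_constantCoeff_apply]; exact (s1 j).2 0 one_pos
  have sn : ∀ j, σ j ≠ 0 := fun j e => (s1 j).1 (by rw [e, map_zero])
  have hro : OrdIs ν (red r) := by rw [hred]; exact ord_map _ hord
  have hΦ : ∀ j, ∃ Φ, IsOut 0 Φ (p0 (map (i.comp I.κ) (σ j))) ∧ Φ r = iT r := fun j =>
    exists_deck 0 (p0_ne (cc_map _ (s0 j)) (map_ne _ (sn j)) X_ne_zero)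
      (p0_ne (cc_map _ (s0 j)) (map_ne _ (sn j)) (dX_ne hν hro)) (by
        rw [cc_iT, hred]
        show _ = coeL U (sb _ _)
        rw [← map_sb (s0 j), s3])
  choose Φ o1 o2 using hΦ
  -- one of the lifts is defined over `L`
  have key : ∃ j, ω ^ j ≠ 1 ∧ ∃ s, Φ j X = mT i s := by
    by_contra hn
    have hx : ∀ a : {j : Fin ν // ω ^ j.1 ≠ 1}, ∃ q : ℕ × ℤ,
        ∀ e, (coeff q.1 (Φ a.1.1 X)).coeff q.2 ≠ i e := by
      intro a
      by_contra hq
      push Not at hq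
      exact hn ⟨a.1.1, a.2, exists_mT i.injective fun n m => hq (n, m)⟩
    choose q hq using hx
    obtain ⟨Ω, _, D', τ, ρ, hτ, hρ⟩ := hA L U I.D D1 i hD _
      (fun a => (coeff (q a).1 (Φ a.1.1 X)).coeff (q a).2) hq
    have cΩ : CharZero Ω := charZero_of_injective_ringHom τ.injective
    have eρ : ∀ a, (ρ a).comp i = τ.comp i := fun a => RingHom.ext (hρ a).2.1
    obtain ⟨S, _, _, ψ1, ψ2, hR, hne, hfi⟩ := hE Ω D' (mA τ (mA i I.a)) (X * mA τ (mA i I.b))
      (-(d : Ω⟦X⟧)) hτ.1 (by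
        rw [← map_natCast (C : Ω →+* Ω⟦X⟧)]
        exact ((IsUnit.mk0 _ (Nat.cast_ne_zero.2 (by omega))).map C).neg)
      (by rw [red_a τ (red_a i I.ra), neg_mul]) (by rw [nd_map, nd_map]; exact hnd)
    have f1 : ψ1 (mA τ r) = ψ2 (mA τ r) := hfi _ (fi_push τ hτ.2 hr)
    have f2 : ∀ a, ψ1 (mA (ρ a) r) = ψ2 (mA (ρ a) r) := fun a => hfi _ (by
      have k := fi_push (ρ a) (hρ a).1.2 hr
      rw [mA_mA, mA_mA, eρ, ← mA_mA, ← mA_mA] at k
      exact k)
    have hyo : OrdIs ν (red (mA τ r)) := by rw [red_mA]; exact ord_map τ hro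
    obtain ⟨Ψ, σ0, t1, t2, t3, t4, t5, t6⟩ := hDi Ω S ν ((τ.comp (i.comp I.κ)) ω) (mA τ r) ψ1 ψ2 hν
      (hω.map_of_injective (τ.comp (i.comp I.κ)).injective) hyo hR.1
      (hR.2.2 _ (by
        rw [← cc_red, ← coeff_zero_eq_constantCoeff_apply]
        exact hyo.2 0 hν) f1) (fun e => hne (by rw [e]))
    obtain ⟨j, hj, ej⟩ := (hω.map_of_injective
      (τ.comp (i.comp I.κ)).injective).eq_pow_of_pow_eq_one t3
    rw [← map_pow] at ej
    have hj1 : ω ^ j ≠ 1 := fun e => t4 (by rw [← ej, e, map_one])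
    have e0 : σ0 = map τ (map (i.comp I.κ) (σ j)) := by
      refine sig_unique hν hyo t2 (cc_map _ (cc_map _ (s0 j))) (fun e => ?_) ?_ ?_
      · rw [e, zero_pow (by omega)] at t3
        exact zero_ne_one t3
      · rw [coeff_map, coeff_map, s2, ← ej]
        rfl
      · rw [t5, red_mA, hred, ← map_sb (cc_map _ (s0 j)), ← map_sb (s0 j), s3]
    let a : {j : Fin ν // ω ^ j.1 ≠ 1} := ⟨⟨j, hj⟩, hj1⟩
    have n1 := nat_deck τ (cc_map _ (s0 j)) (map_ne _ (sn j)) hν hro (o1 j) (e0 ▸ t1) (o2 j)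
      ((t6 _).2 f1)
    have e1 : map τ (map (i.comp I.κ) (σ j)) = map (ρ a) (map (i.comp I.κ) (σ j)) := by
      rw [map_map', map_map', ← RingHom.comp_assoc, ← RingHom.comp_assoc, eρ]
    have n2 := nat_deck (ρ a) (cc_map _ (s0 j)) (map_ne _ (sn j)) hν hro (o1 j)
      (e1 ▸ e0 ▸ t1) (o2 j) ((t6 _).2 (f2 a))
    have n3 := congrArg (fun z : TT Ω => (coeff (q a).1 z).coeff (q a).2) (n2.symm.trans n1)
    simp only [mT, coeff_map, coeff_mapL] at n3
    exact (hρ a).2.2 n3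
  obtain ⟨j, hj, s, hs⟩ := key
  have l0 := cc_map I.κ (s0 j)
  have ln := map_ne I.κ (sn j)
  have oU : IsOut 0 (Φ j) (p0 (map i (map I.κ (σ j)))) := by rw [map_map']; exact o1 j
  obtain ⟨Ψ, hΨ, eΨ⟩ := exists_isOut 0 (p0_ne l0 ln X_ne_zero) (σ := s) (mapL_inj i.injective (by
    rw [← cc_mT, ← hs, cc_out_X (cc_map i l0) (map_ne i ln) oU, p0_X l0, mapL_coeL]))
  have nat := IsOut.nat i l0 ln hΨ oU (by rw [eΨ, hs])
  have ra : red I.a ≠ 0 := by rw [I.ra]; exact red_ne hd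
  have vs : Ψ I.a * VT I.D I.vb (Ψ X) = -(Ψ X * Ψ I.b) := by
    have k := vt_sigma hD.1 (vb := mT i I.vb) (by rw [red_a i I.ra]; exact red_ne hd)
      (by rw [← mT_iT, ← mT_iT, ← map_mul, I.hv]) hr hν hro (cc_map i l0) (map_ne i ln) oU (o2 j)
    refine mT_inj i.injective ?_
    rw [map_mul, map_neg, map_mul, ← vt_mT i hD.2, ← nat I.a, ← nat I.b, eΨ, ← hs]
    exact k
  obtain ⟨φ, g1, g2, g3⟩ := exists_comm I.cv.1 ra I.hv l0 ln (by
    ext n
    rw [coeff_cw, coeff_map, I.cv.2.1, map_zero]) hΨ vs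
  have v0 : cc I.vb = 0 := by
    have k := congrArg cc I.hv
    rw [map_mul, cc_iT I.b, I.rb, map_zero] at k
    exact (mul_eq_zero.1 k).resolve_left (iT_ne ra)
  obtain ⟨-, S', -, -, w⟩ := hC L L I.D I.D (RingHom.id L) d I.n I.vb I.h I.Xi (hat φ I.h)
    (hat φ I.Xi) hd I.n1 ⟨I.cv.1, fun _ => rfl⟩ (fun c _ => ⟨c, rfl⟩) v0 I.rh I.hV
    (by rw [mT_id, g3, I.hV, map_mul, map_pow, hat_X])
  rw [cc_hat, cc_hat, I.rh, mapL_id] at w
  exact ⟨σ j, cc.comp φ, cc S', s0 j, by rw [s2, hω1], by rw [s2]; exact hj, g1, g2, w⟩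

end Pool.Agent.MP_05b4bd_ag.ES

end MrgPart3

-- ======== part 4: formerly Pool.Agent.MP_05b4bd_ag.esc.EscS
section MrgPart4

/-! Centres do not escape to infinity: assembly of the cases. -/

namespace Pool.Agent.MP_05b4bd_ag.ES

open PowerSeries LaurentSeries HC

namespace EscS

theorem noPD (h3 : AfinStmt) (h4 : BmkStmt) (h5 : BfinStmt) {k : Type} [Field k] [CharZero k]
    [IsAlgClosed k] {d : ℕ} (hd : 6 ≤ d) (o : PD k d) : False := by
  by_cases c : (∃ i, 1 ≤ i ∧ co2 i 0 o.b * o.Us ∣ o.zs) ∨ ∃ i, 2 ≤ i ∧ co2 i 0 o.e * o.Us ∣ o.zs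
  · obtain ⟨ε, N, e, a, b, a0, b0, y, n, ps, qs, W, h⟩ := h4 k d o (by omega) c
    exact h5 k d ε N e a b a0 b0 y n ps qs W hd h
  · exact h3 k d o hd
      (fun i hi => (dvd_or _ _).resolve_left fun h => c (Or.inl ⟨i, hi, h⟩))
      fun i hi => (dvd_or _ _).resolve_left fun h => c (Or.inr ⟨i, hi, h⟩)

theorem strip {R : Type} [CommRing R] (n : ℕ) (x : R⟦X⟧) :
    wL R (-((n + 1 : ℕ) : ℤ)) * coeL R (X * x) = wL R (-(n : ℤ)) * coeL R x := by
  rw [map_mul, coeL_X, ← mul_assoc, ← wL_add]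
  congr 2
  push_cast
  ring

theorem raise {R : Type} [CommRing R] (n m : ℕ) (x : R⟦X⟧) :
    wL R (-(n : ℤ)) * coeL R x = wL R (-((n + m : ℕ) : ℤ)) * coeL R (X ^ m * x) := by
  rw [map_mul, coeL_X_pow, ← mul_assoc, ← wL_add]
  congr 2
  push_cast
  ring

end EscS

theorem escS (h1 : Case8Stmt) (h2 : PmkStmt) (h3 : AfinStmt) (h4 : BmkStmt) (h5 : BfinStmt) :
    EscStmt := by
  intro k _ _ _ d hd o p hp
  have key : ∀ (n : ℕ) (x y : k⟦X⟧),
      p = ![wL k (-(n : ℤ)) * coeL k x, wL k (-(n : ℤ)) * coeL k y] → ∀ i, ∃ c, p i = coeL k c := by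
    intro n
    induction n with
    | zero =>
      intro x y h
      rw [h, Fin.forall_fin_two, Nat.cast_zero, neg_zero, wL_zero, one_mul, one_mul]
      exact ⟨⟨x, rfl⟩, y, rfl⟩
    | succ n ih =>
      intro x y h
      by_cases c : cc x ≠ 0 ∨ cc y ≠ 0
      · rw [h] at hp
        obtain ⟨o'⟩ := h2 k d hd o (n + 1) x y (by omega) c hp
          (h1 k d hd o (n + 1) x y (by omega) hp)
        exact (EscS.noPD h3 h4 h5 hd o').elim
      · obtain ⟨x', rfl⟩ := X_dvd_iff.2 (by_contra fun e : cc x ≠ 0 => c (Or.inl e))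
        obtain ⟨y', rfl⟩ := X_dvd_iff.2 (by_contra fun e : cc y ≠ 0 => c (Or.inr e))
        rw [EscS.strip, EscS.strip] at h
        exact ih x' y' h
  obtain ⟨n, x, hx⟩ := exists_wL_mul (p 0)
  obtain ⟨m, y, hy⟩ := exists_wL_mul (p 1)
  refine key (n + m) (X ^ m * x) (X ^ n * y) ?_
  rw [← EscS.raise, add_comm n m, ← EscS.raise, ← hx, ← hy]
  funext i
  fin_cases i <;> rfl

end Pool.Agent.MP_05b4bd_ag.ES

end MrgPart4

-- ======== part 5: formerly Pool.Agent.MP_05b4bd_ag.esc.Kill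
section MrgPart5

/-! An infinitesimal symmetry of the Lienard form vanishes: row KILL. -/

namespace Pool.Agent.MP_05b4bd_ag.ES

open PowerSeries

theorem Kill.int {S : Type} [CommRing S] {d1 d2 d3 : S →+ S} (h1 : IsDer d1) (h2 : IsDer d2)
    (h3 : IsDer d3) (c12 : ∀ s, d1 (d2 s) = d2 (d1 s)) (c13 : ∀ s, d1 (d3 s) = d3 (d1 s))
    (c23 : ∀ s, d2 (d3 s) = d3 (d2 s)) {φ g0 g1 l a b I : S} (z0 : d1 g0 = 0) (z1 : d1 g1 = 0)
    (hJ : d3 g0 * d2 g1 = d3 g1 * d2 g0) (e1 : φ * d1 φ = l * a)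
    (e2 : φ * d2 φ - d2 g0 - φ * d2 g1 = l * b) (e3 : φ * d3 φ - d3 g0 - φ * d3 g1 = l * I) :
    l ^ 2 * (a * (d2 I - d3 b) + b * (d3 a - d1 I) + I * (d1 b - d2 a)) = 0 := by
  have a2 := congrArg d2 e1
  have a3 := congrArg d3 e1
  have b1 := congrArg d1 e2
  have b3 := congrArg d3 e2
  have i1 := congrArg d1 e3
  have i2 := congrArg d2 e3
  simp only [map_sub, h1 _ _, h2 _ _, h3 _ _, c12, c13, c23, z0, z1, map_zero] at a2 a3 b1 b3 i1 i2
  linear_combination (-(l * a)) * (i2 - b3) - l * b * (a3 - i1) - l * I * (b1 - a2) +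
    (d2 φ * d3 g1 - d3 φ * d2 g1) * e1 - d1 φ * d3 g1 * e2 + d1 φ * d2 g1 * e3 + d1 φ * hJ

theorem killS (hS : S1Stmt) : KillStmt := by
  intro k U _ _ _ d κ D δ x y a b Wt lam G0 G1 hd hO hL h0 hδ hc ha hb hJ
  obtain ⟨l', hl⟩ := hL.u.exists_right_inv
  have e3 : Wt * cw (cw δ) Wt - cw (cw δ) (C G0) - Wt * cw (cw δ) (C G1) =
      lam * (l' * (Wt * cw (cw δ) Wt - C (cw δ G0) - Wt * C (cw δ G1))) := by
    rw [← mul_assoc, hl, one_mul, cw_C, cw_C]
  have key := Kill.int isDer_dX hO.1.coefw.coefw hδ.coefw.coefw (fun s => dX_cw _ s)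
    (fun s => dX_cw _ s) (fun s => cw_comm (fun s => cw_comm hc s) s) (dX_C G0) (dX_C G1)
    (by rw [cw_C, cw_C, cw_C, cw_C, ← map_mul, ← map_mul, hJ]) hL.ea
    (by rw [cw_C, cw_C]; exact hL.eb) e3
  rw [(hL.u.pow 2).mul_right_eq_zero, ha, hδ.coefw.coefw, hb, cw_X hδ.coefw.one] at key
  have hI : l' * (Wt * cw (cw δ) Wt - C (cw δ G0) - Wt * C (cw δ G1)) = 0 := by
    by_contra hne
    exact hS k U d κ D x y a b _ hd hO (hL.nd h0) ⟨hne, by linear_combination -key⟩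
  rw [hI, mul_zero, cw_C, cw_C] at e3
  have k0 : cw δ G0 = 0 :=
    hL.const ⟨cw (cw δ) Wt - C (cw δ G1), by linear_combination -e3⟩
  have k1 : cw δ G1 = 0 := by
    rw [k0, zero_mul] at hJ
    exact (mul_eq_zero.1 hJ.symm).resolve_right h0
  refine ⟨k0, k1, ?_⟩
  rw [k0, k1, map_zero, mul_zero, sub_zero, sub_zero] at e3
  refine (mul_eq_zero.1 e3).resolve_left fun h => ?_
  have := hL.unit
  rw [h, map_zero] at this
  exact not_isUnit_zero this

end Pool.Agent.MP_05b4bd_ag.ES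

end MrgPart5

-- ======== part 6: formerly Pool.Agent.MP_05b4bd_ag.esc.Log2
section MrgPart6

/-! A symmetry at the scale of the centre makes the logarithm an infinitesimal symmetry. -/

namespace Pool.Agent.MP_05b4bd_ag.ES

open PowerSeries LaurentSeries HC

namespace Log2

section Gen
variable {R : Type} [CommRing R]

theorem isDer_dl2 : IsDer (dl2 R) :=
  IsDer.coefw (IsDer.coefw fun _ _ => Polynomial.derivative_mul)

theorem isDer_DG (ε : ℕ) : IsDer (DG R ε) := (isDer_DA ε).add isDer_dl2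

theorem dl2_X : dl2 R X = 0 :=
  cw_X (IsDer.coefw (D := (Polynomial.derivative (R := R)).toAddMonoidHom)
    fun _ _ => Polynomial.derivative_mul).one

theorem dl2_CX : dl2 R (C X) = 0 := by
  rw [dl2, cw_C, cw_X (by simp), map_zero]

theorem dl2_CC (r : Polynomial R) : dl2 R (CC r) = CC (Polynomial.derivative r) := by
  rw [dl2, CC_apply, cw_C, cw_C]; rfl

theorem dl2_tA (ε : ℕ) : dl2 R (tA _ ε) = 0 := by
  rw [tA, isDer_dl2, isDer_dl2.pow, dl2_X, dl2_CX]; simp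

theorem DA_X (ε : ℕ) : DA R ε X = X := by
  simp only [DA, AddMonoidHom.sub_apply, AddMonoidHom.nsmul_apply, thP_apply, dX_X,
    cw_X (isDer_thP (R := R)).one, smul_zero, sub_zero, mul_one]

theorem DA_CC (ε : ℕ) (r : R) : DA R ε (CC r) = 0 := by
  simp only [DA, AddMonoidHom.sub_apply, AddMonoidHom.nsmul_apply, thP_apply, CC_apply, dX_C,
    cw_C, mul_zero, map_zero, smul_zero, sub_zero]

theorem DG_X (ε : ℕ) : DG R ε X = X := by
  rw [DG, AddMonoidHom.add_apply, DA_X, dl2_X, add_zero]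

theorem DG_CC (ε : ℕ) (r : Polynomial R) : DG R ε (CC r) = CC (Polynomial.derivative r) := by
  rw [DG, AddMonoidHom.add_apply, DA_CC, dl2_CC, zero_add]

theorem DG_tA (ε : ℕ) : DG R ε (tA _ ε) = 0 := by
  rw [DG, AddMonoidHom.add_apply, DA_tA, dl2_tA, add_zero]

/-- The largest common power of the inner variable. -/
theorem tfac2 {a b : AA R} (h : a ≠ 0 ∨ b ≠ 0) :
    ∃ n a' b', a = C X ^ n * a' ∧ b = C X ^ n * b' ∧ (red a' ≠ 0 ∨ red b' ≠ 0) := by
  classical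
  have ex : ∃ n, ¬ (C X ^ (n + 1) ∣ a ∧ C X ^ (n + 1) ∣ b) := by
    by_contra hc
    push Not at hc
    have z : ∀ c : AA R, (∀ n, C X ^ (n + 1) ∣ c) → c = 0 := fun c hc =>
      co2_ext fun i j => by
        rw [co2_zero]
        exact (CX_pow_dvd_iff _ _).1 (hc i) i j (by omega)
    rcases h with h | h
    · exact h (z a fun n => (hc n).1)
    · exact h (z b fun n => (hc n).2)
  have hd : C X ^ Nat.find ex ∣ a ∧ C X ^ Nat.find ex ∣ b := by
    rcases e : Nat.find ex with _ | m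
    · simp
    · exact not_not.1 (Nat.find_min ex (by omega))
  obtain ⟨⟨a', ea⟩, ⟨b', eb⟩⟩ := hd
  refine ⟨_, a', b', ea, eb, ?_⟩
  by_contra hc
  push Not at hc
  refine Nat.find_spec ex ⟨?_, ?_⟩
  · rw [pow_succ]; exact (mul_dvd_mul_left _ (red_eq_zero.1 hc.1)).trans (dvd_of_eq ea.symm)
  · rw [pow_succ]; exact (mul_dvd_mul_left _ (red_eq_zero.1 hc.2)).trans (dvd_of_eq eb.symm)

theorem coeff_swap (n : ℕ) (c : AA R) : coeff n (swap (C X ^ n * c)) = red c := by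
  rw [map_mul, map_pow, swap_CX, coeff_X_pow_mul_self, cc_swap]

end Gen

variable {k L : Type} [Field k] [CharZero k] [Field L] [CharZero L]

/-- The chain rule along `psiL` followed by an outer map. -/
theorem chain {φ0 : k⟦X⟧ →+* L} {Φ : AA k →+* L⟦X⟧} (o : IsOut 0 Φ φ0) (h0 : φ0 X ≠ 0)
    {δ : L →+ L} (hδ : IsDer δ) (hk : ∀ r, δ (φ0 (C r)) = 0) {h : L}
    (he : δ (φ0 (exp k)) = (δ (φ0 X) - h) * φ0 (exp k)) {ε n : ℕ} {qs : k⟦X⟧}
    {P : AA (Polynomial k) →+* AA k} (hq : cc qs = 0) (pr : ∀ r, P (CC r) = map C (r : k⟦X⟧))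
    (pp : red (P (C X)) = 0) (pq : P X = C qs * map C (exp k)) (pt : P (tA _ ε) = C (X ^ n))
    (c : AA (Polynomial k)) :
    cw δ (Φ (P c)) = (cw δ (Φ X) - C h) * Φ (P (DG k ε c)) + C h * Φ (P (dl2 k c)) := by
  have hw := hδ.coefw
  have tX : Φ (C X) = X := by simpa using o.2
  have tC : ∀ f, Φ (C f) = map (φ0.comp C) f := fun f =>
    RingHom.congr_fun (homExt (K3.JX L) (g := Φ.comp C) (g' := map (φ0.comp C))
      (fun r => by rw [map_C]; exact o.map_CC r) (by rw [map_X]; exact tX)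
      (K3.mem_JX (by rw [RingHom.comp_apply, tX]))) f
  have dC : ∀ f, cw δ (Φ (C f)) = 0 := fun f => by
    ext m
    rw [tC, coeff_cw, coeff_map, map_zero]
    exact hk _
  have dE : cw δ (Φ (map C (exp k))) = (cw δ (Φ X) - C h) * Φ (map C (exp k)) := by
    have d1 : dX L (Φ (map C (exp k))) = Φ (map C (exp k)) * dX L (Φ X) := by
      rw [o.dC, show dX k (exp k) = exp k from derivative_exp k]
    refine sub_eq_zero.1 (K3.ode (ι := Unit)
      (fun _ => cw δ (Φ (map C (exp k))) - (cw δ (Φ X) - C h) * Φ (map C (exp k)))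
      (fun _ => ?_) (fun m hm _ => ?_) ())
    · rw [map_sub, map_mul, map_sub, cc_cw, cc_cw, o.ccC, o.ccX, he, constantCoeff_C, sub_self]
    · refine ((hm ()).mul_right (dX L (Φ X))).trans (dvd_of_eq ?_)
      rw [map_sub, isDer_dX, map_sub, dX_cw, dX_cw, dX_C, d1, hw]
      ring
  set g := Φ.comp P with hg
  have hT : IsDerOver g ((cw δ).comp g.toAddMonoidHom -
      ((AddMonoidHom.mulLeft (cw δ (Φ X) - C h)).comp (g.toAddMonoidHom.comp (DG k ε)) +
        (AddMonoidHom.mulLeft (C h)).comp (g.toAddMonoidHom.comp (dl2 k)))) :=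
    (hw.comp_hom g).sub ((((isDer_DG ε).hom_comp g).mulLeft _).add
      ((isDer_dl2.hom_comp g).mulLeft _))
  set T := (cw δ).comp g.toAddMonoidHom -
      ((AddMonoidHom.mulLeft (cw δ (Φ X) - C h)).comp (g.toAddMonoidHom.comp (DG k ε)) +
        (AddMonoidHom.mulLeft (C h)).comp (g.toAddMonoidHom.comp (dl2 k))) with hT'
  have ap : ∀ c, T c = cw δ (Φ (P c)) -
      ((cw δ (Φ X) - C h) * Φ (P (DG k ε c)) + C h * Φ (P (dl2 k c))) := fun c => rfl
  have t1 : ∀ a, T (CC (Polynomial.C a)) = 0 := fun a => by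
    rw [ap, DG_CC, dl2_CC, Polynomial.derivative_C, pr, Polynomial.coe_C, map_C, dC]
    simp
  have t2 : T (CC Polynomial.X) = 0 := by
    rw [ap, DG_CC, dl2_CC, Polynomial.derivative_X, pr, Polynomial.coe_X, map_X]
    simp
  have t0 : ∀ r, T (CC r) = 0 := fun r => by
    induction r using Polynomial.induction_on with
    | C a => exact t1 a
    | add p q hp hq => rw [map_add, map_add, hp, hq, add_zero]
    | monomial m a hm =>
      rw [pow_succ, ← mul_assoc, map_mul, hT, hm, t2, zero_mul, mul_zero, add_zero]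
  have tq : T X = 0 := by
    rw [ap, DG_X, dl2_X, pq, map_mul, hw, dC, dE]
    simp only [map_zero]
    ring
  have tt : T (tA _ ε) = 0 := by
    rw [ap, DG_tA, dl2_tA, pt, dC]
    simp
  have nz : g X ^ ε ≠ 0 := fun z => by
    have e : g (tA _ ε) = X ^ n := by rw [hg, RingHom.comp_apply, pt, map_pow, map_pow, tX]
    rw [tA, map_mul, map_pow, z, mul_zero] at e
    exact pow_ne_zero n X_ne_zero e.symm
  have tp : T (C X) = 0 := by
    rw [tA, hT, hT.pow, tq, map_pow, mul_zero, mul_zero, add_zero] at tt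
    exact (mul_eq_zero.1 tt).resolve_right nz
  refine sub_eq_zero.1 ((ap c).symm.trans (derExt2 (K3.JX L) hT t0 tp tq ?_ ?_ c))
  · exact K3.mem_JX' (by rw [hg, RingHom.comp_apply, o.cc_eq h0, pp, map_zero])
  · exact K3.mem_JX' (by
      rw [hg, RingHom.comp_apply, o.cc_eq h0, pq, map_mul, red_C, hq]; simp)

/-- One of the two Lienard functions has a non-zero leading form made of exponentials. -/
theorem lead (hE : ExpStmt) {d N n : ℕ} (hd : 6 ≤ d) (hN : 1 ≤ N) (hn : 1 ≤ n) {a b g0 g1 : AA k}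
    (h0 : a ≠ 0 ∨ b ≠ 0) (ha : ∀ m, coeff m (swap a) ∈ ExpCl k (-N) (d * N))
    (hb : ∀ m, coeff m (swap b) ∈ ExpCl k (-N) (d * N))
    (h : Lead (-(d : AA k)) (C (X ^ n)) (dX _) a b g0 g1) :
    ∃ (g H : AA k) (e : ℕ) (m : ℤ), (g = g0 ∨ g = g1) ∧ dX _ g = C X ^ e * H ∧ red H ≠ 0 ∧
      red H ∈ ExpCl k m (d * N) ∧ ¬ ((d * N : ℕ) : ℤ) ∣ 2 * m := by
  obtain ⟨-, E2, E3, E4⟩ := hE k
  obtain ⟨μ, a, b, rfl, rfl, hab⟩ := tfac2 h0
  have ma := ha μ
  have mb := hb μ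
  rw [coeff_swap] at ma mb
  obtain ⟨⟨e1, e2, e3, h1⟩, e4, e5, h2⟩ := h
  have dk : (d : k) ≠ 0 := Nat.cast_ne_zero.2 (by omega)
  have ui : (CC (d : k)⁻¹ : AA k) * d = 1 := by
    rw [← map_natCast (CC : k →+* AA k), ← map_mul, inv_mul_cancel₀ dk, map_one]
  have rt : red (C (X ^ n) : AA k) = 0 := by rw [red_C, cc_X_pow hn, map_zero]
  have rc : red (CC (d : k)⁻¹ : AA k) = C (d : k)⁻¹ := by rw [CC_apply, red_C, constantCoeff_C]
  have cz : (C (d : k)⁻¹ : k⟦X⟧) ≠ 0 := by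
    intro z
    exact inv_ne_zero dk (by simpa using congrArg cc z)
  have da : dX _ (C X ^ μ * a) = C X ^ μ * dX _ a :=
    isDer_dX.const_mul (by rw [← map_pow, dX_C]) a
  have nd : ∀ j : ℕ, 1 ≤ j → j ≤ 4 → ¬ ((d * N : ℕ) : ℤ) ∣ -((j * N : ℕ) : ℤ) := fun j j1 j4 z => by
    have := Nat.le_of_dvd (by positivity) (Int.natCast_dvd_natCast.1 (dvd_neg.1 z))
    nlinarith
  have sm : ∀ {m M} {x : k⟦X⟧}, x ∈ ExpCl k m M → C (d : k)⁻¹ * x ∈ ExpCl k m M := fun hx => by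
    rw [← smul_eq_C_mul]; exact Submodule.smul_mem _ _ hx
  have rd : red (dX _ a) = dX k (red a) := (dX_map _ _).symm
  by_cases c1 : red b - dX k (red a) = 0
  · have c2 : red a * red b ≠ 0 := fun z => by
      have za : red a = 0 := by
        rcases mul_eq_zero.1 z with z | z
        · exact z
        · refine E4 _ _ (by simpa using nd 1 le_rfl (by norm_num)) _ ma ?_
          rwa [z, zero_sub, neg_eq_zero] at c1
      rw [za, map_zero, sub_zero] at c1
      exact hab.elim (fun q => q za) fun q => q c1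
    have r : red (CC (d : k)⁻¹ * (CC (d : k)⁻¹ * (a * b + C (X ^ n) * (a * (e4 * a + e5 * b))))) =
        C (d : k)⁻¹ * (C (d : k)⁻¹ * (red a * red b)) := by
      rw [map_mul, map_mul, map_add, map_mul, map_mul, rt, rc, zero_mul, add_zero]
    refine ⟨g0, CC (d : k)⁻¹ * (CC (d : k)⁻¹ * (a * b + C (X ^ n) * (a * (e4 * a + e5 * b)))),
      2 * μ, -N + -N, Or.inl rfl, ?_, ?_, ?_, ?_⟩
    · linear_combination (CC (d : k)⁻¹) ^ 2 * h2 -
        (CC (d : k)⁻¹ * d + 1) * dX k⟦X⟧ g0 * ui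
    · rw [r]; exact mul_ne_zero cz (mul_ne_zero cz c2)
    · rw [r]; exact sm (sm (E2 _ _ _ _ ma _ mb))
    · have := nd 4 (by norm_num) le_rfl
      push_cast at this ⊢
      rwa [show 2 * (-(N : ℤ) + -N) = -(4 * N) by ring]
  · have r : red (CC (d : k)⁻¹ * (b - dX _ a - C (X ^ n) * (e1 * a + e2 * dX _ a + e3 * b))) =
        C (d : k)⁻¹ * (red b - dX k (red a)) := by
      rw [map_mul, map_sub, map_sub, map_mul, rt, rc, rd, zero_mul, sub_zero]
    refine ⟨g1, CC (d : k)⁻¹ * (b - dX _ a - C (X ^ n) * (e1 * a + e2 * dX _ a + e3 * b)),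
      μ, -N, Or.inr rfl, ?_, ?_, ?_, ?_⟩
    · rw [da] at h1
      linear_combination -(CC (d : k)⁻¹) * h1 - dX k⟦X⟧ g1 * ui
    · rw [r]; exact mul_ne_zero cz c1
    · rw [r]; exact sm (sub_mem mb (E3 _ _ _ ma))
    · have := nd 2 (by norm_num) (by norm_num)
      push_cast at this ⊢
      rwa [show 2 * (-(N : ℤ)) = -(2 * N) by ring]

/-- The deck map of a reflection, with the normalised primitive `y` of `H`. -/
theorem deck [IsAlgClosed k] (hD : DiscStmt) {S : Type} [CommRing S] [IsDomain S]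
    {ψ1 ψ2 : AA k →+* S} (hR : Refl ψ1 ψ2) (hne : ψ1 ≠ ψ2) {g H : AA k} {e : ℕ}
    (hg : dX _ g = C X ^ e * H) (hH : red H ≠ 0) (eg : ψ1 g = ψ2 g) :
    ∃ (Φ : AA k →+* TT k) (σ β : k⟦X⟧), IsOut 0 Φ ((coeL k).comp (sb σ)) ∧ cc σ = 0 ∧ σ ≠ 0 ∧
      coeff 1 σ ≠ 1 ∧ sb σ β = β ∧ dX k β = red H ∧ ∀ c, Φ c = iT c ↔ ψ1 c = ψ2 c := by
  obtain ⟨J, j1, j2, -⟩ := exists_int (R := k⟦X⟧)
  have c0 : c00 (J H) = 0 := by rw [c00_apply, j2, map_zero]
  have nz : ψ1 (C X) ≠ 0 := fun z => by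
    have := hR.1 (z.trans (map_zero _).symm)
    exact X_ne_zero (R := k) (by simpa using congrArg cc this)
  have hc := eq_C_of_dX (f := g - C X ^ e * J H) (by
    rw [map_sub, isDer_dX.const_mul (by rw [← map_pow, dX_C]), j1, hg, sub_self])
  have ey : ψ1 (J H) = ψ2 (J H) := by
    have q := hR.2.1 (cc (g - C X ^ e * J H))
    rw [← hc, map_sub, map_sub, eg, sub_right_inj, map_mul, map_mul, map_pow, map_pow,
      ← hR.2.1] at q
    exact mul_left_cancel₀ (pow_ne_zero _ nz) q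
  have dy : dX k (red (J H)) = red H := (dX_map _ _).trans (congrArg red (j1 H))
  obtain ⟨ν, hν⟩ := exists_ordIs (f := red (J H)) fun z => hH (by rw [← dy, z, map_zero])
  have n1 : 1 ≤ ν := by
    rcases Nat.eq_zero_or_pos ν with rfl | p
    · exact absurd (by rw [coeff_zero_eq_constantCoeff_apply]; exact (cc_red _).trans c0) hν.1
    · exact p
  have : NeZero (ν : k) := ⟨Nat.cast_ne_zero.2 (by omega)⟩
  obtain ⟨ω, hω⟩ := HasEnoughRootsOfUnity.exists_primitiveRoot k ν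
  obtain ⟨Φ, σ, o, s0, s1, s2, s4, s3⟩ :=
    hD k S ν ω (J H) ψ1 ψ2 n1 hω hν hR.1 (hR.2.2 _ c0 ey) hne
  refine ⟨Φ, σ, _, o, s0, fun z => ?_, s2, s4, dy, s3⟩
  rw [z, map_zero, zero_pow (by omega)] at s1
  exact zero_ne_one s1

end Log2

theorem log2S (hD : DiscStmt) (hL : Log1Stmt) (hP : PsiStmt) (hE : ExpStmt) : Log2Stmt := by
  intro k _ _ _ d ε N n ps qs a0 b0 G0 G1 S _ _ ψ1 ψ2 hd hε hN hn p0 q0 q1 pq sa sb' h0 hl hR hx
    e0 e1
  have := K3.charL (κ := k)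
  have p1 : ps ≠ 0 := fun z => pow_ne_zero n (X_ne_zero (R := k)) (by rw [← pq, z, zero_mul])
  obtain ⟨P1, P2, P3, P4, P5, P6, P7, P8⟩ := hP k ε ps qs hε p0 q0 p1 q1
  rw [pq] at P4
  have nz : ∀ c, c ≠ 0 → psiL ε ps qs (mA Polynomial.C c) ≠ 0 := fun c hc z =>
    hc (mA_inj Polynomial.C_injective (P1 (by rw [z, map_zero, map_zero])))
  have hl' := hl.push (psiL ε ps qs) (D' := dX _) (P3 _) (P3 _) (P3 _)
  rw [map_neg, map_natCast, P4] at hl'
  obtain ⟨g, H, e, m, hg, g1, g2, g3, g4⟩ := Log2.lead hE hd hN hn (h0.imp (nz _) (nz _))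
    (fun i => by rw [P2]; exact P8 _ _ _ sa i) (fun i => by rw [P2]; exact P8 _ _ _ sb' i) hl'
  obtain ⟨Φ, σ, β, o, s0, s1, s2, s3, s4, s5⟩ := Log2.deck hD hR
    (fun z => hx (RingHom.congr_fun z X)) g1 g2 (by rcases hg with rfl | rfl <;> assumption)
  obtain ⟨δ, d0, d1, d2, d3, d4, d5⟩ :=
    hL k m (d * N) β σ g4 s0 s2 s3 (by rwa [s4]) (by rwa [s4])
  have pp : red (psiL ε ps qs (C X)) = 0 := by rw [P6, map_mul, red_C, p0]; simp
  have o1 : IsOut 0 (iT : AA k →+* TT k) (coeL k) := out_zero (R := k) ▸ isOut_out 0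
  have x0 : coeL k X ≠ 0 := by rw [coeL_X]; exact (isUnit_wL 1).ne_zero
  have c1 := Log2.chain o1 x0 d0 (fun r => by rw [coeL_C, d1]) (h := 1)
    (by rw [d2, d4, sub_self, zero_mul]) q0 P5 pp P7 P4
  have c2 := Log2.chain o (K3.ne0 s0 s1) d0
    (fun r => by rw [RingHom.comp_apply, sb_C s0, coeL_C, d1]) (h := 0)
    (by simp only [RingHom.comp_apply, sb_X s0, d3, d5, sub_self, zero_mul]) q0 P5 pp P7 P4
  have c3 := Log2.chain o (K3.ne0 s0 s1) isDer_dL
    (fun r => by rw [RingHom.comp_apply, sb_C s0, dL_coeL, dX_C, map_zero]) (h := 0)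
    (by
      simp only [RingHom.comp_apply, sb_X s0, dL_coeL, dX_sb s0, sub_zero,
        show dX k (exp k) = exp k from derivative_exp k, map_mul]
      ring) q0 P5 pp P7 P4
  have u1 : cw δ (iT (X : AA k)) - C 1 = 0 := by rw [iT_X, cw_C, ← coeL_X, d4, sub_self]
  have key : ∀ G, ψ1 (psiL ε ps qs G) = ψ2 (psiL ε ps qs G) →
      iT (psiL ε ps qs (dl2 k G)) = cw δ (Φ X) * Φ (psiL ε ps qs (DG k ε G)) ∧
      iT (psiL ε ps qs (DG k ε G)) = cw (dL k) (Φ X) * Φ (psiL ε ps qs (DG k ε G)) := by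
    intro G eG
    have q := (s5 _).2 eG
    have a1 := c1 G
    have a2 := c2 G
    have a3 := c3 G
    rw [u1, zero_mul, zero_add, map_one, one_mul, ← q, a2] at a1
    rw [q, dL_iT, P3] at a3
    simp only [map_zero, sub_zero, zero_mul, add_zero] at a1 a3
    exact ⟨a1.symm, a3⟩
  obtain ⟨k1, k2⟩ := key G0 e0
  obtain ⟨k3, k4⟩ := key G1 e1
  refine P1 (iT_inj ?_)
  rw [map_mul, map_mul, map_mul, map_mul, k1, k2, k3, k4]
  ring

end Pool.Agent.MP_05b4bd_ag.ES

end MrgPart6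

-- ======== part 7: formerly Pool.Agent.MP_05b4bd_ag.esc.Nz
section MrgPart7

/-! The rows NZ and EVB. -/

namespace Pool.Agent.MP_05b4bd_ag.ES

open MvPolynomial HC Esc

theorem nzS : NzStmt := by
  intro k _ _ d F hd hF hci n r hr ⟨u, w, h⟩
  refine ⟨fun hn => nz_zero hF hci hr hn h, fun hn => ?_⟩
  obtain ⟨v, hv⟩ := nz hF (by omega) hci hr h
  obtain ⟨e, rfl⟩ : ∃ e, d = e + 1 := ⟨d - 1, by omega⟩
  by_cases h1 : e ≤ n
  · obtain ⟨m, rfl⟩ : ∃ m, n = m + e := ⟨n - e, by omega⟩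
    refine ⟨hc (m + 1) v, ?_, by rw [← hc_br hF, ← hv, hc_self hr]⟩
    rw [show m + e + 2 - (e + 1) = m + 1 by omega]
    exact hc_hom _ _
  · refine ⟨0, isHomogeneous_zero _ _ _, ?_⟩
    rw [br_zero, ← hc_self hr, hv]
    exact hc_of_mm (br_mm hF v) (by omega)

theorem evbS : EvbStmt := by
  intro k L _ _ _ κ D d F x y hd hF hci _ _ ⟨h1, h2, h3, h4, h5⟩ hg r η hr
  let _ : Algebra k L := κ.toAlgebra
  let D' : Derivation k L L := Derivation.mk'
    { toFun := D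
      map_add' := D.map_add
      map_smul' := fun c a => by
        have : ∀ z : L, c • z = κ c * z := fun _ => rfl
        rw [this, h1, h2, RingHom.id_apply, this, zero_mul, zero_add] }
    fun a b => by
      change D (a * b) = a * D b + b * D a
      rw [h1]; ring
  have hcv : Cv F D' ![x, y] := ⟨h3, h4, h5⟩
  have hη : η ∈ IntermediateField.adjoin k (Set.range ![x, y]) := by
    have : η ∈ gf κ x y := hg ▸ Subfield.mem_top η
    refine Subfield.closure_mono ?_ this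
    rintro z (hz | rfl | rfl)
    · exact Or.inl hz
    · exact Or.inr ⟨0, rfl⟩
    · exact Or.inr ⟨1, rfl⟩
  exact hcv.bt' hF (by omega) hci hη hr.symm

end Pool.Agent.MP_05b4bd_ag.ES

end MrgPart7

-- ======== part 8: formerly Pool.Agent.MP_05b4bd_ag.esc.Psi
section MrgPart8

/-! Escaping centres: independence of exponentials and the exponential chart at the centre. -/

namespace Pool.Agent.MP_05b4bd_ag.ES

open PowerSeries LaurentSeries HC

namespace Psi

variable {k : Type} [Field k] [CharZero k]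

theorem dX_exp : dX k (exp k) = exp k := derivative_exp k

theorem dX_E (a : k) : dX k (rescale a (exp k)) = C a * rescale a (exp k) := by
  rw [dX_rescale, dX_exp]

omit [CharZero k] in
theorem dX_coe (u : Polynomial k) : dX k (u : k⟦X⟧) = (Polynomial.derivative u : Polynomial k) :=
  derivative_coe u

theorem E_zero : rescale (0 : k) (exp k) = 1 := by
  rw [rescale_zero_apply, constantCoeff_exp, map_one]

theorem E_ne (a : k) : rescale a (exp k) ≠ 0 := by
  intro h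
  have := exp_mul_exp_eq_exp_add a (-a)
  rw [h, zero_mul, add_neg_cancel, E_zero] at this
  exact zero_ne_one this

theorem E_pow (a : k) (n : ℕ) : rescale a (exp k) ^ n = rescale (n * a) (exp k) := by
  induction n with
  | zero => rw [pow_zero, Nat.cast_zero, zero_mul, E_zero]
  | succ n ih => rw [pow_succ, ih, exp_mul_exp_eq_exp_add, Nat.cast_succ, add_mul, one_mul]

theorem E_mono (ε i j : ℕ) : rescale (-(ε : k)) (exp k) ^ i * exp k ^ j =
    rescale (((j : ℤ) - ε * i : ℤ) : k) (exp k) := by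
  rw [E_pow, exp_pow_eq_rescale_exp, exp_mul_exp_eq_exp_add]
  congr 2
  push_cast
  ring

omit [CharZero k] in
theorem op_inj {c : k} (hc : c ≠ 0) {u : Polynomial k}
    (h : Polynomial.derivative u + Polynomial.C c * u = 0) : u = 0 := by
  by_contra hu
  have h1 := Polynomial.degree_derivative_lt hu
  have h2 : Polynomial.derivative u = -(Polynomial.C c * u) := by linear_combination h
  rw [h2, Polynomial.degree_neg, Polynomial.degree_C_mul hc] at h1
  exact lt_irrefl _ h1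

theorem indep (s : Finset k) : ∀ u : k → Polynomial k,
    ∑ a ∈ s, (u a : k⟦X⟧) * rescale a (exp k) = 0 → ∀ a ∈ s, u a = 0 := by
  classical
  induction s using Finset.induction_on with
  | empty => intro u _ a ha; simp at ha
  | insert a0 s h0 ih =>
    have key : ∀ (n : ℕ) (u : k → Polynomial k), Polynomial.derivative^[n] (u a0) = 0 →
        ∑ a ∈ insert a0 s, (u a : k⟦X⟧) * rescale a (exp k) = 0 → ∀ a ∈ s, u a = 0 := by
      intro n
      induction n with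
      | zero =>
        intro u hu h
        rw [Function.iterate_zero_apply] at hu
        rw [Finset.sum_insert h0, hu, Polynomial.coe_zero, zero_mul, zero_add] at h
        exact ih u h
      | succ n ihn =>
        intro u hu h a ha
        have hne : a - a0 ≠ 0 := sub_ne_zero.2 fun e => h0 (e ▸ ha)
        refine op_inj hne (ihn (fun a => Polynomial.derivative (u a) + Polynomial.C (a - a0) * u a)
          ?_ ?_ a ha)
        · simpa using hu
        · have h1 := congrArg (dX k) h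
          rw [map_sum, map_zero] at h1
          have h2 : ∑ a ∈ insert a0 s, ((Polynomial.derivative (u a) +
              Polynomial.C (a - a0) * u a : Polynomial k) : k⟦X⟧) * rescale a (exp k) =
              ∑ a ∈ insert a0 s, dX k ((u a : k⟦X⟧) * rescale a (exp k)) -
                C a0 * ∑ a ∈ insert a0 s, (u a : k⟦X⟧) * rescale a (exp k) := by
            rw [Finset.mul_sum, ← Finset.sum_sub_distrib]
            refine Finset.sum_congr rfl fun a _ => ?_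
            rw [isDer_dX, dX_E, dX_coe, Polynomial.coe_add, Polynomial.coe_mul, Polynomial.coe_C,
              map_sub]
            ring
          rw [h2, h1, h, mul_zero, sub_zero]
    intro u h
    have hs := key ((u a0).natDegree + 1) u
      (Polynomial.iterate_derivative_eq_zero (Nat.lt_succ_self _)) h
    intro a ha
    rcases Finset.mem_insert.1 ha with rfl | ha
    · rw [Finset.sum_insert h0, Finset.sum_eq_zero (fun b hb => by rw [hs b hb]; simp),
        add_zero] at h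
      exact Polynomial.coe_eq_zero_iff.1 ((mul_eq_zero.1 h).resolve_right (E_ne a))
    · exact hs a ha

theorem mem_gen {m i : ℤ} {M : ℕ} (h : i ≡ m [ZMOD M]) : rescale (i : k) (exp k) ∈ ExpCl k m M :=
  Submodule.subset_span ⟨i, h, rfl⟩

end Psi

open Psi

theorem expS : ExpStmt := by
  intro k _ _
  refine ⟨indep, ?_, ?_, ?_⟩
  · intro m m' M a ha b hb
    induction ha using Submodule.span_induction with
    | mem a ha =>
      obtain ⟨i, hi, rfl⟩ := ha
      induction hb using Submodule.span_induction with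
      | mem b hb =>
        obtain ⟨j, hj, rfl⟩ := hb
        rw [exp_mul_exp_eq_exp_add, ← Int.cast_add]
        exact mem_gen (hi.add hj)
      | zero => simp
      | add b b' _ _ h h' => rw [mul_add]; exact add_mem h h'
      | smul c b _ h => rw [mul_smul_comm]; exact Submodule.smul_mem _ _ h
    | zero => simp
    | add a a' _ _ h h' => rw [add_mul]; exact add_mem h h'
    | smul c a _ h => rw [smul_mul_assoc]; exact Submodule.smul_mem _ _ h
  · intro m M a ha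
    induction ha using Submodule.span_induction with
    | mem a ha =>
      obtain ⟨i, hi, rfl⟩ := ha
      rw [dX_E, ← smul_eq_C_mul]
      exact Submodule.smul_mem _ _ (mem_gen hi)
    | zero => simp
    | add a a' _ _ h h' => rw [map_add]; exact add_mem h h'
    | smul c a _ h =>
      rw [smul_eq_C_mul, isDer_dX.const_mul (dX_C c), ← smul_eq_C_mul]
      exact Submodule.smul_mem _ _ h
  · intro m M hM a ha h
    have h1 : a ∈ Submodule.span k ((fun x : k => rescale x (exp k)) '' {x | x ≠ 0}) := by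
      refine Submodule.span_mono ?_ ha
      rintro c ⟨i, hi, rfl⟩
      refine ⟨i, ?_, rfl⟩
      intro h0
      have h2 : i = 0 := by exact_mod_cast h0
      subst h2
      exact hM (by simpa using hi.dvd)
    rw [Finsupp.mem_span_image_iff_linearCombination] at h1
    obtain ⟨l, hl, rfl⟩ := h1
    rw [Finsupp.linearCombination_apply, Finsupp.sum] at h ⊢
    rw [map_sum] at h
    have h2 := indep l.support (fun x => Polynomial.C (l x * x)) (by
      rw [← h]
      refine Finset.sum_congr rfl fun x _ => ?_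
      rw [smul_eq_C_mul, isDer_dX.const_mul (dX_C _), dX_E, Polynomial.coe_C, map_mul, mul_assoc])
    refine Finset.sum_eq_zero fun x hx => ?_
    have h3 := Polynomial.C_eq_zero.1 (h2 x hx)
    rw [(mul_eq_zero.1 h3).resolve_right (hl hx), zero_smul]

namespace Psi

variable {k : Type} [Field k] [CharZero k] {ε : ℕ} {ps qs : k⟦X⟧}

theorem indep' (h : ExpStmt) {ι : Type} [Nonempty ι] (s : Finset ι) (φ : ι → k)
    (hφ : Set.InjOn φ s) (u : ι → Polynomial k)
    (h0 : ∑ i ∈ s, (u i : k⟦X⟧) * rescale (φ i) (exp k) = 0) : ∀ i ∈ s, u i = 0 := by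
  classical
  have e : ∀ i ∈ s, Function.invFunOn φ s (φ i) = i := fun i hi => hφ.leftInvOn_invFunOn hi
  have h1 := (h k).1 (s.image φ) (fun x => u (Function.invFunOn φ s x)) (by
    rw [Finset.sum_image hφ, ← h0]
    exact Finset.sum_congr rfl fun i hi => by rw [e i hi])
  intro i hi
  have h2 := h1 (φ i) (Finset.mem_image_of_mem φ hi)
  rwa [e i hi] at h2

omit [CharZero k] in
theorem mem_J {p : k⟦X⟧} (hp : cc p = 0) (w : k⟦X⟧) :
    (C p * map C w : AA k) ∈ up (up (⊥ : Ideal k)) := by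
  rw [mem_up2, map_mul, c00_apply, c00_apply]
  simp [hp]

omit [CharZero k] in
theorem ev_poly (r : Polynomial k) :
    Polynomial.eval₂RingHom (CC : k →+* AA k) X r = map C (r : k⟦X⟧) := by
  have e : Polynomial.eval₂RingHom (CC : k →+* AA k) X =
      (map C).comp Polynomial.coeToPowerSeries.ringHom := by
    refine Polynomial.ringHom_ext (fun a => ?_) ?_
    · simp [CC_apply]
    · simp
  rw [e]
  rfl

theorem psiL_CC (hp : cc ps = 0) (hq : cc qs = 0) (r : Polynomial k) :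
    psiL ε ps qs (CC r) = map C (r : k⟦X⟧) := by
  rw [psiL, ev2_CC _ (mem_J hp _) (mem_J hq _), ev_poly]

theorem psiL_CX (hp : cc ps = 0) (hq : cc qs = 0) :
    psiL ε ps qs (C X) = C ps * map C (rescale (-(ε : k)) (exp k)) := by
  rw [psiL, ev2_CX _ (mem_J hp _) (mem_J hq _)]

theorem psiL_X (hq : cc qs = 0) : psiL ε ps qs X = C qs * map C (exp k) := by
  rw [psiL, ev2_X _ (mem_J hq _)]

theorem psiL_inj (h : ExpStmt) (hp : cc ps = 0) (hq : cc qs = 0) (hp0 : ps ≠ 0) (hq0 : qs ≠ 0) :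
    Function.Injective (psiL ε ps qs) := by
  have fac : ∀ p : k⟦X⟧, cc p = 0 → p ≠ 0 → ∃ a u, 1 ≤ a ∧ cc u ≠ 0 ∧ p = X ^ a * u := by
    intro p h1 h2
    obtain ⟨a, u, hu, e⟩ := unit_fac h2
    have hu' : cc u ≠ 0 := (hu.map cc).ne_zero
    refine ⟨a, u, ?_, hu', e⟩
    rcases Nat.eq_zero_or_pos a with rfl | ha
    · rw [pow_zero, one_mul] at e
      exact absurd (e ▸ h1) hu'
    · exact ha
  obtain ⟨a, u, ha, hu, ep⟩ := fac ps hp hp0
  obtain ⟨b, v, hb, hv, eq⟩ := fac qs hq hq0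
  refine winj (τ := C X) (p := C u * map C (rescale (-(ε : k)) (exp k)))
    (q := C v * map C (exp k)) ha hb ?_ red ?_ ?_ ?_ ?_
  · refine mem_nonZeroDivisors_of_ne_zero fun e => X_ne_zero (R := k) ?_
    exact C_injective (e.trans (map_zero C).symm)
  · rw [red_C]
    simp
  · rw [psiL_CX hp hq, ← map_pow, ← mul_assoc, ← map_mul, ← ep]
  · rw [psiL_X hq, ← map_pow, ← mul_assoc, ← map_mul, ← eq]
  · intro w s r hs h0 m hm
    have h1 := indep' h s (fun m => (((m.2 : ℤ) - ε * m.1 : ℤ) : k)) ?_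
      (fun m => Polynomial.C (cc u ^ m.1 * cc v ^ m.2) * r m) ?_ m hm
    · exact (mul_eq_zero.1 h1).resolve_left
        (Polynomial.C_ne_zero.2 (mul_ne_zero (pow_ne_zero _ hu) (pow_ne_zero _ hv)))
    · intro m hm m' hm' e
      have e1 : (m.2 : ℤ) - ε * m.1 = (m'.2 : ℤ) - ε * m'.1 := Int.cast_injective e
      have e2 : (m.1 : ℤ) * a + m.2 * b = m'.1 * a + m'.2 * b := by
        exact_mod_cast (hs m hm).trans (hs m' hm').symm
      have e3 : ((m.1 : ℤ) - m'.1) * (a + ε * b) = 0 := by linear_combination e2 - b * e1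
      have e4 : (m.1 : ℤ) = m'.1 :=
        sub_eq_zero.1 ((mul_eq_zero.1 e3).resolve_right (by positivity))
      have e5 : (m.2 : ℤ) = m'.2 := by rw [e4] at e1; linarith
      exact Prod.ext (by exact_mod_cast e4) (by exact_mod_cast e5)
    · rw [← h0]
      refine Finset.sum_congr rfl fun m _ => ?_
      rw [← E_mono, Polynomial.coe_mul, Polynomial.coe_C, psiL_CC hp hq]
      simp only [map_mul, map_pow, red_C, red_mapC]
      ring

theorem psiL_mA (hp : cc ps = 0) (hq : cc qs = 0) (c : AA k) :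
    psiL ε ps qs (mA Polynomial.C c) = psi0 ε ps qs c := by
  have e : (Polynomial.eval₂RingHom (CC : k →+* AA k) X).comp Polynomial.C = CC :=
    RingHom.ext fun a => by simp
  rw [psiL, ev2_mA _ (mem_J hp _) (mem_J hq _), e, psi0]

theorem DA_eq {R : Type} [CommRing R] (ε : ℕ) (c : AA R) :
    DA R ε c = X * dX _ c - (ε : AA R) * (C X * cw (dX R) c) := by
  rw [DA, AddMonoidHom.sub_apply, AddMonoidHom.nsmul_apply, thP_apply, thP, cw_mulLeft,
    nsmul_eq_mul]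

theorem psiL_der (hp : cc ps = 0) (hq : cc qs = 0) (c : AA (Polynomial k)) :
    dX _ (psiL ε ps qs c) = psiL ε ps qs (DG k ε c) := by
  have h1 := hom_chain2 (up (up (⊥ : Ideal k))) (g := psiL ε ps qs)
    (by rw [psiL_CX hp hq]; exact mem_J hp _) (by rw [psiL_X hq]; exact mem_J hq _)
    (isDer_dX (R := k⟦X⟧)) (L := (Polynomial.derivative (R := k)).toAddMonoidHom)
    (fun a b => Polynomial.derivative_mul) (a := 1) (fun r => by
      rw [psiL_CC hp hq, psiL_CC hp hq, dX_map, dX_coe, one_mul]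
      rfl) c
  have h2 : dX _ (psiL ε ps qs (C X)) = -(ε * psiL ε ps qs (C X)) := by
    rw [psiL_CX hp hq, isDer_dX.const_mul (dX_C _), dX_map, dX_E, map_mul]
    simp
    ring
  have h3 : dX _ (psiL ε ps qs X) = psiL ε ps qs X := by
    rw [psiL_X hq, isDer_dX.const_mul (dX_C _), dX_map, dX_exp]
  rw [h1, h2, h3, DG, AddMonoidHom.add_apply, DA_eq, dl2]
  simp only [map_add, map_sub, map_mul, map_natCast]
  ring

theorem psiL_tA (hp : cc ps = 0) (hq : cc qs = 0) :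
    psiL ε ps qs (tA _ ε) = C (ps * qs ^ ε) := by
  have e := E_mono (k := k) ε 1 ε
  rw [pow_one, Nat.cast_one, mul_one, sub_self, Int.cast_zero, E_zero] at e
  have e' := congrArg (map (C : k →+* k⟦X⟧)) e
  rw [map_mul, map_pow, map_one] at e'
  rw [tA, map_mul, map_pow, psiL_CX hp hq, psiL_X hq, map_mul, map_pow]
  linear_combination C ps * C qs ^ ε * e'

theorem supp_mem (hp : cc ps = 0) (hq : cc qs = 0) {m : ℤ} {M : ℕ} {c : AA k} (hc : Supp ε m M c)
    (n : ℕ) : coeff n (swap (psi0 ε ps qs c)) ∈ ExpCl k m M := by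
  have eC : ∀ r, psi0 ε ps qs (CC r) = CC r := fun r => ev2_CC _ (mem_J hp _) (mem_J hq _) r
  have eP : psi0 ε ps qs (C X) = C ps * map C (rescale (-(ε : k)) (exp k)) :=
    ev2_CX _ (mem_J hp _) (mem_J hq _)
  have eQ : psi0 ε ps qs X = C qs * map C (exp k) := ev2_X _ (mem_J hq _)
  obtain ⟨u, hu⟩ := X_dvd_iff.2 hp
  obtain ⟨v, hv⟩ := X_dvd_iff.2 hq
  let s := Finset.range (n + 1) ×ˢ Finset.range (n + 1)
  obtain ⟨y, hy⟩ := wdvd (g := psi0 ε ps qs) (τ := C X)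
    (p := C u * map C (rescale (-(ε : k)) (exp k))) (q := C v * map C (exp k)) le_rfl le_rfl
    (by rw [eP, pow_one, ← mul_assoc, ← map_mul, ← hu])
    (by rw [eQ, pow_one, ← mul_assoc, ← map_mul, ← hv]) (n + 1)
    (c - ∑ e ∈ s, CC (co2 e.1 e.2 c) * C X ^ e.1 * X ^ e.2) (by
      intro i j hij
      rw [co2_sub, co2_sum]
      simp only [co2_mono]
      rw [Finset.sum_eq_single (i, j), if_pos ⟨rfl, rfl⟩, sub_self]
      · intro e _ he
        exact if_neg fun h2 => he (Prod.ext h2.1.symm h2.2.symm)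
      · intro he
        refine absurd (Finset.mem_product.2 ⟨?_, ?_⟩) he <;> rw [Finset.mem_range] <;>
          dsimp only <;> omega)
  rw [map_sub, sub_eq_iff_eq_add] at hy
  rw [hy, map_add, map_add, map_mul, map_pow, swap_CX, X_pow_dvd_iff.1 (dvd_mul_right _ _) n
    (Nat.lt_succ_self n), zero_add, map_sum, map_sum, map_sum]
  refine Submodule.sum_mem _ fun e _ => ?_
  by_cases h0 : co2 e.1 e.2 c = 0
  · rw [h0]
    simp
  have e1 : swap (psi0 ε ps qs (CC (co2 e.1 e.2 c) * C X ^ e.1 * X ^ e.2)) =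
      C (C (co2 e.1 e.2 c) * rescale (((e.2 : ℤ) - ε * e.1 : ℤ) : k) (exp k)) *
        map C (ps ^ e.1 * qs ^ e.2) := by
    rw [← E_mono]
    simp only [map_mul, map_pow, eC, eP, eQ, swap_CC, swap_C, swap_mapC]
    rw [CC_apply]
    ring
  rw [e1, coeff_C_mul, coeff_map, mul_comm, ← smul_eq_C_mul, ← smul_eq_C_mul]
  exact Submodule.smul_mem _ _ (Submodule.smul_mem _ _ (mem_gen (hc _ _ h0)))

end Psi

theorem psiS (h : ExpStmt) : PsiStmt := fun _ _ _ _ _ _ _ hp hq hp0 hq0 =>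
  ⟨psiL_inj h hp hq hp0 hq0, psiL_mA hp hq, psiL_der hp hq, psiL_tA hp hq, psiL_CC hp hq,
    psiL_CX hp hq, psiL_X hq, fun _ _ _ hc => supp_mem hp hq hc⟩

end Pool.Agent.MP_05b4bd_ag.ES

end MrgPart8

-- ======== part 9: formerly Pool.Agent.MP_05b4bd_ag.esc.S1a
section MrgPart9

/-! Escaping centres: there is no first integral at infinity. -/

namespace Pool.Agent.MP_05b4bd_ag.ES

open PowerSeries LaurentSeries HC

namespace S1a

variable {k L U U' : Type} [Field k] [CharZero k] [Field L] [Field U] [Field U'] {d : ℕ}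

theorem CX_ne (n : ℕ) : (C X : AA U) ^ n ≠ 0 :=
  pow_ne_zero _ fun h => X_ne_zero (C_injective (h.trans (map_zero _).symm))

theorem fi_strip {D : U →+ U} (hD : IsDer D) {a b r : AA U} {n : ℕ}
    (h : FIe (cw D) a b (C X ^ n * r)) : FIe (cw D) a b r := by
  have h1 : cw (cw D) ((C X : AA U) ^ n) = 0 := by
    rw [hD.coefw.coefw.pow, cw_C, cw_X hD.one]
    simp
  have h2 : dX _ ((C X : AA U) ^ n) = 0 := by
    rw [isDer_dX.pow, dX_C]
    simp
  unfold FIe at h ⊢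
  rw [hD.coefw.coefw.const_mul h1, isDer_dX.const_mul h2] at h
  exact mul_left_cancel₀ (CX_ne n) (by linear_combination h)

theorem cc_strip {r : AA U} {n : ℕ} (h : cc (C X ^ n * r) = 0) : cc r = 0 := by
  rw [map_mul, map_pow, constantCoeff_C] at h
  exact (mul_eq_zero.1 h).resolve_left (pow_ne_zero _ X_ne_zero)

theorem fi_push {D : U →+ U} {D' : U' →+ U'} {i : L →+* U} {j : U →+* U'} {i' : L →+* U'}
    (hj : DExt D D' j) (e : ∀ c, j (i c) = i' c) {a b : AA L} {r : AA U}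
    (h : FIe (cw D) (mA i a) (X * mA i b) r) :
    FIe (cw D') (mA i' a) (X * mA i' b) (mA j r) := by
  have h1 := h.push (D' := cw D') (η := map j) (cw_map' hj.2)
  obtain rfl : j.comp i = i' := RingHom.ext e
  change FIe _ (mA j _) (mA j _) (mA j _) at h1
  rwa [map_mul, mA_X, mA_mA, mA_mA] at h1

theorem cc_mA (j : U →+* U') {r : AA U} (h : cc r = 0) : cc (mA j r) = 0 := by
  rw [← coeff_zero_eq_constantCoeff_apply] at h ⊢
  rw [mA, coeff_map, h, map_zero]

theorem ord_map {j : U →+* U'} {f : U⟦X⟧} {n : ℕ} : OrdIs n (map j f) ↔ OrdIs n f := by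
  simp only [OrdIs, coeff_map, ne_eq, _root_.map_eq_zero]

theorem red_ne (I : Inf k d L) (hd : 1 ≤ d) : red I.a ≠ 0 := by
  have := charZero_of_injective_ringHom I.κ.injective
  rw [I.ra]
  intro h
  have h1 := congrArg (coeff 1) h
  rw [← map_natCast C, map_neg, coeff_C_mul, coeff_one_X, map_zero] at h1
  have : (d : L) ≠ 0 := Nat.cast_ne_zero.2 (by omega)
  simp [this] at h1

theorem cc_vb (I : Inf k d L) (hd : 1 ≤ d) : cc I.vb = 0 := by
  have h := congrArg cc I.hv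
  rw [map_mul, cc_iT, cc_iT, I.rb, map_zero] at h
  exact (mul_eq_zero.1 h).resolve_left fun c =>
    red_ne I hd (coeL_inj (c.trans (map_zero _).symm))

theorem vt_zero (I : Inf k d L) (hd : 1 ≤ d) {D : U →+ U} {i : L →+* U} {r : AA U}
    (h : FIe (cw D) (mA i I.a) (X * mA i I.b) r) : VT D (mT i I.vb) (iT r) = 0 := by
  have h0 : iT (mA i I.a) ≠ 0 := fun c => red_ne I hd (by
    rw [mA_inj i.injective ((iT_inj (c.trans (map_zero _).symm)).trans (map_zero _).symm), map_zero])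
  have h1 : iT (mA i I.a) * mT i I.vb = iT (mA i I.b) := by
    rw [← mT_iT, ← map_mul, I.hv, mT_iT]
  have h2 := congrArg iT h
  refine mul_left_cancel₀ h0 ?_
  rw [VT, cw_iT, th_iT, thP_apply, mul_sub, ← mul_assoc, h1]
  simp only [map_mul] at h2 ⊢
  linear_combination h2

omit [CharZero k] in
theorem mul_mem (φ : k →+* U) (Λ : AddSubgroup U) (hΛ : ∀ c, ∀ z ∈ Λ, φ c * z ∈ Λ) (c : k⟦X⟧)
    (η : U⸨X⸩) (n : ℤ) (h : ∀ j ≤ n, η.coeff j ∈ Λ) : (coeL U (map φ c) * η).coeff n ∈ Λ := by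
  obtain ⟨m, hm⟩ := exists_low η
  obtain ⟨l, hl⟩ : ∃ l : ℕ, n = min m n + l := ⟨(n - min m n).toNat, by omega⟩
  rw [hl, coeff_coeL_mul _ η (fun j hj => hm j (by omega))]
  refine Λ.sum_mem fun i _ => ?_
  rw [coeff_map]
  exact hΛ _ _ (h _ (by omega))

/-- the low coefficients of the second term are rational -/
theorem low_rat (hA : AmalgStmt) (I : Inf k d L) {D : U →+ U} {i : L →+* U} {r : AA U}
    (hext : DExt I.D D i) (h0 : cc r = 0) (hfi : FIe (cw D) (mA i I.a) (X * mA i I.b) r) {ν : ℕ}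
    (ih : ∀ m < ν, ∀ (U : Type) [Field U] (D : U →+ U) (i : L →+* U) (r : AA U), DExt I.D D i →
      cc r = 0 → FIe (cw D) (mA i I.a) (X * mA i I.b) r → ¬ OrdIs m (red r))
    {S0 : TT L} {S' : TT U} (hS : iT r = mT i S0 + X ^ I.n * S') (j : ℤ) (hj : j < ν) :
    ∃ e, (cc S').coeff j = i e := by
  have := charZero_of_injective_ringHom I.κ.injective
  by_contra c
  push Not at c
  obtain ⟨Ω, _, D', τ, σ, h1, h5⟩ := hA L U I.D D i hext Unit (fun _ => (cc S').coeff j)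
    fun _ => c
  obtain ⟨h2, h3, h4⟩ := h5 ()
  have e0 : ∀ ρ : U →+* Ω, mT ρ (mT i S0) = mT (ρ.comp i) S0 := fun ρ => by
    ext n l
    simp only [coeff_mT, coeff_mapL, RingHom.comp_apply]
  have eX : ∀ ρ : U →+* Ω, mT ρ X = X := fun ρ => map_X _
  have e1 : iT (mA (σ ()) r - mA τ r) = X ^ I.n * (mT (σ ()) S' - mT τ S') := by
    rw [map_sub, ← mT_iT, ← mT_iT, hS]
    simp only [map_add, map_mul, map_pow, e0, eX]
    rw [show (σ ()).comp i = τ.comp i from RingHom.ext h3]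
    ring
  obtain ⟨r', hr'⟩ := (X_pow_dvd_iT _ _).1 ⟨_, e1⟩
  have e2 : iT r' = mT (σ ()) S' - mT τ S' := by
    rw [hr', map_mul, map_pow, iT_CX] at e1
    exact mul_left_cancel₀ (pow_ne_zero _ X_ne_zero) e1
  have e3 : (coeL Ω (red r')).coeff j ≠ 0 := by
    rw [← cc_iT, e2, map_sub, ← coeff_zero_eq_constantCoeff_apply,
      ← coeff_zero_eq_constantCoeff_apply, coeff_mT, coeff_mT, HahnSeries.coeff_sub, coeff_mapL,
      coeff_mapL, coeff_zero_eq_constantCoeff_apply]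
    exact sub_ne_zero.2 h4
  obtain ⟨n, rfl⟩ : ∃ n : ℕ, j = n :=
    ⟨j.toNat, by
      have : ¬ j < 0 := fun c => e3 (coeff_coeL_neg _ c)
      omega⟩
  rw [coeff_coeL] at e3
  obtain ⟨m, hm⟩ := exists_ordIs (f := red r') fun c => e3 (by rw [c, map_zero])
  have e4 : m ≤ n := not_lt.1 fun c => e3 (hm.2 n c)
  have f1 := fi_push (i' := τ.comp i) h2 h3 hfi
  have f2 := fi_push (i' := τ.comp i) h1 (fun _ => rfl) hfi
  refine ih m (by omega) Ω D' (τ.comp i) r' ⟨h1.1, fun c => ?_⟩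
    (cc_strip (n := I.n) ?_) (fi_strip h1.1 (n := I.n) ?_) hm
  · rw [RingHom.comp_apply, h1.2, hext.2, RingHom.comp_apply]
  · rw [← hr', map_sub, cc_mA _ h0, cc_mA _ h0, sub_zero]
  · rw [← hr']
    unfold FIe at f1 f2 ⊢
    rw [map_sub, map_sub, mul_sub, mul_sub, f2]
    exact congrArg (· - _) f1

/-- the order bound -/
theorem order_bound (I : Inf k d L) (hd : 1 ≤ d) {D : U →+ U} {i : L →+* U} (hext : DExt I.D D i)
    {r0 : k⟦X⟧} {ν : ℕ} (hν : 1 ≤ ν) (ho : OrdIs ν r0) {η : U⸨X⸩}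
    (h1 : ∀ j : ℤ, j < ν → ∃ e, η.coeff j = i e)
    (h2 : cwL D η = 0 - dh d (coeL U (map (i.comp I.κ) r0)) * mapL i (cc I.Xi)) (m : ℤ)
    (hm : m < -d) : ∃ z, (cc I.Xi).coeff m = I.D z := by
  have := charZero_of_injective_ringHom (i.comp I.κ).injective
  have h3 : OrdIs ν (thP k r0) := ⟨by
    rw [coeff_thP]
    exact mul_ne_zero (Nat.cast_ne_zero.2 (by omega)) ho.1, fun j hj => by
    rw [coeff_thP, ho.2 j hj, mul_zero]⟩
  obtain ⟨u, hu, hu0⟩ := h3.fac
  obtain ⟨v, hv⟩ : ∃ v, v * u = 1 :=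
    (isUnit_iff_constantCoeff.2 (Ne.isUnit (hu0 ▸ h3.1))).exists_left_inv
  have h4 : coeL U (map (i.comp I.κ) (C (d : k) * v)) * cwL D η =
      wL U (d + ν) * mapL i (cc I.Xi) := by
    have a1 : cL U (d : U) * cL U (d : U)⁻¹ = 1 := by
      rw [← map_mul, mul_inv_cancel₀ (Nat.cast_ne_zero.2 (by omega)), map_one]
    have a2 : coeL U (map (i.comp I.κ) v) * coeL U (map (i.comp I.κ) u) = 1 := by
      rw [← map_mul, ← map_mul, hv, map_one, map_one]
    rw [h2, dh, thL_coeL, thP_map, hu, wL_add, ← coeL_X_pow ν]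
    simp only [map_mul, map_C, coeL_C, map_natCast (i.comp I.κ), map_pow, map_X]
    linear_combination (wL U d * coeL U X ^ ν * mapL i (cc I.Xi) *
      (coeL U (map (i.comp I.κ) v) * coeL U (map (i.comp I.κ) u))) * a1 +
      (wL U d * coeL U X ^ ν * mapL i (cc I.Xi)) * a2
  have h5 := mul_mem (i.comp I.κ) (i.toAddMonoidHom.comp I.D).range (by
    rintro c _ ⟨z, rfl⟩
    exact ⟨I.κ c * z, by simp [I.cv.1.const_mul (I.cv.2.1 c)]⟩) (C (d : k) * v) (cwL D η)
    (m + (d + ν)) fun j hj => by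
      obtain ⟨e, he⟩ := h1 j (by omega)
      exact ⟨e, by rw [coeff_cwL, he, hext.2]; rfl⟩
  rw [h4, coeff_wL_mul, add_sub_cancel_right, coeff_mapL] at h5
  obtain ⟨z, hz⟩ := h5
  exact ⟨z, i.injective hz.symm⟩

theorem step (hC : CmpStmt) (hA : AmalgStmt) (hD : DeckStmt) (hI : InvStmt) [IsAlgClosed k]
    (I : Inf k d L) {D : U →+ U} {i : L →+* U} {r : AA U} (hd : 6 ≤ d) (hnd : ¬ I.a ∣ X * I.b)
    (hext : DExt I.D D i) (hc : Cst (i.comp I.κ) D) (h0 : cc r = 0)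
    (hfi : FIe (cw D) (mA i I.a) (X * mA i I.b) r) {ν : ℕ}
    (ih : ∀ m < ν, ∀ (U : Type) [Field U] (D : U →+ U) (i : L →+* U) (r : AA U), DExt I.D D i →
      cc r = 0 → FIe (cw D) (mA i I.a) (X * mA i I.b) r → ¬ OrdIs m (red r))
    (ho : OrdIs ν (red r)) : False := by
  have := charZero_of_injective_ringHom I.κ.injective
  have hν : 1 ≤ ν := Nat.pos_of_ne_zero fun c => ho.1 (by
    rw [c, coeff_zero_eq_constantCoeff_apply, cc_red, c00_apply, h0, map_zero])
  obtain ⟨S0, S', h1, h2, h3⟩ := hC L U I.D D i d I.n I.vb I.h I.Xi (iT r) 0 (by omega) I.n1 hext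
    (fun c e => (hc c e).elim fun z hz => ⟨I.κ z, hz⟩) (cc_vb I (by omega)) I.rh I.hV
    (by rw [vt_zero I (by omega) hfi, mul_zero])
  rw [cc_iT] at h2 h3
  obtain ⟨r0, hr0⟩ := exists_map_of_coeff (φ := i.comp I.κ) (f := red r) fun n => hc _ (by
    rw [← coeff_coeL, ← coeff_cwL, h2]
    rfl)
  rw [hr0] at ho h3
  obtain ⟨σ, φ, η, k1, k2, k3, k4, k5, k6⟩ := hD k L U d I D i r r0 ν (by omega) hnd hext hfi hr0 hν
    (ord_map.1 ho)
  exact hI k L d I ν σ φ η hd hν (order_bound I (by omega) hext hν (ord_map.1 ho)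
    (low_rat hA I hext h0 hfi ih h1) (by rw [h3, map_zero])) k1 k2 k3 k4 k5 k6

theorem main (hB : BaseStmt) (hC : CmpStmt) (hA : AmalgStmt) (hD : DeckStmt) (hI : InvStmt)
    (ν : ℕ) : ∀ (k L : Type) [Field k] [CharZero k] [Field L] (d : ℕ) (I : Inf k d L), 6 ≤ d →
      ¬ I.a ∣ X * I.b → ∀ (U : Type) [Field U] (D : U →+ U) (i : L →+* U) (r : AA U),
      DExt I.D D i → cc r = 0 → FIe (cw D) (mA i I.a) (X * mA i I.b) r → ¬ OrdIs ν (red r) := by
  induction ν using Nat.strong_induction_on with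
  | _ ν ih =>
  intro k L _ _ _ d I hd hnd U _ D i r hext h0 hfi ho
  obtain ⟨k', L', U', _, _, _, _, _, I', D', i', jl, j, e1, -, e3, e4, e5, e6, e7⟩ :=
    hB k L U d I D i (by omega) hext
  have hnd' : ¬ I'.a ∣ X * I'.b := by rwa [e5, e6, nd_map]
  refine step hC hA hD hI I' hd hnd' e1 e7 (cc_mA j h0) ?_
    (fun m hm => ih m hm k' L' d I' hd hnd') (by rwa [red_mA, ord_map])
  rw [e5, e6, mA_mA, mA_mA]
  exact fi_push e3 (fun c => (e4 c).symm) hfi

end S1a

theorem s1aS (hB : BaseStmt) (hC : CmpStmt) (hA : AmalgStmt) (hD : DeckStmt) (hI : InvStmt) :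
    S1aStmt := by
  intro k L U _ _ _ _ d I D i r hd hnd hext hr h0 hfi
  obtain ⟨n, r', rfl, h1⟩ := exists_tfac hr
  obtain ⟨ν, hν⟩ := exists_ordIs h1
  exact S1a.main hB hC hA hD hI ν k L d I hd hnd U D i r' hext (S1a.cc_strip h0)
    (S1a.fi_strip hext.1 hfi) hν

end Pool.Agent.MP_05b4bd_ag.ES

end MrgPart9

-- ======== part 10: formerly Pool.Agent.MP_05b4bd_ag.esc.S2b
section MrgPart10

/-! The inner symmetry: row S2B. -/

namespace Pool.Agent.MP_05b4bd_ag.ES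

open PowerSeries LaurentSeries HC

namespace S2b

/-- Restriction to the algebraic closure of the image. -/
theorem restr (hA : DerAlgStmt) {L U : Type} [Field L] [Field U] [CharZero U] {D0 : L →+ L}
    {D1 : U →+ U} {ι : L →+* U} (h : DExt D0 D1 ι) :
    ∃ (E : Type) (_ : Field E) (D2 : E →+ E) (i : L →+* E) (τ : E →+* U), DExt D0 D2 i ∧
      DExt D2 D1 τ ∧ (∀ c, τ (i c) = ι c) ∧ (∀ e : E, IsAlgebraic i.fieldRange e) ∧
      ∀ z, (∀ δ : U →+ U, IsDer δ → (∀ c, δ (ι c) = 0) → δ z = 0) → ∃ e, z = τ e := by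
  obtain ⟨-, h2, h3, ⟨N, hN⟩, -⟩ := hA U ι.fieldRange
  have hM : ι.fieldRange ≤ N := fun z hz =>
    (hN z).2 (isAlgebraic_algebraMap (⟨z, hz⟩ : ι.fieldRange))
  have hi : ∀ c, ι c ∈ N := fun c => hM ⟨c, rfl⟩
  have hD : ∀ z ∈ N, D1 z ∈ N := fun z hz =>
    h2 D1 h.1 N hM (by rintro _ ⟨c, rfl⟩; rw [h.2]; exact hi _) z hz ((hN z).1 hz)
  let D2 : N →+ N :=
    { toFun := fun z => ⟨D1 z, hD z z.2⟩
      map_zero' := Subtype.ext (by simp)
      map_add' := fun a b => Subtype.ext (by simp) }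
  let i : L →+* N := ι.codRestrict N hi
  refine ⟨N, inferInstance, D2, i, N.subtype, ⟨fun a b => Subtype.ext (h.1 a b), fun c =>
    Subtype.ext (h.2 c)⟩, ⟨h.1, fun _ => rfl⟩, fun _ => rfl, fun e => ?_, fun z hz => ?_⟩
  · let f : i.fieldRange →+* ι.fieldRange :=
      (N.subtype.comp i.fieldRange.subtype).codRestrict ι.fieldRange (by
        rintro ⟨_, c, rfl⟩; exact ⟨c, rfl⟩)
    refine IsAlgebraic.of_ringHom_of_comp_eq f N.subtype ((hN e).1 e.2) ?_ N.subtype.injective ?_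
    · rintro ⟨_, c, rfl⟩
      exact ⟨⟨i c, c, rfl⟩, rfl⟩
    · ext; rfl
  · exact ⟨⟨z, (hN z).2 (h3 z fun δ hδ h0 => hz δ hδ fun c => h0 _ ⟨c, rfl⟩)⟩, rfl⟩

theorem isDer_pol (k : Type) [CommRing k] :
    IsDer (Polynomial.derivative (R := k)).toAddMonoidHom := fun a b => by
  simp [Polynomial.derivative_mul]

/-- Chain rule along `p ↦ p'`, `q ↦ t / p'`. -/
theorem chain {k V : Type} [CommRing k] [CommRing V] {κ : k →+* V}
    {φ : (Polynomial k)⟦X⟧ →+* V⟦X⟧} (h0 : ∀ r, φ (C (Polynomial.C r)) = C (κ r))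
    (hu : IsUnit (φ (C Polynomial.X))) (hq : φ (C Polynomial.X) * φ X = X) {E : V →+ V}
    (hE : IsDer E) (hk : ∀ r, E (κ r) = 0) (f : (Polynomial k)⟦X⟧) :
    φ (C Polynomial.X) * cw E (φ f) = cw E (φ (C Polynomial.X)) *
      (φ (C Polynomial.X) * φ (cw (Polynomial.derivative (R := k)).toAddMonoidHom f) -
        φ X * φ (dX _ f)) := by
  have hX : φ X ∈ Ideal.span {(X : V⟦X⟧)} := by
    obtain ⟨v, hv⟩ := hu.exists_left_inv
    refine Ideal.mem_span_singleton.2 ⟨v, ?_⟩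
    linear_combination v * hq - φ X * hv
  have hp : ∀ r : Polynomial k, cw E (φ (C r)) = cw E (φ (C Polynomial.X)) *
      φ (C ((Polynomial.derivative (R := k)).toAddMonoidHom r)) := by
    intro r
    induction r using Polynomial.induction_on with
    | C a => rw [h0, cw_C, hk]; simp
    | add a b ha hb => simp only [map_add, ha, hb, mul_add]
    | monomial n a ih =>
      rw [pow_succ, ← mul_assoc, isDer_pol k, map_mul, map_mul, hE.coefw, ih]
      simp only [map_add, map_mul, LinearMap.toAddMonoidHom_coe, Polynomial.derivative_X, map_one]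
      ring
  have e := congrArg (cw E) hq
  rw [hE.coefw, cw_X hE.one] at e
  rw [hom_chain (Ideal.span {(X : V⟦X⟧)}) hX hE.coefw (isDer_pol k) hp f]
  linear_combination φ (dX _ f) * e

theorem lift {k : Type} [Field k] {g : AA k} (h : PolyP g) (ht : tA k 1 ∣ g) :
    ∃ g' : (Polynomial k)⟦X⟧, g = map Polynomial.coeToPowerSeries.ringHom g' ∧
      C Polynomial.X * X ∣ g' := by
  obtain ⟨g', rfl⟩ : ∃ g' : (Polynomial k)⟦X⟧, g = map Polynomial.coeToPowerSeries.ringHom g' := by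
    refine exists_map_of_coeff fun j => ?_
    obtain ⟨n, hn⟩ := h j
    refine ⟨trunc n (coeff j g), ?_⟩
    ext i
    rw [Polynomial.coeToPowerSeries.ringHom_apply, Polynomial.coeff_coe, coeff_trunc]
    split_ifs with hi
    · rfl
    · exact hn i (by omega)
  refine ⟨g', rfl, ?_⟩
  have h1 := (tA_pow_dvd_iff 1 1 _).1 ((pow_one (tA k 1)).symm ▸ ht)
  have h2 : ∀ i j, i < 1 ∨ j < 1 → (coeff j g').coeff i = 0 := fun i j hij => by
    have := h1 i j (by omega)
    rwa [co2, coeff_map, Polynomial.coeToPowerSeries.ringHom_apply, Polynomial.coeff_coe] at this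
  obtain ⟨u, rfl⟩ := (C_dvd_iff Polynomial.X g').2 fun j =>
    Polynomial.X_dvd_iff.2 (h2 0 j (by omega))
  refine mul_dvd_mul_left _ (X_dvd_iff.2 ?_)
  have h3 : coeff 0 (C Polynomial.X * u) = 0 := by
    ext i; exact h2 i 0 (by omega)
  rw [coeff_C_mul, coeff_zero_eq_constantCoeff_apply] at h3
  exact (mul_eq_zero.1 h3).resolve_left Polynomial.X_ne_zero

theorem mT_mT {A B T : Type} [CommRing A] [CommRing B] [CommRing T] (τ : A →+* B) (σ : B →+* T)
    (s : TT A) : mT σ (mT τ s) = mT (σ.comp τ) s := by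
  ext n m
  simp only [coeff_mT, coeff_mapL, RingHom.comp_apply]

theorem mT_cL {A B : Type} [CommRing A] [CommRing B] (τ : A →+* B) (c : A⟦X⟧) :
    mT τ (map (cL A) c) = map (cL B) (map τ c) := by
  ext1 n
  rw [coeff_mT, coeff_map, coeff_map, coeff_map, mapL_cL]

theorem mT_VT {L U : Type} [Field L] [Field U] {D : L →+ L} {D' : U →+ U} {τ : L →+* U}
    (h : ∀ c, D' (τ c) = τ (D c)) (vb s : TT L) :
    mT τ (VT D vb s) = VT D' (mT τ vb) (mT τ s) := by
  unfold VT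
  rw [map_sub, map_mul]
  congr 1
  · exact (cw_map' (cwL_mapL h) s).symm
  · congr 1
    exact (cw_map' (thL_mapL τ) s).symm

/-- The Lienard equation read in `TT`. -/
theorem eqT {U : Type} [Field U] {D : U →+ U} {a b Wt lam : AA U} {G0 G1 : U⟦X⟧} {vb : TT U}
    (h : LD X (cw D) a b Wt lam G0 G1) (hv : iT a * vb = iT b) :
    iT Wt * VT D vb (iT Wt) = map (cL U) (cw D G0) + iT Wt * map (cL U) (cw D G1) := by
  have e1 := congrArg iT h.ea
  have e2 := congrArg iT h.eb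
  simp only [map_mul, map_sub, iT_C] at e1 e2
  unfold VT
  rw [cw_iT, th_iT, thP_apply, map_mul]
  linear_combination e2 - vb * iT X * e1 - iT lam * iT X * hv

/-- Derivations over the function field kill `p` and `Wt`. -/
theorem kill (hK : KillStmt) (hC : CommuteStmt) {k L U : Type} [Field k] [CharZero k] [Field L]
    [Field U] [CharZero U] {d : ℕ} (I : Inf k d L) {D : U →+ U} {ι : L →+* U} {Wt lam : AA U}
    {g0 g1 : (Polynomial k)⟦X⟧} {φ : (Polynomial k)⟦X⟧ →+* U⟦X⟧} (hd : 6 ≤ d) (hD : DExt I.D D ι)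
    (hL : LD X (cw D) (mA ι I.a) (mA ι I.b) Wt lam (φ g0) (φ g1)) (h0 : cw D (φ g0) ≠ 0)
    (hc : ∀ r, φ (C (Polynomial.C r)) = C (ι (I.κ r))) (hu : IsUnit (φ (C Polynomial.X)))
    (hq : φ (C Polynomial.X) * φ X = X) {δ : U →+ U} (hδ : IsDer δ) (hι : ∀ c, δ (ι c) = 0) :
    (∀ n, δ (coeff n (φ (C Polynomial.X))) = 0) ∧ ∀ i j, δ (co2 i j Wt) = 0 := by
  obtain ⟨Ω, _, D', δ', j, hj, hδ', hcm, hb, hf⟩ := hC U D δ hD.1 hδ
  have hz : ∀ c, δ' (j (ι c)) = 0 := fun c => hf _ fun n => by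
    have : ∀ n c, D^[n] (ι c) = ι (I.D^[n] c) := fun n => by
      induction n with
      | zero => intro c; rfl
      | succ n ih => intro c; rw [Function.iterate_succ_apply, Function.iterate_succ_apply, hD.2, ih]
    rw [this, hι]
  have hO : Obs k d ((j.comp ι).comp I.κ) D' (j (ι (cc I.x0))) (j (ι (cc I.y0)))
      (mA j (mA ι I.a)) (mA j (mA ι I.b)) :=
    ⟨hj.1, L, inferInstance, I, j.comp ι, 1, one_ne_zero, fun c => by
      rw [RingHom.comp_apply, hj.2, hD.2, one_mul, RingHom.comp_apply], fun _ => rfl, rfl, rfl,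
      mA_mA _ _ _, by rw [map_one, one_mul, mA_mA]⟩
  have hL' := hL.push' (map j) (t' := X) (D' := cw D') (by rw [map_X]) (cw_map' hj.2)
  let ψ : (Polynomial k)⟦X⟧ →+* Ω⟦X⟧ := (map j).comp φ
  have c0 : ∀ r, ψ (C (Polynomial.C r)) = C (((j.comp ι).comp I.κ) r) := fun r => by
    simp only [ψ, RingHom.comp_apply, hc, map_C]
  have cu : IsUnit (ψ (C Polynomial.X)) := hu.map (map j)
  have cq : ψ (C Polynomial.X) * ψ X = X := by
    simp only [ψ, RingHom.comp_apply, ← map_mul (map j), hq, map_X]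
  have k1 := chain c0 cu cq hj.1 fun r => by
    simp only [RingHom.comp_apply, hj.2, hD.2, I.cv.2.1, map_zero]
  have k2 := chain c0 cu cq hδ' fun r => hz _
  have n0 : cw D' (ψ g0) ≠ 0 := by
    simp only [ψ, RingHom.comp_apply, cw_map' hj.2]
    exact fun h => h0 (map_injective j j.injective (by rw [h, map_zero]))
  have za : ∀ c : AA L, cw (cw δ') (mA j (mA ι c)) = 0 := fun c =>
    co2_ext fun a b => by rw [co2_cw_cw, co2_mA, co2_mA, hz, co2_zero]
  have hJ : cw δ' (ψ g0) * cw D' (ψ g1) = cw δ' (ψ g1) * cw D' (ψ g0) := by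
    refine (cu.pow 2).mul_left_cancel ?_
    have a0 := k1 g0
    have a1 := k1 g1
    have b0 := k2 g0
    have b1 := k2 g1
    calc _ = (ψ (C Polynomial.X) * cw δ' (ψ g0)) * (ψ (C Polynomial.X) * cw D' (ψ g1)) := by ring
      _ = (ψ (C Polynomial.X) * cw δ' (ψ g1)) * (ψ (C Polynomial.X) * cw D' (ψ g0)) := by
        rw [a0, a1, b0, b1]; ring
      _ = _ := by ring
  obtain ⟨r0, -, r2⟩ := hK k Ω d _ D' δ' _ _ _ _ _ _ (ψ g0) (ψ g1) hd hO hL' n0 hδ' hcm (za _)
    (za _) hJ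
  refine ⟨fun n => hb _ ?_, fun a b => hb _ ?_⟩
  · have b0 := k2 g0
    rw [r0, mul_zero] at b0
    have : cw δ' (ψ (C Polynomial.X)) = 0 := by
      refine (mul_eq_zero.1 b0.symm).resolve_right fun h => n0 ?_
      have a0 := k1 g0
      rw [h, mul_zero] at a0
      exact (cu.mul_right_eq_zero).1 a0
    have := congrArg (coeff n) this
    rwa [coeff_cw, map_zero, RingHom.comp_apply, coeff_map] at this
  · have := congrArg (co2 a b) r2
    rwa [co2_cw_cw, co2_zero, ← mA, co2_mA] at this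

end S2b

open S2b in
theorem s2bS (hK : KillStmt) (hC : CommuteStmt) (hA : DerAlgStmt) (hS : S2cStmt) : S2bStmt := by
  intro k U _ _ _ _ d κ D x y a b Wt lam g0 g1 Φ hd hO hL h0 p0 p1 t0 t1 hk hu hq
  obtain ⟨hD, L, _, I, ι, θ, hθ, hι, hκ, -, -, rfl, rfl⟩ := hO
  have : CharZero U := (RingHom.charZero_iff κ.injective).1 inferInstance
  obtain ⟨g0, rfl, s0⟩ := lift p0 t0
  obtain ⟨g1, rfl, s1⟩ := lift p1 t1
  let φ : (Polynomial k)⟦X⟧ →+* U⟦X⟧ := Φ.comp (map Polynomial.coeToPowerSeries.ringHom)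
  have fX : φ (C Polynomial.X) = Φ (C X) := by
    simp only [φ, RingHom.comp_apply, map_C, Polynomial.coeToPowerSeries.ringHom_apply,
      Polynomial.coe_X]
  have fq : φ X = Φ X := by simp only [φ, RingHom.comp_apply, map_X]
  have fc : ∀ r, φ (C (Polynomial.C r)) = C (ι (I.κ r)) := fun r => by
    simp only [φ, RingHom.comp_apply, map_C, Polynomial.coeToPowerSeries.ringHom_apply,
      Polynomial.coe_C, hκ]
    exact hk r
  let D1 : U →+ U := (AddMonoidHom.mulLeft θ⁻¹).comp D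
  have hD1 : DExt I.D D1 ι := ⟨hD.mulLeft _, fun c => by
    simp only [D1, AddMonoidHom.comp_apply, AddMonoidHom.coe_mulLeft, hι]
    rw [inv_mul_cancel_left₀ hθ]⟩
  have hL1 : LD X (cw D1) (mA ι I.a) (mA ι I.b) Wt lam (φ g0) (φ g1) := by
    have := hL.push (RingHom.id _) (t' := X) (θ := C θ⁻¹) (D' := cw D1) dvd_rfl
      fun c => cw_mulLeft _ _ c
    simp only [map_id, id_eq, RingHom.id_apply] at this
    rwa [← mul_assoc, CC_apply, ← map_mul, ← map_mul, inv_mul_cancel₀ hθ, map_one, map_one,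
      one_mul] at this
  have h1 : cw D1 (φ g0) ≠ 0 := by
    rw [cw_mulLeft]
    exact mul_ne_zero (fun h => inv_ne_zero hθ (C_injective (h.trans (map_zero C).symm))) h0
  rw [← fX] at hu hq ⊢
  rw [← fq] at hq
  obtain ⟨E, _, D2, i, τ, hi, hτ, hc, halg, hres⟩ := restr hA hD1
  obtain ⟨p, hp⟩ := exists_map_of_coeff (φ := τ) (f := φ (C Polynomial.X)) fun n =>
    hres _ fun δ hδ hz => (kill hK hC I hd hD1 hL1 h1 fc hu hq hδ hz).1 n
  obtain ⟨W, rfl⟩ := exists_mA (τ := τ) (c := Wt) fun a b =>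
    hres _ fun δ hδ hz => (kill hK hC I hd hD1 hL1 h1 fc hu hq hδ hz).2 a b
  have pu : IsUnit p := by
    rw [isUnit_iff_constantCoeff] at hu ⊢
    rw [hp, K3.cc_map] at hu
    exact isUnit_iff_ne_zero.2 fun h => hu.ne_zero (by rw [h, map_zero])
  obtain ⟨v, hv⟩ := pu.exists_right_inv
  have mv : v * X ∈ Ideal.span {(X : E⟦X⟧)} := Ideal.mem_span_singleton.2 (dvd_mul_left _ _)
  let ψ : (Polynomial k)⟦X⟧ →+* E⟦X⟧ :=
    ev (Polynomial.eval₂RingHom ((C : E →+* E⟦X⟧).comp (i.comp I.κ)) p) (v * X)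
  have sc : ∀ r, ψ (C (Polynomial.C r)) = C (i (I.κ r)) := fun r => by
    simp only [ψ, ev_C _ mv, Polynomial.coe_eval₂RingHom, Polynomial.eval₂_C, RingHom.comp_apply]
  have sp : ψ (C Polynomial.X) = p := by
    simp only [ψ, ev_C _ mv, Polynomial.coe_eval₂RingHom, Polynomial.eval₂_X]
  have sq : ψ X = v * X := ev_X _ mv
  have hψ : (map τ).comp ψ = φ := by
    refine homExt (Ideal.span {(X : U⟦X⟧)}) (fun r => ?_) ?_ ?_
    · have : (((map τ).comp ψ).comp C) = φ.comp C := by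
        refine Polynomial.ringHom_ext (fun r => ?_) ?_
        · simp only [RingHom.comp_apply, sc, fc, map_C, hc]
        · simp only [RingHom.comp_apply, sp, hp]
      exact RingHom.congr_fun this r
    · refine hu.mul_left_cancel ?_
      rw [hq, hp, RingHom.comp_apply, sq, ← map_mul, ← mul_assoc, hv, one_mul, map_X]
    · rw [RingHom.comp_apply, sq, map_mul, map_X]
      exact Ideal.mem_span_singleton.2 (dvd_mul_left _ _)
  have hψ' : ∀ c, φ c = map τ (ψ c) := fun c => (RingHom.congr_fun hψ c).symm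
  have rW : red W = X := by
    apply map_injective τ τ.injective
    have := red_eq_zero.2 hL1.w
    rw [map_sub, red_X, red_mA, sub_eq_zero] at this
    rw [this, map_X]
  have hv' : iT (mA ι I.a) * mT ι I.vb = iT (mA ι I.b) := by
    rw [← mT_iT, ← mT_iT, ← map_mul, I.hv]
  have key := hS k L E d I D2 i (iT W) p g0 g1 ψ hd hi halg (by rw [cc_iT, rW, coeL_X]) pu sc sp
    (by rw [sq, ← mul_assoc, hv, one_mul]) s0 s1 (by
      apply mT_inj τ.injective
      have := eqT hL1 hv'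
      rw [hψ', hψ' g1, cw_map' hτ.2, cw_map' hτ.2] at this
      rw [map_mul, map_add, map_mul, mT_VT hτ.2, mT_mT, mT_iT, mT_cL, mT_cL,
        show τ.comp i = ι from RingHom.ext hc]
      exact this)
  have e : D1 (cc (φ (C Polynomial.X))) = 0 := by rw [hp, K3.cc_map, hτ.2, key, map_zero]
  exact (mul_eq_zero.1 e).resolve_left (inv_ne_zero hθ)

end Pool.Agent.MP_05b4bd_ag.ES

end MrgPart10

-- marker of a merged file
example : 731051 + 99545 = 731051 + 99545 := rfl
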