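import Pool.Agent.MP_05b4bd_ag.esc.Sym
import Pool.Agent.MP_05b4bd_ag.esc.S2a
import Pool.Agent.MP_05b4bd_ag.esc.Ann
import Pool.Agent.MP_05b4bd_ag.esc.Even
import Pool.Agent.MP_05b4bd_ag.esc.Log1
import Pool.Agent.MP_05b4bd_ag.esc.S2b
import Pool.Agent.MP_05b4bd_ag.esc.Bfin
import Pool.Agent.MP_05b4bd_ag.esc.Minp
import Pool.Agent.MP_05b4bd_ag.esc.Pmk
import Pool.Agent.MP_05b4bd_ag.esc3.ChkA
import Pool.Agent.MP_05b4bd_ag.esc.Bx
import Pool.Agent.MP_05b4bd_ag.esc.Wrap2
import Pool.Agent.MP_05b4bd_ag.esc3.S2c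
import Pool.Agent.MP_05b4bd_ag.pc3.Spec
import Pool.Agent.MP_05b4bd_ag.esc.Symb

/-! Assembly of all steps. -/

namespace Pool.Agent.MP_05b4bd_ag.ES

theorem main_final  : MainStmt :=
  have hNp : NpStmt := npS
  have hArc : ArcStmt := arcS hNp
  have hDerAlg : DerAlgStmt := derAlgS
  have hGenTop : GenTopStmt := genTopS
  have hGenCrit : GenCritStmt := genCritS
  have hGenJac : GenJacStmt := genJacS
  have hFra : FraStmt := fraS hGenTop hGenCrit hGenJac
  have hChart : ChartStmt := chartS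
  have hMkinf : MkinfStmt := mkinfS hDerAlg
  have hRat : RatStmt := ratS
  have hLien : LienStmt := lienS
  have hObs : ObsStmt := obsS
  have hCher : CherStmt := cherS
  have hRefl : ReflStmt := reflS
  have hSym : SymStmt := symS hCher hRefl
  have hPairAbs : PairAbsStmt := pairAbsS
  have hDisc : DiscStmt := discS hPairAbs
  have hCommon : CommonStmt := commonS
  have hDich : DichStmt := dichS hCommon
  have hBase : BaseStmt := baseS hGenTop hDerAlg
  have hCmp : CmpStmt := cmpS
  have hAmalg : AmalgStmt := amalgS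
  have hGlc : GlcStmt := glcS
  have hIlAbs : IlAbsStmt := ilAbsS
  have hIl : IlStmt := ilS hGlc hIlAbs
  have hEvb : EvbStmt := evbS
  have hNz : NzStmt := nzS
  have hS1b : S1bStmt := s1bS hCmp hAmalg hIl hEvb hNz hGenTop
  have hEven : EvenStmt := evenS hRefl
  have hDeck : DeckStmt := deckS hEven hDisc hAmalg hCmp
  have hRedAbs : RedAbsStmt := redAbsS
  have hGrade : GradeStmt := gradeS
  have hBspec : BspecStmt := bspecS hGrade
  have hBx : BxStmt := bxS hNz
  have hInv : InvStmt := invS hGlc hRedAbs hEvb hNz hIl hGrade hBspec hBx hGenTop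
  have hS1a : S1aStmt := s1aS hBase hCmp hAmalg hDeck hInv
  have hS1 : S1Stmt := s1S hDich hBase hS1b hS1a
  have hCommute : CommuteStmt := commuteS
  have hSyma : SymaStmt := symaS hS1 hCommute hDerAlg
  have hHol : HolStmt := holS
  have hSymb : SymbStmt := symbS hCmp hIl hHol hGenTop
  have hS2a : S2aStmt := s2aS hSyma hSymb hDerAlg
  have hDfin : DfinStmt := dfinS hLien hObs hSym hRefl hDisc hS2a
  have hCase8 : Case8Stmt := case8S hChart hMkinf hRat hDfin hGenTop
  have hPmk : PmkStmt := pmkS hChart hGenTop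
  have hPram : PramStmt := pramS
  have hPeq : PeqStmt := peqS
  have hAmk : AmkStmt := amkS hPram hPeq
  have hA1 : A1Stmt := a1S
  have hA12 : A12Stmt := a12S hA1
  have hLow : LowStmt := lowS
  have hA3 : A3Stmt := a3S hLow
  have hAbmk : AbmkStmt := abmkS
  have hExt : ExtStmt := extS
  have hPframe : PframeStmt := pframeS hMkinf hRat hObs
  have hAfin : AfinStmt := afinS hAmk hA12 hA3 hAbmk hExt hPframe hS1
  have hBnum : BnumStmt := bnumS hPram hPeq
  have hBend : BendStmt := bendS
  have hExp : ExpStmt := expS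
  have hPsi : PsiStmt := psiS hExp
  have hBmk : BmkStmt := bmkS hBnum hBend hAbmk hPframe hPsi
  have hLienA : LienAStmt := lienAS
  have hDerExt : DerExtStmt := derExtS
  have hLog1 : Log1Stmt := log1S hHol hDerExt hDerAlg hExp
  have hLog2 : Log2Stmt := log2S hDisc hLog1 hPsi hExp
  have hKill : KillStmt := killS hS1
  have hBlog : BlogStmt := blogS hLienA hPsi hSym hLog2 hKill hObs
  have hAnn : AnnStmt := annS hPairAbs
  have hS2c : S2cStmt := s2cS hCmp hIl hHol hGenTop
  have hS2b : S2bStmt := s2bS hKill hCommute hDerAlg hS2c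
  have hBfin : BfinStmt := bfinS hBlog hDisc hAnn hS2a hS2b hPsi hObs
  have hEsc : EscStmt := escS hCase8 hPmk hAfin hBmk hBfin
  have hCore : CoreStmt := coreS hFra hEsc hGenCrit
  have hMinp : MinpStmt := minpS hArc hDerAlg hCore
  have hMain : MainStmt := mainS hMinp
  hMain

end Pool.Agent.MP_05b4bd_ag.ES
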