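import Pool.Agent.MP_05b4bd_ag.esc.Bx
import Pool.Agent.MP_05b4bd_ag.esc.Symb

-- ======== part 0: formerly Pool.Agent.MP_05b4bd_ag.esc.A1
section MrgPart0

/-! Small case, first step: the invariant curve is straightened. -/

namespace Pool.Agent.MP_05b4bd_ag.ES

open PowerSeries LaurentSeries HC

namespace A1

variable {R : Type} [CommRing R]

theorem dmul {p a b c e : R} (h1 : p ∣ a - b) (h2 : p ∣ c - e) : p ∣ a * c - b * e := by
  obtain ⟨u, hu⟩ := h1
  obtain ⟨v, hv⟩ := h2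
  exact ⟨u * c + b * v, by linear_combination c * hu + b * hv⟩

theorem dadd {p a b c e : R} (h1 : p ∣ a - b) (h2 : p ∣ c - e) : p ∣ a + c - (b + e) := by
  have := dvd_add h1 h2
  rwa [show a - b + (c - e) = a + c - (b + e) by ring] at this

theorem dcst (p a : R) : p ∣ a - a := by simp

/-- The inverse of `1 + X d/dX`. -/
theorem exists_inv_th [Algebra ℚ R] : ∃ L : R⟦X⟧ → R⟦X⟧, (∀ f, L f + X * dX R (L f) = f) ∧
    ∀ (s : R) f g, C s ∣ f - g → C s ∣ L f - L g := by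
  refine ⟨fun f => mk fun n => algebraMap ℚ R ((n : ℚ) + 1)⁻¹ * coeff n f, fun f => ?_,
    fun s f g h => ?_⟩
  · ext n
    rw [← thP_apply, map_add, coeff_thP, coeff_mk]
    linear_combination coeff n f * inv_succ_mul (R := R) n
  · rw [C_dvd_iff] at h ⊢
    intro n
    rw [map_sub, coeff_mk, coeff_mk, ← mul_sub, ← map_sub]
    exact (h n).mul_left _

theorem dvd_of_X_mul {s : R} {f : R⟦X⟧} (h : C s ∣ X * f) : C s ∣ f := by
  rw [C_dvd_iff] at h ⊢
  intro n
  simpa [coeff_succ_X_mul] using h (n + 1)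

theorem rescale_C' (a r : R) : rescale a (C r) = C r := by
  rw [rescale_eq_sb, sb_C (by simp)]

theorem rescale_sub {s a : R} (h : s ∣ a - 1) (f : R⟦X⟧) : C s ∣ rescale a f - f := by
  rw [C_dvd_iff]
  intro n
  rw [map_sub, coeff_rescale, show a ^ n * coeff n f - coeff n f = (a ^ n - 1 ^ n) * coeff n f by
    ring]
  exact (h.trans (sub_dvd_pow_sub_pow a 1 n)).mul_right _

theorem cc_rescale (a : R) (f : R⟦X⟧) : cc (rescale a f) = cc f := by
  rw [rescale_eq_sb, cc_sb (by simp)]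

/-- The invariant curve. -/
theorem curve [Algebra ℚ R] (t β : R) [IsAdicComplete (Ideal.span {t}) R] (hβ : t ∣ β) (d : ℕ)
    (b e : AA R) (hb : CC t ∣ b) (he : CC t ∣ e) (b0 : C (β * t) ∣ cc b - C β)
    (e0 : C (β * t) ∣ cc e + C (β * (d + 1)) * X) : ∃ η : R⟦X⟧, C t ∣ η - 1 ∧
      η * (η * C β - ev (RingHom.id _) (η * C β) b) +
        dX R η * ev (RingHom.id _) (η * C β) (fB d e) = 0 := by
  obtain ⟨L, L1, L2⟩ := exists_inv_th (R := R)
  obtain ⟨r1, h1⟩ := b0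
  obtain ⟨r2, h2⟩ := e0
  obtain ⟨b1, hb1⟩ := eq_C_add_X_mul b
  obtain ⟨e1, he1⟩ := eq_C_add_X_mul e
  have k : ∀ {c c1 : AA R}, CC t ∣ c → c = C (cc c) + X * c1 → CC t ∣ c1 := by
    intro c c1 hc h
    refine dvd_of_X_mul (s := C t) ?_
    rw [show X * c1 = c - C (cc c) by linear_combination -h]
    exact dvd_sub hc (map_dvd C (by simpa using (C_dvd_iff _ _).1 hc 0))
  obtain ⟨b2, hb2⟩ := k hb hb1
  obtain ⟨e2, he2⟩ := k he he1
  have hw : ∀ x : R⟦X⟧, (1 + C t * x) * C β ∈ Ideal.span {(C t : R⟦X⟧)} := fun x =>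
    Ideal.mem_span_singleton.2 ((map_dvd C hβ).mul_left _)
  let p : AA R → R⟦X⟧ → R⟦X⟧ := fun c x => ev (RingHom.id _) ((1 + C t * x) * C β) c
  have hp : ∀ c n x y, C t ^ n ∣ x - y → C t ^ (n + 1) ∣ p c x - p c y := by
    intro c n x y h
    refine Dvd.dvd.trans ?_ (ev_sub _ (hw x) (hw y) c)
    rw [show (1 + C t * x) * C β - (1 + C t * y) * C β = (x - y) * C t * C β by ring, pow_succ]
    exact (mul_dvd_mul_right h _).mul_right _
  let G : R⟦X⟧ → R⟦X⟧ := fun x => r1 + p b2 x + C t * (x * r1 + (2 * x + C t * (x * x)) * p b2 x +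
    dX R x * ((d : R⟦X⟧) * X * x + r2 + (1 + C t * x) * p e2 x) + (-1) * (x * x))
  obtain ⟨x, hx, -⟩ := fix_dvd (C t : R⟦X⟧) (fun x => L (G x)) fun n x y h => by
    rw [← map_pow]
    refine L2 _ _ _ ?_
    rw [map_pow]
    have q : ∀ c, C t ^ n ∣ p c x - p c y := fun c => (pow_dvd_pow _ n.le_succ).trans (hp c n x y h)
    have hd : C t ^ n ∣ dX R x - dX R y := by
      rw [← map_sub]
      exact isDer_dX.dvd (dX_C t) h
    refine dadd (dadd (dcst _ _) (hp _ n x y h)) ?_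
    rw [← mul_sub, pow_succ']
    exact mul_dvd_mul_left _ (dadd (dadd (dadd (dmul h (dcst _ _))
      (dmul (dadd (dmul (dcst _ _) h) (dmul (dcst _ _) (dmul h h))) (q _)))
      (dmul hd (dadd (dadd (dmul (dcst _ _) h) (dcst _ _))
        (dmul (dadd (dcst _ _) (dmul (dcst _ _) h)) (q _))))) (dmul (dcst _ _) (dmul h h)))
  have hG : x + X * dX R x = G x := by
    have := L1 (G x)
    rwa [hx] at this
  refine ⟨1 + C t * x, by simp, ?_⟩
  have v1 : p b x = cc b + (1 + C t * x) * C β * (C t * p b2 x) := by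
    conv_lhs => rw [hb1, hb2]
    simp only [p, map_add, map_mul, ev_C _ (hw x), ev_X _ (hw x), CC_apply, RingHom.id_apply]
  have v2 : p (fB d e) x = -((d : R⟦X⟧) * X * ((1 + C t * x) * C β) +
      (cc e + (1 + C t * x) * C β * (C t * p e2 x))) := by
    unfold fB
    conv_lhs => rw [he1, he2]
    simp only [p, map_add, map_mul, map_neg, map_natCast, ev_C _ (hw x), ev_X _ (hw x), CC_apply,
      RingHom.id_apply]
  change (1 + C t * x) * ((1 + C t * x) * C β - p b x) + dX R (1 + C t * x) * p (fB d e) x = 0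
  rw [v1, v2, map_add, isDer_dX.one, isDer_dX.const_mul (dX_C t), zero_add]
  simp only [map_mul, map_add, map_natCast, map_one, G] at h1 h2 hG
  linear_combination C β * C t * hG - (1 + C t * x) * h1 - C t * dX R x * h2

end A1

open A1

theorem a1S : A1Stmt := by
  intro k _ _ d b e β V ⟨hβ, hβ0, hV, hb, he, b0, e0, hc⟩
  have tβ : (X : k⟦X⟧) ∣ β := X_dvd_iff.2 hβ
  obtain ⟨η, hη, hK⟩ := curve X β tβ d b e hb he b0 e0
  have uη : IsUnit η := unit_of_sub_mem (Ideal.span {(C X : k⟦X⟧⟦X⟧)}) isUnit_one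
    (Ideal.mem_span_singleton.2 hη)
  have mβ : (C β : k⟦X⟧⟦X⟧) ∈ Ideal.span {(C X : k⟦X⟧⟦X⟧)} :=
    Ideal.mem_span_singleton.2 (map_dvd C tβ)
  have hX : rescale η (X : AA k⟦X⟧) = C η * X := rescale_X η
  have ev1 : ∀ f, ev (RingHom.id _) (C β) (rescale η f) = ev (RingHom.id _) (η * C β) f := by
    have m2 := Ideal.mul_mem_left _ η mβ
    have e1 : ((ev (RingHom.id _) (C β)).comp (rescale η)) X = η * C β := by
      rw [RingHom.comp_apply, hX, map_mul, ev_C _ mβ, ev_X _ mβ, RingHom.id_apply]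
    exact fun f => RingHom.congr_fun (homExt _ (g := (ev (RingHom.id _) (C β)).comp (rescale η))
      (fun r => by rw [RingHom.comp_apply, rescale_C', ev_C _ mβ, ev_C _ m2])
      (by rw [e1, ev_X _ m2]) (by rw [e1]; exact m2)) f
  obtain ⟨lam, hlam⟩ : X - CC β ∣
      C η * rescale η (X - b) + C (dX _ η) * rescale η (fB d e) := by
    refine (factor _ mβ).2 ?_
    rw [map_add, map_mul, map_mul, ev_C _ mβ, ev_C _ mβ, ev1, ev1, map_sub,
      ev_X _ (Ideal.mul_mem_left _ η mβ)]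
    exact hK
  have T1 : (CC X : AA k⟦X⟧) ∣ C η - 1 := by simpa [CC_apply] using map_dvd C hη
  have T2 : (CC X : AA k⟦X⟧) ∣ C (dX _ η) := by
    have := isDer_dX.dvd (dX_C (X : k⟦X⟧)) (n := 1) (a := η - 1) (by rwa [pow_one])
    rw [pow_one, map_sub, isDer_dX.one, sub_zero] at this
    exact map_dvd C this
  have T3 : ∀ f, (CC X : AA k⟦X⟧) ∣ rescale η f - f := rescale_sub hη
  have T4 : (CC X : AA k⟦X⟧) ∣ CC β := map_dvd CC tβ
  have T5 : (CC X : AA k⟦X⟧) ∣ lam - 1 := by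
    refine dvd_of_X_mul (s := C X) ?_
    have := dvd_add (dvd_sub (dvd_add (dmul T1 (T3 (X - b))) (T2.mul_right (rescale η (fB d e))))
      hb) (T4.mul_right lam)
    rwa [show C η * rescale η (X - b) - 1 * (X - b) + C (dX _ η) * rescale η (fB d e) - b +
      CC β * lam = X * (lam - 1) by linear_combination hlam] at this
  have ul : IsUnit lam := unit_of_sub_mem (Ideal.span {(C (C X) : AA k⟦X⟧)}) isUnit_one
    (Ideal.mem_span_singleton.2 T5)
  obtain ⟨μ, hμ⟩ := ul.exists_right_inv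
  have T6 : (CC X : AA k⟦X⟧) ∣ μ - 1 := by
    rw [show μ - 1 = -μ * (lam - 1) by linear_combination hμ]
    exact T5.mul_left _
  obtain ⟨e', he'⟩ : ∃ e', fB d e' = μ * C η * rescale η (fB d e) :=
    ⟨-(μ * C η * rescale η (fB d e)) - (d : AA k⟦X⟧) * C X * X, by rw [fB]; ring⟩
  have d1 : ∀ c : k⟦X⟧⟦X⟧, cw (dX k⟦X⟧) (C c * X) = C (dX _ c) * X := fun c => by
    rw [isDer_dX.coefw, cw_C, cw_X isDer_dX.one, mul_zero, add_zero]
  have d2 : ∀ c : k⟦X⟧⟦X⟧, dX _ (C c * X) = C c := fun c => by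
    rw [isDer_dX.const_mul (dX_C c), dX_X, mul_one]
  have eA : lam * (X * (X - CC β)) =
      1 * rescale η (X * (X - b)) + C (dX _ η) * X * rescale η (fB d e) := by
    rw [map_mul, hX]
    linear_combination -X * hlam
  have eB : lam * fB d e' = 0 * rescale η (X * (X - b)) + C η * rescale η (fB d e) := by
    rw [he']
    linear_combination C η * rescale η (fB d e) * hμ
  have mV : V ∈ up (⊥ : Ideal k) := hV
  have m0 : β ∈ up (⊥ : Ideal k) := hβ
  have hone : ev (RingHom.id _) V η = 1 := by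
    obtain ⟨v, hv⟩ := (uη.map (ev (RingHom.id _) V)).exists_right_inv
    have m1 : β * v ∈ up (⊥ : Ideal k) := Ideal.mul_mem_right _ _ m0
    have e1 : ((ev2 (RingHom.id _) V (β * v)).comp (rescale η)) (C X) = V := by
      rw [RingHom.comp_apply, rescale_C', ev2_CX _ mV m1]
    have e2 : ((ev2 (RingHom.id _) V (β * v)).comp (rescale η)) X = β := by
      rw [RingHom.comp_apply, hX, map_mul, ev2_C _ m1, ev2_X _ m1]
      linear_combination β * hv
    have e3 := homExt2 (up (⊥ : Ideal k)) (g := (ev2 (RingHom.id _) V (β * v)).comp (rescale η))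
      (g' := ev2 (RingHom.id _) V β)
      (fun r => by rw [RingHom.comp_apply, CC_apply, rescale_C', ev2_C _ m1, ev2_C _ m0])
      (by rw [e1, ev2_CX _ mV m0]) (by rw [e2, ev2_X _ m0]) (by rw [e1]; exact mV)
      (by rw [e2]; exact m0)
    have e4 : ∀ f, ev2 (RingHom.id _) V (β * v) (rescale η f) = ev2 (RingHom.id _) V β f :=
      RingHom.congr_fun e3
    have a1 : ev2 (RingHom.id _) V β (X * (X - b)) = 0 :=
      (map_eq_zero_iff _ coeL_inj).1 hc.1
    have a2 : ev2 (RingHom.id _) V β (fB d e) = 0 := (map_eq_zero_iff _ coeL_inj).1 hc.2.1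
    rw [map_mul, ev2_X _ m0] at a1
    have a3 := congrArg (ev2 (RingHom.id _) V (β * v)) hlam
    rw [map_add, map_mul, map_mul, map_mul, e4, e4, a2, (mul_eq_zero.1 a1).resolve_left hβ0,
      map_sub, ev2_X _ m1, ev2_CC _ mV m1, mul_zero, mul_zero, add_zero, eq_comm,
      (ul.map _).mul_left_eq_zero, RingHom.id_apply] at a3
    have a4 : v = 1 := mul_left_cancel₀ hβ0 (by linear_combination a3)
    rwa [a4, mul_one] at hv
  refine ⟨e', ⟨hβ, hβ0, hV, T4, ?_, by simp [CC_apply], ?_, ?_⟩, fun I hI => ?_⟩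
  · have := dvd_sub (dvd_neg.2 (dmul (dmul T6 T1) (T3 (fB d e)))) (dvd_neg.2 he)
    rw [← he'] at this
    rwa [show -(fB d e' - 1 * 1 * fB d e) - -e = e' by simp only [fB]; ring] at this
  · have s1 : cc e' = cc μ * η * cc e := by
      have := congrArg cc he'
      simp only [fB, map_neg, map_add, map_mul, cc_rescale, constantCoeff_X, constantCoeff_C,
        mul_zero, zero_add] at this
      linear_combination -this
    have s2 : (C X : k⟦X⟧⟦X⟧) ∣ cc μ - 1 := by simpa using (C_dvd_iff _ _).1 T6 0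
    obtain ⟨w, hw⟩ := dmul s2 hη
    have := dvd_sub (e0.mul_left (cc μ * η)) (dvd_mul_right (C (β * X)) (w * ((d : k⟦X⟧⟦X⟧) + 1) * X))
    rw [s1]
    convert this using 1
    simp only [map_mul, map_add, map_natCast, map_one]
    linear_combination -(C β * ((d : k⟦X⟧⟦X⟧) + 1) * X) * hw
  · refine hc.trans (RingHom.id _) (RingHom.id _) (fun _ => rfl) hV hβ constantCoeff_X (rescale η)
      (fun r => rescale_C' _ _) (by simp [rescale_C', c00_apply]) (by simp [hX, c00_apply]) hV hβ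
      (by rw [rescale_C', ev2_CX _ mV m0, RingHom.id_apply])
      (by rw [hX, map_mul, ev2_C _ m0, ev2_X _ m0, hone, one_mul, RingHom.id_apply]) ?_
      (lam := lam) ((ul.map _).map _).ne_zero ?_ ?_
    · rw [hX, rescale_C', d2, dX_C, cw_C, dX_X, map_one, one_mul, mul_zero, sub_zero, ev2_C _ m0,
        hone, map_one]
      exact one_ne_zero
    · rw [hX, rescale_C', d1, cw_C, dX_X, map_one, eA]
    · rw [hX, rescale_C', d2, dX_C, eB]
  · obtain ⟨I0, hI⟩ := iif_iff.1 hI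
    obtain ⟨ν, hν⟩ := uη.exists_right_inv
    have r1 : ∀ f : AA k⟦X⟧, rescale η (rescale ν f) = f := fun f => by
      rw [rescale_rescale, mul_comm, hν, rescale_one, RingHom.id_apply]
    have r2 : ∀ f : AA k⟦X⟧, rescale ν (rescale η f) = f := fun f => by
      rw [rescale_rescale, hν, rescale_one, RingHom.id_apply]
    refine ⟨rescale ν (lam * I), iif_iff.2 ⟨fun h => I0 ?_, ?_⟩⟩
    · have := r1 (lam * I)
      rw [h, map_zero, eq_comm] at this
      exact ul.mul_right_eq_zero.1 this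
    · have := iifE_trans (d1 := cw (dX k⟦X⟧)) (d2 := dX _) (rescale η) isDer_dX.coefw isDer_dX
        (J11 := 1) (J12 := C (dX _ η) * X) (J21 := 0) (J22 := C η)
        (fun s => by
          rw [rescale_eq_sb, rescale_eq_sb, rescale_eq_sb, cw_sb (by simp) isDer_dX, d1]
          ring)
        (fun s => by rw [dX_rescale, zero_mul, zero_add]) (by rw [map_zero, isDer_dX.one])
        (by rw [cw_C, d2]) (X * (X - b)) (fB d e) (rescale ν (lam * I))
      rw [← eA, ← eB, r1, iifE_scale isDer_dX.coefw isDer_dX, hI, mul_zero, one_mul, mul_zero,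
        sub_zero, eq_comm, (uη.map _).mul_right_eq_zero] at this
      rw [← r2 (iifE _ _ _ _ _), this, map_zero]

end Pool.Agent.MP_05b4bd_ag.ES

end MrgPart0

-- ======== part 1: formerly Pool.Agent.MP_05b4bd_ag.esc.Glc
section MrgPart1

/-! The rules for the Gelfand-Leray coefficients. -/

namespace Pool.Agent.MP_05b4bd_ag.ES

open PowerSeries LaurentSeries HC

namespace Glc

variable {k L : Type} [Field k] [Field L] (κ : k →+* L) (x0 y0 : L⟦X⟧)

theorem chain {δ : L⸨X⸩ →+ L⸨X⸩} (h : IsDer δ) (h0 : ∀ c, δ (cL L (κ c)) = 0) (u : R2 k) :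
    δ (EL κ x0 y0 u) = EL κ x0 y0 (MvPolynomial.pderiv 0 u) * δ (coeL L x0 * wL L (-1)) +
      EL κ x0 y0 (MvPolynomial.pderiv 1 u) * δ (coeL L y0 * wL L (-1)) :=
  h.eval₂ ((cL L).comp κ) h0 _ _ u

theorem EL_C (c : k) : EL κ x0 y0 (MvPolynomial.C c) = cL L (κ c) := MvPolynomial.eval₂Hom_C _ _ _

theorem EL_eq {n : ℕ} {g : R2 k} (hg : DL (n + 1) g) : EL κ x0 y0 g =
    wL L (-(n : ℤ)) * coeL L (hev ((C : L →+* L⟦X⟧).comp κ) n g x0 y0 X) := by
  have h := hev_eq ((cL L).comp κ) n hg (coeL L x0 * wL L (-1)) (coeL L y0 * wL L (-1)) (wL L 1)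
  have e : ∀ z, wL L 1 * (z * wL L (-1)) = z := fun z => by
    linear_combination z * wL_mul_neg (R := L) 1
  have e2 : (coeL L).comp ((C : L →+* L⟦X⟧).comp κ) = (cL L).comp κ :=
    RingHom.ext fun c => coeL_C _
  rw [e, e, wL_pow, mul_one] at h
  rw [map_hev, coeL_X, e2, h, ← mul_assoc, mul_comm _ (wL L n), wL_mul_neg, one_mul]
  rfl

theorem th_eq (x : L⟦X⟧) :
    thL L (coeL L x * wL L (-1)) = wL L (-1) * coeL L (thP L x - x) := by
  rw [mul_comm, thL_wL_mul, thL_coeL, map_sub]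
  push_cast
  ring

theorem D_eq (D : L →+ L) (x : L⟦X⟧) :
    cwL D (coeL L x * wL L (-1)) = wL L (-1) * coeL L (cw D x) := by
  rw [mul_comm, cwL_wL_mul, cwL_coeL]

theorem GL_eq (d : ℕ) (D : L →+ L) {n : ℕ} {g : R2 k} (hg : DL (n + 1) g) :
    GLc κ d D x0 y0 g = wL L (d - 2 - n) *
      coeL L (hev ((C : L →+* L⟦X⟧).comp κ) n g x0 y0 X * (C (d : L)⁻¹ *
        ((thP L x0 - x0) * cw D y0 - cw D x0 * (thP L y0 - y0)))) := by
  rw [GLc, EL_eq κ x0 y0 hg, th_eq, th_eq, D_eq, D_eq,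
    show (d : ℤ) - 2 - n = d + -1 + -1 + -n by ring, wL_add, wL_add, wL_add]
  simp only [map_mul, map_sub, coeL_C]
  ring

end Glc

open Glc in
theorem glcS : GlcStmt := by
  intro k L _ _ _ _ D d f x0 y0 hd ⟨hD, hκ, hF, hx, hy⟩ hf
  set κ := algebraMap k L with hκ'
  have : CharZero L := charZero_of_injective_ringHom κ.injective
  have d0 : (d : L) ≠ 0 := Nat.cast_ne_zero.2 (by omega)
  have cD := chain κ x0 y0 hD.coefL fun c => by rw [cwL_cL, hκ, map_zero]
  have cT := chain κ x0 y0 isDer_thL fun c => thL_cL _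
  have fD := cD f
  have fT := cT f
  rw [hf, cwL_wL hD.one] at fD
  rw [hf, thL_wL] at fT
  have u1 := wL_mul_neg (R := L) d
  have u2 : cL L (d : L)⁻¹ * (d : L⸨X⸩) = 1 := by
    rw [← map_natCast (cL L), ← map_mul, inv_mul_cancel₀ d0, map_one]
  push_cast at fT
  set Ex := coeL L x0 * wL L (-1) with hEx
  set Ey := coeL L y0 * wL L (-1) with hEy
  set J := wL L d * cL L (d : L)⁻¹ * (thL L Ex * cwL D Ey - cwL D Ex * thL L Ey) with hJ
  have G : ∀ g, GLc κ d D x0 y0 g = EL κ x0 y0 g * J := fun g => rfl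
  have u3 : wL L d * cL L (d : L)⁻¹ * (d * wL L (-(d : ℤ))) = 1 := by
    linear_combination cL L (d : L)⁻¹ * d * u1 + u2
  have jx : EL κ x0 y0 (MvPolynomial.pderiv 0 f) * J = -cwL D Ey := by
    rw [hJ]
    linear_combination wL L d * cL L (d : L)⁻¹ * (thL L Ey * fD - cwL D Ey * fT) - cwL D Ey * u3
  have jy : EL κ x0 y0 (MvPolynomial.pderiv 1 f) * J = cwL D Ex := by
    rw [hJ]
    linear_combination wL L d * cL L (d : L)⁻¹ * (cwL D Ex * fT - thL L Ex * fD) + cwL D Ex * u3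
  have hbr : ∀ u, GLc κ d D x0 y0 (br u f) = cwL D (EL κ x0 y0 u) := fun u => by
    rw [G, cD, br, map_sub, map_mul, map_mul]
    linear_combination EL κ x0 y0 (MvPolynomial.pderiv 0 u) * jy -
      EL κ x0 y0 (MvPolynomial.pderiv 1 u) * jx
  have sm : ∀ (c : k) (z : L), D (c • z) = c • D z := fun c z => by
    rw [Algebra.smul_def, Algebra.smul_def, hD.const_mul (hκ c)]
  refine ⟨hbr, fun m => ⟨⟨fun g => (GLc κ d D x0 y0 g).coeff m, fun a b => ?_⟩, fun c g => ?_⟩,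
    ⟨⟨evp κ (cc x0) (cc y0), map_add _⟩, fun c g => ?_⟩,
    LinearMap.range (⟨⟨D, map_add D⟩, sm⟩ : L →ₗ[k] L), fun _ _ => rfl, fun _ => rfl,
    fun z => ⟨fun ⟨η, h⟩ => ⟨η, h.symm⟩, fun ⟨η, h⟩ => ⟨η, h.symm⟩⟩, ?_, ?_, ?_, ?_, ?_⟩
  · rw [G, G, G, map_add, add_mul, HahnSeries.coeff_add]
  · simp only [G, MvPolynomial.smul_eq_C_mul, map_mul, EL_C, mul_assoc, coeff_cL_mul]
    exact (Algebra.smul_def _ _).symm
  · simp only [map_mul, RingHom.id_apply, Algebra.smul_def]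
    congr 1
    exact MvPolynomial.eval₂Hom_C _ _ _
  · intro m g
    change (GLc κ d D x0 y0 _).coeff _ = (GLc κ d D x0 y0 _).coeff _
    rw [G, G, map_mul, hf, mul_assoc, coeff_wL_mul, sub_neg_eq_add]
  · intro m u
    exact ⟨(EL κ x0 y0 u).coeff m, (congrArg (·.coeff m) (hbr u)).symm⟩
  · intro m A B
    have g1 : GLc κ d D x0 y0 (A * MvPolynomial.pderiv 0 f + B * MvPolynomial.pderiv 1 f) =
        EL κ x0 y0 B * cwL D Ex - EL κ x0 y0 A * cwL D Ey := by
      rw [G, map_add, map_mul, map_mul]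
      linear_combination EL κ x0 y0 A * jx + EL κ x0 y0 B * jy
    have g2 : GLc κ d D x0 y0 (MvPolynomial.pderiv 0 A + MvPolynomial.pderiv 1 B) =
        wL L d * (cL L (d : L)⁻¹ * (cwL D (EL κ x0 y0 B * thL L Ex - EL κ x0 y0 A * thL L Ey) -
          thL L (EL κ x0 y0 B * cwL D Ex - EL κ x0 y0 A * cwL D Ey))) := by
      rw [G, map_add, map_sub, map_sub, hD.coefL, hD.coefL, isDer_thL _ (cwL D Ex),
        isDer_thL _ (cwL D Ey), thL_cwL, thL_cwL, cD, cD, cT, cT, hJ]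
      ring
    refine ⟨(d : k)⁻¹ • (EL κ x0 y0 B * thL L Ex - EL κ x0 y0 A * thL L Ey).coeff (m - d), ?_⟩
    change D _ = (GLc κ d D x0 y0 _).coeff _ + _ • (GLc κ d D x0 y0 _).coeff _
    rw [sm, g1, g2, coeff_wL_mul, coeff_cL_mul, HahnSeries.coeff_sub (y := thL L _),
      coeff_cwL, coeff_thL, Algebra.smul_def, Algebra.smul_def]
    simp only [map_inv₀, map_div₀, map_sub, map_natCast, map_intCast]
    push_cast
    ring
  · intro n m g hg hm
    change (GLc κ d D x0 y0 _).coeff _ = 0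
    rw [GL_eq κ x0 y0 d D hg, coeff_wL_mul, coeff_coeL_neg _ (by omega)]
  · intro n g hg
    change (GLc κ d D x0 y0 _).coeff _ = evp κ (cc x0) (cc y0) _
    have eu := congrArg (evp κ (cc x0) (cc y0)) (euler (hc_hom d f))
    have t0 : ∀ x : L⟦X⟧, cc (thP L x) = 0 := fun x => by simp [thP]
    have e2 : (cc : L⟦X⟧ →+* L).comp ((C : L →+* L⟦X⟧).comp κ) = κ :=
      RingHom.ext fun c => constantCoeff_C _
    rw [GL_eq κ x0 y0 d D hg, coeff_wL_mul, sub_self, ← Nat.cast_zero, coeff_coeL,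
      coeff_zero_eq_constantCoeff_apply]
    simp only [map_mul, map_sub, t0, cc_cw, constantCoeff_C, hx, hy, map_hev, e2, constantCoeff_X,
      hev_zero]
    simp only [map_add, map_mul, map_natCast, hF] at eu
    have ex : evp κ (cc x0) (cc y0) (MvPolynomial.X 0) = cc x0 := MvPolynomial.eval₂Hom_X' _ _ _
    have ey : evp κ (cc x0) (cc y0) (MvPolynomial.X 1) = cc y0 := MvPolynomial.eval₂Hom_X' _ _ _
    rw [ex, ey] at eu
    change evp κ (cc x0) (cc y0) (hc n g) * _ = _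
    rw [← mul_one (evp κ (cc x0) (cc y0) (hc n g)), mul_assoc, one_mul, ← inv_mul_cancel₀ d0]
    congr 2
    linear_combination eu

theorem ilS (h1 : GlcStmt) (h2 : IlAbsStmt) : IlStmt := by
  intro k L _ _ _ _ d I Λ hd hκ hD hm n r hr hn
  let _ : Algebra k L := I.κ.toAlgebra
  obtain ⟨-, c, e, BB, hc', he, hB, hG⟩ := h1 k L I.D d I.f I.x0 I.y0 (by omega) I.cv I.fr
  have := h2 k L d I.f c e BB ⟨Λ.toAddSubmonoid, fun c z hz => hκ c z hz⟩ hd I.gen hG
    (fun z hz => by obtain ⟨η, rfl⟩ := (hB z).1 hz; exact hD η) I.g I.ng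
    (fun m h => by rw [hc']; exact I.rX ▸ hm m h) n r hr hn
  rwa [he] at this

end Pool.Agent.MP_05b4bd_ag.ES

end MrgPart1

-- ======== part 2: formerly Pool.Agent.MP_05b4bd_ag.esc.Pframe
section MrgPart2

/-! The form of a chart at infinity, read in the frame `x = q ^ (-N) / W`. -/

namespace Pool.Agent.MP_05b4bd_ag.ES

open PowerSeries LaurentSeries HC

namespace Pframe

section Ring
variable {R : Type} [CommRing R] {N d : ℕ}

theorem thU_apply (c : AA R⟦X⟧) :
    thU R N d c = rescale (C (wL R N)) (map (iT.comp (ram R⟦X⟧ (d * N))) c) := rfl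

theorem thU_C (c : AA R) : thU R N d (C c) = C (iT (ram R⟦X⟧ (d * N) c)) := by
  rw [thU_apply, map_C, rescale_C', RingHom.comp_apply]

theorem thU_CC (hM : 1 ≤ d * N) (r : R⟦X⟧) : thU R N d (CC r) = C (map (cL R) r) := by
  rw [CC_apply, thU_C, ram_C hM, iT_C]

theorem thU_CX (hM : 1 ≤ d * N) : thU R N d (C X) = CC (wL R N) ^ d := by
  rw [thU_C, ram_X hM, map_pow, iT_X, ← map_pow, ← map_pow, wL_pow, wL_pow, CC_apply, mul_one,
    Nat.cast_mul]

theorem thU_X : thU R N d X = CC (wL R N) * X := by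
  rw [thU_apply, map_X, rescale_X, CC_apply]

theorem th_CC (n : ℤ) : cw (cw (thL R)) (CC (wL R n)) = n * CC (wL R n) := by
  rw [CC_apply, cw_C, cw_C, thL_wL, map_mul, map_mul, map_intCast, map_intCast]

theorem th_thU (hM : 1 ≤ d * N) (g : AA R⟦X⟧) : cw (cw (thL R)) (thU R N d g) =
    (N : AA R⸨X⸩) * thU R N d ((d : AA R⟦X⟧) * C X * cw (dX R⟦X⟧) g + X * dX _ g) := by
  have hD : IsDer (cw (cw (thL R))) := isDer_thL.coefw.coefw
  have h := hom_chain (up (⊥ : Ideal (TT R))) (g := thU R N d)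
    (by rw [thU_X]; exact Ideal.mul_mem_left _ _ (X_mem_up ⊥)) hD (L := thP R⟦X⟧) isDer_thP
    (a := d * N) (fun r => by
      rw [thU_C, thU_C, cw_C, th_iT, thP_ram hM, map_mul, map_natCast, map_mul, map_natCast,
        Nat.cast_mul]) g
  have e : cw (thP R⟦X⟧) g = C X * cw (dX R⟦X⟧) g := cw_mulLeft X (dX R⟦X⟧) g
  rw [h, e, thU_X, hD, cw_X isDer_thL.coefw.one, th_CC]
  simp only [map_add, map_mul, map_natCast, thU_X, Int.cast_natCast]
  ring

theorem dX_thU (g : AA R⟦X⟧) : X * dX _ (thU R N d g) = thU R N d (X * dX _ g) := by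
  rw [map_mul, thU_X, thU_apply, dX_rescale, dX_map, ← thU_apply, CC_apply]
  ring

theorem CC_mul_neg (n : ℤ) : (CC (wL R (-n)) : AA R⸨X⸩) * CC (wL R n) = 1 := by
  rw [← map_mul, mul_comm, wL_mul_neg, map_one]

/-- Homogenised polynomials in the frame. -/
theorem hev_thU {A : Type} [CommRing A] (φ : A →+* AA R⟦X⟧) (n : ℕ) (P : R2 A) (u : AA R⟦X⟧) :
    hev ((thU R N d).comp φ) n P (CC (wL R (-(N : ℤ)))) (CC (wL R (-(N : ℤ))) * thU R N d u) X =
      CC (wL R (-(N : ℤ))) ^ n * thU R N d (hev φ n P 1 u X) := by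
  rw [map_hev, map_one, ← hev_smul, mul_one, thU_X, ← mul_assoc, CC_mul_neg, one_mul]

theorem c00_thU (g : AA R⟦X⟧) : c00 (thU R N d g) = coeL R (red (ram R⟦X⟧ (d * N) (cc g))) := by
  obtain ⟨h, e⟩ := eq_C_add_X_mul g
  conv_lhs => rw [e]
  rw [map_add, map_mul, thU_X, thU_C, c00_apply, map_add, map_mul, map_mul, constantCoeff_X,
    mul_zero, zero_mul, add_zero, constantCoeff_C, cc_iT]

theorem co2_thU_mapC (hM : 1 ≤ d * N) (c : AA R) (i j : ℕ) :
    co2 i j (thU R N d (map C c)) = wL R N ^ j * cL R (co2 i j c) := by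
  rw [co2, thU_apply, coeff_rescale, coeff_map, coeff_map, RingHom.comp_apply, ram_C hM, iT_C,
    ← map_pow, coeff_C_mul, coeff_map, co2]

end Ring

section Field
variable {k : Type} [Field k] [CharZero k] {N d : ℕ}

/-- The equation of the level curves in the frame. -/
theorem level (o : PD k d) (hM : 1 ≤ d * N) :
    hev (CC.comp (cL k)) d o.f (CC (wL k (-(N : ℤ)))) (CC (wL k (-(N : ℤ))) * thU k N d o.u) X +
      CC (wL k (-(N : ℤ))) ^ d * thU k N d (map C o.c) = 1 := by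
  have e : (CC : k⸨X⸩ →+* AA k⸨X⸩).comp (cL k) = (thU k N d).comp (CC.comp C) :=
    RingHom.ext fun r => by
      rw [RingHom.comp_apply, RingHom.comp_apply, RingHom.comp_apply, thU_CC hM, map_C, CC_apply]
  rw [e, hev_thU, ← mul_add, ← map_add, o.eu, thU_CX hM, ← mul_pow, CC_mul_neg, one_pow]

theorem red_c (o : PD k d) (hM : 1 ≤ d * N) : red (thU k N d (map C o.c)) = 0 := by
  obtain ⟨c, e⟩ := o.tc
  rw [e, map_mul, map_C, ← CC_apply, map_mul, thU_CC hM, map_X, map_mul, red_C, constantCoeff_X,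
    map_zero, zero_mul]

theorem level_red (o : PD k d) (hM : 1 ≤ d * N) :
    hev ((C : k⸨X⸩ →+* k⸨X⸩⟦X⟧).comp (cL k)) d o.f (red (CC (wL k (-(N : ℤ)))))
      (red (CC (wL k (-(N : ℤ))) * thU k N d o.u)) X = 1 := by
  have h := congrArg red (level o hM)
  have e : (red : AA k⸨X⸩ →+* k⸨X⸩⟦X⟧).comp (CC.comp (cL k)) = C.comp (cL k) :=
    RingHom.ext fun r => by
      rw [RingHom.comp_apply, RingHom.comp_apply, RingHom.comp_apply, CC_apply, red_C,
        constantCoeff_C]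
  rwa [map_add, map_mul _ (_ ^ d), red_c o hM, mul_zero, add_zero, map_hev, e, red_X, map_one] at h

theorem c00_CC {R : Type} [CommRing R] (r : R) : c00 (CC r) = r := by
  rw [CC_apply, c00_apply, constantCoeff_C, constantCoeff_C]

theorem c00_X {R : Type} [CommRing R] : c00 (X : AA R) = 0 := by
  rw [c00_apply, constantCoeff_X, map_zero]

omit [CharZero k] in
theorem c00_hev {U : Type} [Field U] (κ : k →+* U) (n : ℕ) (g : R2 k) (x : U) (v : AA U) :
    c00 (hev (CC.comp κ) n g (CC x) (CC x * v) X) =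
      x ^ n * MvPolynomial.eval₂ κ ![1, c00 v] (hc n g) := by
  have e : (c00 : AA U →+* U).comp (CC.comp κ) = κ := RingHom.ext fun r => c00_CC _
  rw [map_hev, e, c00_X, hev_zero, map_mul, c00_CC, ← k4_hom κ (hc_hom n g), mul_one]

/-- The frame is not degenerate. -/
theorem nondeg (o : PD k d) (hM : 1 ≤ d * N) : thL k (c00 (thU k N d o.u)) ≠ 0 := by
  intro h0
  have : CharZero k⸨X⸩ := charZero_of_injective_ringHom (cL_inj (R := k))
  have h := congrArg c00 (level o hM)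
  rw [map_add, map_mul _ (_ ^ d), ← cc_red (thU k N d (map C o.c)), red_c o hM, map_zero, mul_zero,
    add_zero, c00_hev, map_one, wL_pow] at h
  have h1 := congrArg (thL k) h
  rw [thL_wL_mul, h, isDer_thL.eval₂ _ thL_cL, h0, isDer_thL.one, mul_one, mul_zero, mul_zero,
    add_zero, mul_zero, add_zero, Int.cast_eq_zero] at h1
  have h2 : ((d * N : ℕ) : ℤ) = 0 := by push_cast; linarith
  omega

theorem simple (o : PD k (d + 1)) (hM : 1 ≤ (d + 1) * N) :
    MvPolynomial.eval₂ (cL k) ![1, c00 (thU k N (d + 1) o.u)]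
      (hc d (MvPolynomial.pderiv 1 o.f)) ≠ 0 := by
  intro h
  apply o.su
  have e : cL k = (coeL k).comp C := RingHom.ext fun r => (coeL_C r).symm
  rw [c00_thU, e, ← map_one (coeL k), ← k4_map, hc_pderiv] at h
  have h1 := congrArg cc (coeL_inj (h.trans (map_zero _).symm))
  have e1 : (cc : k⟦X⟧ →+* k).comp C = RingHom.id k := RingHom.ext fun r => constantCoeff_C r
  rw [k4_map, e1, map_one, map_zero, cc_red, c00_apply, cc_ram hM] at h1
  exact h1

theorem rat (h2 : RatStmt) (o : PD k d) (hd : 1 ≤ d) (hN : 1 ≤ N) (F : Subfield k⸨X⸩)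
    (f1 : ∀ r, cL k r ∈ F) (f2 : wL k (-(N : ℤ)) ∈ F)
    (f3 : c00 (CC (wL k (-(N : ℤ))) * thU k N d o.u) ∈ F) (i j : ℕ) :
    co2 i j (CC (wL k (-(N : ℤ))) * thU k N d o.u) ∈ F := by
  have hM : 1 ≤ d * N := Nat.mul_pos hd hN
  obtain ⟨d, rfl⟩ := Nat.exists_eq_add_of_le' hd
  have f4 : wL k N ∈ F := by
    rw [eq_inv_of_mul_eq_one_left (wL_mul_neg (R := k) N)]
    exact F.inv_mem f2
  obtain ⟨c, hc⟩ := exists_mA (τ := F.subtype) (c := thU k N (d + 1) (map C o.c)) fun i j =>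
    ⟨⟨_, F.mul_mem (F.pow_mem f4 j) (f1 _)⟩, co2_thU_mapC hM _ i j⟩
  obtain ⟨p, hp⟩ := exists_poly_y (CC.comp ((cL k).codRestrict F f1)) d o.f (CC ⟨_, f2⟩) X
  obtain ⟨p1, p2⟩ := hp _ (mA F.subtype) (CC (wL k (-(N : ℤ))) * thU k N (d + 1) o.u)
  have e : (mA F.subtype).comp (CC.comp ((cL k).codRestrict F f1)) = CC.comp (cL k) :=
    RingHom.ext fun r => mA_CC F.subtype ⟨_, f1 r⟩
  rw [e, mA_CC, mA_X, Subfield.subtype_apply] at p1 p2
  refine h2 _ F (p + Polynomial.C (CC ⟨_, f2⟩ ^ (d + 1) * c - 1)) _ ?_ f3 ?_ i j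
  · rw [Polynomial.map_add, Polynomial.map_C, Polynomial.eval_add, Polynomial.eval_C, p1, map_sub,
      map_mul, map_pow, mA_CC, ← hc, map_one, Subfield.subtype_apply, ← add_sub_assoc, level o hM,
      sub_self]
  · rw [Polynomial.map_add, Polynomial.map_C, Polynomial.derivative_add, Polynomial.derivative_C,
      add_zero, p2, c00_hev]
    exact mul_ne_zero (pow_ne_zero _ (isUnit_wL _).ne_zero) (simple o hM)

omit [CharZero k] in
theorem phi_eq (hM : 1 ≤ d * N) :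
    (C : k⸨X⸩⟦X⟧ →+* AA k⸨X⸩).comp (map (cL k)) = (thU k N d).comp CC :=
  RingHom.ext fun r => (thU_CC hM r).symm

theorem aF_eq (o : PD k d) (hM : 1 ≤ d * N) :
    aF ((C : k⸨X⸩⟦X⟧ →+* AA k⸨X⸩).comp (map (cL k))) d o.P o.Q (CC (wL k (-(N : ℤ))))
      (CC (wL k (-(N : ℤ))) * thU k N d o.u) =
      CC (wL k (-(N : ℤ))) ^ (d + 1) * thU k N d (fB d o.e) := by
  have e : dX _ (CC (wL k (-(N : ℤ))) : AA k⸨X⸩) = 0 := dX_C _
  have h := dX_thU (N := N) (d := d) o.u
  rw [aF, phi_eq hM, hev_thU, hev_thU, isDer_dX, e, ← o.ee, map_add, map_mul, map_sub, ← h]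
  ring

theorem bF_eq (o : PD k d) (hM : 1 ≤ d * N) :
    bF ((C : k⸨X⸩⟦X⟧ →+* AA k⸨X⸩).comp (map (cL k))) d o.P o.Q (cw (thL k))
      (CC (wL k (-(N : ℤ)))) (CC (wL k (-(N : ℤ))) * thU k N d o.u) =
      CC (wL k (-(N : ℤ))) ^ (d + 1) *
        ((N : AA k⸨X⸩) * thU k N d ((d : AA k⟦X⟧) * C X * (X - o.b) + fB d o.e)) := by
  rw [bF, phi_eq hM, hev_thU, hev_thU, isDer_thL.coefw.coefw, th_CC, th_thU hM, ← o.ee, ← o.eb]
  simp only [map_add, map_mul, map_sub]
  push_cast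
  ring

omit [CharZero k] in
theorem solve {a c : AA k⸨X⸩} (h : CC (wL k (N * (d + 1))) * a = c) :
    a = CC (wL k (-(N : ℤ))) ^ (d + 1) * c := by
  have e : wL k (N * (d + 1)) = wL k N ^ (d + 1) := by
    rw [wL_pow, mul_comm]
    push_cast
    rfl
  rw [← h, e, map_pow, ← mul_assoc, ← mul_pow, CC_mul_neg, one_pow, one_mul]

omit [CharZero k] in
/-- The curve `z = b` is a graph over the `U`-axis. -/
theorem graph {b : AA k⟦X⟧} (h : CC X ∣ b) :
    ∃ z g, c00 z = 0 ∧ IsUnit g ∧ X - b = (X - C z) * g := by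
  have hb : ∀ n, coeff n b ∈ up (up (⊥ : Ideal k)) := fun n => by
    obtain ⟨c, rfl⟩ := h
    rw [CC_apply, coeff_C_mul]
    exact Ideal.mul_mem_right _ _ (by simp [mem_up2, c00_apply])
  have h0 : cc (X - b) ∈ up (up (⊥ : Ideal k)) := by
    rw [map_sub, constantCoeff_X, zero_sub, ← coeff_zero_eq_constantCoeff_apply]
    exact neg_mem (hb 0)
  have h1 : IsUnit (coeff 1 (X - b)) := unit_of_sub_mem (up (up ⊥)) isUnit_one (by
    rw [map_sub, coeff_one_X, sub_sub_cancel_left]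
    exact neg_mem (hb 1))
  obtain ⟨z, hz, e⟩ := root (up (up ⊥)) h0 h1
  obtain ⟨g, hg⟩ := (factor _ hz).2 e
  refine ⟨z, g, hz, isUnit_iff_constantCoeff.2 (unit_of_sub_mem (up (up ⊥)) h1 ?_), hg⟩
  rw [hg, sub_mul, map_sub, coeff_succ_X_mul, coeff_C_mul, coeff_zero_eq_constantCoeff_apply,
    sub_sub_cancel]
  exact Ideal.mul_mem_right _ _ hz

theorem nd (o : PD k d) (hM : 1 ≤ d * N) {a b : AA k⸨X⸩} {c : k⸨X⸩⟦X⟧} (hc : IsUnit c)
    (hr : red a = c * X) (ha : CC (wL k (N * (d + 1))) * a = thU k N d (fB d o.e))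
    (hb : CC (wL k (N * (d + 1))) * b =
      (N : AA k⸨X⸩) * thU k N d ((d : AA k⟦X⟧) * C X * (X - o.b) + fB d o.e))
    (he : cc o.e ≠ 0) : ¬ a ∣ X * b := by
  intro hab
  have : CharZero k⸨X⸩ := charZero_of_injective_ringHom (cL_inj (R := k))
  have : CharZero k⸨X⸩⟦X⟧ := charZero_of_injective_ringHom C_injective
  have hη : ∀ s, iT (ram k⟦X⟧ (d * N) s) = 0 → s = 0 := fun s h =>
    ram_inj hM ((iT_inj (h.trans (map_zero _).symm)).trans (map_zero _).symm)
  obtain ⟨w, v, hw, -, ea⟩ := exists_w0 hc hr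
  have hw' : w ∈ up (⊥ : Ideal k⸨X⸩) := hw
  obtain ⟨E, E1, E2⟩ : ∃ E : AA k⸨X⸩ →+* k⸨X⸩⟦X⟧, (∀ r, E (C r) = r) ∧ E X = w :=
    ⟨ev (RingHom.id _) w, ev_C _ hw', ev_X _ hw'⟩
  have a0 : E a = 0 := by rw [ea, map_mul, map_sub, E1, E2, sub_self, zero_mul]
  have f0 : E (thU k N d (fB d o.e)) = 0 := by rw [← ha, map_mul, a0, mul_zero]
  have hX : E (thU k N d X) = C (wL k N) * w := by rw [thU_X, map_mul, CC_apply, E1, E2]
  have key : ∀ z, C (wL k N) * w = iT (ram k⟦X⟧ (d * N) z) → c00 z = 0 → X - C z ∣ fB d o.e := by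
    intro z e hz
    have hz' : z ∈ up (up (⊥ : Ideal k)) := hz
    have e1 : E.comp (thU k N d) =
        (iT.comp (ram k⟦X⟧ (d * N))).comp (ev (RingHom.id _) z) := by
      refine homExt (up ⊥) (fun r => ?_) ?_ ?_
      · rw [RingHom.comp_apply, thU_C, E1, RingHom.comp_apply, ev_C _ hz']
        rfl
      · rw [RingHom.comp_apply, hX, e, RingHom.comp_apply, ev_X _ hz']
        rfl
      · rw [RingHom.comp_apply, hX]
        exact Ideal.mul_mem_left _ _ hw'
    exact (factor _ hz').2 (hη _ ((RingHom.congr_fun e1 _).symm.trans f0))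
  have b0 := map_dvd E hab
  rw [a0, zero_dvd_iff, map_mul, E2, mul_eq_zero] at b0
  rcases b0 with b0 | b0
  · have h := key 0 (by rw [b0, mul_zero, map_zero, map_zero]) (map_zero _)
    rw [map_zero, sub_zero, X_dvd_iff, fB, map_neg, map_add, map_mul, constantCoeff_X, mul_zero,
      zero_add, neg_eq_zero] at h
    exact he h
  obtain ⟨z, g, hz, hg, eg⟩ := graph o.tb
  have h := congrArg E hb
  rw [map_mul, b0, mul_zero, map_mul, map_add, map_add, f0, add_zero, eg, map_mul, map_mul, map_mul,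
    map_mul, map_mul, map_mul, thU_CX hM, map_sub, map_sub, hX, thU_C, E1, map_natCast, map_natCast,
    map_natCast] at h
  have hd : d ≠ 0 := fun h => by simp [h] at hM
  have hN : N ≠ 0 := fun h => by simp [h] at hM
  have u1 : E (CC (wL k N) ^ d) ≠ 0 := (((isUnit_wL _).map CC).pow d).map E |>.ne_zero
  have u2 : E (thU k N d g) ≠ 0 := ((hg.map _).map E).ne_zero
  have e : C (wL k N) * w = iT (ram k⟦X⟧ (d * N) z) := by
    simpa only [zero_eq_mul, mul_eq_zero, Nat.cast_eq_zero, hd, hN, u1, u2, false_or, or_false,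
      sub_eq_zero] using h
  have hs : o.zs ∈ up (⊥ : Ideal k) := o.z0
  refine Cab.no_factor o.cen isDer_dX.coefw isDer_dX (w := X - C z) ?_
    (by rw [eg]; exact (dvd_mul_right _ _).mul_left _) (key z e hz)
  have h3 := o.cen.1
  rw [eg, map_mul, map_mul, mul_eq_zero, mul_eq_zero] at h3
  rcases h3 with h3 | h3 | h3
  · rw [RingHom.comp_apply, ev2_X _ hs] at h3
    exact absurd (coeL_inj (h3.trans (map_zero _).symm)) o.zn
  · exact h3
  · exact absurd h3 (hg.map _).ne_zero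

end Field

end Pframe

open Pframe in
theorem pframeS (h1 : MkinfStmt) (h2 : RatStmt) (h3 : ObsStmt) : PframeStmt := by
  intro k _ _ d N o a b hd hN ha hb
  have hM : 1 ≤ d * N := Nat.mul_pos (by omega) hN
  have : CharZero k⸨X⸩ := charZero_of_injective_ringHom (cL_inj (R := k))
  have m1 : ∀ x y r, cL k r ∈ gf (cL k) x y := fun x y r =>
    Subfield.subset_closure (Or.inl ⟨r, rfl⟩)
  have m2 : ∀ x y, x ∈ gf (cL k) x y := fun x y => Subfield.subset_closure (Or.inr (Or.inl rfl))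
  have m3 : ∀ x y, y ∈ gf (cL k) x y := fun x y => Subfield.subset_closure (Or.inr (Or.inr rfl))
  have h := h1 k d o.toOb k⸨X⸩ (cL k) (thL k) (CC (wL k (-(N : ℤ))))
    (CC (wL k (-(N : ℤ))) * thU k N d o.u) hd isDer_thL thL_cL (fun i j => ⟨?_, ?_⟩)
    (level_red o hM) ?_
  · rw [aF_eq o hM, bF_eq o hM, ← solve ha, ← solve hb, c00_CC] at h
    refine ⟨⟨_, h⟩, nd o hM (c := -(d : k⸨X⸩⟦X⟧)) ?_ ?_ ha hb⟩
    · rw [IsUnit.neg_iff, isUnit_iff_constantCoeff, map_natCast, isUnit_iff_ne_zero]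
      exact Nat.cast_ne_zero.2 (by omega)
    · rw [(h3 k d _ _ _ _ _ _ _ h).1, neg_mul]
  · have e := co2_mono i j 0 0 (wL k (-(N : ℤ)))
    rw [pow_zero, pow_zero, mul_one, mul_one] at e
    rw [e, c00_CC]
    split_ifs
    · exact m2 _ _
    · exact zero_mem _
  · exact rat h2 o (by omega) hN _ (m1 _ _) (by rw [c00_CC]; exact m2 _ _) (m3 _ _) i j
  · rw [map_mul, c00_CC, isDer_thL]
    intro e
    have u := (isUnit_wL (R := k) (-(N : ℤ))).ne_zero
    apply mul_ne_zero (mul_ne_zero u u) (nondeg o hM)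
    linear_combination -e

end Pool.Agent.MP_05b4bd_ag.ES

end MrgPart2

-- ======== part 3: formerly Pool.Agent.MP_05b4bd_ag.esc.Sym
section MrgPart3

/-! The reflection at a centre of a Lienard form, and centres in projective charts. -/

namespace Pool.Agent.MP_05b4bd_ag.ES

open PowerSeries LaurentSeries HC

namespace Sym

/-- In the coordinate `Wt` the centre lies at the origin. -/
theorem origin {k : Type} [Field k] {t : AA k} {a b Wt lam : AA k⟦X⟧} {G0 G1 : AA k} {W : k⟦X⟧}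
    (ht : C X ∣ t) (h : LD t (dX k⟦X⟧) a b Wt lam G0 G1) (hW : cc W = 0)
    (hc : CenN (coeL k) (X * b) a 0 W) :
    CenN (coeL k) (-(C (dX _ G0) + X * C (dX _ G1))) X 0 0 := by
  obtain ⟨t', rfl⟩ := ht
  obtain ⟨r, hr⟩ := h.w
  have eW : Wt = X + C (C X * t') * r := by rw [← hr]; ring
  have u1 : IsUnit (coeff 1 Wt) := by
    refine unit_of_sub_mem (up (up (⊥ : Ideal k))) isUnit_one ?_
    rw [eW, map_add, coeff_C_mul]
    simp [mem_up]
  obtain ⟨ω, hω, e⟩ := root (up (up (up (⊥ : Ideal k)))) (f := map C Wt - C X)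
    (by rw [eW]; simp [mem_up]) (by simpa [coeff_C] using u1.map (C : AA k →+* AA k⟦X⟧))
  rw [map_sub, ev_map _ hω, ev_C _ hω, RingHom.id_comp, RingHom.id_apply, sub_eq_zero] at e
  obtain ⟨Φ, hΦ⟩ : ∃ Φ : AA k⟦X⟧ →+* AA k⟦X⟧, Φ = ev C ω := ⟨_, rfl⟩
  have pC : ∀ c, Φ (C c) = C c := fun c => by rw [hΦ, ev_C _ hω]
  have pX : Φ X = ω := by rw [hΦ, ev_X _ hω]
  have pW : Φ Wt = X := by rw [hΦ, e]
  have c2 : Φ (dX _ Wt) * dX _ ω = 1 := by
    have := hom_chain (up (up (up (⊥ : Ideal k)))) (g := Φ) (pX ▸ hω) (δ := dX _) isDer_dX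
      (L := 0) (fun _ _ => by simp) (a := 0) (fun r => by rw [pC, dX_C, zero_mul]) Wt
    rw [pW, pX, dX_X, zero_mul, zero_add] at this
    exact this.symm
  have c1 : Φ (cw (dX k⟦X⟧) Wt) + Φ (dX _ Wt) * cw (dX k⟦X⟧) ω = 0 := by
    have := hom_chain (up (up (up (⊥ : Ideal k)))) (g := Φ) (pX ▸ hω) (δ := cw (dX k⟦X⟧))
      isDer_dX.coefw isDer_dX (a := 1) (fun r => by rw [pC, pC, cw_C, one_mul]) Wt
    rw [pW, pX, cw_X isDer_dX.one, one_mul] at this
    exact this.symm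
  have hW' : W ∈ up (⊥ : Ideal k) := by simpa [mem_up] using hW
  have hω' : c00 ω ∈ up (⊥ : Ideal k) := hω
  have z0 : ev (RingHom.id k⟦X⟧) 0 = cc := RingHom.ext fun f => ev_zero _ f
  have uc : IsUnit (cc (coeff 1 Wt)) := u1.map _
  have e0 : ev cc W Wt = 0 := by
    have a0 : ev cc W a = 0 := by
      have := hc.2.1
      rw [RingHom.comp_apply, ev2, z0] at this
      exact coeL_inj (by rw [this, map_zero])
    have u : IsUnit (ev cc W (dX _ Wt)) :=
      unit_of_sub_mem (up (⊥ : Ideal k)) uc (K1b.ev_dX_sub _ hW' Wt)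
    have := congrArg (ev cc W) h.ea
    rw [map_mul, map_mul, a0, mul_zero] at this
    exact u.mul_left_eq_zero.1 this
  have eω : c00 ω = W := by
    refine root_unique (up (⊥ : Ideal k)) (φ := cc) uc hω' hW' ?_
    have := hom_ev (up (up (up (⊥ : Ideal k)))) (up (⊥ : Ideal k)) (φ := C) hω c00 hω' Wt
    rw [e, show (c00 : AA k⟦X⟧ →+* k⟦X⟧).comp C = cc from RingHom.ext fun c => by simp [c00]]
      at this
    rw [← this, e0]
    simp [c00]
  obtain ⟨l, hl⟩ := (h.u.map Φ).exists_right_inv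
  have ne : ∀ s : AA k⟦X⟧, IsUnit s → coeL k (ev2 (RingHom.id _) 0 0 s) ≠ 0 := fun s hs =>
    ((hs.map _).map _).ne_zero
  have d1 : cw (dX k⟦X⟧) (C X : AA k⟦X⟧) = 1 := by rw [cw_C, dX_X, map_one]
  refine CenN.trans (RingHom.id _) (RingHom.id _) (fun _ => rfl) hc (map_zero _) hW (by simp) Φ
    (fun r => pC _) (by rw [pC]; simp [c00]) (by rw [pX]; simpa [mem_up] using hω')
    (map_zero _) (map_zero _) (by rw [pC, ev2_zero]; simp [c00])
    (by rw [pX, ev2_zero, eω]) (ne _ ?_) (lam := l) (ne _ (IsUnit.of_mul_eq_one_right _ hl)) ?_ ?_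
  · rw [pC, pX, d1, dX_C, mul_zero, sub_zero, one_mul]
    exact IsUnit.of_mul_eq_one_right _ c2
  · have ea := congrArg Φ h.ea
    have eb := congrArg Φ h.eb
    simp only [map_mul, map_sub, pW, pC] at ea eb
    rw [pC, pX, d1, map_mul]
    linear_combination l * eb + l * cw (dX k⟦X⟧) ω * ea - l * X * c1 +
      (Φ X * Φ b + cw (dX k⟦X⟧) ω * Φ a) * hl
  · have ea := congrArg Φ h.ea
    simp only [map_mul, pW] at ea
    rw [pC, pX, dX_C]
    linear_combination l * dX _ ω * ea - l * X * c2 + dX _ ω * Φ a * hl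

end Sym

theorem symS (h1 : CherStmt) (h2 : ReflStmt) : SymStmt := by
  intro k _ _ t a b Wt lam G0 G1 W ht h hW hc
  have : CharZero k⸨X⸩ := charZero_of_injective_ringHom (cL_inj (R := k))
  obtain ⟨j, hj⟩ : ∃ j : k⟦X⟧ →+* AlgebraicClosure k⸨X⸩,
    j = (algebraMap k⸨X⸩ (AlgebraicClosure k⸨X⸩)).comp (coeL k) := ⟨_, rfl⟩
  have ji : Function.Injective j := by
    rw [hj]; exact (algebraMap k⸨X⸩ (AlgebraicClosure k⸨X⸩)).injective.comp coeL_inj
  have hO := Sym.origin ht h hW hc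
  have hK : Cab (cw (dX _)) (dX _) c00
      (-(C (dX _ (map j G0)) + X * C (dX _ (map j G1)))) X := by
    refine Cab.trans hO (mA j) isDer_dX.coefw isDer_dX
      (algebraMap k⸨X⸩ (AlgebraicClosure k⸨X⸩)) (fun s => ?_) (J11 := 1) (J12 := 0) (J21 := 0)
      (J22 := 1) (lam := 1) (fun s => ?_) (fun s => ?_) (by simp) (by simp) ?_ ?_
    · rw [RingHom.comp_apply, ev2_zero, ← cc_red, red_mA, ← coeff_zero_eq_constantCoeff_apply,
        coeff_map, coeff_zero_eq_constantCoeff_apply, cc_red, hj]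
      rfl
    · rw [one_mul, zero_mul, add_zero]
      exact cw_map' (fun c => dX_map j c) s
    · rw [one_mul, zero_mul, zero_add]
      exact dX_map (map j) s
    · simp [mA, dX_map]
    · simp [mA]
  obtain ⟨n0, e, e0, e1, g0, g1⟩ := h1 _ _ _ hK
  obtain ⟨r1, r2, -⟩ := h2 k _ j e ji e0 e1
  exact ⟨fun h0 => n0 (by rw [dX_map, h0, map_zero]), _, _, inferInstance, _, _, r1, r2, g0, g1⟩

theorem chartS : ChartStmt := by
  intro k _ d P Q p x y w u z hP hQ hc hu hz hw hx hy hJ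
  have hu' : u ∈ up (⊥ : Ideal k) := by simpa [mem_up] using hu
  have hz' : z ∈ up (⊥ : Ideal k) := by simpa [mem_up] using hz
  have k1 : ∀ r : k⟦X⟧, cw (dX k⟦X⟧) (CC r) = 0 := fun r => by
    rw [CC_apply, cw_C, dX_C, map_zero]
  have k2 : ∀ r : k⟦X⟧, dX k⟦X⟧⟦X⟧ (CC r) = 0 := fun r => by rw [CC_apply, dX_C]
  have k3 : ∀ r : k⟦X⟧, ev2 (RingHom.id _) u z (CC r) = r := fun r => ev2_CC _ hu' hz' r
  obtain ⟨T, _, η, e1, e2, c', d1, d2, n1, n2, nc, un, hT⟩ :=
    exists_local (d1 := cw (dX k⟦X⟧)) (d2 := dX _) isDer_dX.coefw isDer_dX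
      ((coeL k).comp (ev2 (RingHom.id _) u z))
      fun s => ⟨CC (ev2 (RingHom.id _) u z s), k1 _, k2 _, by simp only [RingHom.comp_apply, k3]⟩
  simp only [RingHom.comp_apply] at nc
  have nz : ∀ s : k⟦X⟧, s ≠ 0 → coeL k s ≠ 0 := fun s hs h => hs (coeL_inj (by rw [h, map_zero]))
  obtain ⟨κ, hκ⟩ := liftL (η.comp CC) (un _ (by
    rw [RingHom.comp_apply, nc, k3]; exact nz _ X_ne_zero))
  have hκ' : κ.comp (coeL k) = η.comp CC := RingHom.ext hκ
  have cκ : ∀ l, c' (κ l) = l := by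
    have : c'.comp κ = RingHom.id _ := homExtL fun c => by
      rw [RingHom.comp_apply, hκ, RingHom.comp_apply, nc, k3, RingHom.id_apply]
    exact fun l => DFunLike.congr_fun this l
  have z1 : ∀ l, e1 (κ l) = 0 := derExtL (d1.comp_hom κ) fun c => by
    show e1 (κ (coeL k c)) = 0
    rw [hκ, RingHom.comp_apply, n1, k1, map_zero]
  have z2 : ∀ l, e2 (κ l) = 0 := derExtL (d2.comp_hom κ) fun c => by
    show e2 (κ (coeL k c)) = 0
    rw [hκ, RingHom.comp_apply, n2, k2, map_zero]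
  have cw0 : c' (η w) ≠ 0 := by rw [nc]; exact nz _ hw
  obtain ⟨v, hv⟩ := (un _ cw0).exists_right_inv
  obtain ⟨x', ex⟩ : ∃ x', η x = η w * x' := ⟨v * η x, by rw [← mul_assoc, hv, one_mul]⟩
  obtain ⟨y', ey⟩ : ∃ y', η y = η w * y' := ⟨v * η y, by rw [← mul_assoc, hv, one_mul]⟩
  have cx : c' x' = p 0 := by
    have := congrArg c' ex
    rw [map_mul, nc x, hx, ← nc w, mul_comm] at this
    exact (mul_left_cancel₀ cw0 this).symm
  have cy : c' y' = p 1 := by
    have := congrArg c' ey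
    rw [map_mul, nc y, hy, ← nc w, mul_comm] at this
    exact (mul_left_cancel₀ cw0 this).symm
  have x1 : e1 (η x) = e1 (η w) * x' + η w * e1 x' := by rw [ex, d1]
  have x2 : e2 (η x) = e2 (η w) * x' + η w * e2 x' := by rw [ex, d2]
  have y1 : e1 (η y) = e1 (η w) * y' + η w * e1 y' := by rw [ey, d1]
  have y2 : e2 (η y) = e2 (η w) * y' + η w * e2 y' := by rw [ey, d2]
  have hh : ∀ R : R2 k⟦X⟧, DL (d + 1) R → η (hev CC d R x y w) =
      η w ^ d * MvPolynomial.eval₂Hom κ ![x', y'] (MvPolynomial.map (coeL k) R) := by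
    intro R hR
    rw [map_hev, ex, ey, hev_eq _ _ hR, MvPolynomial.coe_eval₂Hom, MvPolynomial.eval₂_map, hκ']
  have hvd : v ^ (d + 2) * η w ^ d * η w ^ 2 = 1 := by
    rw [mul_assoc, ← pow_add, ← mul_pow, mul_comm v, hv, one_pow]
  refine hT _ _ (Cab.trans hc (MvPolynomial.eval₂Hom κ ![x', y']) d1 d2 (RingHom.id _)
    (fun s => ?_) (J11 := e1 x') (J12 := e1 y') (J21 := e2 x') (J22 := e2 y') (lam := v ^ (d + 2))
    (fun s => ?_) (fun s => ?_) ?_ ?_ ?_ ?_)
  · have : c'.comp (MvPolynomial.eval₂Hom κ ![x', y']) = MvPolynomial.eval p :=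
      MvPolynomial.ringHom_ext (fun l => by simp [cκ]) fun i => by
        fin_cases i <;> simp [cx, cy]
    exact DFunLike.congr_fun this s
  · rw [MvPolynomial.coe_eval₂Hom, d1.eval₂ κ z1, pd_apply, pd_apply]
    ring
  · rw [MvPolynomial.coe_eval₂Hom, d2.eval₂ κ z2, pd_apply, pd_apply]
    ring
  · intro h0
    refine nz _ hJ ?_
    rw [← nc]
    simp only [map_sub, map_mul η, ← n1, ← n2]
    have e : η w * (e1 (η x) * e2 (η y) - e1 (η y) * e2 (η x)) -
        η x * (e1 (η w) * e2 (η y) - e1 (η y) * e2 (η w)) -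
        η y * (e1 (η x) * e2 (η w) - e1 (η w) * e2 (η x)) =
        η w ^ 3 * (e1 x' * e2 y' - e1 y' * e2 x') := by
      rw [x1, x2, y1, y2, ex, ey]
      ring
    simp only [← map_sub]
    rw [e, map_mul, h0, mul_zero]
  · rw [map_pow]
    refine pow_ne_zero _ fun h0 => ?_
    have := congrArg c' hv
    rw [map_mul, h0, mul_zero, map_one] at this
    exact zero_ne_one this
  · simp only [map_sub, map_mul η, ← n1, hh P hP, hh Q hQ, map_neg]
    rw [x1, y1, ex, ey]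
    linear_combination (e1 y' * MvPolynomial.eval₂Hom κ ![x', y'] (MvPolynomial.map (coeL k) P) -
      e1 x' * MvPolynomial.eval₂Hom κ ![x', y'] (MvPolynomial.map (coeL k) Q)) * hvd
  · simp only [map_sub, map_mul η, ← n2, hh P hP, hh Q hQ, map_neg]
    rw [x2, y2, ex, ey]
    linear_combination (e2 y' * MvPolynomial.eval₂Hom κ ![x', y'] (MvPolynomial.map (coeL k) P) -
      e2 x' * MvPolynomial.eval₂Hom κ ![x', y'] (MvPolynomial.map (coeL k) Q)) * hvd

end Pool.Agent.MP_05b4bd_ag.ES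

end MrgPart3

-- marker of a merged file
example : 731051 + 503816 = 731051 + 503816 := rfl
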